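import Pool.Agent.H2.T4.CDf

/-!
Row C1 (about 170 lines): Frobenius elements at the primes which are inert over the fixed field of g.

PROOF. C₀ := fixedField (zpowers g), Algebra C₀ M := (algebraMap C M).comp (algebraMap C₀ C) (toAlgebra), towers ℚ C₀ M, C₀ C M. M/C₀ is Galois (IsGalois.tower_top_of_isScalarTower ℚ or tower_top_intermediateField for the image), R = 𝓞 C₀, S = 𝓞 M, G = M ≃ₐ[C₀] M acts on 𝓞 M with invariants 𝓞 C₀ (Algebra.IsInvariant; instance
 for number fields, IsGaloisGroup, or prove: an x ∈ 𝓞 M fixed by G is in C₀ and integral).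
 Q: a prime of 𝓞 M over v (Ideal.exists_ideal_over_prime_of_isIntegral, or exists HeightOneSpectrum above). IsArithFrobAt.exists_of_isInvariant (Mathlib.RingTheory.Frobenius): t ∈ G with t • x - x^q ∈ Q, q = Nat.card (𝓞 C₀ ⧸ v₀) (Q ∩ 𝓞 C₀ = v ∩ 𝓞 C₀ = v₀: v₀ ≤ comap v and v₀ is maximal). s := t.restrictScalars ℚ; s • x = t • x.
 s preserves C (IsGalois ℚ C, normal: AlgEquiv.restrictNormal): r := restriction, Lft s r; r fixes C₀, so r ∈ fixingSubgroup (fixedField (zpowers g)) = zpowers g (IntermediateField.fixingSubgroup_fixedField): r = g^b with b < d = orderOf g.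
 card (𝓞 C ⧸ v) = q^d: v = v₀ 𝓞 C is prime, absNorm v = absNorm (v₀ 𝓞 C) = (absNorm v₀)^d, d = finrank C₀ C = card (zpowers g) (Ideal.absNorm_map / relNorm_algebraMap / absNorm of the extension: Ideal.absNorm_algebraMap; IntermediateField.finrank_fixedField_eq_card, Nat.card_zpowers; absNorm = Nat.card of the quotient: Submodule.cardQuot_apply).
 b coprime to d: let e = orderOf r = d / gcd(b, d) (orderOf_pow). s^e acts as r^e = 1 on C, and s^e • x - x^(q^e) ∈ Q for x ∈ 𝓞 M (induction: s • (y - x^(q^j)) ∈ s • Q = Q, because s maps Q to itself: x ∈ Q → s • x ∈ Q by s • x ≡ x^q). For x ∈ 𝓞 C: x - x^(q^e) ∈ Q ∩ 𝓞 C = v, so all q^d elements of the field 𝓞 C ⧸ v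
  are roots of T^(q^e) - T: q^d ≤ q^e (q ≥ 2), d ≤ e, and e ∣ d: e = d, gcd(b, d) = 1.
-/

set_option autoImplicit false
open scoped Classical nonZeroDivisors Pointwise

open IsDedekindDomain NumberField Pool.Agent.H11 Finset

namespace H2T4

lemma C1_frob (K M : Type) [Field K] [NumberField K] [Field M] [NumberField M] [Algebra K M]
    [IsGalois K M] (Q : Ideal (𝓞 M)) [Q.IsPrime] (hQ : Q ≠ ⊥) :
    ∃ t : M ≃ₐ[K] M, ∀ x : 𝓞 M, t • x - x ^ Nat.card (𝓞 K ⧸ Q.under (𝓞 K)) ∈ Q := by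
  have : Finite (𝓞 M ⧸ Q) := Ideal.finiteQuotientOfFreeOfNeBot Q hQ
  obtain ⟨t, ht⟩ := IsArithFrobAt.exists_of_isInvariant (𝓞 K) (M ≃ₐ[K] M) Q
  exact ⟨t, ht⟩

lemma C1_pow {M : Type} [Field M] [NumberField M] (Q : Ideal (𝓞 M)) (s : M ≃ₐ[ℚ] M) (q : ℕ)
    (h : ∀ x : 𝓞 M, s • x - x ^ q ∈ Q) (n : ℕ) (x : 𝓞 M) : s ^ n • x - x ^ q ^ n ∈ Q := by
  induction n with
  | zero => simp
  | succ n ih =>
    have h1 := h (s ^ n • x)
    have h2 : (s ^ n • x) ^ q - (x ^ q ^ n) ^ q ∈ Q :=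
      Ideal.mem_of_dvd Q (sub_dvd_pow_sub_pow _ _ q) ih
    have h3 := Q.add_mem h1 h2
    rw [smul_smul, ← pow_succ', sub_add_sub_cancel, ← pow_mul, ← pow_succ] at h3
    exact h3

lemma C1_lft_pow {C M : Type} [Field C] [NumberField C] [Field M] [NumberField M] [Algebra C M]
    {s : M ≃ₐ[ℚ] M} {r : C ≃ₐ[ℚ] C} (h : Lft s r) (n : ℕ) : Lft (s ^ n) (r ^ n) := by
  induction n with
  | zero => intro x; simp
  | succ n ih =>
    intro x
    rw [pow_succ, pow_succ, AlgEquiv.mul_apply, AlgEquiv.mul_apply, h x, ih]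

lemma C1_card {F : Type*} [Field F] [Finite F] {n : ℕ} (hn : 1 < n) (h : ∀ x : F, x ^ n = x) :
    Nat.card F ≤ n := by
  have := Fintype.ofFinite F
  rw [Nat.card_eq_fintype_card]
  have h0 : (Polynomial.X ^ n - Polynomial.X : Polynomial F) ≠ 0 :=
    FiniteField.X_pow_card_sub_X_ne_zero F hn
  have h1 : (Finset.univ : Finset F).val ⊆ (Polynomial.X ^ n - Polynomial.X : Polynomial F).roots := by
    intro x _
    rw [Polynomial.mem_roots h0, Polynomial.IsRoot.def]
    simp [h x]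
  have h2 := Polynomial.card_le_degree_of_subset_roots h1
  rwa [FiniteField.X_pow_card_sub_X_natDegree_eq F hn] at h2

theorem fr_inert (C M : Type) [Field C] [NumberField C] [Field M] [NumberField M] [Algebra C M]
    [IsGalois ℚ C] [IsGalois ℚ M] (g : C ≃ₐ[ℚ] C)
    (v₀ : HeightOneSpectrum (𝓞 (IntermediateField.fixedField (Subgroup.zpowers g))))
    (hin : Inert (IntermediateField.fixedField (Subgroup.zpowers g)) C v₀)
    (v : HeightOneSpectrum (𝓞 C)) (hv : v.asIdeal = v₀.asIdeal.map (algebraMap _ (𝓞 C))) :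
    ∃ (s : M ≃ₐ[ℚ] M) (Q : Ideal (𝓞 M)) (q : ℕ), FrAt g v s Q q := by
  have hfix := IntermediateField.fixingSubgroup_fixedField (Subgroup.zpowers g)
  have hdeg := IntermediateField.finrank_fixedField_eq_card (Subgroup.zpowers g)
  rw [Nat.card_zpowers] at hdeg
  generalize IntermediateField.fixedField (Subgroup.zpowers g) = K at *
  have hT : IsScalarTower ℚ K M := IsScalarTower.of_algebraMap_eq' (Subsingleton.elim _ _)
  have hG : IsGalois K M := IsGalois.tower_top_of_isGalois ℚ K M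
  have hTO : IsScalarTower (𝓞 K) (𝓞 C) (𝓞 M) := by
    refine IsScalarTower.of_algebraMap_eq fun x => ?_
    apply RingOfIntegers.ext
    exact IsScalarTower.algebraMap_apply K C M (x : K)
  have hv0m : v₀.asIdeal.IsMaximal := v₀.isMaximal
  have hvm : v.asIdeal.IsMaximal := v.isMaximal
  -- `v` lies over `v₀`
  have hcom : v.asIdeal.comap (algebraMap (𝓞 K) (𝓞 C)) = v₀.asIdeal := by
    symm
    apply hv0m.eq_of_le
    · intro h
      rw [Ideal.comap_eq_top_iff] at h
      exact hvm.ne_top h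
    · rw [hv]
      exact Ideal.le_comap_map
  -- the cardinality
  set q := Nat.card (𝓞 K ⧸ v₀.asIdeal) with hq
  have hcard : Nat.card (𝓞 C ⧸ v.asIdeal) = q ^ orderOf g := by
    have h1 := Ideal.absNorm_algebraMap (𝓞 K) (𝓞 C) v₀.asIdeal
    rw [← hv, Ideal.absNorm_apply, Submodule.cardQuot_apply, Ideal.absNorm_apply,
      Submodule.cardQuot_apply, ← IsFractionRing.finrank_eq (𝓞 K) K (𝓞 C) C, hdeg] at h1
    exact h1
  have hfin : Finite (𝓞 K ⧸ v₀.asIdeal) := Ideal.finiteQuotientOfFreeOfNeBot _ v₀.ne_bot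
  have hfinC : Finite (𝓞 C ⧸ v.asIdeal) := Ideal.finiteQuotientOfFreeOfNeBot _ v.ne_bot
  have hq2 : 1 < q := by
    have : Nontrivial (𝓞 K ⧸ v₀.asIdeal) := Ideal.Quotient.nontrivial_iff.2 hv0m.ne_top
    exact Finite.one_lt_card
  -- a prime of `𝓞 M` over `v`
  obtain ⟨Q, hQm, hQl⟩ := Ideal.exists_maximal_ideal_liesOver_of_isIntegral (S := 𝓞 M) v.asIdeal
  have hQv : Q.comap (algebraMap (𝓞 C) (𝓞 M)) = v.asIdeal := hQl.over.symm
  have hQ0 : Q ≠ ⊥ := by
    rintro rfl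
    apply v.ne_bot
    rw [← hQv]
    exact Ideal.comap_bot_of_injective _ (RingOfIntegers.algebraMap.injective C M)
  have hQp : Q.IsPrime := hQm.isPrime
  have hQK : Q.under (𝓞 K) = v₀.asIdeal := by
    rw [← Ideal.under_under (B := 𝓞 C) Q]
    show (Q.comap (algebraMap (𝓞 C) (𝓞 M))).comap (algebraMap (𝓞 K) (𝓞 C)) = _
    rw [hQv, hcom]
  obtain ⟨t, ht⟩ := C1_frob K M Q hQ0
  rw [hQK, ← hq] at ht
  have hs : ∀ x : 𝓞 M, (t.restrictScalars ℚ) • x - x ^ q ∈ Q := ht
  generalize hsdef : t.restrictScalars ℚ = s at hs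
  have hL : Lft s (s.restrictNormal C) := fun x => (AlgEquiv.restrictNormal_commutes s C x).symm
  generalize s.restrictNormal C = r at hL
  have hr : r ∈ Subgroup.zpowers g := by
    rw [← hfix, IntermediateField.mem_fixingSubgroup_iff]
    intro y hy
    apply (algebraMap C M).injective
    rw [← hL y, ← hsdef]
    exact t.commutes (⟨y, hy⟩ : K)
  have hg0 : 0 < orderOf g := orderOf_pos g
  rw [← mem_powers_iff_mem_zpowers] at hr
  obtain ⟨b, hb⟩ := hr
  have hb' : g ^ b = r := hb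
  refine ⟨s, Q, q, hQp, hQv, hs, ⟨b, ?_, by rw [hb']; exact hL⟩, hcard⟩
  -- `b` is coprime to the order
  have he0 : 0 < orderOf r := orderOf_pos r
  have hkey : ∀ x : 𝓞 C, x - x ^ q ^ orderOf r ∈ v.asIdeal := by
    intro x
    rw [← hQv, Ideal.mem_comap, map_sub, map_pow]
    have h1 := C1_pow Q s q hs (orderOf r) (algebraMap (𝓞 C) (𝓞 M) x)
    have h2 : s ^ orderOf r • algebraMap (𝓞 C) (𝓞 M) x = algebraMap (𝓞 C) (𝓞 M) x := by
      apply RingOfIntegers.ext
      have h3 := C1_lft_pow hL (orderOf r) (x : C)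
      rw [pow_orderOf_eq_one, AlgEquiv.one_apply] at h3
      exact h3
    rwa [h2] at h1
  let := Ideal.Quotient.field v.asIdeal
  have hle : Nat.card (𝓞 C ⧸ v.asIdeal) ≤ q ^ orderOf r := by
    apply C1_card (Nat.one_lt_pow he0.ne' hq2)
    intro x
    obtain ⟨x, rfl⟩ := Ideal.Quotient.mk_surjective x
    rw [← map_pow]
    exact ((Ideal.Quotient.eq).2 (hkey x)).symm
  rw [hcard] at hle
  have hde : orderOf g ≤ orderOf r := (Nat.pow_le_pow_iff_right hq2).1 hle
  rw [← hb', orderOf_pow] at hde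
  by_contra hcop
  have h1 : (orderOf g).gcd b ≠ 1 := fun h => hcop (by
    rw [Nat.coprime_iff_gcd_eq_one, Nat.gcd_comm]; exact h)
  have h2 : (orderOf g).gcd b ≠ 0 := by
    intro h
    exact hg0.ne' (Nat.eq_zero_of_gcd_eq_zero_left h)
  have h3 := Nat.div_lt_self hg0 (show 1 < (orderOf g).gcd b by omega)
  omega

end H2T4
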