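import Pool.Agent.H2.T4.CDf

/-!
Row C2 (about 120 lines): conjugation of Frobenius data and its consequence for the field cut out by a.

PROOF. fr_conj: let r extend t (s' := r * s * r⁻¹, Q' := r • Q = comap of Q under r⁻¹). s' • x - x^q = r • (s • (r⁻¹ • x) - (r⁻¹ • x)^q) ∈ r • Q. Q' is prime (pointwise action of a group by ring automorphisms: Ideal.pointwise_smul_def, IsPrime of map of an equivalence, or comap). Q' ∩ 𝓞 C = t • (Q ∩ 𝓞 C) = t • v (r extends t: for x ∈ 𝓞 C, x ∈ r • Q iff r⁻¹ • x ∈ Q iff t⁻¹ • x ∈ v).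
  Lft s' (t * g^b * t⁻¹) and t g^b t⁻¹ = g^b as Gal(C/ℚ) is abelian. card (𝓞 C ⧸ t • v) = card (𝓞 C ⧸ v) (ring isomorphism). Existence of r: AlgEquiv.liftNormal or restrictNormalHom_surjective (M/ℚ normal).
 fr_mem: σ := the element of Gal(M/C) equal to s^d, d = orderOf g (s^d extends g^(b d) = 1). σ ∈ ker a, so σ fixes N₁ := fixedField a.ker pointwise (IntermediateField.mem_fixedField_iff). s^d • x - x^(q^d) ∈ Q for all x ∈ 𝓞 M (induction, s • Q ⊆ Q since s • x ≡ x^q mod Q).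
  Q₁ := comap Q to 𝓞 N₁: prime, Q₁ ∩ 𝓞 C = v. For x ∈ 𝓞 N₁: x - x^(q^d) ∈ Q₁. The residue field k₁ = 𝓞 N₁ ⧸ Q₁ (a domain, finite: Q₁ ≠ ⊥) has at most q^d elements (roots of T^(q^d) - T), and 𝓞 C ⧸ v injects into it with q^d elements, so 𝓞 C → 𝓞 N₁ ⧸ Q₁ is surjective.
-/

set_option autoImplicit false
open scoped Classical nonZeroDivisors Pointwise

open IsDedekindDomain NumberField Pool.Agent.H11 Finset

namespace H2T4

theorem C2_inv {K : Type} [Field K] [NumberField K] (r : K ≃ₐ[ℚ] K) (x : K) : r (r⁻¹ x) = x := by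
  rw [← AlgEquiv.mul_apply, mul_inv_cancel, AlgEquiv.one_apply]

theorem C2_inv' {K : Type} [Field K] [NumberField K] (r : K ≃ₐ[ℚ] K) (x : K) : r⁻¹ (r x) = x := by
  rw [← AlgEquiv.mul_apply, inv_mul_cancel, AlgEquiv.one_apply]

theorem fr_conj (C M : Type) [Field C] [NumberField C] [Field M] [NumberField M] [Algebra C M]
    [IsGalois ℚ C] [IsGalois ℚ M] (hab : ∀ g g' : C ≃ₐ[ℚ] C, g * g' = g' * g) (g t : C ≃ₐ[ℚ] C)
    (v v' : HeightOneSpectrum (𝓞 C)) (s : M ≃ₐ[ℚ] M) (Q : Ideal (𝓞 M)) (q : ℕ)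
    (h : FrAt g v s Q q) (hv : v'.asIdeal = t • v.asIdeal) :
    ∃ (s' : M ≃ₐ[ℚ] M) (Q' : Ideal (𝓞 M)), FrAt g v' s' Q' q := by
  obtain ⟨hQ, hQv, hs, ⟨b, hb, hbs⟩, hcard⟩ := h
  obtain ⟨r, hr⟩ : ∃ r : M ≃ₐ[ℚ] M, ∀ x : C, r (algebraMap C M x) = algebraMap C M (t x) :=
    ⟨t.liftNormal M, fun x => AlgEquiv.liftNormal_commutes t M x⟩
  have hr' : ∀ x : C, r⁻¹ (algebraMap C M x) = algebraMap C M (t⁻¹ x) := by
    intro x
    rw [← C2_inv' r (algebraMap C M (t⁻¹ x)), hr, C2_inv]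
  have hro : ∀ x : 𝓞 C, r⁻¹ • algebraMap (𝓞 C) (𝓞 M) x = algebraMap (𝓞 C) (𝓞 M) (t⁻¹ • x) := by
    intro x
    apply RingOfIntegers.ext
    exact hr' x
  refine ⟨r * s * r⁻¹, r • Q, Ideal.IsPrime.smul (H := hQ) r, ?_, ?_, ⟨b, hb, ?_⟩, ?_⟩
  · ext x
    rw [Ideal.mem_comap, Ideal.mem_pointwise_smul_iff_inv_smul_mem, hro, hv,
      Ideal.mem_pointwise_smul_iff_inv_smul_mem, ← hQv, Ideal.mem_comap]
  · intro x
    rw [Ideal.mem_pointwise_smul_iff_inv_smul_mem, smul_sub, smul_pow', mul_smul, mul_smul,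
      inv_smul_smul]
    exact hs _
  · intro x
    have h1 : (r * s * r⁻¹) (algebraMap C M x) = r (s (r⁻¹ (algebraMap C M x))) := rfl
    have h2 : t * (g ^ b * t⁻¹) = g ^ b := by
      rw [hab (g ^ b) t⁻¹, ← mul_assoc, mul_inv_cancel, one_mul]
    have h3 := hbs (t⁻¹ x)
    rw [h1, hr', h3, hr]
    congr 1
    exact congrArg (fun k : C ≃ₐ[ℚ] C => k x) h2
  · rw [← hcard]
    refine (Nat.card_congr (Ideal.quotientEquiv v.asIdeal v'.asIdeal
      (MulSemiringAction.toRingEquiv (C ≃ₐ[ℚ] C) (𝓞 C) t) ?_).toEquiv).symm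
    rw [hv]
    rfl

/-- a domain all of whose elements are roots of `X ^ N - X` -/
theorem C2_card {k : Type} [CommRing k] [IsDomain k] [Finite k] {N : ℕ} (hN : 1 < N)
    (h : ∀ z : k, z ^ N = z) : Nat.card k ≤ N := by
  have : Fintype k := Fintype.ofFinite k
  obtain ⟨P, hP⟩ : ∃ P : Polynomial k, P = Polynomial.X ^ N - Polynomial.X := ⟨_, rfl⟩
  have hc : P.coeff N = 1 := by
    rw [hP, Polynomial.coeff_sub, Polynomial.coeff_X_pow, Polynomial.coeff_X, if_pos rfl,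
      if_neg (by omega), sub_zero]
  have h0 : P ≠ 0 := by
    intro h0
    rw [h0, Polynomial.coeff_zero] at hc
    exact zero_ne_one hc
  have hd : P.natDegree ≤ N := by
    rw [hP]
    refine (Polynomial.natDegree_sub_le _ _).trans (max_le ?_ ?_)
    · rw [Polynomial.natDegree_X_pow]
    · rw [Polynomial.natDegree_X]
      exact hN.le
  have h1 : (Finset.univ : Finset k) ⊆ P.roots.toFinset := by
    intro z _
    rw [Multiset.mem_toFinset, Polynomial.mem_roots h0, Polynomial.IsRoot, hP, Polynomial.eval_sub,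
      Polynomial.eval_pow, Polynomial.eval_X, h z, sub_self]
  rw [Nat.card_eq_fintype_card, ← Finset.card_univ]
  exact (Finset.card_le_card h1).trans ((Multiset.toFinset_card_le _).trans
    ((Polynomial.card_roots' P).trans hd))

theorem C2_lft_pow {C M : Type} [Field C] [NumberField C] [Field M] [NumberField M] [Algebra C M]
    {s : M ≃ₐ[ℚ] M} {g : C ≃ₐ[ℚ] C} (h : Lft s g) (k : ℕ) : Lft (s ^ k) (g ^ k) := by
  induction k with
  | zero =>
    intro x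
    rfl
  | succ k ih =>
    intro x
    rw [pow_succ', pow_succ', AlgEquiv.mul_apply, ih x, h, AlgEquiv.mul_apply]

theorem C2_pow {M : Type} [Field M] [NumberField M] {s : M ≃ₐ[ℚ] M} {Q : Ideal (𝓞 M)}
    {q : ℕ} (hq : q ≠ 0) (hs : ∀ x : 𝓞 M, s • x - x ^ q ∈ Q) (k : ℕ) :
    ∀ x : 𝓞 M, s ^ k • x - x ^ (q ^ k) ∈ Q := by
  have hQs : ∀ x ∈ Q, s • x ∈ Q := by
    intro x hx
    have h1 := Q.add_mem (hs x) (Ideal.pow_mem_of_mem Q hx q (Nat.pos_of_ne_zero hq))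
    rwa [sub_add_cancel] at h1
  induction k with
  | zero =>
    intro x
    rw [pow_zero, pow_zero, one_smul, pow_one, sub_self]
    exact Q.zero_mem
  | succ k ih =>
    intro x
    have e : s ^ (k + 1) • x - x ^ (q ^ (k + 1)) =
        s • (s ^ k • x - x ^ (q ^ k)) + (s • (x ^ (q ^ k)) - (x ^ (q ^ k)) ^ q) := by
      rw [pow_succ', mul_smul, smul_sub, ← pow_mul, ← pow_succ]
      ring
    rw [e]
    exact Q.add_mem (hQs _ (ih x)) (hs _)

theorem fr_mem (C M : Type) [Field C] [NumberField C] [Field M] [NumberField M] [Algebra C M]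
    [IsGalois ℚ C] [IsGalois ℚ M] {ℓ : ℕ} (a : (M ≃ₐ[C] M) →* Multiplicative (ZMod ℓ))
    (g : C ≃ₐ[ℚ] C) (v : HeightOneSpectrum (𝓞 C)) (s : M ≃ₐ[ℚ] M) (Q : Ideal (𝓞 M)) (q : ℕ)
    (h : FrAt g v s Q q)
    (ha : ∀ σ : M ≃ₐ[C] M, (∀ x : M, σ x = (s ^ orderOf g) x) → a σ = 1) :
    ∃ Q₁ : Ideal (𝓞 (IntermediateField.fixedField a.ker)), Q₁.IsPrime ∧
      Q₁.comap (algebraMap (𝓞 C) (𝓞 (IntermediateField.fixedField a.ker))) = v.asIdeal ∧
      ∀ x : 𝓞 (IntermediateField.fixedField a.ker), ∃ y : 𝓞 C,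
        x - algebraMap (𝓞 C) (𝓞 (IntermediateField.fixedField a.ker)) y ∈ Q₁ := by
  obtain ⟨hQ, hQv, hs, ⟨b, hb, hbs⟩, hcard⟩ := h
  have hfinv : Finite (𝓞 C ⧸ v.asIdeal) := Ring.HasFiniteQuotients.finiteQuotient v.ne_bot
  have hnt : Nontrivial (𝓞 C ⧸ v.asIdeal) := Ideal.Quotient.nontrivial_iff.2 v.isPrime.ne_top
  have hN : 1 < q ^ orderOf g := by
    rw [← hcard]
    exact Finite.one_lt_card
  have hq0 : q ≠ 0 := by
    rintro rfl
    rw [zero_pow (orderOf_pos g).ne'] at hN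
    omega
  have hsC : ∀ x : C, (s ^ orderOf g) (algebraMap C M x) = algebraMap C M x := by
    intro x
    have h1 := C2_lft_pow hbs (orderOf g) x
    rw [h1, ← pow_mul, mul_comm, pow_mul, pow_orderOf_eq_one, one_pow, AlgEquiv.one_apply]
  let σ : M ≃ₐ[C] M := AlgEquiv.ofRingEquiv (f := (s ^ orderOf g).toRingEquiv) hsC
  have hσ : ∀ x : M, σ x = (s ^ orderOf g) x := fun x => rfl
  have hσa : σ ∈ a.ker := ha σ hσ
  have hfix : ∀ x : 𝓞 (IntermediateField.fixedField a.ker),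
      s ^ orderOf g • algebraMap (𝓞 (IntermediateField.fixedField a.ker)) (𝓞 M) x =
        algebraMap (𝓞 (IntermediateField.fixedField a.ker)) (𝓞 M) x := by
    intro x
    apply RingOfIntegers.ext
    exact (IntermediateField.mem_fixedField_iff a.ker _).1
      ((x : IntermediateField.fixedField a.ker)).2 σ hσa
  obtain ⟨Q₁, hQ₁⟩ : ∃ Q₁ : Ideal (𝓞 (IntermediateField.fixedField a.ker)),
    Q₁ = Q.comap (algebraMap (𝓞 (IntermediateField.fixedField a.ker)) (𝓞 M)) := ⟨_, rfl⟩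
  have hprime : Q₁.IsPrime := by
    rw [hQ₁]
    exact Ideal.comap_isPrime _ _
  have hcomap : Q₁.comap (algebraMap (𝓞 C) (𝓞 (IntermediateField.fixedField a.ker))) = v.asIdeal := by
    rw [hQ₁, Ideal.comap_comap, ← IsScalarTower.algebraMap_eq, hQv]
  have hne : Q₁ ≠ ⊥ := by
    rintro rfl
    apply v.ne_bot
    rw [← hcomap, eq_bot_iff]
    intro x hx
    rw [Ideal.mem_comap, Ideal.mem_bot] at hx
    rw [Ideal.mem_bot]
    apply (RingOfIntegers.ext_iff).2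
    have h1 := congrArg (algebraMap (𝓞 (IntermediateField.fixedField a.ker)) M) hx
    rw [map_zero] at h1
    have h2 : algebraMap C M (x : C) = 0 := h1
    rw [map_eq_zero] at h2
    rw [h2]
    exact (map_zero (algebraMap (𝓞 C) C)).symm
  have hfin : Finite (𝓞 (IntermediateField.fixedField a.ker) ⧸ Q₁) :=
    Ring.HasFiniteQuotients.finiteQuotient hne
  have hdom : IsDomain (𝓞 (IntermediateField.fixedField a.ker) ⧸ Q₁) := Ideal.Quotient.isDomain Q₁
  have hroot : ∀ z : 𝓞 (IntermediateField.fixedField a.ker) ⧸ Q₁, z ^ (q ^ orderOf g) = z := by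
    intro z
    obtain ⟨x, rfl⟩ := Ideal.Quotient.mk_surjective z
    rw [← map_pow, eq_comm, Ideal.Quotient.eq, hQ₁, Ideal.mem_comap, map_sub, map_pow]
    have h1 := C2_pow hq0 hs (orderOf g)
      (algebraMap (𝓞 (IntermediateField.fixedField a.ker)) (𝓞 M) x)
    rw [hfix x] at h1
    exact h1
  have hle := C2_card hN hroot
  let φ : 𝓞 C ⧸ v.asIdeal →+* 𝓞 (IntermediateField.fixedField a.ker) ⧸ Q₁ :=
    Ideal.quotientMap Q₁ (algebraMap (𝓞 C) (𝓞 (IntermediateField.fixedField a.ker))) hcomap.ge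
  have hinj : Function.Injective φ := Ideal.quotientMap_injective' hcomap.le
  have hbij := hinj.bijective_of_nat_card_le (hle.trans hcard.ge)
  refine ⟨Q₁, hprime, hcomap, fun x => ?_⟩
  obtain ⟨y, hy⟩ := hbij.surjective (Ideal.Quotient.mk Q₁ x)
  obtain ⟨y, rfl⟩ := Ideal.Quotient.mk_surjective y
  refine ⟨y, ?_⟩
  rw [← Ideal.Quotient.eq, ← hy]
  rfl

end H2T4
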