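import Pool.Agent.H2.T4.CDf

/-!
Row C4 (about 120 lines): the norm relation kills a on the Frobenius elements.

PROOF. cj (s * t) σ = cj t (cj s σ) (cj_cj), cj s is a homomorphism in σ (cj_mul). For ρ ∈ Gal(M/C) (ρ' := ρ.restrictScalars ℚ, Lft ρ' 1): a (cj ρ' σ) = a (ρ⁻¹ σ ρ) = a σ (commutative target). So a (cj s σ) depends only on the restriction of s to C: if Lft s g and Lft s' g then s' = s * ρ' with ρ' of this form and a (cj s' σ) = a (cj ρ' (cj s σ)) = a (cj s σ).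
 Let s₁ be a lift of g (M/ℚ normal: AlgEquiv.restrictNormalHom_surjective / liftNormal), d = orderOf g. For t = s we have Lft s (g^b), so Lft (s^j) (g^(b j)) and a (cj (s^j) σ) = a (cj (s₁^(b j)) σ) = F((b j) mod d), F(i) := a (cj (s₁^i) σ), which is periodic mod d (s₁^d extends 1). j ↦ b j mod d is a permutation of range d
  (b coprime to d; on ZMod d multiplication by a unit, or Nat.Coprime ...), so ∏_{j<d} a (cj (s^j) σ) = ∏_{i<d} F(i) = 1 by NK.
 For σ = s^d as an element of Gal(M/C): cj (s^j) σ = σ (s^j commutes with s^d; ext), so a(σ)^d = 1 and a(σ)^ℓ = 1 (Multiplicative (ZMod ℓ)), d coprime to ℓ: a σ = 1.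
-/

set_option autoImplicit false
open scoped Classical nonZeroDivisors Pointwise

open IsDedekindDomain NumberField Pool.Agent.H11 Finset

namespace H2T4

variable {C M : Type} [Field C] [NumberField C] [Field M] [NumberField M] [Algebra C M]

private theorem C4_lift_pow {s : M ≃ₐ[ℚ] M} {g : C ≃ₐ[ℚ] C}
    (h : Lft s g) (n : ℕ) : Lft (s ^ n) (g ^ n) := by
  induction n with
  | zero => intro x; rfl
  | succ n ih =>
    intro x
    rw [pow_succ, pow_succ, AlgEquiv.mul_apply, AlgEquiv.mul_apply, h, ih]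

private theorem C4_dep [IsGalois ℚ C] {ℓ : ℕ} (a : (M ≃ₐ[C] M) →* Multiplicative (ZMod ℓ))
    {g : C ≃ₐ[ℚ] C} {s s' : M ≃ₐ[ℚ] M} (h : Lft s g) (h' : Lft s' g) (σ : M ≃ₐ[C] M) :
    a (cj s' σ) = a (cj s σ) := by
  have h0 : ∀ x : C, (s⁻¹ * s') (algebraMap C M x) = algebraMap C M x := by
    intro x
    rw [AlgEquiv.mul_apply, h' x, ← h x]
    exact s.symm_apply_apply _
  let ρ : M ≃ₐ[C] M := { (s⁻¹ * s' : M ≃ₐ[ℚ] M) with commutes' := h0 }
  have hρ : ∀ y : M, ρ y = (s⁻¹ * s') y := fun y => rfl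
  have h1 : ρ * cj s' σ = cj s σ * ρ := by
    ext y
    have e1 : s (s⁻¹ (s' y)) = s' y := s.apply_symm_apply _
    rw [AlgEquiv.mul_apply, AlgEquiv.mul_apply, hρ, hρ, AlgEquiv.mul_apply, AlgEquiv.mul_apply,
      apply_cj s' σ y, cj_apply s σ, e1]
  have h2 := congrArg a h1
  rw [map_mul, map_mul, mul_comm (a (cj s σ))] at h2
  exact mul_left_cancel h2

private theorem C4_pow {ℓ : ℕ} (x : Multiplicative (ZMod ℓ)) : x ^ ℓ = 1 := by
  apply Multiplicative.toAdd.injective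
  rw [toAdd_pow, toAdd_one, nsmul_eq_mul, ZMod.natCast_self, zero_mul]

theorem a_frob (C M : Type) [Field C] [NumberField C] [Field M] [NumberField M] [Algebra C M]
    [IsGalois ℚ C] [IsGalois ℚ M] {ℓ : ℕ} (hℓ : ℓ.Prime) (a : (M ≃ₐ[C] M) →* Multiplicative (ZMod ℓ))
    (g : C ≃ₐ[ℚ] C) (hd : (orderOf g).Coprime ℓ) (hNK : NK a g) (b : ℕ)
    (hb : b.Coprime (orderOf g)) (s : M ≃ₐ[ℚ] M) (hs : Lft s (g ^ b)) (σ : M ≃ₐ[C] M)
    (hσ : ∀ x : M, σ x = (s ^ orderOf g) x) : a σ = 1 := by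
  have hd0 : 0 < orderOf g := orderOf_pos g
  set d := orderOf g with hdd
  obtain ⟨s₁, hs₁⟩ : ∃ s₁ : M ≃ₐ[ℚ] M, Lft s₁ g := ⟨g.liftNormal M, fun x => g.liftNormal_commutes M x⟩
  have h1 : ∀ j : ℕ, a (cj (s ^ j) σ) = a (cj (s₁ ^ ((b * j) % d)) σ) := by
    intro j
    have e1 : Lft (s ^ j) (g ^ (b * j)) := by
      rw [pow_mul]; exact C4_lift_pow hs j
    have e2 : Lft (s₁ ^ ((b * j) % d)) (g ^ (b * j)) := by
      rw [← pow_mod_orderOf g (b * j)]
      exact C4_lift_pow hs₁ _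
    exact C4_dep a e2 e1 σ
  have h2 : ∏ j ∈ range d, a (cj (s ^ j) σ) = 1 := by
    rw [← hNK s₁ hs₁ σ]
    have hinj : Set.InjOn (fun j => (b * j) % d) (range d : Finset ℕ) := by
      intro j hj j' hj' he
      rw [Finset.coe_range, Set.mem_Iio] at hj hj'
      have e1 : b * j ≡ b * j' [MOD d] := he
      have e2 : j ≡ j' [MOD d] := Nat.ModEq.cancel_left_of_coprime (Nat.Coprime.symm hb) e1
      rw [Nat.ModEq, Nat.mod_eq_of_lt hj, Nat.mod_eq_of_lt hj'] at e2
      exact e2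
    have himg : (range d).image (fun j => (b * j) % d) = range d := by
      apply Finset.eq_of_subset_of_card_le
      · intro x hx
        rw [Finset.mem_image] at hx
        obtain ⟨j, -, rfl⟩ := hx
        exact Finset.mem_range.2 (Nat.mod_lt _ hd0)
      · rw [Finset.card_image_of_injOn hinj]
    calc ∏ j ∈ range d, a (cj (s ^ j) σ) = ∏ j ∈ range d, a (cj (s₁ ^ ((b * j) % d)) σ) :=
          Finset.prod_congr rfl fun j _ => h1 j
      _ = ∏ i ∈ (range d).image (fun j => (b * j) % d), a (cj (s₁ ^ i) σ) :=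
          (Finset.prod_image (f := fun i => a (cj (s₁ ^ i) σ)) hinj).symm
      _ = _ := by rw [himg]
  have h3 : ∀ j : ℕ, cj (s ^ j) σ = σ := by
    intro j
    ext y
    apply (s ^ j).injective
    rw [apply_cj, hσ, hσ, ← AlgEquiv.mul_apply, ← AlgEquiv.mul_apply, ← pow_add, ← pow_add,
      add_comm]
  have h4 : a σ ^ d = 1 := by
    rw [← h2, Finset.prod_congr rfl (fun j _ => by rw [h3 j]), Finset.prod_const, Finset.card_range]
  have h5 : a σ ^ (Nat.gcd d ℓ) = 1 := pow_gcd_eq_one.2 ⟨h4, C4_pow _⟩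
  rwa [Nat.Coprime.gcd_eq_one hd, pow_one] at h5

end H2T4
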