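import Pool.Agent.H2.T4.FDf

/-!
Row FT (about 180 lines): from the layer of degree `q` to a cyclic extension of degree `q^i`.

SETTING. F/F₀ Galois with cyclic group G of order q^i, i ≥ 1. Take F₁ := IntermediateField.fixedField H, H ≤ G the subgroup of order q^(i-1) (generated by g^q, g a generator): F₁/F₀ is Galois of degree q (H normal as G is abelian; IsGalois instance `IsGalois.of_fixedField_normal_subgroup`).
CLAIM. For all places v of F₀ unramified in F, hence outside a finite set S: if v is inert in F₁ then v is inert in F.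
 Let Q be a prime of 𝓞 F above v and D ≤ G its decomposition group (stabilizer). The primes of F above v are permuted transitively by G (Ideal.exists_smul_eq_of_isGaloisGroup / exists_map_eq_of_isGalois), so it is enough that D = G (then Q is the only prime above v, and with e = 1 the ideal map v is Q, prime).
 For every σ ∈ G the primes Q ∩ F₁ and σ Q ∩ F₁ both lie above v, so they are equal (v inert in F₁: only one prime above). So σ Q = τ Q for some τ ∈ H (Gal(F/F₁) = H is transitive on the primes above Q ∩ F₁), τ⁻¹ σ ∈ D, so G = H D. If D ≠ G then D ≤ H (in a cyclic group of order q^i every proper subgroup is contained in the subgroup of order q^(i-1)), so G = H, a contradiction.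
 The finite set: ramified primes (as in FP; any finite S works).
STATEMENT: there are a number field F₁ (Type) with the algebra structures, Galois of degree q over F₀, and a finite S, such that inert in F₁ implies inert in F outside S. (The ring of integers of the intermediate field: F₁ : IntermediateField F₀ F is a number field, algebra instances exist; for the statement use the type ↥F₁.)
-/

set_option autoImplicit false
open scoped Classical nonZeroDivisors

open IsDedekindDomain NumberField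
open scoped Pointwise

namespace H2T4

private lemma FT_finite (F₀ F : Type) [Field F₀] [NumberField F₀] [Field F] [NumberField F]
    [Algebra F₀ F] :
    ∃ S : Set (HeightOneSpectrum (𝓞 F₀)), S.Finite ∧ ∀ v ∉ S, ∀ (Q : Ideal (𝓞 F)) [Q.IsPrime],
      Q.LiesOver v.asIdeal → Ideal.ramificationIdx Q (𝓞 F₀) = 1 := by
  have hD : differentIdeal (𝓞 F₀) (𝓞 F) ≠ ⊥ := differentIdeal_ne_bot
  let below : HeightOneSpectrum (𝓞 F) → HeightOneSpectrum (𝓞 F₀) := fun w =>
    ⟨w.asIdeal.under (𝓞 F₀), inferInstance, mt Ideal.eq_bot_of_comap_eq_bot w.ne_bot⟩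
  refine ⟨below '' {w | w.asIdeal ∣ differentIdeal (𝓞 F₀) (𝓞 F)},
    (Ideal.finite_factors hD).image _, fun v hv Q _ hQ => ?_⟩
  have hQ0 : Q ≠ ⊥ := Ideal.ne_bot_of_liesOver_of_ne_bot v.ne_bot Q
  have hnd : ¬ Q ∣ differentIdeal (𝓞 F₀) (𝓞 F) := by
    intro h
    apply hv
    refine ⟨⟨Q, inferInstance, hQ0⟩, h, ?_⟩
    apply HeightOneSpectrum.ext
    exact hQ.over.symm
  haveI := (not_dvd_differentIdeal_iff (A := 𝓞 F₀)).mp hnd
  exact Ideal.ramificationIdx_eq_one_of_isUnramifiedAt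

private lemma FT_inert (F₀ F : Type) [Field F₀] [NumberField F₀] [Field F] [NumberField F]
    [Algebra F₀ F] (v : HeightOneSpectrum (𝓞 F₀)) (Q : Ideal (𝓞 F)) [Q.IsPrime]
    [hQ : Q.LiesOver v.asIdeal] (he : Ideal.ramificationIdx Q (𝓞 F₀) = 1)
    (hu : ∀ (P : Ideal (𝓞 F)) [P.IsPrime], P.LiesOver v.asIdeal → P = Q) : Inert F₀ F v := by
  unfold Inert
  have h1 : v.asIdeal.map (algebraMap (𝓞 F₀) (𝓞 F)) = Q := by
    haveI : v.asIdeal.IsMaximal := v.isMaximal
    rw [Ideal.map_algebraMap_eq_finsetProd_pow v.ne_bot]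
    rw [Finset.prod_eq_single_of_mem Q]
    · rw [he, pow_one]
    · rw [Set.mem_toFinset]
      exact ⟨inferInstance, inferInstance⟩
    · intro P hP hPQ
      rw [Set.mem_toFinset] at hP
      haveI := hP.1
      exact absurd (hu P hP.2) hPQ
  rw [h1]
  infer_instance

theorem exists_layer (F₀ F : Type) [Field F₀] [NumberField F₀] [Field F] [NumberField F]
    [Algebra F₀ F] [IsGalois F₀ F] [IsCyclic (F ≃ₐ[F₀] F)] (q i : ℕ) (hq : q.Prime) (hi : 1 ≤ i)
    (hdeg : Module.finrank F₀ F = q ^ i) :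
    ∃ (F₁ : Type) (_ : Field F₁) (_ : NumberField F₁) (_ : Algebra F₀ F₁) (_ : IsGalois F₀ F₁)
      (S : Set (HeightOneSpectrum (𝓞 F₀))), Module.finrank F₀ F₁ = q ∧ S.Finite ∧
      ∀ v ∉ S, Inert F₀ F₁ v → Inert F₀ F v := by
  obtain ⟨g, hg⟩ := IsCyclic.exists_generator (α := F ≃ₐ[F₀] F)
  have hcard : Nat.card (F ≃ₐ[F₀] F) = q ^ i := by
    rw [← hdeg]
    exact IsGalois.card_aut_eq_finrank F₀ F
  have hord : orderOf g = q ^ i := by
    rw [orderOf_eq_card_of_forall_mem_zpowers hg, hcard]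
  have hcomm : ∀ a b : F ≃ₐ[F₀] F, a * b = b * a := by
    intro a b
    obtain ⟨m, rfl⟩ := Subgroup.mem_zpowers_iff.mp (hg a)
    obtain ⟨n, rfl⟩ := Subgroup.mem_zpowers_iff.mp (hg b)
    rw [← zpow_add, ← zpow_add, add_comm]
  set H : Subgroup (F ≃ₐ[F₀] F) := Subgroup.zpowers (g ^ q) with hH
  haveI : H.Normal := ⟨fun n hn a => by
    rw [hcomm a n, mul_inv_cancel_right]
    exact hn⟩
  have hidx : H.index = q := by
    have h1 : Nat.card H = q ^ (i - 1) := by
      rw [hH, Nat.card_zpowers, orderOf_pow, hord]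
      have h2 : Nat.gcd (q ^ i) q = q := Nat.gcd_eq_right (dvd_pow_self q (by omega))
      rw [h2]
      have h3 : q ^ i = q ^ (i - 1) * q := by
        rw [← pow_succ]
        congr 1
        omega
      rw [h3, Nat.mul_div_cancel _ hq.pos]
    have h4 := H.index_mul_card
    rw [hcard, h1] at h4
    have h3 : q ^ i = q * q ^ (i - 1) := by
      rw [← pow_succ']
      congr 1
      omega
    rw [h3] at h4
    exact Nat.eq_of_mul_eq_mul_right (pow_pos hq.pos _) h4
  set F₁ : IntermediateField F₀ F := IntermediateField.fixedField H with hF₁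
  haveI : NumberField F₁ := NumberField.of_module_finite F₀ F₁
  haveI hgal : IsGalois F₀ F₁ := IsGalois.of_fixedField_normal_subgroup H
  obtain ⟨S, hS, hram⟩ := FT_finite F₀ F
  refine ⟨F₁, inferInstance, inferInstance, inferInstance, hgal, S, ?_, hS, ?_⟩
  · rw [IntermediateField.finrank_eq_fixingSubgroup_index, hF₁,
      IntermediateField.fixingSubgroup_fixedField, hidx]
  intro v hv hin
  -- a prime of `F` over `v`
  obtain ⟨Q, hQm, hQ⟩ := Ideal.exists_maximal_ideal_liesOver_of_isIntegral v.asIdeal (S := 𝓞 F)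
  haveI := hQm.isPrime
  have he := hram v hv Q hQ
  refine FT_inert F₀ F v Q he ?_
  -- the contraction to `F₁`
  have hP₁ : (v.asIdeal.map (algebraMap (𝓞 F₀) (𝓞 F₁))).IsPrime := hin
  have hP₁0 : v.asIdeal.map (algebraMap (𝓞 F₀) (𝓞 F₁)) ≠ ⊥ := Ideal.map_ne_bot_of_ne_bot v.ne_bot
  have hP₁m : (v.asIdeal.map (algebraMap (𝓞 F₀) (𝓞 F₁))).IsMaximal := hP₁.isMaximal hP₁0
  have hcon : ∀ (P : Ideal (𝓞 F)) [P.IsPrime], P.LiesOver v.asIdeal →
      P.under (𝓞 F₁) = v.asIdeal.map (algebraMap (𝓞 F₀) (𝓞 F₁)) := by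
    intro P _ hP
    refine (hP₁m.eq_of_le (Ideal.IsPrime.ne_top inferInstance) ?_).symm
    rw [Ideal.map_le_iff_le_comap]
    intro x hx
    rw [hP.over] at hx
    rw [Ideal.mem_comap, Ideal.mem_comap, ← IsScalarTower.algebraMap_apply (𝓞 F₀) (𝓞 F₁) (𝓞 F)]
    exact hx
  -- the decomposition group is everything
  have hfix : ∀ (h : H) (x : F₁), (h : F ≃ₐ[F₀] F) (x : F) = (x : F) := by
    intro h x
    exact x.2 h
  haveI : Algebra.IsInvariant (𝓞 F₁) (𝓞 F) H := by
    constructor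
    intro b hb
    have hb1 : (b : F) ∈ F₁ := by
      rw [hF₁, IntermediateField.mem_fixedField_iff]
      intro f hf
      have h1 := congrArg (fun z : 𝓞 F => (z : F)) (hb ⟨f, hf⟩)
      exact h1
    have hint : IsIntegral ℤ (⟨(b : F), hb1⟩ : F₁) := by
      rw [← isIntegral_algebraMap_iff (algebraMap F₁ F).injective]
      exact b.isIntegral_coe
    exact ⟨⟨⟨(b : F), hb1⟩, hint⟩, rfl⟩
  haveI : SMulCommClass H (𝓞 F₁) (𝓞 F) := by
    constructor
    intro h a b
    apply RingOfIntegers.ext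
    have h1 : (h : F ≃ₐ[F₀] F) ((a : F₁) * (b : F)) = (a : F₁) * (h : F ≃ₐ[F₀] F) (b : F) := by
      rw [map_mul, hfix]
    exact h1
  have hgQ : (g • Q).IsPrime ∧ (g • Q).LiesOver v.asIdeal := ⟨inferInstance, inferInstance⟩
  haveI := hgQ.1
  obtain ⟨τ, hτ⟩ := Algebra.IsInvariant.exists_smul_of_under_eq (𝓞 F₁) (𝓞 F) H Q (g • Q)
    ((hcon Q hQ).trans (hcon (g • Q) hgQ.2).symm)
  have hgD : g ∈ MulAction.stabilizer (F ≃ₐ[F₀] F) Q := by
    obtain ⟨a, ha⟩ := Subgroup.mem_zpowers_iff.mp τ.2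
    have h1 : (τ : F ≃ₐ[F₀] F)⁻¹ * g ∈ MulAction.stabilizer (F ≃ₐ[F₀] F) Q := by
      rw [MulAction.mem_stabilizer_iff, mul_smul, hτ]
      change (τ : F ≃ₐ[F₀] F)⁻¹ • ((τ : F ≃ₐ[F₀] F) • Q) = Q
      rw [inv_smul_smul]
    have h2 : (τ : F ≃ₐ[F₀] F)⁻¹ * g = g ^ (1 - (q : ℤ) * a) := by
      rw [← ha, ← zpow_natCast g q, ← zpow_mul, ← zpow_neg, zpow_sub, zpow_one, zpow_neg,
        hcomm]
    rw [h2] at h1
    have h3 : IsCoprime (1 - (q : ℤ) * a) ((q : ℤ) ^ i) := by
      apply IsCoprime.pow_right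
      exact ⟨1, a, by ring⟩
    obtain ⟨x, y, hxy⟩ := h3
    have h4 : g = (g ^ (1 - (q : ℤ) * a)) ^ x := by
      have h5 : g ^ (x * (1 - (q : ℤ) * a) + y * (q : ℤ) ^ i) = g := by rw [hxy, zpow_one]
      rw [zpow_add] at h5
      have h6 : g ^ (y * (q : ℤ) ^ i) = 1 := by
        rw [mul_comm, zpow_mul]
        have h7 : g ^ ((q : ℤ) ^ i) = 1 := by
          have h8 : g ^ (q ^ i) = 1 := by rw [← hord]; exact pow_orderOf_eq_one g
          rw [← h8, ← zpow_natCast]
          norm_cast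
        rw [h7, one_zpow]
      rw [h6, mul_one, mul_comm, zpow_mul] at h5
      exact h5.symm
    rw [h4]
    exact Subgroup.zpow_mem _ h1 _
  intro P _ hP
  obtain ⟨σ, hσ⟩ := Algebra.IsInvariant.exists_smul_of_under_eq (𝓞 F₀) (𝓞 F) (F ≃ₐ[F₀] F) Q P
    (hQ.over.symm.trans hP.over)
  rw [hσ]
  obtain ⟨m, hm⟩ := Subgroup.mem_zpowers_iff.mp (hg σ)
  have hσD : σ ∈ MulAction.stabilizer (F ≃ₐ[F₀] F) Q := by
    rw [← hm]
    exact Subgroup.zpow_mem _ hgD _
  exact MulAction.mem_stabilizer_iff.mp hσD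

end H2T4
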