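import Pool.Agent.H2.T4.FS
import Pool.Agent.H2.T4.FT

/-! Block F, final statement (assembly, helper2). -/

set_option autoImplicit false
open scoped Classical nonZeroDivisors

open IsDedekindDomain NumberField

namespace H2T4

/-- Primes inert in a cyclic extension of prime power degree with non trivial class. -/
theorem inert_cyclic (F₀ F : Type) [Field F₀] [NumberField F₀] [Field F] [NumberField F]
    [Algebra F₀ F] [IsGalois F₀ F] [IsCyclic (F ≃ₐ[F₀] F)] (q i : ℕ) (hq : q.Prime) (hi : 1 ≤ i)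
    (hdeg : Module.finrank F₀ F = q ^ i) (ℓ : ℕ) (hℓ : ℓ.Prime) (hℓ3 : 3 ≤ ℓ)
    (ψ : ClassGroup (𝓞 F₀) →* Multiplicative (ZMod ℓ)) (hψ : ψ ≠ 1)
    (S : Set (HeightOneSpectrum (𝓞 F₀))) (hS : S.Finite) :
    ∃ v : HeightOneSpectrum (𝓞 F₀), v ∉ S ∧ Inert F₀ F v ∧ ψ (cl v) ≠ 1 := by
  obtain ⟨F₁, _, _, _, _, S₁, h1, hS₁, h2⟩ := exists_layer F₀ F q i hq hi hdeg
  obtain ⟨v, hv, hin, hψv⟩ := inert_prime F₀ F₁ q hq h1 ℓ hℓ hℓ3 ψ hψ (S ∪ S₁) (hS.union hS₁)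
  exact ⟨v, fun h => hv (Or.inl h), h2 v (fun h => hv (Or.inr h)) hin, hψv⟩

end H2T4
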