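import Pool.Agent.H2.T4.HDf

/-!
Row HA (about 130 lines): homomorphisms of class groups induced by maps of ideals.

PROOF. icl I = ClassGroup.mk0 ⟨I, _⟩ for I ≠ ⊥. exists_lift: ClassGroup.mk0 is surjective, mk0 I = mk0 J iff there are x, y ≠ 0 with span {x} * I = span {y} * J (ClassGroup.mk0_eq_mk0_iff). φ (span {x} * I) = φ (span {x}) * φ I with φ (span {x}) principal and nonzero, so icl (φ I) = icl (φ J). Define Φ c := icl (φ (a representative)), then Φ (icl I) = icl (φ I), and multiplicativity follows from φ (I J) = φ I φ J (icl_mul).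
 lift_act: φ = (σ • ·) (smul_mul', σ • span {x} = span {σ • x}: copy smul_span_single from Pool/Agent/H55/T3/Mc.lean). lift_ext: φ = Ideal.map (algebraMap (𝓞 F) (𝓞 M)) (Ideal.map_mul, Ideal.map_span; map I ≠ ⊥: Ideal.map_eq_bot_iff_of_injective). lift_norm: φ = Ideal.relNorm (𝓞 F) (a MonoidWithZeroHom; relNorm_singleton, relNorm_eq_bot_iff).
 Properties: icl_mul, icl_pow, icl_eq_one: icl I = 1 ↔ I principal (I ≠ ⊥), icl_surj.
-/

set_option autoImplicit false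
open scoped Classical nonZeroDivisors Pointwise

open IsDedekindDomain NumberField

namespace H2T4

theorem HA_icl {C : Type} [Field C] [NumberField C] {I : Ideal (𝓞 C)} (hI : I ≠ ⊥) :
    icl I = ClassGroup.mk0 ⟨I, mem_nonZeroDivisors_of_ne_zero hI⟩ := by
  rw [icl, dif_pos hI]

theorem icl_mul {C : Type} [Field C] [NumberField C] {I J : Ideal (𝓞 C)} (hI : I ≠ ⊥) (hJ : J ≠ ⊥) :
    icl (I * J) = icl I * icl J := by
  have hIJ : I * J ≠ ⊥ := mul_ne_zero hI hJ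
  rw [HA_icl hI, HA_icl hJ, HA_icl hIJ, ← map_mul]
  rfl

theorem HA_one {C : Type} [Field C] [NumberField C] : icl (1 : Ideal (𝓞 C)) = 1 := by
  have h1 : (1 : Ideal (𝓞 C)) ≠ ⊥ := one_ne_zero
  rw [HA_icl h1]
  exact map_one _

theorem icl_pow {C : Type} [Field C] [NumberField C] {I : Ideal (𝓞 C)} (hI : I ≠ ⊥) (n : ℕ) :
    icl (I ^ n) = icl I ^ n := by
  induction n with
  | zero => rw [pow_zero, pow_zero, HA_one]
  | succ n ih => rw [pow_succ, pow_succ, icl_mul (pow_ne_zero n hI) hI, ih]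

theorem icl_eq_one {C : Type} [Field C] [NumberField C] {I : Ideal (𝓞 C)} (hI : I ≠ ⊥) :
    icl I = 1 ↔ I.IsPrincipal := by
  rw [HA_icl hI]
  exact ClassGroup.mk0_eq_one_iff _

theorem icl_eq_icl {C : Type} [Field C] [NumberField C] {I J : Ideal (𝓞 C)} (hI : I ≠ ⊥) (hJ : J ≠ ⊥) :
    icl I = icl J ↔ ∃ x y : 𝓞 C, x ≠ 0 ∧ y ≠ 0 ∧ Ideal.span {x} * I = Ideal.span {y} * J := by
  rw [HA_icl hI, HA_icl hJ, ClassGroup.mk0_eq_mk0_iff]
  constructor
  · rintro ⟨x, y, hx, hy, h⟩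
    exact ⟨x, y, hx, hy, h⟩
  · rintro ⟨x, y, hx, hy, h⟩
    exact ⟨x, y, hx, hy, h⟩

theorem icl_surj {C : Type} [Field C] [NumberField C] (c : ClassGroup (𝓞 C)) :
    ∃ I : Ideal (𝓞 C), I ≠ ⊥ ∧ icl I = c := by
  obtain ⟨I, hI⟩ := ClassGroup.mk0_surjective c
  have h0 : (I : Ideal (𝓞 C)) ≠ ⊥ := nonZeroDivisors.coe_ne_zero I
  exact ⟨I, h0, by rw [HA_icl h0]; exact hI⟩

theorem exists_lift {A B : Type} [Field A] [NumberField A] [Field B] [NumberField B]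
    (φ : Ideal (𝓞 A) →* Ideal (𝓞 B)) (h0 : ∀ I, I ≠ ⊥ → φ I ≠ ⊥)
    (hp : ∀ x : 𝓞 A, x ≠ 0 → (φ (Ideal.span {x})).IsPrincipal) :
    ∃ Φ : ClassGroup (𝓞 A) →* ClassGroup (𝓞 B), ∀ I, I ≠ ⊥ → Φ (icl I) = icl (φ I) := by
  choose rep hr0 hr using fun c : ClassGroup (𝓞 A) => icl_surj c
  have hsp : ∀ x : 𝓞 A, x ≠ 0 → (Ideal.span {x} : Ideal (𝓞 A)) ≠ ⊥ := by
    intro x hx
    rw [Ne, Ideal.span_singleton_eq_bot]
    exact hx
  have key : ∀ I J : Ideal (𝓞 A), I ≠ ⊥ → J ≠ ⊥ → icl I = icl J → icl (φ I) = icl (φ J) := by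
    intro I J hI hJ h
    obtain ⟨x, y, hx, hy, hxy⟩ := (icl_eq_icl hI hJ).1 h
    have h1 := congrArg (fun Z => icl (φ Z)) hxy
    simp only [map_mul] at h1
    rw [icl_mul (h0 _ (hsp x hx)) (h0 _ hI), icl_mul (h0 _ (hsp y hy)) (h0 _ hJ),
      (icl_eq_one (h0 _ (hsp x hx))).2 (hp x hx), (icl_eq_one (h0 _ (hsp y hy))).2 (hp y hy),
      one_mul, one_mul] at h1
    exact h1
  have hΦ : ∀ I : Ideal (𝓞 A), I ≠ ⊥ → icl (φ (rep (icl I))) = icl (φ I) :=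
    fun I hI => key _ _ (hr0 _) hI (hr _)
  have h1 : (1 : Ideal (𝓞 A)) ≠ ⊥ := one_ne_zero
  refine ⟨{ toFun := fun c => icl (φ (rep c)), map_one' := ?_, map_mul' := ?_ }, fun I hI => ?_⟩
  · have h2 := hΦ 1 h1
    rw [HA_one, map_one, HA_one] at h2
    exact h2
  · intro c d
    have h3 : c * d = icl (rep c * rep d) := by
      rw [icl_mul (hr0 c) (hr0 d), hr, hr]
    have h4 := hΦ (rep c * rep d) (mul_ne_zero (hr0 c) (hr0 d))
    rw [← h3, map_mul, icl_mul (h0 _ (hr0 c)) (h0 _ (hr0 d))] at h4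
    exact h4
  · exact hΦ I hI

theorem HA_span {F M : Type} [Field F] [NumberField F] [Field M] [NumberField M] [Algebra F M]
    (σ : M ≃ₐ[F] M) (a : 𝓞 M) :
    σ • (Ideal.span {a} : Ideal (𝓞 M)) = Ideal.span {σ • a} := by
  rw [Ideal.pointwise_smul_def, Ideal.map_span, Set.image_singleton]
  rfl

theorem lift_act {F M : Type} [Field F] [NumberField F] [Field M] [NumberField M] [Algebra F M]
    (σ : M ≃ₐ[F] M) : ∃ Φ : ClassGroup (𝓞 M) →* ClassGroup (𝓞 M),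
      ∀ I, I ≠ ⊥ → Φ (icl I) = icl (σ • I) := by
  refine exists_lift
    { toFun := fun I : Ideal (𝓞 M) => σ • I
      map_one' := smul_one σ
      map_mul' := fun I J => smul_mul' σ I J } ?_ ?_
  · intro J hJ h0
    apply hJ
    have h0' : σ • J = ⊥ := h0
    have h1 : σ⁻¹ • (σ • J) = J := inv_smul_smul σ J
    rw [h0', ← Ideal.zero_eq_bot, smul_zero] at h1
    rw [← h1, Ideal.zero_eq_bot]
  · intro x _
    change (σ • (Ideal.span {x} : Ideal (𝓞 M))).IsPrincipal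
    rw [HA_span]
    exact ⟨⟨σ • x, rfl⟩⟩

theorem lift_ext (F M : Type) [Field F] [NumberField F] [Field M] [NumberField M] [Algebra F M] :
    ∃ Φ : ClassGroup (𝓞 F) →* ClassGroup (𝓞 M),
      ∀ I, I ≠ ⊥ → Φ (icl I) = icl (I.map (algebraMap (𝓞 F) (𝓞 M))) := by
  refine exists_lift ((Ideal.mapHom (algebraMap (𝓞 F) (𝓞 M)) : Ideal (𝓞 F) →+* Ideal (𝓞 M)) :
    Ideal (𝓞 F) →* Ideal (𝓞 M)) ?_ ?_
  · intro J hJ h0
    apply hJ
    exact (Ideal.map_eq_bot_iff_of_injective (FaithfulSMul.algebraMap_injective (𝓞 F) (𝓞 M))).1 h0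
  · intro x _
    change (Ideal.map (algebraMap (𝓞 F) (𝓞 M)) (Ideal.span {x})).IsPrincipal
    rw [Ideal.map_span, Set.image_singleton]
    exact ⟨⟨algebraMap (𝓞 F) (𝓞 M) x, rfl⟩⟩

theorem lift_norm (F M : Type) [Field F] [NumberField F] [Field M] [NumberField M] [Algebra F M] :
    ∃ Φ : ClassGroup (𝓞 M) →* ClassGroup (𝓞 F),
      ∀ I, I ≠ ⊥ → Φ (icl I) = icl (Ideal.relNorm (𝓞 F) I) := by
  refine exists_lift ((Ideal.relNorm (𝓞 F) : Ideal (𝓞 M) →*₀ Ideal (𝓞 F)) :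
    Ideal (𝓞 M) →* Ideal (𝓞 F)) ?_ ?_
  · intro J hJ h0
    exact hJ (Ideal.relNorm_eq_bot_iff.1 h0)
  · intro x _
    change (Ideal.relNorm (𝓞 F) (Ideal.span {x})).IsPrincipal
    rw [Ideal.relNorm_singleton]
    exact ⟨⟨_, rfl⟩⟩

end H2T4
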