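import Pool.Agent.H2.T4.CDf
import Pool.Agent.H2.T4.FZ
import Pool.Agent.H2.T4.HA

/-!
Row C5 (about 190 lines): a stable subgroup of the class group which contains the inert primes contains all norms. Use only the STATEMENTS of FZ, HA.

PROOF. A := lift_act (F = ℚ) for g: A (icl I) = icl (g • I); d = orderOf g = q^i. T is stable: A c ∈ T for c ∈ T (icl_surj). δ : Cl → Cl, c ↦ A c / c. D := T ⊔ δ.range.
 Claim D = ⊤. Suppose not: Cl/D is a non trivial abelian group killed by ℓ (c^ℓ ∈ T), so there is ψ : Cl →* Multiplicative (ZMod ℓ), ψ ≠ 1, trivial on D (Cl/D is a vector space over ZMod ℓ: AddCommGroup.zmodModule, a non zero linear form: Module.forall_dual_apply_eq_zero_iff or exists_dual...).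
  C₀ := fixedField (zpowers g); C/C₀ is Galois with group ≅ zpowers g, cyclic (IntermediateField.fixingSubgroup_fixedField, fixingSubgroupEquiv; IsCyclic), finrank C₀ C = d = q^i (finrank_fixedField_eq_card), 1 ≤ i. Ex from lift_ext C₀ C, ψ₀ := ψ.comp Ex.
  ψ₀ ≠ 1: take c = icl I with ψ c ≠ 1; Nm from lift_norm C₀ C: Ex (Nm c) = icl ((relNorm I).map) = icl (∏_{τ ∈ Gal(C/C₀)} τ • I) (Ideal.relNorm and the product of conjugates for Galois extensions; search Ideal.relNorm map prod_galois / Ideal.algebraMap_relNorm...; Pool/Agent/H2/T4/H5b or H3 (landed proofs) may contain it; for a prime I it follows from the factorisation of p 𝓞 C)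
   = ∏_{j<d} A^j c (Gal(C/C₀) = {g^j}), and ψ (A c) = ψ c (ψ trivial on δ.range), so ψ₀ (Nm c) = ψ(c)^d ≠ 1, because d = q^i is coprime to ℓ and ψ(c) has order ℓ.
  inert_cyclic C₀ C q i ... ψ₀ ∅: v₀ inert with ψ₀ (cl v₀) ≠ 1. cl v₀ = icl v₀.asIdeal (icl, dif_pos), Ex (icl v₀.asIdeal) = icl (v₀.asIdeal.map) = icl v.asIdeal for v := ⟨map, prime, ≠ ⊥⟩, which is in T by hin, so ψ of it is 1: contradiction.
 So icl I = t * δ x with t ∈ T: icl (∏_{j<d} g^j • I) = ∏_{j<d} A^j (icl I) = (∏_j A^j t) * ∏_j (A^(j+1) x / A^j x) = (∏_j A^j t) * (A^d x / x) = ∏_j A^j t ∈ T (A^d = 1 because g^d = 1; A^j (icl I) = icl (g^j • I), smul_smul; icl of a product: icl_mul and induction).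
-/

set_option autoImplicit false
open scoped Classical nonZeroDivisors Pointwise

open IsDedekindDomain NumberField Pool.Agent.H11 Finset

namespace H2T4

section

variable {C : Type} [Field C] [NumberField C]

private theorem C5_smul_ne {F : Type} [Field F] [NumberField F] [Algebra F C] (σ : C ≃ₐ[F] C)
    {J : Ideal (𝓞 C)} (hJ : J ≠ ⊥) : σ • J ≠ ⊥ := by
  intro h0
  apply hJ
  have h1 : σ⁻¹ • (σ • J) = J := inv_smul_smul σ J
  rw [h0, ← Ideal.zero_eq_bot, smul_zero] at h1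
  rw [← h1, Ideal.zero_eq_bot]

private theorem C5_prod {ι : Type} (s : Finset ι) (f : ι → Ideal (𝓞 C)) (hf : ∀ j ∈ s, f j ≠ ⊥) :
    (∏ j ∈ s, f j) ≠ ⊥ ∧ icl (∏ j ∈ s, f j) = ∏ j ∈ s, icl (f j) := by
  induction s using Finset.induction_on with
  | empty =>
    rw [Finset.prod_empty, Finset.prod_empty]
    have h1 : (1 : Ideal (𝓞 C)) ≠ ⊥ := by
      rw [Ideal.one_eq_top]
      exact top_ne_bot
    refine ⟨h1, (icl_eq_one h1).2 ?_⟩
    rw [Ideal.one_eq_top]
    exact top_isPrincipal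
  | insert a s ha ih =>
    obtain ⟨h1, h2⟩ := ih (fun j hj => hf j (Finset.mem_insert_of_mem hj))
    have h3 := hf a (Finset.mem_insert_self a s)
    rw [Finset.prod_insert ha, Finset.prod_insert ha, icl_mul h3 h1, h2]
    exact ⟨mul_ne_zero h3 h1, rfl⟩

private theorem C5_pow_ne {I : Ideal (𝓞 C)} (hI : I ≠ ⊥) (n : ℕ) : I ^ n ≠ ⊥ := pow_ne_zero n hI

/-- a character which is trivial on the extended ideals is trivial -/
private theorem C5_prime {F : Type} [Field F] [NumberField F] [Algebra F C] [IsGalois F C]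
    {q i ℓ : ℕ} (hq : q.Prime) (hℓ : ℓ.Prime) (hqℓ : q ≠ ℓ) (hdeg : Module.finrank F C = q ^ i)
    (ψ : ClassGroup (𝓞 C) →* Multiplicative (ZMod ℓ))
    (hact : ∀ (τ : C ≃ₐ[F] C) (I : Ideal (𝓞 C)), I ≠ ⊥ → ψ (icl (τ • I)) = ψ (icl I))
    (hext : ∀ J : Ideal (𝓞 F), J ≠ ⊥ → ψ (icl (J.map (algebraMap (𝓞 F) (𝓞 C)))) = 1)
    (P : Ideal (𝓞 C)) (hP : P.IsPrime) (hP0 : P ≠ ⊥) : ψ (icl P) = 1 := by
  have hp0 : P.under (𝓞 F) ≠ ⊥ := Ideal.IsIntegral.comap_ne_bot _ hP0
  have hpp : (P.under (𝓞 F)).IsPrime := inferInstance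
  have hpm : (P.under (𝓞 F)).IsMaximal := hpp.isMaximal hp0
  have hover : P.LiesOver (P.under (𝓞 F)) := ⟨rfl⟩
  have hfac := Ideal.map_algebraMap_eq_finsetProd_pow (S := 𝓞 F) (R := 𝓞 C)
    (p := P.under (𝓞 F)) hp0
  set e := (P.under (𝓞 F)).ramificationIdxIn (𝓞 C) with he
  have hQ : ∀ Q ∈ (P.under (𝓞 F)).primesOver (𝓞 C), Q ≠ ⊥ ∧ Q.ramificationIdx (𝓞 F) = e ∧
      ψ (icl Q) = ψ (icl P) := by
    intro Q hQ
    have h1 : Q.IsPrime := hQ.1
    have h2 : Q.LiesOver (P.under (𝓞 F)) := hQ.2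
    obtain ⟨σ, hσ⟩ := Ideal.exists_smul_eq_of_isGaloisGroup (P.under (𝓞 F)) P Q (C ≃ₐ[F] C)
    refine ⟨?_, ?_, ?_⟩
    · rw [← hσ]
      exact C5_smul_ne σ hP0
    · rw [he, Ideal.ramificationIdxIn_eq_ramificationIdx (P.under (𝓞 F)) Q (C ≃ₐ[F] C)]
    · rw [← hσ]
      exact hact σ P hP0
  have h1 := hext _ hp0
  rw [hfac, (C5_prod _ _ (fun Q hQ' => C5_pow_ne (hQ Q (Set.mem_toFinset.1 hQ')).1 _)).2,
    map_prod] at h1
  have h2 : ∀ Q ∈ ((P.under (𝓞 F)).primesOver (𝓞 C)).toFinset,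
      ψ (icl (Q ^ Q.ramificationIdx (𝓞 F))) = ψ (icl P) ^ e := by
    intro Q hQ'
    obtain ⟨h3, h4, h5⟩ := hQ Q (Set.mem_toFinset.1 hQ')
    rw [icl_pow h3, map_pow, h4, h5]
  rw [Finset.prod_congr rfl h2, Finset.prod_const, ← pow_mul] at h1
  have h3 : e * ((P.under (𝓞 F)).primesOver (𝓞 C)).toFinset.card ∣ q ^ i := by
    have h4 := Ideal.ncard_primesOver_mul_ramificationIdxIn_mul_inertiaDegIn (P.under (𝓞 F)) (𝓞 C)
      (C ≃ₐ[F] C)
    rw [IsGalois.card_aut_eq_finrank, hdeg, Set.ncard_eq_toFinset_card'] at h4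
    rw [← h4]
    exact ⟨(P.under (𝓞 F)).inertiaDegIn (𝓞 C), by rw [he]; ring⟩
  have h4 : orderOf (ψ (icl P)) ∣ q ^ i := (orderOf_dvd_of_pow_eq_one h1).trans h3
  have h5 : orderOf (ψ (icl P)) ∣ ℓ := by
    apply orderOf_dvd_of_pow_eq_one
    apply Multiplicative.toAdd.injective
    rw [toAdd_pow, toAdd_one]
    have : Fact ℓ.Prime := ⟨hℓ⟩
    rw [nsmul_eq_mul, CharP.cast_eq_zero, zero_mul]
  have h6 : Nat.Coprime (q ^ i) ℓ :=
    Nat.Coprime.pow_left i ((Nat.coprime_primes hq hℓ).2 hqℓ)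
  exact orderOf_eq_one_iff.1 (Nat.eq_one_of_dvd_coprimes h6 h4 h5)

private theorem C5_triv {F : Type} [Field F] [NumberField F] [Algebra F C] [IsGalois F C]
    {q i ℓ : ℕ} (hq : q.Prime) (hℓ : ℓ.Prime) (hqℓ : q ≠ ℓ) (hdeg : Module.finrank F C = q ^ i)
    (ψ : ClassGroup (𝓞 C) →* Multiplicative (ZMod ℓ))
    (hact : ∀ (τ : C ≃ₐ[F] C) (I : Ideal (𝓞 C)), I ≠ ⊥ → ψ (icl (τ • I)) = ψ (icl I))
    (hext : ∀ J : Ideal (𝓞 F), J ≠ ⊥ → ψ (icl (J.map (algebraMap (𝓞 F) (𝓞 C)))) = 1) :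
    ψ = 1 := by
  have key : ∀ I : Ideal (𝓞 C), I ≠ ⊥ → ψ (icl I) = 1 := by
    intro I
    induction I using UniqueFactorizationMonoid.induction_on_prime with
    | h₁ => intro h; exact absurd rfl h
    | h₂ I hu =>
      intro h
      have h1 : I = ⊤ := Ideal.isUnit_iff.1 hu
      rw [(icl_eq_one h).2 (by rw [h1]; exact top_isPrincipal), map_one]
    | h₃ I P hI hP ih =>
      intro h
      have hP0 : P ≠ ⊥ := hP.ne_zero
      rw [icl_mul hP0 hI, map_mul, ih hI, mul_one]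
      exact C5_prime hq hℓ hqℓ hdeg ψ hact hext P (Ideal.isPrime_of_prime hP) hP0
  ext c
  obtain ⟨I, hI, rfl⟩ := icl_surj c
  rw [key I hI]
  rfl

end

private theorem C5_dual0 {V : Type} [AddCommGroup V] {ℓ : ℕ} [Fact ℓ.Prime] [Module (ZMod ℓ) V]
    {v : V} (hv : v ≠ 0) : ∃ f : V →+ ZMod ℓ, f v ≠ 0 := by
  obtain ⟨f, hf⟩ := Module.Projective.exists_dual_ne_zero (ZMod ℓ) hv
  exact ⟨f.toAddMonoidHom, hf⟩

private theorem C5_dual {V : Type} [AddCommGroup V] {ℓ : ℕ} (hℓ : ℓ.Prime)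
    (hk : ∀ x : V, ℓ • x = 0) {v : V} (hv : v ≠ 0) : ∃ f : V →+ ZMod ℓ, f v ≠ 0 := by
  have hF : Fact ℓ.Prime := ⟨hℓ⟩
  let _ : Module (ZMod ℓ) V := AddCommGroup.zmodModule hk
  exact C5_dual0 hv

/-- a character which separates -/
private theorem C5_char {G : Type} [CommGroup G] {ℓ : ℕ} (hℓ : ℓ.Prime) (D : Subgroup G)
    (hD : D ≠ ⊤) (h : ∀ c : G, c ^ ℓ ∈ D) :
    ∃ ψ : G →* Multiplicative (ZMod ℓ), ψ ≠ 1 ∧ ∀ c ∈ D, ψ c = 1 := by
  have hF : Fact ℓ.Prime := ⟨hℓ⟩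
  obtain ⟨c, hc⟩ : ∃ c, c ∉ D := by
    by_contra hcon
    push Not at hcon
    exact hD (eq_top_iff.2 fun x _ => hcon x)
  have hk : ∀ x : Additive (G ⧸ D), ℓ • x = 0 := by
    intro x
    obtain ⟨y, hy⟩ := QuotientGroup.mk_surjective (Additive.toMul x)
    have h1 : x = Additive.ofMul ((y : G) : G ⧸ D) := by rw [hy]; rfl
    rw [h1, ← ofMul_pow, ← QuotientGroup.mk_pow, (QuotientGroup.eq_one_iff _).2 (h y)]
    rfl
  have h1 : (Additive.ofMul ((c : G) : G ⧸ D)) ≠ 0 := by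
    intro h2
    have h3 : ((c : G) : G ⧸ D) = 1 := h2
    exact hc ((QuotientGroup.eq_one_iff _).1 h3)
  obtain ⟨f, hf⟩ := C5_dual hℓ hk h1
  refine ⟨{ toFun := fun x => Multiplicative.ofAdd (f (Additive.ofMul ((x : G) : G ⧸ D)))
            map_one' := ?_
            map_mul' := ?_ }, ?_, ?_⟩
  · rw [QuotientGroup.mk_one, ofMul_one, map_zero, ofAdd_zero]
  · intro x y
    rw [QuotientGroup.mk_mul, ofMul_mul, map_add, ofAdd_add]
  · intro h2
    apply hf
    have h3 := congrArg (fun φ : G →* Multiplicative (ZMod ℓ) => Multiplicative.toAdd (φ c)) h2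
    exact h3
  · intro x hx
    change Multiplicative.ofAdd (f (Additive.ofMul ((x : G) : G ⧸ D))) = 1
    rw [(QuotientGroup.eq_one_iff _).2 hx, ofMul_one, map_zero, ofAdd_zero]

theorem norm_mem (C : Type) [Field C] [NumberField C] [IsGalois ℚ C] (ℓ : ℕ) (hℓ : ℓ.Prime)
    (h3 : 3 ≤ ℓ) (g : C ≃ₐ[ℚ] C) (q i : ℕ) (hq : q.Prime) (hqℓ : q ≠ ℓ) (hi : 1 ≤ i)
    (hg : orderOf g = q ^ i) (T : Subgroup (ClassGroup (𝓞 C)))
    (hst : ∀ (t : C ≃ₐ[ℚ] C) (I : Ideal (𝓞 C)), I ≠ ⊥ → icl I ∈ T → icl (t • I) ∈ T)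
    (hT : ∀ c, c ^ ℓ ∈ T)
    (hin : ∀ v₀ : HeightOneSpectrum (𝓞 (IntermediateField.fixedField (Subgroup.zpowers g))),
      Inert (IntermediateField.fixedField (Subgroup.zpowers g)) C v₀ →
      ∀ v : HeightOneSpectrum (𝓞 C), v.asIdeal = v₀.asIdeal.map (algebraMap _ (𝓞 C)) →
      icl v.asIdeal ∈ T) (I : Ideal (𝓞 C)) (hI : I ≠ ⊥) :
    icl (∏ j ∈ range (orderOf g), g ^ j • I) ∈ T := by
  obtain ⟨A, hA⟩ := lift_act (F := ℚ) (M := C) g
  have hAT : ∀ c ∈ T, A c ∈ T := by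
    intro c hc
    obtain ⟨J, hJ, rfl⟩ := icl_surj c
    rw [hA J hJ]
    exact hst g J hJ hc
  have hAit : ∀ (j : ℕ) (J : Ideal (𝓞 C)), J ≠ ⊥ → icl (g ^ j • J) = A^[j] (icl J) := by
    intro j
    induction j with
    | zero =>
      intro J _
      rw [pow_zero, one_smul]
      rfl
    | succ j ih =>
      intro J hJ
      rw [pow_succ', mul_smul, Function.iterate_succ_apply', ← ih J hJ,
        hA _ (C5_smul_ne (F := ℚ) (g ^ j) hJ)]
  have hAd : ∀ c, A^[orderOf g] c = c := by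
    intro c
    obtain ⟨J, hJ, rfl⟩ := icl_surj c
    rw [← hAit _ J hJ, pow_orderOf_eq_one, one_smul]
  -- the subgroup is everything
  obtain ⟨δ, hδ⟩ : ∃ δ : ClassGroup (𝓞 C) →* ClassGroup (𝓞 C), ∀ c, δ c = A c / c :=
    ⟨A / MonoidHom.id _, fun c => rfl⟩
  have htop : T ⊔ δ.range = ⊤ := by
    by_contra hD
    obtain ⟨ψ, hψ1, hψ⟩ := C5_char hℓ _ hD (fun c => Subgroup.mem_sup_left (hT c))
    have hψT : ∀ c ∈ T, ψ c = 1 := fun c hc => hψ c (Subgroup.mem_sup_left hc)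
    have hψA : ∀ c, ψ (A c) = ψ c := by
      intro c
      have h1 := hψ (A c / c) (Subgroup.mem_sup_right ⟨c, hδ c⟩)
      rwa [map_div, div_eq_one] at h1
    have hgal : IsGalois (IntermediateField.fixedField (Subgroup.zpowers g)) C := inferInstance
    have hdeg : Module.finrank (IntermediateField.fixedField (Subgroup.zpowers g)) C = q ^ i := by
      rw [IntermediateField.finrank_fixedField_eq_card, Nat.card_zpowers, hg]
    have hcyc : IsCyclic (C ≃ₐ[IntermediateField.fixedField (Subgroup.zpowers g)] C) := by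
      have e1 : (IntermediateField.fixedField (Subgroup.zpowers g)).fixingSubgroup =
          Subgroup.zpowers g := IntermediateField.fixingSubgroup_fixedField _
      have h2 : IsCyclic (IntermediateField.fixedField (Subgroup.zpowers g)).fixingSubgroup := by
        rw [e1]
        infer_instance
      exact isCyclic_of_surjective
        (IntermediateField.fixingSubgroupEquiv (IntermediateField.fixedField (Subgroup.zpowers g)))
        (IntermediateField.fixingSubgroupEquiv _).surjective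
    obtain ⟨Ex, hEx⟩ := lift_ext (IntermediateField.fixedField (Subgroup.zpowers g)) C
    have hne : ψ.comp Ex ≠ 1 := by
      intro h0
      apply hψ1
      refine C5_triv (F := IntermediateField.fixedField (Subgroup.zpowers g)) hq hℓ hqℓ hdeg ψ
        ?_ ?_
      · intro τ J hJ
        have hτ : τ.restrictScalars ℚ ∈ Subgroup.zpowers g := by
          have e1 : (IntermediateField.fixedField (Subgroup.zpowers g)).fixingSubgroup =
            Subgroup.zpowers g := IntermediateField.fixingSubgroup_fixedField _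
          refine (SetLike.ext_iff.1 e1 _).1 ((IntermediateField.mem_fixingSubgroup_iff _ _).2 ?_)
          intro x hx
          exact τ.commutes ⟨x, hx⟩
        obtain ⟨n, hn⟩ := (isOfFinOrder_of_finite g).mem_powers_iff_mem_zpowers.2 hτ
        have h1 : τ • J = g ^ n • J := by
          have hn' : g ^ n = τ.restrictScalars ℚ := hn
          rw [hn']
          ext x
          rw [Ideal.mem_pointwise_smul_iff_inv_smul_mem, Ideal.mem_pointwise_smul_iff_inv_smul_mem]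
          rfl
        rw [h1, hAit n J hJ]
        clear h1 hn hτ
        induction n with
        | zero => rfl
        | succ n ih => rw [Function.iterate_succ_apply', hψA, ih]
      · intro J hJ
        rw [← hEx J hJ]
        exact congrArg (fun φ : ClassGroup _ →* Multiplicative (ZMod ℓ) => φ (icl J)) h0
    obtain ⟨v₀, -, hin₀, hv₀⟩ := inert_cyclic (IntermediateField.fixedField (Subgroup.zpowers g)) C
      q i hq hi hdeg ℓ hℓ h3 (ψ.comp Ex) hne ∅ Set.finite_empty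
    apply hv₀
    have hcl : cl v₀ = icl v₀.asIdeal := by
      unfold icl
      rw [dif_pos v₀.ne_bot]
      rfl
    have hmap : v₀.asIdeal.map (algebraMap _ (𝓞 C)) ≠ ⊥ :=
      Ideal.map_ne_bot_of_ne_bot v₀.ne_bot
    rw [MonoidHom.comp_apply, hcl, hEx _ v₀.ne_bot]
    exact hψT _ (hin v₀ hin₀ ⟨_, hin₀, hmap⟩ rfl)
  have hmem : icl I ∈ T ⊔ δ.range := by
    rw [htop]
    exact Subgroup.mem_top _
  obtain ⟨t, ht, y, ⟨x, rfl⟩, hxt⟩ := Subgroup.mem_sup.1 hmem
  rw [(C5_prod _ _ (fun j _ => C5_smul_ne (F := ℚ) (g ^ j) hI)).2,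
    Finset.prod_congr rfl (fun j _ => hAit j I hI), ← hxt]
  have h1 : ∀ j : ℕ, A^[j] (t * δ x) =
      A^[j] t * (A^[j + 1] x / A^[j] x) := by
    intro j
    rw [iterate_map_mul]
    congr 1
    rw [hδ, iterate_map_div, Function.iterate_succ_apply]
  rw [Finset.prod_congr rfl (fun j _ => h1 j), Finset.prod_mul_distrib,
    Finset.prod_range_div (fun j => A^[j] x), hAd, Function.iterate_zero_apply, div_self', mul_one]
  refine Subgroup.prod_mem _ fun j hj => ?_
  clear hj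
  induction j with
  | zero => exact ht
  | succ j ih =>
    rw [Function.iterate_succ_apply']
    exact hAT _ ih

end H2T4
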