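import Mathlib

/-!
Block H of MP_78d38b_T4 (helper2; definitions, no row): cyclic unramified extensions of degree `ℓ`.
-/

set_option autoImplicit false
open scoped Classical nonZeroDivisors

open IsDedekindDomain NumberField

namespace H2T4

section

variable (F M : Type) [Field F] [NumberField F] [Field M] [NumberField M] [Algebra F M]

/-- norm of units -/
noncomputable def nu : (𝓞 M)ˣ →* (𝓞 F)ˣ := Units.map (RingOfIntegers.norm F : 𝓞 M →* 𝓞 F)

variable {F M}

/-- action of an automorphism on units -/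
noncomputable def su (σ : M ≃ₐ[F] M) : (𝓞 M)ˣ →* (𝓞 M)ˣ :=
  Units.map ((MulSemiringAction.toRingHom (M ≃ₐ[F] M) (𝓞 M) σ : 𝓞 M →+* 𝓞 M) : 𝓞 M →* 𝓞 M)

/-- `v ↦ σ v / v` on units -/
noncomputable def du (σ : M ≃ₐ[F] M) : (𝓞 M)ˣ →* (𝓞 M)ˣ := su σ / MonoidHom.id _

/-- `v ↦ σ v / v` on ideal classes of nonzero ideals: `I`, `J` in the same `σ - 1` coset -/
noncomputable def icl {C : Type} [Field C] [NumberField C] (I : Ideal (𝓞 C)) : ClassGroup (𝓞 C) :=
  if h : I ≠ ⊥ then ClassGroup.mk0 ⟨I, mem_nonZeroDivisors_of_ne_zero h⟩ else 1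

end

/-- `M/F` is unramified: every place `w` of `F` has an extension to `M` with the same value group -/
def UnrV (F M : Type) [Field F] [NumberField F] [Field M] [Algebra F M] : Prop :=
  ∀ w : HeightOneSpectrum (𝓞 F), ∃ V : ValuationSubring M,
    (∀ x : F, algebraMap F M x ∈ V ↔ w.valuation F x ≤ 1) ∧
    ∀ α : M, α ≠ 0 → ∃ c : F, c ≠ 0 ∧ α / algebraMap F M c ∈ V ∧ (α / algebraMap F M c)⁻¹ ∈ V

end H2T4
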