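import Pool.Agent.H2.T4.FDf
import Pool.Agent.H2.T4.HDf
import Pool.Agent.H11.Conj

/-!
Block C of MP_78d38b_T4 (helper2; definitions, no row): Frobenius elements and characters of order `ℓ`.
`cj s σ = s⁻¹ σ s` (Pool/Agent/H11/Conj.lean).
-/

set_option autoImplicit false
open scoped Classical nonZeroDivisors Pointwise

open IsDedekindDomain NumberField Pool.Agent.H11 Finset

namespace H2T4

section

variable {C M : Type} [Field C] [NumberField C] [Field M] [NumberField M] [Algebra C M]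

/-- `s` extends `g` -/
def Lft (s : M ≃ₐ[ℚ] M) (g : C ≃ₐ[ℚ] C) : Prop := ∀ x : C, s (algebraMap C M x) = algebraMap C M (g x)

variable [IsGalois ℚ C]

/-- the product of the conjugates of `a` over the powers of `g` is trivial -/
def NK {ℓ : ℕ} (a : (M ≃ₐ[C] M) →* Multiplicative (ZMod ℓ)) (g : C ≃ₐ[ℚ] C) : Prop :=
  ∀ s : M ≃ₐ[ℚ] M, Lft s g → ∀ σ : M ≃ₐ[C] M, ∏ j ∈ range (orderOf g), a (cj (s ^ j) σ) = 1

omit [IsGalois ℚ C] in
/-- `s` is a Frobenius element at `Q | v`, of relative order the order of `g`, and restricts to a generator of `⟨g⟩` -/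
def FrAt (g : C ≃ₐ[ℚ] C) (v : HeightOneSpectrum (𝓞 C)) (s : M ≃ₐ[ℚ] M) (Q : Ideal (𝓞 M)) (q : ℕ) :
    Prop :=
  Q.IsPrime ∧ Q.comap (algebraMap (𝓞 C) (𝓞 M)) = v.asIdeal ∧ (∀ x : 𝓞 M, s • x - x ^ q ∈ Q) ∧
    (∃ b : ℕ, b.Coprime (orderOf g) ∧ Lft s (g ^ b)) ∧ Nat.card (𝓞 C ⧸ v.asIdeal) = q ^ orderOf g

end

end H2T4
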