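import Pool.Agent.H2.T4.HDf

/-!
Row H4 (about 170 lines): ideals fixed by the Galois group of an unramified extension.

PROOF. (1) UnrV F M, M/F Galois: every prime Q of 𝓞 M has ramification index 1 over F. Let w be the place below Q, V as in UnrV for w. V contains 𝓞 M (𝓞 M is integral over 𝓞 F ⊆ V, V is integrally closed), its maximal ideal meets 𝓞 M in a prime Q' above w (it meets 𝓞 F in w.asIdeal: for x ∈ 𝓞 F, x non unit of V iff w.valuation x < 1; nonzero prime since V ≠ M),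
 and V is the valuation ring of the place Q' (a valuation subring containing the localization at Q', a DVR, and ≠ M is equal to it) - or avoid this: take x ∈ 𝓞 M with Q'-adic valuation exp (-1) (a uniformizer, x ∈ Q', x ∉ Q'^2); by UnrV x = c u with c ∈ F, u, u⁻¹ ∈ V. Compare with π ∈ 𝓞 F a uniformizer at w: c = π^k c' with w.valuation c' = 1, k ≥ 1 as x is not a unit of V.
   So x = π^k * (unit of V); if e(Q'|w) ≥ 2 then π ∈ Q'^2, x/π has Q'-adic valuation exp (e - 1) > 1 (not integral at Q'), while x/π ∈ V... to conclude use that V dominates 𝓞 M localized at Q', a DVR, so V is that DVR. (A valuation ring of M between a DVR and M is the DVR: Mathlib `ValuationSubring` / `IsDiscreteValuationRing`.., or directly: elements of M with Q'-valuation ≤ 1 lie in V: y = a/b with b ∉ Q' (a, b ∈ 𝓞 M), b is a unit of V since b ∉ m_V ∩ 𝓞 M = Q'. Conversely, if z ∈ V has Q'-valuation > 1 then 1/z has valuation < 1, 1/z = a/b with a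 ∈ Q', b ∉ Q', so 1/z is in m_V, contradiction.)
 Galois: all primes above w are conjugate (Q = τ Q', Ideal.exists_map_eq_of_isGalois / exists_smul_eq), so e(Q|w) = 1 for all Q.
(2) I ≠ ⊥ with σ • I = I: then τ • I = I for all τ (zpowers). The multiplicity of Q in I only depends on the place below (conjugate primes, multiplicity of τ • Q in τ • I = I). Put J = ∏ (prime v below)^(multiplicity of Q|v in I) over the finitely many v below the primes dividing I; v 𝓞 M = ∏_{Q | v} Q (e = 1), so J 𝓞 M = I (compare multiplicities / factorization).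
(3) map_inj: J 𝓞 M = J' 𝓞 M implies J = J' (relNorm_algebraMap: J^n = J'^n, unique roots of ideals; or comap of map).
-/

set_option autoImplicit false
open scoped Classical nonZeroDivisors Pointwise

open IsDedekindDomain NumberField

namespace H2T4

theorem H4_int (M : Type) [Field M] [NumberField M] (V : ValuationSubring M) (x : 𝓞 M) :
    (x : M) ∈ V := by
  have h1 : IsIntegral V (x : M) := by
    obtain ⟨f, hf1, hf2⟩ := RingOfIntegers.isIntegral_coe x
    refine ⟨f.map (algebraMap ℤ V), hf1.map _, ?_⟩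
    rw [Polynomial.eval₂_map]
    rw [← hf2]
    congr 1
  obtain ⟨y, hy⟩ := IsIntegrallyClosed.isIntegral_iff.1 h1
  rw [← hy]
  exact y.2

theorem H4_ns (F M : Type) [Field F] [NumberField F] [Field M] [NumberField M] [Algebra F M]
    (hunr : UnrV F M) (w : HeightOneSpectrum (𝓞 F)) : ∃ Q : Ideal (𝓞 M), Q.IsPrime ∧ Q ≠ ⊥ ∧
      Q.comap (algebraMap (𝓞 F) (𝓞 M)) = w.asIdeal ∧
      ¬ (w.asIdeal.map (algebraMap (𝓞 F) (𝓞 M)) ≤ Q ^ 2) := by
  obtain ⟨V, hV1, hV2⟩ := hunr w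
  obtain ⟨ι, hι⟩ : ∃ ι : 𝓞 M →+* V, ∀ x, ((ι x : V) : M) = (x : M) :=
    ⟨(algebraMap (𝓞 M) M).codRestrict V.toSubring (fun x => H4_int M V x), fun x => rfl⟩
  obtain ⟨Q, hQ⟩ : ∃ Q : Ideal (𝓞 M), Q = Ideal.comap ι (IsLocalRing.maximalIdeal V) := ⟨_, rfl⟩
  have hQp : Q.IsPrime := by
    rw [hQ]
    exact Ideal.IsPrime.comap _
  -- membership
  have hmem : ∀ x : 𝓞 M, x ≠ 0 → (x ∉ Q ↔ (x : M)⁻¹ ∈ V) := by
    intro x hx
    have hx' : (x : M) ≠ 0 := RingOfIntegers.coe_ne_zero_iff.2 hx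
    rw [hQ, Ideal.mem_comap, IsLocalRing.mem_maximalIdeal, mem_nonunits_iff, not_not]
    constructor
    · intro h
      obtain ⟨y, hy⟩ := h.exists_right_inv
      have h2 : (x : M) * (y : M) = 1 := by
        rw [← hι x]
        exact congrArg Subtype.val hy
      rw [inv_eq_of_mul_eq_one_right h2]
      exact y.2
    · intro h
      refine IsUnit.of_mul_eq_one (⟨(x : M)⁻¹, h⟩ : V) ?_
      apply Subtype.ext
      change ((ι x : V) : M) * (x : M)⁻¹ = 1
      rw [hι x]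
      exact mul_inv_cancel₀ hx'
  have hmem0 : ∀ x : 𝓞 M, x ∉ Q → x ≠ 0 := fun x hx h0 => hx (h0 ▸ Q.zero_mem)
  have hcoe : ∀ a : 𝓞 F, ((algebraMap (𝓞 F) (𝓞 M) a : 𝓞 M) : M) = algebraMap F M (a : F) := by
    intro a
    exact (IsScalarTower.algebraMap_apply (𝓞 F) (𝓞 M) M a).symm.trans
      (IsScalarTower.algebraMap_apply (𝓞 F) F M a)
  have hinj : ∀ a : 𝓞 F, a ≠ 0 → algebraMap (𝓞 F) (𝓞 M) a ≠ 0 := by
    intro a ha h
    have h1 := hcoe a
    rw [h] at h1
    have h2 : algebraMap F M (a : F) = 0 := h1.symm.trans (map_zero _)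
    rw [map_eq_zero] at h2
    exact ha (RingOfIntegers.coe_eq_zero_iff.1 h2)
  have hunder : Q.comap (algebraMap (𝓞 F) (𝓞 M)) = w.asIdeal := by
    ext a
    rw [Ideal.mem_comap]
    by_cases ha : a = 0
    · rw [ha, map_zero]
      exact ⟨fun _ => Submodule.zero_mem _, fun _ => Submodule.zero_mem _⟩
    · have h1 := hmem _ (hinj a ha)
      rw [hcoe, ← map_inv₀, hV1, map_inv₀] at h1
      have hne : w.valuation F (a : F) ≠ 0 := by
        rw [Valuation.ne_zero_iff]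
        exact RingOfIntegers.coe_ne_zero_iff.2 ha
      rw [inv_le_one₀ (zero_lt_iff.2 hne)] at h1
      have h2 := HeightOneSpectrum.valuation_lt_one_iff_mem (K := F) w a
      rw [← h2, ← not_le, ← not_iff_not, not_not]
      exact h1
  have hQ0 : Q ≠ ⊥ := by
    intro h
    obtain ⟨a, ha, ha0⟩ := Submodule.exists_mem_ne_zero_of_ne_bot w.ne_bot
    have h1 : algebraMap (𝓞 F) (𝓞 M) a ∈ Q := by
      rw [← Ideal.mem_comap, hunder]
      exact ha
    rw [h] at h1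
    exact hinj a ha0 ((Submodule.mem_bot _).1 h1)
  refine ⟨Q, hQp, hQ0, hunder, ?_⟩
  intro hle
  obtain ⟨x, hx1, hx2⟩ := Ideal.exists_mem_pow_notMem_pow_succ Q hQ0 hQp.ne_top 1
  rw [pow_one] at hx1
  have hx0 : x ≠ 0 := fun h => hx2 (h ▸ Submodule.zero_mem _)
  have hx0' : (x : M) ≠ 0 := RingOfIntegers.coe_ne_zero_iff.2 hx0
  obtain ⟨c, hc0, hc1, hc2⟩ := hV2 (x : M) hx0'
  have hc0' : algebraMap F M c ≠ 0 := by rwa [Ne, map_eq_zero]
  have hcV : algebraMap F M c ∈ V := by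
    have h1 : algebraMap F M c = (x : M) * ((x : M) / algebraMap F M c)⁻¹ := by
      field_simp
    rw [h1]
    exact V.mul_mem _ _ (H4_int M V x) hc2
  have hcle : w.valuation F c ≤ 1 := (hV1 c).1 hcV
  have hclt : w.valuation F c < 1 := by
    refine lt_of_le_of_ne hcle fun h1 => ?_
    have h2 : algebraMap F M c⁻¹ ∈ V := by
      rw [hV1, map_inv₀, h1, inv_one]
    have h3 : (x : M)⁻¹ ∈ V := by
      have h4 : (x : M)⁻¹ = ((x : M) / algebraMap F M c)⁻¹ * algebraMap F M c⁻¹ := by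
        rw [map_inv₀]
        field_simp
      rw [h4]
      exact V.mul_mem _ _ hc2 h2
    exact (hmem x hx0).2 h3 hx1
  obtain ⟨n, d, hnd⟩ := w.exists_primeCompl_mul_eq_of_integer c hcle
  have hd : (d : 𝓞 F) ∉ w.asIdeal := d.2
  have hn : n ∈ w.asIdeal := by
    rw [← HeightOneSpectrum.valuation_lt_one_iff_mem (K := F)]
    have h1 : w.valuation F ((n : 𝓞 F) : F) = w.valuation F c * w.valuation F ((d : 𝓞 F) : F) := by
      rw [← map_mul]
      exact congrArg _ hnd.symm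
    rw [h1]
    exact mul_lt_one_of_lt_of_le hclt (HeightOneSpectrum.valuation_le_one w _)
  have hn' : algebraMap (𝓞 F) (𝓞 M) n ∈ Q ^ 2 := hle (Ideal.mem_map_of_mem _ hn)
  have hd' : algebraMap (𝓞 F) (𝓞 M) d ∉ Q := by
    rw [← Ideal.mem_comap, hunder]
    exact hd
  -- factor `(x) = Q A`
  obtain ⟨A, hA⟩ : Q ∣ Ideal.span {x} := by
    rw [Ideal.dvd_span_singleton]
    exact hx1
  obtain ⟨s, hs1, hs2⟩ : ∃ s ∈ A, s ∉ Q := by
    by_contra hcon
    push Not at hcon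
    apply hx2
    have h1 : Ideal.span {x} ≤ Q ^ 2 := by
      rw [hA, pow_two]
      exact Ideal.mul_mono_right hcon
    exact h1 (Ideal.mem_span_singleton_self x)
  obtain ⟨α, hα1, hα2⟩ : ∃ α ∈ Q, x * α = s * algebraMap (𝓞 F) (𝓞 M) n := by
    rw [← Ideal.mem_span_singleton_mul, hA]
    have h1 : Q * A * Q = A * Q ^ 2 := by ring
    rw [h1]
    exact Ideal.mul_mem_mul hs1 hn'
  -- in `M`
  have hnM : algebraMap F M c * algebraMap F M ((d : 𝓞 F) : F) = algebraMap F M ((n : 𝓞 F) : F) := by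
    rw [← map_mul]
    exact congrArg _ hnd
  have hαM : (x : M) * (α : M) = (s : M) * algebraMap F M ((n : 𝓞 F) : F) := by
    rw [← hcoe]
    exact_mod_cast congrArg (fun y : 𝓞 M => (y : M)) hα2
  have hs0 : (s : M) ≠ 0 := RingOfIntegers.coe_ne_zero_iff.2 (hmem0 s hs2)
  have hd0 : algebraMap F M ((d : 𝓞 F) : F) ≠ 0 := by
    rw [← hcoe]
    exact RingOfIntegers.coe_ne_zero_iff.2 (hmem0 _ hd')
  have h5 : (α : M) = (s : M) * algebraMap F M ((d : 𝓞 F) : F) * ((x : M) / algebraMap F M c)⁻¹ := by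
    have h6 : (α : M) = (s : M) * algebraMap F M ((n : 𝓞 F) : F) / x := by
      rw [← hαM]
      field_simp
    rw [h6, ← hnM]
    field_simp
  have hα0 : α ≠ 0 := by
    intro h
    rw [h] at h5
    have h6 : (0 : M) = (s : M) * algebraMap F M ((d : 𝓞 F) : F) *
        ((x : M) / algebraMap F M c)⁻¹ := h5
    have h7 : (s : M) * algebraMap F M ((d : 𝓞 F) : F) * ((x : M) / algebraMap F M c)⁻¹ ≠ 0 :=
      mul_ne_zero (mul_ne_zero hs0 hd0) (inv_ne_zero (div_ne_zero hx0' hc0'))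
    exact h7 h6.symm
  have h8 : (α : M)⁻¹ ∈ V := by
    have h9 : (α : M)⁻¹ = (s : M)⁻¹ * (((algebraMap (𝓞 F) (𝓞 M) d : 𝓞 M) : M))⁻¹ *
        ((x : M) / algebraMap F M c) := by
      rw [h5, hcoe]
      field_simp
    rw [h9]
    exact V.mul_mem _ _ (V.mul_mem _ _ ((hmem s (hmem0 s hs2)).1 hs2)
      ((hmem _ (hmem0 _ hd')).1 hd')) hc1
  exact (hmem α hα0).2 h8 hα1

theorem H4_smap (F M : Type) [Field F] [NumberField F] [Field M] [NumberField M] [Algebra F M]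
    (τ : M ≃ₐ[F] M) (J : Ideal (𝓞 F)) :
    τ • (J.map (algebraMap (𝓞 F) (𝓞 M))) = J.map (algebraMap (𝓞 F) (𝓞 M)) := by
  rw [Ideal.pointwise_smul_def, Ideal.map_map]
  congr 1
  ext a
  change τ ((algebraMap (𝓞 F) (𝓞 M) a : 𝓞 M) : M) = ((algebraMap (𝓞 F) (𝓞 M) a : 𝓞 M) : M)
  have h1 : ((algebraMap (𝓞 F) (𝓞 M) a : 𝓞 M) : M) = algebraMap F M (a : F) :=
    (IsScalarTower.algebraMap_apply (𝓞 F) (𝓞 M) M a).symm.trans
      (IsScalarTower.algebraMap_apply (𝓞 F) F M a)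
  rw [h1, τ.commutes]

theorem H4_smul_mul (F M : Type) [Field F] [NumberField F] [Field M] [NumberField M] [Algebra F M]
    (τ : M ≃ₐ[F] M) (I J : Ideal (𝓞 M)) : τ • (I * J) = (τ • I) * (τ • J) := by
  rw [Ideal.pointwise_smul_def, Ideal.pointwise_smul_def, Ideal.pointwise_smul_def, Ideal.map_mul]

theorem H4_conj (F M : Type) [Field F] [NumberField F] [Field M] [NumberField M] [Algebra F M]
    [IsGalois F M] (w : Ideal (𝓞 F)) (P Q : Ideal (𝓞 M)) (hP : P.IsPrime) (hQ : Q.IsPrime)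
    (hPw : P.comap (algebraMap (𝓞 F) (𝓞 M)) = w) (hQw : Q.comap (algebraMap (𝓞 F) (𝓞 M)) = w) :
    ∃ τ : M ≃ₐ[F] M, τ • P = Q := by
  have h1 : P.LiesOver w := ⟨hPw.symm⟩
  have h2 : Q.LiesOver w := ⟨hQw.symm⟩
  exact Ideal.exists_smul_eq_of_isGaloisGroup w P Q (M ≃ₐ[F] M)

theorem H4_under (F M : Type) [Field F] [NumberField F] [Field M] [NumberField M] [Algebra F M]
    (w : HeightOneSpectrum (𝓞 F)) (P : Ideal (𝓞 M)) (hP : P.IsPrime)
    (h : w.asIdeal.map (algebraMap (𝓞 F) (𝓞 M)) ≤ P) :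
    P.comap (algebraMap (𝓞 F) (𝓞 M)) = w.asIdeal := by
  refine (w.isMaximal.eq_of_le ?_ (Ideal.map_le_iff_le_comap.1 h)).symm
  intro h1
  exact hP.ne_top ((Ideal.comap_eq_top_iff).1 h1)

theorem H4_dvd (F M : Type) [Field F] [NumberField F] [Field M] [NumberField M] [Algebra F M]
    [IsGalois F M] (hunr : UnrV F M) (w : HeightOneSpectrum (𝓞 F)) (I : Ideal (𝓞 M)) (hI : I ≠ ⊥)
    (hfix : ∀ τ : M ≃ₐ[F] M, τ • I = I) (Q : Ideal (𝓞 M)) (hQ : Q.IsPrime) (hIQ : I ≤ Q)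
    (hQw : Q.comap (algebraMap (𝓞 F) (𝓞 M)) = w.asIdeal) :
    w.asIdeal.map (algebraMap (𝓞 F) (𝓞 M)) ∣ I := by
  obtain ⟨Q0, hQ0p, hQ0b, hQ0w, hQ0n⟩ := H4_ns F M hunr w
  obtain ⟨W, hW⟩ : ∃ W, W = w.asIdeal.map (algebraMap (𝓞 F) (𝓞 M)) := ⟨_, rfl⟩
  have hWb : W ≠ ⊥ := by
    intro h
    have h1 := Ideal.comap_map_eq_self_of_faithfullyFlat (B := 𝓞 M) w.asIdeal
    rw [← hW, h] at h1
    apply w.ne_bot
    rw [← h1, eq_bot_iff]
    intro a ha
    rw [Ideal.mem_comap, Ideal.mem_bot] at ha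
    rw [Ideal.mem_bot]
    exact (FaithfulSMul.algebraMap_injective (𝓞 F) (𝓞 M)) (ha.trans (map_zero _).symm)
  have hWfix : ∀ τ : M ≃ₐ[F] M, τ • W = W := by
    intro τ
    rw [hW]
    exact H4_smap F M τ _
  rw [← hW] at hQ0n ⊢
  have hWsq : Squarefree W := by
    rw [squarefree_iff_irreducible_sq_not_dvd_of_ne_zero hWb]
    intro P hP hPW
    have hPp : P.IsPrime := Ideal.isPrime_of_prime (irreducible_iff_prime.1 hP)
    have h1 : W ≤ P := Ideal.le_of_dvd ((dvd_mul_right P P).trans hPW)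
    have h2 := H4_under F M w P hPp (hW ▸ h1)
    obtain ⟨τ, hτ⟩ := H4_conj F M w.asIdeal P Q0 hPp hQ0p h2 hQ0w
    apply hQ0n
    rw [pow_two, ← hτ, ← H4_smul_mul, ← hWfix τ]
    exact Ideal.pointwise_smul_le_pointwise_smul_iff.2 (Ideal.le_of_dvd hPW)
  rw [UniqueFactorizationMonoid.dvd_iff_normalizedFactors_le_normalizedFactors hWb hI,
    Multiset.le_iff_subset
      ((UniqueFactorizationMonoid.squarefree_iff_nodup_normalizedFactors hWb).1 hWsq)]
  intro P hP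
  rw [Ideal.mem_normalizedFactors_iff hWb] at hP
  rw [Ideal.mem_normalizedFactors_iff hI]
  refine ⟨hP.1, ?_⟩
  have h2 := H4_under F M w P hP.1 (hW ▸ hP.2)
  obtain ⟨τ, hτ⟩ := H4_conj F M w.asIdeal Q P hQ hP.1 hQw h2
  rw [← hτ, ← hfix τ]
  exact Ideal.pointwise_smul_le_pointwise_smul_iff.2 hIQ

theorem H4_ind (F M : Type) [Field F] [NumberField F] [Field M] [NumberField M] [Algebra F M]
    [IsGalois F M] (hunr : UnrV F M) (n : ℕ) : ∀ I : Ideal (𝓞 M), Ideal.absNorm I ≤ n → I ≠ ⊥ →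
      (∀ τ : M ≃ₐ[F] M, τ • I = I) →
      ∃ J : Ideal (𝓞 F), J ≠ ⊥ ∧ J.map (algebraMap (𝓞 F) (𝓞 M)) = I := by
  induction n with
  | zero =>
    intro I h1 h2 _
    exact absurd (Ideal.absNorm_eq_zero_iff.1 (Nat.le_zero.1 h1)) h2
  | succ n ih =>
    intro I hIn hI hfix
    by_cases htop : I = ⊤
    · refine ⟨⊤, top_ne_bot, ?_⟩
      rw [Ideal.map_top, htop]
    · obtain ⟨Q, hQ, hIQ⟩ := Ideal.exists_le_maximal I htop
      have hQp : Q.IsPrime := hQ.isPrime
      have hQb : Q ≠ ⊥ := fun h => hI (eq_bot_iff.2 (h ▸ hIQ))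
      obtain ⟨w, hw⟩ : ∃ w : HeightOneSpectrum (𝓞 F),
          Q.comap (algebraMap (𝓞 F) (𝓞 M)) = w.asIdeal :=
        ⟨⟨Q.comap (algebraMap (𝓞 F) (𝓞 M)), Ideal.IsPrime.comap _, fun h =>
          hQb (Ideal.eq_bot_of_comap_eq_bot h)⟩, rfl⟩
      obtain ⟨I', hI'⟩ := H4_dvd F M hunr w I hI hfix Q hQp hIQ hw
      obtain ⟨W, hW⟩ : ∃ W, W = w.asIdeal.map (algebraMap (𝓞 F) (𝓞 M)) := ⟨_, rfl⟩
      rw [← hW] at hI'
      have hWb : W ≠ ⊥ := by
        intro h
        rw [h, Ideal.bot_mul] at hI'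
        exact hI hI'
      have hI'b : I' ≠ ⊥ := by
        intro h
        rw [h, Ideal.mul_bot] at hI'
        exact hI hI'
      have hWt : W ≠ ⊤ := by
        intro h
        have h1 : W ≤ Q := by
          rw [hW, Ideal.map_le_iff_le_comap, hw]
        rw [h] at h1
        exact hQp.ne_top (eq_top_iff.2 h1)
      have hfix' : ∀ τ : M ≃ₐ[F] M, τ • I' = I' := by
        intro τ
        have h1 := hfix τ
        rw [hI', H4_smul_mul, hW, H4_smap, ← hW] at h1
        exact mul_left_cancel₀ (b := τ • I') (c := I') hWb h1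
      have hnorm : Ideal.absNorm I' ≤ n := by
        have h1 : Ideal.absNorm I = Ideal.absNorm W * Ideal.absNorm I' := by
          rw [hI', map_mul]
        have h2 : Ideal.absNorm W ≠ 0 := by rwa [Ne, Ideal.absNorm_eq_zero_iff]
        have h3 : Ideal.absNorm W ≠ 1 := by rwa [Ne, Ideal.absNorm_eq_one_iff]
        have h4 : Ideal.absNorm I' ≠ 0 := by rwa [Ne, Ideal.absNorm_eq_zero_iff]
        have h5 : 2 * Ideal.absNorm I' ≤ Ideal.absNorm W * Ideal.absNorm I' :=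
          Nat.mul_le_mul_right _ (by omega)
        omega
      obtain ⟨J', hJ'b, hJ'⟩ := ih I' hnorm hI'b hfix'
      refine ⟨w.asIdeal * J', mul_ne_zero w.ne_bot hJ'b, ?_⟩
      rw [Ideal.map_mul, hJ', hI', hW]

theorem fixed_ideal (F M : Type) [Field F] [NumberField F] [Field M] [NumberField M] [Algebra F M]
    [IsGalois F M] (hunr : UnrV F M) (σ : M ≃ₐ[F] M)
    (hσ : ∀ τ : M ≃ₐ[F] M, τ ∈ Subgroup.zpowers σ) (I : Ideal (𝓞 M)) (hI : I ≠ ⊥)
    (hfix : σ • I = I) : ∃ J : Ideal (𝓞 F), J ≠ ⊥ ∧ J.map (algebraMap (𝓞 F) (𝓞 M)) = I := by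
  have h1 : ∀ τ : M ≃ₐ[F] M, τ • I = I := by
    intro τ
    have h2 : Subgroup.zpowers σ ≤ MulAction.stabilizer (M ≃ₐ[F] M) I := by
      rw [Subgroup.zpowers_le]
      exact hfix
    exact h2 (hσ τ)
  exact H4_ind F M hunr _ I le_rfl hI h1

theorem map_inj (F M : Type) [Field F] [NumberField F] [Field M] [NumberField M] [Algebra F M]
    {J J' : Ideal (𝓞 F)} (h : J.map (algebraMap (𝓞 F) (𝓞 M)) = J'.map (algebraMap (𝓞 F) (𝓞 M))) :
    J = J' := by
  rw [← Ideal.comap_map_eq_self_of_faithfullyFlat (B := 𝓞 M) J, h,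
    Ideal.comap_map_eq_self_of_faithfullyFlat]

end H2T4
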