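import Pool.Agent.H2.T4.HA
import Pool.Agent.H2.T4.H4

/-!
Row H5a (about 160 lines): capitulation kernel and H^{-1} of the units. Use only the STATEMENTS of HA, H4.

PROOF. Ex : Cl(F) → Cl(M) the extension map (hypothesis hEx). We need: |ker Ex| ≥ [K1 : B1], K1 = (nu F M).ker (units of norm 1), B1 = (du σ).range. We construct an injection of K1/B1 (or of a set of representatives) into ker Ex:
 for u ∈ K1 Hilbert 90 (cyclic: Mathlib `Algebra.norm_eq_one_iff_exists_..`; search Hilbert 90 for cyclic extensions, e.g. `groupCohomology.exists_div_of_norm_eq_one` or Mathlib.RepresentationTheory.Homological.GroupCohomology.Hilbert90 `isMulCoboundary₁_of_isMulCocycle₁_of_aut_to_units`;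
   H5/SW or H10 may contain a copy) gives β ∈ M*, u = σ β/β; multiply β by a nonzero element of 𝓞 F (fixed by σ): β ∈ 𝓞 M, β ≠ 0. The ideal (β) is fixed by σ (σβ = uβ), so (β) = J_u 𝓞 M by fixed_ideal, J_u ≠ ⊥, and Ex (icl J_u) = icl (β) = 1.
 If icl J_u = icl J_v: x J_u = y J_v (x, y ∈ 𝓞 F nonzero), so x β_u = ε y β_v with a unit ε of 𝓞 M (map_inj not needed, extend to M: span {x β_u} = span {y β_v}); apply σ and divide: u = (σ ε/ε) v. So u ≡ v mod B1. Hence u B1 ↦ icl J_u is injective from K1/B1 to ker Ex.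
-/

set_option autoImplicit false
open scoped Classical nonZeroDivisors Pointwise

open IsDedekindDomain NumberField

namespace H2T4

private lemma H5a_coe_smul {F M : Type} [Field F] [NumberField F] [Field M] [NumberField M]
    [Algebra F M] (σ : M ≃ₐ[F] M) (x : 𝓞 M) : ((σ • x : 𝓞 M) : M) = σ (x : M) := rfl

private lemma H5a_span {F M : Type} [Field F] [NumberField F] [Field M] [NumberField M]
    [Algebra F M] (σ : M ≃ₐ[F] M) (x : 𝓞 M) :
    σ • (Ideal.span {x} : Ideal (𝓞 M)) = Ideal.span {σ • x} := by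
  rw [Ideal.pointwise_smul_def, Ideal.map_span, Set.image_singleton]
  rfl

private lemma H5a_base {F M : Type} [Field F] [NumberField F] [Field M] [NumberField M]
    [Algebra F M] (σ : M ≃ₐ[F] M) (x : 𝓞 F) :
    σ • (algebraMap (𝓞 F) (𝓞 M) x) = algebraMap (𝓞 F) (𝓞 M) x := by
  apply RingOfIntegers.coe_injective
  exact σ.commutes (x : F)

private lemma H5a_hilb {F M : Type} [Field F] [NumberField F] [Field M] [NumberField M]
    [Algebra F M] [IsGalois F M] (σ : M ≃ₐ[F] M)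
    (hσ : ∀ τ : M ≃ₐ[F] M, τ ∈ Subgroup.zpowers σ) (u : (𝓞 M)ˣ) (hu : nu F M u = 1) :
    ∃ β : 𝓞 M, β ≠ 0 ∧ σ • β = (u : 𝓞 M) * β := by
  haveI : IsCyclic (M ≃ₐ[F] M) := ⟨σ, hσ⟩
  have h1 : nu F M u⁻¹ = 1 := by rw [map_inv, hu, inv_one]
  have h2 : Algebra.norm F (algebraMap (𝓞 M) M ((u⁻¹ : (𝓞 M)ˣ) : 𝓞 M)) = 1 := by
    have h3 := congrArg (fun v : (𝓞 F)ˣ => ((v : 𝓞 F) : F)) h1
    simp only [Units.val_one, map_one] at h3
    exact h3
  obtain ⟨ε, hε0, hε⟩ := groupCohomology.exists_mul_galRestrict_of_norm_eq_one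
    (A := 𝓞 F) (K := F) (L := M) (B := 𝓞 M) hσ h2
  refine ⟨ε, hε0, ?_⟩
  have h4 : galRestrict (𝓞 F) F M (𝓞 M) σ ε = σ • ε := by
    apply RingOfIntegers.coe_injective
    exact algebraMap_galRestrict_apply (𝓞 F) σ ε
  rw [h4] at hε
  calc σ • ε = (u : 𝓞 M) * (((u⁻¹ : (𝓞 M)ˣ) : 𝓞 M) * σ • ε) := by
        rw [← mul_assoc, Units.mul_inv, one_mul]
    _ = (u : 𝓞 M) * ε := by rw [hε]

theorem ker_ext_ge (F M : Type) [Field F] [NumberField F] [Field M] [NumberField M] [Algebra F M]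
    [IsGalois F M] (hunr : UnrV F M) (σ : M ≃ₐ[F] M)
    (hσ : ∀ τ : M ≃ₐ[F] M, τ ∈ Subgroup.zpowers σ) (Ex : ClassGroup (𝓞 F) →* ClassGroup (𝓞 M))
    (hEx : ∀ I, I ≠ ⊥ → Ex (icl I) = icl (I.map (algebraMap (𝓞 F) (𝓞 M))))
    (h0 : (du σ).range.relIndex (nu F M).ker ≠ 0) :
    (du σ).range.relIndex (nu F M).ker ≤ Nat.card Ex.ker := by
  have key : ∀ u : (nu F M).ker, ∃ (β : 𝓞 M) (J : Ideal (𝓞 F)), β ≠ 0 ∧
      σ • β = ((u : (𝓞 M)ˣ) : 𝓞 M) * β ∧ J ≠ ⊥ ∧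
      J.map (algebraMap (𝓞 F) (𝓞 M)) = Ideal.span {β} := by
    rintro ⟨u, hu⟩
    obtain ⟨β, hβ0, hβ⟩ := H5a_hilb σ hσ u hu
    have h1 : (Ideal.span {β} : Ideal (𝓞 M)) ≠ ⊥ := by
      rwa [Ne, Ideal.span_singleton_eq_bot]
    have h2 : σ • (Ideal.span {β} : Ideal (𝓞 M)) = Ideal.span {β} := by
      rw [H5a_span, hβ, Ideal.span_singleton_mul_left_unit u.isUnit]
    obtain ⟨J, hJ0, hJ⟩ := fixed_ideal F M hunr σ hσ _ h1 h2
    exact ⟨β, J, hβ0, hβ, hJ0, hJ⟩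
  choose β J hβ0 hβ hJ0 hJ using key
  have hker : ∀ u, icl (J u) ∈ Ex.ker := by
    intro u
    rw [MonoidHom.mem_ker, hEx _ (hJ0 u), hJ u, icl_eq_one (by
      rw [Ne, Ideal.span_singleton_eq_bot]
      exact hβ0 u)]
    exact ⟨⟨β u, rfl⟩⟩
  have hinj : ∀ u v, icl (J u) = icl (J v) → (u⁻¹ * v : (nu F M).ker) ∈
      (du σ).range.subgroupOf (nu F M).ker := by
    intro u v huv
    obtain ⟨x, y, hx, hy, hxy⟩ := (icl_eq_icl (hJ0 u) (hJ0 v)).1 huv
    have h1 := congrArg (Ideal.map (algebraMap (𝓞 F) (𝓞 M))) hxy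
    rw [Ideal.map_mul, Ideal.map_mul, Ideal.map_span, Ideal.map_span, Set.image_singleton,
      Set.image_singleton, hJ u, hJ v, Ideal.span_singleton_mul_span_singleton,
      Ideal.span_singleton_mul_span_singleton, Ideal.span_singleton_eq_span_singleton] at h1
    obtain ⟨ε, hε⟩ := h1
    have h2 := congrArg (fun z : 𝓞 M => σ • z) hε
    simp only [smul_mul', H5a_base, hβ] at h2
    have hx' : algebraMap (𝓞 F) (𝓞 M) x ≠ 0 := by
      rw [Ne, FaithfulSMul.algebraMap_eq_zero_iff]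
      exact hx
    have h3 : ((u : (𝓞 M)ˣ) : 𝓞 M) * (σ • (ε : 𝓞 M)) = ((v : (𝓞 M)ˣ) : 𝓞 M) * (ε : 𝓞 M) := by
      apply mul_left_cancel₀ (mul_ne_zero hx' (hβ0 u))
      calc algebraMap (𝓞 F) (𝓞 M) x * β u * (((u : (𝓞 M)ˣ) : 𝓞 M) * (σ • (ε : 𝓞 M))) =
          algebraMap (𝓞 F) (𝓞 M) x * (((u : (𝓞 M)ˣ) : 𝓞 M) * β u) * (σ • (ε : 𝓞 M)) := by ring
        _ = algebraMap (𝓞 F) (𝓞 M) y * (((v : (𝓞 M)ˣ) : 𝓞 M) * β v) := h2
        _ = ((v : (𝓞 M)ˣ) : 𝓞 M) * (algebraMap (𝓞 F) (𝓞 M) y * β v) := by ring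
        _ = ((v : (𝓞 M)ˣ) : 𝓞 M) * (algebraMap (𝓞 F) (𝓞 M) x * β u * (ε : 𝓞 M)) := by rw [hε]
        _ = _ := by ring
    have h4 : (u : (𝓞 M)ˣ) * su σ ε = (v : (𝓞 M)ˣ) * ε := by
      apply Units.ext
      rw [Units.val_mul, Units.val_mul]
      exact h3
    rw [Subgroup.mem_subgroupOf]
    refine ⟨ε, ?_⟩
    change su σ ε / ε = (((u⁻¹ * v : (nu F M).ker)) : (𝓞 M)ˣ)
    rw [Subgroup.coe_mul, Subgroup.coe_inv, div_eq_iff_eq_mul, mul_assoc, ← h4, inv_mul_cancel_left]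
  have hfin : Finite Ex.ker := inferInstance
  let f : (nu F M).ker ⧸ (du σ).range.subgroupOf (nu F M).ker → Ex.ker :=
    fun q => ⟨icl (J (Quotient.out q)), hker _⟩
  have hf : Function.Injective f := by
    intro q q' h
    have h1 : icl (J (Quotient.out q)) = icl (J (Quotient.out q')) := congrArg Subtype.val h
    have h2 := hinj _ _ h1
    rw [← QuotientGroup.eq] at h2
    have h3 : ∀ q : (nu F M).ker ⧸ (du σ).range.subgroupOf (nu F M).ker,
        ((Quotient.out q : (nu F M).ker) : (nu F M).ker ⧸ (du σ).range.subgroupOf (nu F M).ker) =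
          q := fun q => Quotient.out_eq q
    rw [h3, h3] at h2
    exact h2
  exact Nat.card_le_card_of_injective f hf

end H2T4
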