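import Pool.Agent.H2.T4.HA
import Pool.Agent.H2.T4.H4

/-!
Row H5b (about 170 lines): ambiguous classes. Use only the STATEMENTS of HA, H4.

PROOF. Fix the action Sg on Cl(M), Sg (icl I) = icl (σ • I). AG = {c | Sg c = c} (a subgroup: eqLocus), Ex.range ≤ AG (σ • map J = map J). For c ∈ AG choose I ≠ ⊥ with icl I = c: icl (σ • I) = icl I gives x, y ∈ 𝓞 M nonzero with x (σ • I) = y I; taking norms (relNorm_smul): norm x = ε norm y up to a unit: ε := norm(y)/norm(x) ∈ (𝓞 F)ˣ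
 (relNorm (span {x}) = span {norm x}; equal nonzero ideals: relNorm I cancels). The class of ε in (𝓞 F)ˣ/(nu F M).range is well defined: if x' (σ • I') = y' I' with a I = b I' (icl I = icl I'), then with α = y/x, α' = y'/x', γ = b/a (I = γ I'): (σ γ) σ I' = σ I = α I = α γ I' and σ I' = α' I', so (α') I' = (α γ/σ γ) I', α' = η α γ/σγ, η a unit of 𝓞 M, norm α' = norm α * norm η.
 c ↦ class of ε: suppose c, c' ∈ AG have the same class; then for c c'⁻¹ (multiplicativity: α multiplies) ε = norm η, η a unit: α'' = α/η has norm 1, Hilbert 90: α'' = σ β⁻¹/β⁻¹..., i.e. σ(β I) = β I for a suitable β; scale β to make β I integral: (β I) is fixed by σ, = J 𝓞 M by fixed_ideal. So c c'⁻¹ = icl (β I) = Ex (icl J) ∈ Ex.range.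
 Hence AG/Ex.range injects into (𝓞 F)ˣ/(nu F M).range: |AG| ≤ |Ex.range| * (nu F M).range.index. (If the index is zero (infinite) the hypothesis h0 excludes it.)
-/

set_option autoImplicit false
set_option linter.unusedSectionVars false
open scoped Classical nonZeroDivisors Pointwise

open IsDedekindDomain NumberField

namespace H2T4

section

variable {F M : Type} [Field F] [NumberField F] [Field M] [NumberField M] [Algebra F M]

private lemma H5b_coe (σ : M ≃ₐ[F] M) (b : 𝓞 M) : ((σ • b : 𝓞 M) : M) = σ (b : M) := rfl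

private lemma H5b_smul_span (σ : M ≃ₐ[F] M) (a : 𝓞 M) :
    σ • (Ideal.span {a} : Ideal (𝓞 M)) = Ideal.span {σ • a} := by
  rw [Ideal.pointwise_smul_def, Ideal.map_span, Set.image_singleton]
  rfl

private lemma H5b_smul_ne (σ : M ≃ₐ[F] M) {J : Ideal (𝓞 M)} (hJ : J ≠ ⊥) : σ • J ≠ ⊥ := by
  intro h0
  apply hJ
  have h1 : σ⁻¹ • (σ • J) = J := inv_smul_smul σ J
  rw [h0, ← Ideal.zero_eq_bot, smul_zero] at h1
  rw [← h1, Ideal.zero_eq_bot]

private lemma H5b_span_ne {a : 𝓞 M} (ha : a ≠ 0) : (Ideal.span {a} : Ideal (𝓞 M)) ≠ ⊥ := by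
  rw [Ne, Ideal.span_singleton_eq_bot]
  exact ha

private lemma H5b_span_mul (a b : 𝓞 M) :
    (Ideal.span {a * b} : Ideal (𝓞 M)) = Ideal.span {a} * Ideal.span {b} :=
  (Ideal.span_singleton_mul_span_singleton a b).symm

private lemma H5b_intNorm (x : 𝓞 M) :
    Algebra.intNorm (𝓞 F) (𝓞 M) x = RingOfIntegers.norm F x := by
  apply NumberField.RingOfIntegers.ext
  rw [RingOfIntegers.coe_norm]
  exact Algebra.algebraMap_intNorm (A := 𝓞 F) (K := F) (L := M) (B := 𝓞 M) x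

private lemma H5b_data [IsGalois F M] (σ : M ≃ₐ[F] M) {I : Ideal (𝓞 M)} (hI : I ≠ ⊥)
    (h : icl (σ • I) = icl I) : ∃ (x y : 𝓞 M) (ε : (𝓞 F)ˣ), x ≠ 0 ∧ y ≠ 0 ∧
      Ideal.span {x} * (σ • I) = Ideal.span {y} * I ∧
      RingOfIntegers.norm F y = RingOfIntegers.norm F x * ε := by
  obtain ⟨x, y, hx, hy, hxy⟩ := (icl_eq_icl (H5b_smul_ne σ hI) hI).1 h
  have h1 := congrArg (Ideal.relNorm (𝓞 F)) hxy
  rw [map_mul, map_mul, Ideal.relNorm_smul] at h1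
  have h2 : Ideal.relNorm (𝓞 F) I ≠ 0 := by
    rw [Ideal.zero_eq_bot, Ne, Ideal.relNorm_eq_bot_iff]
    exact hI
  have h3 := mul_right_cancel₀ h2 h1
  rw [Ideal.relNorm_singleton, Ideal.relNorm_singleton, H5b_intNorm, H5b_intNorm,
    Ideal.span_singleton_eq_span_singleton] at h3
  obtain ⟨ε, hε⟩ := h3
  exact ⟨x, y, ε, hx, hy, hxy, hε.symm⟩

private lemma H5b_hilb [IsGalois F M] (σ : M ≃ₐ[F] M)
    (hσ : ∀ τ : M ≃ₐ[F] M, τ ∈ Subgroup.zpowers σ) {p q : 𝓞 M} (hp : p ≠ 0) (η : (𝓞 M)ˣ)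
    (h : RingOfIntegers.norm F q = RingOfIntegers.norm F (p * (η : 𝓞 M))) :
    ∃ a : 𝓞 M, a ≠ 0 ∧ a * (p * (η : 𝓞 M)) = q * (σ • a) := by
  have hpη : p * (η : 𝓞 M) ≠ 0 := mul_ne_zero hp (Units.ne_zero η)
  have hpη' : ((p * (η : 𝓞 M) : 𝓞 M) : M) ≠ 0 := by
    intro h0
    exact hpη (NumberField.RingOfIntegers.ext h0)
  have hn : Algebra.norm F ((q : M) / ((p * (η : 𝓞 M) : 𝓞 M) : M)) = 1 := by
    have h1 : Algebra.norm F (q : M) = Algebra.norm F ((p * (η : 𝓞 M) : 𝓞 M) : M) := by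
      rw [← RingOfIntegers.coe_norm, ← RingOfIntegers.coe_norm, h]
    rw [div_eq_mul_inv, map_mul, Algebra.norm_inv, h1, mul_inv_cancel₀]
    rw [Algebra.norm_ne_zero_iff]
    exact hpη'
  have hcyc : IsCyclic (M ≃ₐ[F] M) := ⟨σ, hσ⟩
  obtain ⟨δ, hδ⟩ := groupCohomology.exists_div_of_norm_eq_one hσ hn
  obtain ⟨m, hm, hint⟩ := ((IsFractionRing.isAlgebraic_iff ℤ ℚ M).2
    (Algebra.IsAlgebraic.isAlgebraic (δ : M))).exists_integral_multiple
  have hm' : (m : M) ≠ 0 := by exact_mod_cast hm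
  have hs : σ (δ : M) ≠ 0 := by
    rw [Ne, map_eq_zero]
    exact δ.ne_zero
  obtain ⟨a, ha⟩ : ∃ a : 𝓞 M, (a : M) = m * δ := ⟨⟨m • (δ : M), hint⟩, zsmul_eq_mul _ _⟩
  refine ⟨a, ?_, ?_⟩
  · rintro rfl
    exact (mul_ne_zero hm' δ.ne_zero) (ha.symm.trans (map_zero (algebraMap (𝓞 M) M)))
  · apply NumberField.RingOfIntegers.ext
    have e2 : ((σ • a : 𝓞 M) : M) = m * σ δ := by rw [H5b_coe, ha, map_mul, map_intCast]
    have e3 : ((a * (p * (η : 𝓞 M)) : 𝓞 M) : M) = (a : M) * ((p * (η : 𝓞 M) : 𝓞 M) : M) :=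
      map_mul (algebraMap (𝓞 M) M) _ _
    have e4 : ((q * (σ • a) : 𝓞 M) : M) = (q : M) * ((σ • a : 𝓞 M) : M) :=
      map_mul (algebraMap (𝓞 M) M) _ _
    rw [e3, e4, ha, e2]
    rw [div_eq_div_iff hs hpη'] at hδ
    linear_combination (m : M) * hδ

private lemma H5b_key [IsGalois F M] (hunr : UnrV F M) (σ : M ≃ₐ[F] M)
    (hσ : ∀ τ : M ≃ₐ[F] M, τ ∈ Subgroup.zpowers σ) {I I' : Ideal (𝓞 M)} (hI : I ≠ ⊥) (hI' : I' ≠ ⊥)
    {x y x' y' : 𝓞 M} {ε ε' : (𝓞 F)ˣ} (hx : x ≠ 0) (hy' : y' ≠ 0)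
    (h1 : Ideal.span {x} * (σ • I) = Ideal.span {y} * I)
    (h2 : Ideal.span {x'} * (σ • I') = Ideal.span {y'} * I')
    (h3 : RingOfIntegers.norm F y = RingOfIntegers.norm F x * ε)
    (h4 : RingOfIntegers.norm F y' = RingOfIntegers.norm F x' * ε')
    (η : (𝓞 M)ˣ) (hη : ε = ε' * nu F M η) :
    ∃ J : Ideal (𝓞 F), J ≠ ⊥ ∧ icl (J.map (algebraMap (𝓞 F) (𝓞 M))) = icl I * (icl I')⁻¹ := by
  obtain ⟨K', hK', hK1⟩ := icl_surj (icl I')⁻¹
  have h5 : icl (I' * K') = 1 := by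
    rw [icl_mul hI' hK', hK1, mul_inv_cancel]
  have h6 : I' * K' ≠ ⊥ := mul_ne_zero hI' hK'
  obtain ⟨b, hb⟩ := (icl_eq_one h6).1 h5
  rw [Ideal.submodule_span_eq] at hb
  have hb0 : b ≠ 0 := by
    rintro rfl
    apply h6
    rw [hb, Ideal.span_singleton_eq_bot]
  have hb' : (σ • I') * (σ • K') = Ideal.span {σ • b} := by
    rw [← smul_mul', hb, H5b_smul_span]
  have h7 : Ideal.span {y' * b} * (σ • K') = Ideal.span {x' * (σ • b)} * K' := by
    rw [H5b_span_mul, H5b_span_mul, ← hb, ← hb']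
    calc Ideal.span {y'} * (I' * K') * (σ • K')
        = (Ideal.span {y'} * I') * (K' * (σ • K')) := by ring
      _ = (Ideal.span {x'} * (σ • I')) * (K' * (σ • K')) := by rw [h2]
      _ = _ := by ring
  obtain ⟨p, hp⟩ : ∃ p : 𝓞 M, p = x * (y' * b) := ⟨_, rfl⟩
  obtain ⟨q, hq⟩ : ∃ q : 𝓞 M, q = y * (x' * (σ • b)) := ⟨_, rfl⟩
  have hp0 : p ≠ 0 := by
    rw [hp]
    exact mul_ne_zero hx (mul_ne_zero hy' hb0)
  have h8 : Ideal.span {p} * (σ • (I * K')) = Ideal.span {q} * (I * K') := by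
    rw [hp, hq, H5b_span_mul, H5b_span_mul y, smul_mul']
    calc Ideal.span {x} * Ideal.span {y' * b} * ((σ • I) * (σ • K'))
        = (Ideal.span {x} * (σ • I)) * (Ideal.span {y' * b} * (σ • K')) := by ring
      _ = (Ideal.span {y} * I) * (Ideal.span {x' * (σ • b)} * K') := by rw [h1, h7]
      _ = _ := by ring
  have h9 : RingOfIntegers.norm F (σ • b) = RingOfIntegers.norm F b := by
    apply NumberField.RingOfIntegers.ext
    rw [RingOfIntegers.coe_norm, RingOfIntegers.coe_norm, H5b_coe]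
    exact Algebra.norm_eq_of_algEquiv σ (b : M)
  have h10 : RingOfIntegers.norm F q = RingOfIntegers.norm F (p * (η : 𝓞 M)) := by
    have e : (ε : 𝓞 F) = ε' * RingOfIntegers.norm F (η : 𝓞 M) := by
      rw [hη]
      rfl
    rw [hp, hq]
    simp only [map_mul]
    rw [h9, h3, h4, e]
    ring
  obtain ⟨a, ha0, ha⟩ := H5b_hilb σ hσ hp0 η h10
  have hK0 : I * K' ≠ ⊥ := mul_ne_zero hI hK'
  have hL0 : Ideal.span {a} * (I * K') ≠ ⊥ := mul_ne_zero (H5b_span_ne ha0) hK0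
  have hη1 : (Ideal.span {(η : 𝓞 M)} : Ideal (𝓞 M)) = 1 := by
    rw [Ideal.one_eq_top, Ideal.span_singleton_eq_top]
    exact η.isUnit
  have hfix : σ • (Ideal.span {a} * (I * K')) = Ideal.span {a} * (I * K') := by
    apply mul_left_cancel₀ (H5b_span_ne hp0)
    rw [smul_mul', H5b_smul_span]
    calc Ideal.span {p} * (Ideal.span {σ • a} * (σ • (I * K')))
        = Ideal.span {σ • a} * (Ideal.span {p} * (σ • (I * K'))) := by ring
      _ = (Ideal.span {q} * Ideal.span {σ • a}) * (I * K') := by rw [h8]; ring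
      _ = Ideal.span {a * (p * (η : 𝓞 M))} * (I * K') := by rw [← H5b_span_mul, ← ha]
      _ = Ideal.span {a} * (Ideal.span {p} * 1) * (I * K') := by
          rw [H5b_span_mul, H5b_span_mul, hη1]
      _ = _ := by ring
  obtain ⟨J, hJ0, hJ⟩ := fixed_ideal F M hunr σ hσ _ hL0 hfix
  refine ⟨J, hJ0, ?_⟩
  rw [hJ, icl_mul (H5b_span_ne ha0) hK0, (icl_eq_one (H5b_span_ne ha0)).2 ⟨⟨a, rfl⟩⟩, one_mul,
    icl_mul hI hK', hK1]

end

theorem ambiguous_le (F M : Type) [Field F] [NumberField F] [Field M] [NumberField M] [Algebra F M]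
    [IsGalois F M] (hunr : UnrV F M) (σ : M ≃ₐ[F] M)
    (hσ : ∀ τ : M ≃ₐ[F] M, τ ∈ Subgroup.zpowers σ) (Ex : ClassGroup (𝓞 F) →* ClassGroup (𝓞 M))
    (hEx : ∀ I, I ≠ ⊥ → Ex (icl I) = icl (I.map (algebraMap (𝓞 F) (𝓞 M))))
    (Sg : ClassGroup (𝓞 M) →* ClassGroup (𝓞 M)) (hSg : ∀ I, I ≠ ⊥ → Sg (icl I) = icl (σ • I))
    (h0 : (nu F M).range.index ≠ 0) :
    Nat.card {c : ClassGroup (𝓞 M) // Sg c = c} ≤ Nat.card Ex.range * (nu F M).range.index := by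
  have hdat : ∀ c : {c : ClassGroup (𝓞 M) // Sg c = c}, ∃ (I : Ideal (𝓞 M)) (x y : 𝓞 M)
      (ε : (𝓞 F)ˣ), I ≠ ⊥ ∧ icl I = (c : ClassGroup (𝓞 M)) ∧ x ≠ 0 ∧ y ≠ 0 ∧
      Ideal.span {x} * (σ • I) = Ideal.span {y} * I ∧
      RingOfIntegers.norm F y = RingOfIntegers.norm F x * ε := by
    rintro ⟨c, hc⟩
    obtain ⟨I, hI, hIc⟩ := icl_surj c
    have h1 : icl (σ • I) = icl I := by
      rw [← hSg I hI, hIc, hc]
    obtain ⟨x, y, ε, hx, hy, hxy, hn⟩ := H5b_data σ hI h1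
    exact ⟨I, x, y, ε, hI, hIc, hx, hy, hxy, hn⟩
  choose I x y ε hI hIc hx hy hxy hn using hdat
  have key : ∀ c c' : {c : ClassGroup (𝓞 M) // Sg c = c},
      (QuotientGroup.mk (ε c) : (𝓞 F)ˣ ⧸ (nu F M).range) = QuotientGroup.mk (ε c') →
      (c' : ClassGroup (𝓞 M)) * (c : ClassGroup (𝓞 M))⁻¹ ∈ Ex.range := by
    intro c c' hcc
    rw [QuotientGroup.eq] at hcc
    obtain ⟨η, hη⟩ := hcc
    obtain ⟨J, hJ, hJ'⟩ := H5b_key hunr σ hσ (hI c') (hI c) (hx c') (hy c) (hxy c') (hxy c)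
      (hn c') (hn c) η (by rw [hη, mul_inv_cancel_left])
    exact ⟨icl J, by rw [hEx J hJ, hJ', hIc, hIc]⟩
  have hfin : Finite ((𝓞 F)ˣ ⧸ (nu F M).range) := Subgroup.index_ne_zero_iff_finite.1 h0
  obtain ⟨rep, hrep⟩ : ∃ rep : (𝓞 F)ˣ ⧸ (nu F M).range → {c : ClassGroup (𝓞 M) // Sg c = c},
      ∀ c, (QuotientGroup.mk (ε (rep (QuotientGroup.mk (ε c)))) : (𝓞 F)ˣ ⧸ (nu F M).range) =
        QuotientGroup.mk (ε c) := by
    refine ⟨fun z => if h : ∃ c, (QuotientGroup.mk (ε c) : (𝓞 F)ˣ ⧸ (nu F M).range) = z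
      then h.choose else ⟨1, map_one _⟩, fun c => ?_⟩
    have h : ∃ c', (QuotientGroup.mk (ε c') : (𝓞 F)ˣ ⧸ (nu F M).range) =
        QuotientGroup.mk (ε c) := ⟨c, rfl⟩
    beta_reduce
    rw [dif_pos h]
    exact h.choose_spec
  have hinj : Function.Injective (fun c : {c : ClassGroup (𝓞 M) // Sg c = c} =>
      ((⟨(c : ClassGroup (𝓞 M)) * (rep (QuotientGroup.mk (ε c)) : ClassGroup (𝓞 M))⁻¹,
        key _ _ (hrep c)⟩ : Ex.range), (QuotientGroup.mk (ε c) : (𝓞 F)ˣ ⧸ (nu F M).range))) := by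
    intro c c' hcc
    obtain ⟨h1, h2⟩ := Prod.mk.injEq _ _ _ _ ▸ hcc
    have h3 := congrArg Subtype.val h1
    simp only at h3
    rw [h2] at h3
    exact Subtype.ext (mul_right_cancel h3)
  calc Nat.card {c : ClassGroup (𝓞 M) // Sg c = c}
      ≤ Nat.card (Ex.range × ((𝓞 F)ˣ ⧸ (nu F M).range)) := Nat.card_le_card_of_injective _ hinj
    _ = Nat.card Ex.range * (nu F M).range.index := by
        rw [Nat.card_prod]
        rfl

end H2T4
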