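import Pool.Agent.H2.T4.H3
import Pool.Agent.H2.T4.H5a
import Pool.Agent.H2.T4.H5b

/-!
Row H6 (about 150 lines): the norm on class groups is not surjective. Use only the STATEMENTS of HA, H3, H5a, H5b.

PROOF. Gal(M/F) has prime order ℓ: take a generator σ (isCyclic_of_prime_card, IsGalois.card_aut_eq_finrank). Ex, Sg, Nm from lift_ext, lift_act, lift_norm. T := Nm.range.
 c^ℓ ∈ T: c = icl J, Nm (Ex c) = icl (relNorm (map J)) = icl (J^ℓ) (Ideal.relNorm_algebraMap; exponent finrank = ℓ).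
 v with a prime Q above of trivial residue extension: relNorm Q = v^(inertiaDeg) (Ideal.relNorm_eq_pow_of_isMaximal), the inertia degree is 1 because 𝓞 F/v → 𝓞 M/Q is surjective; cl v = icl v.asIdeal = Nm (icl Q).
 T ≠ ⊤: suppose Nm is surjective. δ : Cl(M) → Cl(M), c ↦ Sg c/c is a homomorphism with kernel AG = {c | Sg c = c}, so |Cl(M)| = |AG| |range δ| (all finite). Nm (Sg c) = Nm c (relNorm_smul), so range δ ≤ Nm.ker and |Cl(F)| = |Cl(M)|/|Nm.ker| ≤ |Cl(M)|/|range δ| = |AG|.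
 units_herbrand: [K1 : B1] = ℓ i, i = (nu F M).range.index ≠ 0. ker_ext_ge: ℓ i ≤ |ker Ex|. |Cl(F)| = |ker Ex| |Ex.range|. ambiguous_le: |AG| ≤ |Ex.range| i. So ℓ |AG| ≤ |Ex.range| ℓ i ≤ |Ex.range| |ker Ex| = |Cl(F)| ≤ |AG|, and |AG| ≥ 1: contradiction with ℓ ≥ 3.
-/

set_option autoImplicit false
open scoped Classical nonZeroDivisors Pointwise

open IsDedekindDomain NumberField

namespace H2T4

private theorem H6_bot (F M : Type) [Field F] [NumberField F] [Field M] [NumberField M]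
    [Algebra F M] {J : Ideal (𝓞 F)} (h : J ≠ ⊥) : J.map (algebraMap (𝓞 F) (𝓞 M)) ≠ ⊥ := by
  intro h0
  exact h ((Ideal.map_eq_bot_iff_of_injective
    (FaithfulSMul.algebraMap_injective (𝓞 F) (𝓞 M))).1 h0)

private theorem H6_rank (F M : Type) [Field F] [NumberField F] [Field M] [NumberField M]
    [Algebra F M] : Module.finrank (𝓞 F) (𝓞 M) = Module.finrank F M :=
  (IsFractionRing.finrank_eq (𝓞 F) F (𝓞 M) M).symm

private theorem H6_inert (F M : Type) [Field F] [NumberField F] [Field M] [NumberField M]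
    [Algebra F M] (v : HeightOneSpectrum (𝓞 F)) (Q : Ideal (𝓞 M)) [hQ : Q.IsPrime]
    (hv : Q.comap (algebraMap (𝓞 F) (𝓞 M)) = v.asIdeal)
    (hr : ∀ x : 𝓞 M, ∃ y : 𝓞 F, x - algebraMap (𝓞 F) (𝓞 M) y ∈ Q) :
    Q ≠ ⊥ ∧ Ideal.relNorm (𝓞 F) Q = v.asIdeal := by
  have hQ0 : Q ≠ ⊥ := by
    rintro rfl
    apply v.ne_bot
    rw [← hv, eq_bot_iff]
    intro x hx
    rw [Ideal.mem_comap, Ideal.mem_bot] at hx
    rw [Ideal.mem_bot]
    exact (FaithfulSMul.algebraMap_injective (𝓞 F) (𝓞 M)) (by rw [hx, map_zero])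
  refine ⟨hQ0, ?_⟩
  have hQm : Q.IsMaximal := hQ.isMaximal hQ0
  have hvm : v.asIdeal.IsMaximal := v.isMaximal
  have hl : Q.LiesOver v.asIdeal := ⟨hv.symm⟩
  rw [Ideal.relNorm_eq_pow_of_isMaximal Q v.asIdeal, Ideal.inertiaDeg_eq_of_isMaximal v.asIdeal Q]
  have h1 : Module.finrank (𝓞 F ⧸ v.asIdeal) (𝓞 M ⧸ Q) = 1 := by
    let : Field (𝓞 F ⧸ v.asIdeal) := Ideal.Quotient.field v.asIdeal
    have h2 : (1 : 𝓞 M ⧸ Q) ≠ 0 := one_ne_zero
    refine (finrank_eq_one_iff_of_nonzero' (1 : 𝓞 M ⧸ Q) h2).2 fun w => ?_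
    obtain ⟨x, rfl⟩ := Ideal.Quotient.mk_surjective w
    obtain ⟨y, hy⟩ := hr x
    refine ⟨Ideal.Quotient.mk v.asIdeal y, ?_⟩
    rw [Algebra.smul_def, mul_one, Ideal.Quotient.algebraMap_mk_of_liesOver, eq_comm]
    exact (Ideal.Quotient.eq).2 hy
  rw [h1, pow_one]

private theorem H6_act {F M : Type} [Field F] [NumberField F] [Field M] [NumberField M]
    [Algebra F M] (σ : M ≃ₐ[F] M) (I : Ideal (𝓞 M)) :
    Ideal.relNorm (𝓞 F) (σ • I) = Ideal.relNorm (𝓞 F) I := by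
  have : SMulCommClass (M ≃ₐ[F] M) (𝓞 F) (𝓞 M) := ⟨fun g a x => by
    rw [Algebra.smul_def, Algebra.smul_def, smul_mul']
    congr 1
    apply RingOfIntegers.ext
    exact g.commutes (a : F)⟩
  exact Ideal.relNorm_smul (𝓞 F) σ I

private theorem H6_card {A B : Type} [CommGroup A] [Finite A] [CommGroup B] [Finite B]
    (f : A →* B) : Nat.card f.ker * Nat.card f.range = Nat.card A := by
  rw [← Subgroup.index_ker f, Subgroup.card_mul_index]

theorem chevalley (F M : Type) [Field F] [NumberField F] [Field M] [NumberField M] [Algebra F M]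
    [IsGalois F M] (ℓ : ℕ) (hℓ : ℓ.Prime) (h3 : 3 ≤ ℓ) (hdeg : Module.finrank F M = ℓ)
    (hF : ∀ w : InfinitePlace F, w.IsComplex) (hunr : UnrV F M) :
    ∃ T : Subgroup (ClassGroup (𝓞 F)), T ≠ ⊤ ∧ (∀ c, c ^ ℓ ∈ T) ∧
      ∀ v : HeightOneSpectrum (𝓞 F), (∃ Q : Ideal (𝓞 M), Q.IsPrime ∧
        Q.comap (algebraMap (𝓞 F) (𝓞 M)) = v.asIdeal ∧
        ∀ x : 𝓞 M, ∃ y : 𝓞 F, x - algebraMap (𝓞 F) (𝓞 M) y ∈ Q) → icl v.asIdeal ∈ T := by
  have hfd : FiniteDimensional F M := Module.Finite.of_restrictScalars_finite ℚ F M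
  have hp : Fact ℓ.Prime := ⟨hℓ⟩
  have hG : Nat.card (M ≃ₐ[F] M) = ℓ := by rw [IsGalois.card_aut_eq_finrank, hdeg]
  have hcyc : IsCyclic (M ≃ₐ[F] M) := isCyclic_of_prime_card hG
  obtain ⟨σ, hσ⟩ := hcyc.exists_generator
  obtain ⟨Ex, hEx⟩ := lift_ext F M
  obtain ⟨Sg, hSg⟩ := lift_act σ
  obtain ⟨Nm, hNm⟩ := lift_norm F M
  refine ⟨Nm.range, ?_, ?_, ?_⟩
  · intro htop
    obtain ⟨hu, hi⟩ := units_herbrand F M ℓ hℓ h3 hdeg hF σ hσ
    have hr0 : (du σ).range.relIndex (nu F M).ker ≠ 0 := by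
      rw [hu]
      exact mul_ne_zero hℓ.ne_zero hi
    have hk := ker_ext_ge F M hunr σ hσ Ex hEx hr0
    have ha := ambiguous_le F M hunr σ hσ Ex hEx Sg hSg hi
    rw [hu] at hk
    let δ : ClassGroup (𝓞 M) →* ClassGroup (𝓞 M) := Sg / MonoidHom.id _
    have hδ : ∀ c, δ c = Sg c / c := fun c => rfl
    have hAG : Nat.card {c : ClassGroup (𝓞 M) // Sg c = c} = Nat.card δ.ker := by
      refine Nat.card_congr (Equiv.subtypeEquivRight fun c => ?_)
      rw [MonoidHom.mem_ker, hδ, div_eq_one]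
    have hNS : ∀ c, Nm (Sg c) = Nm c := by
      intro c
      obtain ⟨I, hI, rfl⟩ := icl_surj c
      have hI' : σ • I ≠ ⊥ := by
        intro h0
        apply hI
        have h1 : σ⁻¹ • σ • I = σ⁻¹ • (⊥ : Ideal (𝓞 M)) := by rw [h0]
        rw [inv_smul_smul] at h1
        rw [h1]
        exact Ideal.map_bot
      rw [hSg I hI, hNm _ hI', hNm _ hI, H6_act]
    have hle : δ.range ≤ Nm.ker := by
      rintro _ ⟨c, rfl⟩
      rw [MonoidHom.mem_ker, hδ, map_div, hNS, div_self']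
    have hle' : Nat.card δ.range ≤ Nat.card Nm.ker := Subgroup.card_le_of_le hle
    have c1 := H6_card δ
    have c2 := H6_card Nm
    have c3 := H6_card Ex
    rw [htop, Subgroup.card_top] at c2
    rw [hAG] at ha
    have hpos : 0 < Nat.card δ.range := Nat.card_pos
    have hposA : 0 < Nat.card δ.ker := Nat.card_pos
    have e1 : Nat.card (ClassGroup (𝓞 F)) ≤ Nat.card δ.ker := by
      have h4 : Nat.card δ.range * Nat.card (ClassGroup (𝓞 F)) ≤
          Nat.card δ.range * Nat.card δ.ker := by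
        calc Nat.card δ.range * Nat.card (ClassGroup (𝓞 F))
            ≤ Nat.card Nm.ker * Nat.card (ClassGroup (𝓞 F)) := Nat.mul_le_mul_right _ hle'
          _ = Nat.card δ.range * Nat.card δ.ker := by rw [c2, ← c1, mul_comm]
      exact Nat.le_of_mul_le_mul_left h4 hpos
    have e2 : ℓ * Nat.card δ.ker ≤ Nat.card δ.ker := by
      calc ℓ * Nat.card δ.ker ≤ ℓ * (Nat.card Ex.range * (nu F M).range.index) :=
            Nat.mul_le_mul_left _ ha
        _ = Nat.card Ex.range * (ℓ * (nu F M).range.index) := by ring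
        _ ≤ Nat.card Ex.range * Nat.card Ex.ker := Nat.mul_le_mul_left _ hk
        _ = Nat.card (ClassGroup (𝓞 F)) := by rw [mul_comm, c3]
        _ ≤ Nat.card δ.ker := e1
    have e3 : 3 * Nat.card δ.ker ≤ ℓ * Nat.card δ.ker := Nat.mul_le_mul_right _ h3
    omega
  · intro c
    obtain ⟨J, hJ, rfl⟩ := icl_surj c
    refine ⟨Ex (icl J), ?_⟩
    rw [hEx J hJ, hNm _ (H6_bot F M hJ), Ideal.relNorm_algebraMap, H6_rank, hdeg, icl_pow hJ]
  · rintro v ⟨Q, hQ, hv, hr⟩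
    obtain ⟨hQ0, hn⟩ := H6_inert F M v Q hv hr
    exact ⟨icl Q, by rw [hNm Q hQ0, hn]⟩

end H2T4
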