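import Pool.Agent.H2.T4.C1
import Pool.Agent.H2.T4.C2
import Pool.Agent.H2.T4.C4
import Pool.Agent.H2.T4.C5
import Pool.Agent.H2.T4.H6

/-!
Row CZ (about 140 lines): unramified characters with norm relations are trivial (assembly of block C). Use only the STATEMENTS of C1, C2, C4, C5, H6, HA.

PROOF. Suppose a ≠ 1. a is surjective (non trivial homomorphism to a group of prime order ℓ), N₁ := fixedField a.ker: a.ker is normal so N₁/C is Galois (IsGalois.of_fixedField_normal_subgroup or similar), finrank C N₁ = index of a.ker = ℓ (card of the range). chevalley C N₁ ℓ gives T ≠ ⊤.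
 If some g ∈ S has orderOf g = q^0 = 1, then NK (with s = 1, g = 1: Lft) says a σ = 1 for all σ: contradiction. So 1 ≤ i for all g ∈ S.
 T' := {c | ∀ t ∈ Gal(C/ℚ), A_t c ∈ T}, A_t from lift_act (F = ℚ), A_t (icl I) = icl (t • I): a subgroup, T' ≤ T (t = 1), stable (A_t A_t' = A_(t t') on icl I), c^ℓ ∈ T'.
 For g ∈ S and v₀ inert with v.asIdeal = v₀ 𝓞 C: for all t: v' with v'.asIdeal = t • v.asIdeal; fr_inert, fr_conj: FrAt g v' s Q q, with Lft s (g^b), b coprime to orderOf g; a_frob gives ha of fr_mem, so v' has a prime Q₁ of 𝓞 N₁ above with trivial residue extension, so icl (t • v.asIdeal) ∈ T. So icl v.asIdeal ∈ T'.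
 norm_mem gives the hypothesis of hNN for T', so T' = ⊤, T = ⊤: contradiction.
-/

set_option autoImplicit false
open scoped Classical nonZeroDivisors Pointwise

open IsDedekindDomain NumberField Pool.Agent.H11 Finset

namespace H2T4

theorem CZ_smul_ne_bot {C : Type} [Field C] [NumberField C] (t : C ≃ₐ[ℚ] C) {I : Ideal (𝓞 C)}
    (hI : I ≠ ⊥) : t • I ≠ ⊥ := by
  intro h0
  apply hI
  have h1 : t⁻¹ • t • I = t⁻¹ • (⊥ : Ideal (𝓞 C)) := by rw [h0]
  rw [inv_smul_smul] at h1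
  rw [h1]
  exact Ideal.map_bot

theorem CZ_index (C M : Type) [Field C] [NumberField C] [Field M] [NumberField M] [Algebra C M]
    [IsGalois C M] {ℓ : ℕ} (hℓ : ℓ.Prime) (a : (M ≃ₐ[C] M) →* Multiplicative (ZMod ℓ))
    (ha : a ≠ 1) : Module.finrank C (IntermediateField.fixedField a.ker) = ℓ := by
  have hp : Fact ℓ.Prime := ⟨hℓ⟩
  have hne : NeZero ℓ := ⟨hℓ.ne_zero⟩
  have hfd : FiniteDimensional C M := Module.Finite.of_restrictScalars_finite ℚ C M
  have hc : Nat.card (Multiplicative (ZMod ℓ)) = ℓ := by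
    rw [Nat.card_congr Multiplicative.toAdd, Nat.card_zmod]
  rw [IntermediateField.finrank_eq_fixingSubgroup_index,
    IntermediateField.fixingSubgroup_fixedField, Subgroup.index_ker]
  have hr : a.range = ⊤ := by
    have hpc : Fact (Nat.card (Multiplicative (ZMod ℓ))).Prime := ⟨by rw [hc]; exact hℓ⟩
    refine (Subgroup.eq_bot_or_eq_top_of_prime_card a.range).resolve_left fun h => ha ?_
    exact MonoidHom.range_eq_bot_iff.1 h
  rw [hr, Subgroup.card_top, hc]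

theorem no_char (C M : Type) [Field C] [NumberField C] [Field M] [NumberField M] [Algebra C M]
    [IsGalois ℚ C] [IsGalois ℚ M] (hab : ∀ g g' : C ≃ₐ[ℚ] C, g * g' = g' * g)
    (hcx : ∀ w : InfinitePlace C, w.IsComplex) {ℓ : ℕ} (hℓ : ℓ.Prime) (h3 : 3 ≤ ℓ)
    (a : (M ≃ₐ[C] M) →* Multiplicative (ZMod ℓ))
    (hunr : UnrV C (IntermediateField.fixedField a.ker)) (S : Set (C ≃ₐ[ℚ] C))
    (hS : ∀ g ∈ S, ∃ q i : ℕ, q.Prime ∧ q ≠ ℓ ∧ orderOf g = q ^ i) (hNK : ∀ g ∈ S, NK a g)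
    (hNN : ∀ T : Subgroup (ClassGroup (𝓞 C)),
      (∀ (t : C ≃ₐ[ℚ] C) (I : Ideal (𝓞 C)), I ≠ ⊥ → icl I ∈ T → icl (t • I) ∈ T) →
      (∀ c, c ^ ℓ ∈ T) →
      (∀ g ∈ S, ∀ I : Ideal (𝓞 C), I ≠ ⊥ → icl (∏ j ∈ range (orderOf g), g ^ j • I) ∈ T) →
      T = ⊤) : a = 1 := by
  by_contra ha
  have hCM : IsGalois C M := IsGalois.tower_top_of_isGalois ℚ C M
  have hdeg := CZ_index C M hℓ a ha
  obtain ⟨T, hT1, hT2, hT3⟩ := chevalley C (IntermediateField.fixedField a.ker) ℓ hℓ h3 hdeg hcx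
    hunr
  have hgt : ∀ g ∈ S, orderOf g ≠ 1 := by
    intro g hg h1
    apply ha
    ext1 σ
    have hg1 : g = 1 := orderOf_eq_one_iff.1 h1
    have h2 := hNK g hg 1 (fun x => by rw [hg1]; rfl) σ
    rw [h1, Finset.prod_range_one, pow_zero] at h2
    have h4 : cj (1 : M ≃ₐ[ℚ] M) σ = σ := by
      ext y
      rfl
    rw [h4] at h2
    exact h2
  choose A hA using fun t : C ≃ₐ[ℚ] C => lift_act (F := ℚ) (M := C) t
  obtain ⟨T', hT'⟩ : ∃ T' : Subgroup (ClassGroup (𝓞 C)), ∀ c, c ∈ T' ↔ ∀ t, A t c ∈ T := by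
    refine ⟨⨅ t, T.comap (A t), fun c => ?_⟩
    rw [Subgroup.mem_iInf]
    exact forall_congr' fun t => Subgroup.mem_comap
  have hle : T' ≤ T := by
    intro c hc
    obtain ⟨I, hI, rfl⟩ := icl_surj c
    have h1 := (hT' _).1 hc 1
    rw [hA 1 I hI, one_smul] at h1
    exact h1
  have hst : ∀ (t : C ≃ₐ[ℚ] C) (I : Ideal (𝓞 C)), I ≠ ⊥ → icl I ∈ T' → icl (t • I) ∈ T' := by
    intro t I hI h
    rw [hT'] at h ⊢
    intro s
    rw [hA s _ (CZ_smul_ne_bot t hI), smul_smul, ← hA (s * t) I hI]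
    exact h (s * t)
  have hpow : ∀ c, c ^ ℓ ∈ T' := by
    intro c
    rw [hT']
    intro t
    rw [map_pow]
    exact hT2 _
  refine hT1 (top_le_iff.1 ((hNN T' hst hpow ?_).symm.le.trans hle))
  intro g hg I hI
  obtain ⟨q, i, hq, hqℓ, hgo⟩ := hS g hg
  have hi : 1 ≤ i := by
    rcases Nat.eq_zero_or_pos i with h | h
    · exact absurd (by rw [hgo, h, pow_zero]) (hgt g hg)
    · exact h
  refine norm_mem C ℓ hℓ h3 g q i hq hqℓ hi hgo T' hst hpow ?_ I hI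
  intro v₀ hin v hv
  rw [hT']
  intro t
  rw [hA t _ v.ne_bot]
  obtain ⟨s, Q, q', hfr⟩ := fr_inert C M g v₀ hin v hv
  have hvp : v.asIdeal.IsPrime := v.isPrime
  obtain ⟨v', hv'⟩ : ∃ v' : HeightOneSpectrum (𝓞 C), v'.asIdeal = t • v.asIdeal :=
    ⟨⟨t • v.asIdeal, Ideal.IsPrime.smul t, CZ_smul_ne_bot t v.ne_bot⟩, rfl⟩
  obtain ⟨s', Q', hfr'⟩ := fr_conj C M hab g t v v' s Q q' hfr hv'
  obtain ⟨b, hb, hs'⟩ := hfr'.2.2.2.1
  have hd : (orderOf g).Coprime ℓ := by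
    rw [hgo]
    exact Nat.Coprime.pow_left i ((Nat.coprime_primes hq hℓ).2 hqℓ)
  rw [← hv']
  exact hT3 v' (fr_mem C M a g v' s' Q' q' hfr' fun σ hσ =>
    a_frob C M hℓ a g hd (hNK g hg) b hb s' hs' σ hσ)

end H2T4
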