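import Mathlib

/-!
Row D1 (about 230 lines, pure group theory): the descent argument for cocycles.

Notation: ρ g X for ρ : Γ →* AddMonoid.End A (ρ (g h) X = ρ g (ρ h X)). ∂T(τ) = ρ τ T - T. f₁(τ) = ρ η (F (η⁻¹ τ η)) - F τ, f₃ = f₁ - ∂T₁.
PROOF. (0) For s ∈ Λ, τ ∈ Λ: ρ s (F (s⁻¹ τ s)) = F τ + (ρ τ (F s) - F s): F 1 = 0, F(s⁻¹ τ s) = F(s⁻¹) + ρ(s⁻¹)(F τ) + ρ(s⁻¹ τ)(F s), ρ s (F s⁻¹) = - F s.
 (1) f₁, ∂T, f₃ are cocycles on Λ (η⁻¹ Λ η = Λ): f(στ) = f σ + ρ σ (f τ).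
 (2) Ψ_j(τ) := ρ(η^j)(F(η^(-j) τ η^j)), Ψ_0 = F, Ψ_(j+1)(τ) - Ψ_j(τ) = ρ(η^j)(f₁(η^(-j) τ η^j)) (τ ∈ Λ), and ρ(η^j)(∂T(η^(-j) τ η^j)) = ∂(ρ(η^j) T)(τ). Ψ_P(τ) = F τ + ∂(F(η^P))(τ) by (0) as η^P ∈ Δ ⊆ Λ.
   So for τ ∈ Λ: ∑_{j<P} ρ(η^j)(f₃(η^(-j) τ η^j)) = ∂T₄(τ), T₄ = F(η^P) - ∑_{j<P} ρ(η^j) T₁, ℓ T₄ = 0.   [lemma key]
 dsc_a: for g, s: f₃(g⁻¹ s g) with (0) applied to the cocycle f₃: ρ g (f₃(g⁻¹ s g)) = f₃ s + (ρ s X - X), X = f₃ g, ℓ X = 0. s ∈ Δ: f₃ s ∈ A₀ and f₃(g⁻¹ s g) ∈ A₀ (Δ normal), ρ g preserves A₀, so ρ s X - X ∈ A₀ for all s ∈ Δ, X ∈ A₀ by hinv, so ρ s X = X by h0Δ.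
 dsc_b: for s ∈ Δ the left side of key is in A₀ (f₃(η^(-j) s η^j) ∈ A₀, fixed by η), so ρ s T₄ - T₄ ∈ A₀ for all s ∈ Δ, T₄ ∈ A₀, ρ s T₄ - T₄ = 0.
 dsc: now f₃ = 0 on Δ. For λ ∈ Λ, s ∈ Δ: f₃(λ s) = f₃ λ, f₃(s λ) = ρ s (f₃ λ), s λ = λ (λ⁻¹ s λ): ρ s (f₃ λ) = f₃ λ, so f₃ λ ∈ A₀ (hinv: the differences are 0 ∈ A₀). η⁻¹ λ η = λ c with c = λ⁻¹ η⁻¹ λ η ∈ Δ (hcom), so f₃(η⁻¹ λ η) = f₃ λ, and ρ η (f₃ λ) = f₃ λ (h0η). Hence f₃(η^(-j) λ η^j) = f₃ λ and key says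
   P f₃ λ = ∂T₄(λ). u P = 1 + v ℓ (coprime): f₃ = ∂(u T₄) on Λ, f₁ = ∂T₅, T₅ = u T₄ + T₁, ℓ T₅ = 0. Ψ_j = F + ∂(∑_{i<j} ρ(η^i) T₅) on Λ. For g = η^j λ: ρ g (F(g⁻¹ τ g)) = ρ(η^j)(ρ λ (F(λ⁻¹ τ' λ))), τ' = η^(-j) τ η^j ∈ Λ, = ρ(η^j)(F τ' + ∂(F λ)(τ')) = Ψ_j(τ) + ∂(ρ(η^j)(F λ))(τ).
-/

set_option autoImplicit false

open Finset

namespace H2T4

/-- `f₃(τ) = η F(η⁻¹ τ η) - F τ - (τ T - T)` -/
def f3 {Γ A : Type*} [Group Γ] [AddCommGroup A] (ρ : Γ →* AddMonoid.End A) (η : Γ) (F : Γ → A)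
    (T : A) (τ : Γ) : A :=
  ρ η (F (η⁻¹ * τ * η)) - F τ - (ρ τ T - T)

section D1aux

variable {Γ A : Type*} [Group Γ] [AddCommGroup A] (ρ : Γ →* AddMonoid.End A) (Λ : Subgroup Γ)

theorem D1_mul (g h : Γ) (X : A) : ρ g (ρ h X) = ρ (g * h) X := by
  rw [map_mul]
  rfl

theorem D1_id (X : A) : ρ 1 X = X := by
  rw [map_one, AddMonoid.End.coe_one, id]

/-- `F` is a cocycle on `Λ`. -/
def D1_coc (F : Γ → A) : Prop := ∀ σ ∈ Λ, ∀ τ ∈ Λ, F (σ * τ) = F σ + ρ σ (F τ)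

variable {ρ Λ}

theorem D1_one {F : Γ → A} (hF : D1_coc ρ Λ F) : F 1 = 0 := by
  have h := hF 1 Λ.one_mem 1 Λ.one_mem
  rw [mul_one, D1_id] at h
  exact left_eq_add.1 h

theorem D1_inv {F : Γ → A} (hF : D1_coc ρ Λ F) {s : Γ} (hs : s ∈ Λ) :
    ρ s (F s⁻¹) = -F s := by
  have h := hF s hs s⁻¹ (Λ.inv_mem hs)
  rw [mul_inv_cancel, D1_one hF] at h
  exact (neg_eq_of_add_eq_zero_right h.symm).symm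

theorem D1_conj {F : Γ → A} (hF : D1_coc ρ Λ F) {s τ : Γ} (hs : s ∈ Λ) (hτ : τ ∈ Λ) :
    ρ s (F (s⁻¹ * τ * s)) = F τ + (ρ τ (F s) - F s) := by
  rw [mul_assoc, hF s⁻¹ (Λ.inv_mem hs) (τ * s) (Λ.mul_mem hτ hs), map_add, D1_inv hF hs, D1_mul,
    mul_inv_cancel, D1_id, hF τ hτ s hs]
  abel

theorem D1_f3 [Λ.Normal] {F : Γ → A} (hF : D1_coc ρ Λ F) (η : Γ) (T : A) :
    D1_coc ρ Λ (f3 ρ η F T) := by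
  intro σ hσ τ hτ
  have h1 : ∀ g : Γ, g ∈ Λ → η⁻¹ * g * η ∈ Λ := by
    intro g hg
    have := Subgroup.Normal.conj_mem (H := Λ) inferInstance g hg η⁻¹
    rwa [inv_inv] at this
  have e1 : η⁻¹ * (σ * τ) * η = (η⁻¹ * σ * η) * (η⁻¹ * τ * η) := by group
  have e2 : η * (η⁻¹ * σ * η) = σ * η := by group
  simp only [f3]
  rw [e1, hF _ (h1 σ hσ) _ (h1 τ hτ), hF σ hσ τ hτ, map_add, D1_mul, e2, ← D1_mul ρ σ τ,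
    ← D1_mul ρ σ η, map_sub, map_sub, map_sub]
  abel

theorem D1_tor {F : Γ → A} {ℓ : ℕ} (hℓF : ∀ σ, ℓ • F σ = 0) {T : A} (hT : ℓ • T = 0) (η τ : Γ) :
    ℓ • f3 ρ η F T τ = 0 := by
  rw [f3, smul_sub, smul_sub, smul_sub, ← map_nsmul, ← map_nsmul, hℓF, hℓF, hT]
  simp

theorem D1_psi (η : Γ) (F : Γ → A) (T₁ : A) (τ : Γ) (j : ℕ) :
    ρ (η ^ j) (f3 ρ η F T₁ ((η ^ j)⁻¹ * τ * η ^ j)) =
      ρ (η ^ (j + 1)) (F ((η ^ (j + 1))⁻¹ * τ * η ^ (j + 1))) -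
        ρ (η ^ j) (F ((η ^ j)⁻¹ * τ * η ^ j)) - (ρ τ (ρ (η ^ j) T₁) - ρ (η ^ j) T₁) := by
  have e1 : η⁻¹ * ((η ^ j)⁻¹ * τ * η ^ j) * η = (η ^ (j + 1))⁻¹ * τ * η ^ (j + 1) := by
    rw [pow_succ]
    group
  have e2 : η ^ j * ((η ^ j)⁻¹ * τ * η ^ j) = τ * η ^ j := by group
  rw [f3, e1, map_sub, map_sub, map_sub, D1_mul, D1_mul, e2, ← pow_succ, ← D1_mul ρ τ]

theorem D1_key {F : Γ → A} (hF : D1_coc ρ Λ F) {P : ℕ} {η : Γ} (hηP : η ^ P ∈ Λ) (T₁ : A) {τ : Γ}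
    (hτ : τ ∈ Λ) :
    ∑ j ∈ range P, ρ (η ^ j) (f3 ρ η F T₁ ((η ^ j)⁻¹ * τ * η ^ j)) =
      ρ τ (F (η ^ P) - ∑ j ∈ range P, ρ (η ^ j) T₁) - (F (η ^ P) - ∑ j ∈ range P, ρ (η ^ j) T₁) := by
  rw [sum_congr rfl fun j _ => D1_psi η F T₁ τ j, sum_sub_distrib, sum_range_sub
    (fun j => ρ (η ^ j) (F ((η ^ j)⁻¹ * τ * η ^ j))) P, D1_conj hF hηP hτ, sum_sub_distrib,
    pow_zero, D1_id, map_sub, map_sum]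
  have e : ((1 : Γ)⁻¹ * τ * 1) = τ := by group
  rw [e]
  abel

theorem D1_T4 {F : Γ → A} {ℓ : ℕ} (hℓF : ∀ σ, ℓ • F σ = 0) {T₁ : A} (hT₁ : ℓ • T₁ = 0) (η : Γ)
    (P : ℕ) : ℓ • (F (η ^ P) - ∑ j ∈ range P, ρ (η ^ j) T₁) = 0 := by
  rw [smul_sub, hℓF, smul_sum, sum_eq_zero, sub_zero]
  intro j _
  rw [← map_nsmul, hT₁, map_zero]

theorem D1_comp [Λ.Normal] {F : Γ → A} {g h : Γ} {T U : A}
    (h1 : ∀ τ ∈ Λ, ρ g (F (g⁻¹ * τ * g)) = F τ + (ρ τ T - T))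
    (h2 : ∀ τ ∈ Λ, ρ h (F (h⁻¹ * τ * h)) = F τ + (ρ τ U - U)) :
    ∀ τ ∈ Λ, ρ (g * h) (F ((g * h)⁻¹ * τ * (g * h))) =
      F τ + (ρ τ (T + ρ g U) - (T + ρ g U)) := by
  intro τ hτ
  have h3 : g⁻¹ * τ * g ∈ Λ := by
    have := Subgroup.Normal.conj_mem (H := Λ) inferInstance τ hτ g⁻¹
    rwa [inv_inv] at this
  have e1 : (g * h)⁻¹ * τ * (g * h) = h⁻¹ * (g⁻¹ * τ * g) * h := by group
  have e2 : g * (g⁻¹ * τ * g) = τ * g := by group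
  rw [e1, ← D1_mul, h2 _ h3, map_add, h1 τ hτ, map_sub, D1_mul, e2, ← D1_mul ρ τ, map_add]
  abel

end D1aux

section

variable {Γ A : Type*} [Group Γ] [AddCommGroup A] (ρ : Γ →* AddMonoid.End A) (Λ Δ : Subgroup Γ)
  [Λ.Normal] [Δ.Normal] (hΔΛ : Δ ≤ Λ) (ℓ P : ℕ) (η : Γ) (hηP : η ^ P ∈ Δ) (A₀ : AddSubgroup A)
  (h0Δ : ∀ s ∈ Δ, ∀ X ∈ A₀, ρ s X = X) (h0η : ∀ X ∈ A₀, ρ η X = X)
  (hinv : ∀ X, ℓ • X = 0 → (∀ s ∈ Δ, ρ s X - X ∈ A₀) → X ∈ A₀) (F : Γ → A)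
  (hF : ∀ σ ∈ Λ, ∀ τ ∈ Λ, F (σ * τ) = F σ + ρ σ (F τ)) (hℓF : ∀ σ, ℓ • F σ = 0) (T₁ : A)
  (hT₁ : ℓ • T₁ = 0)

include hΔΛ hinv hF hℓF hT₁ h0Δ in
theorem dsc_a (h1 : ∀ s ∈ Δ, f3 ρ η F T₁ s ∈ A₀) (g : Γ) (hg : g ∈ Λ) (hgA : ∀ X ∈ A₀, ρ g X ∈ A₀)
    (s : Γ) (hs : s ∈ Δ) : ρ g (f3 ρ η F T₁ (g⁻¹ * s * g)) = f3 ρ η F T₁ s := by
  have hc : D1_coc ρ Λ (f3 ρ η F T₁) := D1_f3 hF η T₁
  have hX : f3 ρ η F T₁ g ∈ A₀ := by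
    refine hinv _ (D1_tor hℓF hT₁ η g) fun t ht => ?_
    have h2 := D1_conj hc hg (hΔΛ ht)
    have h3 : g⁻¹ * t * g ∈ Δ := by
      have := Subgroup.Normal.conj_mem (H := Δ) inferInstance t ht g⁻¹
      rwa [inv_inv] at this
    have h4 := A₀.sub_mem (hgA _ (h1 _ h3)) (h1 t ht)
    rwa [h2, add_sub_cancel_left] at h4
  rw [D1_conj hc hg (hΔΛ hs), h0Δ s hs _ hX, sub_self, add_zero]

include hΔΛ hinv hF hℓF hT₁ h0Δ h0η hηP in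
theorem dsc_b (h1 : ∀ s ∈ Δ, f3 ρ η F T₁ s ∈ A₀) (s : Γ) (hs : s ∈ Δ) :
    ∑ j ∈ range P, ρ (η ^ j) (f3 ρ η F T₁ ((η ^ j)⁻¹ * s * η ^ j)) = 0 := by
  have hpow : ∀ (j : ℕ), ∀ X ∈ A₀, ρ (η ^ j) X = X := by
    intro j
    induction j with
    | zero =>
      intro X _
      rw [pow_zero, D1_id]
    | succ j ih =>
      intro X hX
      rw [pow_succ, ← D1_mul, h0η X hX, ih X hX]
  have hT : F (η ^ P) - ∑ j ∈ range P, ρ (η ^ j) T₁ ∈ A₀ := by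
    refine hinv _ (D1_T4 hℓF hT₁ η P) fun t ht => ?_
    rw [← D1_key hF (hΔΛ hηP) T₁ (hΔΛ ht)]
    refine A₀.sum_mem fun j _ => ?_
    have h3 : (η ^ j)⁻¹ * t * η ^ j ∈ Δ := by
      have := Subgroup.Normal.conj_mem (H := Δ) inferInstance t ht (η ^ j)⁻¹
      rwa [inv_inv] at this
    rw [hpow j _ (h1 _ h3)]
    exact h1 _ h3
  rw [D1_key hF (hΔΛ hηP) T₁ (hΔΛ hs), h0Δ s hs _ hT, sub_self]

include hΔΛ hinv hF hℓF hT₁ h0Δ h0η hηP in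
theorem dsc (hcom : ∀ g h : Γ, g⁻¹ * h⁻¹ * g * h ∈ Δ) (hℓP : Nat.Coprime ℓ P)
    (hcov : ∀ g : Γ, ∃ (j : ℕ) (l : Γ), l ∈ Λ ∧ g = η ^ j * l) (h1 : ∀ s ∈ Δ, f3 ρ η F T₁ s = 0)
    (g : Γ) : ∃ T : A, ℓ • T = 0 ∧ ∀ τ ∈ Λ, ρ g (F (g⁻¹ * τ * g)) = F τ + (ρ τ T - T) := by
  have hc : D1_coc ρ Λ (f3 ρ η F T₁) := D1_f3 hF η T₁
  have hpow : ∀ (j : ℕ), ∀ X ∈ A₀, ρ (η ^ j) X = X := by
    intro j
    induction j with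
    | zero =>
      intro X _
      rw [pow_zero, D1_id]
    | succ j ih =>
      intro X hX
      rw [pow_succ, ← D1_mul, h0η X hX, ih X hX]
  have ha : ∀ l ∈ Λ, f3 ρ η F T₁ l ∈ A₀ := by
    intro l hl
    refine hinv _ (D1_tor hℓF hT₁ η l) fun s hs => ?_
    have h2 := hc s (hΔΛ hs) l hl
    have h3 : l⁻¹ * s * l ∈ Δ := by
      have := Subgroup.Normal.conj_mem (H := Δ) inferInstance s hs l⁻¹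
      rwa [inv_inv] at this
    have h4 := hc l hl _ (hΔΛ h3)
    have e : l * (l⁻¹ * s * l) = s * l := by group
    rw [e, h1 _ h3, map_zero, add_zero] at h4
    rw [h1 s hs, zero_add] at h2
    rw [← h2, h4, sub_self]
    exact A₀.zero_mem
  have hb : ∀ l ∈ Λ, f3 ρ η F T₁ (η⁻¹ * l * η) = f3 ρ η F T₁ l := by
    intro l hl
    have e : η⁻¹ * l * η = l * (l⁻¹ * η⁻¹ * l * η) := by group
    rw [e, hc l hl _ (hΔΛ (hcom l η)), h1 _ (hcom l η), map_zero, add_zero]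
  have hb' : ∀ (j : ℕ), ∀ l ∈ Λ, f3 ρ η F T₁ ((η ^ j)⁻¹ * l * η ^ j) = f3 ρ η F T₁ l := by
    intro j
    induction j with
    | zero =>
      intro l _
      have e : (η ^ 0)⁻¹ * l * η ^ 0 = l := by simp
      rw [e]
    | succ j ih =>
      intro l hl
      have e : (η ^ (j + 1))⁻¹ * l * η ^ (j + 1) = η⁻¹ * ((η ^ j)⁻¹ * l * η ^ j) * η := by
        rw [pow_succ]
        group
      have h3 : (η ^ j)⁻¹ * l * η ^ j ∈ Λ := by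
        have := Subgroup.Normal.conj_mem (H := Λ) inferInstance l hl (η ^ j)⁻¹
        rwa [inv_inv] at this
      rw [e, hb _ h3, ih l hl]
  obtain ⟨T₄, hT₄, hkey⟩ : ∃ T₄ : A, ℓ • T₄ = 0 ∧ ∀ l ∈ Λ,
      P • f3 ρ η F T₁ l = ρ l T₄ - T₄ := by
    refine ⟨_, D1_T4 (ρ := ρ) hℓF hT₁ η P, fun l hl => ?_⟩
    rw [← D1_key hF (hΔΛ hηP) T₁ hl, sum_congr rfl fun j _ => by
      rw [hb' j l hl, hpow j _ (ha l hl)], sum_const, card_range]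
  obtain ⟨a, b, hab⟩ : ∃ a b : ℤ, a * ℓ + b * P = 1 := by
    have h2 : IsCoprime (ℓ : ℤ) (P : ℤ) := Nat.isCoprime_iff_coprime.2 hℓP
    exact h2
  have hcob : ∀ l ∈ Λ, f3 ρ η F T₁ l = ρ l (b • T₄) - b • T₄ := by
    intro l hl
    have h2 : (a * ℓ + b * P) • f3 ρ η F T₁ l = f3 ρ η F T₁ l := by rw [hab, one_smul]
    rw [add_smul, mul_smul, mul_smul, natCast_zsmul, natCast_zsmul, D1_tor hℓF hT₁ η l, smul_zero,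
      zero_add, hkey l hl, smul_sub, ← map_zsmul] at h2
    exact h2.symm
  have hT₅ : ∀ l ∈ Λ, ρ η (F (η⁻¹ * l * η)) =
      F l + (ρ l (b • T₄ + T₁) - (b • T₄ + T₁)) := by
    intro l hl
    have h2 := hcob l hl
    rw [f3] at h2
    rw [map_add]
    have h3 : ρ η (F (η⁻¹ * l * η)) =
        (ρ η (F (η⁻¹ * l * η)) - F l - (ρ l T₁ - T₁)) + F l + (ρ l T₁ - T₁) := by abel
    rw [h3, h2]
    abel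
  have hℓT₅ : ℓ • (b • T₄ + T₁) = 0 := by
    rw [smul_add, hT₁, add_zero, smul_comm, hT₄, smul_zero]
  have hΨ : ∀ j : ℕ, ∃ T : A, ℓ • T = 0 ∧ ∀ τ ∈ Λ,
      ρ (η ^ j) (F ((η ^ j)⁻¹ * τ * η ^ j)) = F τ + (ρ τ T - T) := by
    intro j
    induction j with
    | zero =>
      refine ⟨0, smul_zero _, fun τ _ => ?_⟩
      have e : (η ^ 0)⁻¹ * τ * η ^ 0 = τ := by simp
      rw [e, pow_zero, D1_id, map_zero, sub_zero, add_zero]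
    | succ j ih =>
      obtain ⟨T, hT, h2⟩ := ih
      refine ⟨T + ρ (η ^ j) (b • T₄ + T₁), ?_, ?_⟩
      · rw [smul_add, hT, ← map_nsmul, hℓT₅, map_zero, add_zero]
      · rw [pow_succ]
        exact D1_comp h2 hT₅
  obtain ⟨j, l, hl, rfl⟩ := hcov g
  obtain ⟨T, hT, h2⟩ := hΨ j
  refine ⟨T + ρ (η ^ j) (F l), ?_, D1_comp h2 fun τ hτ => D1_conj hF hl hτ⟩
  rw [smul_add, hT, ← map_nsmul, hℓF, map_zero, add_zero]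

include hΔΛ hF hηP in
/-- the sum of the conjugates of `f₁` is a coboundary -/
theorem dsc_sum (hℓF : ∀ σ, ℓ • F σ = 0) : ∃ T : A, ℓ • T = 0 ∧ ∀ τ ∈ Λ,
    ∑ j ∈ range P, ρ (η ^ j) (f3 ρ η F 0 ((η ^ j)⁻¹ * τ * η ^ j)) = ρ τ T - T := by
  exact ⟨_, D1_T4 (ρ := ρ) hℓF (smul_zero ℓ) η P, fun τ hτ => D1_key hF (hΔΛ hηP) 0 hτ⟩

include hF in
/-- conjugation by an element of `Λ` changes `f₁` by a coboundary -/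
theorem dsc_inn (hℓF : ∀ σ, ℓ • F σ = 0) (g : Γ) (hg : g ∈ Λ) : ∃ T : A, ℓ • T = 0 ∧ ∀ τ ∈ Λ,
    ρ g (f3 ρ η F 0 (g⁻¹ * τ * g)) = f3 ρ η F 0 τ + (ρ τ T - T) := by
  exact ⟨f3 ρ η F 0 g, D1_tor hℓF (smul_zero ℓ) η g, fun τ hτ =>
    D1_conj (D1_f3 hF η 0) hg hτ⟩

end

end H2T4
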