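import Pool.Agent.H10.Bridge3
import Pool.Agent.H10.Pm

/-!
Row Dhi (about 120 lines): Hilbert 90 for locally constant cocycles with values in the n-th roots of unity.

PROOF. Adapt the PROVED theorem `hilb` of Pool/Agent/H55/T3/Hi.lean: 3 replaced by n ≠ 0 (`(by norm_num)` by hn or Nat.pos_of_ne_zero hn; the set {z | z ^ n = 1} is finite: Polynomial.mem_nthRootsFinset).
-/

set_option autoImplicit false
open scoped Classical

open WeierstrassCurve Pool.Agent.H10

namespace H2T4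

theorem hilb {k Ω : Type*} [Field k] [Field Ω] [Algebra k Ω] [IsGalois k Ω] (n : ℕ) (hn : n ≠ 0)
    {χ : (Ω ≃ₐ[k] Ω) → Ω} (hl : IsLocallyConstant χ) (hχ : ∀ σ, χ σ ^ n = 1)
    (hmul : ∀ σ τ, χ (σ * τ) = χ σ * σ (χ τ)) :
    ∃ (r : Ω) (d : k), r ≠ 0 ∧ d ≠ 0 ∧ r ^ n = algebraMap k Ω d ∧ ∀ σ, σ r = χ σ * r := by
  have hχn := hχ
  clear hχ
  have h1 : χ 1 = 1 := by
    have h2 := hmul 1 1
    have h3' := hχn 1
    have h0 : χ 1 ≠ 0 := by
      intro h0
      rw [h0, zero_pow hn] at h3'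
      exact zero_ne_one h3'
    rw [mul_one] at h2
    have h4 : χ 1 * 1 = χ 1 * χ 1 := by
      rw [mul_one]
      exact h2
    exact (mul_left_cancel₀ h0 h4).symm
  obtain ⟨E, hE⟩ := (lc_iff χ).1 hl 1
  have hne : ∀ σ, χ σ ≠ 0 := by
    intro σ h0
    have h3' := hχn σ
    rw [h0, zero_pow hn] at h3'
    exact zero_ne_one h3'
  have hfin3 : {z : Ω | z ^ n = 1}.Finite := by
    refine (Polynomial.nthRootsFinset n (1 : Ω)).finite_toSet.subset ?_
    intro z hz
    rw [Finset.mem_coe, Polynomial.mem_nthRootsFinset (Nat.pos_of_ne_zero hn)]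
    exact hz
  have hRfin : ((E : Set Ω) ∪ {z : Ω | z ^ n = 1}).Finite := E.finite_toSet.union hfin3
  have : Finite ((E : Set Ω) ∪ {z : Ω | z ^ n = 1} : Set Ω) := hRfin
  obtain ⟨M₀, hM₀⟩ : ∃ M₀ : IntermediateField k Ω,
      M₀ = IntermediateField.adjoin k ((E : Set Ω) ∪ {z : Ω | z ^ n = 1}) := ⟨_, rfl⟩
  have hfd : FiniteDimensional k M₀ := by
    rw [hM₀]
    exact IntermediateField.finiteDimensional_adjoin fun x _ => Algebra.IsIntegral.isIntegral x
  have hEM : ∀ x ∈ E, x ∈ M₀ := fun x hx => by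
    rw [hM₀]
    exact IntermediateField.subset_adjoin _ _ (Or.inl hx)
  have h3M : ∀ z : Ω, z ^ n = 1 → z ∈ M₀ := fun x hx => by
    rw [hM₀]
    exact IntermediateField.subset_adjoin _ _ (Or.inr hx)
  let M : IntermediateField k Ω := IntermediateField.normalClosure k M₀ Ω
  have hle : M₀ ≤ M := IntermediateField.le_normalClosure M₀
  have hfin : FiniteDimensional k M := normalClosure.is_finiteDimensional k M₀ Ω
  have hnor : Normal k M := normalClosure.normal k M₀ Ω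
  have hsep : Algebra.IsSeparable k M := inferInstance
  have hgal : IsGalois k M := { }
  have hχ : ∀ σ τ : Ω ≃ₐ[k] Ω, (∀ x : M, σ x = τ x) → χ σ = χ τ := by
    intro σ τ h
    have h2 : χ (τ⁻¹ * σ) = 1 := by
      rw [← h1]
      apply hE
      intro x hx
      have := h ⟨x, hle (hEM x hx)⟩
      simp only at this
      rw [AlgEquiv.mul_apply, this]
      exact τ.symm_apply_apply x
    have h5 : σ = τ * (τ⁻¹ * σ) := by group
    rw [h5, hmul, h2, map_one, mul_one]
  have hlift : ∀ (s : M ≃ₐ[k] M) (x : M), s.liftNormal Ω x = s x := fun s x ↦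
    AlgEquiv.liftNormal_commutes s Ω x
  let f : (M ≃ₐ[k] M) → Mˣ := fun s ↦
    Units.mk0 ⟨χ (s.liftNormal Ω), hle (h3M _ (hχn _))⟩ (fun h => hne _ (congrArg Subtype.val h))
  have hf : groupCohomology.IsMulCocycle₁ f := by
    intro g h
    have h1 : χ ((g * h).liftNormal Ω) = χ (g.liftNormal Ω) * g.liftNormal Ω (χ (h.liftNormal Ω)) := by
      rw [← hmul]
      apply hχ
      intro x
      rw [hlift, AlgEquiv.mul_apply, AlgEquiv.mul_apply, hlift, hlift]
    have h2 : g.liftNormal Ω (χ (h.liftNormal Ω)) =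
        ((g ⟨χ (h.liftNormal Ω), hle (h3M _ (hχn _))⟩ : M) : Ω) :=
      hlift g ⟨χ (h.liftNormal Ω), hle (h3M _ (hχn _))⟩
    ext
    show (χ ((g * h).liftNormal Ω) : Ω) =
      ((g ⟨χ (h.liftNormal Ω), hle (h3M _ (hχn _))⟩ : M) : Ω) * χ (g.liftNormal Ω)
    rw [h1, h2, mul_comm]
  obtain ⟨β, hβ⟩ := groupCohomology.isMulCoboundary₁_of_isMulCocycle₁_of_aut_to_units f hf
  have hσ : ∀ σ : Ω ≃ₐ[k] Ω, σ ((β : M) : Ω) = χ σ * ((β : M) : Ω) := by
    intro σ
    have h1 : ∀ x : M, ((σ.restrictNormal M x : M) : Ω) = σ x := fun x ↦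
      AlgEquiv.restrictNormal_commutes σ M x
    have h2 := hβ (σ.restrictNormal M)
    have h3 : σ.restrictNormal M (β : M) = f (σ.restrictNormal M) * β := by
      rw [← h2, Units.val_div_eq_div_val]
      have h5 : (β : M) ≠ 0 := β.ne_zero
      field_simp
      rfl
    rw [← h1, h3]
    have h4 : χ σ = χ ((σ.restrictNormal M).liftNormal Ω) := by
      apply hχ
      intro x
      rw [hlift, h1]
    rw [h4]
    rfl
  have hr0 : ((β : M) : Ω) ≠ 0 := fun h ↦ β.ne_zero (Subtype.ext h)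
  obtain ⟨d, hd⟩ := fixed_of_galois (k := k) (((β : M) : Ω) ^ n) (fun σ => by
    rw [map_pow, hσ, mul_pow, hχn, one_mul])
  refine ⟨_, d, hr0, ?_, hd.symm, hσ⟩
  rintro rfl
  rw [map_zero] at hd
  exact pow_ne_zero n hr0 hd.symm

end H2T4
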