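import Pool.Agent.H2.T4.DDf
import Pool.Agent.H2.T4.Dhi
import Pool.Agent.H11.Good

/-!
Row D3 (about 160 lines): the Kummer class of a cocycle and its valuations at good places. Use only the STATEMENTS of Dhi.

PROOF. ks_exists: χ σ := e (f σ); locally constant (isCocycle_iff; composition with a function). χ σ ^ ℓ = 1 (hE.pow). f (σ τ) = f σ + act σ (f τ), e of the sum (hE.mul), e (act σ S) = σ (e S) by hE.pos: act (inv_bc C VC) σ is pm (σ : Ω →+* Ω) and fixes upP T₀ (upP is pm of algebraMap; pm_pm, pm_congr, σ.commutes). hilb.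
 ks_good: Pool.Agent.H11.loc_apply for v = w, n = ℓ, M := Kn VC ℓ ⊔ (adjoin C {r}) (finite: Kn_finite, adjoin of one algebraic element; IntermediateField.finiteDimensional_sup), f, ι any (IsAlgClosed.lift), LocTriv from IsLocTriv (first component). α := ⟨r, _⟩ ≠ 0; if f σ = 0 then σ r = e 0 * r = r (e 0 = 1: e 0 = e 0 * e 0 and e 0 ≠ 0).
   So there is c ≠ 0 in C with r / c and its inverse in V; the ℓ-th power is d / c^ℓ ∈ C: w (d / c^ℓ) ≤ 1 and ≥ 1, so w d = (w c)^ℓ and log (w d) = ℓ log (w c) (WithZero.log_pow).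
-/

set_option autoImplicit false
open scoped Classical

open WeierstrassCurve IsDedekindDomain NumberField Pool.Agent.H10 Pool.Agent.H11

namespace H2T4

variable {C : Type} [Field C] [NumberField C] {VC : WeierstrassCurve C} [VC.IsElliptic] {ℓ : ℕ}
  (hℓ : ℓ.Prime) (T₀ : VC.toAffine.Point)
  {e : (VC.baseChange (AlgebraicClosure C)).toAffine.Point → AlgebraicClosure C}
  (hE : WP ℓ (VC.baseChange (AlgebraicClosure C)) (upP T₀) e) {f : Coch C VC}
  (hf : IsCocycle C VC f) (hℓf : ∀ σ, ℓ • f σ = 0)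

include hℓ hE hf hℓf in
theorem ks_exists : ∃ (r : AlgebraicClosure C) (d : C), r ≠ 0 ∧ d ≠ 0 ∧
    r ^ ℓ = algebraMap C (AlgebraicClosure C) d ∧
    ∀ σ : AlgebraicClosure C ≃ₐ[C] AlgebraicClosure C, σ r = e (f σ) * r := by
  have h1 := (isCocycle_iff f).1 hf
  refine hilb (k := C) (Ω := AlgebraicClosure C) ℓ hℓ.ne_zero (χ := fun σ => e (f σ))
    (h1.1.comp e) (fun σ => hE.pow _ (hℓf σ)) (fun σ τ => ?_)
  change e (f (σ * τ)) = e (f σ) * σ (e (f τ))
  rw [h1.2 σ τ]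
  have hfix : pm (σ : AlgebraicClosure C →+* AlgebraicClosure C) (inv_bc C VC σ) (upP T₀) =
      upP T₀ := by
    exact (pm_pm (algebraMap C (AlgebraicClosure C)) rfl
      (σ : AlgebraicClosure C →+* AlgebraicClosure C) (inv_bc C VC σ) T₀).trans
      (pm_congr _ _ (fun x => σ.commutes x) T₀)
  have h2 := hE.pos (σ : AlgebraicClosure C →+* AlgebraicClosure C) (inv_bc C VC σ) hfix (f τ)
    (hℓf τ)
  have h3 : ℓ • Pool.Agent.H10.act (inv_bc C VC) σ (f τ) = 0 := by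
    rw [← map_nsmul, hℓf, map_zero]
  rw [hE.mul _ _ (hℓf σ) h3]
  congr 1

include hℓ hE hℓf in
theorem ks_good (hl : IsLocTriv C VC f) {r : AlgebraicClosure C} {d : C} (hr : r ≠ 0) (hd0 : d ≠ 0)
    (hd : r ^ ℓ = algebraMap C (AlgebraicClosure C) d)
    (hσ : ∀ σ : AlgebraicClosure C ≃ₐ[C] AlgebraicClosure C, σ r = e (f σ) * r)
    (w : HeightOneSpectrum (𝓞 C)) (hg : GoodVal (w.valuation C) VC ℓ) :
    (ℓ : ℤ) ∣ WithZero.log (w.valuation C d) := by
  have hfin := Kn_finite VC ℓ hℓ.ne_zero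
  have hfr : FiniteDimensional C (IntermediateField.adjoin C {r}) :=
    IntermediateField.adjoin.finiteDimensional (Algebra.IsIntegral.isIntegral r)
  obtain ⟨M, hM⟩ : ∃ M, M = Kn VC ℓ ⊔ IntermediateField.adjoin C {r} := ⟨_, rfl⟩
  have hMf : FiniteDimensional C M := by
    rw [hM]
    infer_instance
  have hrM : r ∈ M := by
    rw [hM]
    exact (le_sup_right : IntermediateField.adjoin C {r} ≤ _)
      (IntermediateField.mem_adjoin_simple_self C r)
  have hKM : Kn VC ℓ ≤ M := by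
    rw [hM]
    exact le_sup_left
  let ι : AlgebraicClosure C →ₐ[C] AlgebraicClosure (w.adicCompletion C) := IsAlgClosed.lift
  obtain ⟨V, hV1, hV2⟩ := loc_apply VC w ℓ hg ι M hKM f hℓf (hl.1 w ι)
  have he0 : e 0 = 1 := (hE.ker 0 (smul_zero ℓ)).2 ⟨0, (zero_smul ℕ (upP T₀)).symm⟩
  obtain ⟨c, hc0, hc1, hc2⟩ := hV2 ⟨r, hrM⟩ (fun h => hr (congrArg Subtype.val h))
    (fun σ _ hfσ => by
      change σ r = r
      rw [hσ, hfσ, he0, one_mul])
  have hcM : algebraMap C M c ≠ 0 := by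
    intro h0
    exact hc0 ((map_eq_zero (algebraMap C M)).1 h0)
  have hrd : (⟨r, hrM⟩ : M) ^ ℓ = algebraMap C M d := by
    apply Subtype.ext
    exact hd
  have h1 : ((⟨r, hrM⟩ : M) / algebraMap C M c) ^ ℓ = algebraMap C M (d / c ^ ℓ) := by
    rw [div_pow, hrd, map_div₀, map_pow]
  have h2 : w.valuation C (d / c ^ ℓ) ≤ 1 := by
    rw [← hV1, ← h1]
    exact pow_mem hc1 ℓ
  have h3 : w.valuation C (d / c ^ ℓ)⁻¹ ≤ 1 := by
    rw [← hV1, map_inv₀, ← h1, ← inv_pow]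
    exact pow_mem hc2 ℓ
  have hwd : w.valuation C d ≠ 0 := (Valuation.ne_zero_iff _).2 hd0
  have hwc : w.valuation C c ≠ 0 := (Valuation.ne_zero_iff _).2 hc0
  have h4 : w.valuation C (d / c ^ ℓ) = 1 := by
    apply le_antisymm h2
    rw [map_inv₀] at h3
    have h5 : w.valuation C (d / c ^ ℓ) ≠ 0 :=
      (Valuation.ne_zero_iff _).2 (div_ne_zero hd0 (pow_ne_zero ℓ hc0))
    exact (inv_le_one₀ (zero_lt_iff.2 h5)).1 h3
  have h5 : w.valuation C d = (w.valuation C c) ^ ℓ := by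
    rw [map_div₀, map_pow, div_eq_one_iff_eq (pow_ne_zero ℓ hwc)] at h4
    exact h4
  rw [h5, WithZero.log_pow]
  exact ⟨WithZero.log (w.valuation C c), by rw [nsmul_eq_mul]⟩

end H2T4
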