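import Pool.Agent.H2.T4.DDf
import Pool.Agent.H10.Bridge3

/-!
Row D4 (about 200 lines): conjugates of the Kummer class.

Ω = AlgebraicClosure C, g over K; cj g σ = g⁻¹ σ g (apply_cj: g (cj g σ y) = σ (g y)), act over K is pm (g : Ω →+* Ω) (definition), act (inv_bc C VC) σ is pm (σ : Ω →+* Ω). e 0 = 1, e (-S) = (e S)⁻¹, e of a sum over a finset of points killed by ℓ is the product (from hE.mul, hE.pow).
 e (act σ S) = σ (e S) for σ ∈ Gal(Ω/C) (hE.pos; σ fixes upP T₀), so e (act σ T - T) = σ (e T) / e T for ℓ T = 0. Elements of Ω fixed by Gal(Ω/C) are in C (fixed_of_galois in Pool/Agent/H10/Bridge3.lean).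
PROOF. ks_norm: for all j, g = η^j fixes upP T₀ (act_mul, induction); σ (g r) = g ((cj g σ) r) = g (e (f (cj g σ))) * g r = e (act g (f (cj g σ))) * g r (hE.pos). R := ∏_{j<P} η^j r: σ R = e (∑ ...) R = e (act σ T - T) R. So R / e T is fixed: = y ∈ C, y^ℓ = R^ℓ = ∏ η^j d (e T ^ ℓ = 1, r^ℓ = d), η^j (algebraMap d) = algebraMap (h^j d) (induction).
 ks_pos: σ (t r) = e (act t (f (cj t σ))) * t r = e (f σ) * (σ (e T)/e T) * t r; t r / (r * e T) is fixed: = y, and the ℓ-th power gives g d = d y^ℓ.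
 ks_neg: hE.neg: e (pm J S) * J (e S) = 1, so σ (J r) = J (e (f (cj J σ))) * J r = (e (act J (f (cj J σ))))⁻¹ * J r = (e (f σ))⁻¹ (σ (e T)/e T)⁻¹ J r; r * J r * e T is fixed: = y, y^ℓ = d * g d.
 ks_power: r = z * y with z^ℓ = 1 (r^ℓ = y^ℓ, y ≠ 0); e T₁ = z (hE.surj). e (f σ) = σ r / r = σ z / z = e (act σ T₁ - T₁), so e (f σ - (act σ T₁ - T₁)) = 1 and hE.ker.
-/

/-!
Row D4 (about 200 lines): conjugates of the Kummer class.

Ω = AlgebraicClosure C, g over K; cj g σ = g⁻¹ σ g (apply_cj: g (cj g σ y) = σ (g y)), act over K is pm (g : Ω →+* Ω) (definition), act (inv_bc C VC) σ is pm (σ : Ω →+* Ω). e 0 = 1, e (-S) = (e S)⁻¹, e of a sum over a finset of points killed by ℓ is the product (from hE.mul, hE.pow).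
 e (act σ S) = σ (e S) for σ ∈ Gal(Ω/C) (hE.pos; σ fixes upP T₀), so e (act σ T - T) = σ (e T) / e T for ℓ T = 0. Elements of Ω fixed by Gal(Ω/C) are in C (fixed_of_galois in Pool/Agent/H10/Bridge3.lean).
PROOF. ks_norm: for all j, g = η^j fixes upP T₀ (act_mul, induction); σ (g r) = g ((cj g σ) r) = g (e (f (cj g σ))) * g r = e (act g (f (cj g σ))) * g r (hE.pos). R := ∏_{j<P} η^j r: σ R = e (∑ ...) R = e (act σ T - T) R. So R / e T is fixed: = y ∈ C, y^ℓ = R^ℓ = ∏ η^j d (e T ^ ℓ = 1, r^ℓ = d), η^j (algebraMap d) = algebraMap (h^j d) (induction).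
 ks_pos: σ (t r) = e (act t (f (cj t σ))) * t r = e (f σ) * (σ (e T)/e T) * t r; t r / (r * e T) is fixed: = y, and the ℓ-th power gives g d = d y^ℓ.
 ks_neg: hE.neg: e (pm J S) * J (e S) = 1, so σ (J r) = J (e (f (cj J σ))) * J r = (e (act J (f (cj J σ))))⁻¹ * J r = (e (f σ))⁻¹ (σ (e T)/e T)⁻¹ J r; r * J r * e T is fixed: = y, y^ℓ = d * g d.
 ks_power: r = z * y with z^ℓ = 1 (r^ℓ = y^ℓ, y ≠ 0); e T₁ = z (hE.surj). e (f σ) = σ r / r = σ z / z = e (act σ T₁ - T₁), so e (f σ - (act σ T₁ - T₁)) = 1 and hE.ker.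
-/

set_option autoImplicit false
open scoped Classical

open WeierstrassCurve IsDedekindDomain NumberField Pool.Agent.H10 Pool.Agent.H11 Finset

namespace H2T4

section D4aux

variable {ℓ : ℕ} {k : Type} [Field k] {W : WeierstrassCurve k} {T₀' : W.toAffine.Point}
  {e : W.toAffine.Point → k}

private theorem D4_ne (hℓ : ℓ.Prime) (hE : WP ℓ W T₀' e) {S : W.toAffine.Point}
    (hS : ℓ • S = 0) : e S ≠ 0 := by
  intro h
  have h1 := hE.pow S hS
  rw [h, zero_pow hℓ.ne_zero] at h1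
  exact zero_ne_one h1

private theorem D4_zero (hℓ : ℓ.Prime) (hE : WP ℓ W T₀' e) : e 0 = 1 := by
  have h0 : ℓ • (0 : W.toAffine.Point) = 0 := smul_zero _
  have h1 := hE.mul 0 0 h0 h0
  rw [add_zero] at h1
  have h2 := D4_ne hℓ hE h0
  have h3 : e 0 * 1 = e 0 * e 0 := by rw [mul_one]; exact h1
  exact (mul_left_cancel₀ h2 h3).symm

private theorem D4_neg (hℓ : ℓ.Prime) (hE : WP ℓ W T₀' e) {S : W.toAffine.Point}
    (hS : ℓ • S = 0) : e (-S) = (e S)⁻¹ := by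
  have h1 := hE.mul S (-S) hS (by rw [smul_neg, hS, neg_zero])
  rw [add_neg_cancel, D4_zero hℓ hE] at h1
  exact eq_inv_of_mul_eq_one_right h1.symm

private theorem D4_sub (hℓ : ℓ.Prime) (hE : WP ℓ W T₀' e) {S S' : W.toAffine.Point}
    (hS : ℓ • S = 0) (hS' : ℓ • S' = 0) : e (S - S') = e S / e S' := by
  rw [sub_eq_add_neg, hE.mul S (-S') hS (by rw [smul_neg, hS', neg_zero]), D4_neg hℓ hE hS',
    div_eq_mul_inv]

private theorem D4_sum (hℓ : ℓ.Prime) (hE : WP ℓ W T₀' e) {F : ℕ → W.toAffine.Point}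
    (hF : ∀ j, ℓ • F j = 0) (P : ℕ) : e (∑ j ∈ range P, F j) = ∏ j ∈ range P, e (F j) := by
  induction P with
  | zero => rw [sum_range_zero, prod_range_zero, D4_zero hℓ hE]
  | succ P ih =>
    rw [sum_range_succ, prod_range_succ, hE.mul _ _ _ (hF P), ih]
    rw [smul_sum]
    exact sum_eq_zero fun j _ => hF j

end D4aux

variable {K C : Type} [Field K] [NumberField K] [Field C] [NumberField C] [Algebra K C] [Normal K C]
  {VK : WeierstrassCurve K} {VC : WeierstrassCurve C} (hKC : VK.map (algebraMap K C) = VC)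
  {ℓ : ℕ} (hℓ : ℓ.Prime) (T₀ : VC.toAffine.Point)
  {e : (VC.baseChange (AlgebraicClosure C)).toAffine.Point → AlgebraicClosure C}
  (hE : WP ℓ (VC.baseChange (AlgebraicClosure C)) (upP T₀) e) {f : Coch C VC}
  (hℓf : ∀ σ, ℓ • f σ = 0) {r : AlgebraicClosure C} {d : C} (hr : r ≠ 0)
  (hd : r ^ ℓ = algebraMap C (AlgebraicClosure C) d)
  (hσ : ∀ σ : AlgebraicClosure C ≃ₐ[C] AlgebraicClosure C, σ r = e (f σ) * r)

section D4aux2

omit [NumberField C] in
include hE in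
private theorem D4_act (σ : AlgebraicClosure C ≃ₐ[C] AlgebraicClosure C)
    {S : (VC.baseChange (AlgebraicClosure C)).toAffine.Point} (hS : ℓ • S = 0) :
    e (Pool.Agent.H10.act (inv_bc C VC) σ S) = σ (e S) := by
  refine hE.pos (σ : AlgebraicClosure C →+* AlgebraicClosure C) (inv_bc C VC σ) ?_ S hS
  have h1 := pm_pm (algebraMap C (AlgebraicClosure C))
    (rfl : VC.map (algebraMap C (AlgebraicClosure C)) = VC.baseChange (AlgebraicClosure C))
    (σ : AlgebraicClosure C →+* AlgebraicClosure C) (inv_bc C VC σ) T₀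
  exact h1.trans (pm_congr _ _ (fun x => σ.commutes x) T₀)

omit [NumberField C] in
include hℓ hE in
private theorem D4_cob (σ : AlgebraicClosure C ≃ₐ[C] AlgebraicClosure C)
    {T : (VC.baseChange (AlgebraicClosure C)).toAffine.Point} (hT : ℓ • T = 0) :
    e (Pool.Agent.H10.act (inv_bc C VC) σ T - T) = σ (e T) / e T := by
  rw [D4_sub hℓ hE _ hT, D4_act T₀ hE σ hT]
  rw [← map_nsmul, hT, map_zero]

private theorem D4_fix {z : AlgebraicClosure C}
    (h : ∀ σ : AlgebraicClosure C ≃ₐ[C] AlgebraicClosure C, σ z = z) :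
    ∃ y : C, algebraMap C (AlgebraicClosure C) y = z := fixed_of_galois z h

include hE hℓf hσ in
private theorem D4_conj (g : AlgebraicClosure C ≃ₐ[K] AlgebraicClosure C)
    (hg : Pool.Agent.H10.act (inv_up hKC) g (upP T₀) = upP T₀)
    (σ : AlgebraicClosure C ≃ₐ[C] AlgebraicClosure C) :
    σ (g r) = e (Pool.Agent.H10.act (inv_up hKC) g (f (cj g σ))) * g r := by
  rw [← apply_cj g σ r, hσ, map_mul]
  congr 1
  exact (hE.pos (g : AlgebraicClosure C →+* AlgebraicClosure C) (inv_up hKC g) hg _ (hℓf _)).symm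

end D4aux2

include hℓ hE hℓf hr hd hσ in
theorem ks_norm (η : AlgebraicClosure C ≃ₐ[K] AlgebraicClosure C)
    (hηT : Pool.Agent.H10.act (inv_up hKC) η (upP T₀) = upP T₀) (P : ℕ)
    (T : (VC.baseChange (AlgebraicClosure C)).toAffine.Point) (hT : ℓ • T = 0)
    (hN : ∀ σ : AlgebraicClosure C ≃ₐ[C] AlgebraicClosure C,
      ∑ j ∈ range P, Pool.Agent.H10.act (inv_up hKC) (η ^ j) (f (cj (η ^ j) σ)) =
        Pool.Agent.H10.act (inv_bc C VC) σ T - T)
    (h : C ≃ₐ[ℚ] C)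
    (hη : ∀ x : C, η (algebraMap C (AlgebraicClosure C) x) = algebraMap C (AlgebraicClosure C) (h x)) :
    ∃ y : C, ∏ j ∈ range P, (h ^ j) d = y ^ ℓ := by
  have hfix : ∀ j : ℕ, Pool.Agent.H10.act (inv_up hKC) (η ^ j) (upP T₀) = upP T₀ := by
    intro j
    induction j with
    | zero => rw [pow_zero, Pool.Agent.H10.act_one]
    | succ j ih => rw [pow_succ, Pool.Agent.H10.act_mul, hηT, ih]
  have hpow : ∀ (j : ℕ) (x : C), (η ^ j) (algebraMap C (AlgebraicClosure C) x) =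
      algebraMap C (AlgebraicClosure C) ((h ^ j) x) := by
    intro j
    induction j with
    | zero => intro x; rfl
    | succ j ih =>
      intro x
      rw [pow_succ, pow_succ, AlgEquiv.mul_apply, AlgEquiv.mul_apply, hη, ih]
  have hR : ∀ σ : AlgebraicClosure C ≃ₐ[C] AlgebraicClosure C,
      σ (∏ j ∈ range P, (η ^ j) r) = σ (e T) / e T * ∏ j ∈ range P, (η ^ j) r := by
    intro σ
    rw [map_prod, ← D4_cob hℓ T₀ hE σ hT, ← hN σ, D4_sum hℓ hE, ← prod_mul_distrib]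
    · refine prod_congr rfl fun j _ => ?_
      exact D4_conj hKC T₀ hE hℓf hσ (η ^ j) (hfix j) σ
    · intro j
      rw [← map_nsmul, hℓf, map_zero]
  have hT0 := D4_ne hℓ hE hT
  obtain ⟨y, hy⟩ := D4_fix (z := (∏ j ∈ range P, (η ^ j) r) / e T) (by
    intro σ
    have h0 : σ (e T) ≠ 0 := by
      rw [Ne, EmbeddingLike.map_eq_zero_iff]
      exact hT0
    rw [map_div₀, hR]
    field_simp)
  refine ⟨y, ?_⟩
  apply (algebraMap C (AlgebraicClosure C)).injective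
  rw [map_pow, hy, div_pow, hE.pow T hT, div_one, map_prod, ← prod_pow]
  refine prod_congr rfl fun j _ => ?_
  rw [← map_pow, hd, hpow]

include hℓ hE hℓf hr hd hσ in
theorem ks_pos (t : AlgebraicClosure C ≃ₐ[K] AlgebraicClosure C)
    (htT : Pool.Agent.H10.act (inv_up hKC) t (upP T₀) = upP T₀)
    (T : (VC.baseChange (AlgebraicClosure C)).toAffine.Point) (hT : ℓ • T = 0)
    (hN : ∀ σ : AlgebraicClosure C ≃ₐ[C] AlgebraicClosure C,
      Pool.Agent.H10.act (inv_up hKC) t (f (cj t σ)) =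
        f σ + (Pool.Agent.H10.act (inv_bc C VC) σ T - T))
    (g : C ≃ₐ[ℚ] C)
    (ht : ∀ x : C, t (algebraMap C (AlgebraicClosure C) x) = algebraMap C (AlgebraicClosure C) (g x)) :
    ∃ y : C, g d = d * y ^ ℓ := by
  have hT0 := D4_ne hℓ hE hT
  have hcT : ∀ σ : AlgebraicClosure C ≃ₐ[C] AlgebraicClosure C,
      ℓ • (Pool.Agent.H10.act (inv_bc C VC) σ T - T) = 0 := by
    intro σ
    rw [smul_sub, ← map_nsmul, hT, map_zero, sub_zero]
  have hR : ∀ σ : AlgebraicClosure C ≃ₐ[C] AlgebraicClosure C,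
      σ (t r) = e (f σ) * (σ (e T) / e T) * t r := by
    intro σ
    rw [D4_conj hKC T₀ hE hℓf hσ t htT σ, hN σ, hE.mul _ _ (hℓf σ) (hcT σ),
      D4_cob hℓ T₀ hE σ hT]
  obtain ⟨y, hy⟩ := D4_fix (z := t r / (r * e T)) (by
    intro σ
    have h0 : σ (e T) ≠ 0 := by
      rw [Ne, EmbeddingLike.map_eq_zero_iff]
      exact hT0
    have h1 : e (f σ) ≠ 0 := D4_ne hℓ hE (hℓf σ)
    rw [map_div₀, map_mul, hR, hσ]
    field_simp)
  refine ⟨y, ?_⟩
  apply (algebraMap C (AlgebraicClosure C)).injective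
  have hr' : r ^ ℓ ≠ 0 := pow_ne_zero _ hr
  have h2 : t r ^ ℓ = algebraMap C (AlgebraicClosure C) (g d) := by rw [← map_pow, hd, ht]
  rw [map_mul, map_pow, hy, div_pow, mul_pow, hE.pow T hT, mul_one, ← hd, h2]
  field_simp

include hℓ hE hℓf hr hd hσ in
theorem ks_neg (J : AlgebraicClosure C ≃ₐ[K] AlgebraicClosure C)
    (hJT : Pool.Agent.H10.act (inv_up hKC) J (upP T₀) = -upP T₀)
    (T : (VC.baseChange (AlgebraicClosure C)).toAffine.Point) (hT : ℓ • T = 0)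
    (hN : ∀ σ : AlgebraicClosure C ≃ₐ[C] AlgebraicClosure C,
      Pool.Agent.H10.act (inv_up hKC) J (f (cj J σ)) =
        f σ + (Pool.Agent.H10.act (inv_bc C VC) σ T - T))
    (g : C ≃ₐ[ℚ] C)
    (hJ : ∀ x : C, J (algebraMap C (AlgebraicClosure C) x) = algebraMap C (AlgebraicClosure C) (g x)) :
    ∃ y : C, d * g d = y ^ ℓ := by
  have hT0 := D4_ne hℓ hE hT
  have hcT : ∀ σ : AlgebraicClosure C ≃ₐ[C] AlgebraicClosure C,
      ℓ • (Pool.Agent.H10.act (inv_bc C VC) σ T - T) = 0 := by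
    intro σ
    rw [smul_sub, ← map_nsmul, hT, map_zero, sub_zero]
  have hR : ∀ σ : AlgebraicClosure C ≃ₐ[C] AlgebraicClosure C,
      e (f σ) * (σ (e T) / e T) * σ (J r) = J r := by
    intro σ
    have h1 : e (Pool.Agent.H10.act (inv_up hKC) J (f (cj J σ))) * J (e (f (cj J σ))) = 1 :=
      hE.neg (J : AlgebraicClosure C →+* AlgebraicClosure C) (inv_up hKC J) hJT _ (hℓf _)
    rw [hN σ, hE.mul _ _ (hℓf σ) (hcT σ), D4_cob hℓ T₀ hE σ hT] at h1
    rw [← apply_cj J σ r, hσ, map_mul, ← mul_assoc, h1, one_mul]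
  obtain ⟨y, hy⟩ := D4_fix (z := r * J r * e T) (by
    intro σ
    have h1 := hR σ
    rw [map_mul, map_mul, hσ]
    have h2 : σ (e T) = σ (e T) / e T * e T := by field_simp
    calc e (f σ) * r * σ (J r) * σ (e T) = e (f σ) * r * σ (J r) * (σ (e T) / e T * e T) := by
          rw [← h2]
      _ = r * (e (f σ) * (σ (e T) / e T) * σ (J r)) * e T := by ring
      _ = r * J r * e T := by rw [h1])
  refine ⟨y, ?_⟩
  apply (algebraMap C (AlgebraicClosure C)).injective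
  rw [map_mul, map_pow, hy, mul_pow, mul_pow, hE.pow T hT, mul_one, ← map_pow, hd, hJ]

include hℓ hE hℓf hr hd hσ in
theorem ks_power (y : C) (hy : d = y ^ ℓ) :
    ∃ T₁ : (VC.baseChange (AlgebraicClosure C)).toAffine.Point, ℓ • T₁ = 0 ∧
      ∀ σ : AlgebraicClosure C ≃ₐ[C] AlgebraicClosure C, ∃ j : ℕ,
        f σ - (Pool.Agent.H10.act (inv_bc C VC) σ T₁ - T₁) = j • upP T₀ := by
  have hy0 : algebraMap C (AlgebraicClosure C) y ≠ 0 := by
    intro h0
    apply pow_ne_zero ℓ hr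
    rw [hd, hy, map_pow, h0, zero_pow hℓ.ne_zero]
  obtain ⟨T₁, hT₁, hz⟩ := hE.surj (r / algebraMap C (AlgebraicClosure C) y) (by
    rw [div_pow, hd, hy, map_pow, div_self (pow_ne_zero _ hy0)])
  refine ⟨T₁, hT₁, fun σ => ?_⟩
  have hcT : ℓ • (Pool.Agent.H10.act (inv_bc C VC) σ T₁ - T₁) = 0 := by
    rw [smul_sub, ← map_nsmul, hT₁, map_zero, sub_zero]
  refine (hE.ker _ ?_).1 ?_
  · rw [smul_sub, hℓf, hcT, sub_zero]
  · have h1 : e (f σ) ≠ 0 := D4_ne hℓ hE (hℓf σ)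
    rw [D4_sub hℓ hE (hℓf σ) hcT, D4_cob hℓ T₀ hE σ hT₁, hz, map_div₀, hσ, AlgEquiv.commutes]
    field_simp

end H2T4
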