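import Pool.Agent.H2.T4.DDf
import Pool.Agent.H2.T4.Dhi

/-!
Row D5 (about 200 lines): the character a and its Kummer generator over C(ζ). Use only the STATEMENTS of Dhi.

PROOF. exists_a: upP T₀ has order exactly ℓ (pm injective, T₀ ≠ 0, ℓ prime: addOrderOf_eq_prime), so the j with g σ = j • upP T₀ is unique mod ℓ; a σ := ofAdd (j : ZMod ℓ). act (inv_bc C VC) σ (upP T₀) = upP T₀, so g (σ τ) = g σ + g τ: homomorphism. (x : ZMod ℓ).val • upP T₀ = j • upP T₀ if x = j (nsmul congruence mod ℓ). E from lc_iff (Pool/Agent/H10/Pm.lean) at σ₀ = 1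
  (isCocycle_iff: locally constant; g 1 = 0).
 kum_a: F₁ := adjoin C {ζ}. Ω = AlgebraicClosure C is an algebra over F₁, IsGalois F₁ Ω. χ : (Ω ≃ₐ[F₁] Ω) → Ω, χ σ = ζ ^ (toAdd (a (σ.restrictScalars C))).val: locally constant (a is trivial on the automorphisms fixing E; lc_iff or factor through), values ℓ-th roots of unity, χ (σ τ) = χ σ * σ (χ τ) (σ ζ = ζ; ζ^ℓ = 1 so exponents mod ℓ). hilb (n = ℓ): r ≠ 0, d ∈ F₁, r^ℓ = d, σ r = χ σ * r. For σ ∈ Gal(Ω/C) with σ ζ = ζ: σ fixes F₁, so it comes from an F₁-automorphism.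
 e_val: η ζ = ζ and η maps C to C, so h₁ : F₁ ≃ₐ[ℚ] F₁ is given (hh₁). R := ∏_{j<P} η^j r. For σ ∈ Gal(Ω/C) with σ ζ = ζ: σ (η^j r) = η^j ((cj (η^j) σ) r) = η^j (ζ^(a (cj ..)) r) = ζ^(a (cj (η^j) σ)).val * η^j r (cj (η^j) σ fixes ζ), so σ R = ζ^(∑ vals) R = R by hNK. So R ∈ F₁ (fixed by Gal(Ω/F₁): IsGalois F₁ Ω, InfiniteGalois / fixed_of_galois of
   H10/Bridge3.lean with k = F₁), R^ℓ = ∏_{j<P} h₁^j e'. w' (h₁ x) = w' x gives ℓ log (w' R) = P log (w' e'), P coprime to ℓ: ℓ ∣ log (w' e').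
-/

set_option autoImplicit false
open scoped Classical

open WeierstrassCurve IsDedekindDomain NumberField Pool.Agent.H10 Pool.Agent.H11 Finset

namespace H2T4

/-- powers of a root of unity with exponents modulo `ℓ` -/
private noncomputable def d5psi (ℓ : ℕ) [NeZero ℓ] {M : Type*} [CommMonoid M] (ζ : M) (h : ζ ^ ℓ = 1) :
    Multiplicative (ZMod ℓ) →* M where
  toFun x := ζ ^ (Multiplicative.toAdd x).val
  map_one' := by
    rw [toAdd_one, ZMod.val_zero, pow_zero]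
  map_mul' x y := by
    rw [toAdd_mul, ZMod.val_add, ← pow_add, ← pow_eq_pow_mod _ h]

private theorem d5_fix {C : Type} [Field C] {ζ : AlgebraicClosure C}
    (σ : AlgebraicClosure C ≃ₐ[C] AlgebraicClosure C) (hσ : σ ζ = ζ)
    (x : AlgebraicClosure C) (hx : x ∈ IntermediateField.adjoin C {ζ}) : σ x = x := by
  induction hx using IntermediateField.adjoin_induction with
  | mem x hx =>
    rw [Set.mem_singleton_iff] at hx
    rw [hx, hσ]
  | algebraMap x => exact σ.commutes x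
  | add x y hx hy h1 h2 => rw [map_add, h1, h2]
  | inv x hx h1 => rw [map_inv₀, h1]
  | mul x y hx hy h1 h2 => rw [map_mul, h1, h2]

private theorem d5_fix' {C : Type} [Field C] {ζ : AlgebraicClosure C}
    (σ : AlgebraicClosure C ≃ₐ[IntermediateField.adjoin C {ζ}] AlgebraicClosure C) : σ ζ = ζ :=
  σ.commutes (⟨ζ, IntermediateField.mem_adjoin_simple_self C ζ⟩ : IntermediateField.adjoin C {ζ})

theorem exists_a {C : Type} [Field C] [NumberField C] {VC : WeierstrassCurve C} {ℓ : ℕ} (hℓ : ℓ.Prime)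
    (T₀ : VC.toAffine.Point) (h0 : T₀ ≠ 0) (hT : ℓ • T₀ = 0) {g : Coch C VC} (hg : IsCocycle C VC g)
    (hgT : ∀ σ, ∃ j : ℕ, g σ = j • upP T₀) :
    ∃ a : (AlgebraicClosure C ≃ₐ[C] AlgebraicClosure C) →* Multiplicative (ZMod ℓ),
      (∀ σ, g σ = (Multiplicative.toAdd (a σ)).val • upP T₀) ∧ (∀ σ, a σ = 1 ↔ g σ = 0) ∧
      ∃ E : Finset (AlgebraicClosure C), ∀ σ : AlgebraicClosure C ≃ₐ[C] AlgebraicClosure C,
        (∀ x ∈ E, σ x = x) → a σ = 1 := by
  classical
  have : Fact ℓ.Prime := ⟨hℓ⟩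
  have hg' := (Pool.Agent.H10.isCocycle_iff g).1 hg
  have ht0 : upP T₀ ≠ 0 := by
    intro h
    apply h0
    apply pm_injective (algebraMap C (AlgebraicClosure C)) rfl
    rw [map_zero]
    exact h
  have htl : ℓ • upP T₀ = 0 := by
    have h := map_nsmul (pm (algebraMap C (AlgebraicClosure C)) rfl :
      VC.toAffine.Point →+ (VC.baseChange (AlgebraicClosure C)).toAffine.Point) ℓ T₀
    rw [hT, map_zero] at h
    exact h.symm
  have hord : addOrderOf (upP T₀) = ℓ := addOrderOf_eq_prime htl ht0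
  have hact : ∀ σ : AlgebraicClosure C ≃ₐ[C] AlgebraicClosure C,
      Pool.Agent.H10.act (inv_bc C VC) σ (upP T₀) = upP T₀ := by
    intro σ
    have h := pm_pm (algebraMap C (AlgebraicClosure C))
      (rfl : VC.map (algebraMap C (AlgebraicClosure C)) = VC.baseChange (AlgebraicClosure C))
      (σ : AlgebraicClosure C →+* AlgebraicClosure C) (inv_bc C VC σ) T₀
    exact h.trans (pm_congr _ _ (fun x => σ.commutes x) T₀)
  choose j hj using hgT
  have hkey : ∀ m : ℕ, ((m : ZMod ℓ)).val • upP T₀ = m • upP T₀ := by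
    intro m
    rw [ZMod.val_natCast]
    have h := mod_addOrderOf_nsmul (upP T₀) m
    rwa [hord] at h
  have hinj : ∀ m m' : ℕ, m • upP T₀ = m' • upP T₀ → (m : ZMod ℓ) = m' := by
    intro m m' h
    rw [nsmul_eq_nsmul_iff_modEq, hord] at h
    exact (ZMod.natCast_eq_natCast_iff m m' ℓ).2 h
  let a : (AlgebraicClosure C ≃ₐ[C] AlgebraicClosure C) →* Multiplicative (ZMod ℓ) :=
    MonoidHom.mk' (fun σ => Multiplicative.ofAdd ((j σ : ℕ) : ZMod ℓ)) (fun σ τ => by
      rw [← ofAdd_add, ← Nat.cast_add]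
      congr 1
      apply hinj
      rw [← hj, hg'.2, hj σ, hj τ, map_nsmul, hact, add_nsmul])
  have ha : ∀ σ, Multiplicative.toAdd (a σ) = ((j σ : ℕ) : ZMod ℓ) := fun σ => rfl
  have ha1 : ∀ σ, a σ = 1 ↔ g σ = 0 := by
    intro σ
    rw [hj σ, ← addOrderOf_dvd_iff_nsmul_eq_zero, hord, ← ZMod.natCast_eq_zero_iff, ← ha]
    exact Iff.rfl
  refine ⟨a, fun σ => ?_, ha1, ?_⟩
  · rw [ha, hkey]
    exact hj σ
  · obtain ⟨E, hE⟩ := (lc_iff g).mp hg'.1 1
    refine ⟨E, fun σ hσ => ?_⟩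
    rw [ha1, hE σ (fun x hx => hσ x hx)]
    exact hg'.one

theorem kum_a {C : Type} [Field C] [NumberField C] {ℓ : ℕ} (hℓ : ℓ.Prime)
    (a : (AlgebraicClosure C ≃ₐ[C] AlgebraicClosure C) →* Multiplicative (ZMod ℓ))
    (E : Finset (AlgebraicClosure C)) (hE : ∀ σ : AlgebraicClosure C ≃ₐ[C] AlgebraicClosure C,
      (∀ x ∈ E, σ x = x) → a σ = 1) (ζ : AlgebraicClosure C) (hζ : IsPrimitiveRoot ζ ℓ) :
    ∃ (r : AlgebraicClosure C) (e' : IntermediateField.adjoin C {ζ}), e' ≠ 0 ∧ r ^ ℓ = e' ∧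
      ∀ σ : AlgebraicClosure C ≃ₐ[C] AlgebraicClosure C, σ ζ = ζ →
        σ r = ζ ^ (Multiplicative.toAdd (a σ)).val * r := by
  classical
  have : NeZero ℓ := ⟨hℓ.ne_zero⟩
  have hz := hζ.pow_eq_one
  have hgal : IsGalois C (AlgebraicClosure C) := inferInstance
  have hgal' : IsGalois (IntermediateField.adjoin C {ζ}) (AlgebraicClosure C) :=
    IsGalois.tower_top_intermediateField _
  let χ : (AlgebraicClosure C ≃ₐ[IntermediateField.adjoin C {ζ}] AlgebraicClosure C) →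
    AlgebraicClosure C := fun σ => d5psi ℓ ζ hz (a (σ.restrictScalars C))
  have hrs : ∀ σ τ : AlgebraicClosure C ≃ₐ[IntermediateField.adjoin C {ζ}] AlgebraicClosure C,
      (σ * τ).restrictScalars C = σ.restrictScalars C * τ.restrictScalars C := fun σ τ => rfl
  have hl : IsLocallyConstant χ := by
    rw [lc_iff]
    intro σ₀
    refine ⟨E, fun σ hσ => ?_⟩
    have h1 : a ((σ₀⁻¹ * σ).restrictScalars C) = 1 := by
      apply hE
      intro x hx
      show σ₀⁻¹ (σ x) = x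
      rw [hσ x hx]
      exact σ₀.symm_apply_apply x
    have h2 : σ = σ₀ * (σ₀⁻¹ * σ) := by group
    show d5psi ℓ ζ hz (a (σ.restrictScalars C)) = d5psi ℓ ζ hz (a (σ₀.restrictScalars C))
    rw [h2, hrs, map_mul, h1, mul_one]
  have hχ : ∀ σ, χ σ ^ ℓ = 1 := by
    intro σ
    show (ζ ^ (Multiplicative.toAdd (a (σ.restrictScalars C))).val) ^ ℓ = 1
    rw [← pow_mul, mul_comm, pow_mul, hz, one_pow]
  have hmul : ∀ σ τ, χ (σ * τ) = χ σ * σ (χ τ) := by
    intro σ τ
    have h1 : σ (χ τ) = χ τ := by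
      show σ (ζ ^ (Multiplicative.toAdd (a (τ.restrictScalars C))).val) = ζ ^ _
      rw [map_pow, d5_fix' σ]
    rw [h1]
    show d5psi ℓ ζ hz (a ((σ * τ).restrictScalars C)) = d5psi ℓ ζ hz (a (σ.restrictScalars C)) *
      d5psi ℓ ζ hz (a (τ.restrictScalars C))
    rw [hrs, map_mul, map_mul]
  obtain ⟨r, d, -, hd, hr, hrσ⟩ := hilb ℓ hℓ.ne_zero hl hχ hmul
  refine ⟨r, d, hd, hr, fun σ hσ => ?_⟩
  let σ' : AlgebraicClosure C ≃ₐ[IntermediateField.adjoin C {ζ}] AlgebraicClosure C :=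
    { σ with commutes' := fun x => d5_fix σ hσ _ x.2 }
  have h1 := hrσ σ'
  have h2 : σ'.restrictScalars C = σ := AlgEquiv.ext fun _ => rfl
  have h3 : χ σ' = ζ ^ (Multiplicative.toAdd (a σ)).val := by
    show d5psi ℓ ζ hz (a (σ'.restrictScalars C)) = _
    rw [h2]
    rfl
  rw [h3] at h1
  exact h1

theorem e_val {K C : Type} [Field K] [NumberField K] [Field C] [NumberField C] [Algebra K C]
    [Normal K C] {ℓ : ℕ} (hℓ : ℓ.Prime)
    (a : (AlgebraicClosure C ≃ₐ[C] AlgebraicClosure C) →* Multiplicative (ZMod ℓ))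
    (ζ : AlgebraicClosure C) (hζ : IsPrimitiveRoot ζ ℓ) [NumberField (IntermediateField.adjoin C {ζ})]
    (r : AlgebraicClosure C) (e' : IntermediateField.adjoin C {ζ}) (he : e' ≠ 0) (hr : r ^ ℓ = e')
    (hσ : ∀ σ : AlgebraicClosure C ≃ₐ[C] AlgebraicClosure C, σ ζ = ζ →
        σ r = ζ ^ (Multiplicative.toAdd (a σ)).val * r)
    (η : AlgebraicClosure C ≃ₐ[K] AlgebraicClosure C) (hη : η ζ = ζ) (P : ℕ) (hP : P.Coprime ℓ)
    (hNK : ∀ σ : AlgebraicClosure C ≃ₐ[C] AlgebraicClosure C,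
      ∏ j ∈ range P, a (cj (η ^ j) σ) = 1)
    (h₁ : IntermediateField.adjoin C {ζ} ≃ₐ[ℚ] IntermediateField.adjoin C {ζ})
    (hh₁ : ∀ x : IntermediateField.adjoin C {ζ}, η (x : AlgebraicClosure C) = (h₁ x : AlgebraicClosure C))
    (w' : HeightOneSpectrum (𝓞 (IntermediateField.adjoin C {ζ})))
    (hw : ∀ x, w'.valuation (IntermediateField.adjoin C {ζ}) (h₁ x) =
      w'.valuation (IntermediateField.adjoin C {ζ}) x) :
    (ℓ : ℤ) ∣ WithZero.log (w'.valuation (IntermediateField.adjoin C {ζ}) e') := by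
  classical
  have : NeZero ℓ := ⟨hℓ.ne_zero⟩
  have hz := hζ.pow_eq_one
  have hgal : IsGalois C (AlgebraicClosure C) := inferInstance
  have hgal' : IsGalois (IntermediateField.adjoin C {ζ}) (AlgebraicClosure C) :=
    IsGalois.tower_top_intermediateField _
  have hηj : ∀ j : ℕ, (η ^ j) ζ = ζ := by
    intro j
    induction j with
    | zero => rfl
    | succ j ih =>
      rw [pow_succ, AlgEquiv.mul_apply, hη, ih]
  have hηx : ∀ (j : ℕ) (x : IntermediateField.adjoin C {ζ}),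
      (η ^ j) (x : AlgebraicClosure C) = (((h₁ ^ j) x : IntermediateField.adjoin C {ζ}) : AlgebraicClosure C) := by
    intro j
    induction j with
    | zero => intro x; rfl
    | succ j ih =>
      intro x
      rw [pow_succ, pow_succ, AlgEquiv.mul_apply, AlgEquiv.mul_apply, hh₁, ih]
  have hwj : ∀ (j : ℕ) (x : IntermediateField.adjoin C {ζ}),
      w'.valuation (IntermediateField.adjoin C {ζ}) ((h₁ ^ j) x) =
        w'.valuation (IntermediateField.adjoin C {ζ}) x := by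
    intro j
    induction j with
    | zero => intro x; rfl
    | succ j ih =>
      intro x
      rw [pow_succ, AlgEquiv.mul_apply, ih, hw]
  have hcz : ∀ (j : ℕ) (σ : AlgebraicClosure C ≃ₐ[C] AlgebraicClosure C), σ ζ = ζ →
      cj (η ^ j) σ ζ = ζ := by
    intro j σ h
    apply (η ^ j).injective
    rw [apply_cj, hηj, h]
  obtain ⟨R, hR⟩ : ∃ R : AlgebraicClosure C, R = ∏ j ∈ range P, (η ^ j) r := ⟨_, rfl⟩
  have hRfix : ∀ σ : AlgebraicClosure C ≃ₐ[IntermediateField.adjoin C {ζ}] AlgebraicClosure C,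
      σ R = R := by
    intro σ
    obtain ⟨τ, hτ⟩ : ∃ τ : AlgebraicClosure C ≃ₐ[C] AlgebraicClosure C, ∀ x, τ x = σ x :=
      ⟨σ.restrictScalars C, fun _ => rfl⟩
    have hτz : τ ζ = ζ := by rw [hτ]; exact d5_fix' σ
    rw [← hτ, hR, map_prod]
    have h1 : ∀ j ∈ range P, τ ((η ^ j) r) = d5psi ℓ ζ hz (a (cj (η ^ j) τ)) * (η ^ j) r := by
      intro j _
      rw [← apply_cj, hσ _ (hcz j τ hτz), map_mul, map_pow, hηj]
      rfl
    rw [Finset.prod_congr rfl h1, Finset.prod_mul_distrib, ← map_prod, hNK, map_one, one_mul]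
  obtain ⟨R', hR'⟩ := fixed_of_galois (k := IntermediateField.adjoin C {ζ}) R hRfix
  have hpow : R' ^ ℓ = ∏ j ∈ range P, (h₁ ^ j) e' := by
    apply (algebraMap (IntermediateField.adjoin C {ζ}) (AlgebraicClosure C)).injective
    rw [map_pow, hR', hR, map_prod, ← Finset.prod_pow]
    refine Finset.prod_congr rfl fun j _ => ?_
    rw [← map_pow, hr, hηx]
    rfl
  have hval := congrArg (fun x => WithZero.log (w'.valuation (IntermediateField.adjoin C {ζ}) x)) hpow
  have h4 : ∏ j ∈ range P, w'.valuation (IntermediateField.adjoin C {ζ}) ((h₁ ^ j) e') =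
      w'.valuation (IntermediateField.adjoin C {ζ}) e' ^ P := by
    rw [Finset.prod_congr rfl (fun j _ => hwj j e'), Finset.prod_const, Finset.card_range]
  simp only [map_pow, map_prod] at hval
  rw [h4, WithZero.log_pow, WithZero.log_pow] at hval
  have h5 : (ℓ : ℤ) ∣ (P : ℤ) * WithZero.log (w'.valuation (IntermediateField.adjoin C {ζ}) e') := by
    refine ⟨WithZero.log (w'.valuation (IntermediateField.adjoin C {ζ}) R'), ?_⟩
    rw [← nsmul_eq_mul, ← nsmul_eq_mul]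
    exact hval.symm
  have h6 : IsCoprime (ℓ : ℤ) (P : ℤ) := Nat.isCoprime_iff_coprime.2 hP.symm
  exact h6.dvd_of_dvd_mul_left h5

end H2T4
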