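import Pool.Agent.H2.T4.DDf
import Pool.Agent.H2.T4.CZ

/-!
Row D6 (about 200 lines): from the absolute Galois group of C to a finite Galois extension. Use only the STATEMENT of CZ (no_char).

PROOF. Ω = AlgebraicClosure C (algebraic over ℚ). C/ℚ Galois. M₀ := C(E) (adjoin C E), M := a finite extension of C inside Ω, stable under all automorphisms of Ω over ℚ, containing E: e.g. the set of conjugates under Gal(Ω/ℚ) of the elements of E (finite: roots of minimal polynomials over ℚ), M := adjoin C of this finite set; σ M ⊆ M for σ ∈ Gal(Ω/ℚ) because σ C = C.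
   So M : IntermediateField C Ω, finite, and M/ℚ is normal (Normal ℚ M: every ℚ-embedding M → Ω extends to Ω and maps M to M; or Normal.of_algEquiv / normal_iff_forall_map_le'), char 0: IsGalois ℚ M. M is a NumberField.
 aM : (M ≃ₐ[C] M) →* Multiplicative (ZMod ℓ), aM s := a (any lift to Ω ≃ₐ[C] Ω) (AlgEquiv.restrictNormalHom_surjective; M/C normal; a is trivial on the kernel of the restriction since E ⊆ M: use the first isomorphism theorem or choose s.liftNormal Ω and check: a depends only on the restriction to M).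
 If a ≠ 1 then aM ≠ 1. Apply no_char C M with aM.
 UnrV C N₁ for N₁ := fixedField aM.ker: N := the image of N₁ in Ω (N₁.map M.val, an IntermediateField C Ω), finite; σ ∈ Gal(Ω/C) with a σ = 1 restricts to an element of aM.ker, so it fixes N. hunr N gives V at w; V.comap (N₁ ≃ N) has the properties (definition of UnrV: same form as UnrAt for all w).
 NK aM g for g ∈ S: let s ∈ Gal(M/ℚ) with Lft s g. s' := s.liftNormal Ω : Ω ≃ₐ[ℚ] Ω (over ℚ, M/ℚ normal), s' lifts g. For a lift σ' of σ: cj (s'^j) σ' restricts to cj (s^j) σ on M, so aM (cj (s^j) σ) = a (cj (s'^j) σ'). a (cj s' σ') depends only on the restriction of s' to C (a is invariant under conjugation by Gal(Ω/C), cj_cj; see row C4),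
   and s'^j and s₀^j (s₀ the given lift in hNK) have the same restriction g^j, so the product is the one of hNK, = 1.
-/

set_option autoImplicit false
open scoped Classical nonZeroDivisors Pointwise

open IsDedekindDomain NumberField Pool.Agent.H11 Finset

namespace H2T4

/-- `s` extends `g` -/
private def D6L (C : Type) {Ω : Type} [Field C] [NumberField C] [Field Ω] [CharZero Ω] [Algebra C Ω]
    (s : Ω ≃ₐ[ℚ] Ω) (g : C ≃ₐ[ℚ] C) : Prop := ∀ x : C, s (algebraMap C Ω x) = algebraMap C Ω (g x)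

section

variable {C Ω : Type} [Field C] [NumberField C] [Field Ω] [CharZero Ω] [Algebra C Ω]

private theorem D6_lift_pow {s : Ω ≃ₐ[ℚ] Ω} {g : C ≃ₐ[ℚ] C}
    (h : D6L C s g) (n : ℕ) : D6L C (s ^ n) (g ^ n) := by
  induction n with
  | zero => intro x; rfl
  | succ n ih =>
    intro x
    rw [pow_succ, pow_succ, AlgEquiv.mul_apply, AlgEquiv.mul_apply, h, ih]

private theorem D6_dep [IsGalois ℚ C] {ℓ : ℕ} (a : (Ω ≃ₐ[C] Ω) →* Multiplicative (ZMod ℓ))
    {g : C ≃ₐ[ℚ] C} {s s' : Ω ≃ₐ[ℚ] Ω} (h : D6L C s g) (h' : D6L C s' g) (σ : Ω ≃ₐ[C] Ω) :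
    a (cj s' σ) = a (cj s σ) := by
  have h0 : ∀ x : C, (s⁻¹ * s') (algebraMap C Ω x) = algebraMap C Ω x := by
    intro x
    rw [AlgEquiv.mul_apply, h' x, ← h x]
    exact s.symm_apply_apply _
  let ρ : Ω ≃ₐ[C] Ω := { (s⁻¹ * s' : Ω ≃ₐ[ℚ] Ω) with commutes' := h0 }
  have hρ : ∀ y : Ω, ρ y = (s⁻¹ * s') y := fun y => rfl
  have h1 : ρ * cj s' σ = cj s σ * ρ := by
    ext y
    have e1 : s (s⁻¹ (s' y)) = s' y := s.apply_symm_apply _
    rw [AlgEquiv.mul_apply, AlgEquiv.mul_apply, hρ, hρ, AlgEquiv.mul_apply, AlgEquiv.mul_apply,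
      apply_cj s' σ y, cj_apply s σ, e1]
  have h2 := congrArg a h1
  rw [map_mul, map_mul, mul_comm (a (cj s σ))] at h2
  exact mul_left_cancel h2

end

/-- a finite extension of `C`, Galois over the rationals, containing `E` -/
private theorem D6_M (C : Type) [Field C] [NumberField C] (E : Finset (AlgebraicClosure C)) :
    ∃ M : IntermediateField C (AlgebraicClosure C), FiniteDimensional C M ∧ Normal ℚ M ∧
      ∀ x ∈ E, x ∈ M := by
  have halg : Algebra.IsAlgebraic ℚ (AlgebraicClosure C) := Algebra.IsAlgebraic.trans ℚ C _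
  have hcl : IsAlgClosure ℚ (AlgebraicClosure C) := ⟨inferInstance, halg⟩
  have hnor : Normal ℚ (AlgebraicClosure C) := IsAlgClosure.normal ℚ _
  obtain ⟨γ, hγ⟩ := Field.exists_primitive_element ℚ C
  obtain ⟨S, hS⟩ : ∃ S : Finset (AlgebraicClosure C), S = insert (algebraMap C (AlgebraicClosure C) γ) E :=
    ⟨_, rfl⟩
  obtain ⟨K0, hK0⟩ : ∃ K0 : IntermediateField ℚ (AlgebraicClosure C),
      K0 = IntermediateField.adjoin ℚ (S : Set (AlgebraicClosure C)) := ⟨_, rfl⟩
  have hfin : FiniteDimensional ℚ K0 := by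
    rw [hK0]
    exact IntermediateField.finiteDimensional_adjoin fun x _ => (halg.isAlgebraic x).isIntegral
  obtain ⟨M₁, hM₁⟩ : ∃ M₁ : IntermediateField ℚ (AlgebraicClosure C),
      M₁ = IntermediateField.normalClosure ℚ K0 (AlgebraicClosure C) := ⟨_, rfl⟩
  have hfin1 : FiniteDimensional ℚ M₁ := by
    rw [hM₁]
    infer_instance
  have hnor1 : Normal ℚ M₁ := by
    rw [hM₁]
    exact normalClosure.normal ℚ K0 (AlgebraicClosure C)
  have hle : K0 ≤ M₁ := by
    rw [hM₁]
    exact IntermediateField.le_normalClosure K0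
  have hSM : ∀ x ∈ S, x ∈ M₁ := by
    intro x hx
    apply hle
    rw [hK0]
    exact IntermediateField.subset_adjoin ℚ _ (Finset.mem_coe.2 hx)
  have hC : ∀ x : C, algebraMap C (AlgebraicClosure C) x ∈ M₁ := by
    have h1 : IntermediateField.adjoin ℚ {γ} ≤ IntermediateField.comap
        (IsScalarTower.toAlgHom ℚ C (AlgebraicClosure C)) M₁ := by
      rw [IntermediateField.adjoin_le_iff]
      intro x hx
      rw [Set.mem_singleton_iff] at hx
      rw [hx]
      show algebraMap C (AlgebraicClosure C) γ ∈ M₁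
      apply hSM
      rw [hS]
      exact Finset.mem_insert_self _ _
    rw [hγ] at h1
    intro x
    exact h1 (IntermediateField.mem_top : x ∈ (⊤ : IntermediateField ℚ C))
  let M : IntermediateField C (AlgebraicClosure C) :=
    { M₁.toSubfield with
      algebraMap_mem' := hC }
  have hres : M.restrictScalars ℚ = M₁ := by
    ext x
    rfl
  refine ⟨M, ?_, ?_, ?_⟩
  · have h1 : FiniteDimensional ℚ (M.restrictScalars ℚ) := by
      rw [hres]
      exact hfin1
    have h2 : FiniteDimensional ℚ M := h1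
    exact Module.Finite.of_restrictScalars_finite ℚ C M
  · have h1 : Normal ℚ (M.restrictScalars ℚ) := by
      rw [hres]
      exact hnor1
    exact h1
  · intro x hx
    show x ∈ M₁
    apply hSM
    rw [hS]
    exact Finset.mem_insert_of_mem hx

theorem fin_level (C : Type) [Field C] [NumberField C] [IsGalois ℚ C]
    (hab : ∀ g g' : C ≃ₐ[ℚ] C, g * g' = g' * g) (hcx : ∀ w : InfinitePlace C, w.IsComplex) {ℓ : ℕ}
    (hℓ : ℓ.Prime) (h3 : 3 ≤ ℓ)
    (a : (AlgebraicClosure C ≃ₐ[C] AlgebraicClosure C) →* Multiplicative (ZMod ℓ))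
    (E : Finset (AlgebraicClosure C)) (hE : ∀ σ : AlgebraicClosure C ≃ₐ[C] AlgebraicClosure C,
      (∀ x ∈ E, σ x = x) → a σ = 1)
    (hunr : ∀ (N : IntermediateField C (AlgebraicClosure C)) [FiniteDimensional C N],
      (∀ σ : AlgebraicClosure C ≃ₐ[C] AlgebraicClosure C, a σ = 1 → ∀ x ∈ N, σ x = x) →
      ∀ w : HeightOneSpectrum (𝓞 C), UnrAt w N)
    (S : Set (C ≃ₐ[ℚ] C)) (hS : ∀ g ∈ S, ∃ q i : ℕ, q.Prime ∧ q ≠ ℓ ∧ orderOf g = q ^ i)
    (hNK : ∀ g ∈ S, ∃ s : AlgebraicClosure C ≃ₐ[ℚ] AlgebraicClosure C,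
      (∀ x : C, s (algebraMap C (AlgebraicClosure C) x) = algebraMap C (AlgebraicClosure C) (g x)) ∧
      ∀ σ : AlgebraicClosure C ≃ₐ[C] AlgebraicClosure C,
        ∏ j ∈ range (orderOf g), a (cj (s ^ j) σ) = 1)
    (hNN : ∀ T : Subgroup (ClassGroup (𝓞 C)),
      (∀ (t : C ≃ₐ[ℚ] C) (I : Ideal (𝓞 C)), I ≠ ⊥ → icl I ∈ T → icl (t • I) ∈ T) →
      (∀ c, c ^ ℓ ∈ T) →
      (∀ g ∈ S, ∀ I : Ideal (𝓞 C), I ≠ ⊥ → icl (∏ j ∈ range (orderOf g), g ^ j • I) ∈ T) →
      T = ⊤) : a = 1 := by
  obtain ⟨M, hMf, hMn, hEM⟩ := D6_M C E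
  have halg : Algebra.IsAlgebraic ℚ (AlgebraicClosure C) := Algebra.IsAlgebraic.trans ℚ C _
  have hcl : IsAlgClosure ℚ (AlgebraicClosure C) := ⟨inferInstance, halg⟩
  have hnor : Normal ℚ (AlgebraicClosure C) := IsAlgClosure.normal ℚ _
  have hnorC : Normal C (AlgebraicClosure C) := IsAlgClosure.normal C _
  have hMfq : FiniteDimensional ℚ M := Module.Finite.trans C M
  have hMnf : NumberField M := ⟨⟩
  have hMg : IsGalois ℚ M := ⟨⟩
  have hMC : IsGalois C M := IsGalois.tower_top_of_isGalois ℚ C M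
  -- `a` depends on the restriction to `M` only
  have key : ∀ σ σ' : AlgebraicClosure C ≃ₐ[C] AlgebraicClosure C,
      (∀ x : M, σ x = σ' x) → a σ = a σ' := by
    intro σ σ' h
    have h1 : a (σ'⁻¹ * σ) = 1 := by
      apply hE
      intro x hx
      rw [AlgEquiv.mul_apply, h ⟨x, hEM x hx⟩]
      exact σ'.symm_apply_apply _
    rw [map_mul, map_inv, inv_mul_eq_one] at h1
    exact h1.symm
  have hlift : ∀ (s : M ≃ₐ[C] M) (x : M), s.liftNormal (AlgebraicClosure C) (x : AlgebraicClosure C) =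
      (s x : AlgebraicClosure C) := fun s x => s.liftNormal_commutes (AlgebraicClosure C) x
  obtain ⟨aM, haM⟩ : ∃ aM : (M ≃ₐ[C] M) →* Multiplicative (ZMod ℓ), ∀ s,
      aM s = a (s.liftNormal (AlgebraicClosure C)) := by
    refine ⟨MonoidHom.mk' (fun s => a (s.liftNormal (AlgebraicClosure C))) fun s t => ?_, fun s => rfl⟩
    rw [← map_mul]
    apply key
    intro x
    rw [hlift, AlgEquiv.mul_apply, AlgEquiv.mul_apply, hlift, hlift]
  -- value at the restriction
  have haM2 : ∀ (s : M ≃ₐ[C] M) (σ : AlgebraicClosure C ≃ₐ[C] AlgebraicClosure C),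
      (∀ x : M, σ x = (s x : AlgebraicClosure C)) → aM s = a σ := by
    intro s σ h
    rw [haM]
    apply key
    intro x
    rw [hlift, h]
  have hres : ∀ (σ : AlgebraicClosure C ≃ₐ[C] AlgebraicClosure C) (x : M),
      σ x = (σ.restrictNormal M x : AlgebraicClosure C) := fun σ x =>
    (σ.restrictNormal_commutes M x).symm
  suffices haM1 : aM = 1 by
    ext1 σ
    rw [← haM2 (σ.restrictNormal M) σ (hres σ), haM1]
    rfl
  refine no_char C M hab hcx hℓ h3 aM ?_ S hS ?_ hNN
  · -- unramified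
    intro w
    obtain ⟨N₁, hN₁⟩ : ∃ N₁ : IntermediateField C M, N₁ = IntermediateField.fixedField aM.ker :=
      ⟨_, rfl⟩
    rw [← hN₁]
    have hfd : FiniteDimensional C (N₁.map M.val) :=
      LinearEquiv.finiteDimensional (N₁.equivMap M.val).toLinearEquiv
    obtain ⟨V, hV1, hV2⟩ := hunr (N₁.map M.val) (by
      intro σ hσ x hx
      obtain ⟨y, hy, rfl⟩ := hx
      have h1 : σ.restrictNormal M ∈ aM.ker := by
        rw [MonoidHom.mem_ker, haM2 _ σ (hres σ), hσ]
      have hy' : y ∈ N₁ := hy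
      rw [hN₁] at hy'
      have h2 := (IntermediateField.mem_fixedField_iff aM.ker y).1 hy' _ h1
      show σ (y : AlgebraicClosure C) = (y : AlgebraicClosure C)
      rw [hres σ y]
      exact congrArg _ h2) w
    refine ⟨V.comap ((N₁.equivMap M.val : N₁ ≃ₐ[C] N₁.map M.val) : N₁ →+* N₁.map M.val), ?_, ?_⟩
    · intro x
      rw [ValuationSubring.mem_comap, ← hV1 x]
      have h1 : ((N₁.equivMap M.val : N₁ ≃ₐ[C] N₁.map M.val) : N₁ →+* N₁.map M.val)
          (algebraMap C N₁ x) = algebraMap C (N₁.map M.val) x :=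
        (N₁.equivMap M.val).commutes x
      rw [h1]
    · intro α hα
      have h0 : ((N₁.equivMap M.val : N₁ ≃ₐ[C] N₁.map M.val) : N₁ →+* N₁.map M.val) α ≠ 0 := by
        rw [Ne, map_eq_zero]
        exact hα
      obtain ⟨c, hc, h1, h2⟩ := hV2 _ h0
      have h3 : ((N₁.equivMap M.val : N₁ ≃ₐ[C] N₁.map M.val) : N₁ →+* N₁.map M.val)
          (algebraMap C N₁ c) = algebraMap C (N₁.map M.val) c :=
        (N₁.equivMap M.val).commutes c
      refine ⟨c, hc, ?_, ?_⟩
      · rw [ValuationSubring.mem_comap, map_div₀, h3]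
        exact h1
      · rw [ValuationSubring.mem_comap, map_inv₀, map_div₀, h3]
        exact h2
  · -- the norm relation
    intro g hg s hs σ
    obtain ⟨s₀, hs₀, hprod⟩ := hNK g hg
    rw [← hprod (σ.liftNormal (AlgebraicClosure C))]
    refine Finset.prod_congr rfl fun j hj => ?_
    clear hj
    obtain ⟨s', hs'⟩ : ∃ s' : AlgebraicClosure C ≃ₐ[ℚ] AlgebraicClosure C, ∀ x : M,
        s' (x : AlgebraicClosure C) = (s x : AlgebraicClosure C) :=
      ⟨s.liftNormal (AlgebraicClosure C), fun x => s.liftNormal_commutes (AlgebraicClosure C) x⟩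
    have hs'j : ∀ x : M, (s' ^ j) (x : AlgebraicClosure C) = ((s ^ j) x : AlgebraicClosure C) := by
      induction j with
      | zero => intro x; rfl
      | succ n ih =>
        intro x
        rw [pow_succ, pow_succ, AlgEquiv.mul_apply, AlgEquiv.mul_apply, hs', ih]
    have h1 : aM (cj (s ^ j) σ) = a (cj (s' ^ j) (σ.liftNormal (AlgebraicClosure C))) := by
      apply haM2
      intro x
      apply (s' ^ j).injective
      rw [apply_cj, hs'j, hlift, hs'j, apply_cj]
    rw [h1]
    have hsL : D6L C s' g := by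
      intro x
      have h2 := hs' (algebraMap C M x)
      rw [hs x] at h2
      exact h2
    exact D6_dep a (D6_lift_pow hs₀ j) (D6_lift_pow hsL j) _

end H2T4
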