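import Pool.Agent.H2.T4.LA

/-!
Row LB (about 200 lines): a locally trivial cocycle with values in an etale subgroup of prime order is unramified at a place of good reduction. Use only the STATEMENTS of LA.

PROOF. ι any embedding (IsAlgClosed.lift), P the local point from IsLocTriv (first component): pm ι (f σ) = τ P - P whenever τ ∘ ι = ι ∘ σ. S := coordinates of P (coordSet P). unr_place. For L, w, τ₀ as in InTriv: P = image of P' ∈ E(L) (exists_point_of_coords), T' := the point T₀ in E(L) (T₀ has coordinates in C).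
 As in the proof of loc_main: τ := τ₀.liftNormal, σ := restriction of τ to AlgebraicClosure C, t := τ₀ restricted to scalars; AV = valuation subring of w, hW : Integral AV (E over L), hΔ : AV.valuation Δ = 1 (from GoodV: coefficients in the integers of the completion; copy the construction of WA in loc_apply / loc_main), ht, ht'.
 (1) t P' - P' ∈ E₁: InE1 AV _ (map t P' - P'): this is the argument inside `map_eq_self_of_inertia` (Pool/Agent/H11/Local.lean): P' = 0; x ∈ AV: inE1_sub; x ∉ AV: InE1.add_sub.
 (2) f σ = j • upP T₀ (hf), so t P' - P' = j • T' in E(L) (injectivity of the map of points E(L) → E(closure)).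
 (3) if j • T' ≠ 0 then (ℓ prime, ℓ • T' = 0) T' = i • (j • T') for some i, so InE1 T' (InE1.add_sub / InE1.smul: E₁ is closed under addition; induction), T' ≠ 0, so its x-coordinate is not in AV: contradiction with hx (x-coordinate of T₀ has w-value ≤ 1, hence lies in AV: w_le_of_mem). So j • T' = 0, f σ = 0.
 (4) hN: σ fixes N, so τ₀ ⟨ι m, _⟩ = ⟨ι m, _⟩ (τ (ι m) = ι (σ m) = ι m).
-/

set_option autoImplicit false
open scoped Classical

open WeierstrassCurve IsDedekindDomain NumberField Pool.Agent.H10 Pool.Agent.H11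

namespace H2T4

theorem LB_inE1 {L : Type*} [Field L] [DecidableEq L] (A : ValuationSubring L) {K : Type*} [Field K]
    [Algebra K L] (W : WeierstrassCurve K)
    [W.IsElliptic] (hW : Integral A (W.baseChange L)) (hΔ : A.valuation (W.baseChange L).Δ = 1)
    (t : L →ₐ[K] L) (ht : ∀ a ∈ A, A.valuation (t a - a) < 1) (ht' : ∀ a ∉ A, t a ∉ A)
    (P : (W.baseChange L).toAffine.Point) :
    InE1 A (W.baseChange L) ((WeierstrassCurve.Affine.Point.map t :
      (W.baseChange L).toAffine.Point →+ (W.baseChange L).toAffine.Point) P - P) := by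
  match P with
  | 0 => left; simp
  | .some x y hxy =>
    rw [WeierstrassCurve.Affine.Point.map_some]
    by_cases hx : x ∈ A
    · have hy := y_mem hW hx hxy.1
      have h1 := ht x hx
      have h2 := ht y hy
      have hx' : t x ∈ A := by
        have := add_mem (nu_mem A h1) hx
        rwa [sub_add_cancel] at this
      exact inE1_sub hW hΔ _ _ hx' hx h1 h2
    · have e1 : InE1 A (W.baseChange L) (.some x y hxy) := Or.inr ⟨x, y, hxy, rfl, hx⟩
      have e2 : InE1 A (W.baseChange L) (WeierstrassCurve.Affine.Point.map t (.some x y hxy)) := by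
        rw [WeierstrassCurve.Affine.Point.map_some]
        exact Or.inr ⟨_, _, _, rfl, ht' x hx⟩
      exact (InE1.add_sub hW e2 e1).2.1

theorem LB_smul {L : Type*} [Field L] [DecidableEq L] (A : ValuationSubring L) {W : WeierstrassCurve L}
    [W.IsElliptic] (hW : Integral A W) {ℓ : ℕ} (hℓ : ℓ.Prime) {T : W.toAffine.Point} (hT : ℓ • T = 0) {j : ℕ}
    (hj : InE1 A W (j • T)) (h0 : j • T ≠ 0) : InE1 A W T := by
  have hnd : ¬ ℓ ∣ j := by
    rintro ⟨c, rfl⟩
    apply h0
    rw [mul_comm, mul_smul, hT, smul_zero]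
  obtain ⟨i, -, hi⟩ := Nat.exists_mul_mod_eq_one_of_coprime (((Nat.Prime.coprime_iff_not_dvd hℓ).2 hnd).symm) hℓ.one_lt
  have h1 : i • (j • T) = T := by
    rw [← mul_smul, mul_comm i j, ← Nat.div_add_mod (j * i) ℓ, hi, add_smul, one_smul, mul_comm ℓ, mul_smul, hT,
      smul_zero, zero_add]
  rw [← h1]
  exact (hj.smul hW i).1

theorem unr_etale {C : Type} [Field C] [NumberField C] {VC : WeierstrassCurve C} [VC.IsElliptic]
    (w : HeightOneSpectrum (𝓞 C)) (hw : GoodV (w.valuation C) VC) {ℓ : ℕ} (hℓ : ℓ.Prime)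
    (T₀ : VC.toAffine.Point) (hT : ℓ • T₀ = 0) (hx : IntX (w.valuation C) T₀)
    {f : Coch C VC} (hl : IsLocTriv C VC f) (hf : ∀ σ, ∃ j : ℕ, f σ = j • upP T₀)
    (N : IntermediateField C (AlgebraicClosure C)) [FiniteDimensional C N]
    (hN : ∀ σ : AlgebraicClosure C ≃ₐ[C] AlgebraicClosure C, f σ = 0 → ∀ x ∈ N, σ x = x) :
    UnrAt w N := by
  obtain ⟨ι⟩ : Nonempty (AlgebraicClosure C →ₐ[C] AlgebraicClosure (w.adicCompletion C)) :=
    ⟨IsAlgClosed.lift⟩
  obtain ⟨P, hP⟩ := hl.1 w ι
  apply unr_place w ι N (coordSet P) (coordSet_finite P)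
  intro L _ _ hSL hιN _ _ w' τ₀ hτ₀ m
  obtain ⟨h1, h2, h3, h4, h6, hΔ⟩ := hw
  have mem : ∀ x : C, w.valuation C x ≤ 1 →
      algebraMap C (w.adicCompletion C) x ∈ w.adicCompletionIntegers C := by
    intro x hx
    rw [HeightOneSpectrum.mem_adicCompletionIntegers, valued_alg]
    exact hx
  let WA : WeierstrassCurve (w.adicCompletionIntegers C) :=
    ⟨⟨_, mem _ h1⟩, ⟨_, mem _ h2⟩, ⟨_, mem _ h3⟩, ⟨_, mem _ h4⟩, ⟨_, mem _ h6⟩⟩
  have hWA : WA.map (algebraMap (w.adicCompletionIntegers C) (w.adicCompletion C)) =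
      VC.map (algebraMap C (w.adicCompletion C)) := rfl
  have hΔ' : IsUnit WA.Δ := by
    rw [HeightOneSpectrum.adicCompletionIntegers.isUnit_iff_valued_eq_one]
    have : ((WA.Δ : w.adicCompletionIntegers C) : w.adicCompletion C) =
        algebraMap C (w.adicCompletion C) VC.Δ := by
      rw [← WeierstrassCurve.map_Δ, ← hWA, WeierstrassCurve.map_Δ]
      rfl
    rw [this, valued_alg]
    exact hΔ
  let g : L →ₐ[C] AlgebraicClosure (w.adicCompletion C) := L.val.restrictScalars C
  obtain ⟨P', hP'⟩ := exists_point_of_coords VC g P (by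
    intro x hx
    exact ⟨⟨x, hSL hx⟩, rfl⟩)
  have tAL : IsScalarTower (w.adicCompletionIntegers C) (w.adicCompletion C) L :=
    IsScalarTower.of_algebraMap_eq fun _ ↦ rfl
  let AV : ValuationSubring L := (w'.valuation L).valuationSubring
  have hAVeq : (w'.valuation L).IsEquiv AV.valuation :=
    Valuation.isEquiv_valuation_valuationSubring _
  have hmemA : ∀ a : w.adicCompletionIntegers C, algebraMap (w.adicCompletionIntegers C) L a ∈ AV :=
    fun a ↦ w_le_of_mem w' a
  have hbc : VC.baseChange L = WA.map (algebraMap (w.adicCompletionIntegers C) L) := by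
    have : algebraMap C L = (algebraMap (w.adicCompletion C) L).comp (algebraMap C (w.adicCompletion C)) :=
      IsScalarTower.algebraMap_eq C (w.adicCompletion C) L
    rw [WeierstrassCurve.baseChange, this, ← WeierstrassCurve.map_map, ← hWA,
      WeierstrassCurve.map_map, ← IsScalarTower.algebraMap_eq (w.adicCompletionIntegers C) (w.adicCompletion C) L]
  have hWI : Integral AV (VC.baseChange L) := by
    rw [hbc]
    exact ⟨hmemA _, hmemA _, hmemA _, hmemA _, hmemA _⟩
  have hWΔ : AV.valuation (VC.baseChange L).Δ = 1 := by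
    rw [hbc, WeierstrassCurve.map_Δ, ← hAVeq.eq_one_iff_eq_one]
    exact w_eq_one_of_unit w' _ hΔ'
  let t : L →ₐ[C] L := (τ₀ : L →ₐ[w.adicCompletion C] L).restrictScalars C
  have ht : ∀ a ∈ AV, AV.valuation (t a - a) < 1 := fun a ha ↦ by
    rw [← hAVeq.lt_one_iff_lt_one]
    exact inertia_sub_lt w' τ₀ hτ₀ a ha
  have ht' : ∀ a ∉ AV, t a ∉ AV := fun a ha ↦ inertia_not_le w' τ₀ hτ₀ a ha
  let τ : AlgebraicClosure (w.adicCompletion C) ≃ₐ[w.adicCompletion C] AlgebraicClosure (w.adicCompletion C) :=
    τ₀.liftNormal (AlgebraicClosure (w.adicCompletion C))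
  have hτ : ∀ x : L, τ x = τ₀ x := AlgEquiv.liftNormal_commutes τ₀ (AlgebraicClosure (w.adicCompletion C))
  let algι : Algebra (AlgebraicClosure C) (AlgebraicClosure (w.adicCompletion C)) := ι.toRingHom.toAlgebra
  have towι : IsScalarTower C (AlgebraicClosure C) (AlgebraicClosure (w.adicCompletion C)) :=
    IsScalarTower.of_algebraMap_eq' ι.comp_algebraMap.symm
  let σ : AlgebraicClosure C ≃ₐ[C] AlgebraicClosure C :=
    (τ.restrictScalars C).restrictNormal (AlgebraicClosure C)
  have hσ : ∀ x, ι (σ x) = τ (ι x) := fun x ↦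
    AlgEquiv.restrictNormal_commutes (τ.restrictScalars C) (AlgebraicClosure C) x
  have hcomp : (τ.toAlgHom.restrictScalars C).comp ι = ι.comp σ.toAlgHom := by
    ext x; exact (hσ x).symm
  have hgt : (τ.toAlgHom.restrictScalars C).comp g = g.comp t := by
    ext x; exact hτ x
  have hmap : ∀ Q : (VC.baseChange L).toAffine.Point,
      (WeierstrassCurve.Affine.Point.map (τ.toAlgHom.restrictScalars C) :
        (VC.baseChange (AlgebraicClosure (w.adicCompletion C))).toAffine.Point →+
          (VC.baseChange (AlgebraicClosure (w.adicCompletion C))).toAffine.Point)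
        ((WeierstrassCurve.Affine.Point.map g : (VC.baseChange L).toAffine.Point →+
          (VC.baseChange (AlgebraicClosure (w.adicCompletion C))).toAffine.Point) Q) =
      (WeierstrassCurve.Affine.Point.map g : (VC.baseChange L).toAffine.Point →+
          (VC.baseChange (AlgebraicClosure (w.adicCompletion C))).toAffine.Point)
        ((WeierstrassCurve.Affine.Point.map t :
          (VC.baseChange L).toAffine.Point →+ (VC.baseChange L).toAffine.Point) Q) := by
    intro Q
    rw [WeierstrassCurve.Affine.Point.map_map, WeierstrassCurve.Affine.Point.map_map, hgt]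
  have hinjg := WeierstrassCurve.Affine.Point.map_injective (W' := VC) (f := g)
  have hinjι := WeierstrassCurve.Affine.Point.map_injective (W' := VC) (f := ι)
  have h7 := hP τ σ hcomp
  rw [← hP', hmap, ← map_sub] at h7
  obtain ⟨j, hj⟩ := hf σ
  have hbL : VC.map (algebraMap C L) = VC.baseChange L := rfl
  obtain ⟨T', hT'⟩ : ∃ T' : (VC.baseChange L).toAffine.Point, T' = pm (algebraMap C L) hbL T₀ := ⟨_, rfl⟩
  have hTT : (WeierstrassCurve.Affine.Point.map ι :
        (VC.baseChange (AlgebraicClosure C)).toAffine.Point →+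
          (VC.baseChange (AlgebraicClosure (w.adicCompletion C))).toAffine.Point) (upP T₀) =
      (WeierstrassCurve.Affine.Point.map g : (VC.baseChange L).toAffine.Point →+
          (VC.baseChange (AlgebraicClosure (w.adicCompletion C))).toAffine.Point) T' := by
    rw [hT']
    rcases T₀ with _ | ⟨x, y, hxy⟩
    · rfl
    · obtain ⟨k1, e1⟩ : ∃ h', (WeierstrassCurve.Affine.Point.map ι :
          (VC.baseChange (AlgebraicClosure C)).toAffine.Point →+
            (VC.baseChange (AlgebraicClosure (w.adicCompletion C))).toAffine.Point) (upP (.some x y hxy)) =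
          .some (ι (algebraMap C (AlgebraicClosure C) x)) (ι (algebraMap C (AlgebraicClosure C) y)) h' :=
        ⟨_, rfl⟩
      obtain ⟨k2, e2⟩ : ∃ h', (WeierstrassCurve.Affine.Point.map g : (VC.baseChange L).toAffine.Point →+
          (VC.baseChange (AlgebraicClosure (w.adicCompletion C))).toAffine.Point)
          (pm (algebraMap C L) hbL (.some x y hxy)) =
          .some (g (algebraMap C L x)) (g (algebraMap C L y)) h' := ⟨_, rfl⟩
      rw [e1, e2, WeierstrassCurve.Affine.Point.some.injEq]
      exact ⟨(ι.commutes x).trans (g.commutes x).symm, (ι.commutes y).trans (g.commutes y).symm⟩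
  have h8 : (WeierstrassCurve.Affine.Point.map t :
        (VC.baseChange L).toAffine.Point →+ (VC.baseChange L).toAffine.Point) P' - P' = j • T' := by
    apply hinjg
    rw [map_nsmul, ← hTT, ← map_nsmul, ← hj]
    exact h7.symm
  have h9 : InE1 AV (VC.baseChange L) (j • T') := by
    rw [← h8]
    exact LB_inE1 AV VC hWI hWΔ t ht ht' P'
  have h10 : ℓ • T' = 0 := by
    rw [hT', ← map_nsmul, hT, map_zero]
  have h11 : j • T' = 0 := by
    by_contra hne
    have h12 := LB_smul AV hWI hℓ h10 h9 hne
    rcases T₀ with _ | ⟨x, y, hxy⟩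
    · apply hne
      rw [hT']
      have h13 : pm (algebraMap C L) hbL
        (WeierstrassCurve.Affine.Point.zero : VC.toAffine.Point) = (0 : (VC.baseChange L).toAffine.Point) := rfl
      rw [h13, smul_zero]
    · rw [hT', pm_some] at h12
      rcases h12 with h12 | ⟨x', y', h', h13, h14⟩
      · exact WeierstrassCurve.Affine.Point.some_ne_zero _ h12
      · rw [WeierstrassCurve.Affine.Point.some.injEq] at h13
        apply h14
        rw [← h13.1]
        have h15 := hmemA ⟨_, mem x hx⟩
        exact h15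
  have hf0 : f σ = 0 := by
    apply hinjι
    rw [h7, h8, h11, map_zero, map_zero]
  have h16 := hN σ hf0 m m.2
  have h17 : τ (ι m) = ι m := by rw [← hσ, h16]
  apply L.val.injective
  exact (hτ ⟨ι m, hιN m⟩).symm.trans h17

/-- a point of order prime to the residue characteristic is integral -/
theorem intX_of_unit {C : Type} [Field C] [NumberField C] {VC : WeierstrassCurve C} [VC.IsElliptic]
    (w : HeightOneSpectrum (𝓞 C)) (hw : GoodV (w.valuation C) VC) {ℓ : ℕ}
    (hℓ : w.valuation C (ℓ : C) = 1) (T₀ : VC.toAffine.Point) (hT : ℓ • T₀ = 0) :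
    IntX (w.valuation C) T₀ := by
  obtain ⟨AV, hAV⟩ : ∃ AV : ValuationSubring C, AV = (w.valuation C).valuationSubring := ⟨_, rfl⟩
  have hAVeq : (w.valuation C).IsEquiv AV.valuation := by
    rw [hAV]
    exact Valuation.isEquiv_valuation_valuationSubring _
  have hm : ∀ x : C, x ∈ AV ↔ w.valuation C x ≤ 1 := by
    intro x
    rw [hAV]
    exact Iff.rfl
  obtain ⟨h1, h2, h3, h4, h6, hΔ⟩ := hw
  have hWI : Integral AV VC := ⟨(hm _).2 h1, (hm _).2 h2, (hm _).2 h3, (hm _).2 h4, (hm _).2 h6⟩
  rcases T₀ with _ | ⟨x, y, hxy⟩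
  · trivial
  · show w.valuation C x ≤ 1
    by_contra hx
    have hE : InE1 AV VC (.some x y hxy) := Or.inr ⟨x, y, hxy, rfl, fun h => hx ((hm x).1 h)⟩
    have h7 := InE1.eq_zero hWI hE ℓ (hAVeq.eq_one_iff_eq_one.1 hℓ) hT
    exact WeierstrassCurve.Affine.Point.some_ne_zero _ h7

end H2T4
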