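import Pool.Agent.H2.T4.LA

/-!
Row LD (about 200 lines): adjoining ζ and an ℓ-th root of an element with valuations divisible by ℓ is unramified outside ℓ. Use only the STATEMENTS of LA.

PROOF. ι any embedding, S := {ι ζ, ι r}, unr_place. For L, w_L (called w' below), τ₀ inertia: as in the proof of loc_main: τ := τ₀.liftNormal, σ := restriction of τ to AlgebraicClosure C (ι (σ x) = τ (ι x)). v := w'.valuation L; v (ℓ : L) = 1 because ℓ ∉ w (ℓ is a unit of the integers of the completion: as hn' in loc_apply; w_eq_one_of_unit).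
 (1) σ ζ = ζ: the argument hζ in loc_main (root_one, inertia_sub_lt) with z = ι ζ ∈ L.
 (2) p' := {x ∈ 𝓞 F₁ | v (ι x) < 1} is a prime ideal of 𝓞 F₁ (v (ι x) ≤ 1 for x ∈ 𝓞 F₁: integral over A), non zero (it contains the prime number below w), and p' ∩ 𝓞 C = w.asIdeal (for x ∈ 𝓞 C: v (ι x) < 1 iff w x < 1; w_lt_of_mem, w_eq_one_of_unit). w₁ := ⟨p', ..⟩ : HeightOneSpectrum (𝓞 F₁). If w₁.valuation x ≤ 1, x ∈ F₁, then v (ι x) ≤ 1
   (x = a / b with a, b ∈ 𝓞 F₁, b ∉ p': HeightOneSpectrum.exists_primeCompl_mul_eq_of_integer as in Pool/Agent/H11/Inert.lean).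
 (3) hv for w₁: ℓ ∣ log (w₁ e'), so there is c ∈ F₁ non zero with w₁ e' = (w₁ c)^ℓ (exists_of_val in H11/Ramif2.lean, or a uniformizer power), so w₁ (e'/c^ℓ) = 1, so v (ι (e'/c^ℓ)) = 1 (from (2) for it and its inverse), and u := ι r / ι c ∈ L satisfies u^ℓ = ι (e'/c^ℓ), v u = 1.
 (4) τ₀ u / u = z satisfies z^ℓ = 1 (u^ℓ ∈ ι F₁ is fixed: σ fixes C and ζ, so it fixes F₁ = C(ζ)), v (z - 1) < 1 (inertia_sub_lt, v u = 1), so z = 1 by root_one: σ (r / c) = r / c, σ r = r.
 (5) hN: σ fixes N, hence τ₀ ⟨ι m, _⟩ = ⟨ι m, _⟩.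
-/

set_option autoImplicit false
open scoped Classical

open WeierstrassCurve IsDedekindDomain NumberField Pool.Agent.H10 Pool.Agent.H11

namespace H2T4

/-- the kernel of the reduction of the integers of `F₁` at a prime of `L` -/
private lemma LD_prime {F₁ A L : Type} [Field F₁] [NumberField F₁] [CommRing A] [Field L] [Algebra A L]
    [IsDedekindDomain (integralClosure A L)] [IsFractionRing (integralClosure A L) L]
    (w' : HeightOneSpectrum (integralClosure A L)) (j : F₁ →+* L) (y₀ : 𝓞 F₁) (hy₀ : y₀ ≠ 0)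
    (hy : w'.valuation L (j (algebraMap (𝓞 F₁) F₁ y₀)) < 1) :
    ∃ w₁ : HeightOneSpectrum (𝓞 F₁), (∀ x : 𝓞 F₁, x ∈ w₁.asIdeal ↔
        w'.valuation L (j (algebraMap (𝓞 F₁) F₁ x)) < 1) ∧
      ∀ x : F₁, w₁.valuation F₁ x = 1 → w'.valuation L (j x) = 1 := by
  have hint : ∀ x : 𝓞 F₁, _root_.IsIntegral ℤ (j (algebraMap (𝓞 F₁) F₁ x)) := fun x => by
    have h1 := (RingOfIntegers.isIntegral_coe x).map (j.toIntAlgHom)
    exact h1
  have hle : ∀ x : 𝓞 F₁, w'.valuation L (j (algebraMap (𝓞 F₁) F₁ x)) ≤ 1 := fun x =>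
    w'.valuation_le_one (⟨j (algebraMap (𝓞 F₁) F₁ x), (hint x).tower_top⟩ : integralClosure A L)
  let I : Ideal (𝓞 F₁) :=
    { carrier := {x | w'.valuation L (j (algebraMap (𝓞 F₁) F₁ x)) < 1}
      zero_mem' := by
        change w'.valuation L (j (algebraMap (𝓞 F₁) F₁ 0)) < 1
        rw [map_zero, map_zero, map_zero]
        exact zero_lt_one
      add_mem' := fun {a b} ha hb => by
        change w'.valuation L (j (algebraMap (𝓞 F₁) F₁ (a + b))) < 1
        rw [map_add, map_add]
        exact (w'.valuation L).map_add_lt ha hb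
      smul_mem' := fun a b hb => by
        change w'.valuation L (j (algebraMap (𝓞 F₁) F₁ (a * b))) < 1
        rw [map_mul, map_mul, map_mul, mul_comm]
        exact mul_lt_one_of_lt_of_le hb (hle a) }
  have hI : ∀ x : 𝓞 F₁, x ∈ I ↔ w'.valuation L (j (algebraMap (𝓞 F₁) F₁ x)) < 1 := fun x => Iff.rfl
  have hIp : I.IsPrime := by
    refine ⟨?_, ?_⟩
    · rw [Ideal.ne_top_iff_one, hI, map_one, map_one, map_one]
      exact lt_irrefl _
    · intro a b hab
      rw [hI, map_mul, map_mul, map_mul] at hab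
      rw [hI, hI]
      by_contra hcon
      push Not at hcon
      have h1 : w'.valuation L (j (algebraMap (𝓞 F₁) F₁ a)) = 1 := le_antisymm (hle a) hcon.1
      have h2 : w'.valuation L (j (algebraMap (𝓞 F₁) F₁ b)) = 1 := le_antisymm (hle b) hcon.2
      rw [h1, h2, mul_one] at hab
      exact lt_irrefl _ hab
  have hIb : I ≠ ⊥ := by
    intro hb
    have h1 : y₀ ∈ I := (hI y₀).mpr hy
    rw [hb, Ideal.mem_bot] at h1
    exact hy₀ h1
  have key : ∀ x : F₁, (⟨I, hIp, hIb⟩ : HeightOneSpectrum (𝓞 F₁)).valuation F₁ x ≤ 1 →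
      w'.valuation L (j x) ≤ 1 := by
    intro x hx
    obtain ⟨n, ⟨d, hd⟩, hnd⟩ := HeightOneSpectrum.exists_primeCompl_mul_eq_of_integer _ x hx
    have hd1 : w'.valuation L (j (algebraMap (𝓞 F₁) F₁ d)) = 1 := by
      refine le_antisymm (hle d) ?_
      by_contra hcon
      push Not at hcon
      exact hd hcon
    have h2 : w'.valuation L (j x) * w'.valuation L (j (algebraMap (𝓞 F₁) F₁ d)) =
        w'.valuation L (j (algebraMap (𝓞 F₁) F₁ n)) := by
      rw [← map_mul, ← map_mul]
      exact congrArg (fun t => w'.valuation L (j t)) hnd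
    rw [hd1, mul_one] at h2
    rw [h2]
    exact hle n
  refine ⟨⟨I, hIp, hIb⟩, hI, fun x hx => ?_⟩
  refine le_antisymm (key x hx.le) ?_
  have hx0 : x ≠ 0 := by
    rintro rfl
    rw [map_zero] at hx
    exact zero_ne_one hx
  have h3 := key x⁻¹ (by rw [map_inv₀, hx, inv_one])
  rw [map_inv₀, map_inv₀] at h3
  have h4 : w'.valuation L (j x) ≠ 0 := by
    rw [Valuation.ne_zero_iff]
    exact (map_ne_zero _).mpr hx0
  exact (inv_le_one₀ (zero_lt_iff.mpr h4)).mp h3

theorem unr_root {C : Type} [Field C] [NumberField C] (w : HeightOneSpectrum (𝓞 C)) {ℓ : ℕ}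
    (hℓ : ℓ.Prime) (hwℓ : (ℓ : 𝓞 C) ∉ w.asIdeal) (ζ : AlgebraicClosure C) (hζ : IsPrimitiveRoot ζ ℓ)
    [NumberField (IntermediateField.adjoin C {ζ})] (r : AlgebraicClosure C)
    (e' : IntermediateField.adjoin C {ζ}) (he : e' ≠ 0) (hr : r ^ ℓ = e')
    (hv : ∀ w' : HeightOneSpectrum (𝓞 (IntermediateField.adjoin C {ζ})),
      w'.asIdeal.comap (algebraMap (𝓞 C) (𝓞 (IntermediateField.adjoin C {ζ}))) = w.asIdeal →
      (ℓ : ℤ) ∣ WithZero.log (w'.valuation (IntermediateField.adjoin C {ζ}) e'))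
    (N : IntermediateField C (AlgebraicClosure C)) [FiniteDimensional C N]
    (hN : ∀ σ : AlgebraicClosure C ≃ₐ[C] AlgebraicClosure C, σ ζ = ζ → σ r = r → ∀ x ∈ N, σ x = x) :
    UnrAt w N := by
  have hchar : CharZero (w.adicCompletion C) :=
    charZero_of_injective_algebraMap (algebraMap C (w.adicCompletion C)).injective
  let ι : AlgebraicClosure C →ₐ[C] AlgebraicClosure (w.adicCompletion C) := IsAlgClosed.lift
  refine unr_place w ι N {ι ζ, ι r} (Set.toFinite _) ?_
  intro L _ _ hS hιN _ _ w' τ₀ hτ₀ m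
  have tAL : IsScalarTower (w.adicCompletionIntegers C) (w.adicCompletion C) L :=
    IsScalarTower.of_algebraMap_eq fun _ ↦ rfl
  -- the extensions of `τ₀`
  let τ : AlgebraicClosure (w.adicCompletion C) ≃ₐ[w.adicCompletion C]
    AlgebraicClosure (w.adicCompletion C) := τ₀.liftNormal (AlgebraicClosure (w.adicCompletion C))
  have hτ : ∀ x : L, τ x = τ₀ x :=
    AlgEquiv.liftNormal_commutes τ₀ (AlgebraicClosure (w.adicCompletion C))
  let algι : Algebra (AlgebraicClosure C) (AlgebraicClosure (w.adicCompletion C)) :=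
    ι.toRingHom.toAlgebra
  have towι : IsScalarTower C (AlgebraicClosure C) (AlgebraicClosure (w.adicCompletion C)) :=
    IsScalarTower.of_algebraMap_eq' ι.comp_algebraMap.symm
  let σ : AlgebraicClosure C ≃ₐ[C] AlgebraicClosure C :=
    (τ.restrictScalars C).restrictNormal (AlgebraicClosure C)
  have hσ : ∀ x, ι (σ x) = τ (ι x) := fun x ↦
    AlgEquiv.restrictNormal_commutes (τ.restrictScalars C) (AlgebraicClosure C) x
  -- the prime `ℓ` is a unit
  have hℓv : w'.valuation L (ℓ : L) = 1 := by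
    have h1 : IsUnit (ℓ : w.adicCompletionIntegers C) := by
      rw [HeightOneSpectrum.adicCompletionIntegers.isUnit_iff_valued_eq_one]
      have h2 : (((ℓ : w.adicCompletionIntegers C)) : w.adicCompletion C) =
          algebraMap C (w.adicCompletion C) ℓ := by
        rw [map_natCast]
        rfl
      rw [h2, valued_alg]
      have h3 : (ℓ : C) = algebraMap (𝓞 C) C ℓ := by rw [map_natCast]
      rw [h3]
      exact w.valuation_eq_one_iff_notMem.mpr hwℓ
    rw [← map_natCast (algebraMap (w.adicCompletionIntegers C) L) ℓ]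
    exact w_eq_one_of_unit w' _ h1
  have hζL : ι ζ ∈ L := hS (by simp)
  have hrL : ι r ∈ L := hS (by simp)
  have hinert : ∀ x : L, w'.valuation L x = 1 → (τ₀ x / x) ^ ℓ = 1 → τ₀ x = x := by
    intro x hx hx2
    have hx0 : x ≠ 0 := by
      rintro rfl
      rw [map_zero] at hx
      exact zero_ne_one hx
    have h8 : τ₀ x / x = 1 := by
      apply root_one (w'.valuation L) ℓ hℓv _ hx2
      have h9 := inertia_sub_lt w' τ₀ hτ₀ x hx.le
      rw [AlgEquiv.smul_def] at h9
      have h10 : τ₀ x / x - 1 = (τ₀ x - x) / x := by field_simp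
      rw [h10, map_div₀, hx, div_one]
      exact h9
    rwa [div_eq_one_iff_eq hx0] at h8
  -- (1)
  have hσζ : σ ζ = ζ := by
    have hz : ((⟨ι ζ, hζL⟩ : L)) ^ ℓ = 1 := by
      apply Subtype.ext
      change (ι ζ) ^ ℓ = 1
      rw [← map_pow, hζ.pow_eq_one, map_one]
    have hwz : w'.valuation L ⟨ι ζ, hζL⟩ = 1 := by
      have h7 := congrArg (w'.valuation L) hz
      rw [map_pow, map_one] at h7
      exact (pow_eq_one_iff.mp h7).resolve_right hℓ.ne_zero
    have h1 := hinert _ hwz (by rw [div_pow, ← map_pow, hz, map_one, div_one])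
    have h2 := hτ ⟨ι ζ, hζL⟩
    rw [h1] at h2
    exact ι.injective ((hσ ζ).trans h2)
  -- the subfield
  have hF₁ : ∀ x : IntermediateField.adjoin C {ζ}, ι (x : AlgebraicClosure C) ∈ L := by
    intro x
    have h1 : IntermediateField.adjoin C {ζ} ≤
        (L.restrictScalars C).comap ι := by
      rw [IntermediateField.adjoin_le_iff, Set.singleton_subset_iff]
      exact hζL
    exact h1 x.2
  let j : IntermediateField.adjoin C {ζ} →ₐ[C] L :=
    { toFun := fun x ↦ ⟨ι x, hF₁ x⟩
      map_one' := by ext; simp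
      map_mul' := fun x y ↦ by ext; simp
      map_zero' := by ext; simp
      map_add' := fun x y ↦ by ext; simp
      commutes' := fun x ↦ by
        ext
        exact ι.commutes x }
  have hσF : ∀ x : IntermediateField.adjoin C {ζ}, σ (x : AlgebraicClosure C) = x := by
    intro x
    have h1 : σ.toAlgHom.comp (IntermediateField.adjoin C {ζ}).val =
        (IntermediateField.adjoin C {ζ}).val := by
      refine IntermediateField.adjoin_algHom_ext C fun y hy => ?_
      rw [Set.mem_singleton_iff] at hy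
      subst hy
      exact hσζ
    exact congrArg (fun φ : IntermediateField.adjoin C {ζ} →ₐ[C] AlgebraicClosure C => φ x) h1
  have hτF : ∀ x : IntermediateField.adjoin C {ζ}, τ₀ (j x) = j x := by
    intro x
    apply Subtype.ext
    have h1 := hτ (j x)
    rw [← h1]
    change τ (ι x) = ι x
    rw [← hσ, hσF]
  -- integers of `C`
  have hCv : ∀ x : 𝓞 C, (x ∈ w.asIdeal → w'.valuation L (j (algebraMap (𝓞 (IntermediateField.adjoin C {ζ})) (IntermediateField.adjoin C {ζ}) (algebraMap (𝓞 C) (𝓞 (IntermediateField.adjoin C {ζ})) x))) < 1) ∧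
      (x ∉ w.asIdeal → w'.valuation L (j (algebraMap (𝓞 (IntermediateField.adjoin C {ζ})) (IntermediateField.adjoin C {ζ}) (algebraMap (𝓞 C) (𝓞 (IntermediateField.adjoin C {ζ})) x))) = 1) := by
    intro x
    have hmem : algebraMap C (w.adicCompletion C) (x : C) ∈ w.adicCompletionIntegers C := by
      rw [HeightOneSpectrum.mem_adicCompletionIntegers, valued_alg]
      exact w.valuation_le_one x
    have e1 : j (algebraMap (𝓞 (IntermediateField.adjoin C {ζ})) (IntermediateField.adjoin C {ζ}) (algebraMap (𝓞 C) (𝓞 (IntermediateField.adjoin C {ζ})) x)) =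
        algebraMap (w.adicCompletionIntegers C) L ⟨_, hmem⟩ := j.commutes (x : C)
    have hval : Valued.v (algebraMap C (w.adicCompletion C) (x : C)) = w.valuation C (x : C) := valued_alg _ _
    have hu : IsUnit (⟨_, hmem⟩ : w.adicCompletionIntegers C) ↔ w.valuation C (x : C) = 1 := by
      rw [HeightOneSpectrum.adicCompletionIntegers.isUnit_iff_valued_eq_one, ← hval]
    rw [e1]
    constructor
    · intro hx
      refine w_lt_of_mem w' _ ?_
      rw [IsLocalRing.mem_maximalIdeal, mem_nonunits_iff, hu]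
      exact ((w.valuation_lt_one_iff_mem x).mpr hx).ne
    · intro hx
      exact w_eq_one_of_unit w' _ (hu.mpr (w.valuation_eq_one_iff_notMem.mpr hx))
  obtain ⟨y₀, hy₀, hy₀'⟩ := Submodule.exists_mem_ne_zero_of_ne_bot w.ne_bot
  have hy₁ : algebraMap (𝓞 C) (𝓞 (IntermediateField.adjoin C {ζ})) y₀ ≠ 0 := by
    intro h0
    apply hy₀'
    exact FaithfulSMul.algebraMap_injective (𝓞 C) (𝓞 (IntermediateField.adjoin C {ζ}))
      (h0.trans (map_zero _).symm)
  obtain ⟨w₁, hw₁, hw₁'⟩ := LD_prime w' (j : IntermediateField.adjoin C {ζ} →+* L) _ hy₁ ((hCv y₀).1 hy₀)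
  have hcomap : w₁.asIdeal.comap (algebraMap (𝓞 C) (𝓞 (IntermediateField.adjoin C {ζ}))) = w.asIdeal := by
    ext x
    rw [Ideal.mem_comap, hw₁]
    constructor
    · intro hx
      by_contra hcon
      exact absurd ((hCv x).2 hcon) (ne_of_lt hx)
    · intro hx
      exact (hCv x).1 hx
  -- (3)
  obtain ⟨k, hk⟩ := hv w₁ hcomap
  obtain ⟨c, hc0, hc⟩ := exists_of_val (K := IntermediateField.adjoin C {ζ}) w₁ (WithZero.exp k) WithZero.exp_ne_zero
  have hwe : w₁.valuation (IntermediateField.adjoin C {ζ}) e' =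
      w₁.valuation (IntermediateField.adjoin C {ζ}) c ^ ℓ := by
    have h1 : w₁.valuation (IntermediateField.adjoin C {ζ}) e' ≠ 0 := (Valuation.ne_zero_iff _).mpr he
    rw [← WithZero.exp_log h1, hk, hc, ← WithZero.exp_nsmul, nsmul_eq_mul]
  have hw1 : w₁.valuation (IntermediateField.adjoin C {ζ}) (e' / c ^ ℓ) = 1 := by
    rw [map_div₀, map_pow, hwe, div_self]
    exact pow_ne_zero _ ((Valuation.ne_zero_iff _).mpr hc0)
  have hv1 : w'.valuation L (j (e' / c ^ ℓ)) = 1 := hw₁' _ hw1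
  have hjc : j c ≠ 0 := (map_ne_zero _).mpr hc0
  have hrj : (⟨ι r, hrL⟩ : L) ^ ℓ = j e' := by
    apply Subtype.ext
    change (ι r) ^ ℓ = ι e'
    rw [← map_pow, hr]
  have hu : ((⟨ι r, hrL⟩ : L) / j c) ^ ℓ = j (e' / c ^ ℓ) := by
    rw [div_pow, hrj, map_div₀, map_pow]
  have hvu : w'.valuation L ((⟨ι r, hrL⟩ : L) / j c) = 1 := by
    have h7 := congrArg (w'.valuation L) hu
    rw [map_pow, hv1] at h7
    exact (pow_eq_one_iff.mp h7).resolve_right hℓ.ne_zero
  have hfix := hinert _ hvu (by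
    rw [div_pow, ← map_pow, hu, hτF, div_self]
    intro h0
    rw [h0, map_zero] at hv1
    exact zero_ne_one hv1)
  rw [map_div₀, hτF, div_left_inj' hjc] at hfix
  have hσr : σ r = r := by
    have h2 := hτ ⟨ι r, hrL⟩
    rw [hfix] at h2
    exact ι.injective ((hσ r).trans h2)
  apply Subtype.ext
  have h1 := hτ ⟨ι m, hιN m⟩
  rw [← h1]
  change τ (ι m) = ι m
  rw [← hσ, hN σ hσζ hσr m m.2]

end H2T4
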