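import Pool.Agent.H2.T4.DG
import Pool.Agent.H2.T4.LB
import Pool.Agent.H2.T4.LD
import Pool.Agent.H2.T4.D5
import Pool.Agent.H2.T4.D6

/-!
Row D7 (about 200 lines): the second step of the descent, the character a is trivial. Use only the STATEMENTS of LB, LD, D5, D6.

PROOF. H.ell is an instance. a, E from exists_a (T_ne, T_ord, g, hgT). upP T₀ has order ℓ (pm injective). For an automorphism s over K with act s (upP T₀) = ε upP T₀ (ε = ± 1) one has act s (g (cj s σ)) = (a (cj s σ)).val • act s (upP T₀).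
 hη ⇒ ∏_{j<p^i} a (cj (η^j) σ) = 1: act (η^j) (upP T₀) = upP T₀ (act_mul, induction), so (∑ vals) • upP T₀ = 0, ∑ of toAdd = 0 in ZMod ℓ.
 hJ ⇒ a (cj J σ) = (a σ)⁻¹, so ∏_{j<2} a (cj (J^j) σ) = 1 (cj 1 σ = σ); the same for J * t: act (J * t) (upP T₀) = act J (upP T₀) = - upP T₀. cj over ℚ, K and L agree: cj (s.restrictScalars ℚ) σ = cj s σ (rfl or ext with apply_cj); (s^j).restrictScalars = (s.restrictScalars)^j.
 fin_level with S = {h, gJ, gJ * gt}: orders p^i, 2 = 2^1, 2 (ord_h, ord_J, ord_Jt; 2 ≠ ℓ since 3 ≤ ℓ; p ≠ ℓ); hNK: lifts η, J, J * t restricted to ℚ (lift_h, lift_J, lift_t: J (t x) = gJ (gt x)); hNN = dat.nnt; hab, hcx = dat.comm, dat.cplx.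
 hunr: N finite with (a σ = 1 → σ fixes N), w. (A) ¬ Bad w: unr_etale with f = g (a σ = 1 iff g σ = 0), GoodV and IntX from H.good. (B) Bad w: ζ := a primitive ℓ-th root of unity of Ω (IsAlgClosed / HasEnoughRootsOfUnity: exists since char 0), F₁ := adjoin C {ζ}: NumberField (finite over C). r, e' from kum_a.
   h₁ : F₁ ≃ₐ[ℚ] F₁ the restriction of η: η maps C onto C (lift_h) and η ζ = ζ (zeta_h), so η F₁ = F₁ (IntermediateField.adjoin; build the restriction, e.g. AlgEquiv.ofBijective or IntermediateField map). For w' above w: dat.fix₁ ζ gives w' (h₁ x) = w' x, so e_val (P = p^i, coprime to ℓ; hNK) gives ℓ ∣ log (w' e'). unr_root (dat.bad_ℓ w): hN: σ ζ = ζ, σ r = r: ζ^(a σ).val = 1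
   (kum_a, r ≠ 0 because r^ℓ = e' ≠ 0), so a σ = 1 (ζ primitive, val < ℓ), so σ fixes N.
 a = 1, so g σ = 0.
-/

set_option autoImplicit false
open scoped Classical

open WeierstrassCurve IsDedekindDomain NumberField Pool.Agent.H10 Pool.Agent.H11 Finset

namespace H2T4

/-- the restriction of an automorphism which maps `C` onto `C` and fixes `ζ` -/
private theorem D7_mem {K C : Type} [Field K] [NumberField K] [Field C] [NumberField C] [Algebra K C]
    (η : AlgebraicClosure C ≃ₐ[K] AlgebraicClosure C) (h : C → C)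
    (hη : ∀ x : C, η (algebraMap C (AlgebraicClosure C) x) = algebraMap C (AlgebraicClosure C) (h x))
    {ζ : AlgebraicClosure C} (hζ : η ζ = ζ) {x : AlgebraicClosure C}
    (hx : x ∈ IntermediateField.adjoin C {ζ}) : η x ∈ IntermediateField.adjoin C {ζ} := by
  induction hx using IntermediateField.adjoin_induction with
  | mem x hx =>
    rw [Set.mem_singleton_iff] at hx
    rw [hx, hζ]
    exact IntermediateField.mem_adjoin_simple_self C ζ
  | algebraMap x =>
    rw [hη]
    exact IntermediateField.algebraMap_mem _ _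
  | add x y hx hy h1 h2 => rw [map_add]; exact add_mem h1 h2
  | inv x hx h1 => rw [map_inv₀]; exact inv_mem h1
  | mul x y hx hy h1 h2 => rw [map_mul]; exact mul_mem h1 h2

private theorem D7_res {K C : Type} [Field K] [NumberField K] [Field C] [NumberField C] [Algebra K C]
    (η : AlgebraicClosure C ≃ₐ[K] AlgebraicClosure C) (h : C ≃ₐ[ℚ] C)
    (hη : ∀ x : C, η (algebraMap C (AlgebraicClosure C) x) = algebraMap C (AlgebraicClosure C) (h x))
    {ζ : AlgebraicClosure C} (hζ : η ζ = ζ) :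
    ∃ h₁ : IntermediateField.adjoin C {ζ} ≃ₐ[ℚ] IntermediateField.adjoin C {ζ},
      ∀ x : IntermediateField.adjoin C {ζ}, η (x : AlgebraicClosure C) = (h₁ x : AlgebraicClosure C) := by
  have h1 : ∀ x : C, η.symm (algebraMap C (AlgebraicClosure C) x) =
      algebraMap C (AlgebraicClosure C) (h.symm x) := by
    intro x
    rw [AlgEquiv.symm_apply_eq, hη, AlgEquiv.apply_symm_apply]
  have h2 : η.symm ζ = ζ := by
    rw [AlgEquiv.symm_apply_eq, hζ]
  let e : IntermediateField.adjoin C {ζ} ≃+* IntermediateField.adjoin C {ζ} :=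
    { toFun := fun x => ⟨η x, D7_mem η h hη hζ x.2⟩
      invFun := fun x => ⟨η.symm x, D7_mem η.symm h.symm h1 h2 x.2⟩
      left_inv := fun x => Subtype.ext (η.symm_apply_apply x)
      right_inv := fun x => Subtype.ext (η.apply_symm_apply x)
      map_mul' := fun x y => Subtype.ext (map_mul η (x : AlgebraicClosure C) y)
      map_add' := fun x y => Subtype.ext (map_add η (x : AlgebraicClosure C) y) }
  exact ⟨AlgEquiv.ofRingEquiv (f := e) (fun q => by
    rw [eq_ratCast (algebraMap ℚ (IntermediateField.adjoin C {ζ})) q, map_ratCast]), fun x => rfl⟩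

private theorem D7_cj {K C : Type} [Field K] [NumberField K] [Field C] [NumberField C] [Algebra K C]
    [Normal K C] [Normal ℚ C] (s : AlgebraicClosure C ≃ₐ[K] AlgebraicClosure C)
    (s' : AlgebraicClosure C ≃ₐ[ℚ] AlgebraicClosure C) (hs : ∀ x, s' x = s x)
    (σ : AlgebraicClosure C ≃ₐ[C] AlgebraicClosure C) : cj s' σ = cj s σ := by
  ext y
  apply s.injective
  rw [apply_cj, ← hs, apply_cj, hs]

private theorem D7_pow {K C : Type} [Field K] [NumberField K] [Field C] [NumberField C] [Algebra K C]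
    (s : AlgebraicClosure C ≃ₐ[K] AlgebraicClosure C)
    (s' : AlgebraicClosure C ≃ₐ[ℚ] AlgebraicClosure C) (hs : ∀ x, s' x = s x) (j : ℕ) :
    ∀ x, (s' ^ j) x = (s ^ j) x := by
  induction j with
  | zero => intro x; rfl
  | succ j ih =>
    intro x
    rw [pow_succ, pow_succ, AlgEquiv.mul_apply, AlgEquiv.mul_apply, hs, ih]

private theorem D7_cjpow {K C : Type} [Field K] [NumberField K] [Field C] [NumberField C] [Algebra K C]
    [Normal K C] [Normal ℚ C] (s : AlgebraicClosure C ≃ₐ[K] AlgebraicClosure C)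
    (s' : AlgebraicClosure C ≃ₐ[ℚ] AlgebraicClosure C) (hs : ∀ x, s' x = s x) (j : ℕ)
    (σ : AlgebraicClosure C ≃ₐ[C] AlgebraicClosure C) : cj (s' ^ j) σ = cj (s ^ j) σ :=
  D7_cj _ _ (D7_pow s s' hs j) σ

/-- an involution `s` with `s T = -T` (as far as the action is concerned) inverts `a` -/
private theorem D7_two {K C : Type} [Field K] [NumberField K] [Field C] [NumberField C] [Algebra K C]
    [Normal K C] {G : Type} [CommGroup G]
    (a : (AlgebraicClosure C ≃ₐ[C] AlgebraicClosure C) →* G)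
    (s : AlgebraicClosure C ≃ₐ[K] AlgebraicClosure C)
    (hs : ∀ σ, a (cj s σ) * a σ = 1) (σ : AlgebraicClosure C ≃ₐ[C] AlgebraicClosure C) :
    ∏ j ∈ range 2, a (cj (s ^ j) σ) = 1 := by
  have h1 : cj (s ^ 0) σ = σ := by
    ext y
    apply (s ^ 0).injective
    rw [apply_cj]
    rfl
  rw [Finset.prod_range_succ, Finset.prod_range_succ, Finset.prod_range_zero, one_mul, h1, pow_one,
    mul_comm, hs]

private theorem D7_act {K C : Type} [Field K] [NumberField K] [Field C] [NumberField C] [Algebra K C]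
    {V : WeierstrassCurve K} {VC : WeierstrassCurve C} (hV : V.map (algebraMap K C) = VC)
    (s : AlgebraicClosure C ≃ₐ[K] AlgebraicClosure C) {T₀ : VC.toAffine.Point}
    (hs : Pool.Agent.H10.act (inv_up hV) s (upP T₀) = upP T₀) (j : ℕ) :
    Pool.Agent.H10.act (inv_up hV) (s ^ j) (upP T₀) = upP T₀ := by
  induction j with
  | zero =>
    rw [pow_zero]
    exact Pool.Agent.H10.act_one _ _
  | succ j ih => rw [pow_succ, Pool.Agent.H10.act_mul, hs, ih]

variable {ℓ p i : ℕ} {K L C : Type} [Field K] [NumberField K] [Field L] [NumberField L] [Field C]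
    [NumberField C] [Algebra K L] [Algebra L C] [Algebra K C] [IsScalarTower K L C] [Normal K C]
    [Normal L C] {Bad : HeightOneSpectrum (𝓞 C) → Prop} {h gJ gt : C ≃ₐ[ℚ] C}
    {η : AlgebraicClosure C ≃ₐ[K] AlgebraicClosure C}
    {J t : AlgebraicClosure C ≃ₐ[L] AlgebraicClosure C}
    {V : WeierstrassCurve K} {V' : WeierstrassCurve L} {VC : WeierstrassCurve C}
    {hV : V.map (algebraMap K L) = V'} {hLC : V'.map (algebraMap L C) = VC}
    {hKC : V.map (algebraMap K C) = VC} {T₀ : VC.toAffine.Point}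

theorem a_trivial (H : Hyp ℓ p i K L C Bad h gJ gt η J t hV hLC hKC T₀) {g : Coch C VC}
    (hg : IsCocycle C VC g) (hl : IsLocTriv C VC g) (hgT : ∀ σ, ∃ j : ℕ, g σ = j • upP T₀)
    (hη : ∀ σ : AlgebraicClosure C ≃ₐ[C] AlgebraicClosure C,
      ∑ j ∈ range (p ^ i), Pool.Agent.H10.act (inv_up hKC) (η ^ j) (g (cj (η ^ j) σ)) = 0)
    (hJ : ∀ σ : AlgebraicClosure C ≃ₐ[C] AlgebraicClosure C,
      Pool.Agent.H10.act (inv_up hLC) J (g (cj J σ)) = g σ)
    (hJt : ∀ σ : AlgebraicClosure C ≃ₐ[C] AlgebraicClosure C,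
      Pool.Agent.H10.act (inv_up hLC) (J * t) (g (cj (J * t) σ)) = g σ)
    (σ : AlgebraicClosure C ≃ₐ[C] AlgebraicClosure C) : g σ = 0 := by
  classical
  have hell := H.ell
  have hgal := H.dat.gal
  have hnorm : Normal ℚ C := inferInstance
  have hfact : Fact ℓ.Prime := ⟨H.prime⟩
  have hne : NeZero ℓ := ⟨H.prime.ne_zero⟩
  obtain ⟨a, ha, ha1, E, hE⟩ := exists_a H.prime T₀ H.T_ne H.T_ord hg hgT
  have ht0 : upP T₀ ≠ 0 := by
    intro h
    apply H.T_ne
    apply pm_injective (algebraMap C (AlgebraicClosure C)) rfl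
    rw [map_zero]
    exact h
  have htl : ℓ • upP T₀ = 0 := by
    have h := map_nsmul (pm (algebraMap C (AlgebraicClosure C)) rfl :
      VC.toAffine.Point →+ (VC.baseChange (AlgebraicClosure C)).toAffine.Point) ℓ T₀
    rw [H.T_ord, map_zero] at h
    exact h.symm
  have hord : addOrderOf (upP T₀) = ℓ := addOrderOf_eq_prime htl ht0
  have hz : ∀ m : ℕ, m • upP T₀ = 0 → (m : ZMod ℓ) = 0 := by
    intro m hm
    rw [ZMod.natCast_eq_zero_iff, ← hord]
    exact addOrderOf_dvd_iff_nsmul_eq_zero.2 hm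
  -- the three relations
  have hηa : ∀ σ : AlgebraicClosure C ≃ₐ[C] AlgebraicClosure C,
      ∏ j ∈ range (p ^ i), a (cj (η ^ j) σ) = 1 := by
    intro σ
    have h1 := hη σ
    have h2 : ∀ j ∈ range (p ^ i), Pool.Agent.H10.act (inv_up hKC) (η ^ j) (g (cj (η ^ j) σ)) =
        (Multiplicative.toAdd (a (cj (η ^ j) σ))).val • upP T₀ := by
      intro j _
      rw [ha, map_nsmul, D7_act hKC η H.T_η]
    rw [Finset.sum_congr rfl h2, ← Finset.sum_smul] at h1
    have h3 := hz _ h1
    rw [Nat.cast_sum] at h3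
    simp only [ZMod.natCast_val, ZMod.cast_id', id] at h3
    apply Multiplicative.toAdd.injective
    rw [toAdd_prod, h3]
    rfl
  have hneg : ∀ s : AlgebraicClosure C ≃ₐ[L] AlgebraicClosure C,
      Pool.Agent.H10.act (inv_up hLC) s (upP T₀) = -upP T₀ →
      (∀ σ : AlgebraicClosure C ≃ₐ[C] AlgebraicClosure C,
        Pool.Agent.H10.act (inv_up hLC) s (g (cj s σ)) = g σ) →
      ∀ σ : AlgebraicClosure C ≃ₐ[C] AlgebraicClosure C, a (cj s σ) * a σ = 1 := by
    intro s hs1 hs2 σ
    have h1 := hs2 σ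
    rw [ha (cj s σ), ha σ, map_nsmul, hs1, smul_neg] at h1
    have h2 : ((Multiplicative.toAdd (a (cj s σ))).val + (Multiplicative.toAdd (a σ)).val) •
        upP T₀ = 0 := by
      rw [add_smul, ← h1, add_neg_cancel]
    have h3 := hz _ h2
    rw [Nat.cast_add] at h3
    simp only [ZMod.natCast_val, ZMod.cast_id', id] at h3
    apply Multiplicative.toAdd.injective
    rw [toAdd_mul, h3]
    rfl
  have hJa := hneg J H.T_J hJ
  have hJta := hneg (J * t) (by rw [Pool.Agent.H10.act_mul, H.T_t, H.T_J]) hJt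
  have hcop : (p ^ i).Coprime ℓ :=
    Nat.Coprime.pow_left _ ((Nat.coprime_primes H.pprime H.prime).2 H.ne)
  -- the conditions of `fin_level`
  have hunr : ∀ (N : IntermediateField C (AlgebraicClosure C)) [FiniteDimensional C N],
      (∀ σ : AlgebraicClosure C ≃ₐ[C] AlgebraicClosure C, a σ = 1 → ∀ x ∈ N, σ x = x) →
      ∀ w : HeightOneSpectrum (𝓞 C), UnrAt w N := by
    intro N hNf hN w
    by_cases hw : Bad w
    · obtain ⟨ζ, hζ⟩ : ∃ ζ : AlgebraicClosure C, IsPrimitiveRoot ζ ℓ := by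
        exact HasEnoughRootsOfUnity.exists_primitiveRoot (AlgebraicClosure C) ℓ
      have hfin : FiniteDimensional C (IntermediateField.adjoin C {ζ}) :=
        IntermediateField.adjoin.finiteDimensional (Algebra.IsIntegral.isIntegral ζ)
      have hnf : NumberField (IntermediateField.adjoin C {ζ}) :=
        NumberField.of_module_finite C (IntermediateField.adjoin C {ζ})
      obtain ⟨r, e', he, hr, hrσ⟩ := kum_a H.prime a E hE ζ hζ
      have hηζ : η ζ = ζ := H.dat.zeta_h ζ hζ.pow_eq_one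
      obtain ⟨h₁, hh₁⟩ := D7_res η h H.dat.lift_h hηζ
      apply unr_root w H.prime (H.dat.bad_ℓ w hw) ζ hζ r e' he hr _ N
      · intro σ hσ1 hσ2
        apply hN
        have h1 := hrσ σ hσ1
        rw [hσ2] at h1
        have hr0 : r ≠ 0 := by
          intro h0
          rw [h0, zero_pow H.prime.ne_zero] at hr
          apply he
          apply Subtype.ext
          exact hr.symm
        have h2 : ζ ^ (Multiplicative.toAdd (a σ)).val = 1 := by
          have h3 : ζ ^ (Multiplicative.toAdd (a σ)).val * r = 1 * r := by rw [one_mul]; exact h1.symm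
          exact mul_right_cancel₀ hr0 h3
        have h3 : ℓ ∣ (Multiplicative.toAdd (a σ)).val := (hζ.pow_eq_one_iff_dvd _).1 h2
        have h4 : (Multiplicative.toAdd (a σ)).val = 0 :=
          Nat.eq_zero_of_dvd_of_lt h3 (ZMod.val_lt _)
        rw [ZMod.val_eq_zero] at h4
        exact Multiplicative.toAdd.injective h4
      · intro w' hw'
        exact e_val H.prime a ζ hζ r e' he hr hrσ η hηζ (p ^ i) hcop hηa h₁ hh₁ w'
          (H.dat.fix₁ ζ hζ h₁ hh₁ w w' hw hw')
    · exact unr_etale w (H.good w hw).1 H.prime T₀ H.T_ord (H.good w hw).2 hl hgT N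
        (fun σ hσ => hN σ ((ha1 σ).2 hσ))
  have hlev := fin_level C H.dat.comm H.dat.cplx H.prime H.three a E hE hunr {h, gJ, gJ * gt}
    (by
      intro g' hg'
      have h2ℓ : 2 ≠ ℓ := by
        have := H.three
        omega
      rcases hg' with rfl | rfl | rfl
      · exact ⟨p, i, H.pprime, H.ne, H.dat.ord_h⟩
      · exact ⟨2, 1, Nat.prime_two, h2ℓ, by rw [H.dat.ord_J, pow_one]⟩
      · exact ⟨2, 1, Nat.prime_two, h2ℓ, by rw [H.dat.ord_Jt, pow_one]⟩)
    (by
      intro g' hg'
      rcases hg' with rfl | rfl | rfl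
      · refine ⟨η.restrictScalars ℚ, fun x => H.dat.lift_h x, fun σ => ?_⟩
        rw [H.dat.ord_h, ← hηa σ]
        exact Finset.prod_congr rfl fun j _ => by
          rw [D7_cjpow η (η.restrictScalars ℚ) (fun _ => rfl)]
      · refine ⟨J.restrictScalars ℚ, fun x => H.dat.lift_J x, fun σ => ?_⟩
        rw [H.dat.ord_J, ← D7_two a J hJa σ]
        exact Finset.prod_congr rfl fun j _ => by
          rw [D7_cjpow J (J.restrictScalars ℚ) (fun _ => rfl)]
      · refine ⟨(J * t).restrictScalars ℚ, fun x => ?_, fun σ => ?_⟩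
        · show J (t _) = _
          rw [H.dat.lift_t, H.dat.lift_J]
          rfl
        · rw [H.dat.ord_Jt, ← D7_two a (J * t) hJta σ]
          exact Finset.prod_congr rfl fun j _ => by
            rw [D7_cjpow (J * t) ((J * t).restrictScalars ℚ) (fun _ => rfl)])
    H.dat.nnt
  rw [← ha1, hlev]
  rfl

end H2T4
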