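import Pool.Agent.H2.T4.P1

/-!
Row P8 (about 170 lines): a regular function with divisor n P - n O. Use only the STATEMENTS of P1.

PROOF. exists_f: Affine.Point.toClass (n • P) = 0, so ClassGroup.mk (XYIdeal' h) ^ n = 1 (toClass_some, map_nsmul; Additive), ClassGroup.mk_eq_one_of_coe_ideal for the n-th power of the unit XYIdeal' h, whose value is the fractional ideal of XYIdeal ^ n
  (XYIdeal'_eq, FractionalIdeal.coeIdeal_pow): XYIdeal ^ n = span {f}.
 norm_f: cjR_ideal and Affine.CoordinateRing.XYIdeal_neg_mul: span {f * cjR f} = (XYIdeal P * XYIdeal (-P)) ^ n = (XIdeal x) ^ n = span {(rx - x)^n} (XIdeal = span {XClass}, XClass W x = algebraMap k[X] (X - C x)). With mul_cjR: algebraMap (norm f) = u * algebraMap ((X - C x)^n) and back, u, u' ∈ RR.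
  RR is free over k[X] with basis 1, ry: compare coordinates (exists_pq for u and uniqueness, Affine.CoordinateRing.smul_basis_eq_zero): norm f and (X - C x)^n divide each other in k[X], so they are associated: norm f = C c * (X - C x)^n, c ≠ 0 (Polynomial.isUnit_iff).
 atP_f: span {f} ≤ XYIdeal (n ≥ 1), evR kills XClass x = rx - x and YClass (C y) = ry - y at (x, y).
 atP_f_neg: if evR at (x, negY x y) vanishes on f then f ∈ XYIdeal W x (C (negY x y)) =: m' (the kernel of evR at a point (x, y') is XYIdeal: it contains it, and the quotient by XYIdeal is k (quotientXYIdealEquiv), so XYIdeal is maximal), m' is prime and contains XYIdeal ^ n = span {f}, so it contains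
  XYIdeal W x (C y), in particular ry - y ∈ m', but ry - negY x y ∈ m', so the constant y - negY x y is in m': contradiction (evR of it is not zero).
 f_unique: f' = u f, f = u' f', u u' = 1 (f ≠ 0 as XYIdeal ≠ 0: it contains XClass ≠ 0); norm u * norm u' = 1 so norm u is a unit of k[X], of degree 0; u = p • 1 + q • ry, Affine.CoordinateRing.degree_norm_smul_basis: degree = max (2 deg p) (2 deg q + 3) = 0, so q = 0 and p is constant.
-/

set_option autoImplicit false
open scoped Classical nonZeroDivisors Polynomial.Bivariate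

open WeierstrassCurve Polynomial Pool.Agent.H10

namespace H2T4

variable {k : Type} [Field k] (W : WeierstrassCurve k) {x y : k} (h : W.toAffine.Nonsingular x y)

private theorem P8_X (x : k) : Affine.CoordinateRing.XClass W.toAffine x =
    algebraMap k[X] (RR W) (X - C x) := rfl

private theorem P8_Y (y : k) : Affine.CoordinateRing.YClass W.toAffine (C y) =
    ry W - algebraMap k[X] (RR W) (C y) := by
  have h1 : Affine.CoordinateRing.YClass W.toAffine (C y) =
      Affine.CoordinateRing.mk W.toAffine (Y - C (C y)) := rfl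
  rw [h1, map_sub]
  rfl

private theorem P8_ker (x y : k) (h' : (W.map (RingHom.id k)).toAffine.Equation x y) :
    Affine.CoordinateRing.XYIdeal W.toAffine x (C y) ≤
      RingHom.ker (evR W (RingHom.id k) x y h') := by
  rw [Affine.CoordinateRing.XYIdeal, Ideal.span_le]
  intro z hz
  rw [SetLike.mem_coe, RingHom.mem_ker]
  rcases hz with rfl | hz
  · rw [P8_X, evR_poly, eval₂_sub, eval₂_X, eval₂_C, RingHom.id_apply, sub_self]
  · rw [Set.mem_singleton_iff] at hz
    rw [hz, P8_Y, map_sub, evR_ry, evR_poly, eval₂_C, RingHom.id_apply, sub_self]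

private theorem P8_dvd {N M : k[X]} (h : algebraMap k[X] (RR W) N ∣ algebraMap k[X] (RR W) M) :
    N ∣ M := by
  obtain ⟨g, hg⟩ := h
  obtain ⟨p, q, hpq⟩ := exists_pq W g
  rw [hpq] at hg
  have h1 : (M - N * p) • (1 : RR W) + (-(N * q)) • Affine.CoordinateRing.mk W.toAffine Y = 0 := by
    rw [Algebra.smul_def, Algebra.smul_def, map_sub, map_mul, map_neg, map_mul, hg]
    change _ + _ * ry W = 0
    ring
  have h2 := (Affine.CoordinateRing.smul_basis_eq_zero h1).1
  exact ⟨p, sub_eq_zero.1 h2⟩

private theorem P8_ne (n : ℕ) (f : RR W)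
    (hf : Ideal.span {f} = Affine.CoordinateRing.XYIdeal W.toAffine x (C y) ^ n) : f ≠ 0 := by
  rintro rfl
  have h1 : Affine.CoordinateRing.XClass W.toAffine x ^ n ∈ Ideal.span {(0 : RR W)} := by
    rw [hf]
    exact Ideal.pow_mem_pow (Ideal.subset_span (Set.mem_insert _ _)) n
  rw [Ideal.mem_span_singleton, zero_dvd_iff] at h1
  exact pow_ne_zero n (Affine.CoordinateRing.XClass_ne_zero x) h1

theorem exists_f (n : ℕ) (hn : n • (Affine.Point.some x y h : W.toAffine.Point) = 0) :
    ∃ f : RR W, Ideal.span {f} = Affine.CoordinateRing.XYIdeal W.toAffine x (C y) ^ n := by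
  have h1 : Affine.Point.toClass (n • (Affine.Point.some x y h : W.toAffine.Point)) = 0 := by
    rw [hn, map_zero]
  rw [map_nsmul, Affine.Point.toClass_some] at h1
  have h2 : ClassGroup.mk W.toAffine.FunctionField
      (Affine.CoordinateRing.XYIdeal' (W := W.toAffine) h) ^ n = 1 := h1
  rw [← map_pow] at h2
  obtain ⟨f, -, hf⟩ := (ClassGroup.mk_eq_one_of_coe_ideal
    (I' := Affine.CoordinateRing.XYIdeal W.toAffine x (C y) ^ n) (by
      rw [Units.val_pow_eq_pow_val, FractionalIdeal.coeIdeal_pow]
      rfl)).1 h2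
  exact ⟨f, hf.symm⟩

include h in
theorem norm_f (n : ℕ) (f : RR W)
    (hf : Ideal.span {f} = Affine.CoordinateRing.XYIdeal W.toAffine x (C y) ^ n) :
    ∃ c : k, c ≠ 0 ∧ Algebra.norm k[X] f = C c * (X - C x) ^ n := by
  have h1 := cjR_ideal W x y n f hf
  have h2 : Ideal.span {algebraMap k[X] (RR W) (Algebra.norm k[X] f)} =
      Ideal.span {algebraMap k[X] (RR W) ((X - C x) ^ n)} := by
    rw [← mul_cjR, ← Ideal.span_singleton_mul_span_singleton, hf, h1, ← mul_pow, mul_comm,
      Affine.CoordinateRing.XYIdeal_neg_mul h, Affine.CoordinateRing.XIdeal,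
      Ideal.span_singleton_pow, P8_X, map_pow]
  rw [Ideal.span_singleton_eq_span_singleton] at h2
  have h3 : Associated (Algebra.norm k[X] f) ((X - C x) ^ n) :=
    associated_of_dvd_dvd (P8_dvd W h2.dvd) (P8_dvd W h2.symm.dvd)
  obtain ⟨u, hu⟩ := h3.symm
  obtain ⟨c, hc, hcu⟩ := Polynomial.isUnit_iff.1 u.isUnit
  refine ⟨c, hc.ne_zero, ?_⟩
  rw [← hu, ← hcu, mul_comm]

theorem atP_f (n : ℕ) (hn : n ≠ 0) (f : RR W)
    (hf : Ideal.span {f} = Affine.CoordinateRing.XYIdeal W.toAffine x (C y) ^ n)
    (h' : (W.map (RingHom.id k)).toAffine.Equation x y) : evR W (RingHom.id k) x y h' f = 0 := by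
  have h1 : f ∈ Affine.CoordinateRing.XYIdeal W.toAffine x (C y) := by
    refine Ideal.pow_le_self hn ?_
    rw [← hf]
    exact Ideal.mem_span_singleton_self f
  exact P8_ker W x y h' h1

theorem atP_f_neg (n : ℕ) (hy : y ≠ W.toAffine.negY x y) (f : RR W)
    (hf : Ideal.span {f} = Affine.CoordinateRing.XYIdeal W.toAffine x (C y) ^ n)
    (h' : (W.map (RingHom.id k)).toAffine.Equation x (W.toAffine.negY x y)) :
    evR W (RingHom.id k) x (W.toAffine.negY x y) h' f ≠ 0 := by
  intro h0
  have hprime : (RingHom.ker (evR W (RingHom.id k) x (W.toAffine.negY x y) h')).IsPrime :=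
    RingHom.ker_isPrime _
  have h1 : Affine.CoordinateRing.XYIdeal W.toAffine x (C y) ^ n ≤
      RingHom.ker (evR W (RingHom.id k) x (W.toAffine.negY x y) h') := by
    rw [← hf, Ideal.span_singleton_le_iff_mem]
    exact h0
  have h2 := hprime.le_of_pow_le h1
  have h3 : Affine.CoordinateRing.YClass W.toAffine (C y) ∈
      RingHom.ker (evR W (RingHom.id k) x (W.toAffine.negY x y) h') :=
    h2 (Ideal.subset_span (Set.mem_insert_of_mem _ rfl))
  rw [RingHom.mem_ker, P8_Y, map_sub, evR_ry, evR_poly, eval₂_C, RingHom.id_apply] at h3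
  exact hy (sub_eq_zero.1 h3).symm

include h in
theorem f_ne_zero (n : ℕ) (f : RR W)
    (hf : Ideal.span {f} = Affine.CoordinateRing.XYIdeal W.toAffine x (C y) ^ n) : f ≠ 0 := by
  exact P8_ne W n f hf

/-- regular functions generating the same ideal differ by a constant -/
theorem f_unique (f f' : RR W) (hf : f ≠ 0) (hff : Ideal.span {f} = Ideal.span {f'}) :
    ∃ u : k, u ≠ 0 ∧ f' = algebraMap k (RR W) u * f := by
  rw [Ideal.span_singleton_eq_span_singleton] at hff
  obtain ⟨u, hu⟩ := hff
  obtain ⟨p, q, hpq⟩ := Affine.CoordinateRing.exists_smul_basis_eq (u : RR W)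
  have h1 : IsUnit (Algebra.norm k[X] (u : RR W)) := u.isUnit.map (Algebra.norm k[X])
  have h2 := Polynomial.degree_eq_zero_of_isUnit h1
  rw [← hpq, Affine.CoordinateRing.degree_norm_smul_basis] at h2
  have hq : q = 0 := by
    by_contra hq0
    have h3 : 2 • q.degree + 3 ≤ 0 := (le_max_right _ _).trans_eq h2
    rw [degree_eq_natDegree hq0, nsmul_eq_mul] at h3
    have h4 : ((2 * q.natDegree + 3 : ℕ) : WithBot ℕ) ≤ ((0 : ℕ) : WithBot ℕ) := by
      push_cast
      exact h3
    have h5 := Nat.cast_le.1 h4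
    omega
  have hp : p.degree ≤ 0 := by
    rcases eq_or_ne p 0 with rfl | hp0
    · rw [degree_zero]
      exact bot_le
    · have h3 : 2 • p.degree ≤ 0 := (le_max_left _ _).trans_eq h2
      rw [degree_eq_natDegree hp0, nsmul_eq_mul] at h3
      have h4 : ((2 * p.natDegree : ℕ) : WithBot ℕ) ≤ ((0 : ℕ) : WithBot ℕ) := by
        push_cast
        exact h3
      have h5 := Nat.cast_le.1 h4
      rw [degree_eq_natDegree hp0]
      have h6 : p.natDegree = 0 := by omega
      rw [h6]
      exact le_rfl
  rw [hq, zero_smul, add_zero, eq_C_of_degree_le_zero hp] at hpq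
  have hc : (u : RR W) = algebraMap k (RR W) (p.coeff 0) := by
    rw [← hpq, Algebra.smul_def, mul_one]
    rfl
  refine ⟨p.coeff 0, ?_, ?_⟩
  · intro h0
    rw [h0, map_zero] at hc
    exact u.ne_zero hc
  · rw [← hc, ← hu, mul_comm]

end H2T4
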