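import Pool.Agent.H2.T4.P3
import Pool.Agent.H2.T4.P8

/-!
Row P12 (about 90 lines): the pairing of -P and T. Use only the STATEMENTS of P1, P2, P3, P8.

PROOF. P = some x y h, f, g, μ, τ from the hypothesis. -P = some x (negY x y) (neg_some). f' := cjR f: span {f'} = XYIdeal x (C (negY x y)) ^ n (cjR_ideal). f * f' = algebraMap (C c * (X - C x)^n) (mul_cjR, norm_f), c = d^n (IsAlgClosed.exists_pow_nat_eq, n ≠ 0), d ≠ 0. X1 := μ (algebraMap (RR W) (FF W) (rx W)) - cst x.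
 μ(f) μ(f') = (cst d * X1)^n (μ (cst _) = cst _; algebraMap k[X] X = rx). g' := cst d * X1 / g: g'^n = μ(f) μ(f') / μ(f) = μ(f'); g' ≠ 0 because μ f' ≠ 0 (f' ≠ 0: f_ne_zero, μ injective, algebraMap injective). τ X1 = X1 (tr_mul: τ ∘ μ = μ; τ fixes constants), τ g' = cst d X1 / (cst ζ g) = cst ζ⁻¹ * g' (ζ ≠ 0 since τ g ≠ 0).
-/

set_option autoImplicit false
open scoped Classical nonZeroDivisors Polynomial.Bivariate

open WeierstrassCurve Polynomial Pool.Agent.H10

namespace H2T4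

variable {k : Type} [Field k] [IsAlgClosed k] [CharZero k] (W : WeierstrassCurve k) [W.IsElliptic]

theorem isWeil_neg (n : ℕ) (hn : n ≠ 0) (P T : W.toAffine.Point) (hT : n • T = 0) (ζ : k)
    (h : IsWeil W n P T ζ) : ζ ≠ 0 ∧ IsWeil W n (-P) T ζ⁻¹ := by
  obtain ⟨x, y, hxy, f, g, μ, τ, rfl, hf, hμ, hτ, hg, hgn, hτg⟩ := h
  have hζ : ζ ≠ 0 := by
    rintro rfl
    rw [map_zero, zero_mul] at hτg
    exact hg ((map_eq_zero τ).1 hτg)
  refine ⟨hζ, ?_⟩
  obtain ⟨c, hc, hN⟩ := norm_f W hxy n f hf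
  obtain ⟨d, hd⟩ := IsAlgClosed.exists_pow_nat_eq c (Nat.pos_of_ne_zero hn)
  have hd0 : d ≠ 0 := by
    rintro rfl
    rw [zero_pow hn] at hd
    exact hc hd.symm
  have hμc : ∀ c, μ (cst W c) = cst W c := by
    obtain ⟨_, h, _⟩ := hμ
    exact h
  have hτc : ∀ c, τ (cst W c) = cst W c := by
    obtain ⟨_, h, _⟩ := hτ
    exact h
  have hC : ∀ c : k, algebraMap (RR W) (FF W) (algebraMap k[X] (RR W) (C c)) = cst W c := by
    intro c
    exact (IsScalarTower.algebraMap_apply k (RR W) (FF W) c).symm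
  have hX : algebraMap k[X] (RR W) X = rx W := rfl
  have hmul : algebraMap (RR W) (FF W) f * algebraMap (RR W) (FF W) (cjR W f) =
      (cst W d * (algebraMap (RR W) (FF W) (rx W) - cst W x)) ^ n := by
    rw [← map_mul, mul_cjR, hN, map_mul, map_pow, map_sub, map_mul, map_pow, map_sub, hC, hC, hX,
      ← hd, map_pow, mul_pow]
  have hτμ : ∀ z, τ (μ z) = μ z := fun z => by
    have := tr_mul W hμ hτ hT
    exact congrArg (fun ψ : FF W →+* FF W => ψ z) this
  have hμmul : μ (algebraMap (RR W) (FF W) f) * μ (algebraMap (RR W) (FF W) (cjR W f)) =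
      (cst W d * (μ (algebraMap (RR W) (FF W) (rx W)) - cst W x)) ^ n := by
    rw [← map_mul, hmul, map_pow, map_mul, map_sub, hμc, hμc]
  have hinj : Function.Injective (algebraMap (RR W) (FF W)) := IsFractionRing.injective (RR W) (FF W)
  have hf0 : f ≠ 0 := f_ne_zero W hxy n f hf
  have hcf0 : cjR W f ≠ 0 := by
    intro h0
    apply hf0
    rw [← cjR_cjR W f, h0, map_zero]
  have hμf' : μ (algebraMap (RR W) (FF W) (cjR W f)) ≠ 0 := by
    rw [Ne, map_eq_zero, map_eq_zero_iff _ hinj]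
    exact hcf0
  have hμf : μ (algebraMap (RR W) (FF W) f) ≠ 0 := by
    rw [Ne, map_eq_zero, map_eq_zero_iff _ hinj]
    exact hf0
  have hg' : (cst W d * (μ (algebraMap (RR W) (FF W) (rx W)) - cst W x) / g) ^ n =
      μ (algebraMap (RR W) (FF W) (cjR W f)) := by
    rw [div_pow, ← hμmul, hgn, mul_div_cancel_left₀ _ hμf]
  refine ⟨x, W.toAffine.negY x y, (Affine.nonsingular_neg x y).2 hxy, cjR W f,
    cst W d * (μ (algebraMap (RR W) (FF W) (rx W)) - cst W x) / g, μ, τ, rfl,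
    cjR_ideal W x y n f hf, hμ, hτ, ?_, hg', ?_⟩
  · intro h0
    rw [h0, zero_pow hn] at hg'
    exact hμf' hg'.symm
  · rw [map_div₀, map_mul, map_sub, hτc, hτc, hτμ, hτg, map_inv₀]
    have h1 : cst W ζ ≠ 0 := (map_ne_zero (cst W)).2 hζ
    field_simp

end H2T4
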