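import Pool.Agent.H2.T4.P9

/-!
Row P10 (about 120 lines): f(n Q) is an n-th power. Use only the STATEMENTS of P2, P8, P9.

PROOF. c1 from key_line, c2 from key_vert. All points j • Q (j ≥ 1) and their negatives are not in the range of pm φ rfl (hypothesis; pm is additive), in particular not 0, so atP f of them is not 0 (atP_ne_zero, f_ne_zero). Claim: for j ≥ 1 there are c ≠ 0 in k and t ≠ 0 in M with
 atP f (j • Q) = φ c * (atP f Q)^j * t^n. j = 1: c = t = 1. Step: key_line for j • Q and Q (sum (j+1) • Q ≠ 0): f(jQ) f(Q) f(-(j+1)Q) = φ c1 * s^n, s ≠ 0 (left side not zero; n ≠ 0). key_vert for (j+1) • Q = some x y: f((j+1)Q) f(-(j+1)Q) = φ c2 * r^n, r ≠ 0.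
 So f((j+1)Q) = φ (c2 / c1) * f(jQ) * f(Q) * (r / s)^n. For j = n: f(nQ) = φ c (f(Q) t)^n and c = d^n (IsAlgClosed.exists_pow_nat_eq), g = φ d * f(Q) * t.
-/

set_option autoImplicit false
open scoped Classical nonZeroDivisors Polynomial.Bivariate

open WeierstrassCurve Polynomial Pool.Agent.H10

namespace H2T4

variable {k : Type} [Field k] [IsAlgClosed k] (W : WeierstrassCurve k) [W.IsElliptic] {a b : k}
  (h : W.toAffine.Nonsingular a b)

theorem P10_some {M : Type} [Field M] {V : WeierstrassCurve M} (P : V.toAffine.Point) (hP : P ≠ 0) :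
    ∃ (x y : M) (h' : V.toAffine.Nonsingular x y), P = .some x y h' := by
  rcases P with _ | ⟨x, y, h'⟩
  · exact absurd rfl hP
  · exact ⟨x, y, h', rfl⟩

theorem P10_alg {M : Type} [Field M] {n j : ℕ} (hn : n ≠ 0) {A B F G s r c t c1 c2 : M}
    (hG : G ≠ 0) (hA : A ≠ 0) (hB : B ≠ 0) (hF : F ≠ 0) (hc1 : c1 ≠ 0) (ht : t ≠ 0)
    (h1 : A * B * G = c1 * s ^ n) (h2 : F * G = c2 * r ^ n) (h3 : A = c * B ^ j * t ^ n) :
    t * r / s ≠ 0 ∧ F = c2 / c1 * c * B ^ (j + 1) * (t * r / s) ^ n := by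
  have hs : s ≠ 0 := by
    rintro rfl
    rw [zero_pow hn, mul_zero] at h1
    exact mul_ne_zero (mul_ne_zero hA hB) hG h1
  have hr : r ≠ 0 := by
    rintro rfl
    rw [zero_pow hn, mul_zero] at h2
    exact mul_ne_zero hF hG h2
  refine ⟨div_ne_zero (mul_ne_zero ht hr) hs, ?_⟩
  have hsn : s ^ n ≠ 0 := pow_ne_zero n hs
  have h4 : F * (c1 * s ^ n) = A * B * (c2 * r ^ n) := by
    rw [← h1, ← h2]
    ring
  have h5 : F = A * B * (c2 * r ^ n) / (c1 * s ^ n) := by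
    rw [eq_div_iff (mul_ne_zero hc1 hsn)]
    exact h4
  rw [h5, h3, div_pow, mul_pow, pow_succ]
  field_simp

include h in
theorem exists_g (n : ℕ) (hn : n ≠ 0) (hb : b ≠ W.toAffine.negY a b) (f : RR W)
    (hf : Ideal.span {f} = Affine.CoordinateRing.XYIdeal W.toAffine a (C b) ^ n) {M : Type} [Field M]
    (φ : k →+* M) (Q : (W.map φ).toAffine.Point)
    (hQ : ∀ j : ℕ, j ≠ 0 → ∀ P : W.toAffine.Point, pm φ rfl P ≠ j • Q) :
    ∃ g : M, g ≠ 0 ∧ g ^ n = atP W φ f (n • Q) := by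
  obtain ⟨c1, hc1, hline⟩ := key_line W h n hn hb f hf
  obtain ⟨c2, hc2, hvert⟩ := key_vert W h n f hf
  have hf0 : f ≠ 0 := f_ne_zero W h n f hf
  have hne : ∀ j : ℕ, j ≠ 0 → atP W φ f (j • Q) ≠ 0 := fun j hj =>
    atP_ne_zero W φ (j • Q) (hQ j hj) f hf0
  have hneg : ∀ j : ℕ, j ≠ 0 → atP W φ f (-(j • Q)) ≠ 0 := by
    intro j hj
    refine atP_ne_zero W φ (-(j • Q)) (fun P hP => ?_) f hf0
    refine hQ j hj (-P) ?_
    rw [map_neg, hP, neg_neg]
  have h0 : ∀ j : ℕ, j ≠ 0 → j • Q ≠ 0 := by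
    intro j hj hjQ
    refine hQ j hj 0 ?_
    rw [map_zero, hjQ]
  have hQ1 : Q ≠ 0 := by
    have h1 := h0 1 one_ne_zero
    rwa [one_nsmul] at h1
  have hfQ : atP W φ f Q ≠ 0 := by
    have h1 := hne 1 one_ne_zero
    rwa [one_nsmul] at h1
  have claim : ∀ j : ℕ, 1 ≤ j → ∃ c : k, ∃ t : M, t ≠ 0 ∧
      atP W φ f (j • Q) = φ c * (atP W φ f Q) ^ j * t ^ n := by
    intro j hj
    induction j, hj using Nat.le_induction with
    | base =>
      refine ⟨1, 1, one_ne_zero, ?_⟩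
      rw [one_nsmul, map_one, pow_one, one_pow, one_mul, mul_one]
    | succ j hj ih =>
      obtain ⟨c, t, ht, hct⟩ := ih
      have hj0 : j ≠ 0 := by omega
      have hsum : j • Q + Q = (j + 1) • Q := (succ_nsmul Q j).symm
      obtain ⟨s, hs⟩ := hline M φ (j • Q) Q (h0 j hj0) hQ1 (by
        rw [hsum]
        exact h0 (j + 1) (Nat.succ_ne_zero j))
      rw [hsum] at hs
      obtain ⟨x, y, h', hP⟩ := P10_some ((j + 1) • Q) (h0 (j + 1) (Nat.succ_ne_zero j))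
      have hv := hvert M φ x y h'
      rw [← hP] at hv
      obtain ⟨h1, h2⟩ := P10_alg hn (hneg (j + 1) (Nat.succ_ne_zero j)) (hne j hj0) hfQ
        (hne (j + 1) (Nat.succ_ne_zero j)) ((map_ne_zero φ).2 hc1) ht hs hv hct
      refine ⟨c2 / c1 * c, _, h1, ?_⟩
      rw [map_mul, map_div₀]
      exact h2
  obtain ⟨c, t, ht, hct⟩ := claim n (Nat.one_le_iff_ne_zero.2 hn)
  obtain ⟨d, hd⟩ := IsAlgClosed.exists_pow_nat_eq c (Nat.pos_of_ne_zero hn)
  have hg : (φ d * atP W φ f Q * t) ^ n = atP W φ f (n • Q) := by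
    rw [hct, mul_pow, mul_pow, ← map_pow, hd]
  refine ⟨φ d * atP W φ f Q * t, ?_, hg⟩
  intro h1
  rw [h1, zero_pow hn] at hg
  exact hne n hn hg.symm

end H2T4
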