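import Pool.Agent.H2.T4.P3
import Pool.Agent.H2.T4.P10

/-!
Row P11 (about 200 lines): existence, uniqueness, additivity of the Weil pairing. Use only the STATEMENTS of P1, P2, P3, P8, P10.

PROOF. pow_const: if u ∈ FF W, n ≠ 0 and u^n = cst c then u = cst d: c = e^n (IsAlgClosed.exists_pow_nat_eq); if c = 0, u = 0; otherwise (u / cst e)^n = 1, and T^n - 1 splits over k, so u / cst e is the image of a root of unity of k (or: u is integral over k, IsAlgClosed.algebraMap_bijective... / the range of cst W is algebraically closed: minpoly splits).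
 isWeil_exists: P = some x y h. P ≠ - P because n is odd and P ≠ 0 (2 • P = 0 and n • P = 0 give P = 0), so y ≠ negY x y. f from exists_f. μ from exists_mul, τ from exists_tr. g from exists_g with M = FF W, φ = cst W, Q = gen W (hypothesis: nsmul_not_const; bcP = pm (cst W) rfl) and moves_atP: g^n = μ (f). τ (μ f) = μ f (tr_mul), so (τ g)^n = g^n,
   (τ g / g)^n = 1 = cst 1, so τ g / g = cst ζ (pow_const), ζ^n = 1 (cst injective).
 aux (alignment): if (f, g, μ) and (f', g', μ') both belong to P then μ' = μ (moves_unique), f' = algebraMap u * f (f_unique; both spans are XYIdeal^n; the coordinates x, y are determined by P: Affine.Point.some.injEq), (g'/g)^n = μ(f')/μ(f) = cst u, so g' = cst d * g, d ≠ 0 (pow_const).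
 isWeil_unique: τ' = τ (moves_unique) and τ g' / g' = τ g / g. isWeil_add: with the same g: Moves (τ.comp τ') (gen + bcP (T + T')) (tr_comp), (τ (τ' g)) = τ (cst ζ' * g) = cst ζ' * cst ζ * g.
-/

set_option autoImplicit false
open scoped Classical nonZeroDivisors Polynomial.Bivariate

open WeierstrassCurve Polynomial Pool.Agent.H10

namespace H2T4

variable {k : Type} [Field k] [IsAlgClosed k] [CharZero k] (W : WeierstrassCurve k) [W.IsElliptic]

theorem pow_const (n : ℕ) (hn : n ≠ 0) (u : FF W) (c : k) (hu : u ^ n = cst W c) :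
    ∃ d : k, u = cst W d := by
  have hp : (X ^ n - C c : k[X]) ≠ 0 := X_pow_sub_C_ne_zero (Nat.pos_of_ne_zero hn) c
  have h1 : u ∈ ((X ^ n - C c : k[X]).map (cst W)).roots := by
    rw [mem_roots (Polynomial.map_ne_zero hp), IsRoot.def, eval_map, eval₂_sub, eval₂_pow, eval₂_X,
      eval₂_C, hu, sub_self]
  rw [(IsAlgClosed.splits (X ^ n - C c : k[X])).roots_map, Multiset.mem_map] at h1
  obtain ⟨r, _, hr⟩ := h1
  exact ⟨r, hr.symm⟩

omit [CharZero k] in
theorem P11_g {a b : k} (h : W.toAffine.Nonsingular a b) (n : ℕ) (hn : n ≠ 0)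
    (hb : b ≠ W.toAffine.negY a b) (f : RR W)
    (hf : Ideal.span {f} = Affine.CoordinateRing.XYIdeal W.toAffine a (C b) ^ n) {M : Type} [Field M]
    [inst : DecidableEq M] (φ : k →+* M) (Q : (W.map φ).toAffine.Point)
    (hQ : ∀ j : ℕ, j ≠ 0 → ∀ P : W.toAffine.Point, pm φ rfl P ≠ j • Q) :
    ∃ g : M, g ≠ 0 ∧ g ^ n = atP W φ f (n • Q) := by
  obtain rfl : inst = fun a b => Classical.propDecidable (a = b) := Subsingleton.elim _ _
  exact exists_g W h n hn hb f hf φ Q hQ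

theorem isWeil_exists (n : ℕ) (hn : Odd n) (P T : W.toAffine.Point) (hP : P ≠ 0) (hnP : n • P = 0)
    (hnT : n • T = 0) : ∃ ζ : k, IsWeil W n P T ζ ∧ ζ ^ n = 1 := by
  have hn0 : n ≠ 0 := by
    rintro rfl
    exact absurd hn (by decide)
  obtain ⟨x, y, h, hPe⟩ := P10_some P hP
  have hy : y ≠ W.toAffine.negY x y := by
    intro hy
    apply hP
    have h1 : -P = P := by
      rw [hPe, Affine.Point.neg_some, Affine.Point.some.injEq]
      exact ⟨rfl, hy.symm⟩
    have h2 : 2 • P = 0 := by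
      rw [two_nsmul]
      nth_rewrite 1 [← h1]
      exact neg_add_cancel P
    obtain ⟨m, hm⟩ := hn
    rw [hm, add_nsmul, one_nsmul, mul_comm, mul_nsmul', h2, smul_zero, zero_add] at hnP
    exact hnP
  rw [hPe] at hnP
  obtain ⟨f, hf⟩ := exists_f W h n hnP
  obtain ⟨μ, hμ⟩ := exists_mul W n hn0
  obtain ⟨τ, hτ⟩ := exists_tr W T
  have hQ : ∀ j : ℕ, j ≠ 0 → ∀ P : W.toAffine.Point, pm (cst W) rfl P ≠ j • gen W :=
    fun j hj P hP => nsmul_not_const W j hj ⟨P, hP⟩
  obtain ⟨g, hg0, hg⟩ := P11_g W h n hn0 hy f hf (cst W) (gen W) hQ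
  rw [← moves_atP W hμ f] at hg
  have h1 : (τ g) ^ n = g ^ n := by
    rw [← map_pow, hg]
    exact RingHom.congr_fun (tr_mul W hμ hτ hnT) _
  have h2 : (τ g / g) ^ n = cst W 1 := by
    rw [div_pow, h1, div_self (pow_ne_zero n hg0), map_one]
  obtain ⟨ζ, hζ⟩ := pow_const W n hn0 _ 1 h2
  refine ⟨ζ, ⟨x, y, h, f, g, μ, τ, hPe, hf, hμ, hτ, hg0, hg, ?_⟩, ?_⟩
  · rw [← hζ, div_mul_cancel₀ _ hg0]
  · apply (cst W).injective
    rw [map_pow, ← hζ, h2]

/-- any two choices of the function `g` differ by a constant -/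
theorem weil_align (n : ℕ) (hn : n ≠ 0) {x y : k} (h : W.toAffine.Nonsingular x y) (f f' : RR W)
    (g g' : FF W) (μ : FF W →+* FF W)
    (hf : Ideal.span {f} = Affine.CoordinateRing.XYIdeal W.toAffine x (C y) ^ n)
    (hf' : Ideal.span {f'} = Affine.CoordinateRing.XYIdeal W.toAffine x (C y) ^ n)
    (hμ : Moves W (cst W) μ (n • gen W)) (hg0 : g ≠ 0) (hg0' : g' ≠ 0)
    (hg : g ^ n = μ (algebraMap (RR W) (FF W) f)) (hg' : g' ^ n = μ (algebraMap (RR W) (FF W) f')) :
    ∃ d : k, d ≠ 0 ∧ g' = cst W d * g := by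
  obtain ⟨u, hu0, hu⟩ := f_unique W f f' (f_ne_zero W h n f hf) (hf.trans hf'.symm)
  have hc : μ (cst W u) = cst W u := hμ.choose_spec.1 u
  have h1 : g' ^ n = cst W u * g ^ n := by
    rw [hg', hg, hu, map_mul, map_mul, ← hc]
    congr 2
  have h2 : (g' / g) ^ n = cst W u := by
    rw [div_pow, h1, mul_div_assoc, div_self (pow_ne_zero n hg0), mul_one]
  obtain ⟨d, hd⟩ := pow_const W n hn _ u h2
  refine ⟨d, ?_, ?_⟩
  · rintro rfl
    rw [map_zero] at hd
    exact div_ne_zero hg0' hg0 hd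
  · rw [← hd, div_mul_cancel₀ _ hg0]

theorem isWeil_unique (n : ℕ) (hn : n ≠ 0) (P T : W.toAffine.Point) (ζ ζ' : k)
    (h : IsWeil W n P T ζ) (h' : IsWeil W n P T ζ') : ζ = ζ' := by
  obtain ⟨x, y, hns, f, g, μ, τ, hP, hf, hμ, hτ, hg0, hg, hgt⟩ := h
  obtain ⟨x', y', hns', f', g', μ', τ', hP', hf', hμ', hτ', hg0', hg', hgt'⟩ := h'
  rw [hP, Affine.Point.some.injEq] at hP'
  obtain ⟨rfl, rfl⟩ := hP'
  obtain rfl := moves_unique W hμ hμ'
  obtain rfl := moves_unique W hτ hτ'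
  obtain ⟨d, hd, hgd⟩ := weil_align W n hn hns f f' g g' μ hf hf' hμ hg0 hg0' hg hg'
  have hc : τ (cst W d) = cst W d := hτ.choose_spec.1 d
  have hd' : cst W d ≠ 0 := (map_ne_zero (cst W)).2 hd
  rw [hgd, map_mul, hc, hgt] at hgt'
  apply (cst W).injective
  have h1 : (cst W d * g) * cst W ζ = (cst W d * g) * cst W ζ' := by
    rw [mul_comm (cst W d * g) (cst W ζ'), ← hgt']
    ring
  exact mul_left_cancel₀ (mul_ne_zero hd' hg0) h1

theorem isWeil_add (n : ℕ) (hn : n ≠ 0) (P T T' : W.toAffine.Point) (ζ ζ' : k)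
    (h : IsWeil W n P T ζ) (h' : IsWeil W n P T' ζ') : IsWeil W n P (T + T') (ζ * ζ') := by
  obtain ⟨x, y, hns, f, g, μ, τ, hP, hf, hμ, hτ, hg0, hg, hgt⟩ := h
  obtain ⟨x', y', hns', f', g', μ', τ', hP', hf', hμ', hτ', hg0', hg', hgt'⟩ := h'
  rw [hP, Affine.Point.some.injEq] at hP'
  obtain ⟨rfl, rfl⟩ := hP'
  obtain rfl := moves_unique W hμ hμ'
  obtain ⟨d, hd, hgd⟩ := weil_align W n hn hns f f' g g' μ hf hf' hμ hg0 hg0' hg hg'
  have hc : τ' (cst W d) = cst W d := hτ'.choose_spec.1 d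
  have hcz : τ (cst W ζ') = cst W ζ' := hτ.choose_spec.1 ζ'
  have hd' : cst W d ≠ 0 := (map_ne_zero (cst W)).2 hd
  have h1 : τ' g = cst W ζ' * g := by
    rw [hgd, map_mul, hc] at hgt'
    apply mul_left_cancel₀ hd'
    rw [hgt']
    ring
  refine ⟨x, y, hns, f, g, μ, τ.comp τ', hP, hf, hμ, tr_comp W hτ hτ', hg0, hg, ?_⟩
  rw [RingHom.comp_apply, h1, map_mul, hcz, hgt, map_mul]
  ring

end H2T4
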