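import Pool.Agent.H2.T4.P1

/-!
Row P13 (about 200 lines): the coordinate ring is integrally closed (for n-th roots). Use only the STATEMENTS of P1.

PROOF. Let z := 2 ry + a₁ rx + a₃ ∈ RR, so cjR z = - z and z^2 = algebraMap k[X] Ψ, Ψ = 4 X^3 + b₂ X^2 + 2 b₄ X + b₆ = W.twoTorsionPolynomial.toPoly (direct computation, b₂, b₄, b₆). Ψ is squarefree: its discriminant is 16 Δ ≠ 0 (WeierstrassCurve.twoTorsionPolynomial_discr; Δ ≠ 0: W.isUnit_Δ or IsElliptic), use Cubic.discr_ne_zero_iff_roots_nodup over k (algebraically closed, splits)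
  or: a double root r would satisfy Ψ(r) = Ψ'(r) = 0, and a direct polynomial identity; then Squarefree via Polynomial.Separable.squarefree or nodup_roots.
 Every element of RR is p + q z with p, q ∈ k[X] (exists_pq, ry = (z - a₁ rx - a₃) / 2, char 0).
 v = r / s, r ∈ RR, s ∈ k[X] non zero: v = r1 / r2 (IsFractionRing.div_surjective) = r1 * cjR r2 / algebraMap (norm r2) (mul_cjR, norm_ne_zero'). r = p + q z. v^n = f gives r^n = f s^n in RR; apply cjR: (p - q z)^n = cjR f * s^n. So v = (p + q z)/s and vb := (p - q z)/s are both integral over k[X] (roots of T^n - f with f ∈ RR, and RR is a finite k[X]-module, hence integral;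
  IsIntegral.of_pow or isIntegral_trans). So v + vb = 2 p / s is integral over k[X] and lies in the fraction field of k[X] inside FF W: k[X] is integrally closed, so s | 2 p in k[X], s | p (char 0). (Concretely: if 2p/s is integral over k[X]: IsIntegrallyClosed k[X], work in FractionRing k[X] → FF W, or use isIntegral_algebraMap_iff for the
  injective map from FractionRing k[X] to FF W.) Then v - p/s = q z / s is integral, its square q^2 Ψ / s^2 is integral and in the fraction field of k[X], so s^2 | q^2 Ψ in k[X]. Divide by the gcd of s and q: s = g s', q = g q', IsCoprime s' q': s'^2 | q'^2 Ψ, so s'^2 | Ψ, Ψ squarefree: s' is a unit, s | q. So v ∈ RR.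
-/

set_option autoImplicit false
open scoped Classical nonZeroDivisors Polynomial.Bivariate

open WeierstrassCurve Polynomial Pool.Agent.H10

namespace H2T4

variable {k : Type} [Field k] [IsAlgClosed k] [CharZero k] (W : WeierstrassCurve k) [W.IsElliptic]

omit [IsAlgClosed k] [CharZero k] [W.IsElliptic] in
theorem P13_inj : Function.Injective (algebraMap k[X] (FF W)) :=
  FaithfulSMul.algebraMap_injective k[X] (FF W)

omit [IsAlgClosed k] [CharZero k] [W.IsElliptic] in
/-- integrality of a quotient of polynomials -/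
theorem P13_dvd (a s : k[X]) (hs : s ≠ 0)
    (h : _root_.IsIntegral k[X] (algebraMap k[X] (FF W) a / algebraMap k[X] (FF W) s)) : s ∣ a := by
  obtain ⟨φ, hφ⟩ : ∃ φ : FractionRing k[X] →+* FF W,
      ∀ x, φ (algebraMap k[X] (FractionRing k[X]) x) = algebraMap k[X] (FF W) x :=
    ⟨IsFractionRing.lift (P13_inj W), IsFractionRing.lift_algebraMap (P13_inj W)⟩
  obtain ⟨x, hx⟩ : ∃ x : FractionRing k[X], x = algebraMap k[X] (FractionRing k[X]) a /
      algebraMap k[X] (FractionRing k[X]) s := ⟨_, rfl⟩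
  have hφx : φ x = algebraMap k[X] (FF W) a / algebraMap k[X] (FF W) s := by
    rw [hx, map_div₀, hφ, hφ]
  have hint : _root_.IsIntegral k[X] x := by
    obtain ⟨g, hg1, hg2⟩ := h
    refine ⟨g, hg1, ?_⟩
    apply φ.injective
    rw [map_zero, Polynomial.hom_eval₂, hφx, ← hg2]
    congr 1
    exact RingHom.ext hφ
  obtain ⟨c, hc⟩ := IsIntegrallyClosed.isIntegral_iff.1 hint
  have hs' : algebraMap k[X] (FractionRing k[X]) s ≠ 0 := by
    intro h0
    apply hs
    exact IsFractionRing.injective k[X] (FractionRing k[X]) (h0.trans (map_zero _).symm)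
  rw [hx, eq_div_iff hs', ← map_mul] at hc
  exact ⟨c, by rw [← IsFractionRing.injective k[X] (FractionRing k[X]) hc, mul_comm]⟩

omit [IsAlgClosed k] [CharZero k] in
theorem P13_sq (Ψ : k[X]) (hΨ : Squarefree Ψ) (s q : k[X]) (hs : s ≠ 0) (h : s ^ 2 ∣ q ^ 2 * Ψ) :
    s ∣ q := by
  obtain ⟨s', hs'⟩ := EuclideanDomain.gcd_dvd_left s q
  obtain ⟨q', hq'⟩ := EuclideanDomain.gcd_dvd_right s q
  have hg := EuclideanDomain.gcd_eq_gcd_ab s q
  obtain ⟨g, hgd⟩ : ∃ g, g = EuclideanDomain.gcd s q := ⟨_, rfl⟩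
  rw [← hgd] at hs' hq' hg
  have hg0 : g ≠ 0 := by
    intro h0
    rw [h0, zero_mul] at hs'
    exact hs hs'
  have hcop : IsCoprime s' q' := by
    refine ⟨EuclideanDomain.gcdA s q, EuclideanDomain.gcdB s q, ?_⟩
    apply mul_left_cancel₀ hg0
    rw [mul_one]
    conv_rhs => rw [hg]
    conv_rhs => rw [hs', hq']
    conv_lhs => rw [hs', hq']
    ring
  have h1 : s' ^ 2 ∣ q' ^ 2 * Ψ := by
    rw [hs', hq', mul_pow, mul_pow, mul_assoc] at h
    exact (mul_dvd_mul_iff_left (pow_ne_zero 2 hg0)).1 h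
  have h2 : s' ^ 2 ∣ Ψ := (hcop.pow (m := 2) (n := 2)).dvd_of_dvd_mul_left h1
  have h3 : IsUnit s' := hΨ s' (by rw [← pow_two]; exact h2)
  obtain ⟨u, hu⟩ := h3.exists_right_inv
  refine ⟨u * q', ?_⟩
  rw [hq']
  conv_rhs => rw [hs']
  linear_combination (-(g * q')) * hu

theorem P13_sqfree : Squarefree W.twoTorsionPolynomial.toPoly := by
  have h4 : W.twoTorsionPolynomial.a ≠ 0 := by
    change (4 : k) ≠ 0
    norm_num
  have h1 : W.twoTorsionPolynomial.discr ≠ 0 := by
    rw [WeierstrassCurve.twoTorsionPolynomial_discr]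
    exact mul_ne_zero (by norm_num) W.isUnit_Δ.ne_zero
  rw [Cubic.discr_ne_zero_iff_roots_nodup (φ := RingHom.id k) h4 (IsAlgClosed.splits _)] at h1
  have h2 : (Cubic.map (RingHom.id k) W.twoTorsionPolynomial).roots =
      W.twoTorsionPolynomial.toPoly.roots := by
    rw [Cubic.map_roots, Polynomial.map_id]
  rw [h2] at h1
  have h3 : W.twoTorsionPolynomial.toPoly ≠ 0 := Cubic.ne_zero_of_a_ne_zero h4
  exact ((Polynomial.nodup_roots_iff_of_splits h3 (IsAlgClosed.splits _)).1 h1).squarefree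

/-- `2 y + a₁ x + a₃` -/
noncomputable def P13_z : RR W :=
  2 * ry W + algebraMap k (RR W) W.a₁ * rx W + algebraMap k (RR W) W.a₃

omit [IsAlgClosed k] [CharZero k] [W.IsElliptic] in
theorem P13_cj_z : cjR W (P13_z W) = -P13_z W := by
  unfold P13_z
  rw [map_add, map_add, map_mul, map_mul, cjR_ry, cjR_rx, cjR_const, cjR_const, map_ofNat]
  ring

omit [IsAlgClosed k] [CharZero k] [W.IsElliptic] in
theorem P13_cj_poly (p : k[X]) : cjR W (algebraMap k[X] (RR W) p) = algebraMap k[X] (RR W) p :=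
  AdjoinRoot.lift_of _

omit [IsAlgClosed k] [CharZero k] [W.IsElliptic] in
theorem P13_C (c : k) : algebraMap k[X] (RR W) (C c) = algebraMap k (RR W) c :=
  (IsScalarTower.algebraMap_apply k k[X] (RR W) c).symm

omit [IsAlgClosed k] [CharZero k] [W.IsElliptic] in
theorem P13_X : algebraMap k[X] (RR W) X = rx W := rfl

omit [IsAlgClosed k] [CharZero k] [W.IsElliptic] in
theorem P13_eqn : ry W ^ 2 + algebraMap k (RR W) W.a₁ * rx W * ry W + algebraMap k (RR W) W.a₃ * ry W =
    rx W ^ 3 + algebraMap k (RR W) W.a₂ * rx W ^ 2 + algebraMap k (RR W) W.a₄ * rx W +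
      algebraMap k (RR W) W.a₆ := by
  have h := AdjoinRoot.eval₂_root W.toAffine.polynomial
  rw [eval₂_polynomial'] at h
  have hr : AdjoinRoot.root W.toAffine.polynomial = ry W := rfl
  have hx : AdjoinRoot.of W.toAffine.polynomial X = rx W := rfl
  have hc : ∀ c : k, AdjoinRoot.of W.toAffine.polynomial (C c) = algebraMap k (RR W) c := P13_C W
  simp only [map_add, map_mul, map_pow, hr, hx, hc] at h
  linear_combination h

omit [IsAlgClosed k] [CharZero k] [W.IsElliptic] in
theorem P13_z_sq : P13_z W ^ 2 = algebraMap k[X] (RR W) W.twoTorsionPolynomial.toPoly := by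
  unfold P13_z Cubic.toPoly WeierstrassCurve.twoTorsionPolynomial
  simp only [map_add, map_mul, map_pow, P13_C, P13_X, WeierstrassCurve.b₂, WeierstrassCurve.b₄,
    WeierstrassCurve.b₆, map_ofNat]
  linear_combination 4 * P13_eqn W

omit [IsAlgClosed k] [W.IsElliptic] in
theorem P13_pq (f : RR W) : ∃ p q : k[X],
    f = algebraMap k[X] (RR W) p + algebraMap k[X] (RR W) q * P13_z W := by
  obtain ⟨p, q, h⟩ := exists_pq W f
  have h2 : algebraMap k[X] (RR W) (C (1 / 2 : k)) * 2 = 1 := by
    have e : (2 : RR W) = algebraMap k[X] (RR W) (C 2) := by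
      rw [map_ofNat, map_ofNat]
    rw [e, ← map_mul, ← map_mul]
    norm_num
  refine ⟨p - C (1 / 2) * q * (C W.a₁ * X + C W.a₃), C (1 / 2) * q, ?_⟩
  unfold P13_z
  rw [h]
  simp only [map_sub, map_add, map_mul, P13_C W W.a₁, P13_C W W.a₃, P13_X]
  linear_combination (-(algebraMap k[X] (RR W) q * ry W)) * h2

omit [IsAlgClosed k] [CharZero k] [W.IsElliptic] in
theorem P13_intR (f : RR W) : _root_.IsIntegral k[X] (algebraMap (RR W) (FF W) f) := by
  have h1 : Module.Finite k[X] (RR W) :=
    Module.Finite.of_basis (Affine.CoordinateRing.basis W.toAffine)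
  have h2 : _root_.IsIntegral k[X] f := Algebra.IsIntegral.isIntegral f
  exact h2.algebraMap

theorem root_mem (n : ℕ) (hn : n ≠ 0) (v : FF W) (f : RR W) (h : v ^ n = algebraMap (RR W) (FF W) f) :
    ∃ w : RR W, v = algebraMap (RR W) (FF W) w := by
  obtain ⟨J, hJ⟩ : ∃ J : RR W →+* FF W, J = algebraMap (RR W) (FF W) := ⟨_, rfl⟩
  have hJI : ∀ p : k[X], algebraMap k[X] (FF W) p = J (algebraMap k[X] (RR W) p) := by
    intro p
    rw [hJ]
    exact IsScalarTower.algebraMap_apply k[X] (RR W) (FF W) p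
  have hJinj : Function.Injective J := by
    rw [hJ]
    exact IsFractionRing.injective (RR W) (FF W)
  have hintJ : ∀ f, _root_.IsIntegral k[X] (J f) := by
    rw [hJ]
    exact P13_intR W
  -- the denominator
  obtain ⟨r1, r2, hr2, hv⟩ := IsFractionRing.div_surjective (RR W) v
  rw [← hJ] at hv h ⊢
  have hr20 : r2 ≠ 0 := nonZeroDivisors.ne_zero hr2
  obtain ⟨s, hs⟩ : ∃ s, s = Algebra.norm k[X] r2 := ⟨_, rfl⟩
  have hs0 : s ≠ 0 := by
    rw [hs]
    exact norm_ne_zero' W r2 hr20
  have hIs0 : algebraMap k[X] (FF W) s ≠ 0 := by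
    intro h0
    exact hs0 (P13_inj W (h0.trans (map_zero _).symm))
  have hJr2 : J r2 ≠ 0 := by
    intro h0
    exact hr20 (hJinj (h0.trans (map_zero _).symm))
  obtain ⟨p, q, hpq⟩ := P13_pq W (r1 * cjR W r2)
  have hv1 : v * algebraMap k[X] (FF W) s = J (algebraMap k[X] (RR W) p + algebraMap k[X] (RR W) q * P13_z W) := by
    rw [← hpq, hJI, hs, ← mul_cjR, ← hv, map_mul, map_mul]
    field_simp
  obtain ⟨z, hz⟩ : ∃ z, z = P13_z W := ⟨_, rfl⟩
  rw [← hz] at hv1
  have hzsq : z ^ 2 = algebraMap k[X] (RR W) W.twoTorsionPolynomial.toPoly := by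
    rw [hz, P13_z_sq]
  have hzc : cjR W z = -z := by rw [hz, P13_cj_z]
  have hr : (algebraMap k[X] (RR W) p + algebraMap k[X] (RR W) q * z) ^ n =
      f * algebraMap k[X] (RR W) s ^ n := by
    apply hJinj
    rw [map_pow, ← hv1, mul_pow, h, map_mul, map_pow, hJI]
  have hrc : (algebraMap k[X] (RR W) p - algebraMap k[X] (RR W) q * z) ^ n =
      cjR W f * algebraMap k[X] (RR W) s ^ n := by
    have h1 := congrArg (cjR W) hr
    rw [map_pow, map_add, map_mul, P13_cj_poly, P13_cj_poly, hzc, map_mul, map_pow, P13_cj_poly,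
      mul_neg, ← sub_eq_add_neg] at h1
    exact h1
  -- integrality
  have hvint : _root_.IsIntegral k[X] v := by
    refine IsIntegral.of_pow (Nat.pos_of_ne_zero hn) ?_
    rw [h]
    exact hintJ f
  obtain ⟨vb, hvb⟩ : ∃ vb, vb = J (algebraMap k[X] (RR W) p - algebraMap k[X] (RR W) q * z) /
      algebraMap k[X] (FF W) s := ⟨_, rfl⟩
  have hvbint : _root_.IsIntegral k[X] vb := by
    refine IsIntegral.of_pow (Nat.pos_of_ne_zero hn) ?_
    have h1 : vb ^ n = J (cjR W f) := by
      rw [hvb, div_pow, ← map_pow, hrc, map_mul, map_pow, ← hJI]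
      field_simp
    rw [h1]
    exact hintJ _
  have hvJ : v = J (algebraMap k[X] (RR W) p + algebraMap k[X] (RR W) q * z) /
      algebraMap k[X] (FF W) s := by
    rw [← hv1]
    field_simp
  -- `s` divides `p`
  have hsp : s ∣ p := by
    have h1 : _root_.IsIntegral k[X] (algebraMap k[X] (FF W) (2 * p) / algebraMap k[X] (FF W) s) := by
      have h2 : algebraMap k[X] (FF W) (2 * p) / algebraMap k[X] (FF W) s = v + vb := by
        rw [hvJ, hvb, ← add_div, ← map_add, hJI]
        congr 2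
        rw [map_mul, map_ofNat]
        ring
      rw [h2]
      exact hvint.add hvbint
    have h3 := P13_dvd W (2 * p) s hs0 h1
    have h4 : p = C (1 / 2 : k) * (2 * p) := by
      have e : (2 : k[X]) = C 2 := (map_ofNat C 2).symm
      rw [e, ← mul_assoc, ← map_mul]
      norm_num
    rw [h4]
    exact h3.mul_left _
  obtain ⟨p', hp'⟩ := hsp
  -- `s` divides `q`
  have hsq : s ∣ q := by
    refine P13_sq _ (P13_sqfree W) s q hs0 ?_
    refine P13_dvd W _ (s ^ 2) (pow_ne_zero 2 hs0) ?_
    have h1 : algebraMap k[X] (FF W) (q ^ 2 * W.twoTorsionPolynomial.toPoly) /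
        algebraMap k[X] (FF W) (s ^ 2) = (v - J (algebraMap k[X] (RR W) p')) ^ 2 := by
      have h2 : v - J (algebraMap k[X] (RR W) p') = J (algebraMap k[X] (RR W) q * z) /
          algebraMap k[X] (FF W) s := by
        rw [hvJ, hp', map_add, add_div, map_mul (algebraMap k[X] (RR W)) s p', map_mul J, ← hJI s,
          mul_div_assoc]
        have h5 : algebraMap k[X] (FF W) s * (J (algebraMap k[X] (RR W) p') /
            algebraMap k[X] (FF W) s) = J (algebraMap k[X] (RR W) p') := by
          field_simp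
        rw [h5]
        ring
      rw [h2, div_pow, ← map_pow, mul_pow, hzsq, hJI, map_mul, map_pow, map_pow]
    rw [h1]
    exact (hvint.sub (hintJ _)).pow 2
  obtain ⟨q', hq'⟩ := hsq
  refine ⟨algebraMap k[X] (RR W) p' + algebraMap k[X] (RR W) q' * z, ?_⟩
  rw [hvJ, div_eq_iff hIs0, hJI s, ← map_mul, hp', hq', map_mul, map_mul]
  congr 1
  ring

end H2T4
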