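import Pool.Agent.H2.T4.P5
import Pool.Agent.H2.T4.P11
import Pool.Agent.H2.T4.P13

/-!
Row P14 (about 100 lines): the pairing is non degenerate. Use only the STATEMENTS of P1, P3, P5, P8, P11, P13.

PROOF. Suppose IsWeil n P T 1 for all T with n • T = 0. T = 0 gives x, y, h, f, g, μ with P = some x y h. For any T with n • T = 0 and τ with Moves τ (gen + bcP T): IsWeil n P T 1 gives f', g', μ', τ' with τ' = τ, μ' = μ (moves_unique; the coordinates agree by Affine.Point.some.injEq), τ g' = g', g' = cst d * g (weil_align), so τ g = g.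
 fixed_of_tr: g = μ v. μ (v^n) = g^n = μ f, so v^n = algebraMap f (μ injective), root_mem: v = algebraMap w, w^n = f (injective). norm w ^ n = norm f = C c * (X - C x)^n (norm_f; Algebra.norm is multiplicative), so n * natDegree (norm w) = n, natDegree (norm w) = 1: contradiction with Affine.CoordinateRing.natDegree_norm_ne_one.
-/

set_option autoImplicit false
open scoped Classical nonZeroDivisors Polynomial.Bivariate

open WeierstrassCurve Polynomial Pool.Agent.H10

namespace H2T4

variable {k : Type} [Field k] [IsAlgClosed k] [CharZero k] (W : WeierstrassCurve k) [W.IsElliptic]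

theorem isWeil_nondeg (n : ℕ) (hn : n ≠ 0) (P : W.toAffine.Point)
    (h : ∀ T : W.toAffine.Point, n • T = 0 → IsWeil W n P T 1) : False := by
  obtain ⟨x, y, hP, f, g, μ, τ0, hPx, hf, hμ, hτ0, hg0, hg, -⟩ := h 0 (smul_zero n)
  have hfix : ∀ (T : W.toAffine.Point) (τ : FF W →+* FF W), n • T = 0 →
      Moves W (cst W) τ (gen W + bcP W T) → τ g = g := by
    intro T τ hT hτ
    obtain ⟨x', y', hP', f', g', μ', τ', hPx', hf', hμ', hτ', hg0', hg', hw⟩ := h T hT
    have hτe : τ' = τ := moves_unique W hτ' hτ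
    have hμe : μ' = μ := moves_unique W hμ' hμ
    subst hτe
    subst hμe
    rw [hPx, Affine.Point.some.injEq] at hPx'
    obtain ⟨rfl, rfl⟩ := hPx'
    obtain ⟨d, hd0, hd⟩ := weil_align W n hn hP f f' g g' μ' hf hf' hμ hg0 hg0' hg hg'
    rw [map_one, one_mul, hd, map_mul] at hw
    obtain ⟨_, hc, _⟩ := hτ
    rw [hc] at hw
    exact mul_left_cancel₀ ((map_ne_zero (cst W)).2 hd0) hw
  obtain ⟨v, hv⟩ := fixed_of_tr W n hn hμ g hfix
  have hvn : v ^ n = algebraMap (RR W) (FF W) f := by
    apply μ.injective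
    rw [map_pow, hv, hg]
  obtain ⟨w, hw⟩ := root_mem W n hn v f hvn
  have hwn : w ^ n = f := by
    apply IsFractionRing.injective (RR W) (FF W)
    rw [map_pow, ← hw, hvn]
  obtain ⟨c, hc0, hc⟩ := norm_f W hP n f hf
  rw [← hwn, map_pow] at hc
  have hdeg := congrArg natDegree hc
  rw [natDegree_pow, natDegree_C_mul hc0, natDegree_pow, natDegree_X_sub_C, mul_one] at hdeg
  have h1 : (Algebra.norm k[X] w).natDegree = 1 := by
    have h2 : n * (Algebra.norm k[X] w).natDegree = n * 1 := by rw [hdeg, mul_one]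
    exact Nat.eq_of_mul_eq_mul_left (Nat.pos_of_ne_zero hn) h2
  exact Affine.CoordinateRing.natDegree_norm_ne_one w h1

end H2T4
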