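import Pool.Agent.H2.T4.P3

/-!
Row P15 (about 150 lines): the Weil pairing is compatible with homomorphisms of fields. Use only the STATEMENTS of P1, P2, P3.

PROOF. subst hσ, so W' = W.map σ. cr := Affine.CoordinateRing.map W.toAffine σ : RR W →+* RR (W.map σ) sends rx, ry to rx, ry and algebraMap c to algebraMap (σ c) (CoordinateRing.map_mk); it is injective (map_injective). Σ : FF W →+* FF (W.map σ) its extension (IsFractionRing.map or IsFractionRing.lift); Σ (cst W c) = cst (W.map σ) (σ c).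
 (1) pm Σ _ (gen W) = gen (W.map σ) with respect to (W.map (cst W)).map Σ = (W.map σ).map (cst (W.map σ)) (both are W.map of the same composition; gen = some, pm_some), and pm Σ _ (bcP W T) = bcP (W.map σ) (pm σ rfl T) (pm_pm, pm_congr).
 (2) let μ' with Moves μ' (n • gen') (exists_mul) and τ' with Moves τ' (gen' + bcP (pm σ rfl T)) (exists_tr). Σ ∘ μ = μ' ∘ Σ: both are homs FF W →+* FF W' over φ := (cst W').comp σ, and they move gen W to pm Σ (n • gen) = n • gen' = pm μ' gen' (moves_unique with M = FF W'; points of W.map φ and of W'.map (cst W') are identified by pm (RingHom.id _) or by pm_pm with the equality proof;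
   or avoid points: compare Σ (μ rx), Σ (μ ry) with μ' rx', μ' ry' through the coordinates of n • gen: n • gen = some X Y, and n • gen' = pm Σ (n • gen) = some (Σ X) (Σ Y); then RR_hom_ext). The same for τ: Σ ∘ τ = τ' ∘ Σ.
 (3) P = some x y h: pm σ rfl P = some (σ x) (σ y). f' := cr f: span {f'} = map cr (XYIdeal x (C y) ^ n) = XYIdeal (σ x) (C (σ y)) ^ n (Ideal.map_span, Ideal.map_pow, XYIdeal = span of two elements, CoordinateRing.map_mk). g' := Σ g: g'^n = Σ (μ f) = μ' (Σ f) = μ' (algebraMap f'); τ' g' = Σ (τ g) = Σ (cst ζ * g) = cst' (σ ζ) * g'.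
-/

set_option autoImplicit false
open scoped Classical nonZeroDivisors Polynomial.Bivariate

open WeierstrassCurve Polynomial Pool.Agent.H10

namespace H2T4

section aux

variable {k k' : Type} [Field k] [Field k'] (W : WeierstrassCurve k) (σ : k →+* k')

/-- the map of coordinate rings -/
noncomputable def P15_cr : RR W →+* RR (W.map σ) := Affine.CoordinateRing.map W.toAffine σ

lemma P15_cr_inj : Function.Injective (P15_cr W σ) :=
  Affine.CoordinateRing.map_injective σ.injective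

lemma P15_cr_mk (x : k[X][Y]) : P15_cr W σ (Affine.CoordinateRing.mk W.toAffine x) =
    Affine.CoordinateRing.mk (W.map σ).toAffine (x.map (mapRingHom σ)) :=
  Affine.CoordinateRing.map_mk σ x

lemma P15_cr_const (c : k) : P15_cr W σ (algebraMap k (RR W) c) =
    algebraMap k' (RR (W.map σ)) (σ c) := by
  change P15_cr W σ (Affine.CoordinateRing.mk W.toAffine (C (C c))) =
    Affine.CoordinateRing.mk (W.map σ).toAffine (C (C (σ c)))
  rw [P15_cr_mk]
  simp

lemma P15_cr_rx : P15_cr W σ (rx W) = rx (W.map σ) := by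
  unfold rx
  rw [P15_cr_mk]
  simp

lemma P15_cr_ry : P15_cr W σ (ry W) = ry (W.map σ) := by
  unfold ry
  rw [P15_cr_mk]
  simp

lemma P15_comp_inj : Function.Injective
    ((algebraMap (RR (W.map σ)) (FF (W.map σ))).comp (P15_cr W σ)) :=
  (IsFractionRing.injective (RR (W.map σ)) (FF (W.map σ))).comp (P15_cr_inj W σ)

/-- the map of function fields -/
noncomputable def P15_sg : FF W →+* FF (W.map σ) :=
  IsFractionRing.lift (P15_comp_inj W σ)

lemma P15_sg_alg (f : RR W) : P15_sg W σ (algebraMap (RR W) (FF W) f) =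
    algebraMap (RR (W.map σ)) (FF (W.map σ)) (P15_cr W σ f) :=
  IsFractionRing.lift_algebraMap (P15_comp_inj W σ) f

lemma P15_sg_cst (c : k) : P15_sg W σ (cst W c) = cst (W.map σ) (σ c) := by
  unfold cst
  rw [IsScalarTower.algebraMap_apply k (RR W) (FF W), P15_sg_alg, P15_cr_const,
    ← IsScalarTower.algebraMap_apply k' (RR (W.map σ)) (FF (W.map σ))]

lemma P15_h : (W.map (cst W)).map (P15_sg W σ) = (W.map σ).map (cst (W.map σ)) := by
  rw [WeierstrassCurve.map_map, WeierstrassCurve.map_map]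
  congr 1
  exact RingHom.ext fun c => P15_sg_cst W σ c

lemma P15_gen [W.IsElliptic] [(W.map σ).IsElliptic] :
    pm (P15_sg W σ) (P15_h W σ) (gen W) = gen (W.map σ) := by
  unfold gen
  rw [pm_some, Affine.Point.some.injEq]
  exact ⟨by rw [P15_sg_alg, P15_cr_rx], by rw [P15_sg_alg, P15_cr_ry]⟩

lemma P15_bcP (T : W.toAffine.Point) :
    pm (P15_sg W σ) (P15_h W σ) (bcP W T) = bcP (W.map σ) (pm σ rfl T) := by
  unfold bcP
  rw [pm_pm, pm_pm]
  exact pm_congr _ _ (fun c => P15_sg_cst W σ c) T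

lemma P15_ideal (x y : k) (n : ℕ) (f : RR W)
    (hf : Ideal.span {f} = Affine.CoordinateRing.XYIdeal W.toAffine x (C y) ^ n) :
    Ideal.span {P15_cr W σ f} =
      Affine.CoordinateRing.XYIdeal (W.map σ).toAffine (σ x) (C (σ y)) ^ n := by
  have h1 := congrArg (Ideal.map (P15_cr W σ)) hf
  rw [Ideal.map_span, Set.image_singleton, Ideal.map_pow] at h1
  rw [h1]
  congr 1
  unfold Affine.CoordinateRing.XYIdeal
  rw [Ideal.map_span, Set.image_pair]
  congr 2
  · unfold Affine.CoordinateRing.XClass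
    rw [P15_cr_mk]
    simp
  · unfold Affine.CoordinateRing.YClass
    rw [P15_cr_mk]
    simp

end aux

lemma P15_fun {F F' F'' : Type} [Field F] [Field F'] [Field F''] {V : WeierstrassCurve F}
    {V' : WeierstrassCurve F'} {V'' : WeierstrassCurve F''} (φ : F →+* F') (h : V.map φ = V')
    (ψ : F' →+* F'') (h' : V'.map ψ = V'') (χ : F →+* F'') (h'' : V.map χ = V'')
    (hc : ∀ x, χ x = ψ (φ x)) (P : V.toAffine.Point) :
    pmFun ψ h' (pmFun φ h P) = pmFun χ h'' P := by
  obtain rfl : χ = ψ.comp φ := RingHom.ext hc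
  rcases P with _ | ⟨x, y, hxy⟩ <;> rfl

lemma P15_comm {k k' : Type} [Field k] [IsAlgClosed k] [Field k']
    (W : WeierstrassCurve k) [W.IsElliptic] (σ : k →+* k') [(W.map σ).IsElliptic]
    {ψ : FF W →+* FF W} {Q : (W.map (cst W)).toAffine.Point}
    {ψ' : FF (W.map σ) →+* FF (W.map σ)} (hψ : Moves W (cst W) ψ Q)
    (hψ' : Moves (W.map σ) (cst (W.map σ)) ψ' (pm (P15_sg W σ) (P15_h W σ) Q)) :
    (P15_sg W σ).comp ψ = ψ'.comp (P15_sg W σ) := by
  obtain ⟨h1, h2, h3⟩ := hψ
  obtain ⟨h1', h2', h3'⟩ := hψ'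
  have e : ((W.map σ).map (cst (W.map σ))).map (RingHom.id _) =
      W.map ((cst (W.map σ)).comp σ) := by
    rw [WeierstrassCurve.map_map, WeierstrassCurve.map_map]
    rfl
  have eA : (W.map (cst W)).map ((P15_sg W σ).comp ψ) = W.map ((cst (W.map σ)).comp σ) := by
    rw [← WeierstrassCurve.map_map, h1, P15_h, WeierstrassCurve.map_map]
  have eB : (W.map (cst W)).map (ψ'.comp (P15_sg W σ)) = W.map ((cst (W.map σ)).comp σ) := by
    rw [← WeierstrassCurve.map_map, P15_h, h1', WeierstrassCurve.map_map]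
  refine moves_unique (φ := (cst (W.map σ)).comp σ)
    (Q := pmFun (RingHom.id _) e (pmFun (P15_sg W σ) (P15_h W σ) Q)) W ⟨eA, fun c => ?_, ?_⟩
    ⟨eB, fun c => ?_, ?_⟩
  · rw [RingHom.comp_apply, h2, P15_sg_cst]
    rfl
  · have h4 : pmFun ψ h1 (gen W) = Q := h3
    change pmFun _ eA (gen W) = _
    rw [← h4]
    have eC : (W.map (cst W)).map (P15_sg W σ) = W.map ((cst (W.map σ)).comp σ) := by
      rw [P15_h, WeierstrassCurve.map_map]
    rw [P15_fun (P15_sg W σ) (P15_h W σ) (RingHom.id _) e (P15_sg W σ) eC (fun x => rfl)]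
    exact (P15_fun ψ h1 (P15_sg W σ) eC _ eA (fun x => rfl) (gen W)).symm
  · rw [RingHom.comp_apply, P15_sg_cst, h2']
    rfl
  · have h4 : pmFun ψ' h1' (gen (W.map σ)) = pmFun (P15_sg W σ) (P15_h W σ) Q := h3'
    have h5 : pmFun (P15_sg W σ) (P15_h W σ) (gen W) = gen (W.map σ) := P15_gen W σ
    change pmFun _ eB (gen W) = _
    rw [← h4, ← h5]
    have eC : (W.map (cst W)).map (ψ'.comp (P15_sg W σ)) = (W.map σ).map (cst (W.map σ)) := by
      rw [← WeierstrassCurve.map_map, P15_h, h1']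
    rw [P15_fun (P15_sg W σ) (P15_h W σ) ψ' h1' (ψ'.comp (P15_sg W σ)) eC (fun x => rfl)]
    exact (P15_fun _ eC (RingHom.id _) e _ eB (fun x => rfl) (gen W)).symm

theorem isWeil_map {k k' : Type} [Field k] [IsAlgClosed k] [CharZero k] [Field k'] [IsAlgClosed k']
    [CharZero k'] (W : WeierstrassCurve k) [W.IsElliptic] (W' : WeierstrassCurve k') [W'.IsElliptic]
    (σ : k →+* k') (hσ : W.map σ = W') (n : ℕ) (hn : n ≠ 0) (P T : W.toAffine.Point) (ζ : k)
    (h : IsWeil W n P T ζ) : IsWeil W' n (pm σ hσ P) (pm σ hσ T) (σ ζ) := by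
  subst hσ
  obtain ⟨x, y, hxy, f, g, μ, τ, hP, hf, hμ, hτ, hg, hgn, hgt⟩ := h
  obtain ⟨μ', hμ'⟩ := exists_mul (W.map σ) n hn
  obtain ⟨τ', hτ'⟩ := exists_tr (W.map σ) (pm σ rfl T)
  have c1 : (P15_sg W σ).comp μ = μ'.comp (P15_sg W σ) := by
    refine P15_comm W σ hμ ?_
    rw [map_nsmul, P15_gen]
    exact hμ'
  have c2 : (P15_sg W σ).comp τ = τ'.comp (P15_sg W σ) := by
    refine P15_comm W σ hτ ?_
    rw [map_add, P15_gen, P15_bcP]
    exact hτ'
  refine ⟨σ x, σ y, (Affine.map_nonsingular W σ.injective x y).mpr hxy, P15_cr W σ f,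
    P15_sg W σ g, μ', τ', ?_, P15_ideal W σ x y n f hf, hμ', hτ', ?_, ?_, ?_⟩
  · rw [hP, pm_some]
  · exact fun h0 => hg ((P15_sg W σ).injective (by rw [h0, map_zero]))
  · rw [← map_pow, hgn, ← P15_sg_alg]
    exact DFunLike.congr_fun c1 _
  · rw [← P15_sg_cst, ← map_mul, ← hgt]
    exact (DFunLike.congr_fun c2 _).symm

end H2T4
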