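import Pool.Agent.H2.T4.DG
import Pool.Agent.H2.T4.D3
import Pool.Agent.H2.T4.PZ

/-!
Row D8a (about 150 lines): preparations for the first step of the descent. Use only the STATEMENTS of D1, D3, PZ.

PROOF. exists_e: `weil` with k = Ω = AlgebraicClosure C, W = VC.baseChange Ω, T₀ := upP T₀ (≠ 0: pm_injective; killed by ℓ: map_nsmul), J := (J : Ω →+* Ω) (act over L is pm; zeta_J).
 inv_A0: X with ℓ X = 0 and ro s X - X ∈ zmultiples (upP T₀) for all s fixing C. For σ ∈ Gal(Ω/C): ro (σ.restrictScalars K) X = act (inv_bc C VC) σ X (pm on both sides). e (act σ X - X) = 1 (hE.ker; an integral multiple of upP T₀ is a natural one, ℓ • upP T₀ = 0), e (act σ X) = σ (e X) (hE.pos, σ fixes upP T₀), so σ (e X) = e X for all σ: e X = algebraMap c (Bridge3 fixed_of_galois),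
   c^ℓ = 1, c = 1 (dat.mu), so e X = 1 and X ∈ zmultiples (hE.ker).
 conj_resF: exF K hLC f (σ.restrictScalars K) for σ over C is resF hLC f σ (definition of resF in H10/Func5: trans (jj L C) f (σ.restrictScalars L)); for g over K: g⁻¹ * σ * g = (cj g σ).restrictScalars K (rfl). So f3 ro η (exF f) 0 (σ.restrictScalars K) = act η (resF f (cj η σ)) - resF f σ =: fC σ = conjF hKC η (resF hLC f) σ - resF hLC f σ (ρ τ 0 - 0 = 0); for general T: f3 .. T = f3 .. 0 ± the coboundary of T (see the definition of f3 in D1).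
 fC_props: isCocycle_res, isLocTriv_res, isCocycle_conj, isLocTriv_conj (H11/Conj, for K, C and hKC), differences and coboundaries (ShaZ is a subgroup: sub_mem), ℓ • fC σ = 0.
 exF is a cocycle on fxS K L C (isCoc_trans; mkA (g h) = mkA g * mkA h, act over L = act over K of the restriction).
-/

/-!
Row D8a (about 150 lines): preparations for the first step of the descent. Use only the STATEMENTS of D1, D3, PZ.

PROOF. exists_e: `weil` with k = Ω = AlgebraicClosure C, W = VC.baseChange Ω, T₀ := upP T₀ (≠ 0: pm_injective; killed by ℓ: map_nsmul), J := (J : Ω →+* Ω) (act over L is pm; zeta_J).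
 inv_A0: X with ℓ X = 0 and ro s X - X ∈ zmultiples (upP T₀) for all s fixing C. For σ ∈ Gal(Ω/C): ro (σ.restrictScalars K) X = act (inv_bc C VC) σ X (pm on both sides). e (act σ X - X) = 1 (hE.ker; an integral multiple of upP T₀ is a natural one, ℓ • upP T₀ = 0), e (act σ X) = σ (e X) (hE.pos, σ fixes upP T₀), so σ (e X) = e X for all σ: e X = algebraMap c (Bridge3 fixed_of_galois),
   c^ℓ = 1, c = 1 (dat.mu), so e X = 1 and X ∈ zmultiples (hE.ker).
 conj_resF: exF K hLC f (σ.restrictScalars K) for σ over C is resF hLC f σ (definition of resF in H10/Func5: trans (jj L C) f (σ.restrictScalars L)); for g over K: g⁻¹ * σ * g = (cj g σ).restrictScalars K (rfl). So f3 ro η (exF f) 0 (σ.restrictScalars K) = act η (resF f (cj η σ)) - resF f σ =: fC σ = conjF hKC η (resF hLC f) σ - resF hLC f σ (ρ τ 0 - 0 = 0); for general T: f3 .. T = f3 .. 0 ± the coboundary of T (see the definition of f3 in D1).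
 fC_props: isCocycle_res, isLocTriv_res, isCocycle_conj, isLocTriv_conj (H11/Conj, for K, C and hKC), differences and coboundaries (ShaZ is a subgroup: sub_mem), ℓ • fC σ = 0.
 exF is a cocycle on fxS K L C (isCoc_trans; mkA (g h) = mkA g * mkA h, act over L = act over K of the restriction).
-/

set_option autoImplicit false
open scoped Classical

open WeierstrassCurve IsDedekindDomain NumberField Pool.Agent.H10 Pool.Agent.H11 Finset

namespace H2T4

variable {ℓ p i : ℕ} {K L C : Type} [Field K] [NumberField K] [Field L] [NumberField L] [Field C]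
    [NumberField C] [Algebra K L] [Algebra L C] [Algebra K C] [IsScalarTower K L C] [Normal K L]
    [Normal K C] [Normal L C] {Bad : HeightOneSpectrum (𝓞 C) → Prop} {h gJ gt : C ≃ₐ[ℚ] C}
    {η : AlgebraicClosure C ≃ₐ[K] AlgebraicClosure C}
    {J t : AlgebraicClosure C ≃ₐ[L] AlgebraicClosure C}
    {V : WeierstrassCurve K} {V' : WeierstrassCurve L} {VC : WeierstrassCurve C}
    {hV : V.map (algebraMap K L) = V'} {hLC : V'.map (algebraMap L C) = VC}
    {hKC : V.map (algebraMap K C) = VC} {T₀ : VC.toAffine.Point}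

private theorem D8a_ord {l : ℕ} {M : Type} [AddCommGroup M] {P X : M} (hl : 0 < l)
    (hP : l • P = 0) (hX : X ∈ AddSubgroup.zmultiples P) : ∃ j : ℕ, X = j • P := by
  obtain ⟨j, hj⟩ := AddSubgroup.mem_zmultiples_iff.1 hX
  have hl0 : (l : ℤ) ≠ 0 := by exact_mod_cast hl.ne'
  have h1 : 0 ≤ j % (l : ℤ) := Int.emod_nonneg j hl0
  refine ⟨(j % (l : ℤ)).toNat, ?_⟩
  have h2 : (((j % (l : ℤ)).toNat : ℕ) : ℤ) = j % (l : ℤ) := Int.toNat_of_nonneg h1
  rw [← natCast_zsmul, h2, ← hj]
  conv_lhs => rw [← Int.emod_add_mul_ediv j (l : ℤ)]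
  rw [add_smul, mul_comm, mul_smul, natCast_zsmul, hP, smul_zero, add_zero]

private theorem D8a_ne {W : WeierstrassCurve (AlgebraicClosure C)} {P : W.toAffine.Point} {l : ℕ}
    (hl : l.Prime) {e : W.toAffine.Point → AlgebraicClosure C} (hE : WP l W P e)
    {S : W.toAffine.Point} (hS : l • S = 0) : e S ≠ 0 := by
  intro h
  have h1 := hE.pow S hS
  rw [h, zero_pow hl.ne_zero] at h1
  exact zero_ne_one h1

private theorem D8a_upord {l : ℕ} (h0 : l • T₀ = 0) : l • upP T₀ = 0 := by
  have h1 := map_nsmul (pm (algebraMap C (AlgebraicClosure C))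
    (rfl : VC.map (algebraMap C (AlgebraicClosure C)) = VC.baseChange (AlgebraicClosure C))) l T₀
  rw [h0, map_zero] at h1
  exact h1.symm

theorem exists_e (H : Hyp ℓ p i K L C Bad h gJ gt η J t hV hLC hKC T₀) :
    ∃ e, WP ℓ (VC.baseChange (AlgebraicClosure C)) (upP T₀) e := by
  have hell := H.ell
  have h0 : upP T₀ ≠ 0 := by
    intro h1
    apply H.T_ne
    apply pm_injective (algebraMap C (AlgebraicClosure C))
      (rfl : VC.map (algebraMap C (AlgebraicClosure C)) = VC.baseChange (AlgebraicClosure C))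
    rw [map_zero]
    exact h1
  obtain ⟨e, e1, e2, e3, e4, e5, e6⟩ := weil (VC.baseChange (AlgebraicClosure C)) ℓ H.prime H.three
    (upP T₀) h0 (D8a_upord H.T_ord) (J : AlgebraicClosure C →+* AlgebraicClosure C) (inv_up hLC J)
    H.T_J H.dat.zeta_J
  exact ⟨e, ⟨e1, e2, e3, e4, e5, e6⟩⟩

theorem inv_A0 (H : Hyp ℓ p i K L C Bad h gJ gt η J t hV hLC hKC T₀)
    (X : (VC.baseChange (AlgebraicClosure C)).toAffine.Point) (hX : ℓ • X = 0)
    (hs : ∀ s ∈ fxS K C C, ro hKC s X - X ∈ AddSubgroup.zmultiples (upP T₀)) :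
    X ∈ AddSubgroup.zmultiples (upP T₀) := by
  obtain ⟨e, hE⟩ := exists_e H
  have hup : ℓ • upP T₀ = 0 := D8a_upord H.T_ord
  have hfix : ∀ σ : AlgebraicClosure C ≃ₐ[C] AlgebraicClosure C, σ (e X) = e X := by
    intro σ
    have h1 : ro hKC (σ.restrictScalars K) X - X ∈ AddSubgroup.zmultiples (upP T₀) :=
      hs (σ.restrictScalars K) (fun x => σ.commutes x)
    have h2 : ro hKC (σ.restrictScalars K) X =
      pm (σ : AlgebraicClosure C →+* AlgebraicClosure C) (inv_bc C VC σ) X := rfl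
    rw [h2] at h1
    have h3 := D8a_ord H.prime.pos hup h1
    have h4 : ℓ • pm (σ : AlgebraicClosure C →+* AlgebraicClosure C) (inv_bc C VC σ) X = 0 := by
      rw [← map_nsmul, hX, map_zero]
    have h5 : ℓ • (pm (σ : AlgebraicClosure C →+* AlgebraicClosure C) (inv_bc C VC σ) X - X) = 0 := by
      rw [smul_sub, h4, hX, sub_zero]
    have h6 := (hE.ker _ h5).2 h3
    have h7 := hE.pos (σ : AlgebraicClosure C →+* AlgebraicClosure C) (inv_bc C VC σ)
      ((pm_pm (algebraMap C (AlgebraicClosure C)) rfl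
      (σ : AlgebraicClosure C →+* AlgebraicClosure C) (inv_bc C VC σ) T₀).trans
      (pm_congr _ _ (fun x => σ.commutes x) T₀)) X hX
    have h8 := hE.mul _ X h5 hX
    rw [sub_add_cancel, h6, one_mul] at h8
    rw [h8] at h7
    exact h7.symm
  obtain ⟨c, hc⟩ := fixed_of_galois (k := C) (Ω := AlgebraicClosure C) (e X) hfix
  have hc1 : c = 1 := by
    apply H.dat.mu
    apply (algebraMap C (AlgebraicClosure C)).injective
    rw [map_pow, hc, hE.pow X hX, map_one]
  have h9 : e X = 1 := by rw [← hc, hc1, map_one]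
  obtain ⟨j, hj⟩ := (hE.ker X hX).1 h9
  rw [hj]
  exact AddSubgroup.nsmul_mem_zmultiples _ _

theorem exF_coc {f : Coch L V'} (hf : IsCocycle L V' f) :
    ∀ σ ∈ fxS K L C, ∀ τ ∈ fxS K L C,
      exF K hLC f (σ * τ) = exF K hLC f σ + ro hKC σ (exF K hLC f τ) := by
  intro σ hσ τ hτ
  have hστ : σ * τ ∈ fxS K L C := mul_mem hσ hτ
  have h1 := isCoc_trans (jj L C) (map_jj hLC) (h' := inv_up hLC) ((isCocycle_iff f).1 hf)
  have h2 := h1.2 (mkA σ hσ) (mkA τ hτ)
  have e1 : exF K hLC f (σ * τ) = trans (jj L C) (map_jj hLC) f (mkA (σ * τ) hστ) := dif_pos hστ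
  have e2 : exF K hLC f σ = trans (jj L C) (map_jj hLC) f (mkA σ hσ) := dif_pos hσ
  have e3 : exF K hLC f τ = trans (jj L C) (map_jj hLC) f (mkA τ hτ) := dif_pos hτ
  rw [e1, e2, e3]
  exact h2

/-- `f₁` over `C` as a cochain -/
theorem fC_props {f : Coch L V'} (hf : IsCocycle L V' f) (hl : IsLocTriv L V' f)
    (hℓf : ∀ σ, ℓ • f σ = 0) (T : (VC.baseChange (AlgebraicClosure C)).toAffine.Point)
    (hT : ℓ • T = 0) :
    IsCocycle C VC (fun σ => f3 (ro hKC) η (exF K hLC f) T (σ.restrictScalars K)) ∧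
      IsLocTriv C VC (fun σ => f3 (ro hKC) η (exF K hLC f) T (σ.restrictScalars K)) ∧
      ∀ σ : AlgebraicClosure C ≃ₐ[C] AlgebraicClosure C,
        ℓ • f3 (ro hKC) η (exF K hLC f) T (σ.restrictScalars K) = 0 := by
  have hex : ∀ σ : AlgebraicClosure C ≃ₐ[C] AlgebraicClosure C,
      exF K hLC f (σ.restrictScalars K) = resF hLC f σ := by
    intro σ
    have hg : ∀ x : L, (σ.restrictScalars K) (algebraMap L (AlgebraicClosure C) x) =
        algebraMap L (AlgebraicClosure C) x := by
      intro x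
      rw [IsScalarTower.algebraMap_apply L C (AlgebraicClosure C)]
      exact σ.commutes _
    have e1 : exF K hLC f (σ.restrictScalars K) =
      trans (jj L C) (map_jj hLC) f (mkA (σ.restrictScalars K) hg) := dif_pos hg
    rw [e1]
    rfl
  have h1 : resF hLC f ∈ ShaZ C VC := ⟨isCocycle_res hLC hf, isLocTriv_res hLC hf hl⟩
  have h2 : conjF hKC η (resF hLC f) ∈ ShaZ C VC :=
    ⟨isCocycle_conj hKC η h1.1, isLocTriv_conj hKC η h1.1 h1.2⟩
  have h3 : (fun σ => Pool.Agent.H10.act (inv_bc C VC) σ T - T : Coch C VC) ∈ ShaZ C VC :=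
    shaB_le C VC ((isCobound_iff (K := C) (V := VC) _).2 ⟨T, fun σ => rfl⟩)
  have h4 := sub_mem (sub_mem h2 h1) h3
  have h5 : (fun σ => f3 (ro hKC) η (exF K hLC f) T (σ.restrictScalars K) : Coch C VC) =
      conjF hKC η (resF hLC f) - resF hLC f -
        (fun σ => Pool.Agent.H10.act (inv_bc C VC) σ T - T) := by
    funext σ
    have e2 : η⁻¹ * σ.restrictScalars K * η = (cj η σ).restrictScalars K := by
      ext x
      rfl
    change ro hKC η (exF K hLC f (η⁻¹ * σ.restrictScalars K * η)) -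
      exF K hLC f (σ.restrictScalars K) - _ = _
    rw [e2, hex, hex]
    rfl
  have hexl : ∀ g, ℓ • exF K hLC f g = 0 := by
    intro g
    unfold exF
    split_ifs with hg
    · unfold Pool.Agent.H10.trans
      rw [← map_nsmul, hℓf, map_zero]
    · exact nsmul_zero _
  rw [h5]
  refine ⟨h4.1, h4.2, fun σ => ?_⟩
  change ℓ • (ro hKC η (exF K hLC f (η⁻¹ * σ.restrictScalars K * η)) -
      exF K hLC f (σ.restrictScalars K) - (ro hKC (σ.restrictScalars K) T - T)) = 0
  rw [nsmul_sub, nsmul_sub, nsmul_sub, ← map_nsmul, ← map_nsmul, hexl, hexl, hT, map_zero, map_zero]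
  simp

end H2T4
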