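import Pool.Agent.H2.T4.DG
import Pool.Agent.H2.T4.D3
import Pool.Agent.H2.T4.D4
import Pool.Agent.H2.T4.D8a

/-!
Row D8 (about 150 lines): the first step of the descent. Use only the STATEMENTS of D1, D3, D4, D8a.

PROOF. step1: fC := fun σ => f3 (ro hKC) η (exF K hLC f) 0 (σ.restrictScalars K); fC_props (T = 0). e from exists_e. r, d from ks_exists for fC. (N) dsc_sum (Λ = fxS K L C, Δ = fxS K C C, P = p^i; η^(p^i) fixes C: lift_h, h^(p^i) = 1 as ord_h) gives T with ∑_{j<P} ro (η^j) (f3 .. 0 ((η^j)⁻¹ s η^j)) = ro s T - T; for s = σ.restrictScalars K this is hN of ks_norm: ∏ h^j d = y^ℓ. (J) dsc_inn for J.restrictScalars K ∈ Λ: ks_neg: d * gJ d = y^ℓ. (t) ks_pos: gt d = d y^ℓ.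
   For g over K: g⁻¹ * σ.restrictScalars K * g = (cj g σ).restrictScalars K (rfl), ro g = act g; for g = J.restrictScalars K: act over L = act over K (both pm).
   Valuations: w with Bad w or ℓ ∈ w: w (h x) = w x (dat.fix), so w (∏_{j<P} h^j d) = (w d)^P = (w y)^ℓ, ℓ ∣ P log (w d), P = p^i coprime to ℓ: ℓ ∣ log (w d). Otherwise GoodVal (w.valuation C) VC ℓ: H.good and w ℓ = 1 (valuation_eq_one_iff_notMem), ks_good. dat.nne: d = y^ℓ. ks_power gives T₁ with fC σ - (act σ T₁ - T₁) = j • upP T₀, and the left side is f3 ro η (exF f) T₁ (σ.restrictScalars K) (if the sign of T₁ in f3 is the other one, use - T₁).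
-/

set_option autoImplicit false
open scoped Classical

open WeierstrassCurve IsDedekindDomain NumberField Pool.Agent.H10 Pool.Agent.H11 Finset

namespace H2T4

variable {ℓ p i : ℕ} {K L C : Type} [Field K] [NumberField K] [Field L] [NumberField L] [Field C]
    [NumberField C] [Algebra K L] [Algebra L C] [Algebra K C] [IsScalarTower K L C] [Normal K L]
    [Normal K C] [Normal L C] {Bad : HeightOneSpectrum (𝓞 C) → Prop} {h gJ gt : C ≃ₐ[ℚ] C}
    {η : AlgebraicClosure C ≃ₐ[K] AlgebraicClosure C}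
    {J t : AlgebraicClosure C ≃ₐ[L] AlgebraicClosure C}
    {V : WeierstrassCurve K} {V' : WeierstrassCurve L} {VC : WeierstrassCurve C}
    {hV : V.map (algebraMap K L) = V'} {hLC : V'.map (algebraMap L C) = VC}
    {hKC : V.map (algebraMap K C) = VC} {T₀ : VC.toAffine.Point}

private theorem D8_normal (K L C : Type) [Field K] [NumberField K] [Field L] [NumberField L] [Field C]
    [NumberField C] [Algebra K L] [Algebra L C] [Algebra K C] [IsScalarTower K L C] [Normal K L] :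
    (fxS K L C).Normal := by
  constructor
  intro n hn g x
  change g (n (g⁻¹ (algebraMap L (AlgebraicClosure C) x))) = algebraMap L (AlgebraicClosure C) x
  have h1 : g⁻¹ (algebraMap L (AlgebraicClosure C) x) =
      algebraMap L (AlgebraicClosure C) (g⁻¹.restrictNormal L x) :=
    (g⁻¹.restrictNormal_commutes L x).symm
  rw [h1, hn, ← h1]
  exact g.apply_symm_apply _

private theorem D8_le (K L C : Type) [Field K] [NumberField K] [Field L] [NumberField L] [Field C]
    [NumberField C] [Algebra K L] [Algebra L C] [Algebra K C] [IsScalarTower K L C] :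
    fxS K C C ≤ fxS K L C := by
  intro g hg x
  have h1 := hg (algebraMap L C x)
  rw [← IsScalarTower.algebraMap_apply L C (AlgebraicClosure C)] at h1
  exact h1

private theorem D8_tor (K : Type) {L C : Type} [Field K] [NumberField K] [Field L] [NumberField L] [Field C]
    [NumberField C] [Algebra K L] [Algebra L C] [Algebra K C] [IsScalarTower K L C]
    {V' : WeierstrassCurve L} {VC : WeierstrassCurve C} {ℓ : ℕ}
    (hLC : V'.map (algebraMap L C) = VC) {f : Coch L V'} (hℓf : ∀ σ, ℓ • f σ = 0)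
    (σ : AlgebraicClosure C ≃ₐ[K] AlgebraicClosure C) : ℓ • exF K hLC f σ = 0 := by
  unfold exF
  split_ifs with h
  · unfold Pool.Agent.H10.trans
    rw [← map_nsmul, hℓf, map_zero]
  · exact nsmul_zero ℓ

theorem step1 (H : Hyp ℓ p i K L C Bad h gJ gt η J t hV hLC hKC T₀) {f : Coch L V'}
    (hf : IsCocycle L V' f) (hl : IsLocTriv L V' f) (hℓf : ∀ σ, ℓ • f σ = 0) :
    ∃ T₁ : (VC.baseChange (AlgebraicClosure C)).toAffine.Point, ℓ • T₁ = 0 ∧
      ∀ σ : AlgebraicClosure C ≃ₐ[C] AlgebraicClosure C, ∃ j : ℕ,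
        f3 (ro hKC) η (exF K hLC f) T₁ (σ.restrictScalars K) = j • upP T₀ := by
  have hΛ : (fxS K L C).Normal := D8_normal K L C
  have hΔ : (fxS K C C).Normal := D8_normal K C C
  have hΔΛ : fxS K C C ≤ fxS K L C := D8_le K L C
  obtain ⟨hc, hlt, hℓ0⟩ := fC_props (η := η) (hKC := hKC) (hLC := hLC) hf hl hℓf 0 (nsmul_zero ℓ)
  obtain ⟨e, hE⟩ := exists_e H
  have hell : VC.IsElliptic := H.ell
  obtain ⟨r, d, hr, hd0, hd, hσ⟩ := ks_exists H.prime T₀ hE hc hℓ0
  have hF := exF_coc (hLC := hLC) (hKC := hKC) hf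
  have hℓF := D8_tor K hLC hℓf
  have hresC : ∀ σ : AlgebraicClosure C ≃ₐ[C] AlgebraicClosure C, σ.restrictScalars K ∈ fxS K C C :=
    fun σ x => σ.commutes x
  have hres : ∀ σ : AlgebraicClosure C ≃ₐ[C] AlgebraicClosure C, σ.restrictScalars K ∈ fxS K L C :=
    fun σ => hΔΛ (hresC σ)
  have hact : ∀ (σ : AlgebraicClosure C ≃ₐ[C] AlgebraicClosure C)
      (X : (VC.baseChange (AlgebraicClosure C)).toAffine.Point),
      ro hKC (σ.restrictScalars K) X = Pool.Agent.H10.act (inv_bc C VC) σ X := fun σ X => rfl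
  have hηj : ∀ (j : ℕ) (x : C), (η ^ j) (algebraMap C (AlgebraicClosure C) x) =
      algebraMap C (AlgebraicClosure C) ((h ^ j) x) := by
    intro j
    induction j with
    | zero => intro x; rfl
    | succ j ih =>
      intro x
      rw [pow_succ, pow_succ, AlgEquiv.mul_apply, AlgEquiv.mul_apply, H.dat.lift_h, ih]
  have hηP : η ^ (p ^ i) ∈ fxS K C C := by
    intro x
    rw [hηj, ← H.dat.ord_h, pow_orderOf_eq_one]
    rfl
  -- the three relations
  obtain ⟨TN, hTN, hN⟩ := dsc_sum (ro hKC) (fxS K L C) (fxS K C C) hΔΛ ℓ (p ^ i) η hηP (exF K hLC f)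
    hF hℓF
  obtain ⟨yN, hyN⟩ := ks_norm hKC H.prime T₀ hE hℓ0 hr hd hσ η H.T_η (p ^ i) TN hTN
    (fun σ => hN _ (hres σ)) h H.dat.lift_h
  have hJΛ : J.restrictScalars K ∈ fxS K L C := fun x => J.commutes x
  obtain ⟨TJ, hTJ, hJ⟩ := dsc_inn (ro hKC) (fxS K L C) ℓ η (exF K hLC f) hF hℓF _ hJΛ
  obtain ⟨yJ, hyJ⟩ := ks_neg hKC H.prime T₀ hE hℓ0 hr hd hσ (J.restrictScalars K) H.T_J TJ hTJ
    (fun σ => hJ _ (hres σ)) gJ H.dat.lift_J
  have htΛ : t.restrictScalars K ∈ fxS K L C := fun x => t.commutes x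
  obtain ⟨Tt, hTt, ht⟩ := dsc_inn (ro hKC) (fxS K L C) ℓ η (exF K hLC f) hF hℓF _ htΛ
  obtain ⟨yt, hyt⟩ := ks_pos hKC H.prime T₀ hE hℓ0 hr hd hσ (t.restrictScalars K) H.T_t Tt hTt
    (fun σ => ht _ (hres σ)) gt H.dat.lift_t
  -- valuations
  have hval : ∀ w : HeightOneSpectrum (𝓞 C), (ℓ : ℤ) ∣ WithZero.log (w.valuation C d) := by
    intro w
    by_cases hb : Bad w ∨ (ℓ : 𝓞 C) ∈ w.asIdeal
    · have h1 := H.dat.fix w hb
      have h2 : ∀ (j : ℕ) (x : C), w.valuation C ((h ^ j) x) = w.valuation C x := by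
        intro j
        induction j with
        | zero => intro x; rfl
        | succ j ih =>
          intro x
          rw [pow_succ, AlgEquiv.mul_apply, ih, h1]
      have h3 := congrArg (fun x => WithZero.log (w.valuation C x)) hyN
      have h4 : ∏ j ∈ range (p ^ i), w.valuation C ((h ^ j) d) = w.valuation C d ^ (p ^ i) := by
        rw [Finset.prod_congr rfl (fun j _ => h2 j d), Finset.prod_const, Finset.card_range]
      simp only [map_pow, map_prod] at h3
      rw [h4, WithZero.log_pow, WithZero.log_pow] at h3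
      have h5 : (ℓ : ℤ) ∣ ((p ^ i : ℕ) : ℤ) * WithZero.log (w.valuation C d) := by
        refine ⟨WithZero.log (w.valuation C yN), ?_⟩
        rw [← nsmul_eq_mul, ← nsmul_eq_mul]
        exact h3
      have h6 : Nat.Coprime ℓ (p ^ i) :=
        Nat.Coprime.pow_right i ((Nat.coprime_primes H.prime H.pprime).2 (Ne.symm H.ne))
      have h7 : IsCoprime (ℓ : ℤ) ((p ^ i : ℕ) : ℤ) := Nat.isCoprime_iff_coprime.2 h6
      exact h7.dvd_of_dvd_mul_left h5
    · push Not at hb
      obtain ⟨hb1, hb2⟩ := hb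
      obtain ⟨g1, g2, g3, g4, g5, g6⟩ := (H.good w hb1).1
      refine ks_good H.prime T₀ hE hℓ0 hlt hr hd0 hd hσ w ⟨g1, g2, g3, g4, g5, g6, ?_⟩
      have h1 := (HeightOneSpectrum.valuation_eq_one_iff_notMem (K := C) w).2 hb2
      rwa [map_natCast] at h1
  obtain ⟨y, hy⟩ := H.dat.nne d hd0 hval ⟨yN, hyN⟩ ⟨yJ, hyJ⟩ ⟨yt, hyt⟩
  obtain ⟨T₁, hT₁, hfin⟩ := ks_power H.prime T₀ hE hℓ0 hr hd hσ y hy
  refine ⟨T₁, hT₁, fun σ => ?_⟩
  obtain ⟨j, hj⟩ := hfin σ
  refine ⟨j, ?_⟩
  rw [← hj, ← hact σ T₁]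
  unfold f3
  rw [map_zero, sub_zero, sub_zero]

end H2T4
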