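import Pool.Agent.H2.T4.D7
import Pool.Agent.H2.T4.D8

/-!
Row D9 (about 200 lines): the descent (assembly). Use only the STATEMENTS of D1, D7, D8.

PROOF. ctl_C. Λ := fxS K L C, Δ := fxS K C C (normal: L/K and C/K are normal, a conjugate of an automorphism fixing the normal subfield fixes it; restrictNormal_commutes), Δ ≤ Λ, A₀ := zmultiples (upP T₀). hηP: η^(p^i) ∈ Δ (lift_h, ord_h). h0Δ: s ∈ Δ fixes upP T₀ (pm of algebraMap). h0η: T_η. hinv: inv_A0. hcov: dat.cov. hcom: Gal(C/K) is commutative (dat.comm; restrictions to C of automorphisms over K, as automorphisms over ℚ).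
 F := exF K hLC f: cocycle on Λ (exF_coc), ℓ F = 0 (both branches). T₁ from step1 (an s ∈ Δ is σ.restrictScalars K for σ = mkA s _ over C): f3 .. T₁ s ∈ A₀ for s ∈ Δ. g := fun σ => f3 (ro hKC) η F T₁ (σ.restrictScalars K): cocycle, locally trivial (fC_props). dsc_b gives hη of a_trivial ((η^j)⁻¹ * σ * η^j = (cj (η^j) σ).restrictScalars K),
 dsc_a for J.restrictScalars K and (J * t).restrictScalars K ∈ Λ gives hJ, hJt (they preserve A₀: T_J, T_t; ro of the restriction = act over L). a_trivial: g = 0, so f3 = 0 on Δ. dsc (Nat.Coprime ℓ (p^i)): for all g there is T with ro g (F (g⁻¹ τ g)) = F τ + (ro τ T - T) for τ ∈ Λ; for τ = τ'.restrictScalars K (τ' over L): g⁻¹ τ g = (cj g τ').restrictScalars K, F (τ'.restrictScalars K) = trans (jj L C) _ f τ'.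
 ctl_L: as `k6` in the PROVED file Pool/Agent/H55/T3/K6b.lean: transport by j = jj L C: g' = j g j⁻¹, τ' = j τ j⁻¹, trans j f (cj g' τ') = pm j (f (cj g τ)), act g' (pm j X) = pm j (act g X); T := pm j.symm T' (so ℓ T = 0), and pm j is injective.
-/

set_option autoImplicit false
open scoped Classical

open WeierstrassCurve IsDedekindDomain NumberField Pool.Agent.H10 Pool.Agent.H11 Finset

namespace H2T4

variable {ℓ p i : ℕ} {K L C : Type} [Field K] [NumberField K] [Field L] [NumberField L] [Field C]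
    [NumberField C] [Algebra K L] [Algebra L C] [Algebra K C] [IsScalarTower K L C] [Normal K L]
    [Normal K C] [Normal L C] {Bad : HeightOneSpectrum (𝓞 C) → Prop} {h gJ gt : C ≃ₐ[ℚ] C}
    {η : AlgebraicClosure C ≃ₐ[K] AlgebraicClosure C}
    {J t : AlgebraicClosure C ≃ₐ[L] AlgebraicClosure C}
    {V : WeierstrassCurve K} {V' : WeierstrassCurve L} {VC : WeierstrassCurve C}
    {hV : V.map (algebraMap K L) = V'} {hLC : V'.map (algebraMap L C) = VC}
    {hKC : V.map (algebraMap K C) = VC} {T₀ : VC.toAffine.Point}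

private theorem D9_ker {K L C : Type} [Field K] [NumberField K] [Field L] [NumberField L] [Field C]
    [NumberField C] [Algebra K L] [Algebra L C] [Algebra K C] [IsScalarTower K L C] [Normal K L] :
    fxS K L C = (AlgEquiv.restrictNormalHom (F := K) (K₁ := AlgebraicClosure C) L).ker := by
  ext g
  rw [MonoidHom.mem_ker]
  constructor
  · intro h
    ext x
    apply (algebraMap L (AlgebraicClosure C)).injective
    change algebraMap L (AlgebraicClosure C) ((g.restrictNormal L) x) = _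
    rw [AlgEquiv.restrictNormal_commutes, h x]
    rfl
  · intro h x
    rw [← AlgEquiv.restrictNormal_commutes g L x]
    change algebraMap L (AlgebraicClosure C)
      ((AlgEquiv.restrictNormalHom L g : L ≃ₐ[K] L) x) = _
    rw [h]
    rfl

private theorem D9_normal (K L C : Type) [Field K] [NumberField K] [Field L] [NumberField L]
    [Field C] [NumberField C] [Algebra K L] [Algebra L C] [Algebra K C] [IsScalarTower K L C]
    [Normal K L] : (fxS K L C).Normal := by
  rw [D9_ker]
  infer_instance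

private theorem D9_le (K L C : Type) [Field K] [NumberField K] [Field L] [NumberField L]
    [Field C] [NumberField C] [Algebra K L] [Algebra L C] [Algebra K C] [IsScalarTower K L C] :
    fxS K C C ≤ fxS K L C := by
  intro g hg x
  rw [IsScalarTower.algebraMap_apply L C (AlgebraicClosure C)]
  exact hg _

private theorem D9_pow {K C : Type} [Field K] [Field C] [NumberField C] [Algebra K C]
    {h : C ≃ₐ[ℚ] C} {η : AlgebraicClosure C ≃ₐ[K] AlgebraicClosure C}
    (hl : ∀ x : C, η (algebraMap C (AlgebraicClosure C) x) =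
      algebraMap C (AlgebraicClosure C) (h x)) (n : ℕ) (x : C) :
    (η ^ n) (algebraMap C (AlgebraicClosure C) x) =
      algebraMap C (AlgebraicClosure C) ((h ^ n) x) := by
  induction n generalizing x with
  | zero => rfl
  | succ n ih =>
    rw [pow_succ, pow_succ, AlgEquiv.mul_apply, AlgEquiv.mul_apply, hl, ih]

private theorem D9_comm {K C : Type} [Field K] [NumberField K] [Field C] [NumberField C]
    [Algebra K C] (hc : ∀ g g' : C ≃ₐ[ℚ] C, g * g' = g' * g) (a b : C ≃ₐ[K] C) :
    a * b = b * a := by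
  ext x
  have h1 := hc (a.restrictScalars ℚ) (b.restrictScalars ℚ)
  exact congrArg (fun u : C ≃ₐ[ℚ] C => u x) h1

theorem ctl_C (H : Hyp ℓ p i K L C Bad h gJ gt η J t hV hLC hKC T₀) {f : Coch L V'}
    (hf : IsCocycle L V' f) (hl : IsLocTriv L V' f) (hℓf : ∀ σ, ℓ • f σ = 0)
    (g : AlgebraicClosure C ≃ₐ[K] AlgebraicClosure C) :
    ∃ T : (VC.baseChange (AlgebraicClosure C)).toAffine.Point, ℓ • T = 0 ∧
      ∀ τ : AlgebraicClosure C ≃ₐ[L] AlgebraicClosure C,
        Pool.Agent.H10.act (inv_up hKC) g (trans (jj L C) (map_jj hLC) f (cj g τ)) =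
          trans (jj L C) (map_jj hLC) f τ +
            (Pool.Agent.H10.act (inv_up hLC) τ T - T) := by
  have hnL : (fxS K L C).Normal := D9_normal K L C
  have hnC : (fxS K C C).Normal := D9_normal K C C
  have hle : fxS K C C ≤ fxS K L C := D9_le K L C
  have hηP : η ^ (p ^ i) ∈ fxS K C C := by
    intro x
    have h1 := D9_pow H.dat.lift_h (p ^ i) x
    rw [← H.dat.ord_h, pow_orderOf_eq_one] at h1
    rw [← H.dat.ord_h]
    exact h1
  have hfixT : ∀ s ∈ fxS K C C, ro hKC s (upP T₀) = upP T₀ := by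
    intro s hs
    change pm (s : AlgebraicClosure C →+* AlgebraicClosure C) _ (pm _ rfl T₀) = pm _ rfl T₀
    rw [pm_pm]
    exact pm_congr _ _ (fun x => hs x) T₀
  have hz : ∀ (g : AlgebraicClosure C ≃ₐ[K] AlgebraicClosure C),
      ro hKC g (upP T₀) = upP T₀ → ∀ X ∈ AddSubgroup.zmultiples (upP T₀), ro hKC g X = X := by
    intro g hg X hX
    obtain ⟨n, rfl⟩ := AddSubgroup.mem_zmultiples_iff.1 hX
    rw [map_zsmul, hg]
  have h0Δ : ∀ s ∈ fxS K C C, ∀ X ∈ AddSubgroup.zmultiples (upP T₀), ro hKC s X = X :=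
    fun s hs => hz s (hfixT s hs)
  have h0η : ∀ X ∈ AddSubgroup.zmultiples (upP T₀), ro hKC η X = X := hz η H.T_η
  have hF := exF_coc (K := K) (hLC := hLC) (hKC := hKC) hf
  have hℓF : ∀ σ, ℓ • exF K hLC f σ = 0 := by
    intro σ
    unfold exF
    split_ifs with hg
    · unfold Pool.Agent.H10.trans
      rw [← map_nsmul, hℓf, map_zero]
    · exact nsmul_zero ℓ
  obtain ⟨T₁, hT₁, hst⟩ := step1 H hf hl hℓf
  have hmk : ∀ s ∈ fxS K C C, ∃ σ : AlgebraicClosure C ≃ₐ[C] AlgebraicClosure C,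
      s = σ.restrictScalars K := fun s hs => ⟨mkA (L := C) s hs, rfl⟩
  have h1 : ∀ s ∈ fxS K C C, f3 (ro hKC) η (exF K hLC f) T₁ s ∈
      AddSubgroup.zmultiples (upP T₀) := by
    intro s hs
    obtain ⟨σ, rfl⟩ := hmk s hs
    obtain ⟨j, hj⟩ := hst σ
    rw [hj]
    exact AddSubgroup.nsmul_mem _ (AddSubgroup.mem_zmultiples _) j
  have hinC : ∀ σ : AlgebraicClosure C ≃ₐ[C] AlgebraicClosure C,
      σ.restrictScalars K ∈ fxS K C C := fun σ x => σ.commutes x
  have hinL : ∀ σ : AlgebraicClosure C ≃ₐ[L] AlgebraicClosure C,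
      σ.restrictScalars K ∈ fxS K L C := fun σ x => σ.commutes x
  have hpos : ∀ s : AlgebraicClosure C ≃ₐ[L] AlgebraicClosure C,
      Pool.Agent.H10.act (inv_up hLC) s (upP T₀) = -upP T₀ →
      ∀ X ∈ AddSubgroup.zmultiples (upP T₀), ro hKC (s.restrictScalars K) X ∈
        AddSubgroup.zmultiples (upP T₀) := by
    intro s hs X hX
    obtain ⟨n, rfl⟩ := AddSubgroup.mem_zmultiples_iff.1 hX
    have h2 : ro hKC (s.restrictScalars K) (upP T₀) = -upP T₀ := hs
    rw [map_zsmul, h2]
    exact AddSubgroup.zsmul_mem _ (AddSubgroup.neg_mem _ (AddSubgroup.mem_zmultiples _)) n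
  obtain ⟨hc1, hc2, -⟩ := fC_props (K := K) (hLC := hLC) (hKC := hKC) (η := η) hf hl hℓf T₁ hT₁
  have hJt : Pool.Agent.H10.act (inv_up hLC) (J * t) (upP T₀) = -upP T₀ := by
    rw [Pool.Agent.H10.act_mul, H.T_t, H.T_J]
  have hzero : ∀ σ : AlgebraicClosure C ≃ₐ[C] AlgebraicClosure C,
      f3 (ro hKC) η (exF K hLC f) T₁ (σ.restrictScalars K) = 0 := by
    refine a_trivial H hc1 hc2 hst (fun σ => ?_) (fun σ => ?_) (fun σ => ?_)
    · exact dsc_b (ro hKC) (fxS K L C) (fxS K C C) hle ℓ (p ^ i) η hηP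
        (AddSubgroup.zmultiples (upP T₀)) h0Δ h0η (inv_A0 H) (exF K hLC f) hF hℓF T₁ hT₁ h1
        (σ.restrictScalars K) (hinC σ)
    · exact dsc_a (ro hKC) (fxS K L C) (fxS K C C) hle ℓ η
        (AddSubgroup.zmultiples (upP T₀)) h0Δ (inv_A0 H) (exF K hLC f) hF hℓF T₁ hT₁ h1
        (J.restrictScalars K) (hinL J) (hpos J H.T_J) (σ.restrictScalars K) (hinC σ)
    · exact dsc_a (ro hKC) (fxS K L C) (fxS K C C) hle ℓ η
        (AddSubgroup.zmultiples (upP T₀)) h0Δ (inv_A0 H) (exF K hLC f) hF hℓF T₁ hT₁ h1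
        ((J * t).restrictScalars K) (hinL (J * t)) (hpos (J * t) hJt) (σ.restrictScalars K)
        (hinC σ)
  have hcop : Nat.Coprime ℓ (p ^ i) :=
    ((Nat.coprime_primes H.prime H.pprime).2 H.ne.symm).pow_right i
  obtain ⟨T, hT, hkey⟩ := dsc (ro hKC) (fxS K L C) (fxS K C C) hle ℓ (p ^ i) η hηP
    (AddSubgroup.zmultiples (upP T₀)) h0Δ h0η (inv_A0 H) (exF K hLC f) hF hℓF T₁ hT₁
    (fun g h => by
      rw [D9_ker, MonoidHom.mem_ker, map_mul, map_mul, map_mul, map_inv, map_inv, mul_assoc,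
        D9_comm H.dat.comm (AlgEquiv.restrictNormalHom C g)]
      group)
    hcop
    (fun g => by
      obtain ⟨j, l, hjl⟩ := H.dat.cov g
      exact ⟨j, l.restrictScalars K, hinL l, hjl⟩)
    (fun s hs => by
      obtain ⟨σ, rfl⟩ := hmk s hs
      exact hzero σ) g
  refine ⟨T, hT, fun τ => ?_⟩
  have hex : ∀ σ : AlgebraicClosure C ≃ₐ[L] AlgebraicClosure C,
      exF K hLC f (σ.restrictScalars K) = trans (jj L C) (map_jj hLC) f σ := by
    intro σ
    have h2 : ∀ x : L, σ.restrictScalars K (algebraMap L (AlgebraicClosure C) x) =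
      algebraMap L (AlgebraicClosure C) x := fun x => σ.commutes x
    unfold exF
    rw [dif_pos h2]
    rfl
  have h3 := hkey (τ.restrictScalars K) (hinL τ)
  have h4 : g⁻¹ * τ.restrictScalars K * g = (cj g τ).restrictScalars K := rfl
  rw [h4, hex, hex] at h3
  exact h3

theorem ctl_L (H : Hyp ℓ p i K L C Bad h gJ gt η J t hV hLC hKC T₀) :
    CTl K L ℓ V' (inv_up hV) := by
  intro f hf hl hℓf g
  let j := jj L C
  let g' : AlgebraicClosure C ≃ₐ[K] AlgebraicClosure C :=
    ((j.restrictScalars K).symm.trans g).trans (j.restrictScalars K)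
  have hg' : ∀ z, g' z = j (g (j.symm z)) := fun z => rfl
  obtain ⟨T', hT', hkey⟩ := ctl_C H hf hl hℓf g'
  refine ⟨pm (j.symm : AlgebraicClosure C →+* AlgebraicClosure L) (map_jj_symm hLC) T', ?_,
    fun τ => ?_⟩
  · rw [← map_nsmul, hT', map_zero]
  let τ' : AlgebraicClosure C ≃ₐ[L] AlgebraicClosure C := (j.symm.trans τ).trans j
  have hτ' : ∀ z, τ' z = j (τ (j.symm z)) := fun z => rfl
  have e1 : (j.trans τ').trans j.symm = τ := by
    refine AlgEquiv.ext fun y => ?_
    change j.symm (τ' (j y)) = τ y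
    rw [hτ', j.symm_apply_apply, j.symm_apply_apply]
  have e2 : (j.trans (cj g' τ')).trans j.symm = cj g τ := by
    refine AlgEquiv.ext fun y => ?_
    change j.symm (cj g' τ' (j y)) = cj g τ y
    rw [AlgEquiv.symm_apply_eq]
    apply g'.injective
    rw [apply_cj, hg' (j (cj g τ y)), j.symm_apply_apply, apply_cj, hg', j.symm_apply_apply, hτ',
      j.symm_apply_apply]
  have h1 := hkey τ'
  have e3 : trans (jj L C) (map_jj hLC) f (cj g' τ') =
      pm (j : AlgebraicClosure L →+* AlgebraicClosure C) (map_jj hLC) (f (cj g τ)) := by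
    rw [← e2]
    rfl
  have e4 : trans (jj L C) (map_jj hLC) f τ' =
      pm (j : AlgebraicClosure L →+* AlgebraicClosure C) (map_jj hLC) (f τ) := by
    conv_rhs => rw [← e1]
    rfl
  have e5 : pm (j : AlgebraicClosure L →+* AlgebraicClosure C) (map_jj hLC)
      (pm (j.symm : AlgebraicClosure C →+* AlgebraicClosure L) (map_jj_symm hLC) T') = T' := by
    rw [pm_pm]
    exact pm_eq_self _ (fun x => j.apply_symm_apply x) T'
  rw [e3, e4] at h1
  apply pm_injective (j : AlgebraicClosure L →+* AlgebraicClosure C) (map_jj hLC)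
  have e6 : pm (j : AlgebraicClosure L →+* AlgebraicClosure C) (map_jj hLC)
      (Pool.Agent.H10.act (inv_up hV) g (f (cj g τ))) =
      Pool.Agent.H10.act (inv_up hKC) g'
        (pm (j : AlgebraicClosure L →+* AlgebraicClosure C) (map_jj hLC) (f (cj g τ))) := by
    unfold Pool.Agent.H10.act
    rw [pm_pm, pm_pm]
    apply pm_congr
    intro x
    change j (g x) = j (g (j.symm (j x)))
    rw [j.symm_apply_apply]
  have e7 : pm (j : AlgebraicClosure L →+* AlgebraicClosure C) (map_jj hLC)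
      (Pool.Agent.H10.act (inv_bc L V') τ
        (pm (j.symm : AlgebraicClosure C →+* AlgebraicClosure L) (map_jj_symm hLC) T')) =
      Pool.Agent.H10.act (inv_up hLC) τ' T' := by
    unfold Pool.Agent.H10.act
    rw [pm_pm, pm_pm]
    apply pm_congr
    intro x
    rfl
  change pm (j : AlgebraicClosure L →+* AlgebraicClosure C) (map_jj hLC)
    (Pool.Agent.H10.act (inv_up hV) g (f (cj g τ))) = _
  rw [e6, h1, map_add, map_sub, e5, e7]

end H2T4
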