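import Pool.Agent.H10.Restr
import Pool.Agent.H10.Star
import Pool.Agent.H11.ConjSha
import Pool.Agent.H11.MW
import Pool.Agent.H2.T4.CDf

/-!
Block D (descent) of MP_78d38b_T4 (helper2; definitions, no row).
-/

set_option autoImplicit false
open scoped Classical Pointwise

open WeierstrassCurve IsDedekindDomain NumberField Pool.Agent.H10 Pool.Agent.H11 Finset

namespace H2T4

/-- properties of the Weil pairing with `T₀` -/
structure WP (ℓ : ℕ) {k : Type} [Field k] (W : WeierstrassCurve k) (T₀ : W.toAffine.Point)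
    (e : W.toAffine.Point → k) : Prop where
  pow : ∀ S, ℓ • S = 0 → e S ^ ℓ = 1
  mul : ∀ S S', ℓ • S = 0 → ℓ • S' = 0 → e (S + S') = e S * e S'
  surj : ∀ ζ : k, ζ ^ ℓ = 1 → ∃ S, ℓ • S = 0 ∧ e S = ζ
  ker : ∀ S, ℓ • S = 0 → (e S = 1 ↔ ∃ j : ℕ, S = j • T₀)
  pos : ∀ (σ : k →+* k) (h : W.map σ = W), pm σ h T₀ = T₀ → ∀ S, ℓ • S = 0 → e (pm σ h S) = σ (e S)
  neg : ∀ (σ : k →+* k) (h : W.map σ = W), pm σ h T₀ = -T₀ →
    ∀ S, ℓ • S = 0 → e (pm σ h S) * σ (e S) = 1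

/-- a rational point as a geometric point -/
noncomputable def upP {C : Type} [Field C] {VC : WeierstrassCurve C} (T₀ : VC.toAffine.Point) :
    (VC.baseChange (AlgebraicClosure C)).toAffine.Point :=
  pm (algebraMap C (AlgebraicClosure C)) rfl T₀

section

variable (K L : Type) [Field K] [NumberField K] [Field L] [NumberField L] [Algebra K L] [Normal K L]

/-- Conjugation does not change the classes of the locally trivial cocycles killed by `ℓ`. -/
def CTl (ℓ : ℕ) (V' : WeierstrassCurve L) (h : Inv K (V'.baseChange (AlgebraicClosure L))) : Prop :=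
  ∀ f : Coch L V', IsCocycle L V' f → IsLocTriv L V' f → (∀ σ, ℓ • f σ = 0) →
    ∀ g : AlgebraicClosure L ≃ₐ[K] AlgebraicClosure L, ∃ T, ℓ • T = 0 ∧
      ∀ τ, conj h g f τ = f τ + (Pool.Agent.H10.act (inv_bc L V') τ T - T)

end

/-- `f` represents an element of the `ℓ`-primary part of the Tate-Shafarevich group of `W`. -/
def IsShaPrim (ℓ : ℕ) (K : Type) [Field K] [NumberField K] (W : WeierstrassCurve K)
    (f : (AlgebraicClosure K ≃ₐ[K] AlgebraicClosure K) →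
      (W.baseChange (AlgebraicClosure K)).toAffine.Point) : Prop :=
  IsCocycle K W f ∧ IsLocTriv K W f ∧ ∃ m : ℕ, IsCobound K W (fun σ => (ℓ ^ m) • f σ)

/-- Restriction from `K` to `L` is a well defined bijection between the `ℓ`-primary parts of the
Tate-Shafarevich groups of `W` over `K` and over `L`. -/
def ShaPrimBijective (ℓ : ℕ) (K : Type) [Field K] [NumberField K] (W : WeierstrassCurve K)
    (L : Type) [Field L] [NumberField L] [Algebra K L] : Prop :=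
  ∀ j : AlgebraicClosure K →ₐ[K] AlgebraicClosure L,
    (∀ f, IsShaPrim ℓ K W f → ∃ g, IsRestriction K W L j f g ∧ IsShaPrim ℓ L (W.baseChange L) g ∧
      (IsCobound L (W.baseChange L) g → IsCobound K W f)) ∧
    (∀ g, IsShaPrim ℓ L (W.baseChange L) g → ∃ f g', IsShaPrim ℓ K W f ∧ IsRestriction K W L j f g' ∧
      IsCobound L (W.baseChange L) (fun τ => g τ - g' τ))

/-- the valuation is integral and good for the curve -/
def GoodV {F : Type} [Field F] (w : Valuation F (WithZero (Multiplicative ℤ)))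
    (W : WeierstrassCurve F) : Prop :=
  w W.a₁ ≤ 1 ∧ w W.a₂ ≤ 1 ∧ w W.a₃ ≤ 1 ∧ w W.a₄ ≤ 1 ∧ w W.a₆ ≤ 1 ∧ w W.Δ = 1

/-- zero or an affine point with integral `x`-coordinate -/
def IntX {F : Type} [Field F] (w : Valuation F (WithZero (Multiplicative ℤ))) {W : WeierstrassCurve F} :
    W.toAffine.Point → Prop
  | 0 => True
  | .some x _ _ => w x ≤ 1

/-- the place `w` of `C` is unramified in `N` (value groups) -/
def UnrAt {C : Type} [Field C] [NumberField C] (w : HeightOneSpectrum (𝓞 C)) (N : Type) [Field N]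
    [Algebra C N] : Prop :=
  ∃ V : ValuationSubring N, (∀ x : C, algebraMap C N x ∈ V ↔ w.valuation C x ≤ 1) ∧
    ∀ α : N, α ≠ 0 → ∃ c : C, c ≠ 0 ∧ α / algebraMap C N c ∈ V ∧ (α / algebraMap C N c)⁻¹ ∈ V

/-- Arithmetic data of a pair `K ⊆ L` inside a totally complex abelian field `C`; `h` generates the group `H` of order
`p ^ i`, `gJ` is complex conjugation, `gt` fixes `L` and `T₀`. `Bad` are the places of bad reduction. -/
structure Dat (ℓ p i : ℕ) (K L C : Type) [Field K] [NumberField K] [Field L] [NumberField L] [Field C]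
    [NumberField C] [Algebra K L] [Algebra L C] [Algebra K C] [IsScalarTower K L C]
    (Bad : HeightOneSpectrum (𝓞 C) → Prop) (h gJ gt : C ≃ₐ[ℚ] C)
    (η : AlgebraicClosure C ≃ₐ[K] AlgebraicClosure C)
    (J t : AlgebraicClosure C ≃ₐ[L] AlgebraicClosure C) : Prop where
  gal : IsGalois ℚ C
  comm : ∀ g g' : C ≃ₐ[ℚ] C, g * g' = g' * g
  cplx : ∀ w : InfinitePlace C, w.IsComplex
  mu : ∀ z : C, z ^ ℓ = 1 → z = 1
  ord_h : orderOf h = p ^ i
  ord_J : orderOf gJ = 2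
  ord_Jt : orderOf (gJ * gt) = 2
  lift_h : ∀ x : C, η (algebraMap C (AlgebraicClosure C) x) = algebraMap C (AlgebraicClosure C) (h x)
  lift_J : ∀ x : C, J (algebraMap C (AlgebraicClosure C) x) = algebraMap C (AlgebraicClosure C) (gJ x)
  lift_t : ∀ x : C, t (algebraMap C (AlgebraicClosure C) x) = algebraMap C (AlgebraicClosure C) (gt x)
  zeta_h : ∀ ζ : AlgebraicClosure C, ζ ^ ℓ = 1 → η ζ = ζ
  zeta_J : ∀ ζ : AlgebraicClosure C, ζ ^ ℓ = 1 → J ζ = ζ⁻¹
  cov : ∀ g : AlgebraicClosure C ≃ₐ[K] AlgebraicClosure C, ∃ (j : ℕ)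
    (l : AlgebraicClosure C ≃ₐ[L] AlgebraicClosure C), g = η ^ j * l.restrictScalars K
  fix : ∀ w : HeightOneSpectrum (𝓞 C), (Bad w ∨ (ℓ : 𝓞 C) ∈ w.asIdeal) → ∀ x : C,
    w.valuation C (h x) = w.valuation C x
  bad_ℓ : ∀ w : HeightOneSpectrum (𝓞 C), Bad w → (ℓ : 𝓞 C) ∉ w.asIdeal
  fix₁ : ∀ (ζ : AlgebraicClosure C), IsPrimitiveRoot ζ ℓ →
    ∀ [NumberField (IntermediateField.adjoin C {ζ})] (h₁ : IntermediateField.adjoin C {ζ} ≃ₐ[ℚ] IntermediateField.adjoin C {ζ}),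
    (∀ x : IntermediateField.adjoin C {ζ}, η (x : AlgebraicClosure C) = (h₁ x : AlgebraicClosure C)) →
    ∀ (w : HeightOneSpectrum (𝓞 C)) (w' : HeightOneSpectrum (𝓞 (IntermediateField.adjoin C {ζ}))),
    Bad w → w'.asIdeal.comap (algebraMap (𝓞 C) (𝓞 (IntermediateField.adjoin C {ζ}))) = w.asIdeal →
    ∀ x, w'.valuation (IntermediateField.adjoin C {ζ}) (h₁ x) =
      w'.valuation (IntermediateField.adjoin C {ζ}) x
  nne : ∀ e : C, e ≠ 0 → (∀ w : HeightOneSpectrum (𝓞 C), (ℓ : ℤ) ∣ WithZero.log (w.valuation C e)) →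
    (∃ y, ∏ j ∈ range (p ^ i), (h ^ j) e = y ^ ℓ) → (∃ y, e * gJ e = y ^ ℓ) →
    (∃ y, gt e = e * y ^ ℓ) → ∃ y, e = y ^ ℓ
  nnt : ∀ T : Subgroup (ClassGroup (𝓞 C)),
    (∀ (s : C ≃ₐ[ℚ] C) (I : Ideal (𝓞 C)), I ≠ ⊥ → icl I ∈ T → icl (s • I) ∈ T) →
    (∀ c, c ^ ℓ ∈ T) →
    (∀ g ∈ ({h, gJ, gJ * gt} : Set (C ≃ₐ[ℚ] C)), ∀ I : Ideal (𝓞 C), I ≠ ⊥ →
      icl (∏ j ∈ range (orderOf g), g ^ j • I) ∈ T) → T = ⊤

end H2T4
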