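import Pool.Agent.H2.T4.DDf
import Pool.Agent.H2.T4.D1
import Pool.Agent.H2.T4.PZ

/-!
Block D of MP_78d38b_T4 (helper2; definitions, no row): the descent over the closure of `C`.
-/

set_option autoImplicit false
open scoped Classical

open WeierstrassCurve IsDedekindDomain NumberField Pool.Agent.H10 Pool.Agent.H11 Finset

namespace H2T4

section

variable {K L C : Type} [Field K] [NumberField K] [Field L] [NumberField L] [Field C] [NumberField C]
  [Algebra K L] [Algebra L C] [Algebra K C] [IsScalarTower K L C]
  {V : WeierstrassCurve K} {V' : WeierstrassCurve L} {VC : WeierstrassCurve C}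

/-- an automorphism over `K` which fixes `L` as an automorphism over `L` -/
noncomputable def mkA (g : AlgebraicClosure C ≃ₐ[K] AlgebraicClosure C)
    (hg : ∀ x : L, g (algebraMap L (AlgebraicClosure C) x) = algebraMap L (AlgebraicClosure C) x) :
    AlgebraicClosure C ≃ₐ[L] AlgebraicClosure C :=
  { g with commutes' := hg }

/-- the cochain `f` transported to the closure of `C`, extended by zero to the automorphisms over `K` -/
noncomputable def exF (K : Type) [Field K] [NumberField K] [Algebra K L] [Algebra K C]
    [IsScalarTower K L C] (hLC : V'.map (algebraMap L C) = VC) (f : Coch L V')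
    (g : AlgebraicClosure C ≃ₐ[K] AlgebraicClosure C) :
    (VC.baseChange (AlgebraicClosure C)).toAffine.Point :=
  if hg : ∀ x : L, g (algebraMap L (AlgebraicClosure C) x) = algebraMap L (AlgebraicClosure C) x then
    trans (jj L C) (map_jj hLC) f (mkA g hg) else 0

/-- the action of the automorphisms over `K` on the geometric points -/
noncomputable def ro (hKC : V.map (algebraMap K C) = VC) :
    (AlgebraicClosure C ≃ₐ[K] AlgebraicClosure C) →*
      AddMonoid.End (VC.baseChange (AlgebraicClosure C)).toAffine.Point where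
  toFun g := Pool.Agent.H10.act (inv_up hKC) g
  map_one' := by
    ext P
    exact Pool.Agent.H10.act_one _ P
  map_mul' g h := by
    ext P
    exact Pool.Agent.H10.act_mul _ g h P

/-- the automorphisms over `K` which fix the subfield `L` -/
def fxS (K L C : Type) [Field K] [NumberField K] [Field L] [NumberField L] [Field C] [NumberField C]
    [Algebra K L] [Algebra L C] [Algebra K C] [IsScalarTower K L C] :
    Subgroup (AlgebraicClosure C ≃ₐ[K] AlgebraicClosure C) where
  carrier := {g | ∀ x : L, g (algebraMap L (AlgebraicClosure C) x) = algebraMap L (AlgebraicClosure C) x}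
  mul_mem' := fun {a b} ha hb x => by
    change a (b _) = _
    rw [hb x, ha x]
  one_mem' := fun x => rfl
  inv_mem' := fun {a} ha x => by
    change a⁻¹ _ = _
    conv_lhs => rw [← ha x]
    exact a.symm_apply_apply _

end

/-- the hypotheses of the descent -/
structure Hyp (ℓ p i : ℕ) (K L C : Type) [Field K] [NumberField K] [Field L] [NumberField L] [Field C]
    [NumberField C] [Algebra K L] [Algebra L C] [Algebra K C] [IsScalarTower K L C]
    (Bad : HeightOneSpectrum (𝓞 C) → Prop) (h gJ gt : C ≃ₐ[ℚ] C)
    (η : AlgebraicClosure C ≃ₐ[K] AlgebraicClosure C)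
    (J t : AlgebraicClosure C ≃ₐ[L] AlgebraicClosure C)
    {V : WeierstrassCurve K} {V' : WeierstrassCurve L} {VC : WeierstrassCurve C}
    (hV : V.map (algebraMap K L) = V') (hLC : V'.map (algebraMap L C) = VC)
    (hKC : V.map (algebraMap K C) = VC) (T₀ : VC.toAffine.Point) : Prop where
  dat : Dat ℓ p i K L C Bad h gJ gt η J t
  prime : ℓ.Prime
  three : 3 ≤ ℓ
  pprime : p.Prime
  ne : p ≠ ℓ
  ell : VC.IsElliptic
  T_ne : T₀ ≠ 0
  T_ord : ℓ • T₀ = 0
  T_η : Pool.Agent.H10.act (inv_up hKC) η (upP T₀) = upP T₀
  T_J : Pool.Agent.H10.act (inv_up hLC) J (upP T₀) = -upP T₀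
  T_t : Pool.Agent.H10.act (inv_up hLC) t (upP T₀) = upP T₀
  good : ∀ w : HeightOneSpectrum (𝓞 C), ¬ Bad w →
    GoodV (w.valuation C) VC ∧ IntX (w.valuation C) T₀

end H2T4
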