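import Pool.Agent.H2.T4.DDf
import Pool.Agent.H10.Iso3

/-!
Row Dres (about 220 lines): ℓ-torsion classes of Sha over L come from K, and points over L are points over K plus multiples of ℓ.

PROOF. prime_up: adapt the PROVED file Pool/Agent/H55/T3/Res.lean (three_up): 3 replaced by ℓ (smul_surjective with n = ℓ); the integers u, v with u * finrank K L = 1 + v * ℓ come from Nat.Coprime (ℓ prime, not dividing finrank): Nat.exists_mul_emod_eq_one_of_coprime or Int Bezout.
 mw_upl: adapt the PROVED file Pool/Agent/H55/T3/Mw.lean (mw_up3) in the same way; the last step: u finrank = 1 + v ℓ, P = u • (n • P) - ℓ • (v • P), pm Q = n • P + ℓ • B, so P = pm (u • Q) + ℓ • (- u • B - v • P).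
-/

set_option autoImplicit false
open scoped Classical

open WeierstrassCurve IsDedekindDomain NumberField Pool.Agent.H10 Pool.Agent.H11

namespace H2T4

variable {K L : Type} [Field K] [NumberField K] [Field L] [NumberField L] [Algebra K L]
  [IsGalois K L] {V : WeierstrassCurve K} {V' : WeierstrassCurve L}

private theorem bez {ℓ n : ℕ} (hℓ : ℓ.Prime) (hn : ¬ ℓ ∣ n) : ∃ u v : ℕ, u * n = 1 + v * ℓ := by
  have hc : Nat.Coprime n ℓ := ((Nat.Prime.coprime_iff_not_dvd hℓ).2 hn).symm
  obtain ⟨m, -, hm⟩ := Nat.exists_mul_mod_eq_one_of_coprime hc hℓ.one_lt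
  refine ⟨m, n * m / ℓ, ?_⟩
  have h1 := Nat.div_add_mod (n * m) ℓ
  rw [hm] at h1
  rw [mul_comm m n]
  linarith [mul_comm ℓ (n * m / ℓ)]

theorem prime_up {ℓ : ℕ} (hℓ : ℓ.Prime) (hn : ¬ ℓ ∣ Module.finrank K L) (hE : V'.IsElliptic)
    (hV : V.map (algebraMap K L) = V') (H : CTl K L ℓ V' (inv_up hV))
    (c : Sha L V') (hc : ℓ • c = 0) : ∃ e : Sha K V, ℓ • e = 0 ∧ Sha.res hV e = c := by
  obtain ⟨F, rfl⟩ := Sha.mk_surjective c
  have hc' : Sha.mk (ℓ • F) = 0 := by rw [Sha.mk_nsmul]; exact hc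
  rw [Sha.mk_eq_zero, Pool.Agent.H10.isCobound_iff] at hc'
  obtain ⟨Q', hQ'⟩ := hc'
  have hell : (V'.baseChange (AlgebraicClosure L)).IsElliptic :=
    inferInstanceAs (V'.map (algebraMap L (AlgebraicClosure L))).IsElliptic
  obtain ⟨Q, hQ⟩ := smul_surjective (V'.baseChange (AlgebraicClosure L)) ℓ hℓ.ne_zero Q'
  have hcob : (fun τ => act (inv_bc L V') τ Q - Q) ∈ ShaZ L V' := by
    apply shaB_le
    change IsCobound L V' _
    rw [Pool.Agent.H10.isCobound_iff]
    exact ⟨Q, fun σ => rfl⟩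
  let G : ShaZ L V' := ⟨fun τ => act (inv_bc L V') τ Q - Q, hcob⟩
  let f : ShaZ L V' := F - G
  have hfτ : ∀ τ, f.1 τ = F.1 τ - (act (inv_bc L V') τ Q - Q) := fun τ => rfl
  have hf3 : ∀ τ, ℓ • f.1 τ = 0 := by
    intro τ
    have h1 : (ℓ • F : ShaZ L V').1 τ = ℓ • F.1 τ := rfl
    have h2 := hQ' τ
    rw [h1] at h2
    rw [hfτ, nsmul_sub, nsmul_sub, h2, ← map_nsmul, hQ, sub_self]
  have hmk : Sha.mk F = Sha.mk f := mk_eq_of_cob Q fun τ => by
    rw [hfτ]
    abel
  have hact : ∀ σ : L ≃ₐ[K] L, actS hV σ (Sha.mk F) = Sha.mk F := by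
    intro σ
    rw [hmk]
    obtain ⟨T, -, hT⟩ := H f.1 f.2.1 f.2.2 hf3 (lf σ)
    exact mk_eq_of_cob T fun τ => hT τ
  have hrc := res_cor hV (Sha.mk F)
  simp only [hact, Finset.sum_const, Finset.card_univ] at hrc
  have hcard : Fintype.card (L ≃ₐ[K] L) = Module.finrank K L := by
    rw [← Nat.card_eq_fintype_card]
    exact IsGalois.card_aut_eq_finrank K L
  rw [hcard] at hrc
  obtain ⟨u, v, huv⟩ := bez hℓ hn
  refine ⟨u • Sha.cor hV (Sha.mk F), ?_, ?_⟩
  · rw [smul_comm, ← map_nsmul, hc, map_zero, smul_zero]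
  · rw [map_nsmul, hrc, smul_smul, huv, add_smul, one_smul, mul_smul, hc, smul_zero, add_zero]

theorem mw_upl {ℓ : ℕ} (hℓ : ℓ.Prime) (hn : ¬ ℓ ∣ Module.finrank K L) (hE : V'.IsElliptic)
    (hV : V.map (algebraMap K L) = V') (H : CTl K L ℓ V' (inv_up hV))
    (P : V'.toAffine.Point) : ∃ (Q : V.toAffine.Point) (R : V'.toAffine.Point),
      P = pm (algebraMap K L) hV Q + ℓ • R := by
  have hL : V'.map (algebraMap L (AlgebraicClosure L)) = V'.baseChange (AlgebraicClosure L) := rfl
  have hK : V.map (algebraMap K (AlgebraicClosure L)) = V'.baseChange (AlgebraicClosure L) :=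
    map_up hV
  have hEE : (V'.baseChange (AlgebraicClosure L)).IsElliptic := by
    have := hE
    infer_instance
  obtain ⟨R', hR'⟩ := smul_surjective (V'.baseChange (AlgebraicClosure L)) ℓ hℓ.ne_zero
    (pm (algebraMap L (AlgebraicClosure L)) hL P)
  set iL := inv_bc (Ω := AlgebraicClosure L) L V' with hiL
  set iK := inv_up hV with hiK
  have hPinv : ∀ τ, act iL τ (pm (algebraMap L (AlgebraicClosure L)) hL P) =
      pm (algebraMap L (AlgebraicClosure L)) hL P := by
    intro τ
    unfold Pool.Agent.H10.act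
    rw [pm_pm]
    exact pm_congr _ _ (fun x => τ.commutes x) _
  let f : Coch L V' := fun τ => act iL τ R' - R'
  have hf3 : ∀ τ, ℓ • f τ = 0 := by
    intro τ
    have h1 := hPinv τ
    rw [← hR', map_nsmul] at h1
    calc ℓ • f τ = ℓ • act iL τ R' - ℓ • R' := nsmul_sub _ _ _
      _ = 0 := by rw [h1, sub_self]
  have hcob : IsCobound L V' f := (Pool.Agent.H10.isCobound_iff _).mpr ⟨R', fun σ => rfl⟩
  have hZ : f ∈ ShaZ L V' := shaB_le L V' hcob
  -- the effect of the automorphisms over K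
  have hg : ∀ g : AlgebraicClosure L ≃ₐ[K] AlgebraicClosure L,
      ∃ (S : (V'.baseChange (AlgebraicClosure L)).toAffine.Point) (A : V'.toAffine.Point),
        ℓ • S = 0 ∧ act iK g R' = R' + S + pm (algebraMap L (AlgebraicClosure L)) hL A := by
    intro g
    obtain ⟨S, hS, hS'⟩ := H f hZ.1 hZ.2 hf3 g
    obtain ⟨A, hA⟩ := pm_descent (V := V') hL iL (act iK g R' - S - R') (by
      intro τ
      have e1 : conj iK g f τ = act iL τ (act iK g R') - act iK g R' := by
        change act iK g (act iL (cj g τ) R' - R') = _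
        rw [map_sub]
        exact congrArg (fun Z => Z - act iK g R') (act_cj iK g τ R')
      have e2 := hS' τ
      rw [e1] at e2
      have e3 : f τ = act iL τ R' - R' := rfl
      rw [e3] at e2
      rw [map_sub, map_sub]
      have e4 : act iL τ (act iK g R') =
          act iL τ R' - R' + (act iL τ S - S) + act iK g R' := by
        rw [← e2]
        abel
      rw [e4]
      abel)
    refine ⟨S, A, hS, ?_⟩
    rw [hA]
    abel
  choose S A hS hSA using hg
  obtain ⟨R₀, hR₀⟩ : ∃ R₀, R₀ = ∑ φ : L →ₐ[K] AlgebraicClosure L, act iK (lft φ) R' := ⟨_, rfl⟩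
  have hact : ∀ σ : AlgebraicClosure L ≃ₐ[K] AlgebraicClosure L,
      ∃ W : (V'.baseChange (AlgebraicClosure L)).toAffine.Point,
        ℓ • W = 0 ∧ act iK σ R₀ = R₀ + W := by
    intro σ
    refine ⟨∑ φ : L →ₐ[K] AlgebraicClosure L, act iK (lft (mv σ φ)) (f (hh σ φ)), ?_, ?_⟩
    · rw [Finset.smul_sum]
      apply Finset.sum_eq_zero
      intro φ _
      rw [← map_nsmul, hf3, map_zero]
    · have e1 : ∀ φ : L →ₐ[K] AlgebraicClosure L, act iK σ (act iK (lft φ) R') =
          act iK (lft (mv σ φ)) R' + act iK (lft (mv σ φ)) (f (hh σ φ)) := by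
        intro φ
        have e2 : σ * lft φ = lft (mv σ φ) * (hh σ φ).restrictScalars K := by
          apply AlgEquiv.ext
          intro x
          exact (lft_hh σ φ x).symm
        have e3 : act iK ((hh σ φ).restrictScalars K) R' = R' + f (hh σ φ) := by
          have e4 : act iK ((hh σ φ).restrictScalars K) R' = act iL (hh σ φ) R' := rfl
          rw [e4]
          have e5 : f (hh σ φ) = act iL (hh σ φ) R' - R' := rfl
          rw [e5]
          abel
        rw [← Pool.Agent.H10.act_mul, e2, Pool.Agent.H10.act_mul, e3, map_add]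
      rw [hR₀, map_sum]
      rw [Finset.sum_congr rfl (fun φ _ => e1 φ), Finset.sum_add_distrib]
      congr 1
      exact sum_mv σ (fun φ => act iK (lft φ) R')
  obtain ⟨Q, hQ⟩ := pm_descent (V := V) hK iK (ℓ • R₀) (by
    intro σ
    obtain ⟨W, hW, hW'⟩ := hact σ
    rw [map_nsmul, hW', smul_add, hW, add_zero])
  obtain ⟨B, hB⟩ : ∃ B, B = ∑ φ : L →ₐ[K] AlgebraicClosure L, A (lft φ) := ⟨_, rfl⟩
  have hR0 : ℓ • R₀ = pm (algebraMap L (AlgebraicClosure L)) hL
      (Module.finrank K L • P + ℓ • B) := by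
    have e1 : R₀ = ∑ φ : L →ₐ[K] AlgebraicClosure L,
        (R' + S (lft φ) + pm (algebraMap L (AlgebraicClosure L)) hL (A (lft φ))) := by
      rw [hR₀]
      exact Finset.sum_congr rfl (fun φ _ => hSA (lft φ))
    have e2 : ℓ • R₀ = ∑ φ : L →ₐ[K] AlgebraicClosure L,
        (pm (algebraMap L (AlgebraicClosure L)) hL (P + ℓ • A (lft φ))) := by
      rw [e1, Finset.smul_sum]
      apply Finset.sum_congr rfl
      intro φ _
      rw [map_add, ← hR', map_nsmul, smul_add, smul_add, hS, add_zero]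
    rw [e2, ← map_sum, Finset.sum_add_distrib, ← Finset.smul_sum, ← hB, Finset.sum_const,
      Finset.card_univ, AlgHom.card]
  have hfin : pm (algebraMap K L) hV Q = Module.finrank K L • P + ℓ • B := by
    apply pm_injective (algebraMap L (AlgebraicClosure L)) hL
    rw [← hR0, ← hQ, pm_pm]
    apply pm_congr
    intro x
    exact (IsScalarTower.algebraMap_apply K L (AlgebraicClosure L) x).symm
  obtain ⟨u, v, huv⟩ := bez hℓ hn
  refine ⟨u • Q, -(u • B) - v • P, ?_⟩
  have h1 : u • Module.finrank K L • P = P + (v * ℓ) • P := by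
    rw [smul_smul, huv, add_smul, one_smul]
  rw [map_nsmul, hfin, smul_add, h1]
  module

end H2T4
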