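import Mathlib

/-!
Row FA1 (about 110 lines): partial summation. Mathlib only.

PROOF. s in (1, 2], 0 < δ ≤ 1. Let A(t) = ∑ k ∈ Icc 1 ⌊t⌋₊, a k. `LSeries_eq_mul_integral` (Mathlib.NumberTheory.LSeries.SumCoeff; hypotheses: A(n) = O(n^1), LSeriesSummable which follows from hsum) gives
 ∑' k, a k k^(-s) = s ∫_(1,∞) A(t) t^(-(s+1)) dt. Write A(t) = κ t + E(t), |E(t)| ≤ (D + ‖κ‖) t^(1-δ) for t ≥ 1 (floor: |κ t - κ ⌊t⌋| ≤ ‖κ‖, ⌊t⌋^(1-δ) ≤ t^(1-δ)).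
 ∫_(1,∞) κ t t^(-(s+1)) dt = κ/(s-1), so the sum is s κ/(s-1) + s ∫ E(t) t^(-(s+1)) dt = κ/(s-1) + κ + s ∫..., and ‖s ∫ E(t) t^(-(s+1))‖ ≤ 2 (D + ‖κ‖) ∫_(1,∞) t^(-δ-s) dt ≤ 2 (D + ‖κ‖)/δ
 (δ + s - 1 ≥ δ). So B := ‖κ‖ + 2 (D + ‖κ‖)/δ. (integral of rpow over Ioi: integral_Ioi_rpow_of_lt.)
 Direct summation by parts over k instead of integrals is also fine.
-/

set_option autoImplicit false
open scoped Classical

namespace H2T4

private lemma FA1_term (a : ℕ → ℂ) (s : ℝ) (k : ℕ) :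
    LSeries.term a (s : ℂ) k = if k = 0 then 0 else a k * (((k : ℝ) ^ (-s) : ℝ) : ℂ) := by
  rw [LSeries.term_def]
  split_ifs with h
  · rfl
  · rw [div_eq_mul_inv, ← Complex.cpow_neg, Complex.ofReal_cpow (Nat.cast_nonneg k),
      Complex.ofReal_natCast, Complex.ofReal_neg]

private lemma FA1_norm (a : ℕ → ℂ) (s : ℝ) (k : ℕ) :
    ‖LSeries.term a (s : ℂ) k‖ ≤ ‖a k‖ * (k : ℝ) ^ (-s) := by
  rw [FA1_term]
  split_ifs with h
  · rw [norm_zero]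
    positivity
  · rw [norm_mul, Complex.norm_real, Real.norm_of_nonneg (by positivity)]

theorem abel_bound (a : ℕ → ℂ) (κ : ℂ) (D δ : ℝ) (hδ : 0 < δ) (hδ1 : δ ≤ 1)
    (hsum : ∀ s : ℝ, 1 < s → Summable fun k : ℕ => ‖a k‖ * (k : ℝ) ^ (-s))
    (hA : ∀ n : ℕ, 1 ≤ n → ‖(∑ k ∈ Finset.Icc 1 n, a k) - κ * n‖ ≤ D * (n : ℝ) ^ (1 - δ)) :
    ∃ B : ℝ, ∀ s : ℝ, 1 < s → s ≤ 2 →
      ‖(∑' k : ℕ, if k = 0 then 0 else a k * (((k : ℝ) ^ (-s) : ℝ) : ℂ)) - κ / (s - 1)‖ ≤ B := by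
  have hD : 0 ≤ D := by
    have h1 := (norm_nonneg _).trans (hA 1 le_rfl)
    rw [Nat.cast_one, Real.one_rpow, mul_one] at h1
    exact h1
  have hC0 : 0 ≤ D + ‖κ‖ := by positivity
  -- the error term
  have hE : ∀ t : ℝ, 1 ≤ t →
      ‖(∑ k ∈ Finset.Icc 1 ⌊t⌋₊, a k) - κ * t‖ ≤ (D + ‖κ‖) * t ^ (1 - δ) := by
    intro t ht
    have hn1 : 1 ≤ ⌊t⌋₊ := Nat.le_floor (by rw [Nat.cast_one]; exact ht)
    have ht0 : 0 ≤ t := by linarith
    have h1 : (⌊t⌋₊ : ℝ) ≤ t := Nat.floor_le ht0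
    have h2 : t < ⌊t⌋₊ + 1 := Nat.lt_floor_add_one t
    have h3 : (⌊t⌋₊ : ℝ) ^ (1 - δ) ≤ t ^ (1 - δ) :=
      Real.rpow_le_rpow (Nat.cast_nonneg _) h1 (by linarith)
    have h4 : 1 ≤ t ^ (1 - δ) := Real.one_le_rpow ht (by linarith)
    have h5 : (∑ k ∈ Finset.Icc 1 ⌊t⌋₊, a k) - κ * t =
        ((∑ k ∈ Finset.Icc 1 ⌊t⌋₊, a k) - κ * ⌊t⌋₊) + κ * (((⌊t⌋₊ : ℝ) - t : ℝ) : ℂ) := by
      push_cast
      ring
    rw [h5]
    refine (norm_add_le _ _).trans ?_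
    rw [add_mul]
    refine add_le_add ((hA _ hn1).trans (mul_le_mul_of_nonneg_left h3 hD)) ?_
    rw [norm_mul, Complex.norm_real, Real.norm_eq_abs]
    have h6 : |(⌊t⌋₊ : ℝ) - t| ≤ 1 := by
      rw [abs_le]
      constructor <;> linarith
    calc ‖κ‖ * |(⌊t⌋₊ : ℝ) - t| ≤ ‖κ‖ * 1 := mul_le_mul_of_nonneg_left h6 (norm_nonneg _)
      _ ≤ ‖κ‖ * t ^ (1 - δ) := mul_le_mul_of_nonneg_left h4 (norm_nonneg _)
  refine ⟨‖κ‖ + 2 * ((D + ‖κ‖) / δ), fun s hs hs2 => ?_⟩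
  have hs0 : (s : ℂ) - 1 ≠ 0 := by
    have h1 : s - 1 ≠ 0 := by linarith
    exact_mod_cast h1
  have hLs : LSeriesSummable a (s : ℂ) :=
    Summable.of_norm_bounded (hsum s hs) (FA1_norm a s)
  have hO : (fun n : ℕ => ∑ k ∈ Finset.Icc 1 n, a k) =O[Filter.atTop]
      fun n : ℕ => (n : ℝ) ^ (1 : ℝ) := by
    refine Asymptotics.IsBigO.of_bound (D + ‖κ‖ + ‖κ‖) ?_
    filter_upwards [Filter.eventually_ge_atTop 1] with n hn
    have hn1 : (1 : ℝ) ≤ n := by exact_mod_cast hn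
    rw [Real.rpow_one, Real.norm_of_nonneg (Nat.cast_nonneg n)]
    have h1 := hE n hn1
    rw [Nat.floor_natCast] at h1
    have h2 : (n : ℝ) ^ (1 - δ) ≤ n := by
      calc (n : ℝ) ^ (1 - δ) ≤ (n : ℝ) ^ (1 : ℝ) :=
            Real.rpow_le_rpow_of_exponent_le hn1 (by linarith)
        _ = n := Real.rpow_one _
    have h3 : (∑ k ∈ Finset.Icc 1 n, a k) =
        ((∑ k ∈ Finset.Icc 1 n, a k) - κ * ((n : ℝ) : ℂ)) + κ * ((n : ℝ) : ℂ) := by ring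
    rw [h3]
    refine (norm_add_le _ _).trans ?_
    rw [add_mul (D + ‖κ‖), norm_mul, Complex.norm_real, Real.norm_of_nonneg (Nat.cast_nonneg n)]
    exact add_le_add (h1.trans (mul_le_mul_of_nonneg_left h2 hC0)) le_rfl
  have hrep := LSeries_eq_mul_integral a (r := 1) zero_le_one (s := (s : ℂ))
    (by rwa [Complex.ofReal_re]) hLs hO
  have htsum : (∑' k : ℕ, if k = 0 then 0 else a k * (((k : ℝ) ^ (-s) : ℝ) : ℂ)) =
      LSeries a (s : ℂ) := by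
    unfold LSeries
    exact tsum_congr fun k => (FA1_term a s k).symm
  -- measurability
  have hSm : Measurable (fun t : ℝ => ∑ k ∈ Finset.Icc 1 ⌊t⌋₊, a k) :=
    (measurable_from_nat (f := fun n => ∑ k ∈ Finset.Icc 1 n, a k)).comp Nat.measurable_floor
  have hpm : Measurable (fun t : ℝ => (t : ℂ) ^ (-((s : ℂ) + 1))) :=
    Complex.measurable_ofReal.pow_const _
  -- the integrand
  have hpow : ∀ t : ℝ, 0 < t → (t : ℂ) ^ (-((s : ℂ) + 1)) = ((t ^ (-(s + 1)) : ℝ) : ℂ) := by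
    intro t ht
    rw [Complex.ofReal_cpow ht.le]
    push_cast
    rfl
  have hbd : ∀ t ∈ Set.Ioi (1 : ℝ),
      ‖((∑ k ∈ Finset.Icc 1 ⌊t⌋₊, a k) - κ * t) * (t : ℂ) ^ (-((s : ℂ) + 1))‖ ≤
        (D + ‖κ‖) * t ^ (-δ - s) := by
    intro t ht
    have ht1 : 1 < t := ht
    have ht0 : 0 < t := by linarith
    rw [norm_mul, hpow t ht0, Complex.norm_real, Real.norm_of_nonneg (by positivity)]
    have h1 : t ^ (-δ - s) = t ^ (1 - δ) * t ^ (-(s + 1)) := by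
      rw [← Real.rpow_add ht0]
      congr 1
      ring
    rw [h1, ← mul_assoc]
    exact mul_le_mul_of_nonneg_right (hE t ht1.le) (by positivity)
  have hint0 : MeasureTheory.IntegrableOn (fun t : ℝ => (D + ‖κ‖) * t ^ (-δ - s)) (Set.Ioi 1) :=
    (integrableOn_Ioi_rpow_of_lt (by linarith) zero_lt_one).const_mul _
  have hint1 : MeasureTheory.IntegrableOn
      (fun t : ℝ => ((∑ k ∈ Finset.Icc 1 ⌊t⌋₊, a k) - κ * t) * (t : ℂ) ^ (-((s : ℂ) + 1)))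
      (Set.Ioi 1) := by
    refine MeasureTheory.Integrable.mono' hint0 ?_ ?_
    · exact ((hSm.sub (Complex.measurable_ofReal.const_mul κ)).mul hpm).aestronglyMeasurable
    · exact (MeasureTheory.ae_restrict_iff' measurableSet_Ioi).mpr (Filter.Eventually.of_forall hbd)
  have hint2 : MeasureTheory.IntegrableOn (fun t : ℝ => κ * (t : ℂ) ^ (-(s : ℂ))) (Set.Ioi 1) :=
    (integrableOn_Ioi_cpow_of_lt
      (by rw [Complex.neg_re, Complex.ofReal_re]; linarith) zero_lt_one).const_mul _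
  have hsplit : ∫ t in Set.Ioi (1 : ℝ), (∑ k ∈ Finset.Icc 1 ⌊t⌋₊, a k) * (t : ℂ) ^ (-((s : ℂ) + 1)) =
      (∫ t in Set.Ioi (1 : ℝ), ((∑ k ∈ Finset.Icc 1 ⌊t⌋₊, a k) - κ * t) *
        (t : ℂ) ^ (-((s : ℂ) + 1))) + κ * (1 / (s - 1)) := by
    have h1 : ∫ t in Set.Ioi (1 : ℝ), κ * (t : ℂ) ^ (-(s : ℂ)) = κ * (1 / (s - 1)) := by
      rw [MeasureTheory.integral_const_mul, integral_Ioi_cpow_of_lt
        (by rw [Complex.neg_re, Complex.ofReal_re]; linarith) zero_lt_one, Complex.ofReal_one,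
        Complex.one_cpow]
      have h2 : -(s : ℂ) + 1 = -(s - 1) := by ring
      rw [h2, neg_div_neg_eq]
    rw [← h1, ← MeasureTheory.integral_add hint1 hint2]
    refine MeasureTheory.setIntegral_congr_fun measurableSet_Ioi fun t ht => ?_
    have ht1 : (1 : ℝ) < t := ht
    have ht0 : (t : ℂ) ≠ 0 := by
      have : t ≠ 0 := by linarith
      exact_mod_cast this
    have h3 : (t : ℂ) ^ (-(s : ℂ)) = t * (t : ℂ) ^ (-((s : ℂ) + 1)) := by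
      have h4 : -((s : ℂ) + 1) = -(s : ℂ) - 1 := by ring
      rw [h4, Complex.cpow_sub _ _ ht0, Complex.cpow_one]
      field_simp
    simp only [h3]
    ring
  rw [htsum, hrep, hsplit]
  have hnorm : ‖∫ t in Set.Ioi (1 : ℝ), ((∑ k ∈ Finset.Icc 1 ⌊t⌋₊, a k) - κ * t) *
        (t : ℂ) ^ (-((s : ℂ) + 1))‖ ≤ (D + ‖κ‖) / δ := by
    refine (MeasureTheory.norm_integral_le_integral_norm _).trans ?_
    refine (MeasureTheory.setIntegral_mono_on hint1.norm hint0 measurableSet_Ioi hbd).trans ?_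
    rw [MeasureTheory.integral_const_mul, integral_Ioi_rpow_of_lt (by linarith) zero_lt_one,
      Real.one_rpow]
    have h1 : -1 / (-δ - s + 1) = 1 / (δ + s - 1) := by
      rw [← neg_div_neg_eq]
      congr 1 <;> ring
    rw [h1, div_eq_mul_one_div (D + ‖κ‖) δ]
    refine mul_le_mul_of_nonneg_left ?_ hC0
    exact one_div_le_one_div_of_le hδ (by linarith)
  generalize (∫ t in Set.Ioi (1 : ℝ), ((∑ k ∈ Finset.Icc 1 ⌊t⌋₊, a k) - κ * t) *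
        (t : ℂ) ^ (-((s : ℂ) + 1))) = I at hnorm
  have hfin : (s : ℂ) * (I + κ * (1 / (s - 1))) - κ / (s - 1) = κ + s * I := by
    field_simp
    ring
  rw [hfin]
  refine (norm_add_le _ _).trans (add_le_add le_rfl ?_)
  rw [norm_mul, Complex.norm_real, Real.norm_of_nonneg (by linarith)]
  exact mul_le_mul hs2 hnorm (norm_nonneg _) (by norm_num)

end H2T4
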