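import Pool.Agent.H2.T4.FDf

/-!
Row FA2 (about 130 lines): Dirichlet series over ideals as Dirichlet series over the integers.

PROOF. The map I ↦ absNorm I has finite fibres on nonzero ideals (Ideal.finite_setOf_absNorm_eq, see webb_sum in Pool/Agent/H17/PIT/WebB.lean) and no nonzero ideal has norm 0.
 summable_ideals: all terms are ≥ 0; use that the number of ideals of norm ≤ x is ≤ C x (hC; from Mathlib NumberField.Ideal.tendsto_norm_le_div_atTop₀ or H17PIT.weber) : for s > 1 partial sums over norm in (2^j, 2^(j+1)] are ≤ C 2^(j+1) 2^(-js), geometric;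
   or: Mathlib has LSeriesSummable for the Dedekind zeta function (NumberField.dedekindZeta, search for summable in Mathlib/NumberTheory/NumberField/DedekindZeta.lean and Mathlib/NumberTheory/LSeries/SumCoeff.lean: LSeriesSummable_of_sum_norm_bigO_and_nonneg).
 zs_eq: Zs K χ s = ∑' I, F I; group by the norm: (Equiv.sigmaFiberEquiv (fun I => absNorm I)).symm, `Summable.tsum_sigma`, the inner sum over the (finite) fibre is idc K χ k * k^(-s), zero for k = 0 (empty fibre).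
 idc_sum: ∑ k ∈ Icc 1 n, idc K χ k = ∑ C, χ C * #{I // absNorm I ≤ n ∧ mk0 I = C}: both sides sum χ (mk0 I) over the finite set of I with norm ≤ n (card and fibres: Finset.sum_fiberwise / as in web_nonzero of WebB.lean).
-/

set_option autoImplicit false
open scoped Classical nonZeroDivisors

open IsDedekindDomain NumberField

namespace H2T4

/-- `∑ χ([I])` over the ideals of norm `k` -/
noncomputable def idc (K : Type) [Field K] [NumberField K] (χ : ClassGroup (𝓞 K) →* ℂ) (k : ℕ) : ℂ :=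
  ∑' I : {I : (Ideal (𝓞 K))⁰ // Ideal.absNorm (I : Ideal (𝓞 K)) = k}, χ (ClassGroup.mk0 I.1)

theorem norm_char {K : Type} [Field K] [NumberField K] (χ : ClassGroup (𝓞 K) →* ℂ)
    (c : ClassGroup (𝓞 K)) : ‖χ c‖ = 1 := by
  have h : (χ c) ^ Fintype.card (ClassGroup (𝓞 K)) = 1 := by
    rw [← map_pow, pow_card_eq_one, map_one]
  exact (isOfFinOrder_iff_pow_eq_one.2 ⟨_, Fintype.card_pos, h⟩).norm_eq_one

/-- number of ideals of norm `k` -/
noncomputable def FA2_cnt (K : Type) [Field K] [NumberField K] (k : ℕ) : ℕ :=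
  Nat.card {I : (Ideal (𝓞 K))⁰ // Ideal.absNorm (I : Ideal (𝓞 K)) = k}

theorem FA2_fin (K : Type) [Field K] [NumberField K] (k : ℕ) :
    Finite {I : (Ideal (𝓞 K))⁰ // Ideal.absNorm (I : Ideal (𝓞 K)) = k} :=
  ((Ideal.finite_setOfPred_absNorm_le₀ (S := 𝓞 K) k).subset fun _ hI => le_of_eq hI)

/-- the ideals of norm at most `n` -/
noncomputable def FA2_T (K : Type) [Field K] [NumberField K] (n : ℕ) : Finset (Ideal (𝓞 K))⁰ :=
  (Ideal.finite_setOfPred_absNorm_le₀ (S := 𝓞 K) n).toFinset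

theorem FA2_mem {K : Type} [Field K] [NumberField K] {n : ℕ} {I : (Ideal (𝓞 K))⁰} :
    I ∈ FA2_T K n ↔ Ideal.absNorm (I : Ideal (𝓞 K)) ≤ n := by
  unfold FA2_T
  rw [Set.Finite.mem_toFinset]
  rfl

theorem FA2_fiber (K : Type) [Field K] [NumberField K] (g : (Ideal (𝓞 K))⁰ → ℂ) (n k : ℕ)
    (hk : k ≤ n) :
    ∑' I : {I : (Ideal (𝓞 K))⁰ // Ideal.absNorm (I : Ideal (𝓞 K)) = k}, g I.1 =
      ∑ I ∈ (FA2_T K n).filter (fun I : (Ideal (𝓞 K))⁰ => Ideal.absNorm (I : Ideal (𝓞 K)) = k), g I := by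
  have := FA2_fin K k
  have := Fintype.ofFinite {I : (Ideal (𝓞 K))⁰ // Ideal.absNorm (I : Ideal (𝓞 K)) = k}
  rw [tsum_fintype]
  refine (Finset.sum_subtype _ (fun I => ?_) g).symm
  rw [Finset.mem_filter, FA2_mem]
  exact ⟨fun h => h.2, fun h => ⟨h ▸ hk, h⟩⟩

theorem FA2_sum (K : Type) [Field K] [NumberField K] (g : (Ideal (𝓞 K))⁰ → ℂ) (n : ℕ) :
    ∑ k ∈ Finset.Icc 1 n,
      ∑' I : {I : (Ideal (𝓞 K))⁰ // Ideal.absNorm (I : Ideal (𝓞 K)) = k}, g I.1 =
      ∑ I ∈ FA2_T K n, g I := by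
  rw [Finset.sum_congr rfl fun k hk => FA2_fiber K g n k (Finset.mem_Icc.1 hk).2]
  refine Finset.sum_fiberwise_of_maps_to (fun I hI => ?_) g
  rw [Finset.mem_Icc]
  exact ⟨Ideal.absNorm_pos_of_nonZeroDivisors I, FA2_mem.1 hI⟩

theorem FA2_cnt_eq (K : Type) [Field K] [NumberField K] (k : ℕ) :
    (FA2_cnt K k : ℂ) =
      ∑' _I : {I : (Ideal (𝓞 K))⁰ // Ideal.absNorm (I : Ideal (𝓞 K)) = k}, (1 : ℂ) := by
  have := FA2_fin K k
  have := Fintype.ofFinite {I : (Ideal (𝓞 K))⁰ // Ideal.absNorm (I : Ideal (𝓞 K)) = k}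
  rw [tsum_fintype, Finset.sum_const, nsmul_eq_mul, mul_one, FA2_cnt, Nat.card_eq_fintype_card,
    Finset.card_univ]

theorem FA2_cnt_sum (K : Type) [Field K] [NumberField K] (n : ℕ) :
    ∑ k ∈ Finset.Icc 1 n, (FA2_cnt K k : ℝ) =
      (Nat.card {I : (Ideal (𝓞 K))⁰ // (Ideal.absNorm (I : Ideal (𝓞 K)) : ℝ) ≤ n} : ℝ) := by
  have h1 := FA2_sum K (fun _ => (1 : ℂ)) n
  rw [Finset.sum_congr rfl fun k _ => (FA2_cnt_eq K k).symm] at h1
  rw [Finset.sum_const, nsmul_eq_mul, mul_one] at h1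
  have h2 : Nat.card {I : (Ideal (𝓞 K))⁰ // (Ideal.absNorm (I : Ideal (𝓞 K)) : ℝ) ≤ n} =
      (FA2_T K n).card := by
    refine Nat.subtype_card _ fun I => ?_
    rw [FA2_mem, Nat.cast_le]
  rw [h2]
  exact_mod_cast h1

theorem FA2_cnt_summable (K : Type) [Field K] [NumberField K] (s : ℝ) (hs : 1 < s) :
    Summable fun k : ℕ => (FA2_cnt K k : ℝ) * (k : ℝ) ^ (-s) := by
  have hO : (fun n : ℕ ↦ ∑ k ∈ Finset.Icc 1 n, (FA2_cnt K k : ℝ)) =O[Filter.atTop]
      fun n ↦ (n : ℝ) ^ (1 : ℝ) := by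
    have h := ((NumberField.Ideal.tendsto_norm_le_div_atTop₀ K).comp
      tendsto_natCast_atTop_atTop).isBigO_one ℝ
    have h2 := h.mul (Asymptotics.isBigO_refl (fun n : ℕ => (n : ℝ)) Filter.atTop)
    refine (h2.congr' ?_ ?_)
    · filter_upwards [Filter.eventually_gt_atTop 0] with n hn
      rw [Function.comp_apply, FA2_cnt_sum]
      have : (n : ℝ) ≠ 0 := by positivity
      field_simp
    · filter_upwards with n
      rw [one_mul, Real.rpow_one]
  have hS := LSeriesSummable_of_sum_norm_bigO_and_nonneg (s := (s : ℂ)) hO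
    (fun n => Nat.cast_nonneg _) zero_le_one (by simpa using hs)
  have hN := hS.norm
  refine hN.congr fun k => ?_
  rw [LSeries.norm_term_eq]
  split_ifs with h
  · subst h
    rw [Nat.cast_zero, Real.zero_rpow (by linarith), mul_zero]
  · rw [Complex.ofReal_re, Real.rpow_neg (Nat.cast_nonneg k), div_eq_mul_inv]
    simp

theorem summable_ideals (K : Type) [Field K] [NumberField K] (s : ℝ) (hs : 1 < s) :
    Summable fun I : (Ideal (𝓞 K))⁰ => (Ideal.absNorm (I : Ideal (𝓞 K)) : ℝ) ^ (-s) := by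
  rw [← (Equiv.sigmaFiberEquiv
    (fun I : (Ideal (𝓞 K))⁰ => Ideal.absNorm (I : Ideal (𝓞 K)))).summable_iff]
  rw [summable_sigma_of_nonneg (fun x => by
    simp only [Function.comp_apply]
    positivity)]
  refine ⟨fun k => ?_, ?_⟩
  · have := FA2_fin K k
    exact Summable.of_finite
  · refine (FA2_cnt_summable K s hs).congr fun k => ?_
    have := FA2_fin K k
    have := Fintype.ofFinite {I : (Ideal (𝓞 K))⁰ // Ideal.absNorm (I : Ideal (𝓞 K)) = k}
    rw [tsum_fintype]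
    have h : ∀ b : {I : (Ideal (𝓞 K))⁰ // Ideal.absNorm (I : Ideal (𝓞 K)) = k},
        ((fun I : (Ideal (𝓞 K))⁰ => (Ideal.absNorm (I : Ideal (𝓞 K)) : ℝ) ^ (-s)) ∘
          (Equiv.sigmaFiberEquiv
            (fun I : (Ideal (𝓞 K))⁰ => Ideal.absNorm (I : Ideal (𝓞 K))))) ⟨k, b⟩ =
          (k : ℝ) ^ (-s) := by
      intro b
      have hb := b.2
      change (Ideal.absNorm (b.1 : Ideal (𝓞 K)) : ℝ) ^ (-s) = _
      rw [hb]
    rw [Finset.sum_congr rfl fun b _ => h b, Finset.sum_const, nsmul_eq_mul, FA2_cnt,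
      Nat.card_eq_fintype_card, Finset.card_univ]

theorem FA2_idc_le (K : Type) [Field K] [NumberField K] (χ : ClassGroup (𝓞 K) →* ℂ) (k : ℕ) :
    ‖idc K χ k‖ ≤ FA2_cnt K k := by
  have := FA2_fin K k
  have := Fintype.ofFinite {I : (Ideal (𝓞 K))⁰ // Ideal.absNorm (I : Ideal (𝓞 K)) = k}
  unfold idc
  rw [tsum_fintype]
  refine (norm_sum_le _ _).trans ?_
  rw [Finset.sum_congr rfl fun I _ => norm_char χ _, Finset.sum_const, nsmul_eq_mul, mul_one,
    FA2_cnt, Nat.card_eq_fintype_card, Finset.card_univ]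

theorem idc_summable (K : Type) [Field K] [NumberField K] (χ : ClassGroup (𝓞 K) →* ℂ) (s : ℝ)
    (hs : 1 < s) : Summable fun k : ℕ => ‖idc K χ k‖ * (k : ℝ) ^ (-s) :=
  Summable.of_nonneg_of_le (fun k => by positivity)
    (fun k => mul_le_mul_of_nonneg_right (FA2_idc_le K χ k) (by positivity))
    (FA2_cnt_summable K s hs)

theorem zs_eq (K : Type) [Field K] [NumberField K] (χ : ClassGroup (𝓞 K) →* ℂ) (s : ℝ)
    (hs : 1 < s) :
    Zs K χ s = ∑' k : ℕ, if k = 0 then 0 else idc K χ k * (((k : ℝ) ^ (-s) : ℝ) : ℂ) := by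
  have hsum : Summable fun I : (Ideal (𝓞 K))⁰ => χ (ClassGroup.mk0 I) *
      (((Ideal.absNorm (I : Ideal (𝓞 K)) : ℝ) ^ (-s) : ℝ) : ℂ) := by
    refine Summable.of_norm ((summable_ideals K s hs).congr fun I => ?_)
    rw [norm_mul, norm_char, one_mul, Complex.norm_real, Real.norm_of_nonneg (by positivity)]
  unfold Zs
  rw [← (Equiv.sigmaFiberEquiv
    (fun I : (Ideal (𝓞 K))⁰ => Ideal.absNorm (I : Ideal (𝓞 K)))).tsum_eq]
  have hsum2 := (Equiv.sigmaFiberEquiv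
    (fun I : (Ideal (𝓞 K))⁰ => Ideal.absNorm (I : Ideal (𝓞 K)))).summable_iff.2 hsum
  refine (Summable.tsum_sigma hsum2).trans ?_
  refine tsum_congr fun k => ?_
  have h : ∀ b : {I : (Ideal (𝓞 K))⁰ // Ideal.absNorm (I : Ideal (𝓞 K)) = k},
      χ (ClassGroup.mk0 ((Equiv.sigmaFiberEquiv
          (fun I : (Ideal (𝓞 K))⁰ => Ideal.absNorm (I : Ideal (𝓞 K)))) ⟨k, b⟩)) *
        (((Ideal.absNorm (((Equiv.sigmaFiberEquiv
          (fun I : (Ideal (𝓞 K))⁰ => Ideal.absNorm (I : Ideal (𝓞 K)))) ⟨k, b⟩ :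
            (Ideal (𝓞 K))⁰) : Ideal (𝓞 K)) : ℝ) ^ (-s) : ℝ) : ℂ) =
      χ (ClassGroup.mk0 b.1) * (((k : ℝ) ^ (-s) : ℝ) : ℂ) := by
    intro b
    have hb := b.2
    change χ (ClassGroup.mk0 b.1) *
      (((Ideal.absNorm (b.1 : Ideal (𝓞 K)) : ℝ) ^ (-s) : ℝ) : ℂ) = _
    rw [hb]
  refine (tsum_congr h).trans ?_
  rw [tsum_mul_right]
  split_ifs with hk
  · subst hk
    rw [Nat.cast_zero, Real.zero_rpow (by linarith), Complex.ofReal_zero, mul_zero]
  · rfl

theorem idc_sum (K : Type) [Field K] [NumberField K] (χ : ClassGroup (𝓞 K) →* ℂ) (n : ℕ) :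
    ∑ k ∈ Finset.Icc 1 n, idc K χ k = ∑ C : ClassGroup (𝓞 K), χ C *
      (Nat.card {I : (Ideal (𝓞 K))⁰ // (Ideal.absNorm (I : Ideal (𝓞 K)) : ℝ) ≤ n ∧
        ClassGroup.mk0 I = C} : ℂ) := by
  unfold idc
  rw [FA2_sum K (fun I => χ (ClassGroup.mk0 I)) n,
    ← Finset.sum_fiberwise_of_maps_to (t := Finset.univ) (g := fun I => ClassGroup.mk0 I)
      (fun I _ => Finset.mem_univ _)]
  refine Finset.sum_congr rfl fun C _ => ?_
  have h2 : Nat.card {I : (Ideal (𝓞 K))⁰ // (Ideal.absNorm (I : Ideal (𝓞 K)) : ℝ) ≤ n ∧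
        ClassGroup.mk0 I = C} = ({I ∈ FA2_T K n | ClassGroup.mk0 I = C}).card := by
    refine Nat.subtype_card _ fun I => ?_
    rw [Finset.mem_filter, FA2_mem, Nat.cast_le]
  rw [h2, Finset.sum_congr rfl (g := fun _ => χ C) (fun I hI => by
    rw [(Finset.mem_filter.1 hI).2]), Finset.sum_const, nsmul_eq_mul, mul_comm]

end H2T4
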