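import Pool.Agent.H2.T4.FA1
import Pool.Agent.H2.T4.FA2
import Pool.Agent.H17.PIT.WebB

/-!
Row FA3 (about 100 lines): size of the Dirichlet series near 1. Use only the STATEMENTS of FA1, FA2, WebB.

PROOF. H17PIT.webb_class K C: constants κ_C, D_C with |N_C(x) - κ_C x| ≤ D_C x^(1 - 1/n), n = finrank ℚ K (N_C(x) the number of ideals of norm ≤ x in the class C). All κ_C are equal and positive: Mathlib's NumberField.Ideal.tendsto_norm_le_and_mk_eq_div_atTop (the limit of N_C(s)/s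
 is the same positive number for all C) and uniqueness of limits (N_C(x)/x -> κ_C: see the end of WebB.lean `weber`). κ := this number, δ := 1/n ∈ (0, 1].
 idc_sum: ‖∑ k ≤ m, idc χ k - κ (∑_C χ C) m‖ ≤ ∑_C D_C m^(1-δ) (norm_char).  abel_bound with κ' = κ ∑_C χ C gives ‖Zs K χ s - κ'/(s-1)‖ ≤ B.
 χ ≠ 1: ∑_C χ C = 0 (MonoidHom/`sum_hom_units_eq_zero`-type: choose c with χ c ≠ 1, the sum is invariant under multiplication by χ c), so ‖Zs‖ ≤ B. χ = 1: ∑_C χ C = h ≥ 1: lower and upper bound: κ h/(s-1) - B ≤ ‖Zs K 1 s‖ ≤ κ h/(s-1) + B; for the lower bound with a constant c > 0 on all of (1,2]: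
 ‖Zs K 1 s‖ ≥ 1 (it is a sum of nonnegative real terms containing the term 1 of I = ⊤), so ‖Zs‖ (s - 1) ≥ max (κ h - B (s-1)) (s-1) ≥ c := min (κ h/2) (κ h/(2 |B| + 1))... (any positive constant).
-/

set_option autoImplicit false
open scoped Classical nonZeroDivisors

open IsDedekindDomain NumberField

namespace H2T4

private theorem fa3_lim (K : Type) [Field K] [NumberField K] :
    ∃ κ : ℝ, 0 < κ ∧ ∀ C : ClassGroup (𝓞 K), Filter.Tendsto (fun s : ℝ ↦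
      (Nat.card {I : (Ideal (𝓞 K))⁰ //
        (Ideal.absNorm (I : Ideal (𝓞 K)) : ℝ) ≤ s ∧ ClassGroup.mk0 I = C} : ℝ) / s)
        Filter.atTop (nhds κ) := by
  refine ⟨_, ?_, NumberField.Ideal.tendsto_norm_le_and_mk_eq_div_atTop K⟩
  have h1 := NumberField.Units.regulator_pos K
  have h2 : (0 : ℝ) < Units.torsionOrder K := by exact_mod_cast Units.torsionOrder_pos K
  have h3 : (0 : ℝ) < Real.sqrt |(discr K : ℝ)| :=
    Real.sqrt_pos.2 (abs_pos.2 (Int.cast_ne_zero.2 (discr_ne_zero K)))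
  positivity

private theorem fa3_class (K : Type) [Field K] [NumberField K] :
    ∃ κ : ℝ, 0 < κ ∧ ∀ C : ClassGroup (𝓞 K), ∃ D : ℝ, ∀ x : ℝ, 1 ≤ x →
      |(Nat.card {I : (Ideal (𝓞 K))⁰ // (Ideal.absNorm (I : Ideal (𝓞 K)) : ℝ) ≤ x ∧
        ClassGroup.mk0 I = C} : ℝ) - κ * x| ≤ D * x ^ (1 - 1 / (Module.finrank ℚ K : ℝ)) := by
  obtain ⟨κ, hκ, hlim⟩ := fa3_lim K
  refine ⟨κ, hκ, fun C => ?_⟩
  obtain ⟨κ', D, hD⟩ := H17PIT.webb_class K C
  refine ⟨D, ?_⟩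
  have h2 : Filter.Tendsto (fun s : ℝ ↦
      (Nat.card {I : (Ideal (𝓞 K))⁰ // (Ideal.absNorm (I : Ideal (𝓞 K)) : ℝ) ≤ s ∧
        ClassGroup.mk0 I = C} : ℝ) / s)
      Filter.atTop (nhds κ') := by
    have hn : (0 : ℝ) < Module.finrank ℚ K := by exact_mod_cast Module.finrank_pos (R := ℚ) (M := K)
    have h3 : Filter.Tendsto (fun s : ℝ => D * s ^ (-(1 / (Module.finrank ℚ K : ℝ)))) Filter.atTop
        (nhds 0) := by
      have := (tendsto_rpow_neg_atTop (y := 1 / (Module.finrank ℚ K : ℝ)) (by positivity)).const_mul D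
      simpa using this
    rw [tendsto_iff_norm_sub_tendsto_zero]
    refine squeeze_zero' (Filter.Eventually.of_forall (fun _ => norm_nonneg _)) ?_ h3
    filter_upwards [Filter.eventually_ge_atTop (1 : ℝ)] with s hs
    have hs0 : 0 < s := by linarith
    have h4 := hD s hs
    rw [Real.norm_eq_abs]
    have h5 : (Nat.card {I : (Ideal (𝓞 K))⁰ // (Ideal.absNorm (I : Ideal (𝓞 K)) : ℝ) ≤ s ∧
        ClassGroup.mk0 I = C} : ℝ) / s - κ' = ((Nat.card {I : (Ideal (𝓞 K))⁰ //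
          (Ideal.absNorm (I : Ideal (𝓞 K)) : ℝ) ≤ s ∧ ClassGroup.mk0 I = C} : ℝ) - κ' * s) / s := by
      field_simp
    rw [h5, abs_div, abs_of_pos hs0, div_le_iff₀ hs0]
    refine h4.trans (le_of_eq ?_)
    rw [sub_eq_add_neg, Real.rpow_add hs0, Real.rpow_one]
    ring
  have h6 := tendsto_nhds_unique h2 (hlim C)
  rw [← h6]
  exact hD

private theorem fa3_main (K : Type) [Field K] [NumberField K] :
    ∃ κ : ℝ, 0 < κ ∧ ∀ χ : ClassGroup (𝓞 K) →* ℂ, ∃ B : ℝ, ∀ s : ℝ, 1 < s → s ≤ 2 →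
      ‖Zs K χ s - ((κ : ℂ) * ∑ C, χ C) / (s - 1)‖ ≤ B := by
  obtain ⟨κ, hκ, hC⟩ := fa3_class K
  choose D hD using hC
  refine ⟨κ, hκ, fun χ => ?_⟩
  have hn : 0 < Module.finrank ℚ K := Module.finrank_pos
  have hn' : (1 : ℝ) ≤ Module.finrank ℚ K := by exact_mod_cast hn
  have hab := abel_bound (idc K χ) ((κ : ℂ) * ∑ C, χ C) (∑ C, D C) (1 / (Module.finrank ℚ K : ℝ))
    (by positivity) (by rw [div_le_one (by linarith)]; exact hn')
    (fun s hs => idc_summable K χ s hs) ?_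
  · obtain ⟨B, hB⟩ := hab
    refine ⟨B, fun s hs hs2 => ?_⟩
    rw [zs_eq K χ s hs]
    exact hB s hs hs2
  · intro m hm
    have hm' : (1 : ℝ) ≤ m := by exact_mod_cast hm
    rw [idc_sum, Finset.mul_sum, Finset.sum_mul, ← Finset.sum_sub_distrib, Finset.sum_mul]
    refine (norm_sum_le _ _).trans (Finset.sum_le_sum fun C _ => ?_)
    have h1 : χ C * (Nat.card {I : (Ideal (𝓞 K))⁰ // (Ideal.absNorm (I : Ideal (𝓞 K)) : ℝ) ≤ m ∧
        ClassGroup.mk0 I = C} : ℂ) - (κ : ℂ) * χ C * m = χ C *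
        (((Nat.card {I : (Ideal (𝓞 K))⁰ // (Ideal.absNorm (I : Ideal (𝓞 K)) : ℝ) ≤ m ∧
        ClassGroup.mk0 I = C} : ℝ) - κ * m : ℝ) : ℂ) := by
      push_cast
      ring
    rw [h1, norm_mul, norm_char, one_mul, Complex.norm_real, Real.norm_eq_abs]
    exact hD C m hm'

theorem zs_bounded (K : Type) [Field K] [NumberField K] (χ : ClassGroup (𝓞 K) →* ℂ) (hχ : χ ≠ 1) :
    ∃ B : ℝ, ∀ s : ℝ, 1 < s → s ≤ 2 → ‖Zs K χ s‖ ≤ B := by
  obtain ⟨κ, hκ, hm⟩ := fa3_main K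
  obtain ⟨B, hB⟩ := hm χ
  refine ⟨B, fun s hs hs2 => ?_⟩
  have h0 : ∑ C, χ C = 0 := by
    obtain ⟨c, hc⟩ : ∃ c, χ c ≠ 1 := by
      by_contra h
      push Not at h
      exact hχ (MonoidHom.ext h)
    have h1 : ∑ C, χ (c * C) = ∑ C, χ C :=
      Fintype.sum_equiv (Equiv.mulLeft c) _ _ (fun _ => rfl)
    simp_rw [map_mul, ← Finset.mul_sum] at h1
    have h2 : (χ c - 1) * ∑ C, χ C = 0 := by
      rw [sub_mul, h1, one_mul, sub_self]
    exact (mul_eq_zero.1 h2).resolve_left (sub_ne_zero.2 hc)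
  have h3 := hB s hs hs2
  rw [h0, mul_zero, zero_div, sub_zero] at h3
  exact h3

private theorem fa3_ge_one (K : Type) [Field K] [NumberField K] (s : ℝ) (hs : 1 < s) :
    1 ≤ ‖Zs K 1 s‖ := by
  have h1 : Zs K 1 s = ((∑' I : (Ideal (𝓞 K))⁰,
      (Ideal.absNorm (I : Ideal (𝓞 K)) : ℝ) ^ (-s) : ℝ) : ℂ) := by
    rw [Complex.ofReal_tsum]
    unfold Zs
    refine tsum_congr fun I => ?_
    rw [MonoidHom.one_apply, one_mul]
  rw [h1, Complex.norm_real, Real.norm_eq_abs]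
  refine le_trans ?_ (le_abs_self _)
  have h2 := (summable_ideals K s hs).le_tsum (1 : (Ideal (𝓞 K))⁰) (fun I _ => by positivity)
  refine le_trans (le_of_eq ?_) h2
  rw [OneMemClass.coe_one, Ideal.one_eq_top, Ideal.absNorm_top, Nat.cast_one, Real.one_rpow]

theorem zs_one (K : Type) [Field K] [NumberField K] :
    ∃ c C : ℝ, 0 < c ∧ ∀ s : ℝ, 1 < s → s ≤ 2 →
      c / (s - 1) ≤ ‖Zs K 1 s‖ ∧ ‖Zs K 1 s‖ ≤ C / (s - 1) := by
  obtain ⟨κ, hκ, hm⟩ := fa3_main K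
  obtain ⟨B₀, hB₀⟩ := hm 1
  obtain ⟨B, hB, hB1⟩ : ∃ B : ℝ, (∀ s : ℝ, 1 < s → s ≤ 2 →
      ‖Zs K 1 s - ((κ : ℂ) * ∑ C, (1 : ClassGroup (𝓞 K) →* ℂ) C) / (s - 1)‖ ≤ B) ∧ 1 ≤ B :=
    ⟨max B₀ 1, fun s hs hs2 => (hB₀ s hs hs2).trans (le_max_left _ _), le_max_right _ _⟩
  have hh : (0 : ℝ) < Fintype.card (ClassGroup (𝓞 K)) := by exact_mod_cast Fintype.card_pos
  obtain ⟨L, hL⟩ : ∃ L : ℝ, L = κ * Fintype.card (ClassGroup (𝓞 K)) := ⟨_, rfl⟩
  have hL0 : 0 < L := by rw [hL]; positivity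
  have hsum : (κ : ℂ) * ∑ C, (1 : ClassGroup (𝓞 K) →* ℂ) C = (L : ℂ) := by
    rw [hL]
    simp
  refine ⟨L / (2 * B), L + B, by positivity, fun s hs hs2 => ?_⟩
  have h1 := hB s hs hs2
  rw [hsum] at h1
  have hs1 : 0 < s - 1 := by linarith
  have h2 : ‖(L : ℂ) / (s - 1)‖ = L / (s - 1) := by
    have : (L : ℂ) / (s - 1) = ((L / (s - 1) : ℝ) : ℂ) := by push_cast; ring
    rw [this, Complex.norm_real, Real.norm_eq_abs, abs_of_pos (by positivity)]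
  have h3 : L / (s - 1) ≤ ‖Zs K 1 s‖ + B := by
    rw [← h2]
    have := norm_sub_norm_le ((L : ℂ) / (s - 1)) (Zs K 1 s)
    rw [norm_sub_rev] at this
    linarith
  have h4 : ‖Zs K 1 s‖ ≤ L / (s - 1) + B := by
    rw [← h2]
    have := norm_sub_norm_le (Zs K 1 s) ((L : ℂ) / (s - 1))
    linarith
  have h5 := fa3_ge_one K s hs
  have hB0 : 0 < B := by linarith
  constructor
  · rw [div_le_iff₀ hs1]
    rw [div_le_iff₀ hs1] at h3
    rw [div_le_iff₀ (by positivity)]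
    rcases le_or_gt (B * (s - 1)) (L / 2) with h | h
    · nlinarith
    · nlinarith
  · refine h4.trans ?_
    rw [add_div]
    have : B ≤ B / (s - 1) := by
      rw [le_div_iff₀ hs1]
      nlinarith
    linarith

end H2T4
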