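import Mathlib

/-!
Block F of MP_78d38b_T4 (helper2; definitions, no row): Dirichlet series of class group characters.
-/

set_option autoImplicit false
open scoped Classical nonZeroDivisors

open IsDedekindDomain NumberField

namespace H2T4

/-- `∑ χ([I]) N(I)^(-s)` over the nonzero ideals -/
noncomputable def Zs (K : Type) [Field K] [NumberField K] (χ : ClassGroup (𝓞 K) →* ℂ) (s : ℝ) : ℂ :=
  ∑' I : (Ideal (𝓞 K))⁰, χ (ClassGroup.mk0 I) *
    (((Ideal.absNorm (I : Ideal (𝓞 K)) : ℝ) ^ (-s) : ℝ) : ℂ)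

/-- norm of a place -/
noncomputable def Nv {K : Type} [Field K] [NumberField K] (v : HeightOneSpectrum (𝓞 K)) : ℝ :=
  (Ideal.absNorm v.asIdeal : ℝ)

/-- the class of a place -/
noncomputable def cl {K : Type} [Field K] [NumberField K] (v : HeightOneSpectrum (𝓞 K)) :
    ClassGroup (𝓞 K) :=
  ClassGroup.mk0 ⟨v.asIdeal, mem_nonZeroDivisors_of_ne_zero v.ne_bot⟩

/-- `v` remains prime in `F` -/
def Inert (F₀ F : Type) [Field F₀] [NumberField F₀] [Field F] [NumberField F] [Algebra F₀ F]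
    (v : HeightOneSpectrum (𝓞 F₀)) : Prop :=
  (v.asIdeal.map (algebraMap (𝓞 F₀) (𝓞 F))).IsPrime

end H2T4
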