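import Pool.Agent.H2.T4.FA2

/-!
Row FE (about 170 lines): Euler product. Use only the STATEMENT of FA2.

PROOF. f I := χ (mk0 I) N(I)^(-s) is completely multiplicative on (Ideal (𝓞 K))⁰ (absNorm multiplicative, Real.mul_rpow), ‖f I‖ = N(I)^(-s), summable (summable_ideals). For a finite set T of places let Fac T = {I // every prime ideal dividing I is in T}.
 (a) ∑_{I ∈ Fac T} f I = ∏_{P ∈ T} (1 - f P)⁻¹ by induction on T: for P ∉ T, (k, J) ↦ P^k J is a bijection ℕ × Fac T → Fac (insert P T) (unique factorization: multiplicity of P, `Ideal` normalizedFactors / `emultiplicity`), ∑_k f(P)^k = (1 - f P)⁻¹ (‖f P‖ < 1: N(P) ≥ 2), tsum over a product (Summable.tsum_prod / tsum_mul_tsum_of_summable_norm).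
 (b) every nonzero ideal lies in Fac T for T large (finitely many prime divisors), so the indicator sums converge: ‖∑' I, f I - ∑_{I ∈ Fac T} f I‖ ≤ ∑_{I ∉ Fac T} ‖f I‖, which is < ε as soon as T contains the prime divisors of the members of a finite set E of ideals with tail sum < ε (Summable.vanishing / `tendsto_tsum_compl_atTop_zero`).
 zs_ne: Zs = ∏ is not zero? NOT needed. hasProd is the statement Tendsto over finsets T of ∏_{P ∈ T}.
 real version (for χ = 1) is a special case: all factors are real numbers ≥ 1.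
-/

set_option autoImplicit false
open scoped Classical nonZeroDivisors

open IsDedekindDomain NumberField

namespace H2T4

theorem Nv_ge {K : Type} [Field K] [NumberField K] (v : HeightOneSpectrum (𝓞 K)) : 2 ≤ Nv v := by
  unfold Nv
  have h0 : Ideal.absNorm v.asIdeal ≠ 0 := by
    rw [Ne, Ideal.absNorm_eq_zero_iff]
    exact v.ne_bot
  have h1 : Ideal.absNorm v.asIdeal ≠ 1 := by
    rw [Ne, Ideal.absNorm_eq_one_iff]
    exact v.isPrime.ne_top
  have h2 : 2 ≤ Ideal.absNorm v.asIdeal := by omega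
  exact_mod_cast h2

/-- the completely multiplicative function `χ([I]) N(I)^(-s)` -/
noncomputable def FE_F {K : Type} [Field K] [NumberField K] (χ : ClassGroup (𝓞 K) →* ℂ) (s : ℝ) :
    (Ideal (𝓞 K))⁰ →* ℂ where
  toFun I := χ (ClassGroup.mk0 I) * (((Ideal.absNorm (I : Ideal (𝓞 K)) : ℝ) ^ (-s) : ℝ) : ℂ)
  map_one' := by simp
  map_mul' := by
    intro I J
    rw [map_mul, map_mul, Submonoid.coe_mul, map_mul, Nat.cast_mul,
      Real.mul_rpow (by positivity) (by positivity), Complex.ofReal_mul]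
    ring

/-- the place as a nonzero ideal -/
def FE_pr {K : Type} [Field K] [NumberField K] (v : HeightOneSpectrum (𝓞 K)) : (Ideal (𝓞 K))⁰ :=
  ⟨v.asIdeal, mem_nonZeroDivisors_of_ne_zero v.ne_bot⟩

/-- the ideals with all prime factors in `T` -/
def FE_S {K : Type} [Field K] [NumberField K] (T : Finset (HeightOneSpectrum (𝓞 K))) :
    Set (Ideal (𝓞 K))⁰ :=
  {I | ∀ v : HeightOneSpectrum (𝓞 K), v.asIdeal ∣ (I : Ideal (𝓞 K)) → v ∈ T}

theorem FE_norm {K : Type} [Field K] [NumberField K] (χ : ClassGroup (𝓞 K) →* ℂ) (s : ℝ)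
    (I : (Ideal (𝓞 K))⁰) : ‖FE_F χ s I‖ = (Ideal.absNorm (I : Ideal (𝓞 K)) : ℝ) ^ (-s) := by
  change ‖χ (ClassGroup.mk0 I) * (((Ideal.absNorm (I : Ideal (𝓞 K)) : ℝ) ^ (-s) : ℝ) : ℂ)‖ = _
  rw [norm_mul, norm_char, one_mul, Complex.norm_real, Real.norm_of_nonneg (by positivity)]

theorem FE_lt {K : Type} [Field K] [NumberField K] (χ : ClassGroup (𝓞 K) →* ℂ) (s : ℝ)
    (hs : 1 < s) (v : HeightOneSpectrum (𝓞 K)) : ‖FE_F χ s (FE_pr v)‖ < 1 := by
  rw [FE_norm]
  have h : (2 : ℝ) ≤ (Ideal.absNorm ((FE_pr v : (Ideal (𝓞 K))⁰) : Ideal (𝓞 K)) : ℝ) := Nv_ge v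
  exact Real.rpow_lt_one_of_one_lt_of_neg (by linarith) (by linarith)

theorem FE_sum {K : Type} [Field K] [NumberField K] (χ : ClassGroup (𝓞 K) →* ℂ) (s : ℝ)
    (hs : 1 < s) : Summable fun I : (Ideal (𝓞 K))⁰ => ‖FE_F χ s I‖ := by
  simp_rw [FE_norm]
  exact summable_ideals K s hs

theorem FE_dvd {K : Type} [Field K] [NumberField K] {v w : HeightOneSpectrum (𝓞 K)}
    (h : w.asIdeal ∣ v.asIdeal) : w = v := by
  apply HeightOneSpectrum.ext
  have h1 : v.asIdeal ≤ w.asIdeal := Ideal.dvd_iff_le.1 h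
  have h2 : v.asIdeal.IsMaximal := v.isMaximal
  exact (h2.eq_of_le w.isPrime.ne_top h1).symm

theorem FE_mem {K : Type} [Field K] [NumberField K] {T : Finset (HeightOneSpectrum (𝓞 K))}
    {v : HeightOneSpectrum (𝓞 K)} (k : ℕ) {J : (Ideal (𝓞 K))⁰}
    (hJ : J ∈ FE_S T) : FE_pr v ^ k * J ∈ FE_S (insert v T) := by
  intro w hw
  rw [Submonoid.coe_mul, SubmonoidClass.coe_pow] at hw
  have hp : Prime w.asIdeal := w.prime
  rw [Finset.mem_insert]
  rcases hp.dvd_or_dvd hw with h | h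
  · left
    exact FE_dvd (hp.dvd_of_dvd_pow h)
  · right
    exact hJ w h

theorem FE_nd {K : Type} [Field K] [NumberField K] {T : Finset (HeightOneSpectrum (𝓞 K))}
    {v : HeightOneSpectrum (𝓞 K)} (hv : v ∉ T) {J : (Ideal (𝓞 K))⁰}
    (hJ : J ∈ FE_S T) : ¬ v.asIdeal ∣ (J : Ideal (𝓞 K)) := fun h => hv (hJ v h)

theorem FE_inj {K : Type} [Field K] [NumberField K] {T : Finset (HeightOneSpectrum (𝓞 K))}
    {v : HeightOneSpectrum (𝓞 K)} (hv : v ∉ T) {k l : ℕ} {J J' : (Ideal (𝓞 K))⁰}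
    (hJ : J ∈ FE_S T) (hkl : k ≤ l) (h : FE_pr v ^ k * J = FE_pr v ^ l * J') :
    k = l ∧ J = J' := by
  have h1 : v.asIdeal ^ k * (J : Ideal (𝓞 K)) = v.asIdeal ^ l * (J' : Ideal (𝓞 K)) :=
    congrArg (fun x : (Ideal (𝓞 K))⁰ => (x : Ideal (𝓞 K))) h
  obtain ⟨m, rfl⟩ := Nat.exists_eq_add_of_le hkl
  rw [pow_add, mul_assoc] at h1
  have h2 := mul_left_cancel₀ (pow_ne_zero k v.ne_bot) h1
  rcases Nat.eq_zero_or_pos m with hm | hm
  · subst hm
    rw [pow_zero, one_mul] at h2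
    exact ⟨rfl, Subtype.ext h2⟩
  · exfalso
    apply FE_nd hv hJ
    rw [h2]
    exact Dvd.dvd.mul_right (dvd_pow_self _ hm.ne') _

theorem FE_surj {K : Type} [Field K] [NumberField K] {T : Finset (HeightOneSpectrum (𝓞 K))}
    {v : HeightOneSpectrum (𝓞 K)} {I : (Ideal (𝓞 K))⁰}
    (hI : I ∈ FE_S (insert v T)) : ∃ k : ℕ, ∃ J ∈ FE_S T, FE_pr v ^ k * J = I := by
  have hI0 : (I : Ideal (𝓞 K)) ≠ 0 := nonZeroDivisors.coe_ne_zero I
  obtain ⟨c, hc, hvc⟩ := (FiniteMultiplicity.of_prime_left v.prime hI0).exists_eq_pow_mul_and_not_dvd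
  have hc0 : c ≠ 0 := by
    rintro rfl
    exact hvc (dvd_zero _)
  obtain ⟨k, hk⟩ : ∃ k, k = multiplicity v.asIdeal (I : Ideal (𝓞 K)) := ⟨_, rfl⟩
  rw [← hk] at hc
  have hfin : FE_pr v ^ k * ⟨c, mem_nonZeroDivisors_of_ne_zero hc0⟩ = I := by
    apply Subtype.ext
    rw [Submonoid.coe_mul, SubmonoidClass.coe_pow]
    exact hc.symm
  refine ⟨k, ⟨c, mem_nonZeroDivisors_of_ne_zero hc0⟩, ?_, hfin⟩
  intro w hw
  have hw' : w.asIdeal ∣ c := hw
  have h1 : w ∈ insert v T := by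
    apply hI w
    rw [hc]
    exact Dvd.dvd.mul_left hw' _
  rw [Finset.mem_insert] at h1
  rcases h1 with h1 | h1
  · rw [h1] at hw'
    exact (hvc hw').elim
  · exact h1

theorem FE_fac {K : Type} [Field K] [NumberField K] (χ : ClassGroup (𝓞 K) →* ℂ) (s : ℝ)
    (hs : 1 < s) (T : Finset (HeightOneSpectrum (𝓞 K))) :
    HasSum (fun I : FE_S T => FE_F χ s I) (∏ v ∈ T, (1 - FE_F χ s (FE_pr v))⁻¹) := by
  induction T using Finset.induction_on with
  | empty =>
    rw [Finset.prod_empty]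
    have h1 : (1 : (Ideal (𝓞 K))⁰) ∈ FE_S (∅ : Finset (HeightOneSpectrum (𝓞 K))) := by
      intro v hv
      exfalso
      have h2 : IsUnit v.asIdeal := isUnit_of_dvd_one hv
      exact v.prime.not_isUnit h2
    have h3 := hasSum_single (f := fun I : FE_S (∅ : Finset (HeightOneSpectrum (𝓞 K))) =>
      FE_F χ s I) ⟨1, h1⟩ (by
        intro I hI
        exfalso
        apply hI
        apply Subtype.ext
        apply Subtype.ext
        by_contra h4
        have h5 : ((I : (Ideal (𝓞 K))⁰) : Ideal (𝓞 K)) ≠ ⊤ := by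
          intro h6
          exact h4 (h6.trans Ideal.one_eq_top.symm)
        obtain ⟨M, hM, hIM⟩ := Ideal.exists_le_maximal _ h5
        have hI0 : ((I : (Ideal (𝓞 K))⁰) : Ideal (𝓞 K)) ≠ ⊥ := nonZeroDivisors.coe_ne_zero _
        have hM0 : M ≠ ⊥ := by
          intro h6
          rw [h6, le_bot_iff] at hIM
          exact hI0 hIM
        have h7 := I.2 ⟨M, hM.isPrime, hM0⟩ (Ideal.dvd_iff_le.2 hIM)
        exact absurd h7 (Finset.notMem_empty _))
    simpa using h3
  | insert v T hv ih =>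
    rw [Finset.prod_insert hv]
    have hbij : Function.Bijective (fun x : ℕ × FE_S T =>
        (⟨FE_pr v ^ x.1 * x.2, FE_mem x.1 x.2.2⟩ : FE_S (insert v T))) := by
      constructor
      · rintro ⟨k, J⟩ ⟨l, J'⟩ h
        have h1 : FE_pr v ^ k * (J : (Ideal (𝓞 K))⁰) = FE_pr v ^ l * J' := congrArg Subtype.val h
        rcases le_total k l with hkl | hkl
        · obtain ⟨h2, h3⟩ := FE_inj hv J.2 hkl h1
          exact Prod.ext h2 (Subtype.ext h3)
        · obtain ⟨h2, h3⟩ := FE_inj hv J'.2 hkl h1.symm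
          exact Prod.ext h2.symm (Subtype.ext h3.symm)
      · rintro ⟨I, hI⟩
        obtain ⟨k, J, hJ, h1⟩ := FE_surj hI
        exact ⟨(k, ⟨J, hJ⟩), Subtype.ext h1⟩
    rw [← (Equiv.ofBijective _ hbij).hasSum_iff]
    have hfun : ((fun I : FE_S (insert v T) => FE_F χ s I) ∘ (Equiv.ofBijective _ hbij)) =
        fun x : ℕ × FE_S T => (FE_F χ s (FE_pr v)) ^ x.1 * FE_F χ s x.2 := by
      funext x
      change FE_F χ s (FE_pr v ^ x.1 * x.2) = _
      rw [map_mul, map_pow]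
    rw [hfun]
    have hg := hasSum_geometric_of_norm_lt_one (FE_lt χ s hs v)
    have h8 : Summable fun x : ℕ × FE_S T => FE_F χ s
        (((Equiv.ofBijective _ hbij) x : FE_S (insert v T)) : (Ideal (𝓞 K))⁰) :=
      (FE_sum χ s hs).of_norm.comp_injective
        (Subtype.val_injective.comp (Equiv.ofBijective _ hbij).injective)
    have h9 : Summable fun x : ℕ × FE_S T => (FE_F χ s (FE_pr v)) ^ x.1 * FE_F χ s x.2 := by
      refine h8.congr fun x => ?_
      change FE_F χ s (FE_pr v ^ x.1 * x.2) = _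
      rw [map_mul, map_pow]
    have h10 := HasSum.mul hg ih h9
    exact h10

theorem euler (K : Type) [Field K] [NumberField K] (χ : ClassGroup (𝓞 K) →* ℂ) (s : ℝ)
    (hs : 1 < s) :
    HasProd (fun v : HeightOneSpectrum (𝓞 K) =>
      (1 - χ (cl v) * ((Nv v ^ (-s) : ℝ) : ℂ))⁻¹) (Zs K χ s) := by
  have h1 : Filter.Tendsto (fun T : Finset (HeightOneSpectrum (𝓞 K)) =>
      ∑' I : (Ideal (𝓞 K))⁰, (FE_S T).indicator (FE_F χ s) I) Filter.atTop
      (nhds (∑' I : (Ideal (𝓞 K))⁰, FE_F χ s I)) := by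
    refine tendsto_tsum_of_dominated_convergence (FE_sum χ s hs) ?_ ?_
    · intro I
      have hI0 : (I : Ideal (𝓞 K)) ≠ 0 := nonZeroDivisors.coe_ne_zero I
      refine tendsto_const_nhds.congr' ?_
      filter_upwards [Filter.eventually_ge_atTop (Ideal.finite_factors hI0).toFinset] with T hT
      rw [Set.indicator_of_mem]
      intro v hv
      apply hT
      rw [Set.Finite.mem_toFinset]
      exact hv
    · filter_upwards with T I
      exact norm_indicator_le_norm_self _ _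
  have h2 : ∀ T : Finset (HeightOneSpectrum (𝓞 K)),
      ∑' I : (Ideal (𝓞 K))⁰, (FE_S T).indicator (FE_F χ s) I =
        ∏ v ∈ T, (1 - χ (cl v) * ((Nv v ^ (-s) : ℝ) : ℂ))⁻¹ := by
    intro T
    rw [← tsum_subtype]
    exact (FE_fac χ s hs T).tsum_eq
  simp_rw [h2] at h1
  exact h1

end H2T4
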