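import Pool.Agent.H2.T4.FDf

/-!
Row FP (about 190 lines): primes in a Galois extension of prime degree `q`.

PROOF. F/F₀ Galois, finrank = q prime, G = Gal(F/F₀). For a place v of F₀ unramified in F (all but finitely many: bad_finite below) e = 1 and r f = q (Mathlib: `Ideal.ncard_primesOver_mul_ramificationIdxIn_mul_inertiaDegIn`, Mathlib.NumberTheory.RamificationInertia.Galois, for 𝓞 F₀ → 𝓞 F), so r = 1 or f = 1.
 r = 1: one prime above, e = 1: the map of v.asIdeal is that prime (Ideal.map_algebraMap_eq_finset_prod_pow or the factorisation of the map), so Inert. r = q, f = 1: q primes Q above v, N(Q) = N(v)^f = N(v) (Ideal.absNorm_eq_pow_inertiaDeg or `Ideal.relNorm_eq_pow_of_isPrime`).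
 split v := the Finset of the places of F above v (as HeightOneSpectrum (𝓞 F)); places above different v are different (comap).
 finite_bad: only finitely many places are ramified: Mathlib has finiteness of ramified primes (search `ramified` finite / differentIdeal: `dvd_differentIdeal_iff`, primes dividing the different are finitely many), or use Pool/Agent/H17.. ; any finite S outside of which the statement holds is fine.
 The statement `split_or_inert`: a finite set S, and a function above : places of F₀ → Finset of places of F, such that the sets are pairwise disjoint and for v ∉ S either v is inert or above v has exactly q elements, all of norm Nv v.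
-/

set_option autoImplicit false
open scoped Classical nonZeroDivisors

open IsDedekindDomain NumberField

namespace H2T4

section FPaux

variable (F₀ F : Type) [Field F₀] [NumberField F₀] [Field F] [NumberField F] [Algebra F₀ F]

/-- The places above a place. -/
private lemma FP_finite (v : HeightOneSpectrum (𝓞 F₀)) :
    {w : HeightOneSpectrum (𝓞 F) | w.asIdeal.LiesOver v.asIdeal}.Finite := by
  have h := IsDedekindDomain.primesOver_finite v.asIdeal (𝓞 F)
  refine Set.Finite.of_injOn (f := fun w : HeightOneSpectrum (𝓞 F) => w.asIdeal)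
    (t := v.asIdeal.primesOver (𝓞 F)) (fun w hw => ⟨w.isPrime, hw⟩)
    (fun w _ w' _ hww => HeightOneSpectrum.ext hww) h

private lemma FP_card (v : HeightOneSpectrum (𝓞 F₀)) :
    {w : HeightOneSpectrum (𝓞 F) | w.asIdeal.LiesOver v.asIdeal}.ncard =
      (v.asIdeal.primesOver (𝓞 F)).ncard := by
  refine Set.ncard_congr (fun w _ => w.asIdeal) (fun w hw => ⟨w.isPrime, hw⟩)
    (fun w w' _ _ hww => HeightOneSpectrum.ext hww) fun P hP => ?_
  exact ⟨⟨P, hP.1, Ideal.ne_bot_of_mem_primesOver v.ne_bot hP⟩, hP.2, rfl⟩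

private lemma FP_dvd (v : HeightOneSpectrum (𝓞 F₀)) (P : Ideal (𝓞 F))
    (hP : P ∈ v.asIdeal.primesOver (𝓞 F)) :
    P ^ P.ramificationIdx (𝓞 F₀) ∣ v.asIdeal.map (algebraMap (𝓞 F₀) (𝓞 F)) := by
  rw [Ideal.map_algebraMap_eq_finsetProd_pow v.ne_bot]
  exact Finset.dvd_prod_of_mem (fun P : Ideal (𝓞 F) => P ^ P.ramificationIdx (𝓞 F₀))
    (Set.mem_toFinset.2 hP)

private lemma FP_ram (v : HeightOneSpectrum (𝓞 F₀)) (P : Ideal (𝓞 F))
    (hP : P ∈ v.asIdeal.primesOver (𝓞 F)) (h : 2 ≤ P.ramificationIdx (𝓞 F₀)) :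
    P ∣ differentIdeal (𝓞 F₀) (𝓞 F) := by
  have h1 := pow_sub_one_dvd_differentIdeal (𝓞 F₀) P (P.ramificationIdx (𝓞 F₀)) v.ne_bot
    (FP_dvd F₀ F v P hP)
  exact (dvd_pow_self P (by omega)).trans h1

end FPaux

theorem split_or_inert (F₀ F : Type) [Field F₀] [NumberField F₀] [Field F] [NumberField F]
    [Algebra F₀ F] [IsGalois F₀ F] (q : ℕ) (hq : q.Prime) (hdeg : Module.finrank F₀ F = q) :
    ∃ (S : Set (HeightOneSpectrum (𝓞 F₀))) (above : HeightOneSpectrum (𝓞 F₀) →
      Finset (HeightOneSpectrum (𝓞 F))), S.Finite ∧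
      (∀ v w, v ≠ w → Disjoint (above v) (above w)) ∧
      ∀ v ∉ S, Inert F₀ F v ∨ ((above v).card = q ∧ ∀ w ∈ above v, Nv w = Nv v) := by
  have hG : Nat.card (F ≃ₐ[F₀] F) = q := by
    rw [IsGalois.card_aut_eq_finrank, hdeg]
  refine ⟨{v | ∃ w : HeightOneSpectrum (𝓞 F), w.asIdeal ∣ differentIdeal (𝓞 F₀) (𝓞 F) ∧
    w.asIdeal.LiesOver v.asIdeal}, fun v => (FP_finite F₀ F v).toFinset, ?_, ?_, ?_⟩
  · have h1 : {w : HeightOneSpectrum (𝓞 F) | w.asIdeal ∣ differentIdeal (𝓞 F₀) (𝓞 F)}.Finite :=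
      Ideal.finite_factors differentIdeal_ne_bot
    refine (h1.image (fun w => HeightOneSpectrum.under (𝓞 F₀) w)).subset ?_
    rintro v ⟨w, hw, hv⟩
    exact ⟨w, hw, HeightOneSpectrum.ext hv.over.symm⟩
  · intro v w hvw
    rw [Finset.disjoint_left]
    intro u hu hu'
    rw [Set.Finite.mem_toFinset] at hu hu'
    exact hvw (HeightOneSpectrum.ext (hu.over.trans hu'.over.symm))
  · intro v hv
    have hmain := Ideal.ncard_primesOver_mul_ramificationIdxIn_mul_inertiaDegIn v.asIdeal (𝓞 F)
      (F ≃ₐ[F₀] F)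
    have hpos : (v.asIdeal.primesOver (𝓞 F)).ncard ≠ 0 :=
      IsDedekindDomain.primesOver_ncard_ne_zero v.asIdeal (𝓞 F)
    have hone : ∀ P ∈ v.asIdeal.primesOver (𝓞 F), P.ramificationIdx (𝓞 F₀) = 1 := by
      intro P hP
      by_contra hne
      have h0 : v.asIdeal.ramificationIdxIn (𝓞 F) ≠ 0 :=
        Ideal.ramificationIdxIn_ne_zero (F ≃ₐ[F₀] F)
      have hPp := hP.1
      have hPo := hP.2
      rw [Ideal.ramificationIdxIn_eq_ramificationIdx v.asIdeal P (F ≃ₐ[F₀] F)] at h0
      exact hv ⟨⟨P, hP.1, Ideal.ne_bot_of_mem_primesOver v.ne_bot hP⟩,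
        FP_ram F₀ F v P hP (by omega), hP.2⟩
    obtain ⟨P₀, hP₀⟩ := Set.nonempty_of_ncard_ne_zero hpos
    have hPp := hP₀.1
    have hPo := hP₀.2
    rw [Ideal.ramificationIdxIn_eq_ramificationIdx v.asIdeal P₀ (F ≃ₐ[F₀] F), hone P₀ hP₀,
      one_mul, hG] at hmain
    rcases (Nat.dvd_prime hq).1 (Dvd.intro _ hmain) with h1 | h1
    · left
      obtain ⟨P, hP⟩ := Set.ncard_eq_one.1 h1
      have hPm : P ∈ v.asIdeal.primesOver (𝓞 F) := by rw [hP]; exact rfl
      have h2 := Ideal.map_algebraMap_eq_finsetProd_pow (R := 𝓞 F) v.ne_bot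
      have h3 : (v.asIdeal.primesOver (𝓞 F)).toFinset = {P} := by
        ext Q
        rw [Set.mem_toFinset, hP, Finset.mem_singleton, Set.mem_singleton_iff]
      rw [h3, Finset.prod_singleton, hone P hPm, pow_one] at h2
      unfold Inert
      rw [h2]
      exact hPm.1
    · right
      rw [h1] at hmain
      have h2 : v.asIdeal.inertiaDegIn (𝓞 F) = 1 := by
        have hq0 := hq.pos
        exact Nat.eq_of_mul_eq_mul_left hq0 (by omega)
      refine ⟨?_, fun w hw => ?_⟩
      · rw [← h1, ← FP_card, Set.ncard_eq_toFinset_card _ (FP_finite F₀ F v)]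
      · rw [Set.Finite.mem_toFinset] at hw
        have hwo : w.asIdeal.LiesOver v.asIdeal := hw
        have hwp := w.isPrime
        rw [Ideal.inertiaDegIn_eq_inertiaDeg v.asIdeal w.asIdeal (F ≃ₐ[F₀] F)] at h2
        have h3 := Ideal.absNorm_pow_inertiaDeg v.asIdeal w.asIdeal
        rw [h2, pow_one] at h3
        unfold Nv
        rw [h3]

end H2T4
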