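import Pool.Agent.H2.T4.FE
import Pool.Agent.H2.T4.FP

/-!
Row FQ (about 160 lines): two inequalities between Euler products. Use only the STATEMENTS of FE, FP.

Notation: x_v = Nv v ^ (-s) ∈ (0, 1/2) as Nv v ≥ 2, s > 1, u_v = (1 - x_v)⁻¹ ∈ (1, 2).
PROOF of prod_le_zeta: euler for χ = 1 over F: the partial products over finite sets T' of places of F, ∏_{w ∈ T'} (1 - Nv w^(-s))⁻¹, are real, ≥ 1, monotone in T' and converge to Zs F 1 s = ‖Zs F 1 s‖ (a limit of real numbers ≥ 0), so each is ≤ ‖Zs F 1 s‖. (HasProd in ℂ of real factors: take norms, HasProd.norm, and `Multipliable`/monotone: for reals ≥ 1 a finite product is ≤ the infinite product.)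
PROOF of zeta_pow_le: S₁, above from split_or_inert, S := S₁ ∪ S₂ (S₂ the given finite set), C := 2^(q * S.ncard). For every finite set T of places of F₀ split ∏_{v ∈ T} u_v^q into v ∈ S (each factor ≤ 2^q), inert v ∉ S, and v ∉ S not inert, for which u_v^q = ∏_{w ∈ above v} (1 - Nv w^(-s))⁻¹.
 The union of the sets above v is disjoint, so the last part is a product over a finite set of places of F and ≤ ‖Zs F 1 s‖ by prod_le_zeta. The inert part is (∏_{v ∈ T, inert, ∉ S} u_v)^q ≤ A^q if A bounds all finite products over inert places outside S₂. Hence (∏_{v ∈ T} u_v)^q ≤ C ‖Zs F 1 s‖ A^q for all T, and the limit over T.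
PROOF of inert_pow_le: χ ^ j for j < ℓ. ∏_{j<ℓ} Zs K (χ^j) s has the Euler product ∏_v ∏_{j<ℓ} (1 - χ(v)^j x_v)⁻¹. χ(v)^ℓ = 1 with ℓ prime: if χ(v) = 1 the local factor is u_v^ℓ, otherwise χ(v) is a primitive ℓ-th root of unity and it is (1 - x_v^ℓ)⁻¹ (IsPrimitiveRoot.pow_sub_pow_eq_prod_sub_mul, X^ℓ - Y^ℓ = ∏ (X - ζ^i Y)). All local factors are real ≥ 1.
 T a finite set of inert places outside S₂, all with χ(v) = 1: ∏_{v ∈ T} u_v^ℓ is the partial product of the local factors over T, ≤ the full product = ‖∏_j Zs K (χ^j) s‖ (as in prod_le_zeta).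
-/

set_option autoImplicit false
open scoped Classical nonZeroDivisors

open IsDedekindDomain NumberField

namespace H2T4

theorem FQ_one_le_prod {ι : Type*} (r : ι → ℝ) (s : Finset ι) (hr : ∀ i ∈ s, 1 ≤ r i) :
    1 ≤ ∏ i ∈ s, r i := by
  induction s using Finset.induction_on with
  | empty => rw [Finset.prod_empty]
  | insert a s ha ih =>
    rw [Finset.prod_insert ha]
    have h1 := hr a (Finset.mem_insert_self a s)
    have h2 := ih fun i hi => hr i (Finset.mem_insert_of_mem hi)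
    nlinarith

theorem FQ_le {ι : Type*} {f : ι → ℂ} {a : ℂ} (h : HasProd f a) (r : ι → ℝ)
    (hf : ∀ i, f i = (r i : ℂ)) (hr : ∀ i, 1 ≤ r i) (T : Finset ι) : ∏ i ∈ T, r i ≤ ‖a‖ := by
  have h1 : HasProd (fun i => ‖f i‖) ‖a‖ := h.norm
  have h2 : (fun i => ‖f i‖) = r := by
    funext i
    rw [hf, Complex.norm_real, Real.norm_eq_abs, abs_of_nonneg (zero_le_one.trans (hr i))]
  rw [h2] at h1
  have h3 : Filter.Tendsto (fun s : Finset ι => ∏ i ∈ s, r i) Filter.atTop (nhds ‖a‖) := h1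
  refine ge_of_tendsto h3 (Filter.eventually_atTop.2 ⟨T, fun s hs => ?_⟩)
  rw [← Finset.prod_sdiff hs]
  have h4 := FQ_one_le_prod r (s \ T) fun i _ => hr i
  have h5 := FQ_one_le_prod r T fun i _ => hr i
  nlinarith

theorem FQ_x {K : Type} [Field K] [NumberField K] (v : HeightOneSpectrum (𝓞 K)) {s : ℝ}
    (hs : 1 < s) : 0 < Nv v ^ (-s) ∧ Nv v ^ (-s) ≤ 1 / 2 := by
  have h2 := Nv_ge v
  have h0 : 0 < Nv v := by linarith
  refine ⟨Real.rpow_pos_of_pos h0 _, ?_⟩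
  have h3 : Nv v ^ (-s) ≤ (2 : ℝ) ^ (-s) :=
    Real.rpow_le_rpow_of_nonpos two_pos h2 (by linarith)
  have h4 : (2 : ℝ) ^ (-s) ≤ (2 : ℝ) ^ (-1 : ℝ) :=
    Real.rpow_le_rpow_of_exponent_le one_le_two (by linarith)
  have h5 : (2 : ℝ) ^ (-1 : ℝ) = 1 / 2 := by
    rw [Real.rpow_neg_one]
    norm_num
  exact h3.trans (h4.trans h5.le)

theorem FQ_u {K : Type} [Field K] [NumberField K] (v : HeightOneSpectrum (𝓞 K)) {s : ℝ}
    (hs : 1 < s) : 1 ≤ (1 - Nv v ^ (-s))⁻¹ ∧ (1 - Nv v ^ (-s))⁻¹ ≤ 2 := by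
  obtain ⟨h1, h2⟩ := FQ_x v hs
  have h3 : 0 < 1 - Nv v ^ (-s) := by linarith
  constructor
  · rw [one_le_inv₀ h3]
    linarith
  · rw [inv_le_comm₀ h3 two_pos]
    linarith

theorem FQ_hasProd (F : Type) [Field F] [NumberField F] (s : ℝ) (hs : 1 < s) :
    HasProd (fun v : HeightOneSpectrum (𝓞 F) => (((1 - Nv v ^ (-s))⁻¹ : ℝ) : ℂ)) (Zs F 1 s) := by
  have h1 := euler F 1 s hs
  have h2 : (fun v : HeightOneSpectrum (𝓞 F) =>
      (1 - (1 : ClassGroup (𝓞 F) →* ℂ) (cl v) * ((Nv v ^ (-s) : ℝ) : ℂ))⁻¹) =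
      fun v : HeightOneSpectrum (𝓞 F) => (((1 - Nv v ^ (-s))⁻¹ : ℝ) : ℂ) := by
    funext v
    rw [MonoidHom.one_apply, one_mul]
    push_cast
    rfl
  rw [h2] at h1
  exact h1

theorem FQ_roots {c : ℂ} {n : ℕ} (hn : 0 < n) (hc : IsPrimitiveRoot c n) (y : ℂ) :
    ∏ j ∈ Finset.range n, (1 - c ^ j * y) = 1 - y ^ n := by
  have h1 := IsPrimitiveRoot.pow_sub_pow_eq_prod_sub_mul 1 y hn hc
  rw [one_pow] at h1
  rw [h1]
  haveI : NeZero n := ⟨hn.ne'⟩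
  have h2 : Polynomial.nthRootsFinset n (1 : ℂ) = (Finset.range n).image (fun j => c ^ j) := by
    ext x
    rw [Polynomial.mem_nthRootsFinset hn, Finset.mem_image]
    constructor
    · intro hx
      obtain ⟨i, hi, hix⟩ := hc.eq_pow_of_pow_eq_one hx
      exact ⟨i, Finset.mem_range.2 hi, hix⟩
    · rintro ⟨i, -, rfl⟩
      rw [← pow_mul, mul_comm, pow_mul, hc.pow_eq_one, one_pow]
  rw [h2, Finset.prod_image]
  intro i hi j hj hij
  exact hc.pow_inj (Finset.mem_range.1 hi) (Finset.mem_range.1 hj) hij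

theorem FQ_loc {c : ℂ} {l : ℕ} (hl : l.Prime) (hc : c ^ l = 1) {x : ℝ} (hx0 : 0 < x)
    (hx : x ≤ 1 / 2) : ∏ j ∈ Finset.range l, (1 - c ^ j * (x : ℂ))⁻¹ =
      (((if c = 1 then ((1 - x)⁻¹) ^ l else (1 - x ^ l)⁻¹) : ℝ) : ℂ) := by
  rw [Finset.prod_inv_distrib]
  split_ifs with h1
  · rw [h1]
    simp only [one_pow, one_mul, Finset.prod_const, Finset.card_range]
    push_cast
    rw [inv_pow]
  · haveI : Fact l.Prime := ⟨hl⟩
    have h2 : IsPrimitiveRoot c l := IsPrimitiveRoot.iff_orderOf.2 (orderOf_eq_prime hc h1)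
    rw [FQ_roots hl.pos h2]
    push_cast
    rfl

theorem prod_le_zeta (F : Type) [Field F] [NumberField F] (s : ℝ) (hs : 1 < s)
    (T : Finset (HeightOneSpectrum (𝓞 F))) :
    ∏ w ∈ T, (1 - Nv w ^ (-s))⁻¹ ≤ ‖Zs F 1 s‖ := by
  exact FQ_le (FQ_hasProd F s hs) _ (fun _ => rfl) (fun v => (FQ_u v hs).1) T

theorem zeta_pow_le (F₀ F : Type) [Field F₀] [NumberField F₀] [Field F] [NumberField F]
    [Algebra F₀ F] [IsGalois F₀ F] (q : ℕ) (hq : q.Prime) (hdeg : Module.finrank F₀ F = q)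
    (S₂ : Set (HeightOneSpectrum (𝓞 F₀))) (hS₂ : S₂.Finite) :
    ∃ C : ℝ, ∀ s : ℝ, 1 < s → ∀ A : ℝ, (∀ T : Finset (HeightOneSpectrum (𝓞 F₀)),
      (∀ v ∈ T, v ∉ S₂ ∧ Inert F₀ F v) → ∏ v ∈ T, (1 - Nv v ^ (-s))⁻¹ ≤ A) →
      ‖Zs F₀ 1 s‖ ^ q ≤ C * ‖Zs F 1 s‖ * A ^ q := by
  obtain ⟨S₁, above, hS₁, hdisj, hab⟩ := split_or_inert F₀ F q hq hdeg
  set S : Finset (HeightOneSpectrum (𝓞 F₀)) := (hS₁.union hS₂).toFinset with hS
  have hmemS : ∀ v, v ∉ S → v ∉ S₁ ∧ v ∉ S₂ := by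
    intro v hv
    rw [hS, Set.Finite.mem_toFinset, Set.mem_union, not_or] at hv
    exact hv
  refine ⟨((2 : ℝ) ^ S.card) ^ q, fun s hs A hA => ?_⟩
  have hA1 : 1 ≤ A := by
    have h1 := hA ∅ (fun v hv => absurd hv (Finset.notMem_empty v))
    rwa [Finset.prod_empty] at h1
  have hZ : 0 ≤ ‖Zs F 1 s‖ := norm_nonneg _
  have hlim : Filter.Tendsto (fun T : Finset (HeightOneSpectrum (𝓞 F₀)) =>
      (∏ v ∈ T, (1 - Nv v ^ (-s))⁻¹) ^ q) Filter.atTop (nhds (‖Zs F₀ 1 s‖ ^ q)) := by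
    have h1 : HasProd (fun v : HeightOneSpectrum (𝓞 F₀) => ‖(((1 - Nv v ^ (-s))⁻¹ : ℝ) : ℂ)‖)
        ‖Zs F₀ 1 s‖ := (FQ_hasProd F₀ s hs).norm
    have h2 : (fun v : HeightOneSpectrum (𝓞 F₀) => ‖(((1 - Nv v ^ (-s))⁻¹ : ℝ) : ℂ)‖) =
        fun v => (1 - Nv v ^ (-s))⁻¹ := by
      funext v
      rw [Complex.norm_real, Real.norm_eq_abs, abs_of_nonneg (zero_le_one.trans (FQ_u v hs).1)]
    rw [h2] at h1
    have h3 : Filter.Tendsto (fun T : Finset (HeightOneSpectrum (𝓞 F₀)) =>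
      (∏ v ∈ T, (1 - Nv v ^ (-s))⁻¹)) Filter.atTop (nhds ‖Zs F₀ 1 s‖) := h1
    exact h3.pow q
  refine le_of_tendsto hlim (Filter.Eventually.of_forall fun T => ?_)
  have hu0 : ∀ v : HeightOneSpectrum (𝓞 F₀), 0 ≤ (1 - Nv v ^ (-s))⁻¹ :=
    fun v => zero_le_one.trans (FQ_u v hs).1
  have e1 : ∏ v ∈ T, (1 - Nv v ^ (-s))⁻¹ =
      (∏ v ∈ T.filter (fun v => v ∈ S), (1 - Nv v ^ (-s))⁻¹) *
      ((∏ v ∈ (T.filter (fun v => v ∉ S)).filter (fun v => Inert F₀ F v), (1 - Nv v ^ (-s))⁻¹) *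
      (∏ v ∈ (T.filter (fun v => v ∉ S)).filter (fun v => ¬ Inert F₀ F v),
        (1 - Nv v ^ (-s))⁻¹)) := by
    rw [Finset.prod_filter_mul_prod_filter_not, Finset.prod_filter_mul_prod_filter_not]
  have b1 : ∏ v ∈ T.filter (fun v => v ∈ S), (1 - Nv v ^ (-s))⁻¹ ≤ (2 : ℝ) ^ S.card := by
    have h1 : ∏ v ∈ T.filter (fun v => v ∈ S), (1 - Nv v ^ (-s))⁻¹ ≤
        ∏ _v ∈ T.filter (fun v => v ∈ S), (2 : ℝ) :=
      Finset.prod_le_prod (fun v _ => hu0 v) (fun v _ => (FQ_u v hs).2)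
    rw [Finset.prod_const] at h1
    refine h1.trans (pow_le_pow_right₀ one_le_two (Finset.card_le_card fun v hv => ?_))
    exact (Finset.mem_filter.1 hv).2
  have b2 : ∏ v ∈ (T.filter (fun v => v ∉ S)).filter (fun v => Inert F₀ F v),
      (1 - Nv v ^ (-s))⁻¹ ≤ A := by
    refine hA _ fun v hv => ?_
    obtain ⟨h1, h2⟩ := Finset.mem_filter.1 hv
    exact ⟨(hmemS v (Finset.mem_filter.1 h1).2).2, h2⟩
  have b3 : (∏ v ∈ (T.filter (fun v => v ∉ S)).filter (fun v => ¬ Inert F₀ F v),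
        (1 - Nv v ^ (-s))⁻¹) ^ q ≤ ‖Zs F 1 s‖ := by
    have h1 : (∏ v ∈ (T.filter (fun v => v ∉ S)).filter (fun v => ¬ Inert F₀ F v),
        (1 - Nv v ^ (-s))⁻¹) ^ q =
        ∏ w ∈ ((T.filter (fun v => v ∉ S)).filter (fun v => ¬ Inert F₀ F v)).biUnion above,
          (1 - Nv w ^ (-s))⁻¹ := by
      rw [Finset.prod_biUnion (fun v _ w _ hvw => hdisj v w hvw), ← Finset.prod_pow]
      refine Finset.prod_congr rfl fun v hv => ?_
      obtain ⟨h1, h2⟩ := Finset.mem_filter.1 hv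
      rcases hab v (hmemS v (Finset.mem_filter.1 h1).2).1 with h3 | ⟨h3, h4⟩
      · exact absurd h3 h2
      · rw [Finset.prod_congr rfl (fun w hw => by rw [h4 w hw]), Finset.prod_const, h3]
    rw [h1]
    exact prod_le_zeta F s hs _
  rw [e1, mul_pow, mul_pow]
  have p1 : 0 ≤ ∏ v ∈ T.filter (fun v => v ∈ S), (1 - Nv v ^ (-s))⁻¹ :=
    Finset.prod_nonneg fun v _ => hu0 v
  have p2 : 0 ≤ ∏ v ∈ (T.filter (fun v => v ∉ S)).filter (fun v => Inert F₀ F v),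
      (1 - Nv v ^ (-s))⁻¹ := Finset.prod_nonneg fun v _ => hu0 v
  have p3 : 0 ≤ ∏ v ∈ (T.filter (fun v => v ∉ S)).filter (fun v => ¬ Inert F₀ F v),
      (1 - Nv v ^ (-s))⁻¹ := Finset.prod_nonneg fun v _ => hu0 v
  have c1 := pow_le_pow_left₀ p1 b1 q
  have c2 := pow_le_pow_left₀ p2 b2 q
  have c3 : (∏ v ∈ (T.filter (fun v => v ∉ S)).filter (fun v => Inert F₀ F v),
      (1 - Nv v ^ (-s))⁻¹) ^ q * (∏ v ∈ (T.filter (fun v => v ∉ S)).filter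
        (fun v => ¬ Inert F₀ F v), (1 - Nv v ^ (-s))⁻¹) ^ q ≤ A ^ q * ‖Zs F 1 s‖ :=
    mul_le_mul c2 b3 (pow_nonneg p3 q) (pow_nonneg (zero_le_one.trans hA1) q)
  have c4 := mul_le_mul c1 c3 (mul_nonneg (pow_nonneg p2 q) (pow_nonneg p3 q))
    (pow_nonneg (pow_nonneg zero_le_two _) q)
  refine c4.trans (le_of_eq ?_)
  ring

theorem inert_pow_le (K : Type) [Field K] [NumberField K] (ℓ : ℕ) (hℓ : ℓ.Prime)
    (χ : ClassGroup (𝓞 K) →* ℂ) (hχ : ∀ c, χ c ^ ℓ = 1) (s : ℝ) (hs : 1 < s)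
    (T : Finset (HeightOneSpectrum (𝓞 K))) (hT : ∀ v ∈ T, χ (cl v) = 1) :
    (∏ v ∈ T, (1 - Nv v ^ (-s))⁻¹) ^ ℓ ≤ ∏ j ∈ Finset.range ℓ, ‖Zs K (χ ^ j) s‖ := by
  have hprod : HasProd (fun v : HeightOneSpectrum (𝓞 K) => ∏ j ∈ Finset.range ℓ,
      (1 - (χ ^ j) (cl v) * ((Nv v ^ (-s) : ℝ) : ℂ))⁻¹) (∏ j ∈ Finset.range ℓ, Zs K (χ ^ j) s) :=
    hasProd_prod fun j _ => euler K (χ ^ j) s hs
  have hloc : ∀ v : HeightOneSpectrum (𝓞 K), ∏ j ∈ Finset.range ℓ,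
      (1 - (χ ^ j) (cl v) * ((Nv v ^ (-s) : ℝ) : ℂ))⁻¹ =
      (((if χ (cl v) = 1 then ((1 - Nv v ^ (-s))⁻¹) ^ ℓ else (1 - (Nv v ^ (-s)) ^ ℓ)⁻¹ : ℝ)) : ℂ) := by
    intro v
    obtain ⟨h1, h2⟩ := FQ_x v hs
    rw [← FQ_loc hℓ (hχ (cl v)) h1 h2]
    refine Finset.prod_congr rfl fun j _ => ?_
    rw [MonoidHom.pow_apply]
  have hge : ∀ v : HeightOneSpectrum (𝓞 K), 1 ≤ (if χ (cl v) = 1 then ((1 - Nv v ^ (-s))⁻¹) ^ ℓ
      else (1 - (Nv v ^ (-s)) ^ ℓ)⁻¹ : ℝ) := by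
    intro v
    obtain ⟨h1, h2⟩ := FQ_x v hs
    split_ifs
    · exact one_le_pow₀ (FQ_u v hs).1
    · have h3 : (Nv v ^ (-s)) ^ ℓ < 1 := pow_lt_one₀ h1.le (by linarith) hℓ.ne_zero
      have h4 : 0 ≤ (Nv v ^ (-s)) ^ ℓ := pow_nonneg h1.le ℓ
      rw [one_le_inv₀ (by linarith)]
      linarith
  have h5 := FQ_le hprod _ hloc hge T
  rw [norm_prod] at h5
  refine le_trans (le_of_eq ?_) h5
  rw [← Finset.prod_pow]
  refine Finset.prod_congr rfl fun v hv => ?_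
  rw [if_pos (hT v hv)]

end H2T4
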