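import Pool.Agent.H2.T4.FA3
import Pool.Agent.H2.T4.FQ

/-!
Row FS (about 150 lines): inert primes with non trivial class, prime degree. Use only the STATEMENTS of FA3, FQ.

PROOF. Compose ψ with an injective character of Multiplicative (ZMod ℓ) (z ↦ exp (2 π i z/ℓ); e.g. ZMod.toCircle or a primitive root ζ and ζ^(val)): χ : ClassGroup →* ℂ with χ c ^ ℓ = 1, χ c = 1 ↔ ψ c = 1, so χ ≠ 1 and χ^j ≠ 1 for 0 < j < ℓ (choose c with ψ c ≠ 1; χ c is a primitive ℓ-th root of unity).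
 Suppose that all inert v ∉ S₂ have ψ (cl v) = 1. For s ∈ (1,2] put A := (∏_{j<ℓ} ‖Zs F₀ (χ^j) s‖)^(1/ℓ) (rpow): by inert_pow_le A bounds all finite products over inert v ∉ S₂. A^ℓ ≤ C₁/(s-1) (zs_one for j = 0, zs_bounded for 0 < j < ℓ, maximum of the bounds; we may take all bounds ≥ 1).
 zeta_pow_le: (c/(s-1))^q ≤ C₂ (C₃/(s-1)) A^q, so A^q ≥ c' (s-1)^(-(q-1)) with c' > 0 (C₂ C₃ > 0 since the left side is positive; replace by max 1). Raise to the power ℓ: c'^ℓ (s-1)^(-(q-1) ℓ) ≤ (A^ℓ)^q ≤ C₁^q (s-1)^(-q), so c'^ℓ ≤ C₁^q (s-1)^((q-1) ℓ - q) with (q-1) ℓ - q ≥ 1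
 (q ≥ 2, ℓ ≥ 3: (q-1) ℓ ≥ 3 (q-1) ≥ q + 1), for all s ∈ (1,2]; s -> 1 is a contradiction.
-/

set_option autoImplicit false
open scoped Classical nonZeroDivisors

open IsDedekindDomain NumberField

namespace H2T4

private theorem FS_arith (q ℓ : ℕ) (hq : 2 ≤ q) (hℓ : 3 ≤ ℓ) : ∃ m, q * ℓ = ℓ + q + (m + 1) := by
  obtain ⟨a, rfl⟩ := Nat.exists_eq_add_of_le hq
  obtain ⟨b, rfl⟩ := Nat.exists_eq_add_of_le hℓ
  exact ⟨2 * a + b + a * b, by ring⟩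

private theorem FS_key (q ℓ : ℕ) (hq : 2 ≤ q) (hℓ : 3 ≤ ℓ) (c C C1 C3 BB t X Y P A : ℝ)
    (hc : 0 < c) (hC : 0 < C) (hC1 : 0 < C1) (hC3 : 0 < C3) (hBB : 0 < BB) (ht : 0 < t)
    (ht1 : t ≤ 1) (hA : 0 ≤ A) (hAP : A ^ ℓ = P) (hY : 0 ≤ Y)
    (h1 : c / t ≤ X) (h3 : Y ≤ C3 / t) (h4 : X ^ q ≤ C * Y * A ^ q) (h5 : P ≤ C1 / t * BB) :
    c ^ (q * ℓ) ≤ C ^ ℓ * C3 ^ ℓ * (C1 * BB) ^ q * t := by
  have hct : 0 < c / t := div_pos hc ht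
  have hX : 0 < X := hct.trans_le h1
  have hP : 0 ≤ P := by rw [← hAP]; positivity
  have e1 : (c / t) ^ (q * ℓ) ≤ C ^ ℓ * (C3 / t) ^ ℓ * (C1 / t * BB) ^ q := by
    calc (c / t) ^ (q * ℓ) ≤ X ^ (q * ℓ) := pow_le_pow_left₀ hct.le h1 _
      _ = (X ^ q) ^ ℓ := pow_mul _ _ _
      _ ≤ (C * Y * A ^ q) ^ ℓ := pow_le_pow_left₀ (by positivity) h4 _
      _ = C ^ ℓ * Y ^ ℓ * P ^ q := by
          rw [mul_pow, mul_pow, ← hAP, ← pow_mul, ← pow_mul, mul_comm q ℓ]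
      _ ≤ C ^ ℓ * (C3 / t) ^ ℓ * (C1 / t * BB) ^ q := by
          refine mul_le_mul (mul_le_mul_of_nonneg_left (pow_le_pow_left₀ hY h3 _)
            (by positivity)) (pow_le_pow_left₀ hP h5 _) (by positivity) (by positivity)
  obtain ⟨m, hm⟩ := FS_arith q ℓ hq hℓ
  have e2 : c ^ (q * ℓ) = (c / t) ^ (q * ℓ) * t ^ (q * ℓ) := by
    rw [← mul_pow, div_mul_cancel₀ _ ht.ne']
  have e3 : C ^ ℓ * (C3 / t) ^ ℓ * (C1 / t * BB) ^ q * t ^ (q * ℓ) =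
      C ^ ℓ * C3 ^ ℓ * (C1 * BB) ^ q * (t ^ m * t) := by
    have a1 : (C3 / t) ^ ℓ * t ^ ℓ = C3 ^ ℓ := by rw [← mul_pow, div_mul_cancel₀ _ ht.ne']
    have a2 : (C1 / t * BB) ^ q * t ^ q = (C1 * BB) ^ q := by
      rw [← mul_pow]
      congr 1
      field_simp
    rw [hm, pow_add, pow_add, pow_succ, ← a1, ← a2]
    ring
  have e4 : t ^ m * t ≤ t := by
    have := mul_le_mul_of_nonneg_right (pow_le_one₀ (n := m) ht.le ht1) ht.le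
    rwa [one_mul] at this
  calc c ^ (q * ℓ) = (c / t) ^ (q * ℓ) * t ^ (q * ℓ) := e2
    _ ≤ C ^ ℓ * (C3 / t) ^ ℓ * (C1 / t * BB) ^ q * t ^ (q * ℓ) :=
        mul_le_mul_of_nonneg_right e1 (by positivity)
    _ = C ^ ℓ * C3 ^ ℓ * (C1 * BB) ^ q * (t ^ m * t) := e3
    _ ≤ _ := mul_le_mul_of_nonneg_left e4 (by positivity)

private theorem FS_fin (x K : ℝ) (hx : 0 < x) (hK : 0 < K)
    (h : ∀ t : ℝ, 0 < t → t ≤ 1 → x ≤ K * t) : False := by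
  have h1 := h (min 1 (x / (2 * K))) (lt_min one_pos (by positivity)) (min_le_left _ _)
  have h2 : K * min 1 (x / (2 * K)) ≤ K * (x / (2 * K)) :=
    mul_le_mul_of_nonneg_left (min_le_right _ _) hK.le
  have h3 : K * (x / (2 * K)) = x / 2 := by field_simp
  linarith

private theorem FS_char {Cl : Type*} [Group Cl] (ℓ : ℕ) [Fact ℓ.Prime]
    (ψ : Cl →* Multiplicative (ZMod ℓ)) (hψ : ψ ≠ 1) :
    ∃ χ : Cl →* ℂ, (∀ c, χ c ^ ℓ = 1) ∧ (∀ c, ψ c = 1 → χ c = 1) ∧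
      ∀ j, 0 < j → j < ℓ → χ ^ j ≠ 1 := by
  refine ⟨((ZMod.stdAddChar (N := ℓ)).toMonoidHom).comp ψ, ?_, ?_, ?_⟩
  · intro c
    show (ZMod.stdAddChar (N := ℓ)) (Multiplicative.toAdd (ψ c)) ^ ℓ = 1
    rw [← AddChar.map_nsmul_eq_pow, nsmul_eq_mul, ZMod.natCast_self, zero_mul,
      AddChar.map_zero_eq_one]
  · intro c hc
    show (ZMod.stdAddChar (N := ℓ)) (Multiplicative.toAdd (ψ c)) = 1
    rw [hc, toAdd_one, AddChar.map_zero_eq_one]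
  · intro j hj hjl h
    apply hψ
    ext c
    by_contra hc
    have h1 := DFunLike.congr_fun h c
    have h2 : (ZMod.stdAddChar (N := ℓ)) (Multiplicative.toAdd (ψ c)) ^ j = 1 := h1
    rw [← AddChar.map_nsmul_eq_pow, ← AddChar.map_zero_eq_one (ZMod.stdAddChar (N := ℓ))] at h2
    have h3 := ZMod.injective_stdAddChar h2
    rw [nsmul_eq_mul] at h3
    rcases mul_eq_zero.1 h3 with h4 | h4
    · rw [ZMod.natCast_eq_zero_iff] at h4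
      exact absurd (Nat.le_of_dvd hj h4) (by omega)
    · apply hc
      exact congrArg _ h4

theorem inert_prime (F₀ F : Type) [Field F₀] [NumberField F₀] [Field F] [NumberField F]
    [Algebra F₀ F] [IsGalois F₀ F] (q : ℕ) (hq : q.Prime) (hdeg : Module.finrank F₀ F = q)
    (ℓ : ℕ) (hℓ : ℓ.Prime) (hℓ3 : 3 ≤ ℓ)
    (ψ : ClassGroup (𝓞 F₀) →* Multiplicative (ZMod ℓ)) (hψ : ψ ≠ 1)
    (S₂ : Set (HeightOneSpectrum (𝓞 F₀))) (hS₂ : S₂.Finite) :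
    ∃ v : HeightOneSpectrum (𝓞 F₀), v ∉ S₂ ∧ Inert F₀ F v ∧ ψ (cl v) ≠ 1 := by
  by_contra hcon
  push Not at hcon
  have hf : Fact ℓ.Prime := ⟨hℓ⟩
  obtain ⟨χ, hχ1, hχ2, hχ3⟩ := FS_char ℓ ψ hψ
  have hB : ∀ j : ℕ, ∃ B : ℝ, 0 < j → j < ℓ → ∀ s : ℝ, 1 < s → s ≤ 2 →
      ‖Zs F₀ (χ ^ j) s‖ ≤ B := by
    intro j
    by_cases hj : 0 < j ∧ j < ℓ
    · obtain ⟨B, hB⟩ := zs_bounded F₀ (χ ^ j) (hχ3 j hj.1 hj.2)
      exact ⟨B, fun _ _ => hB⟩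
    · exact ⟨0, fun h1 h2 => absurd ⟨h1, h2⟩ hj⟩
  choose B hB using hB
  obtain ⟨c, C1, hc, hz⟩ := zs_one F₀
  obtain ⟨c', C3, hc', hz'⟩ := zs_one F
  obtain ⟨C, hC⟩ := zeta_pow_le F₀ F q hq hdeg S₂ hS₂
  have hC1 : 0 < C1 := by
    have h := hz 2 (by norm_num) le_rfl
    have h2 := h.1.trans h.2
    norm_num at h2
    linarith
  have hC3 : 0 < C3 := by
    have h := hz' 2 (by norm_num) le_rfl
    have h2 := h.1.trans h.2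
    norm_num at h2
    linarith
  obtain ⟨m, hm⟩ : ∃ m, ℓ = m + 1 := ⟨ℓ - 1, by omega⟩
  obtain ⟨BB, hBB⟩ : ∃ BB : ℝ, BB = ∏ j ∈ Finset.range m, max (B (j + 1)) 1 := ⟨_, rfl⟩
  have hBBpos : 0 < BB := by
    rw [hBB]
    exact Finset.prod_pos fun j _ => lt_max_of_lt_right one_pos
  refine FS_fin (c ^ (q * ℓ)) ((max C 1) ^ ℓ * C3 ^ ℓ * (C1 * BB) ^ q) (by positivity)
    (by positivity) fun t ht ht1 => ?_
  have hs1 : (1 : ℝ) < 1 + t := by linarith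
  have hs2 : 1 + t ≤ (2 : ℝ) := by linarith
  have e0 : 1 + t - 1 = t := by ring
  have hz1 := hz (1 + t) hs1 hs2
  have hz2 := hz' (1 + t) hs1 hs2
  rw [e0] at hz1 hz2
  obtain ⟨P, hP⟩ : ∃ P, P = ∏ j ∈ Finset.range ℓ, ‖Zs F₀ (χ ^ j) (1 + t)‖ := ⟨_, rfl⟩
  have hP0 : 0 ≤ P := by
    rw [hP]
    exact Finset.prod_nonneg fun _ _ => norm_nonneg _
  have hPb : P ≤ C1 / t * BB := by
    rw [hP, hm, Finset.prod_range_succ', pow_zero, mul_comm, hBB]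
    refine mul_le_mul hz1.2 (Finset.prod_le_prod (fun _ _ => norm_nonneg _) fun j hj => ?_)
      (Finset.prod_nonneg fun _ _ => norm_nonneg _) (by positivity)
    have hj' := Finset.mem_range.1 hj
    exact (hB (j + 1) (by omega) (by omega) (1 + t) hs1 hs2).trans (le_max_left _ _)
  have hA : ∀ T : Finset (HeightOneSpectrum (𝓞 F₀)), (∀ v ∈ T, v ∉ S₂ ∧ Inert F₀ F v) →
      ∏ v ∈ T, (1 - Nv v ^ (-(1 + t)))⁻¹ ≤ P ^ ((ℓ : ℝ)⁻¹) := by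
    intro T hT
    have h1 := inert_pow_le F₀ ℓ hℓ χ hχ1 (1 + t) hs1 T
      (fun v hv => hχ2 _ (hcon v (hT v hv).1 (hT v hv).2))
    rw [← hP] at h1
    have h2 : (P ^ ((ℓ : ℝ)⁻¹)) ^ ℓ = P := Real.rpow_inv_natCast_pow hP0 hℓ.ne_zero
    rw [← h2] at h1
    exact le_of_pow_le_pow_left₀ hℓ.ne_zero (Real.rpow_nonneg hP0 _) h1
  have h4 := hC (1 + t) hs1 _ hA
  have h4' : ‖Zs F₀ 1 (1 + t)‖ ^ q ≤
      max C 1 * ‖Zs F 1 (1 + t)‖ * (P ^ ((ℓ : ℝ)⁻¹)) ^ q := by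
    refine h4.trans ?_
    have h6 : 0 ≤ (P ^ ((ℓ : ℝ)⁻¹)) ^ q := pow_nonneg (Real.rpow_nonneg hP0 _) _
    exact mul_le_mul_of_nonneg_right
      (mul_le_mul_of_nonneg_right (le_max_left _ _) (norm_nonneg _)) h6
  exact FS_key q ℓ hq.two_le hℓ3 c (max C 1) C1 C3 BB t _ _ P _ hc
    (lt_max_of_lt_right one_pos) hC1 hC3 hBBpos ht ht1 (Real.rpow_nonneg hP0 _)
    (Real.rpow_inv_natCast_pow hP0 hℓ.ne_zero) (norm_nonneg _) hz1.1 hz2.2 h4' hPb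

end H2T4
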