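import Pool.Agent.H2.T4.GDf

/-!
Row G1 (about 220 lines): the cyclotomic field of conductor N p^(n+1) over a tower. ADAPTATION of the PROVED file Pool/Agent/H55/T3/Ct.lean (there N = 3; copy it and replace 3 by N).

PROOF. Identical: C := CyclotomicField (N * p ^ (n + 1)) ℚ, φ : F →+* C from T.rp.rL.emb and the embedding of CyclotomicField (p ^ (n + 1)) ℚ which sends ζ to ζ ^ N. The lemmas Ct_eta, Ct_key with ζ ^ N in place of ζ ^ 3 (hw.pow, N * p ^ (n + 1) = N * ..), Ct_crt: N coprime to p (hpN), a unit k with k ≡ 1 mod N, k ≡ u mod p^(n+1).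
 kpp is by definition the reduction of kp modulo p ^ (n + 1); InH as in T3 with N (Pool/Agent/H78/MG/Df.lean).
-/

set_option autoImplicit false
open scoped Classical

open IsDedekindDomain NumberField Finset H5SW H78M

namespace H2T4

section G1_aux

theorem G1_pow_mod {C : Type} [Field C] {η : C} {N : ℕ} (h : η ^ N = 1) (a : ℕ) : η ^ (a % N) = η ^ a := by
  conv_rhs => rw [← Nat.mod_add_div a N, pow_add, pow_mul, h, one_pow, mul_one]

theorem G1_val {p n N : ℕ} [Fact p.Prime] [NeZero N] (x : (ZMod (N * p ^ (n + 1)))ˣ) :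
    ((ZMod.unitsMap (dvd_mul_left (p ^ (n + 1)) N : p ^ (n + 1) ∣ N * p ^ (n + 1)) x : (ZMod (p ^ (n + 1)))ˣ) :
      ZMod (p ^ (n + 1))).val = (x : ZMod (N * p ^ (n + 1))).val % p ^ (n + 1) := by
  rw [ZMod.unitsMap_val, ZMod.cast_eq_val, ZMod.val_natCast]

theorem G1_eta {p n N : ℕ} [Fact p.Prime] [NeZero N] (hp2 : p ≠ 2) {F C : Type} [Field F] [NumberField F] [Field C]
    [NumberField C] [IsCyclotomicExtension {N * p ^ (n + 1)} ℚ C] (r : RC (p ^ (n + 1)) F) (φ : F →+* C) :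
    ∃ η : C, η ^ (p ^ (n + 1)) = 1 ∧
      ∀ a : ZMod (p ^ (n + 1)), φ (r.c a : F) = η ^ a.val + (η ^ a.val)⁻¹ := by
  have hp : p.Prime := Fact.out
  have hpos : 0 < p ^ (n + 1) := pow_pos hp.pos _
  obtain ⟨z, hz, hza⟩ := psi hp2 r (k := AlgebraicClosure C)
    (by exact_mod_cast hp.ne_zero)
    ((algebraMap C (AlgebraicClosure C)).comp (φ.comp (algebraMap (𝓞 F) F)))
  have hw := IsCyclotomicExtension.zeta_spec (N * p ^ (n + 1)) ℚ C
  have hw3 : IsPrimitiveRoot (IsCyclotomicExtension.zeta (N * p ^ (n + 1)) ℚ C ^ N) (p ^ (n + 1)) :=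
    hw.pow (Nat.mul_pos (NeZero.pos N) hpos) rfl
  have hwk := hw3.map_of_injective (algebraMap C (AlgebraicClosure C)).injective
  have : NeZero (p ^ (n + 1)) := ⟨hpos.ne'⟩
  obtain ⟨i, -, hi⟩ := hwk.eq_pow_of_pow_eq_one hz.pow_eq_one
  refine ⟨(IsCyclotomicExtension.zeta (N * p ^ (n + 1)) ℚ C ^ N) ^ i, ?_, ?_⟩
  · rw [pow_right_comm, hw3.pow_eq_one, one_pow]
  · intro a
    apply (algebraMap C (AlgebraicClosure C)).injective
    have h1 := hza a
    rw [← hi] at h1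
    rw [map_add, map_inv₀, map_pow, map_pow]
    exact h1

theorem G1_key {p n N : ℕ} [Fact p.Prime] [NeZero N] (hp2 : p ≠ 2) {F C : Type} [Field F] [NumberField F] [Field C]
    [NumberField C] [IsCyclotomicExtension {N * p ^ (n + 1)} ℚ C] (r : RC (p ^ (n + 1)) F) (φ : F →+* C)
    (g : C ≃ₐ[ℚ] C) (y : F) :
    g (φ y) = φ (r.σ (ZMod.unitsMap (dvd_mul_left (p ^ (n + 1)) N) (kp (N * p ^ (n + 1)) g)) y) := by
  have hp : p.Prime := Fact.out
  have hpos : 0 < p ^ (n + 1) := pow_pos hp.pos _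
  obtain ⟨η, hη, hc⟩ := G1_eta (N := N) hp2 r φ
  obtain ⟨u, hu⟩ : ∃ u : (ZMod (p ^ (n + 1)))ˣ, u = ZMod.unitsMap (dvd_mul_left (p ^ (n + 1)) N) (kp (N * p ^ (n + 1)) g) := ⟨_, rfl⟩
  have hgη : g η = η ^ (u : ZMod (p ^ (n + 1))).val := by
    have h1 : η ^ (N * p ^ (n + 1)) = 1 := by rw [mul_comm, pow_mul, hη, one_pow]
    have h2 := IsCyclotomicExtension.Rat.galEquivZMod_apply_of_pow_eq (N * p ^ (n + 1)) C g h1
    rw [h2, hu, G1_val, G1_pow_mod hη]
  have hgc : ∀ a : ZMod (p ^ (n + 1)), g (φ (r.c a : F)) = φ (r.c (u * a) : F) := by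
    intro a
    rw [hc, hc, map_add, map_inv₀, map_pow, hgη, ← pow_mul, ZMod.val_mul, G1_pow_mod hη]
  rw [← hu]
  let : Algebra F C := φ.toAlgebra
  have : IsGalois ℚ F := r.gal
  have hr : ∀ y : F, φ (g.restrictNormal F y) = g (φ y) := fun y => AlgEquiv.restrictNormal_commutes g F y
  have h1 : r.σ (r.u (g.restrictNormal F)) = r.σ u := by
    have h2 := hr (r.c 1 : F)
    rw [hgc, r.apply_c, mul_one, mul_one] at h2
    have h3 := r.c_inj (RingOfIntegers.coe_injective (φ.injective h2))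
    rcases h3 with h3 | h3
    · rw [Units.ext h3]
    · rw [← Units.val_neg] at h3
      rw [Units.ext h3, r.σ_neg]
  rw [r.σ_u] at h1
  rw [← hr y, h1]

theorem G1_crt {p m n N : ℕ} [Fact p.Prime] [NeZero N] (hpN : p.Coprime N) (hmn : m ≤ n)
    (u : (ZMod (p ^ (n + 1)))ˣ)
    (hu : ZMod.unitsMap (pow_dvd_pow p (Nat.succ_le_succ hmn)) u = 1) :
    ∃ k : (ZMod (N * p ^ (n + 1)))ˣ,
      ZMod.unitsMap (dvd_mul_left (p ^ (n + 1)) N) k = u ∧
      ZMod.unitsMap (Nat.mul_dvd_mul_left N (pow_dvd_pow p (Nat.succ_le_succ hmn))) k =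
        (1 : (ZMod (N * p ^ (m + 1)))ˣ) := by
  have hp : p.Prime := Fact.out
  have hcop0 : Nat.Coprime N p := hpN.symm
  have hcop : Nat.Coprime N (p ^ (n + 1)) := hcop0.pow_right _
  have hcopm : Nat.Coprime N (p ^ (m + 1)) := hcop0.pow_right _
  have hn0 : NeZero (p ^ (n + 1)) := ⟨(pow_pos hp.pos _).ne'⟩
  have hm0 : NeZero (p ^ (m + 1)) := ⟨(pow_pos hp.pos _).ne'⟩
  obtain ⟨t, ht3, htp⟩ := Nat.chineseRemainder hcop 1 (u : ZMod (p ^ (n + 1))).val
  have htu : (t : ZMod (p ^ (n + 1))) = u := by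
    rw [← ZMod.natCast_zmod_val (u : ZMod (p ^ (n + 1)))]
    exact (ZMod.natCast_eq_natCast_iff _ _ _).2 htp
  have htc3 : Nat.Coprime t N := by
    have h1 : Nat.gcd t N = Nat.gcd 1 N := ht3.gcd_eq
    rw [Nat.coprime_iff_gcd_eq_one, h1, Nat.gcd_one_left]
  have htcp : Nat.Coprime t (p ^ (n + 1)) := by
    rw [← ZMod.isUnit_iff_coprime, htu]
    exact u.isUnit
  have htc : Nat.Coprime t (N * p ^ (n + 1)) := Nat.Coprime.mul_right htc3 htcp
  have hcast : ∀ {d : ℕ} (hd : d ∣ N * p ^ (n + 1)),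
      ((ZMod.unitsMap hd (ZMod.unitOfCoprime t htc) : (ZMod d)ˣ) : ZMod d) = (t : ZMod d) := by
    intro d hd
    rw [ZMod.unitsMap_def, Units.coe_map, MonoidHom.coe_coe, ZMod.coe_unitOfCoprime, map_natCast]
  refine ⟨ZMod.unitOfCoprime t htc, ?_, ?_⟩
  · apply Units.ext
    rw [hcast, htu]
  · apply Units.ext
    rw [hcast, Units.val_one, ← Nat.cast_one, ZMod.natCast_eq_natCast_iff]
    rw [← Nat.modEq_and_modEq_iff_modEq_mul hcopm]
    refine ⟨ht3, ?_⟩
    rw [← ZMod.natCast_eq_natCast_iff, Nat.cast_one]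
    have h1 := congrArg (fun w : (ZMod (p ^ (m + 1)))ˣ => (w : ZMod (p ^ (m + 1)))) hu
    simp only [Units.val_one] at h1
    rw [ZMod.unitsMap_def, Units.coe_map, MonoidHom.coe_coe, ← htu, map_natCast] at h1
    exact h1

end G1_aux

theorem exists_CM {p m n N : ℕ} [Fact p.Prime] [NeZero N] (hp2 : p ≠ 2) (hpN : p.Coprime N)
    {K L M F : Type} [Field K] [NumberField K] [Field L] [NumberField L] [Field M] [NumberField M]
    [Field F] [NumberField F] [Algebra K L] [Algebra M F] [Algebra K M] [Algebra L F]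
    (T : Tw p m n K L M F) :
    ∃ (C : Type) (_ : Field C) (_ : NumberField C) (_ : IsCyclotomicExtension {N * p ^ (n + 1)} ℚ C)
      (_ : Algebra L C) (_ : Algebra K C) (_ : IsScalarTower K L C), CTM p N m n T.rp.hmn K L C := by
  have hpp : p.Prime := Fact.out
  have hpos : 0 < p ^ (n + 1) := pow_pos hpp.pos _
  have hn0 : NeZero (p ^ (n + 1)) := ⟨hpos.ne'⟩
  have hcyc : IsCyclotomicExtension {N * p ^ (n + 1)} ℚ (CyclotomicField (N * p ^ (n + 1)) ℚ) :=
    Ex3_inst (N * p ^ (n + 1))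
  have hcyc1 : IsCyclotomicExtension {p ^ (n + 1)} ℚ (CyclotomicField (p ^ (n + 1)) ℚ) :=
    Ex3_inst (p ^ (n + 1))
  -- the embedding of `F`
  obtain ⟨ι⟩ : Nonempty (CyclotomicField (p ^ (n + 1)) ℚ →+* CyclotomicField (N * p ^ (n + 1)) ℚ) := by
    have hz := IsCyclotomicExtension.zeta_spec (p ^ (n + 1)) ℚ (CyclotomicField (p ^ (n + 1)) ℚ)
    have hw := IsCyclotomicExtension.zeta_spec (N * p ^ (n + 1)) ℚ (CyclotomicField (N * p ^ (n + 1)) ℚ)
    have hw2 : IsPrimitiveRoot (IsCyclotomicExtension.zeta (N * p ^ (n + 1)) ℚ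
        (CyclotomicField (N * p ^ (n + 1)) ℚ) ^ N) (p ^ (n + 1)) := hw.pow (Nat.mul_pos (NeZero.pos N) hpos) rfl
    have hirr := Polynomial.cyclotomic.irreducible_rat hpos
    have hmin := hz.minpoly_eq_cyclotomic_of_irreducible hirr
    refine ⟨((hz.powerBasis ℚ).lift _ (?_ : Polynomial.aeval
      (IsCyclotomicExtension.zeta (N * p ^ (n + 1)) ℚ (CyclotomicField (N * p ^ (n + 1)) ℚ) ^ N)
      (minpoly ℚ (hz.powerBasis ℚ).gen) = 0)).toRingHom⟩
    rw [IsPrimitiveRoot.powerBasis_gen, ← hmin, Polynomial.aeval_def, Polynomial.eval₂_eq_eval_map,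
      Polynomial.map_cyclotomic]
    exact hw2.isRoot_cyclotomic hpos
  obtain ⟨e⟩ := T.rp.rL.emb
  obtain ⟨φ, hφ⟩ : ∃ φ : F →+* CyclotomicField (N * p ^ (n + 1)) ℚ, φ = ι.comp e := ⟨_, rfl⟩
  let aL : Algebra L (CyclotomicField (N * p ^ (n + 1)) ℚ) := (φ.comp (algebraMap L F)).toAlgebra
  let aK : Algebra K (CyclotomicField (N * p ^ (n + 1)) ℚ) :=
    ((φ.comp (algebraMap L F)).comp (algebraMap K L)).toAlgebra
  have tow : IsScalarTower K L (CyclotomicField (N * p ^ (n + 1)) ℚ) :=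
    IsScalarTower.of_algebraMap_eq (fun _ => rfl)
  have key := fun (g : CyclotomicField (N * p ^ (n + 1)) ℚ ≃ₐ[ℚ] CyclotomicField (N * p ^ (n + 1)) ℚ) (y : F) =>
    G1_key (N := N) hp2 T.rp.rL φ g y
  refine ⟨CyclotomicField (N * p ^ (n + 1)) ℚ, inferInstance, inferInstance, hcyc, aL, aK, tow, ⟨?_, ?_, ?_⟩⟩
  · intro g hg x
    have h1 : T.rp.rL.σ (ZMod.unitsMap (dvd_mul_left (p ^ (n + 1)) N)
        (kp (N * p ^ (n + 1)) g)) = 1 := (T.rp.rL.ker _).2 hg
    have h2 := key g (algebraMap L F x)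
    rw [h1] at h2
    exact h2
  · intro g hg x
    have h1 : ZMod.unitsMap (pow_dvd_pow p (Nat.succ_le_succ T.rp.hmn))
        (ZMod.unitsMap (dvd_mul_left (p ^ (n + 1)) N) (kp (N * p ^ (n + 1)) g)) = 1 := by
      have h2 : ZMod.unitsMap (dvd_mul_left (p ^ (m + 1)) N : p ^ (m + 1) ∣ N * p ^ (m + 1))
          (ZMod.unitsMap (Nat.mul_dvd_mul_left N (pow_dvd_pow p (Nat.succ_le_succ T.rp.hmn)))
            (kp (N * p ^ (n + 1)) g)) = 1 := by
        unfold InH at hg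
        rw [hg, map_one]
      rw [← MonoidHom.comp_apply, ZMod.unitsMap_comp] at h2 ⊢
      exact h2
    obtain ⟨h, hh⟩ := (T.rp.mem_iff hp2 _).2 ⟨_, h1, rfl⟩
    have h2 := key g (algebraMap L F (algebraMap K L x))
    rw [← T.comm, ← hh] at h2
    have h3 : (h.restrictScalars ℚ) (algebraMap M F (algebraMap K M x)) = algebraMap M F (algebraMap K M x) :=
      h.commutes _
    rw [h3, T.comm] at h2
    exact h2
  · intro t
    have : IsGalois ℚ F := T.rp.rL.gal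
    have : IsAbelianGalois ℚ F := { is_comm.comm x y := T.rp.rL.gal_comm x y }
    have : IsAbelianGalois ℚ L := IsAbelianGalois.tower_bot ℚ L F
    have : IsGalois ℚ L := IsAbelianGalois.toIsGalois
    have hg0 : ∀ y : L, ((t.restrictScalars ℚ).liftNormal F) (algebraMap L F y) = algebraMap L F (t y) :=
      fun y => AlgEquiv.liftNormal_commutes (t.restrictScalars ℚ) F y
    obtain ⟨a, b, hab, ha, hb⟩ := T.gal_split ((t.restrictScalars ℚ).liftNormal F) (by
      intro x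
      rw [hg0, t.commutes])
    have hbr : ∀ y : L, algebraMap L F (b.restrictNormal L y) = b (algebraMap L F y) :=
      fun y => AlgEquiv.restrictNormal_commutes b L y
    have hbt : ∀ y : L, b (algebraMap L F y) = algebraMap L F (t y) := by
      intro y
      rw [← hg0, hab, AlgEquiv.mul_apply, ← hbr, ha]
    obtain ⟨u, hu, hub⟩ := (T.rp.mem_iff hp2 b).1
      ⟨AlgEquiv.ofRingEquiv (f := b.toRingEquiv) (fun x => hb x), by ext x; rfl⟩
    obtain ⟨k, hk1, hk2⟩ := G1_crt hpN T.rp.hmn u hu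
    obtain ⟨g, hg⟩ : ∃ g : CyclotomicField (N * p ^ (n + 1)) ℚ ≃ₐ[ℚ] CyclotomicField (N * p ^ (n + 1)) ℚ,
        kp (N * p ^ (n + 1)) g = k :=
      ⟨(IsCyclotomicExtension.Rat.galEquivZMod (N * p ^ (n + 1)) (CyclotomicField (N * p ^ (n + 1)) ℚ)).symm k,
        MulEquiv.apply_symm_apply _ _⟩
    refine ⟨g, ?_, ?_⟩
    · unfold InH
      rw [hg]
      exact hk2
    · intro x
      have h2 := key g (algebraMap L F x)
      rw [hg, hk1, hub, hbt] at h2
      exact h2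

end H2T4
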