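import Pool.Agent.H2.T4.GDf

/-!
Row G3 (about 130 lines, Mathlib only): automorphisms of the closure with prescribed action on roots of unity.

PROOF. exists_rlift: Ω := AlgebraicClosure C. ω₀ ∈ Ω a primitive N-th root (char 0, algebraically closed: HasEnoughRootsOfUnity / IsAlgClosed / Polynomial.cyclotomic has a root). F := IntermediateField.adjoin ℚ {ω₀} (or Algebra.adjoin), IsCyclotomicExtension {N} ℚ F (IsPrimitiveRoot.intermediateField_adjoin_isCyclotomicExtension or adjoin_isCyclotomicExtension), F/ℚ is Galois,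
   g := (galEquivZMod N F).symm u. Ω/ℚ is normal (algebraic over ℚ: Algebra.IsAlgebraic.trans ℚ C Ω, algebraically closed: splits), s := g.liftNormal Ω: s ω₀ = g ω₀ = ω₀^u.val (IsCyclotomicExtension.Rat.galEquivZMod_apply_of_pow_eq, AlgEquiv.liftNormal_commutes). Every ω with ω^N = 1 is a power of ω₀ (IsPrimitiveRoot.eq_pow_of_pow_eq_one).
 lift_restrict: C/ℚ is Galois (IsCyclotomicExtension.isGalois), g := s.restrictNormal C, restrictNormal_commutes. kp N' g: for ζ ∈ C a primitive N'-th root g ζ = ζ^(kp g).val (galEquivZMod_apply_of_pow_eq) and, in Ω, s ζ = ζ^(u.val) (ζ^N = 1 as N' ∣ N), so (kp g).val ≡ u.val mod N' (IsPrimitiveRoot.pow_inj / eq_orderOf, pow_eq_pow_iff_modEq), i.e. kp g = unitsMap u.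
-/

set_option autoImplicit false
open scoped Classical

open IsDedekindDomain NumberField Finset H5SW H78M

namespace H2T4

private theorem G3_val {C : Type} [Field C] {N N' : ℕ} [NeZero N] [NeZero N'] (h : N' ∣ N) {ζ : C}
    (hζ : IsPrimitiveRoot ζ N') (a : (ZMod N')ˣ) (u : (ZMod N)ˣ)
    (he : ζ ^ (a : ZMod N').val = ζ ^ (u : ZMod N).val) : a = ZMod.unitsMap h u := by
  rw [(hζ.isOfFinOrder (NeZero.ne _)).pow_inj_mod, ← hζ.eq_orderOf,
    ← ZMod.natCast_eq_natCast_iff', ZMod.natCast_val, ZMod.natCast_val, ZMod.cast_id] at he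
  rwa [Units.ext_iff]

theorem exists_rlift {C : Type} [Field C] [NumberField C] (N : ℕ) [NeZero N] (u : (ZMod N)ˣ) :
    ∃ s : AlgebraicClosure C ≃ₐ[ℚ] AlgebraicClosure C,
      ∀ ω : AlgebraicClosure C, ω ^ N = 1 → s ω = ω ^ (u : ZMod N).val := by
  haveI h1 : Algebra.IsAlgebraic ℚ (AlgebraicClosure C) := Algebra.IsAlgebraic.trans ℚ C (AlgebraicClosure C)
  haveI h2 : IsAlgClosure ℚ (AlgebraicClosure C) := ⟨inferInstance, h1⟩
  haveI h3 : Normal ℚ (AlgebraicClosure C) := IsAlgClosure.normal ℚ (AlgebraicClosure C)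
  haveI h4 : Algebra.IsAlgebraic ℚ (CyclotomicField N ℚ) := inferInstance
  haveI h6 : IsCyclotomicExtension {N} ℚ (CyclotomicField N ℚ) :=
    CyclotomicField.isCyclotomicExtension N ℚ
  let i : CyclotomicField N ℚ →ₐ[ℚ] AlgebraicClosure C := IsAlgClosed.lift
  letI : Algebra (CyclotomicField N ℚ) (AlgebraicClosure C) := i.toRingHom.toAlgebra
  haveI : IsScalarTower ℚ (CyclotomicField N ℚ) (AlgebraicClosure C) :=
    IsScalarTower.of_algebraMap_eq' (Subsingleton.elim _ _)
  have hi : ∀ x, algebraMap (CyclotomicField N ℚ) (AlgebraicClosure C) x = i x := fun _ => rfl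
  let g : CyclotomicField N ℚ ≃ₐ[ℚ] CyclotomicField N ℚ :=
    (IsCyclotomicExtension.Rat.galEquivZMod N (CyclotomicField N ℚ)).symm u
  have hg : ∀ x : CyclotomicField N ℚ, x ^ N = 1 → g x = x ^ (u : ZMod N).val := by
    intro x hx
    have h5 := IsCyclotomicExtension.Rat.galEquivZMod_apply_of_pow_eq N (CyclotomicField N ℚ) g hx
    rw [h5]
    congr 2
    show (((IsCyclotomicExtension.Rat.galEquivZMod N (CyclotomicField N ℚ)) g : (ZMod N)ˣ) : ZMod N) = _
    rw [show (IsCyclotomicExtension.Rat.galEquivZMod N (CyclotomicField N ℚ)) g = u from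
      MulEquiv.apply_symm_apply _ u]
  refine ⟨g.liftNormal (AlgebraicClosure C), fun ω hω => ?_⟩
  have hζ := IsCyclotomicExtension.zeta_spec N ℚ (CyclotomicField N ℚ)
  have hζ' : IsPrimitiveRoot (i (IsCyclotomicExtension.zeta N ℚ (CyclotomicField N ℚ))) N :=
    hζ.map_of_injective i.injective
  obtain ⟨k, -, hk⟩ := hζ'.eq_pow_of_pow_eq_one hω
  have hx : (IsCyclotomicExtension.zeta N ℚ (CyclotomicField N ℚ) ^ k) ^ N = 1 := by
    rw [← pow_mul, mul_comm, pow_mul, hζ.pow_eq_one, one_pow]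
  have hω' : ω = algebraMap (CyclotomicField N ℚ) (AlgebraicClosure C)
      (IsCyclotomicExtension.zeta N ℚ (CyclotomicField N ℚ) ^ k) := by
    rw [hi, map_pow, hk]
  rw [hω', AlgEquiv.liftNormal_commutes, hg _ hx, map_pow (algebraMap (CyclotomicField N ℚ) (AlgebraicClosure C))]

theorem lift_restrict {C : Type} [Field C] [NumberField C] {N N' : ℕ} [NeZero N] [NeZero N']
    [IsCyclotomicExtension {N'} ℚ C] (h : N' ∣ N) (u : (ZMod N)ˣ)
    (s : AlgebraicClosure C ≃ₐ[ℚ] AlgebraicClosure C)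
    (hs : ∀ ω : AlgebraicClosure C, ω ^ N = 1 → s ω = ω ^ (u : ZMod N).val) :
    ∃ g : C ≃ₐ[ℚ] C, (∀ x : C, s (algebraMap C (AlgebraicClosure C) x) =
      algebraMap C (AlgebraicClosure C) (g x)) ∧ kp N' g = ZMod.unitsMap h u := by
  haveI : IsGalois ℚ C := IsCyclotomicExtension.isGalois {N'} ℚ C
  have hr : ∀ x : C, algebraMap C (AlgebraicClosure C) (s.restrictNormal C x) =
      s (algebraMap C (AlgebraicClosure C) x) := fun x => AlgEquiv.restrictNormal_commutes s C x
  refine ⟨s.restrictNormal C, fun x => (hr x).symm, ?_⟩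
  have hζ := IsCyclotomicExtension.zeta_spec N' ℚ C
  refine G3_val h hζ _ u ?_
  apply (algebraMap C (AlgebraicClosure C)).injective
  rw [map_pow (algebraMap C (AlgebraicClosure C)) _ (u : ZMod N).val, ← hs, ← hr]
  · exact congrArg _ (IsCyclotomicExtension.Rat.galEquivZMod_apply_of_pow_eq N' C (s.restrictNormal C)
      hζ.pow_eq_one).symm
  · rw [← map_pow, (hζ.pow_eq_one_iff_dvd _).2 h, map_one]

/-- the action on the roots of unity determines the class -/
theorem kp_eq {C : Type} [Field C] [NumberField C] {N : ℕ} [NeZero N] [IsCyclotomicExtension {N} ℚ C]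
    (g : C ≃ₐ[ℚ] C) (u : (ZMod N)ˣ) {ζ : C} (hζ : IsPrimitiveRoot ζ N)
    (h : g ζ = ζ ^ (u : ZMod N).val) : kp N g = u := by
  have h1 : kp N g = ZMod.unitsMap (dvd_refl N) u := by
    refine G3_val (dvd_refl N) hζ _ u ?_
    rw [← h]
    exact (IsCyclotomicExtension.Rat.galEquivZMod_apply_of_pow_eq N C g hζ.pow_eq_one).symm
  rw [h1, ZMod.unitsMap_self]
  rfl

end H2T4
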