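import Pool.Agent.H2.T4.GDf

/-!
Row G4 (about 180 lines, elementary): generators of the group `H`.

PROOF. f = p^(n+1), f₀ = p^(m+1). The kernel Q of (ZMod f)ˣ → (ZMod f₀)ˣ (ZMod.unitsMap (pow_dvd_pow ..)) is cyclic (a subgroup of a cyclic group: ZMod.isCyclic_units_of_prime_pow, p odd) of order φ(f)/φ(f₀) = p^(n-m) (ZMod.unitsMap_surjective, Subgroup.card / MonoidHom index; Nat.totient_prime_pow_succ). Let v₀ ∈ Q be a generator, orderOf v₀ = p^(n-m).
 CRT (N' ∈ {M, M * l}, coprime to p): the map (ZMod (N' f))ˣ → (ZMod N')ˣ × (ZMod f)ˣ (unitsMap, unitsMap) is bijective (as in Ct_crt of Pool/Agent/H55/T3/Ct.lean, ZMod.chineseRemainder or Nat.chineseRemainder and unitOfCoprime; injectivity as in Hf_crt of Pool/Agent/H55/T3/Hf.lean). [prove these two as auxiliary lemmas crt_ex and crt_inj]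
 u₁ := the unit modulo (M * l) * f with u₁ ≡ 1 mod M * l, u₁ ≡ v₀ mod f. Its image in (ZMod ((M * l) * f₀))ˣ is 1 (≡ 1 mod M * l and mod f₀; crt_inj at the level f₀). u := its image modulo M * f: u ≡ 1 mod M, u ≡ v₀ mod f; u^k = 1 iff v₀^k = 1 (crt_inj), so orderOf u = p^(n-m). If v ≡ 1 modulo M * f₀ then v ≡ 1 mod M and v mod f ∈ Q, = v₀^j, so v = u^j (crt_inj).
 Use ZMod.unitsMap_comp for compositions of reductions.
 exists_tau: crt_ex with 1 and -1.
-/

set_option autoImplicit false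
open scoped Classical

open Finset

namespace H2T4

theorem G4_fst {d f : ℕ} (hdf : d.Coprime f) (x : ZMod (d * f)) :
    (ZMod.chineseRemainder hdf x).1 = ZMod.castHom (dvd_mul_right d f) (ZMod d) x := by
  have h : (RingHom.fst (ZMod d) (ZMod f)).comp (ZMod.chineseRemainder hdf).toRingHom =
      ZMod.castHom (dvd_mul_right d f) (ZMod d) := Subsingleton.elim _ _
  exact RingHom.congr_fun h x

theorem G4_snd {d f : ℕ} (hdf : d.Coprime f) (x : ZMod (d * f)) :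
    (ZMod.chineseRemainder hdf x).2 = ZMod.castHom (dvd_mul_left f d) (ZMod f) x := by
  have h : (RingHom.snd (ZMod d) (ZMod f)).comp (ZMod.chineseRemainder hdf).toRingHom =
      ZMod.castHom (dvd_mul_left f d) (ZMod f) := Subsingleton.elim _ _
  exact RingHom.congr_fun h x

theorem crt_ex {N f : ℕ} [NeZero N] [NeZero f] (h : N.Coprime f) (a : (ZMod N)ˣ) (b : (ZMod f)ˣ) :
    ∃ u : (ZMod (N * f))ˣ, ZMod.unitsMap (dvd_mul_right N f) u = a ∧
      ZMod.unitsMap (dvd_mul_left f N) u = b := by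
  refine ⟨Units.map (ZMod.chineseRemainder h).symm.toRingHom.toMonoidHom
    (MulEquiv.prodUnits.symm (a, b)), ?_, ?_⟩
  · apply Units.ext
    change ZMod.castHom (dvd_mul_right N f) (ZMod N)
      ((ZMod.chineseRemainder h).symm ((a : ZMod N), (b : ZMod f))) = (a : ZMod N)
    rw [← G4_fst h, RingEquiv.apply_symm_apply]
  · apply Units.ext
    change ZMod.castHom (dvd_mul_left f N) (ZMod f)
      ((ZMod.chineseRemainder h).symm ((a : ZMod N), (b : ZMod f))) = (b : ZMod f)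
    rw [← G4_snd h, RingEquiv.apply_symm_apply]

theorem crt_inj {N f : ℕ} [NeZero N] [NeZero f] (h : N.Coprime f) {u v : (ZMod (N * f))ˣ}
    (h1 : ZMod.unitsMap (dvd_mul_right N f) u = ZMod.unitsMap (dvd_mul_right N f) v)
    (h2 : ZMod.unitsMap (dvd_mul_left f N) u = ZMod.unitsMap (dvd_mul_left f N) v) : u = v := by
  apply Units.ext
  apply (ZMod.chineseRemainder h).injective
  apply Prod.ext
  · rw [G4_fst, G4_fst]
    exact congrArg (fun x : (ZMod N)ˣ => (x : ZMod N)) h1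
  · rw [G4_snd, G4_snd]
    exact congrArg (fun x : (ZMod f)ˣ => (x : ZMod f)) h2

theorem G4_comp {a b c : ℕ} (h1 : a ∣ b) (h2 : b ∣ c) (x : (ZMod c)ˣ) :
    ZMod.unitsMap h1 (ZMod.unitsMap h2 x) = ZMod.unitsMap (h1.trans h2) x :=
  DFunLike.congr_fun (ZMod.unitsMap_comp h1 h2) x

/-- a generator of the kernel of the reduction -/
theorem G4_ker {p m n : ℕ} [Fact p.Prime] (hp2 : p ≠ 2) (hmn : m ≤ n) :
    ∃ v₀ : (ZMod (p ^ (n + 1)))ˣ,
      ZMod.unitsMap (pow_dvd_pow p (Nat.succ_le_succ hmn)) v₀ = 1 ∧ orderOf v₀ = p ^ (n - m) ∧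
      ∀ v : (ZMod (p ^ (n + 1)))ˣ, ZMod.unitsMap (pow_dvd_pow p (Nat.succ_le_succ hmn)) v = 1 →
        ∃ j : ℕ, v = v₀ ^ j := by
  have hp : p.Prime := Fact.out
  have : NeZero (p ^ (n + 1)) := ⟨pow_ne_zero _ hp.ne_zero⟩
  have : NeZero (p ^ (m + 1)) := ⟨pow_ne_zero _ hp.ne_zero⟩
  have : IsCyclic (ZMod (p ^ (n + 1)))ˣ := ZMod.isCyclic_units_of_prime_pow p hp hp2 (n + 1)
  obtain ⟨φ, hφ⟩ : ∃ φ : (ZMod (p ^ (n + 1)))ˣ →* (ZMod (p ^ (m + 1)))ˣ,
      φ = ZMod.unitsMap (pow_dvd_pow p (Nat.succ_le_succ hmn)) := ⟨_, rfl⟩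
  have hsurj : Function.Surjective φ := by
    rw [hφ]
    exact ZMod.unitsMap_surjective _
  obtain ⟨v₀, hv₀⟩ := IsCyclic.exists_generator (α := φ.ker)
  have hcard : Nat.card φ.ker = p ^ (n - m) := by
    have h1 : Nat.card φ.ker * φ.ker.index = Nat.card (ZMod (p ^ (n + 1)))ˣ := φ.ker.card_mul_index
    have h2 : φ.ker.index = Nat.card (ZMod (p ^ (m + 1)))ˣ := by
      rw [Subgroup.index_ker, MonoidHom.range_eq_top.2 hsurj]
      exact Nat.card_congr Subgroup.topEquiv.toEquiv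
    rw [h2, Nat.card_eq_fintype_card (α := (ZMod (p ^ (m + 1)))ˣ),
      Nat.card_eq_fintype_card (α := (ZMod (p ^ (n + 1)))ˣ),
      ZMod.card_units_eq_totient, ZMod.card_units_eq_totient, Nat.totient_prime_pow_succ hp,
      Nat.totient_prime_pow_succ hp] at h1
    have h3 : p ^ n * (p - 1) = p ^ (n - m) * (p ^ m * (p - 1)) := by
      rw [← mul_assoc, ← pow_add, Nat.sub_add_cancel hmn]
    rw [h3] at h1
    have h4 : 0 < p ^ m * (p - 1) := Nat.mul_pos (pow_pos hp.pos _) (Nat.sub_pos_of_lt hp.one_lt)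
    exact Nat.eq_of_mul_eq_mul_right h4 h1
  refine ⟨v₀, ?_, ?_, fun v hv => ?_⟩
  · rw [← hφ]
    exact MonoidHom.mem_ker.1 v₀.2
  · rw [Subgroup.orderOf_coe, ← hcard]
    exact orderOf_eq_card_of_forall_mem_zpowers hv₀
  · rw [← hφ] at hv
    have h1 : (⟨v, MonoidHom.mem_ker.2 hv⟩ : φ.ker) ∈ Submonoid.powers v₀ :=
      mem_powers_iff_mem_zpowers.2 (hv₀ _)
    obtain ⟨j, hj⟩ := Submonoid.mem_powers_iff _ _ |>.1 h1
    refine ⟨j, ?_⟩
    have h2 := congrArg (fun x : φ.ker => (x : (ZMod (p ^ (n + 1)))ˣ)) hj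
    simp only [SubmonoidClass.coe_pow] at h2
    exact h2.symm

theorem exists_gen {p M l m n : ℕ} [Fact p.Prime] [NeZero M] [NeZero l] (hp2 : p ≠ 2)
    (hpM : p.Coprime M) (hpl : p.Coprime l) (hmn : m ≤ n) :
    ∃ (u₁ : (ZMod (M * l * p ^ (n + 1)))ˣ) (u : (ZMod (M * p ^ (n + 1)))ˣ),
      ZMod.unitsMap (Nat.mul_dvd_mul_right (dvd_mul_right M l) (p ^ (n + 1))) u₁ = u ∧
      ZMod.unitsMap (Nat.mul_dvd_mul_left (M * l) (pow_dvd_pow p (Nat.succ_le_succ hmn))) u₁ = 1 ∧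
      ZMod.unitsMap (Nat.mul_dvd_mul_left M (pow_dvd_pow p (Nat.succ_le_succ hmn))) u = 1 ∧
      orderOf u = p ^ (n - m) ∧
      ∀ v : (ZMod (M * p ^ (n + 1)))ˣ,
        ZMod.unitsMap (Nat.mul_dvd_mul_left M (pow_dvd_pow p (Nat.succ_le_succ hmn))) v = 1 →
        ∃ j : ℕ, v = u ^ j := by
  have hp : p.Prime := Fact.out
  have : NeZero (p ^ (n + 1)) := ⟨pow_ne_zero _ hp.ne_zero⟩
  have : NeZero (p ^ (m + 1)) := ⟨pow_ne_zero _ hp.ne_zero⟩
  have : NeZero (M * l) := ⟨mul_ne_zero (NeZero.ne M) (NeZero.ne l)⟩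
  have hMl : p.Coprime (M * l) := Nat.Coprime.mul_right hpM hpl
  have c1 : (M * l).Coprime (p ^ (n + 1)) := (hMl.pow_left (n + 1)).symm
  have c2 : (M * l).Coprime (p ^ (m + 1)) := (hMl.pow_left (m + 1)).symm
  have c3 : M.Coprime (p ^ (n + 1)) := (hpM.pow_left (n + 1)).symm
  have c4 : M.Coprime (p ^ (m + 1)) := (hpM.pow_left (m + 1)).symm
  obtain ⟨v₀, hv1, hv2, hv3⟩ := G4_ker (m := m) (n := n) hp2 hmn
  obtain ⟨u₁, hu1, hu2⟩ := crt_ex c1 1 v₀
  have hd0 : p ^ (m + 1) ∣ p ^ (n + 1) := pow_dvd_pow p (Nat.succ_le_succ hmn)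
  -- the image `u`
  obtain ⟨u, hu⟩ : ∃ u : (ZMod (M * p ^ (n + 1)))ˣ,
    ZMod.unitsMap (Nat.mul_dvd_mul_right (dvd_mul_right M l) (p ^ (n + 1))) u₁ = u := ⟨_, rfl⟩
  have huM : ZMod.unitsMap (dvd_mul_right M (p ^ (n + 1))) u = 1 := by
    rw [← hu, G4_comp]
    have h1 := G4_comp (dvd_mul_right M l) (dvd_mul_right (M * l) (p ^ (n + 1))) u₁
    rw [hu1, map_one] at h1
    exact h1.symm
  have huf : ZMod.unitsMap (dvd_mul_left (p ^ (n + 1)) M) u = v₀ := by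
    rw [← hu, G4_comp]
    exact hu2
  refine ⟨u₁, u, hu, ?_, ?_, ?_, fun v hv => ?_⟩
  · apply crt_inj c2
    · rw [G4_comp, map_one]
      exact hu1
    · rw [G4_comp, map_one]
      have h1 := G4_comp hd0 (dvd_mul_left (p ^ (n + 1)) (M * l)) u₁
      rw [hu2, hv1] at h1
      exact h1.symm
  · apply crt_inj c4
    · rw [G4_comp, map_one]
      exact huM
    · rw [G4_comp, map_one]
      have h1 := G4_comp hd0 (dvd_mul_left (p ^ (n + 1)) M) u
      rw [huf, hv1] at h1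
      exact h1.symm
  · rw [← hv2, orderOf_eq_orderOf_iff]
    intro k
    constructor
    · intro h
      rw [← huf, ← map_pow, h, map_one]
    · intro h
      apply crt_inj c3
      · rw [map_pow, huM, one_pow, map_one]
      · rw [map_pow, huf, h, map_one]
  · have h1 : ZMod.unitsMap hd0 (ZMod.unitsMap (dvd_mul_left (p ^ (n + 1)) M) v) = 1 := by
      rw [G4_comp]
      have h2 := G4_comp (dvd_mul_left (p ^ (m + 1)) M) (Nat.mul_dvd_mul_left M hd0) v
      rw [hv, map_one] at h2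
      exact h2.symm
    obtain ⟨j, hj⟩ := hv3 _ h1
    refine ⟨j, ?_⟩
    apply crt_inj c3
    · rw [map_pow, huM, one_pow]
      have h2 := G4_comp (dvd_mul_right M (p ^ (m + 1))) (Nat.mul_dvd_mul_left M hd0) v
      rw [hv, map_one] at h2
      exact h2.symm
    · rw [map_pow, huf, hj]

end H2T4
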