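import Pool.Agent.H2.T4.GDf2
import Pool.Agent.H2.T4.G3
import Pool.Agent.H2.T4.G4

/-!
Row G6 (about 180 lines): the elements h, gJ, gt and their lifts. Use only the STATEMENTS of G3, G4.

PROOF. NeZero l from Fact. u₁, u from exists_gen (p coprime to M and to l). s from exists_rlift (M * l * p^(n+1)) u₁; by lift_restrict there is h with s (alg x) = alg (h x), kp h = unitsMap u₁ = u (N' = M p^(n+1) ∣ M l p^(n+1)). InH h (definition); gen: kp g = u^j = kp (h^j), kp is injective (galEquivZMod is a MulEquiv; kp is the abbreviation of its application: map_pow); ord_h: orderOf_injective.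
 s fixes K: X.fixK h. η := s as an automorphism over K: { s with commutes' := .. } (algebraMap K Ω = algebraMap C Ω ∘ algebraMap K C; IsScalarTower.algebraMap_apply).
 J: exists_rlift (M * l * p^(n+1)) (-1), restriction gJ with kp gJ = unitsMap (-1) = -1; gJ fixes L: X.fixL (kpp gJ = -1). zeta_J: ω^((-1 : units).val) = ω⁻¹ : for ω^N₁ = 1: (-1 : ZMod N₁).val = N₁ - 1 (ZMod.val_neg_one / neg_val), ω^(N₁ - 1) * ω = 1 (N₁ = 1: ω = 1 trivially).
 t: crt_ex (M coprime to p^(n+1)) gives u_t with u_t = 1 mod M, = -1 mod p^(n+1); exists_rlift (M p^(n+1)) u_t, restriction gt with kp gt = u_t (unitsMap of the identity divisibility: ZMod.unitsMap_self); gt fixes L: X.fixL.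
-/

set_option autoImplicit false
open scoped Classical

open IsDedekindDomain NumberField Finset H5SW H78M

namespace H2T4

private theorem G6_neg {N N' : ℕ} [NeZero N] [NeZero N'] (h : N' ∣ N) :
    ZMod.unitsMap h (-1 : (ZMod N)ˣ) = -1 := by
  apply Units.ext
  change ZMod.castHom h (ZMod N') (-1 : ZMod N) = (-1 : ZMod N')
  rw [map_neg, map_one]

private theorem G6_inv {Ω : Type} [Field Ω] {N : ℕ} [NeZero N] {ω : Ω} (h : ω ^ N = 1) :
    ω ^ ((-1 : (ZMod N)ˣ) : ZMod N).val = ω⁻¹ := by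
  refine eq_inv_of_mul_eq_one_left ?_
  rw [← pow_succ]
  have h1 : N ∣ ((-1 : (ZMod N)ˣ) : ZMod N).val + 1 := by
    rw [← ZMod.natCast_eq_zero_iff, Nat.cast_add, ZMod.natCast_val, ZMod.cast_id, Units.val_neg,
      Units.val_one, Nat.cast_one, neg_add_cancel]
  obtain ⟨k, hk⟩ := h1
  rw [hk, pow_mul, h, one_pow]

/-- an automorphism over `ℚ` as an automorphism over a subfield of `C` -/
private theorem G6_up {K C : Type} [Field K] [NumberField K] [Field C] [NumberField C] [Algebra K C]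
    (s : AlgebraicClosure C ≃ₐ[ℚ] AlgebraicClosure C) (g : C ≃ₐ[ℚ] C)
    (hs : ∀ x : C, s (algebraMap C (AlgebraicClosure C) x) = algebraMap C (AlgebraicClosure C) (g x))
    (hg : ∀ x : K, g (algebraMap K C x) = algebraMap K C x) :
    ∃ η : AlgebraicClosure C ≃ₐ[K] AlgebraicClosure C, ∀ x, η x = s x := by
  refine ⟨AlgEquiv.ofRingEquiv (f := (s : AlgebraicClosure C ≃+* AlgebraicClosure C)) (fun x => ?_),
    fun x => rfl⟩
  change s (algebraMap K (AlgebraicClosure C) x) = algebraMap K (AlgebraicClosure C) x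
  rw [IsScalarTower.algebraMap_apply K C (AlgebraicClosure C) x, hs, hg]

theorem exists_Gd {l p M m n : ℕ} [Fact l.Prime] [Fact p.Prime] [NeZero M] (hp2 : p ≠ 2)
    (hne : p ≠ l) (hpM : p.Coprime M) (hmn : m ≤ n) {K L C : Type} [Field K] [NumberField K]
    [Field L] [NumberField L] [Field C] [NumberField C] [Algebra K L] [Algebra L C] [Algebra K C]
    [IsScalarTower K L C] [IsCyclotomicExtension {M * p ^ (n + 1)} ℚ C] (X : CTM p M m n hmn K L C) :
    ∃ (h gJ gt : C ≃ₐ[ℚ] C) (η : AlgebraicClosure C ≃ₐ[K] AlgebraicClosure C)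
      (J t : AlgebraicClosure C ≃ₐ[L] AlgebraicClosure C), Gd l p M m n hmn K L C h gJ gt η J t := by
  have hp : p.Prime := Fact.out
  have hl : l.Prime := Fact.out
  have hl0 : NeZero l := ⟨hl.ne_zero⟩
  have hpn : NeZero (p ^ (n + 1)) := ⟨pow_ne_zero _ hp.ne_zero⟩
  have hN' : NeZero (M * p ^ (n + 1)) := ⟨mul_ne_zero (NeZero.ne M) (pow_ne_zero _ hp.ne_zero)⟩
  have hN : NeZero (M * l * p ^ (n + 1)) :=
    ⟨mul_ne_zero (mul_ne_zero (NeZero.ne M) hl.ne_zero) (pow_ne_zero _ hp.ne_zero)⟩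
  have hpl : p.Coprime l := (Nat.coprime_primes hp hl).2 hne
  obtain ⟨u₁, u, hu1, hu2, hu3, hu4, hu5⟩ := exists_gen (l := l) hp2 hpM hpl hmn
  have hd : M * p ^ (n + 1) ∣ M * l * p ^ (n + 1) :=
    Nat.mul_dvd_mul_right (dvd_mul_right M l) (p ^ (n + 1))
  have hpMn : M.Coprime (p ^ (n + 1)) := (hpM.pow_left (n + 1)).symm
  -- the element `h`
  obtain ⟨s, hs⟩ := exists_rlift (C := C) (M * l * p ^ (n + 1)) u₁
  obtain ⟨h, hh, hk⟩ := lift_restrict hd u₁ s hs
  rw [hu1] at hk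
  have hH : InH p M m n hmn h := by
    unfold InH
    rw [hk]
    exact hu3
  obtain ⟨η, hη⟩ := G6_up (K := K) s h hh (fun x => X.fixK h hH x)
  -- complex conjugation
  obtain ⟨sJ, hsJ⟩ := exists_rlift (C := C) (M * l * p ^ (n + 1)) (-1)
  obtain ⟨gJ, hgJ, hkJ⟩ := lift_restrict hd (-1) sJ hsJ
  rw [G6_neg] at hkJ
  obtain ⟨J, hJ⟩ := G6_up (K := L) sJ gJ hgJ (fun x => X.fixL gJ (Or.inr (by
    unfold kpp
    rw [hkJ]
    exact G6_neg _)) x)
  -- the element `gt`
  obtain ⟨ut, hut1, hut2⟩ := crt_ex hpMn 1 (-1)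
  obtain ⟨st, hst⟩ := exists_rlift (C := C) (M * p ^ (n + 1)) ut
  obtain ⟨gt, hgt, hkt⟩ := lift_restrict (dvd_refl (M * p ^ (n + 1))) ut st hst
  rw [ZMod.unitsMap_self, MonoidHom.id_apply] at hkt
  obtain ⟨t, ht⟩ := G6_up (K := L) st gt hgt (fun x => X.fixL gt (Or.inr (by
    unfold kpp
    rw [hkt]
    exact hut2)) x)
  refine ⟨h, gJ, gt, η, J, t, hH, ?_, ?_, hkJ, ⟨?_, ?_⟩, ?_, ?_, ?_, ⟨u₁, hu2, ?_⟩, ?_⟩
  · intro g hg
    obtain ⟨j, hj⟩ := hu5 (kp (M * p ^ (n + 1)) g) hg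
    refine ⟨j, ?_⟩
    apply (IsCyclotomicExtension.Rat.galEquivZMod (M * p ^ (n + 1)) C).injective
    rw [map_pow]
    exact hj.trans (by rw [← hk])
  · rw [← hu4, ← hk]
    exact (MulEquiv.orderOf_eq (IsCyclotomicExtension.Rat.galEquivZMod (M * p ^ (n + 1)) C) h).symm
  · rw [hkt]
    exact hut1
  · rw [hkt]
    exact hut2
  · intro x
    rw [hη, hh]
  · intro x
    rw [hJ, hgJ]
  · intro x
    rw [ht, hgt]
  · intro ω hω
    rw [hη, hs ω hω]
  · intro ω hω
    rw [hJ, hsJ ω hω, G6_inv hω]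

end H2T4
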