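import Pool.Agent.H2.T4.GDf
import Pool.Agent.H55.T3.Hf

/-!
Row G2 (about 150 lines): the group `H` fixes the places above a prime `q` once the level is high (every conductor). ADAPTATION of the PROVED file Pool/Agent/H55/T3/Hf.lean (its lemmas Hf_ext, Hf_pow, Hf_inj, Hf_cast, Hf_val, Hf_char are general: use them).

PROOF. N = M p^(n+1), P = p^(n-m), κ = kp N g, ζ = zeta N, z = its image in R = 𝓞 C / w (a domain of characteristic q: Hf_char). By Hf_val it is enough that g • x ∈ w for x ∈ w. g • ζ = ζ ^ κ.val (galEquivZMod_smul_of_pow_eq).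
 κ ≡ 1 mod M p^(m+1), so κ ≡ 1 mod M and (κ mod p^(n+1))^P = 1 (L4_ker, as in h_fix).
(1) q = p: as in h_fix: z^κ = z: (z^κ)^(p^(n+1)) = z^(p^(n+1)) (the exponents κ p^(n+1) ≡ p^(n+1) mod M p^(n+1)) and Hf_inj; so by Hf_ext mk (g • x) = mk x for all x.
(2) q ≠ p: write M = q^a M', q ∤ M' (Nat.exists_eq_pow_mul_and_not_dvd). e := M.totient, q^e ≡ 1 mod M' (M'.totient ∣ M.totient: Nat.totient_dvd_of_dvd, Nat.ModEq.pow_totient). u := the class of q modulo p^(n+1) (a unit), v = u^e, o = orderOf v. p^(n+1) ∣ q^(e o) - 1, so by L4_dvd p^(n+1-t) ∣ e o, so (valuations: v_p(e) = padicValNat p e, t + v_p(e) ≤ m + 1) p^(n-m) ∣ o.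
   The units modulo p^(n+1) are cyclic, so κ mod p^(n+1) ∈ zpowers v (L4_cyc), = v^k, k ∈ ℕ. Let j = e k: q^j ≡ κ mod p^(n+1), q^j ≡ 1 ≡ κ mod M'. So q^j ≡ κ mod M' p^(n+1), and q^a q^j ≡ q^a κ mod N.
   z^κ = z^(q^j): (z^κ)^(q^a) = (z^(q^j))^(q^a) (Hf_pow with z^N = 1), Hf_inj with s = a. By Hf_ext for the two ring homomorphisms x ↦ mk (g • x) and x ↦ (mk x)^(q^j) (iterateFrobenius R q j, as in h_fix): mk (g • x) = (mk x)^(q^j), so x ∈ w gives g • x ∈ w (q^j ≠ 0).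
-/

set_option autoImplicit false
open scoped Classical Pointwise

open IsDedekindDomain NumberField Finset H5SW H78M

namespace H2T4

theorem h_fixM {p M m n : ℕ} [Fact p.Prime] [NeZero M] (hp2 : p ≠ 2) (hpM : p.Coprime M) (hmn : m ≤ n)
    {C : Type} [Field C] [NumberField C] [IsCyclotomicExtension {M * p ^ (n + 1)} ℚ C] {q t : ℕ}
    (hq : q.Prime) (ht : q ≠ p → ¬ p ^ (t + 1) ∣ q ^ (p - 1) - 1)
    (htm : t + padicValNat p M.totient ≤ m + 1) (w : HeightOneSpectrum (𝓞 C))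
    (hw : (q : 𝓞 C) ∈ w.asIdeal) {g : C ≃ₐ[ℚ] C} (hg : InH p M m n hmn g) (x : C) :
    w.valuation C (g x) = w.valuation C x := by
  have hpp := (Fact.out : p.Prime)
  have hf0 : 0 < p ^ (n + 1) := pow_pos hpp.pos _
  have : NeZero (p ^ (n + 1)) := ⟨hf0.ne'⟩
  set N := M * p ^ (n + 1) with hN
  have hdM : M ∣ N := Dvd.intro _ rfl
  have hdf : p ^ (n + 1) ∣ N := Dvd.intro_left M rfl
  -- the residues of `κ`
  have hgM : ZMod.unitsMap hdM (kp N g) = 1 := by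
    have h1 := congrArg (ZMod.unitsMap (Dvd.intro _ rfl : M ∣ M * p ^ (m + 1))) hg
    rw [map_one, ← MonoidHom.comp_apply, ZMod.unitsMap_comp] at h1
    exact h1
  have hgf : (ZMod.unitsMap hdf (kp N g)) ^ p ^ (n - m) = 1 := by
    apply L4_ker hmn
    have h1 := congrArg (ZMod.unitsMap (Dvd.intro_left M rfl : p ^ (m + 1) ∣ M * p ^ (m + 1))) hg
    rw [map_one, ← MonoidHom.comp_apply, ZMod.unitsMap_comp] at h1
    rw [← MonoidHom.comp_apply, ZMod.unitsMap_comp]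
    exact h1
  have hκM : ((kp N g : (ZMod N)ˣ) : ZMod N).val ≡ 1 [MOD M] := by
    have h2 := congrArg Units.val hgM
    rw [H55T3.Hf_cast, Units.val_one] at h2
    have h3 : ((((kp N g : (ZMod N)ˣ) : ZMod N).val : ℕ) : ZMod M) = ((1 : ℕ) : ZMod M) := by
      rw [Nat.cast_one]
      exact h2
    exact (ZMod.natCast_eq_natCast_iff _ _ _).1 h3
  have hwp : w.asIdeal.IsPrime := w.isPrime
  have hqf : Fact q.Prime := ⟨hq⟩
  have hch : CharP (𝓞 C ⧸ w.asIdeal) q := H55T3.Hf_char hq w hw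
  have hζ : IsPrimitiveRoot (IsCyclotomicExtension.zeta N ℚ C) N :=
    IsCyclotomicExtension.zeta_spec N ℚ C
  have hζN : hζ.toInteger ^ N = 1 := hζ.toInteger_isPrimitiveRoot.pow_eq_one
  set z : 𝓞 C ⧸ w.asIdeal := Ideal.Quotient.mk w.asIdeal hζ.toInteger with hz
  have hzN : z ^ N = 1 := by rw [hz, ← map_pow, hζN, map_one]
  apply H55T3.Hf_val
  by_cases hqp : q = p
  · subst hqp
    have h1 := H55T3.Hf_ext hζ ((Ideal.Quotient.mk w.asIdeal).comp
      (MulSemiringAction.toRingHom (C ≃ₐ[ℚ] C) (𝓞 C) g)) (Ideal.Quotient.mk w.asIdeal) (by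
        change Ideal.Quotient.mk w.asIdeal (g • hζ.toInteger) = z
        rw [IsCyclotomicExtension.Rat.galEquivZMod_smul_of_pow_eq N C g hζN, map_pow]
        change z ^ _ = z
        apply H55T3.Hf_inj (q := q) (n + 1)
        rw [← pow_mul]
        apply H55T3.Hf_pow hzN
        have h3 := Nat.ModEq.mul_right' (q ^ (n + 1)) hκM
        rw [one_mul] at h3
        exact h3)
    intro x hx
    have h2 := h1 x
    rw [Ideal.Quotient.eq_zero_iff_mem.2 hx] at h2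
    exact Ideal.Quotient.eq_zero_iff_mem.1 h2
  have hqco : q.Coprime (p ^ (n + 1)) := Nat.Coprime.pow_right _ ((Nat.coprime_primes hq hpp).2 hqp)
  obtain ⟨a, M', hM', hMa⟩ := Nat.exists_eq_pow_mul_and_not_dvd (NeZero.ne M) q hq.ne_one
  have hM'M : M' ∣ M := Dvd.intro_left (q ^ a) hMa.symm
  have hqM' : q.Coprime M' := (Nat.Prime.coprime_iff_not_dvd hq).2 hM'
  obtain ⟨e, he⟩ : ∃ e, e = M.totient := ⟨_, rfl⟩
  have he0 : e ≠ 0 := by
    rw [he]
    exact (Nat.totient_pos.2 (Nat.pos_of_ne_zero (NeZero.ne M))).ne'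
  have hqe : q ^ e ≡ 1 [MOD M'] := by
    obtain ⟨c, hc⟩ := Nat.totient_dvd_of_dvd hM'M
    rw [he, hc, pow_mul]
    have h1 := (Nat.ModEq.pow_totient hqM').pow c
    rwa [one_pow] at h1
  -- `κ` is a power of `q ^ e` modulo `p ^ (n + 1)`
  obtain ⟨k, hk⟩ : ∃ k : ℕ, (ZMod.unitOfCoprime q hqco ^ e) ^ k = ZMod.unitsMap hdf (kp N g) := by
    have : IsCyclic (ZMod (p ^ (n + 1)))ˣ := ZMod.isCyclic_units_of_prime_pow p hpp hp2 (n + 1)
    obtain ⟨o, ho⟩ : ∃ o, o = orderOf (ZMod.unitOfCoprime q hqco ^ e) := ⟨_, rfl⟩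
    have ho0 : o ≠ 0 := by
      rw [ho]
      exact (orderOf_pos _).ne'
    have h3 : p ^ (n + 1) ∣ q ^ (e * o) - 1 := by
      have h4 := congrArg Units.val (pow_orderOf_eq_one (ZMod.unitOfCoprime q hqco ^ e))
      rw [← ho, ← pow_mul, Units.val_pow_eq_pow_val, ZMod.coe_unitOfCoprime, Units.val_one,
        ← Nat.cast_pow] at h4
      have h5 : q ^ (e * o) ≡ 1 [MOD p ^ (n + 1)] := by
        rw [← ZMod.natCast_eq_natCast_iff, Nat.cast_one]
        exact h4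
      exact (Nat.modEq_iff_dvd' (Nat.one_le_pow _ _ hq.pos)).mp h5.symm
    have h6 := L4_dvd (n := n) hp2 hq hqp (ht hqp) (mul_ne_zero he0 ho0) h3
    have h7 : n + 1 - t ≤ padicValNat p (e * o) :=
      (padicValNat_dvd_iff_le (mul_ne_zero he0 ho0)).mp h6
    rw [padicValNat.mul he0 ho0] at h7
    rw [← he] at htm
    have h8 : p ^ (n - m) ∣ o := (padicValNat_dvd_iff_le ho0).mpr (by omega)
    rw [ho] at h8
    have h9 := L4_cyc hgf h8
    exact (isOfFinOrder_of_finite _).mem_powers_iff_mem_zpowers.mpr h9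
  obtain ⟨j, hj⟩ : ∃ j, j = e * k := ⟨_, rfl⟩
  have hqf' : q ^ j ≡ ((kp N g : (ZMod N)ˣ) : ZMod N).val [MOD p ^ (n + 1)] := by
    have h1 := congrArg Units.val hk
    rw [H55T3.Hf_cast, ← pow_mul, ← hj, Units.val_pow_eq_pow_val, ZMod.coe_unitOfCoprime,
      ← Nat.cast_pow, ZMod.natCast_eq_natCast_iff] at h1
    exact h1
  have hqM'' : q ^ j ≡ ((kp N g : (ZMod N)ˣ) : ZMod N).val [MOD M'] := by
    have h1 : q ^ j ≡ 1 [MOD M'] := by
      rw [hj, pow_mul]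
      have h2 := hqe.pow k
      rwa [one_pow] at h2
    exact h1.trans (hκM.of_dvd hM'M).symm
  have hcoM : Nat.Coprime M' (p ^ (n + 1)) :=
    Nat.Coprime.pow_right _ (hpM.symm.coprime_dvd_left hM'M)
  have hmod : ((kp N g : (ZMod N)ˣ) : ZMod N).val * q ^ a ≡ q ^ j * q ^ a [MOD N] := by
    have h1 := ((Nat.modEq_and_modEq_iff_modEq_mul hcoM).1 ⟨hqM'', hqf'⟩).symm
    have h2 := Nat.ModEq.mul_left' (q ^ a) h1
    rw [← mul_assoc, ← hMa, ← hN, mul_comm (q ^ a), mul_comm (q ^ a)] at h2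
    exact h2
  have hfr : ∀ x : 𝓞 C, Ideal.Quotient.mk w.asIdeal (g • x) =
      (Ideal.Quotient.mk w.asIdeal x) ^ q ^ j := by
    intro x
    have h1 := H55T3.Hf_ext hζ ((Ideal.Quotient.mk w.asIdeal).comp
      (MulSemiringAction.toRingHom (C ≃ₐ[ℚ] C) (𝓞 C) g))
      ((iterateFrobenius (𝓞 C ⧸ w.asIdeal) q j).comp (Ideal.Quotient.mk w.asIdeal)) (by
        change Ideal.Quotient.mk w.asIdeal (g • hζ.toInteger) =
          iterateFrobenius (𝓞 C ⧸ w.asIdeal) q j z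
        rw [iterateFrobenius_def, IsCyclotomicExtension.Rat.galEquivZMod_smul_of_pow_eq N C g hζN,
          map_pow]
        change z ^ _ = _
        apply H55T3.Hf_inj (q := q) a
        rw [← pow_mul, ← pow_mul]
        exact H55T3.Hf_pow hzN hmod)
    exact h1 x
  intro x hx
  apply Ideal.Quotient.eq_zero_iff_mem.1
  rw [hfr, Ideal.Quotient.eq_zero_iff_mem.2 hx]
  exact zero_pow (pow_ne_zero _ hq.ne_zero)

end H2T4
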