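import Pool.Agent.H2.T4.GDf

/-!
Row G5 (about 120 lines, Mathlib only): facts on the cyclotomic field `C` of conductor `N` and its extension by an `l`-th root of unity.

PROOF. cyc_facts: C/ℚ is Galois (IsCyclotomicExtension.isGalois {N} ℚ C); commutative: galEquivZMod is an injective homomorphism into a commutative group. Complex: IsCyclotomicExtension.Rat.nrRealPlaces_eq_zero (N > 2), every infinite place is real or complex and there are no real ones. z^l = 1, z ≠ 1: z is a primitive l-th root (l prime), IsPrimitiveRoot.dvd_of_isCyclotomicExtension: l ∣ 2 N, l odd: l ∣ N. Contradiction.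
 Unramified: l ∤ N, w ∋ l: ramification index of w over (l) is one (Mathlib: IsCyclotomicExtension.Rat.ramificationIdx.. of_not_dvd, Mathlib/NumberTheory/NumberField/Cyclotomic/Ideal.lean; or discriminant: NumberField.not_dvd_discr_iff_forall_mem as in two_unramified of Pool/Agent/H5/SW/L5.lean together with IsCyclotomicExtension.Rat.discr / absdiscr prime factors; see also `three_unram` in Pool/Agent/H55/T3/Un.lean for the translation into valuations),
   so l ∉ w^2 and w.valuation C l = exp (-1) (HeightOneSpectrum.valuation_of_algebraMap, intValuation: l ∈ w, l ∉ w^2).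
 cyc_adjoin: IsCyclotomicExtension {l} C (adjoin C {ζ}) (IsPrimitiveRoot.intermediateField_adjoin_isCyclotomicExtension), trans with {N} (IsCyclotomicExtension.trans), then from {N} ∪ {l} to {N * l}: a primitive N-th root times ζ is a primitive root of order N l (coprime orders), and it generates: its powers contain both (IsCyclotomicExtension.iff_union_singleton.. / iff_adjoin_eq_top, mem_of_pow_eq_one..).
-/

set_option autoImplicit false
open scoped Classical

open IsDedekindDomain NumberField Finset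

namespace H2T4

theorem cyc_facts {N l : ℕ} [NeZero N] {C : Type} [Field C] [NumberField C]
    [IsCyclotomicExtension {N} ℚ C] (hN : 2 < N) (hl : l.Prime) (h2 : l ≠ 2) (hlN : ¬ l ∣ N) :
    IsGalois ℚ C ∧ (∀ g g' : C ≃ₐ[ℚ] C, g * g' = g' * g) ∧ (∀ w : InfinitePlace C, w.IsComplex) ∧
      ∀ z : C, z ^ l = 1 → z = 1 := by
  refine ⟨IsCyclotomicExtension.isGalois {N} ℚ C, ?_, ?_, ?_⟩
  · intro g g'
    apply (IsCyclotomicExtension.Rat.galEquivZMod N C).injective
    rw [map_mul, map_mul, mul_comm]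
  · intro w
    rcases w.isReal_or_isComplex with h | h
    · exfalso
      have h1 : InfinitePlace.nrRealPlaces C = 0 :=
        IsCyclotomicExtension.Rat.nrRealPlaces_eq_zero C hN
      have h3 : IsEmpty {w : InfinitePlace C // w.IsReal} := Fintype.card_eq_zero_iff.1 h1
      exact h3.false ⟨w, h⟩
    · exact h
  · intro z hz
    by_contra hz1
    have : Fact l.Prime := ⟨hl⟩
    have h3 : orderOf z = l := orderOf_eq_prime hz hz1
    have h4 : IsPrimitiveRoot z l := h3 ▸ IsPrimitiveRoot.orderOf z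
    have h5 := h4.dvd_of_isCyclotomicExtension (n := N) hl.ne_zero
    rcases (hl.dvd_mul).1 h5 with h6 | h6
    · exact h2 ((Nat.prime_dvd_prime_iff_eq hl Nat.prime_two).1 h6)
    · exact hlN h6

theorem val_l {N l : ℕ} [NeZero N] {C : Type} [Field C] [NumberField C]
    [IsCyclotomicExtension {N} ℚ C] (hl : l.Prime) (hlN : ¬ l ∣ N) (w : HeightOneSpectrum (𝓞 C))
    (hw : (l : 𝓞 C) ∈ w.asIdeal) : w.valuation C (l : C) = WithZero.exp (-1 : ℤ) := by
  have : Fact l.Prime := ⟨hl⟩
  have hlp : Prime (l : ℤ) := Nat.prime_iff_prime_int.1 hl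
  have hne : Ideal.span {(l : ℤ)} ≠ ⊥ := by
    rw [Ne, Ideal.span_singleton_eq_bot]
    exact hlp.ne_zero
  obtain ⟨v, hv⟩ : ∃ v : HeightOneSpectrum ℤ, v.asIdeal = Ideal.span {(l : ℤ)} :=
    ⟨⟨Ideal.span {(l : ℤ)}, (Ideal.span_singleton_prime hlp.ne_zero).2 hlp, hne⟩, rfl⟩
  have hover : w.asIdeal.LiesOver (Ideal.span {(l : ℤ)}) :=
    (Ideal.liesOver_span_iff w.isPrime.ne_top hlp).mpr (by simpa using hw)
  have hover' : w.asIdeal.LiesOver v.asIdeal := by rw [hv]; exact hover
  have he : v.asIdeal.ramificationIdx' w.asIdeal = 1 := by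
    rw [hv, Ideal.ramificationIdx'_eq_ramificationIdx (Ideal.span {(l : ℤ)}) w.asIdeal hne]
    exact IsCyclotomicExtension.Rat.ramificationIdx_eq_of_not_dvd l C w.asIdeal hlN
  have h1 := HeightOneSpectrum.intValuation_liesOver v w (l : ℤ)
  rw [he, pow_one, v.intValuation_singleton hlp.ne_zero hv] at h1
  have h2 : algebraMap (𝓞 C) C (algebraMap ℤ (𝓞 C) (l : ℤ)) = (l : C) := by simp
  rw [← h2, HeightOneSpectrum.valuation_of_algebraMap, ← h1]

theorem cyc_adjoin {N N' l : ℕ} [NeZero N] [NeZero l] (hco : N.Coprime l) (hN' : N' = N * l) {C : Type}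
    [Field C] [NumberField C] [IsCyclotomicExtension {N} ℚ C] (ζ : AlgebraicClosure C)
    (hζ : IsPrimitiveRoot ζ l) :
    IsCyclotomicExtension {N'} ℚ (IntermediateField.adjoin C {ζ}) := by
  have h1 : IsCyclotomicExtension {l} C (IntermediateField.adjoin C {ζ}) :=
    hζ.intermediateField_adjoin_isCyclotomicExtension C
  have h2 : IsCyclotomicExtension ({N} ∪ {l}) ℚ (IntermediateField.adjoin C {ζ}) :=
    IsCyclotomicExtension.trans {N} {l} ℚ C (IntermediateField.adjoin C {ζ})
      (algebraMap C (IntermediateField.adjoin C {ζ})).injective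
  have hN0 : N ≠ 0 := NeZero.ne N
  have hl0 : l ≠ 0 := NeZero.ne l
  refine ⟨?_, fun x => ?_⟩
  · intro n hn _
    rw [Set.mem_singleton_iff] at hn
    obtain ⟨r1, hr1⟩ := h2.exists_isPrimitiveRoot (n := N) (Or.inl rfl) hN0
    obtain ⟨r2, hr2⟩ := h2.exists_isPrimitiveRoot (n := l) (Or.inr rfl) hl0
    refine ⟨r1 * r2, ?_⟩
    rw [hn, hN', IsPrimitiveRoot.iff_orderOf,
      (Commute.all _ _).orderOf_mul_eq_mul_orderOf_of_coprime (by
        rw [← hr1.eq_orderOf, ← hr2.eq_orderOf]
        exact hco), ← hr1.eq_orderOf, ← hr2.eq_orderOf]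
  · have h3 := h2.adjoin_roots x
    refine Algebra.adjoin_mono ?_ h3
    rintro b ⟨n, hn, hn0, hb⟩
    refine ⟨N', rfl, by rw [hN']; exact mul_ne_zero hN0 hl0, ?_⟩
    rcases hn with hn | hn
    · rw [Set.mem_singleton_iff] at hn
      rw [hN', pow_mul, ← hn, hb, one_pow]
    · rw [Set.mem_singleton_iff] at hn
      rw [hN', mul_comm, pow_mul, ← hn, hb, one_pow]

end H2T4
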