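import Pool.Agent.H2.T4.GDf2
import Pool.Agent.H2.T4.G4
import Pool.Agent.H2.T4.HA

/-!
Row G7 (about 170 lines): the two input statements in terms of h, gJ, gt. Use only the STATEMENTS of G4, HA.

PROOF. kp is injective (galEquivZMod is a MulEquiv). prod_H: the map j ↦ h^j is a bijection from range (p^(n-m)) onto {g | InH g} (hH: InH is closed under powers: map_pow, one_pow; gen with j mod orderOf; injective below the order: pow_injOn_Iio_orderOf): Finset.prod_bij / prod_image.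
 nne_of: HE e with: the product over H (prod_H for F g = g e; (h^j) e); gJ is the only g with kp g = -1; gt the only g with IsTau g (crt_inj-like: kp g is determined by its images modulo M and p^(n+1): two units of ZMod (M * p^(n+1)) with the same images modulo M and modulo p^(n+1), M coprime to p, are equal; this is crt_inj of G4).
 nnt_of: HT T with: Stab; icl I ^ l ∈ T; ∏ over H of icl (g • I) = icl (∏_{j < p^(n-m)} h^j • I) (H2T4.icl and H55T3.icl are equal by rfl / unfold; icl_mul, icl_pow in HA.lean; prod_H with values in the class group), orderOf h = p^(n-m);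
   gJ: orderOf gJ = 2 (ord_J), ∏_{j<2} gJ^j • I = I * gJ • I; tau: for I' := gt • I the case gJ gives icl (gt • I) * icl (gJ • gt • I) ∈ T, the case gJ * gt gives icl I * icl ((gJ * gt) • I) ∈ T; the quotient is icl (gt • I) * (icl I)⁻¹ ∈ T.
 ord_J: kp gJ = -1 ≠ 1 modulo M p^(n+1) > 2, (-1)^2 = 1; ord_Jt: kp (gJ * gt) is -1 modulo M (≥ 3) so not 1, and its square is 1 (images modulo M: 1; modulo p^(n+1): (-1 * -1)^2 = 1).
-/

set_option autoImplicit false
open scoped Classical Pointwise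

open IsDedekindDomain NumberField Finset H5SW H78M

namespace H2T4

variable {l p M m n : ℕ} [Fact l.Prime] [Fact p.Prime] [NeZero M] {hmn : m ≤ n} {K L C : Type}
    [Field K] [NumberField K] [Field L] [NumberField L] [Field C] [NumberField C] [Algebra K L]
    [Algebra L C] [Algebra K C] [IsScalarTower K L C] [IsCyclotomicExtension {M * p ^ (n + 1)} ℚ C]
    {h gJ gt : C ≃ₐ[ℚ] C} {η : AlgebraicClosure C ≃ₐ[K] AlgebraicClosure C}
    {J t : AlgebraicClosure C ≃ₐ[L] AlgebraicClosure C}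

private theorem G7_inj {g g' : C ≃ₐ[ℚ] C}
    (hg : kp (M * p ^ (n + 1)) g = kp (M * p ^ (n + 1)) g') : g = g' :=
  (IsCyclotomicExtension.Rat.galEquivZMod (M * p ^ (n + 1)) C).injective hg

private theorem G7_kpow (g : C ≃ₐ[ℚ] C) (j : ℕ) :
    kp (M * p ^ (n + 1)) (g ^ j) = kp (M * p ^ (n + 1)) g ^ j :=
  map_pow (IsCyclotomicExtension.Rat.galEquivZMod (M * p ^ (n + 1)) C) g j

private theorem G7_kmul (g g' : C ≃ₐ[ℚ] C) :
    kp (M * p ^ (n + 1)) (g * g') = kp (M * p ^ (n + 1)) g * kp (M * p ^ (n + 1)) g' :=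
  map_mul (IsCyclotomicExtension.Rat.galEquivZMod (M * p ^ (n + 1)) C) g g'

private theorem G7_kone : kp (M * p ^ (n + 1)) (1 : C ≃ₐ[ℚ] C) = 1 :=
  map_one (IsCyclotomicExtension.Rat.galEquivZMod (M * p ^ (n + 1)) C)

private theorem G7_neg {a b : ℕ} (hab : a ∣ b) : ZMod.unitsMap hab (-1) = -1 := by
  apply Units.ext
  change ZMod.castHom hab (ZMod a) ((-1 : (ZMod b)ˣ) : ZMod b) = ((-1 : (ZMod a)ˣ) : ZMod a)
  rw [Units.val_neg, Units.val_one, map_neg, map_one, Units.val_neg, Units.val_one]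

private theorem G7_ne {a : ℕ} (ha : 3 ≤ a) : (-1 : (ZMod a)ˣ) ≠ 1 := by
  intro h
  have : Fact (2 < a) := ⟨ha⟩
  apply ZMod.neg_one_ne_one (n := a)
  have h1 := congrArg (fun x : (ZMod a)ˣ => (x : ZMod a)) h
  simpa using h1

omit [Fact p.Prime] [NeZero M] in
private theorem G7_cop (hpM : p.Coprime M) : M.Coprime (p ^ (n + 1)) := (hpM.pow_left (n + 1)).symm

private theorem G7_tau (hpM : p.Coprime M) {g g' : C ≃ₐ[ℚ] C} (hg : IsTau p M n g)
    (hg' : IsTau p M n g') : g = g' := by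
  have : NeZero (p ^ (n + 1)) := ⟨pow_ne_zero _ (Fact.out : p.Prime).ne_zero⟩
  apply G7_inj (p := p) (M := M) (n := n)
  apply crt_inj (G7_cop hpM)
  · rw [hg.1, hg'.1]
  · rw [hg.2, hg'.2]

theorem ord_J (hpM : p.Coprime M) (hM : 3 ≤ M) (X : Gd l p M m n hmn K L C h gJ gt η J t) :
    orderOf gJ = 2 ∧ orderOf (gJ * gt) = 2 := by
  have hp : p.Prime := Fact.out
  have : NeZero (p ^ (n + 1)) := ⟨pow_ne_zero _ hp.ne_zero⟩
  have : Fact (Nat.Prime 2) := ⟨Nat.prime_two⟩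
  have h1 : ∀ g : C ≃ₐ[ℚ] C,
      ZMod.unitsMap (dvd_mul_right M (p ^ (n + 1))) (kp (M * p ^ (n + 1)) g) = -1 →
      ZMod.unitsMap (dvd_mul_left (p ^ (n + 1)) M) (kp (M * p ^ (n + 1)) g) ^ 2 = 1 →
      orderOf g = 2 := by
    intro g hg1 hg2
    apply orderOf_eq_prime
    · apply G7_inj (p := p) (M := M) (n := n)
      apply crt_inj (G7_cop hpM)
      · rw [G7_kpow, map_pow, hg1, G7_kone, map_one]
        exact neg_one_sq
      · rw [G7_kpow, map_pow, hg2, G7_kone, map_one]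
    · intro h0
      rw [h0, G7_kone, map_one] at hg1
      exact G7_ne hM hg1.symm
  constructor
  · apply h1
    · rw [X.kJ]
      exact G7_neg _
    · rw [X.kJ, G7_neg]
      exact neg_one_sq
  · apply h1
    · rw [G7_kmul, X.kJ, map_mul, X.kt.1, G7_neg, mul_one]
    · rw [G7_kmul, X.kJ, map_mul, X.kt.2, G7_neg, neg_mul_neg, one_mul, one_pow]

theorem prod_H (X : Gd l p M m n hmn K L C h gJ gt η J t) {A : Type} [CommMonoid A]
    (F : (C ≃ₐ[ℚ] C) → A) :
    ∏ g ∈ univ.filter (fun g : C ≃ₐ[ℚ] C => InH p M m n hmn g), F g =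
      ∏ j ∈ range (p ^ (n - m)), F (h ^ j) := by
  symm
  refine Finset.prod_nbij (fun j => h ^ j) ?_ ?_ ?_ fun j _ => rfl
  · intro j _
    rw [mem_filter]
    refine ⟨mem_univ _, ?_⟩
    have h1 := X.hH
    unfold InH at h1 ⊢
    rw [G7_kpow, map_pow, h1, one_pow]
  · intro i hi j hj hij
    rw [mem_coe, mem_range, ← X.ord_h] at hi hj
    exact pow_injOn_Iio_orderOf hi hj hij
  · intro g hg
    rw [mem_coe, mem_filter] at hg
    obtain ⟨j, hj⟩ := X.gen g hg.2
    refine ⟨j % orderOf h, ?_, ?_⟩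
    · rw [mem_coe, mem_range, ← X.ord_h]
      apply Nat.mod_lt
      rw [X.ord_h]
      exact pow_pos (Fact.out : p.Prime).pos _
    · change h ^ (j % orderOf h) = g
      rw [pow_mod_orderOf, hj]

theorem nne_of (hpM : p.Coprime M) (X : Gd l p M m n hmn K L C h gJ gt η J t)
    (HE : NoNewE l p M m n hmn C) (e : C) (he : e ≠ 0)
    (hv : ∀ w : HeightOneSpectrum (𝓞 C), (l : ℤ) ∣ WithZero.log (w.valuation C e))
    (h1 : ∃ y, ∏ j ∈ range (p ^ (n - m)), (h ^ j) e = y ^ l) (h2 : ∃ y, e * gJ e = y ^ l)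
    (h3 : ∃ y, gt e = e * y ^ l) : ∃ y, e = y ^ l := by
  refine HE e he hv ?_ ?_ ?_
  · rw [prod_H X (fun g => g e)]
    exact h1
  · intro g hg
    have h4 : g = gJ := G7_inj (p := p) (M := M) (n := n) (hg.trans X.kJ.symm)
    rw [h4]
    exact h2
  · intro g hg
    rw [G7_tau hpM hg X.kt]
    exact h3

private theorem G7_smul_ne (g : C ≃ₐ[ℚ] C) {I : Ideal (𝓞 C)} (hI : I ≠ ⊥) : g • I ≠ ⊥ := by
  intro h0
  apply hI
  have h1 : g⁻¹ • (g • I) = I := inv_smul_smul g I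
  rw [h0, ← Ideal.zero_eq_bot, smul_zero] at h1
  rw [← h1, Ideal.zero_eq_bot]

private theorem G7_prod {ι : Type} (s : Finset ι) (F : ι → Ideal (𝓞 C)) (hF : ∀ i ∈ s, F i ≠ ⊥) :
    icl (∏ i ∈ s, F i) = ∏ i ∈ s, icl (F i) := by
  classical
  induction s using Finset.induction_on with
  | empty =>
    rw [prod_empty, prod_empty]
    exact HA_one
  | insert a s ha ih =>
    have h1 : ∀ i ∈ s, F i ≠ ⊥ := fun i hi => hF i (mem_insert_of_mem hi)
    rw [prod_insert ha, prod_insert ha, icl_mul (hF a (mem_insert_self a s)), ih h1]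
    exact prod_ne_zero_iff.2 h1

theorem nnt_of (hpM : p.Coprime M) (hM : 3 ≤ M) (X : Gd l p M m n hmn K L C h gJ gt η J t)
    (HT : NoNewT l p M m n hmn C) (T : Subgroup (ClassGroup (𝓞 C)))
    (h1 : ∀ (s : C ≃ₐ[ℚ] C) (I : Ideal (𝓞 C)), I ≠ ⊥ → icl I ∈ T → icl (s • I) ∈ T)
    (h2 : ∀ c, c ^ l ∈ T)
    (h3 : ∀ g ∈ ({h, gJ, gJ * gt} : Set (C ≃ₐ[ℚ] C)), ∀ I : Ideal (𝓞 C), I ≠ ⊥ →
      icl (∏ j ∈ range (orderOf g), g ^ j • I) ∈ T) : T = ⊤ := by
  obtain ⟨oJ, oJt⟩ := ord_J hpM hM X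
  have two : ∀ g ∈ ({h, gJ, gJ * gt} : Set (C ≃ₐ[ℚ] C)), orderOf g = 2 → ∀ I : Ideal (𝓞 C), I ≠ ⊥ →
      icl I * icl (g • I) ∈ T := by
    intro g hg ho I hI
    have h4 := h3 g hg I hI
    rw [ho, G7_prod _ _ fun j _ => G7_smul_ne _ hI, prod_range_succ, prod_range_one, pow_zero, pow_one,
      one_smul] at h4
    exact h4
  refine HT T h1 (fun I _ => h2 _) ?_ ?_ ?_
  · intro I hI
    have h4 := h3 h (by simp) I hI
    rw [X.ord_h, G7_prod _ _ fun j _ => G7_smul_ne _ hI] at h4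
    rw [prod_H X (fun g => H55T3.icl (g • I))]
    exact h4
  · intro g hg I hI
    have h4 : g = gJ := G7_inj (p := p) (M := M) (n := n) (hg.trans X.kJ.symm)
    rw [h4]
    exact two gJ (by simp) oJ I hI
  · intro g hg I hI
    rw [G7_tau hpM hg X.kt]
    have h5 := two gJ (by simp) oJ (gt • I) (G7_smul_ne gt hI)
    have h6 := two (gJ * gt) (by simp) oJt I hI
    rw [mul_smul] at h6
    have h7 := T.mul_mem h5 (T.inv_mem h6)
    have h8 : icl (gt • I) * icl (gJ • gt • I) * (icl I * icl (gJ • gt • I))⁻¹ =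
        icl (gt • I) * (icl I)⁻¹ := by
      rw [mul_inv, mul_comm (icl I)⁻¹, mul_assoc, mul_inv_cancel_left]
    rw [h8] at h7
    exact h7

end H2T4
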