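import Pool.Agent.H2.T4.GDf2
import Pool.Agent.H2.T4.G2
import Pool.Agent.H2.T4.G3
import Pool.Agent.H2.T4.G5
import Pool.Agent.H2.T4.G7

/-!
Row G8 (about 200 lines): the arithmetic data `Dat` (DDf.lean). Use only the STATEMENTS of G2, G3, G5, G7.

PROOF. gal, comm, cplx, mu: cyc_facts (N = M p^(n+1) > 2, l ∤ N since l ∤ M, l ≠ p prime). ord_h, lift_*: X; ord_J, ord_Jt: ord_J. nne: nne_of, nnt: nnt_of. zeta_J: ζ^l = 1 gives ζ^(M l p^(n+1)) = 1.
 zeta_h: u from X.zeta_h: u ≡ 1 mod M l p^(m+1), so u.val ≡ 1 mod l, η ζ = ζ^u.val = ζ.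
 cov: g : Ω ≃ₐ[K] Ω; L/K normal: t₀ := its restriction to L (AlgEquiv.restrictNormal), CTM.cov gives g' with InH g' and g' x = t₀ x on L, g' = h^j (X.gen); η^j x = (h^j) x on C (induction from lift_h), so η^j and g agree on L, l := (η^j)⁻¹ * g fixes L, as an automorphism over L: { .. with commutes' }.
 fix: w with D ∈ w or l ∈ w: there is a prime q ∣ D * l with q ∈ w (the product D * l ∈ w: H5SW.exists_prime_mem in Pool/Agent/H5/SW/Fin.lean, or induction over prime factors); h_fixM (t := t₀): ht; t₀ + v_p(φ(M)) ≤ t₀ + v_p(φ(M l)) as φ(M) ∣ φ(M l) (Nat.totient_dvd_of_dvd; padicValNat monotone: padicValNat_dvd_iff_le).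
 bad_ℓ: D ∈ w and l ∈ w, l prime, l ∤ D: coprime, so 1 ∈ w (Nat.Coprime, Bezout): contradiction.
 fix₁: F₁ := adjoin C {ζ}, conductor M * l * p^(n+1) = (M * p^(n+1)) * l: cyc_adjoin. h₁ as an automorphism over ℚ (if the two ℚ-algebra structures on F₁ differ, use AlgEquiv.ofRingEquiv / Subsingleton.elim); kp h₁ = u: kp_eq for a primitive root ω₁ of F₁ (IsCyclotomicExtension.zeta_spec): h₁ ω₁ = ω₁^u.val because η does so in Ω. So InH p (M * l) m n h₁.
   w' contains w, so the prime q ∣ D of w is in w' (comap): h_fixM for M * l (p coprime to M * l), t₀ + v_p(φ(M l)) ≤ m + 1.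
-/

/-!
Row G8 (about 200 lines): the arithmetic data `Dat` (DDf.lean). Use only the STATEMENTS of G2, G3, G5, G7.

PROOF. gal, comm, cplx, mu: cyc_facts (N = M p^(n+1) > 2, l ∤ N since l ∤ M, l ≠ p prime). ord_h, lift_*: X; ord_J, ord_Jt: ord_J. nne: nne_of, nnt: nnt_of. zeta_J: ζ^l = 1 gives ζ^(M l p^(n+1)) = 1.
 zeta_h: u from X.zeta_h: u ≡ 1 mod M l p^(m+1), so u.val ≡ 1 mod l, η ζ = ζ^u.val = ζ.
 cov: g : Ω ≃ₐ[K] Ω; L/K normal: t₀ := its restriction to L (AlgEquiv.restrictNormal), CTM.cov gives g' with InH g' and g' x = t₀ x on L, g' = h^j (X.gen); η^j x = (h^j) x on C (induction from lift_h), so η^j and g agree on L, l := (η^j)⁻¹ * g fixes L, as an automorphism over L: { .. with commutes' }.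
 fix: w with D ∈ w or l ∈ w: there is a prime q ∣ D * l with q ∈ w (the product D * l ∈ w: H5SW.exists_prime_mem in Pool/Agent/H5/SW/Fin.lean, or induction over prime factors); h_fixM (t := t₀): ht; t₀ + v_p(φ(M)) ≤ t₀ + v_p(φ(M l)) as φ(M) ∣ φ(M l) (Nat.totient_dvd_of_dvd; padicValNat monotone: padicValNat_dvd_iff_le).
 bad_ℓ: D ∈ w and l ∈ w, l prime, l ∤ D: coprime, so 1 ∈ w (Nat.Coprime, Bezout): contradiction.
 fix₁: F₁ := adjoin C {ζ}, conductor M * l * p^(n+1) = (M * p^(n+1)) * l: cyc_adjoin. h₁ as an automorphism over ℚ (if the two ℚ-algebra structures on F₁ differ, use AlgEquiv.ofRingEquiv / Subsingleton.elim); kp h₁ = u: kp_eq for a primitive root ω₁ of F₁ (IsCyclotomicExtension.zeta_spec): h₁ ω₁ = ω₁^u.val because η does so in Ω. So InH p (M * l) m n hmn h₁.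
   w' contains w, so the prime q ∣ D of w is in w' (comap): h_fixM for M * l (p coprime to M * l), t₀ + v_p(φ(M l)) ≤ m + 1.
-/

set_option autoImplicit false
open scoped Classical

open IsDedekindDomain NumberField Finset H5SW H78M

namespace H2T4

private theorem G8_prime {C : Type} [Field C] [NumberField C] (w : HeightOneSpectrum (𝓞 C)) (D : ℕ) :
    D ≠ 0 → (D : 𝓞 C) ∈ w.asIdeal → ∃ q : ℕ, q.Prime ∧ q ∣ D ∧ (q : 𝓞 C) ∈ w.asIdeal := by
  induction D using Nat.recOnMul with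
  | zero => exact fun h => absurd rfl h
  | one =>
    intro _ h
    rw [Nat.cast_one] at h
    exact absurd ((Ideal.eq_top_iff_one _).2 h) w.isPrime.ne_top
  | prime q hq => exact fun _ h => ⟨q, hq, dvd_rfl, h⟩
  | mul a b iha ihb =>
    intro h0 h
    rw [Nat.cast_mul] at h
    rcases w.isPrime.mem_or_mem h with h1 | h1
    · obtain ⟨q, hq, hqa, hqw⟩ := iha (left_ne_zero_of_mul h0) h1
      exact ⟨q, hq, hqa.mul_right b, hqw⟩
    · obtain ⟨q, hq, hqb, hqw⟩ := ihb (right_ne_zero_of_mul h0) h1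
      exact ⟨q, hq, hqb.mul_left a, hqw⟩

private theorem G8_pow {K L C : Type} [Field K] [NumberField K] [Field L] [NumberField L] [Field C]
    [NumberField C] [Algebra K L] [Algebra L C] [Algebra K C] [IsScalarTower K L C]
    {h : C ≃ₐ[ℚ] C} {η : AlgebraicClosure C ≃ₐ[K] AlgebraicClosure C}
    (hη : ∀ x : C, η (algebraMap C (AlgebraicClosure C) x) = algebraMap C (AlgebraicClosure C) (h x))
    (j : ℕ) : ∀ x : C, (η ^ j) (algebraMap C (AlgebraicClosure C) x) =
      algebraMap C (AlgebraicClosure C) ((h ^ j) x) := by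
  induction j with
  | zero => intro x; rfl
  | succ j ih =>
    intro x
    rw [pow_succ, pow_succ, AlgEquiv.mul_apply, AlgEquiv.mul_apply, hη, ih]

theorem dat_of {l p M m n : ℕ} [Fact l.Prime] [Fact p.Prime] [NeZero M] (hl2 : l ≠ 2) (hp2 : p ≠ 2)
    (hne : p ≠ l) (hlM : ¬ l ∣ M) (hpM : p.Coprime M) (hM : 3 ≤ M) {hmn : m ≤ n} {K L C : Type}
    [Field K] [NumberField K] [Field L] [NumberField L] [Field C] [NumberField C] [Algebra K L]
    [Algebra L C] [Algebra K C] [IsScalarTower K L C] [Normal K L]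
    [IsCyclotomicExtension {M * p ^ (n + 1)} ℚ C] (Y : CTM p M m n hmn K L C)
    {h gJ gt : C ≃ₐ[ℚ] C} {η : AlgebraicClosure C ≃ₐ[K] AlgebraicClosure C}
    {J t : AlgebraicClosure C ≃ₐ[L] AlgebraicClosure C} (X : Gd l p M m n hmn K L C h gJ gt η J t)
    (HE : NoNewE l p M m n hmn C) (HT : NoNewT l p M m n hmn C) {D t₀ : ℕ} (hD : D ≠ 0)
    (hlD : ¬ l ∣ D)
    (ht : ∀ q : ℕ, q.Prime → q ∣ D * l → q ≠ p → ¬ p ^ (t₀ + 1) ∣ q ^ (p - 1) - 1)
    (htm : t₀ + padicValNat p (M * l).totient ≤ m + 1) :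
    Dat l p (n - m) K L C (fun w => (D : 𝓞 C) ∈ w.asIdeal) h gJ gt η J t := by
  have hl : l.Prime := Fact.out
  have hp : p.Prime := Fact.out
  have hl0 : NeZero l := ⟨hl.ne_zero⟩
  have hMl0 : NeZero (M * l) := ⟨mul_ne_zero (NeZero.ne M) hl.ne_zero⟩
  have hN : 2 < M * p ^ (n + 1) := by
    have h1 : 1 ≤ p ^ (n + 1) := Nat.one_le_pow _ _ hp.pos
    nlinarith
  have hlN : ¬ l ∣ M * p ^ (n + 1) := by
    intro h1
    rcases (hl.dvd_mul).1 h1 with h2 | h2
    · exact hlM h2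
    · exact hne ((Nat.prime_dvd_prime_iff_eq hl hp).1 (hl.dvd_of_dvd_pow h2)).symm
  obtain ⟨c1, c2, c3, c4⟩ := cyc_facts (C := C) hN hl hl2 hlN
  obtain ⟨o1, o2⟩ := ord_J hpM hM X
  have hpMl : p.Coprime (M * l) := Nat.Coprime.mul_right hpM ((Nat.coprime_primes hp hl).2 hne)
  have hpadic : padicValNat p M.totient ≤ padicValNat p (M * l).totient := by
    have h0 : (M * l).totient ≠ 0 := (Nat.totient_pos.2 (Nat.pos_of_ne_zero (NeZero.ne (M * l)))).ne'
    exact (padicValNat_dvd_iff_le h0).1 (pow_padicValNat_dvd.trans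
      (Nat.totient_dvd_of_dvd (dvd_mul_right M l)))
  have hfix : ∀ w : HeightOneSpectrum (𝓞 C), ((D : 𝓞 C) ∈ w.asIdeal ∨ (l : 𝓞 C) ∈ w.asIdeal) →
      ∃ q : ℕ, q.Prime ∧ q ∣ D * l ∧ (q : 𝓞 C) ∈ w.asIdeal := by
    rintro w (h1 | h1)
    · obtain ⟨q, hq, hqD, hqw⟩ := G8_prime w D hD h1
      exact ⟨q, hq, hqD.mul_right l, hqw⟩
    · exact ⟨l, hl, dvd_mul_left l D, h1⟩
  obtain ⟨u, hu1, hu2⟩ := X.zeta_h
  have hzl : ∀ ζ : AlgebraicClosure C, ζ ^ l = 1 → ζ ^ (M * l * p ^ (n + 1)) = 1 := by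
    intro ζ hζ
    rw [show M * l * p ^ (n + 1) = l * (M * p ^ (n + 1)) by ring, pow_mul, hζ, one_pow]
  have hul : (u : ZMod (M * l * p ^ (n + 1))).val ≡ 1 [MOD l] := by
    have h1 : l ∣ M * l * p ^ (m + 1) := ⟨M * p ^ (m + 1), by ring⟩
    have h2 := congrArg (ZMod.unitsMap h1) hu1
    rw [map_one, ← MonoidHom.comp_apply, ZMod.unitsMap_comp] at h2
    have h3 := congrArg Units.val h2
    rw [H55T3.Hf_cast, Units.val_one] at h3
    rw [← ZMod.natCast_eq_natCast_iff, Nat.cast_one]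
    exact h3
  refine {
    gal := c1
    comm := c2
    cplx := c3
    mu := c4
    ord_h := X.ord_h
    ord_J := o1
    ord_Jt := o2
    lift_h := X.lift_h
    lift_J := X.lift_J
    lift_t := X.lift_t
    zeta_h := ?_
    zeta_J := fun ζ hζ => X.zeta_J ζ (hzl ζ hζ)
    cov := ?_
    fix := ?_
    bad_ℓ := ?_
    fix₁ := ?_
    nne := fun e he hv h1 h2 h3 => nne_of hpM X HE e he hv h1 h2 h3
    nnt := fun T h1 h2 h3 => nnt_of hpM hM X HT T h1 h2 h3 }
  · intro ζ hζ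
    rw [hu2 ζ (hzl ζ hζ), H55T3.Hf_pow hζ hul, pow_one]
  · intro g
    obtain ⟨g', hg', hg'x⟩ := Y.cov (g.restrictNormal L)
    obtain ⟨j, hj⟩ := X.gen g' hg'
    have hagree : ∀ x : L, g (algebraMap L (AlgebraicClosure C) x) =
        (η ^ j) (algebraMap L (AlgebraicClosure C) x) := by
      intro x
      rw [← AlgEquiv.restrictNormal_commutes g L x,
        IsScalarTower.algebraMap_apply L C (AlgebraicClosure C),
        IsScalarTower.algebraMap_apply L C (AlgebraicClosure C),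
        G8_pow (K := K) (L := L) X.lift_h, ← hj, hg'x]
    refine ⟨j, { ((η ^ j)⁻¹ * g : AlgebraicClosure C ≃ₐ[K] AlgebraicClosure C) with
      commutes' := fun x => ?_ }, ?_⟩
    · change (η ^ j)⁻¹ (g (algebraMap L (AlgebraicClosure C) x)) = _
      rw [hagree x]
      exact (η ^ j).symm_apply_apply _
    · ext y
      exact ((η ^ j).apply_symm_apply (g y)).symm
  · intro w hw x
    obtain ⟨q, hq, hqd, hqw⟩ := hfix w hw
    exact h_fixM hp2 hpM hmn hq (ht q hq hqd) (by omega) w hqw X.hH x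
  · intro w hDw hlw
    have hco : (D : ℤ).gcd l = 1 := by
      rw [Int.gcd_natCast_natCast]
      exact (Nat.Coprime.symm ((Nat.Prime.coprime_iff_not_dvd hl).2 hlD))
    have h1 := Int.gcd_eq_gcd_ab (D : ℤ) l
    rw [hco] at h1
    have h2 : (1 : 𝓞 C) = (D : 𝓞 C) * (Int.gcdA D l : 𝓞 C) + (l : 𝓞 C) * (Int.gcdB D l : 𝓞 C) := by
      exact_mod_cast congrArg (fun z : ℤ => (z : 𝓞 C)) h1
    apply w.isPrime.ne_top
    rw [Ideal.eq_top_iff_one, h2]
    exact Ideal.add_mem _ (Ideal.mul_mem_right _ _ hDw) (Ideal.mul_mem_right _ _ hlw)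
  · intro ζ hζ _ h₁ hh₁ w w' hw hww x
    have hcyc : IsCyclotomicExtension {M * l * p ^ (n + 1)} ℚ (IntermediateField.adjoin C {ζ}) :=
      cyc_adjoin (N := M * p ^ (n + 1)) (l := l) ((Nat.Prime.coprime_iff_not_dvd hl).2 hlN).symm
        (by ring) ζ hζ
    have hz := IsCyclotomicExtension.zeta_spec (M * l * p ^ (n + 1)) ℚ
      (IntermediateField.adjoin C {ζ})
    have hkp : kp (M * l * p ^ (n + 1)) h₁ = u := by
      refine kp_eq h₁ u hz ?_
      apply Subtype.ext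
      rw [← hh₁, hu2 _ (by
        have h2 := hz.pow_eq_one
        exact congrArg Subtype.val h2)]
      rfl
    have hInH : InH p (M * l) m n hmn h₁ := by
      unfold InH
      rw [hkp]
      exact hu1
    obtain ⟨q, hq, hqD, hqw⟩ := G8_prime w D hD hw
    have hqw' : (q : 𝓞 (IntermediateField.adjoin C {ζ})) ∈ w'.asIdeal := by
      rw [← hww, Ideal.mem_comap, map_natCast] at hqw
      exact hqw
    exact h_fixM hp2 hpMl hmn hq (ht q hq (hqD.mul_right l)) htm w' hqw' hInH x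

end H2T4
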