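import Pool.Agent.H11.Local
import Pool.Agent.H2.T4.DDf

/-!
Row LC (about 180 lines): a point of odd prime order l is integral at a place above l with v(l) = 1 (good reduction). The main tool is InE1.add_sub of Pool/Agent/H11/Local.lean.

PROOF. Work in C with the valuation ring A := (w.valuation C).valuationSubring (x ∈ A iff w x ≤ 1). W := VC, hW : Integral A W (from GoodV). Suppose T₀ = (x, y) with w x > 1 (otherwise done; T₀ = 0 is fine). z := zc W T₀ = x⁻¹, InE1 A W T₀.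
(1) w z ≤ exp (-2): from the equation y² + a₁ x y + a₃ y = x³ + .. with w x > 1: w y > 1 and w y ^ 2 = w x ^ 3 (compare the terms: if w y ^2 < w x^3 .. the usual argument), so 2 log w y = 3 log w x, log w x is even and > 0, so ≥ 2.
(2) claim: for all k, InE1 A W (k • T₀) and zc W (k • T₀) = z * w_k with w_k ∈ A and w_k - k^2 - b₂ z U_k ∈ z^2 A, where U_k ∈ ℕ, 12 U_k = k^2 (k^2 - 1) (U_0 = U_1 = 0, U_(k+1) + U_(k-1) = 2 U_k + k^2).
   Induction on k for the pair (k, k + 1), as in the proof of InE1.smul: InE1.add_sub for P = (k + 1) • T₀, Q = T₀: (z_(k+2) + z_k) (1 - b₄ z z_(k+1) - b₆ (z + z_(k+1)) z z_(k+1) - b₈ (z z_(k+1))^2) = 2 (z_(k+1) + z) + b₂ z z_(k+1) + b₄ (..) + b₆ ..; divide by z (z ≠ 0): (w_(k+2) + w_k) u = 2 (w_(k+1) + 1) + b₂ z w_(k+1) + z^2 (..) with u ∈ 1 + z^2 A a unit,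
   so w_(k+2) + w_k = 2 (w_(k+1) + 1) + b₂ z w_(k+1) modulo z^2 A, and w_(k+1) = (k+1)^2 modulo z A.
(3) k = l: l • T₀ = 0, zc = 0, so w_l = 0: l^2 + b₂ z U_l ∈ z^2 A. l ∣ U_l (l ≥ 5: l ∣ 12 U_l, l coprime to 12; l = 3: U_3 = 6; l odd prime). w (l^2) = exp (-2), w (b₂ z U_l) ≤ exp (-2) exp (-1) = exp (-3), w (z^2 a) ≤ exp (-4): contradiction (exp (-2) ≤ exp (-3)).
-/

set_option autoImplicit false
open scoped Classical

open WeierstrassCurve IsDedekindDomain NumberField Pool.Agent.H10 Pool.Agent.H11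

namespace H2T4

/-- the numbers `k^2 (k^2 - 1) / 12` -/
def LC_U (k : ℕ) : ℕ := ∑ j ∈ Finset.range k, ∑ i ∈ Finset.range (j + 1), i ^ 2

theorem LC_U_rec (k : ℕ) : LC_U (k + 2) + LC_U k = 2 * LC_U (k + 1) + (k + 1) ^ 2 := by
  unfold LC_U
  rw [Finset.sum_range_succ (fun j => ∑ i ∈ Finset.range (j + 1), i ^ 2) (k + 1),
    Finset.sum_range_succ (fun j => ∑ i ∈ Finset.range (j + 1), i ^ 2) k,
    Finset.sum_range_succ (fun i => i ^ 2) (k + 1)]
  ring

theorem LC_S (k : ℕ) : 6 * ∑ i ∈ Finset.range (k + 1), i ^ 2 = k * (k + 1) * (2 * k + 1) := by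
  induction k with
  | zero => rfl
  | succ k ih =>
    rw [Finset.sum_range_succ, mul_add, ih]
    ring

theorem LC_U_twelve (k : ℕ) : 12 * LC_U k + k ^ 2 = k ^ 4 := by
  induction k with
  | zero => rfl
  | succ k ih =>
    have h1 : LC_U (k + 1) = LC_U k + ∑ i ∈ Finset.range (k + 1), i ^ 2 := by
      unfold LC_U
      rw [Finset.sum_range_succ (fun j => ∑ i ∈ Finset.range (j + 1), i ^ 2) k]
    have h2 := LC_S k
    rw [h1, mul_add]
    have h3 : 12 * ∑ i ∈ Finset.range (k + 1), i ^ 2 = 2 * (k * (k + 1) * (2 * k + 1)) := by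
      rw [← h2]; ring
    rw [h3]
    nlinarith

theorem LC_dvd {l : ℕ} (hl : l.Prime) (h2 : l ≠ 2) : l ∣ LC_U l := by
  by_cases h3 : l = 3
  · subst h3
    decide
  · have h1 := LC_U_twelve l
    have h4 : l ∣ 12 * LC_U l := by
      have h5 : l ∣ 12 * LC_U l + l ^ 2 := by
        rw [h1]
        exact dvd_pow_self l (by norm_num)
      exact (Nat.dvd_add_left (dvd_pow_self l (by norm_num))).1 h5
    rcases (Nat.Prime.dvd_mul hl).1 h4 with h5 | h5
    · exfalso
      have h6 : l ∣ 2 ^ 2 * 3 := h5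
      rcases (Nat.Prime.dvd_mul hl).1 h6 with h7 | h7
      · exact h2 ((Nat.prime_dvd_prime_iff_eq hl Nat.prime_two).1 (hl.dvd_of_dvd_pow h7))
      · exact h3 ((Nat.prime_dvd_prime_iff_eq hl Nat.prime_three).1 h7)
    · exact h5

theorem LC_gt {γ : WithZero (Multiplicative ℤ)} (h : 1 < γ) : WithZero.exp (1 : ℤ) ≤ γ := by
  have h0 : γ ≠ 0 := (zero_lt_one.trans h).ne'
  rw [← WithZero.exp_log h0, ← WithZero.exp_zero, WithZero.exp_lt_exp] at h
  rw [← WithZero.exp_log h0, WithZero.exp_le_exp]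
  omega

theorem LC_half {C : Type} [Field C] (v : Valuation C (WithZero (Multiplicative ℤ)))
    {W : WeierstrassCurve C} (hw : GoodV v W) {x y : C} (h : W.toAffine.Nonsingular x y)
    (hx : 1 < v x) : ∃ s : C, 1 < v s ∧ v x = v s ^ 2 := by
  obtain ⟨h1, h2, h3, h4, h6, -⟩ := hw
  have hE := (Affine.equation_iff x y).1 h.1
  have hx0 : 0 < v x := zero_lt_one.trans hx
  have hxle : ∀ n m : ℕ, n ≤ m → v x ^ n ≤ v x ^ m := fun n m hnm => pow_le_pow_right₀ hx.le hnm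
  have hxlt : ∀ n m : ℕ, n < m → v x ^ n < v x ^ m := fun n m hnm => pow_lt_pow_right₀ hx hnm
  -- the right side
  have hR : v (x ^ 3 + W.a₂ * x ^ 2 + W.a₄ * x + W.a₆) = v x ^ 3 := by
    have e : x ^ 3 + W.a₂ * x ^ 2 + W.a₄ * x + W.a₆ =
        x ^ 3 + (W.a₂ * x ^ 2 + W.a₄ * x + W.a₆) := by ring
    rw [e, ← map_pow v x 3]
    apply Valuation.map_add_eq_of_lt_left
    rw [map_pow]
    refine Valuation.map_add_lt _ (Valuation.map_add_lt _ ?_ ?_) ?_
    · rw [map_mul, map_pow]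
      calc v W.a₂ * v x ^ 2 ≤ 1 * v x ^ 2 := mul_le_mul_left h2 _
        _ < v x ^ 3 := by rw [one_mul]; exact hxlt 2 3 (by norm_num)
    · rw [map_mul]
      calc v W.a₄ * v x ≤ 1 * v x := mul_le_mul_left h4 _
        _ < v x ^ 3 := by
          rw [one_mul]
          have := hxlt 1 3 (by norm_num)
          rwa [pow_one] at this
    · refine lt_of_le_of_lt h6 ?_
      have := hxlt 0 3 (by norm_num)
      rwa [pow_zero] at this
  have hax : v (W.a₁ * x + W.a₃) ≤ v x := by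
    refine Valuation.map_add_le _ ?_ (h3.trans hx.le)
    rw [map_mul]
    calc v W.a₁ * v x ≤ 1 * v x := mul_le_mul_left h1 _
      _ = v x := one_mul _
  have hL : v y * v (y + (W.a₁ * x + W.a₃)) = v x ^ 3 := by
    rw [← hR, ← map_mul, ← hE]
    congr 1
    ring
  have hxy : v x < v y := by
    by_contra hcon
    rw [not_lt] at hcon
    have h5 : v (y + (W.a₁ * x + W.a₃)) ≤ v x := Valuation.map_add_le _ hcon hax
    have h7 : v y * v (y + (W.a₁ * x + W.a₃)) ≤ v x * v x := mul_le_mul' hcon h5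
    rw [hL, ← sq] at h7
    exact absurd (hxlt 2 3 (by norm_num)) (not_lt.2 h7)
  have hy : v (y + (W.a₁ * x + W.a₃)) = v y :=
    Valuation.map_add_eq_of_lt_left _ (lt_of_le_of_lt hax hxy)
  rw [hy] at hL
  refine ⟨y / x, ?_, ?_⟩
  · rw [map_div₀, one_lt_div₀ hx0]
    exact hxy
  · rw [map_div₀, div_pow, sq (v y), hL, eq_div_iff (pow_ne_zero 2 hx0.ne')]
    exact (pow_succ' (v x) 2).symm

theorem LC_key {C : Type} [Field C] {A : ValuationSubring C} {W : WeierstrassCurve C}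
    [W.IsElliptic] (hW : Integral A W) {T : W.toAffine.Point} (hT : InE1 A W T)
    (k : ℕ) :
    InE1 A W (k • T) ∧ ∃ c ∈ A, zc W (k • T) = zc W T *
      ((k : C) ^ 2 + W.b₂ * zc W T * (LC_U k : C) + zc W T ^ 2 * c) := by
  have key : ∀ k : ℕ, (InE1 A W (k • T) ∧ ∃ c ∈ A, zc W (k • T) = zc W T *
      ((k : C) ^ 2 + W.b₂ * zc W T * (LC_U k : C) + zc W T ^ 2 * c)) ∧
      (InE1 A W ((k + 1) • T) ∧ ∃ c ∈ A, zc W ((k + 1) • T) = zc W T *
      (((k + 1 : ℕ) : C) ^ 2 + W.b₂ * zc W T * (LC_U (k + 1) : C) + zc W T ^ 2 * c)) := by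
    intro k
    induction k with
    | zero =>
      refine ⟨⟨Or.inl (by simp), 0, A.zero_mem, ?_⟩, ⟨by simpa using hT, 0, A.zero_mem, ?_⟩⟩
      · simp [LC_U]
      · simp [LC_U]
    | succ k ih =>
      refine ⟨ih.2, ?_⟩
      obtain ⟨⟨h0, c₀, hc₀, hw₀⟩, ⟨h1, c₁, hc₁, hw₁⟩⟩ := ih
      obtain ⟨a1, a2, a3⟩ := InE1.add_sub hW h1 hT
      have e1 : (k + 1) • T + T = (k + 1 + 1) • T := by rw [add_smul (k + 1), one_smul]
      have e2 : (k + 1) • T - T = k • T := by rw [add_smul, one_smul, add_sub_cancel_right]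
      rw [e1] at a1 a3
      rw [e2] at a3
      refine ⟨a1, ?_⟩
      rw [hw₀, hw₁] at a3
      have hz := hT.nu
      set z := zc W T with hzdef
      have hzA := nu_mem A hz
      have hb₄ := hW.b₄
      have hb₂ := hW.b₂
      have hb₆ := hW.b₆
      have hb₈ := hW.b₈
      generalize hz₂ : zc W ((k + 1 + 1) • T) = z₂ at a3 ⊢
      obtain ⟨w₁, hw₁d⟩ : ∃ w₁, w₁ = ((k + 1 : ℕ) : C) ^ 2 + W.b₂ * z * (LC_U (k + 1) : C) +
        z ^ 2 * c₁ := ⟨_, rfl⟩
      have hw₁A : w₁ ∈ A := by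
        rw [hw₁d]
        exact add_mem (add_mem (pow_mem (natCast_mem A _) 2) (mul_mem (mul_mem hb₂ hzA)
          (natCast_mem A _))) (mul_mem (pow_mem hzA 2) hc₁)
      obtain ⟨G, hG⟩ : ∃ G, G = W.b₄ * w₁ + W.b₆ * (z * w₁ + z) * w₁ + W.b₈ * (z * w₁) ^ 2 :=
        ⟨_, rfl⟩
      have hGA : G ∈ A := by
        rw [hG]
        exact add_mem (add_mem (mul_mem hb₄ hw₁A) (mul_mem (mul_mem hb₆ (add_mem
          (mul_mem hzA hw₁A) hzA)) hw₁A)) (mul_mem hb₈ (pow_mem (mul_mem hzA hw₁A) 2))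
      obtain ⟨R, hR⟩ : ∃ R, R = W.b₄ * (w₁ + 1) * w₁ + W.b₆ * z * w₁ ^ 2 +
        G * (2 * (w₁ + 1) + W.b₂ * z * w₁) := ⟨_, rfl⟩
      have hRA : R ∈ A := by
        rw [hR]
        exact add_mem (add_mem (mul_mem (mul_mem hb₄ (add_mem hw₁A A.one_mem)) hw₁A)
          (mul_mem (mul_mem hb₆ hzA) (pow_mem hw₁A 2))) (mul_mem hGA (add_mem (mul_mem
          (ofNat_mem A 2) (add_mem hw₁A A.one_mem)) (mul_mem (mul_mem hb₂ hzA) hw₁A)))
      have hF : A.valuation (1 + (-G * z) * z) = 1 :=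
        nu_one_add A (nu_mul A (mul_mem (neg_mem hGA) hzA) hz)
      have hF0 : (1 + (-G * z) * z) ≠ 0 := by
        intro h0
        rw [h0, _root_.map_zero] at hF
        exact zero_ne_one hF
      have hFi : (1 + (-G * z) * z)⁻¹ ∈ A := by
        rw [← A.valuation_le_one_iff, map_inv₀, hF, inv_one]
      obtain ⟨i, hi⟩ : ∃ i, i = (1 + (-G * z) * z)⁻¹ := ⟨_, rfl⟩
      rw [← hi] at hFi
      have hii : (1 + (-G * z) * z) * i = 1 := by
        rw [hi]
        exact mul_inv_cancel₀ hF0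
      have hU : (LC_U (k + 2) : C) + (LC_U k : C) = 2 * (LC_U (k + 1) : C) + ((k : C) + 1) ^ 2 := by
        have h := congrArg (Nat.cast (R := C)) (LC_U_rec k)
        push_cast at h
        exact h
      refine ⟨R * i + 2 * c₁ - c₀ + W.b₂ ^ 2 * (LC_U (k + 1) : C) + W.b₂ * z * c₁, ?_, ?_⟩
      · exact add_mem (add_mem (sub_mem (add_mem (mul_mem hRA hFi) (mul_mem (ofNat_mem A 2) hc₁))
          hc₀) (mul_mem (pow_mem hb₂ 2) (natCast_mem A _))) (mul_mem (mul_mem hb₂ hzA) hc₁)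
      · rw [← hw₁d] at a3
        apply mul_right_cancel₀ hF0
        have e5 : (LC_U (k + 1 + 1) : C) = 2 * (LC_U (k + 1) : C) + ((k : C) + 1) ^ 2 -
            (LC_U k : C) := by
          rw [← hU]
          ring
        rw [e5]
        push_cast
        push_cast at hw₁d
        have a4 : z₂ * (1 + (-G * z) * z) = 2 * (z * w₁ + z) + W.b₂ * (z * w₁ * z) +
            z ^ 3 * (W.b₄ * (w₁ + 1) * w₁ + W.b₆ * z * w₁ ^ 2) -
            z * ((k : C) ^ 2 + W.b₂ * z * (LC_U k : C) + z ^ 2 * c₀) * (1 + (-G * z) * z) := by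
          rw [hG]
          linear_combination a3
        rw [a4]
        have a5 : z ^ 3 * (W.b₄ * (w₁ + 1) * w₁ + W.b₆ * z * w₁ ^ 2) =
            z ^ 3 * R - z ^ 3 * G * (2 * (w₁ + 1) + W.b₂ * z * w₁) := by
          rw [hR]
          ring
        rw [a5]
        rw [hw₁d]
        linear_combination (-z ^ 3 * R) * hii
  exact (key k).1

theorem intX_above {C : Type} [Field C] [NumberField C] {VC : WeierstrassCurve C} [VC.IsElliptic]
    (w : HeightOneSpectrum (𝓞 C)) (hw : GoodV (w.valuation C) VC) {l : ℕ} (hl : l.Prime) (h2 : l ≠ 2)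
    (hv : w.valuation C (l : C) = WithZero.exp (-1 : ℤ)) (T₀ : VC.toAffine.Point) (hT : l • T₀ = 0) :
    IntX (w.valuation C) T₀ := by
  match T₀, hT with
  | 0, _ => trivial
  | .some x y n, hT =>
    show w.valuation C x ≤ 1
    by_contra hcon
    rw [not_le] at hcon
    obtain ⟨s, hs1, hs2⟩ := LC_half (w.valuation C) hw n hcon
    set v := w.valuation C with hvd
    have hmem : ∀ a, a ∈ v.valuationSubring ↔ v a ≤ 1 := fun a =>
      Valuation.mem_valuationSubring_iff v a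
    have hW : Integral v.valuationSubring VC :=
      ⟨(hmem _).2 hw.1, (hmem _).2 hw.2.1, (hmem _).2 hw.2.2.1, (hmem _).2 hw.2.2.2.1,
        (hmem _).2 hw.2.2.2.2.1⟩
    have hx0 : x ≠ 0 := by
      rintro rfl
      rw [_root_.map_zero] at hcon
      exact absurd hcon (not_lt.2 zero_le_one)
    have hTE : InE1 v.valuationSubring VC (Affine.Point.some x y n) := by
      refine Or.inr ⟨x, y, n, rfl, ?_⟩
      rw [hmem, not_le]
      exact hcon
    obtain ⟨-, c, hc, hk⟩ := LC_key hW hTE l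
    rw [hT, zc_zero, zc_some] at hk
    have hk2 := (mul_eq_zero.1 hk.symm).resolve_left (inv_ne_zero hx0)
    obtain ⟨m, hm⟩ := LC_dvd hl h2
    have hl0 : (l : C) ≠ 0 := Nat.cast_ne_zero.2 hl.ne_zero
    -- `x⁻¹ = l ^ 2 z'`
    obtain ⟨z', hz'⟩ : ∃ z', z' = x⁻¹ / (l : C) ^ 2 := ⟨_, rfl⟩
    have hz'e : x⁻¹ = (l : C) ^ 2 * z' := by
      rw [hz']
      field_simp
    have hz'A : z' ∈ v.valuationSubring := by
      rw [hmem, hz', map_div₀, map_inv₀, map_pow, hv, hs2]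
      have h5 := LC_gt hs1
      have h6 : (1 : WithZero (Multiplicative ℤ)) ≤ (v s) ^ 2 * WithZero.exp (-1 : ℤ) ^ 2 := by
        rw [← mul_pow]
        apply one_le_pow₀
        calc (1 : WithZero (Multiplicative ℤ)) = WithZero.exp (1 : ℤ) * WithZero.exp (-1 : ℤ) := by
              rw [← WithZero.exp_add]
              rfl
          _ ≤ v s * WithZero.exp (-1 : ℤ) := mul_le_mul_left h5 _
      rw [← one_div, div_div]
      exact div_le_one_of_le₀ h6 zero_le
    rw [hm, hz'e] at hk2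
    have h7 : (1 : C) = (l : C) * (-(VC.b₂ * z' * (m : C)) -
        (l : C) * z' ^ 2 * c) := by
      apply mul_left_cancel₀ (pow_ne_zero 2 hl0)
      push_cast at hk2
      linear_combination hk2
    have h8 : v (-(VC.b₂ * z' * (m : C)) - (l : C) * z' ^ 2 * c) ≤ 1 := by
      rw [← hmem]
      exact sub_mem (neg_mem (mul_mem (mul_mem hW.b₂ hz'A) (natCast_mem _ m)))
        (mul_mem (mul_mem (natCast_mem _ l) (pow_mem hz'A 2)) hc)
    have h9 := congrArg v h7
    rw [map_one, map_mul, hv] at h9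
    have h10 : (1 : WithZero (Multiplicative ℤ)) ≤ WithZero.exp (-1 : ℤ) := by
      rw [h9]
      calc WithZero.exp (-1 : ℤ) * v (-(VC.b₂ * z' * (m : C)) -
            (l : C) * z' ^ 2 * c) ≤ WithZero.exp (-1 : ℤ) * 1 := mul_le_mul_right h8 _
        _ = WithZero.exp (-1 : ℤ) := mul_one _
    rw [← WithZero.exp_zero, WithZero.exp_le_exp] at h10
    omega

end H2T4
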