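import Pool.Agent.H2.T4.GDf3
import Pool.Agent.H2.T4.G3
import Pool.Agent.H2.T4.G5
import Pool.Agent.H2.T4.LB
import Pool.Agent.H2.T4.LC

/-!
Row G9 (about 200 lines): the hypotheses of the descent. Use only the STATEMENTS of G3, G5, LB, LC.

PROOF. exists_iota: C contains a primitive M-th root (a power of zeta; IsCyclotomicExtension.zeta_spec, IsPrimitiveRoot.pow), so ι : F₀ →ₐ[ℚ] C exists: powerBasis lift as in `exists_C` of Pool/Agent/H55/T3/Ct.lean, or IsCyclotomicExtension.. / IsAlgClosed; F₀ as a C-subfield: letI := ι.toAlgebra, F₀/ℚ normal, g₀ := g.restrictNormal F₀ (restrictNormal_commutes). kp M g₀: for ζ₀ a primitive M-th root of F₀: ι (g₀ ζ₀) = g (ι ζ₀) = (ι ζ₀)^(kp g).val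
   ((ι ζ₀)^(M p^(n+1)) = 1: galEquivZMod_apply_of_pow_eq), so g₀ ζ₀ = ζ₀^((kp g).val) = ζ₀^((unitsMap (kp g)).val) (mod M), and kp_eq.
 hyp_of: T₀ := pm ι (bcZ W ι) T. Fields of Hyp: dat; prime, pprime, three, ne; ell: VC elliptic: Δ of W.baseChange C is the image of W.Δ ≠ 0 (a number field has characteristic zero): isUnit_iff_ne_zero, ⟨..⟩. T_ne: pm_injective; T_ord: map_nsmul.
   act s (upP T₀) = pm s _ (pm alg _ (pm ι _ T)) = pm (s ∘ alg ∘ ι) T (pm_pm), and for s a lift of g ∈ Gal(C/ℚ): s (alg (ι x)) = alg (g (ι x)) = alg (ι (g₀ x)), so act s (upP T₀) = upP (pm ι (pm g₀ T)) (pm_congr). T_η: InH h: kp h ≡ 1 mod M p^(m+1), so kp M g₀ = 1, g₀ = 1 (kp is injective). T_t: IsTau gt: the class modulo M is 1. T_J: kp gJ = -1, kp M g₀ = -1: hJ: pm g₀ T = -T, map_neg.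
   good: w with Δ ∉ w: coefficients of VC are integers: w ≤ 1 (valuation_le_one of the image of an integer); w Δ = 1 (the integer natAbs Δ is not in w: valuation_eq_one_iff / valuation_eq_one_iff_notMem as in D8; w (-1) = 1). IntX of T₀: if l ∉ w: w l = 1: intX_of_unit; if l ∈ w: val_l (l ∤ M p^(n+1)) and intX_above.
-/

set_option autoImplicit false
open scoped Classical

open WeierstrassCurve IsDedekindDomain NumberField Pool.Agent.H10 Pool.Agent.H11 Finset H5SW H78M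

namespace H2T4

theorem G9_unitsMap_neg {N N' : ℕ} (h : N' ∣ N) : ZMod.unitsMap h (-1) = -1 := by
  ext
  simp [ZMod.unitsMap_def]

theorem G9_act {k C F₀ : Type} [Field k] [NumberField k] [Field C] [NumberField C] [Algebra k C]
    [Field F₀] {V : WeierstrassCurve k} {VC : WeierstrassCurve C} {V₀ : WeierstrassCurve F₀}
    (hKC : V.map (algebraMap k C) = VC) (ι : F₀ →+* C) (hι : V₀.map ι = VC)
    (s : AlgebraicClosure C ≃ₐ[k] AlgebraicClosure C) (g₀ : F₀ →+* F₀) (hg₀ : V₀.map g₀ = V₀)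
    (hs : ∀ x : F₀, s (algebraMap C (AlgebraicClosure C) (ι x)) =
      algebraMap C (AlgebraicClosure C) (ι (g₀ x))) (T : V₀.toAffine.Point) :
    Pool.Agent.H10.act (inv_up hKC) s (upP (pm ι hι T)) = upP (pm ι hι (pm g₀ hg₀ T)) := by
  rcases T with _ | ⟨x, y, hxy⟩
  · rfl
  · exact (Affine.Point.some.injEq _ _ _ _ _ _).mpr ⟨hs x, hs y⟩

theorem G9_le {C : Type} [Field C] [NumberField C] (w : HeightOneSpectrum (𝓞 C)) (a : ℤ) :
    w.valuation C (algebraMap ℤ C a) ≤ 1 := by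
  rw [IsScalarTower.algebraMap_apply ℤ (𝓞 C) C]
  exact w.valuation_le_one _

theorem G9_one {C : Type} [Field C] [NumberField C] (w : HeightOneSpectrum (𝓞 C)) (a : ℤ)
    (ha : ((a.natAbs : ℕ) : 𝓞 C) ∉ w.asIdeal) : w.valuation C (algebraMap ℤ C a) = 1 := by
  rw [IsScalarTower.algebraMap_apply ℤ (𝓞 C) C, HeightOneSpectrum.valuation_eq_one_iff_notMem]
  intro h
  apply ha
  rcases Int.natAbs_eq a with h1 | h1
  · rw [h1] at h
    simpa using h
  · rw [h1, map_neg, neg_mem_iff] at h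
    simpa using h

theorem G9_good {C : Type} [Field C] [NumberField C] (W : WeierstrassCurve ℤ)
    (w : HeightOneSpectrum (𝓞 C)) (hw : ((W.Δ.natAbs : ℕ) : 𝓞 C) ∉ w.asIdeal) :
    GoodV (w.valuation C) (W.baseChange C) := by
  refine ⟨G9_le w _, G9_le w _, G9_le w _, G9_le w _, G9_le w _, ?_⟩
  have h1 : (W.baseChange C).Δ = algebraMap ℤ C W.Δ := WeierstrassCurve.map_Δ W (algebraMap ℤ C)
  rw [h1]
  exact G9_one w _ hw

theorem exists_iota {p M n : ℕ} [Fact p.Prime] [NeZero M] {F₀ C : Type} [Field F₀] [NumberField F₀]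
    [IsCyclotomicExtension {M} ℚ F₀] [Field C] [NumberField C]
    [IsCyclotomicExtension {M * p ^ (n + 1)} ℚ C] :
    ∃ ι : F₀ →+* C, ∀ g : C ≃ₐ[ℚ] C, ∃ g₀ : F₀ ≃ₐ[ℚ] F₀, (∀ x, g (ι x) = ι (g₀ x)) ∧
      kp M g₀ = ZMod.unitsMap (dvd_mul_right M (p ^ (n + 1))) (kp (M * p ^ (n + 1)) g) := by
  have hM : 0 < M := Nat.pos_of_ne_zero (NeZero.ne M)
  have hz := IsCyclotomicExtension.zeta_spec M ℚ F₀
  obtain ⟨ι⟩ : Nonempty (F₀ →ₐ[ℚ] C) := by
    have hw := IsCyclotomicExtension.zeta_spec (M * p ^ (n + 1)) ℚ C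
    have hw2 : IsPrimitiveRoot (IsCyclotomicExtension.zeta (M * p ^ (n + 1)) ℚ C ^ (p ^ (n + 1))) M :=
      hw.pow (Nat.pos_of_ne_zero (NeZero.ne _)) (mul_comm _ _)
    have hirr := Polynomial.cyclotomic.irreducible_rat hM
    have hmin := hz.minpoly_eq_cyclotomic_of_irreducible hirr
    refine ⟨(hz.powerBasis ℚ).lift _ (?_ : Polynomial.aeval
      (IsCyclotomicExtension.zeta (M * p ^ (n + 1)) ℚ C ^ (p ^ (n + 1)))
      (minpoly ℚ (hz.powerBasis ℚ).gen) = 0)⟩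
    rw [IsPrimitiveRoot.powerBasis_gen, ← hmin, Polynomial.aeval_def, Polynomial.eval₂_eq_eval_map,
      Polynomial.map_cyclotomic]
    exact hw2.isRoot_cyclotomic hM
  let _ : Algebra F₀ C := ι.toRingHom.toAlgebra
  have hst : IsScalarTower ℚ F₀ C := IsScalarTower.of_algebraMap_eq' (Subsingleton.elim _ _)
  have hgal : IsGalois ℚ F₀ := IsCyclotomicExtension.isGalois {M} ℚ F₀
  refine ⟨ι.toRingHom, fun g => ⟨g.restrictNormal F₀, fun x => ?_, ?_⟩⟩
  · exact (AlgEquiv.restrictNormal_commutes g F₀ x).symm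
  · have hg : ∀ x : F₀, ι (g.restrictNormal F₀ x) = g (ι x) := fun x =>
      AlgEquiv.restrictNormal_commutes g F₀ x
    apply kp_eq _ _ hz
    apply ι.injective
    change ι (g.restrictNormal F₀ _) = ι (_ ^ _)
    have hz' : IsPrimitiveRoot (ι (IsCyclotomicExtension.zeta M ℚ F₀)) M :=
      hz.map_of_injective ι.injective
    have h1 : (ι (IsCyclotomicExtension.zeta M ℚ F₀)) ^ (M * p ^ (n + 1)) = 1 := by
      rw [pow_mul, hz'.pow_eq_one, one_pow]
    have h2 : g (ι (IsCyclotomicExtension.zeta M ℚ F₀)) = ι (IsCyclotomicExtension.zeta M ℚ F₀) ^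
        ((kp (M * p ^ (n + 1)) g : (ZMod (M * p ^ (n + 1)))ˣ) : ZMod (M * p ^ (n + 1))).val :=
      IsCyclotomicExtension.Rat.galEquivZMod_apply_of_pow_eq (M * p ^ (n + 1)) C g h1
    rw [hg, h2, map_pow, (hz'.isOfFinOrder (NeZero.ne _)).pow_inj_mod, ← hz'.eq_orderOf,
      ← ZMod.natCast_eq_natCast_iff', ZMod.natCast_val, ZMod.natCast_val, ZMod.cast_id]
    rfl

theorem hyp_of {l p M m n : ℕ} [Fact l.Prime] [Fact p.Prime] [NeZero M] (hl2 : l ≠ 2)
    (hne : p ≠ l) (hlM : ¬ l ∣ M) {hmn : m ≤ n} {F₀ K L C : Type} [Field F₀]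
    [NumberField F₀] [IsCyclotomicExtension {M} ℚ F₀] [Field K] [NumberField K] [Field L]
    [NumberField L] [Field C] [NumberField C] [Algebra K L] [Algebra L C] [Algebra K C]
    [IsScalarTower K L C] [IsCyclotomicExtension {M * p ^ (n + 1)} ℚ C] {h gJ gt : C ≃ₐ[ℚ] C}
    {η : AlgebraicClosure C ≃ₐ[K] AlgebraicClosure C}
    {J t : AlgebraicClosure C ≃ₐ[L] AlgebraicClosure C} (X : Gd l p M m n hmn K L C h gJ gt η J t)
    (W : WeierstrassCurve ℤ) (hΔ : ¬ (l : ℤ) ∣ W.Δ) (T : (W.baseChange F₀).toAffine.Point)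
    (hT0 : T ≠ 0) (hT : l • T = 0)
    (hJ : ∀ g₀ : F₀ ≃ₐ[ℚ] F₀, kp M g₀ = -1 → pm (g₀ : F₀ →+* F₀) (bcZ W _) T = -T)
    (dat : Dat l p (n - m) K L C (fun w => ((W.Δ.natAbs : ℕ) : 𝓞 C) ∈ w.asIdeal) h gJ gt η J t) :
    ∃ T₀ : (W.baseChange C).toAffine.Point,
      Hyp l p (n - m) K L C (fun w => ((W.Δ.natAbs : ℕ) : 𝓞 C) ∈ w.asIdeal) h gJ gt η J t
        (V := W.baseChange K) (V' := (W.baseChange K).baseChange L) (VC := W.baseChange C) rfl
        (bcZ2 W (algebraMap K L) (algebraMap L C)) (bcZ W (algebraMap K C)) T₀ := by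
  have hl : l.Prime := Fact.out
  have hp : p.Prime := Fact.out
  have hl3 : 3 ≤ l := by
    have := hl.two_le
    omega
  have hΔ0 : W.Δ ≠ 0 := by
    intro h0
    rw [h0] at hΔ
    exact hΔ (dvd_zero _)
  have hlN : ¬ l ∣ M * p ^ (n + 1) := by
    intro hd
    rcases (Nat.Prime.dvd_mul hl).1 hd with h1 | h1
    · exact hlM h1
    · exact hne ((Nat.prime_dvd_prime_iff_eq hl hp).1 (hl.dvd_of_dvd_pow h1)).symm
  have hell : (W.baseChange C).IsElliptic := by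
    refine ⟨isUnit_iff_ne_zero.2 ?_⟩
    have h1 : (W.baseChange C).Δ = algebraMap ℤ C W.Δ := WeierstrassCurve.map_Δ W (algebraMap ℤ C)
    rw [h1]
    simpa using hΔ0
  obtain ⟨ι, hι⟩ := exists_iota (p := p) (M := M) (n := n) (F₀ := F₀) (C := C)
  have hinj : ∀ g₀ : F₀ ≃ₐ[ℚ] F₀, kp M g₀ = 1 → ∀ x, g₀ x = x := by
    intro g₀ h1 x
    have h2 : g₀ = 1 := (IsCyclotomicExtension.Rat.galEquivZMod M F₀).injective (by
      rw [map_one]
      exact h1)
    rw [h2]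
    rfl
  have hTl : l • pm ι (bcZ W ι) T = 0 := by
    rw [← map_nsmul, hT, map_zero]
  refine ⟨pm ι (bcZ W ι) T, ⟨dat, hl, hl3, hp, hne, hell, ?_, hTl, ?_, ?_, ?_, ?_⟩⟩
  · intro h0
    apply hT0
    apply pm_injective ι (bcZ W ι)
    rw [h0, map_zero]
  · obtain ⟨g₀, hg1, hg2⟩ := hι h
    have hk : kp M g₀ = 1 := by
      rw [hg2, ← ZMod.unitsMap_comp (Nat.dvd_mul_right M (p ^ (m + 1)))
        (Nat.mul_dvd_mul_left M (pow_dvd_pow p (Nat.succ_le_succ hmn)))]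
      have h3 := X.hH
      unfold InH at h3
      rw [MonoidHom.comp_apply, h3, map_one]
    rw [G9_act (V₀ := W.baseChange F₀) (bcZ W (algebraMap K C)) ι (bcZ W ι) η (g₀ : F₀ →+* F₀)
      (bcZ W _) (fun x => by rw [X.lift_h, hg1]; rfl) T, pm_eq_self _ (fun x => hinj g₀ hk x)]
  · obtain ⟨g₀, hg1, hg2⟩ := hι gJ
    have hk : kp M g₀ = -1 := by
      rw [hg2, X.kJ, G9_unitsMap_neg]
    rw [G9_act (V₀ := W.baseChange F₀) (bcZ2 W (algebraMap K L) (algebraMap L C)) ι (bcZ W ι) J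
      (g₀ : F₀ →+* F₀) (bcZ W _) (fun x => by rw [X.lift_J, hg1]; rfl) T, hJ g₀ hk]
    exact (congrArg upP (map_neg _ _)).trans (map_neg _ _)
  · obtain ⟨g₀, hg1, hg2⟩ := hι gt
    have hk : kp M g₀ = 1 := by
      rw [hg2, X.kt.1]
    rw [G9_act (V₀ := W.baseChange F₀) (bcZ2 W (algebraMap K L) (algebraMap L C)) ι (bcZ W ι) t
      (g₀ : F₀ →+* F₀) (bcZ W _) (fun x => by rw [X.lift_t, hg1]; rfl) T,
      pm_eq_self _ (fun x => hinj g₀ hk x)]
  · intro w hw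
    have hg := G9_good W w hw
    refine ⟨hg, ?_⟩
    by_cases hwl : (l : 𝓞 C) ∈ w.asIdeal
    · exact intX_above w hg hl hl2 (val_l hl hlN w hwl) _ hTl
    · refine intX_of_unit w hg (ℓ := l) ?_ _ hTl
      have h1 : algebraMap (𝓞 C) C (l : 𝓞 C) = (l : C) := map_natCast _ _
      rw [← h1, HeightOneSpectrum.valuation_eq_one_iff_notMem]
      exact hwl

end H2T4
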