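import Pool.Agent.H2.T4.D9
import Pool.Agent.H2.T4.Dbij
import Pool.Agent.H2.T4.Dres
import Pool.Agent.H2.T4.G1
import Pool.Agent.H2.T4.G6
import Pool.Agent.H2.T4.G8
import Pool.Agent.H2.T4.G9
import Pool.Agent.H78.MG.Fin
import Pool.Agent.H5.SW.Fin

/-! Assembly of MP_78d38b_T4 (helper2; no row). -/

set_option autoImplicit false
open scoped Classical

open WeierstrassCurve IsDedekindDomain NumberField Pool.Agent.H10 Pool.Agent.H11 H5SW H78M

namespace H2T4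

/-- bijectivity and the Mordell-Weil statement from `CTl` -/
theorem of_ctl {ℓ : ℕ} (hℓ : ℓ.Prime) {K L : Type} [Field K] [NumberField K] [Field L]
    [NumberField L] [Algebra K L] [IsGalois K L] (hn : ¬ ℓ ∣ Module.finrank K L)
    {E : WeierstrassCurve K} (hE : (E.baseChange L).IsElliptic)
    (H : CTl K L ℓ (E.baseChange L) (inv_up rfl)) :
    ShaPrimBijective ℓ K E L ∧
      ∃ m : ℕ, ¬ ℓ ∣ m ∧ ∀ P : (E.baseChange L).toAffine.Point,
        ∃ Q : (E.baseChange K).toAffine.Point,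
          m • P = WeierstrassCurve.Affine.Point.map (Algebra.ofId K L) Q := by
  refine ⟨shaPrimBijective rfl (bijOn_of_prime hℓ (Sha.res rfl) (Sha.cor rfl) hn
    (Sha.cor_res rfl) (prime_up hℓ hn hE rfl H)), ?_⟩
  obtain ⟨m, hm, hP⟩ := prime_exponent hℓ (pm (algebraMap K L) (rfl : E.map _ = _))
    (mordell_weil (E.baseChange L)) (mw_upl hℓ hn hE rfl H)
  refine ⟨m, hm, fun P => ?_⟩
  obtain ⟨Q, hQ⟩ := hP P
  refine ⟨Q, ?_⟩
  exact hQ.trans (map_eq_pm (S := K) E (Algebra.ofId K L) Q).symm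

/-- complex conjugation on a cyclotomic field acts on the roots of unity by inversion -/
theorem conj_root {M : ℕ} [NeZero M] {F₀ : Type} [Field F₀] [NumberField F₀]
    [IsCyclotomicExtension {M} ℚ F₀] (g : F₀ ≃ₐ[ℚ] F₀) (hg : kp M g = -1) (ζ : F₀)
    (hζ : ζ ^ M = 1) : g ζ = ζ⁻¹ := by
  have hM : M ≠ 0 := NeZero.ne M
  have h1 := IsCyclotomicExtension.Rat.galEquivZMod_apply_of_pow_eq M F₀ g hζ
  have h2 : IsCyclotomicExtension.Rat.galEquivZMod M F₀ g = -1 := hg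
  rw [h1, h2]
  have hz : ζ ≠ 0 := by
    rintro rfl
    rw [zero_pow hM] at hζ
    exact zero_ne_one hζ
  refine eq_inv_of_mul_eq_one_left ?_
  rw [← pow_succ]
  have h3 : M ∣ ((-1 : (ZMod M)ˣ) : ZMod M).val + 1 := by
    rw [← ZMod.natCast_eq_zero_iff, Nat.cast_add, Nat.cast_one, ZMod.natCast_zmod_val]
    rw [Units.val_neg, Units.val_one, neg_add_cancel]
  obtain ⟨c, hc⟩ := h3
  rw [hc, pow_mul, hζ, one_pow]

/-- the conductor is at least three -/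
theorem three_le {l f : ℕ} [Fact l.Prime] [NeZero f] (hl2 : l ≠ 2) {F₀ : Type} [Field F₀]
    [NumberField F₀] [IsCyclotomicExtension {f} ℚ F₀] (W : WeierstrassCurve ℤ)
    (T : (W.baseChange F₀).toAffine.Point) (hT0 : T ≠ 0) (hT : l • T = 0)
    (hJ : ∀ g₀ : F₀ ≃ₐ[ℚ] F₀, kp f g₀ = -1 → pm (g₀ : F₀ →+* F₀) (bcZ W _) T = -T) : 3 ≤ f := by
  by_contra hcon
  have hf : f = 1 ∨ f = 2 := by
    have := NeZero.ne f
    omega
  have h1 : (-1 : (ZMod f)ˣ) = 1 := by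
    rcases hf with rfl | rfl
    · exact Subsingleton.elim _ _
    · decide
  have h2 := hJ 1 (by rw [h1]; exact map_one (IsCyclotomicExtension.Rat.galEquivZMod f F₀))
  have h3 : pm ((1 : F₀ ≃ₐ[ℚ] F₀) : F₀ →+* F₀) (bcZ W _) T = T := pm_eq_self _ (fun x => rfl) T
  rw [h3] at h2
  have h4 : 2 • T = 0 := by
    rw [two_nsmul]
    nth_rewrite 1 [h2]
    exact neg_add_cancel T
  have h5 : addOrderOf T ∣ 2 := addOrderOf_dvd_of_nsmul_eq_zero h4
  have h6 : addOrderOf T ∣ l := addOrderOf_dvd_of_nsmul_eq_zero hT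
  have hl : l.Prime := Fact.out
  have h7 : addOrderOf T ∣ Nat.gcd 2 l := Nat.dvd_gcd h5 h6
  rw [(Nat.coprime_primes Nat.prime_two hl).2 (Ne.symm hl2), Nat.dvd_one,
    AddMonoid.addOrderOf_eq_one_iff] at h7
  exact hT0 h7

/-- The theorem in terms of `pm`. -/
theorem main (l p f : ℕ) [Fact l.Prime] [Fact p.Prime] [NeZero f] (hl2 : l ≠ 2) (hp2 : p ≠ 2)
    (hne : p ≠ l) (hlf : ¬ l ∣ f) (hpf : ¬ p ∣ f) {F₀ : Type} [Field F₀] [NumberField F₀]
    [IsCyclotomicExtension {f} ℚ F₀] (W : WeierstrassCurve ℤ) (hΔ : ¬ (l : ℤ) ∣ W.Δ)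
    (T : (W.baseChange F₀).toAffine.Point) (hT0 : T ≠ 0) (hT : l • T = 0)
    (hJ : ∀ g₀ : F₀ ≃ₐ[ℚ] F₀, kp f g₀ = -1 → pm (g₀ : F₀ →+* F₀) (bcZ W _) T = -T) :
    ∃ N : ℕ, ∀ (K L : Type) [Field K] [NumberField K] [Field L] [NumberField L] [Algebra K L],
      IsR p L → (∃ i : ℕ, Module.finrank K L = p ^ i) → p ^ N ∣ Module.finrank ℚ K →
      ShaPrimBijective l K (W.baseChange K) L ∧
      ∃ m : ℕ, ¬ l ∣ m ∧ ∀ P : ((W.baseChange K).baseChange L).toAffine.Point,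
        ∃ Q : ((W.baseChange K).baseChange K).toAffine.Point,
          m • P = WeierstrassCurve.Affine.Point.map (Algebra.ofId K L) Q := by
  have hl : l.Prime := Fact.out
  have hp : p.Prime := Fact.out
  have hpM : p.Coprime f := (Nat.Prime.coprime_iff_not_dvd hp).2 hpf
  have hD0 : W.Δ ≠ 0 := by
    intro h
    rw [h] at hΔ
    exact hΔ (dvd_zero _)
  have hD : W.Δ.natAbs ≠ 0 := Int.natAbs_ne_zero.mpr hD0
  have hlD : ¬ l ∣ W.Δ.natAbs := fun h => hΔ (Int.natCast_dvd.mpr h)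
  have hf3 : 3 ≤ f := three_le hl2 W T hT0 hT hJ
  obtain ⟨t₀, ht⟩ := exists_val_bound (p := p) (mul_ne_zero hD hl.ne_zero)
  obtain ⟨k0, hk⟩ := exists_level l p f hl2 hp2 (Ne.symm hne) hpM
  refine ⟨k0 + t₀ + padicValNat p (f * l).totient + 1, ?_⟩
  intro K L _ _ _ _ _ hL ⟨i, hi⟩ hN
  have hK0 : Module.finrank ℚ K ≠ 0 := Module.finrank_pos.ne'
  have hm := (padicValNat_dvd_iff_le hK0).mp hN
  obtain ⟨n, M, F, _, _, _, _, _, _, _, ⟨Tw⟩⟩ := exists_tower (p := p) hp2 hL hi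
  have : IsGalois K L := galois_KL hp2 Tw
  have hnl : ¬ l ∣ Module.finrank K L := by
    rw [hi]
    intro h
    have := (Nat.prime_dvd_prime_iff_eq hl hp).mp (hl.dvd_of_dvd_pow h)
    exact hne this.symm
  obtain ⟨C, _, _, _, _, _, _, Y⟩ := exists_CM hp2 hpM Tw
  obtain ⟨h, gJ, gt, η, J, t, X⟩ := exists_Gd (l := l) hp2 hne hpM Tw.rp.hmn Y
  obtain ⟨HE, HT⟩ := hk _ n Tw.rp.hmn (by omega) C
  have dat := dat_of hl2 hp2 hne hlf hpM hf3 Y X HE HT hD hlD ht (by omega)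
  obtain ⟨T₀, H⟩ := hyp_of hl2 hne hlf X W hΔ T hT0 hT hJ dat
  have : IsGalois ℚ C := dat.gal
  have : IsGalois K C := IsGalois.tower_top_of_isGalois ℚ K C
  have : IsGalois L C := IsGalois.tower_top_of_isGalois ℚ L C
  have hE : ((W.baseChange K).baseChange L).IsElliptic := by
    rw [show (W.baseChange K).baseChange L = W.baseChange L from bcZ W _]
    refine ⟨?_⟩
    rw [isUnit_iff_ne_zero, WeierstrassCurve.baseChange, WeierstrassCurve.map_Δ]
    simpa using hD0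
  exact of_ctl hl hnl hE (ctl_L H)

end H2T4
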