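import Pool.Agent.H78.MG.Df
import Pool.Agent.H5.SW.L5
import Pool.Agent.H5.SW.L4

/-!
Block G (cyclotomic geometry) of MP_78d38b_T4 (helper2; definitions, no row).
`kp`, `InH`, `IsTau`: Pool/Agent/H78/MG/Df.lean.
-/

set_option autoImplicit false
open scoped Classical

open IsDedekindDomain NumberField Finset H5SW H78M

namespace H2T4

/-- reduction of the class of `g` modulo `p ^ (n+1)` -/
noncomputable def kpp (p M n : ℕ) [Fact p.Prime] [NeZero M] {C : Type} [Field C] [NumberField C]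
    [IsCyclotomicExtension {M * p ^ (n + 1)} ℚ C] (g : C ≃ₐ[ℚ] C) : (ZMod (p ^ (n + 1)))ˣ :=
  ZMod.unitsMap (dvd_mul_left (p ^ (n + 1)) M) (kp (M * p ^ (n + 1)) g)

/-- `C = ℚ(ζ)`, `ζ` of order `M p^(n+1)`, over `K ⊆ L` -/
structure CTM (p M m n : ℕ) [Fact p.Prime] [NeZero M] (hmn : m ≤ n) (K L C : Type) [Field K]
    [NumberField K] [Field L] [NumberField L] [Field C] [NumberField C] [Algebra K L] [Algebra L C]
    [Algebra K C] [IsCyclotomicExtension {M * p ^ (n + 1)} ℚ C] : Prop where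
  fixL : ∀ g : C ≃ₐ[ℚ] C, (kpp p M n g = 1 ∨ kpp p M n g = -1) →
    ∀ x : L, g (algebraMap L C x) = algebraMap L C x
  fixK : ∀ g : C ≃ₐ[ℚ] C, InH p M m n hmn g → ∀ x : K, g (algebraMap K C x) = algebraMap K C x
  cov : ∀ t : L ≃ₐ[K] L, ∃ g : C ≃ₐ[ℚ] C, InH p M m n hmn g ∧
    ∀ x : L, g (algebraMap L C x) = algebraMap L C (t x)

end H2T4
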