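import Pool.Agent.H2.T4.GDf
import Pool.Agent.H2.T4.DDf

/-!
Block G of MP_78d38b_T4 (helper2; definitions, no row): the elements `h`, `gJ`, `gt` and their lifts.
-/

set_option autoImplicit false
open scoped Classical

open IsDedekindDomain NumberField Finset H5SW H78M

namespace H2T4

/-- `h` generates `H`, `gJ` is complex conjugation, `gt` is `1` modulo `M` and `-1` modulo `p^(n+1)`; `η`, `J`, `t` are
lifts to the closure with controlled action on the roots of unity of order dividing `M l p^(n+1)`. -/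
structure Gd (l p M m n : ℕ) [Fact l.Prime] [Fact p.Prime] [NeZero M] (hmn : m ≤ n) (K L C : Type)
    [Field K] [NumberField K] [Field L] [NumberField L] [Field C] [NumberField C] [Algebra K L]
    [Algebra L C] [Algebra K C] [IsScalarTower K L C] [IsCyclotomicExtension {M * p ^ (n + 1)} ℚ C]
    (h gJ gt : C ≃ₐ[ℚ] C) (η : AlgebraicClosure C ≃ₐ[K] AlgebraicClosure C)
    (J t : AlgebraicClosure C ≃ₐ[L] AlgebraicClosure C) : Prop where
  hH : InH p M m n hmn h
  gen : ∀ g : C ≃ₐ[ℚ] C, InH p M m n hmn g → ∃ j : ℕ, g = h ^ j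
  ord_h : orderOf h = p ^ (n - m)
  kJ : kp (M * p ^ (n + 1)) gJ = -1
  kt : IsTau p M n gt
  lift_h : ∀ x : C, η (algebraMap C (AlgebraicClosure C) x) = algebraMap C (AlgebraicClosure C) (h x)
  lift_J : ∀ x : C, J (algebraMap C (AlgebraicClosure C) x) = algebraMap C (AlgebraicClosure C) (gJ x)
  lift_t : ∀ x : C, t (algebraMap C (AlgebraicClosure C) x) = algebraMap C (AlgebraicClosure C) (gt x)
  zeta_h : ∃ u : (ZMod (M * l * p ^ (n + 1)))ˣ,
    ZMod.unitsMap (Nat.mul_dvd_mul_left (M * l) (pow_dvd_pow p (Nat.succ_le_succ hmn))) u = 1 ∧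
    ∀ ω : AlgebraicClosure C, ω ^ (M * l * p ^ (n + 1)) = 1 →
      η ω = ω ^ (u : ZMod (M * l * p ^ (n + 1))).val
  zeta_J : ∀ ω : AlgebraicClosure C, ω ^ (M * l * p ^ (n + 1)) = 1 → J ω = ω⁻¹

end H2T4
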