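import Pool.Agent.H2.T4.GDf2
import Pool.Agent.H2.T4.DG

/-!
Block G of MP_78d38b_T4 (helper2; definitions, no row): base change of a curve over the integers.
-/

set_option autoImplicit false
open scoped Classical

open WeierstrassCurve

namespace H2T4

theorem bcZ (W : WeierstrassCurve ℤ) {A B : Type} [Field A] [Field B] (φ : A →+* B) :
    (W.baseChange A).map φ = W.baseChange B := by
  unfold WeierstrassCurve.baseChange
  rw [WeierstrassCurve.map_map]
  congr 1
  exact RingHom.ext_int _ _

theorem bcZ2 (W : WeierstrassCurve ℤ) {A B C : Type} [Field A] [Field B] [Field C] (φ : A →+* B)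
    (ψ : B →+* C) : ((W.baseChange A).map φ).map ψ = W.baseChange C := by
  rw [bcZ, bcZ]

end H2T4
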