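import Mathlib

/-!
Row H1 (about 200 lines): index of `g - 1` on a finitely generated module killed by the norm. Mathlib only.

SETTING. Z a finitely generated (additive) abelian group, g : Z ≃+ Z (or an additive endomorphism) with ∑_{i<ℓ} g^i = 0, ℓ an odd prime. Put δ = g - 1.
For an additive endomorphism φ of Z with finite kernel and finite cokernel put q(φ) = |coker φ|/|ker φ|.
(1) q(φ ψ) = q(φ) q(ψ) for commuting (or any) φ, ψ with finite kernels and cokernels: exact sequence 0 → ker ψ → ker φψ → ker φ → coker ψ → coker φψ → coker φ → 0; or: |coker φψ| = |Z/φZ| |φZ/φψZ| and φZ/φψZ ≅ Z/(ψZ + ker φ), |Z/ψZ| = |Z/(ψZ + ker φ)| |(ψZ + ker φ)/ψZ|, (ψZ + ker φ)/ψZ ≅ ker φ/(ker φ ∩ ψZ), and ψ maps ker φψ onto ker φ ∩ ψZ with kernel ker ψ.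
(2) q(m) = m^r for the multiplication by m ≥ 1, r = finrank ℤ Z: Z ≅ ℤ^r × finite (Module.equiv_free_prod_directSum / AddCommGroup.equiv_free_prod_directSum_zmod), on a finite group q = 1.
(3) For a prime to ℓ, u_a = ∑_{i<a} g^i is bijective on Z: choose b with a b ≡ 1 mod ℓ: g^(ab) = g (g^ℓ = 1 as (g - 1) ∑ g^i = 0). In the polynomial ring: (X^a - 1)/(X - 1) * ((X^a)^b - 1)/(X^a - 1) = (X^(ab) - 1)/(X - 1) = 1 + X + ... + X^(ab-1) = 1 + (multiple of (1 + X + ... + X^(ℓ-1))): ab = 1 + ℓ k. So u_a * (∑_{j<b} g^(aj)) = 1 + k-fold sums of the norm = 1 on Z.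
(4) ∏_{a=1}^{ℓ-1} (1 - X^a) ≡ ℓ modulo Φ_ℓ = 1 + X + ... + X^(ℓ-1): in ℤ[X]/(Φ_ℓ) ⊂ ℂ this is Φ_ℓ(1) = ℓ (IsPrimitiveRoot.. / `Polynomial.eval_one_cyclotomic_prime`; identity in ℤ[X]: evaluate at a primitive root, Φ_ℓ = minpoly divides the difference).
 Each 1 - X^a = -(X - 1) u_a. So ℓ = δ^(ℓ-1) ∏ u_a on Z (ℓ - 1 even), and q(δ)^(ℓ-1) = q(ℓ) = ℓ^r by (1), (2), (3) (q of a bijection is 1). δ has finite kernel and cokernel: ker δ is killed by ℓ (N = ℓ on ker δ) and f.g.; coker is killed by ℓ (ℓ Z ⊆ δ Z).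
 Hence q(δ)^(ℓ-1) = ℓ^r with q(δ) rational, q(δ) = power of ℓ (both cardinalities are powers of ℓ: the groups are killed by ℓ), so (ℓ-1) | r and q(δ) = ℓ^(r/(ℓ-1)).
STATEMENT: with r = (ℓ - 1) * k: |Z/δZ| = ℓ^k |ker δ|.
-/

set_option autoImplicit false
set_option linter.style.haveILetI false
open scoped Classical

namespace H2T4

/-! ### The multiplication by `m` -/

private lemma H1_range_equiv (m : ℕ) {A B : Type*} [AddCommGroup A] [AddCommGroup B] (e : A ≃+ B) :
    (nsmulAddMonoidHom m : A →+ A).range.map (e : A →+ B) =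
      (nsmulAddMonoidHom m : B →+ B).range := by
  ext x
  simp only [AddSubgroup.mem_map, AddMonoidHom.mem_range, nsmulAddMonoidHom_apply]
  constructor
  · rintro ⟨_, ⟨y, rfl⟩, rfl⟩
    exact ⟨e y, by simp⟩
  · rintro ⟨y, rfl⟩
    exact ⟨m • e.symm y, ⟨e.symm y, rfl⟩, by simp⟩

private lemma H1_free (m n : ℕ) (hm : m ≠ 0) :
    (nsmulAddMonoidHom m : (Fin n →₀ ℤ) →+ (Fin n →₀ ℤ)).range.index = m ^ n := by
  have : NeZero m := ⟨hm⟩
  let f : (Fin n →₀ ℤ) →+ (Fin n → ZMod m) :=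
    { toFun := fun x i => ((x i : ℤ) : ZMod m)
      map_zero' := by ext; simp
      map_add' := by intro x y; ext; simp }
  have hk : f.ker = (nsmulAddMonoidHom m : (Fin n →₀ ℤ) →+ (Fin n →₀ ℤ)).range := by
    ext x
    rw [AddMonoidHom.mem_ker, AddMonoidHom.mem_range]
    constructor
    · intro h
      have h2 : ∀ i, ∃ k : ℤ, x i = m * k := by
        intro i
        have := congrFun h i
        change ((x i : ℤ) : ZMod m) = 0 at this
        exact (ZMod.intCast_zmod_eq_zero_iff_dvd _ _).mp this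
      choose k hk using h2
      refine ⟨Finsupp.equivFunOnFinite.symm k, ?_⟩
      ext i
      simp [hk i]
    · rintro ⟨y, rfl⟩
      ext i
      change ((((m : ℕ) • y) i : ℤ) : ZMod m) = 0
      rw [Finsupp.smul_apply, nsmul_eq_mul, Int.cast_mul]
      simp
  have hs : Function.Surjective f := by
    intro y
    refine ⟨Finsupp.equivFunOnFinite.symm fun i => ((y i).val : ℤ), ?_⟩
    ext i
    change ((((y i).val : ℤ) : ℤ) : ZMod m) = y i
    simp
  rw [← hk, AddSubgroup.index_ker, AddMonoidHom.range_eq_top.mpr hs]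
  rw [Nat.card_congr (AddSubgroup.topEquiv (G := Fin n → ZMod m)).toEquiv, Nat.card_fun]
  simp

private lemma H1_finite (m : ℕ) (T : Type*) [AddCommGroup T] [Finite T] :
    (nsmulAddMonoidHom m : T →+ T).range.index =
      Nat.card (nsmulAddMonoidHom m : T →+ T).ker := by
  have h1 := AddSubgroup.index_ker (nsmulAddMonoidHom m : T →+ T)
  have h2 := AddSubgroup.index_mul_card (nsmulAddMonoidHom m : T →+ T).ker
  have h3 := AddSubgroup.index_mul_card (nsmulAddMonoidHom m : T →+ T).range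
  have h5 : 0 < Nat.card (nsmulAddMonoidHom m : T →+ T).range := Nat.card_pos
  rw [h1, ← h3, mul_comm] at h2
  exact (Nat.eq_of_mul_eq_mul_right h5 h2).symm

private theorem H1_index (m : ℕ) (hm : m ≠ 0) (A : Type*) [AddCommGroup A]
    [hA : AddGroup.FG A] :
    (nsmulAddMonoidHom m : A →+ A).range.index =
      m ^ Module.finrank ℤ A * Nat.card (nsmulAddMonoidHom m : A →+ A).ker ∧
      Finite (nsmulAddMonoidHom m : A →+ A).ker := by
  classical
  obtain ⟨n, ι, hι, p, hp, e, ⟨E⟩⟩ := AddCommGroup.equiv_free_prod_directSum_zmod A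
  have : Finite (DirectSum ι fun i => ZMod (p i ^ e i)) := by
    have : ∀ i, NeZero (p i ^ e i) := fun i => ⟨pow_ne_zero _ (hp i).ne_zero⟩
    have : ∀ i, Finite (ZMod (p i ^ e i)) := fun i => inferInstance
    have := Fintype.ofFinite ι
    exact Finite.of_equiv _ (DirectSum.addEquivProd (fun i => ZMod (p i ^ e i))).symm.toEquiv
  set T := DirectSum ι fun i => ZMod (p i ^ e i) with hT
  have i1 : (nsmulAddMonoidHom m : A →+ A).range.index =
      (nsmulAddMonoidHom m : ((Fin n →₀ ℤ) × T) →+ ((Fin n →₀ ℤ) × T)).range.index := by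
    rw [← H1_range_equiv m E, AddSubgroup.index_map_equiv]
  have i2 : (nsmulAddMonoidHom m : ((Fin n →₀ ℤ) × T) →+ ((Fin n →₀ ℤ) × T)).range =
      (nsmulAddMonoidHom m : (Fin n →₀ ℤ) →+ (Fin n →₀ ℤ)).range.prod
        (nsmulAddMonoidHom m : T →+ T).range := by
    ext ⟨x, y⟩
    rw [AddSubgroup.mem_prod, AddMonoidHom.mem_range, AddMonoidHom.mem_range, AddMonoidHom.mem_range]
    constructor
    · rintro ⟨⟨a, b⟩, h⟩
      simp only [nsmulAddMonoidHom_apply, Prod.smul_mk, Prod.mk.injEq] at h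
      exact ⟨⟨a, h.1⟩, ⟨b, h.2⟩⟩
    · rintro ⟨⟨a, ha⟩, ⟨b, hb⟩⟩
      refine ⟨(a, b), ?_⟩
      rw [nsmulAddMonoidHom_apply] at ha hb ⊢
      simp only [Prod.smul_mk, Prod.mk.injEq]
      exact ⟨ha, hb⟩
  have i3 : Module.finrank ℤ A = n := by
    rw [LinearEquiv.finrank_eq E.toIntLinearEquiv]
    have h1 : LinearMap.ker (LinearMap.fst ℤ (Fin n →₀ ℤ) T) ≤
        Submodule.torsion ℤ ((Fin n →₀ ℤ) × T) := by
      rintro ⟨x, y⟩ hx
      have hx0 : x = 0 := hx
      rw [Submodule.mem_torsion_iff]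
      have := Fintype.ofFinite T
      refine ⟨⟨(Nat.card T : ℤ), ?_⟩, ?_⟩
      · exact mem_nonZeroDivisors_of_ne_zero (by exact_mod_cast Nat.card_pos.ne')
      · change (Nat.card T : ℤ) • (x, y) = 0
        rw [hx0, Prod.smul_mk, smul_zero, natCast_zsmul]
        have : Nat.card T • y = 0 := card_nsmul_eq_zero'
        rw [this]; rfl
    have h2 := finrank_quotient_eq_of_le_torsion h1
    rw [← h2]
    have E2 := LinearMap.quotKerEquivOfSurjective (LinearMap.fst ℤ (Fin n →₀ ℤ) T)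
      LinearMap.fst_surjective
    rw [LinearEquiv.finrank_eq E2, Module.finrank_finsupp_self, Fintype.card_fin]
  have i4 : Nat.card (nsmulAddMonoidHom m : A →+ A).ker =
      Nat.card (nsmulAddMonoidHom m : T →+ T).ker := by
    refine Nat.card_congr ⟨fun x => ⟨(E x.1).2, ?_⟩, fun y => ⟨E.symm (0, y.1), ?_⟩, ?_, ?_⟩
    · have h0 : m • x.1 = 0 := x.2
      have h1 : m • (E x.1).2 = (E (m • x.1)).2 := by rw [map_nsmul]; rfl
      change m • (E x.1).2 = 0
      rw [h1, h0, map_zero]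
      rfl
    · have h0 : m • y.1 = 0 := y.2
      change m • E.symm (0, y.1) = 0
      rw [← map_nsmul, Prod.smul_mk, smul_zero, h0]
      exact map_zero E.symm
    · rintro ⟨x, hx⟩
      apply Subtype.ext
      change E.symm (0, (E x).2) = x
      have hx' : m • x = 0 := hx
      have h1 : (E x).1 = 0 := by
        have := congrArg (fun z => (E z).1) hx'
        simp only [map_nsmul, Prod.smul_fst, map_zero, Prod.fst_zero] at this
        exact (smul_eq_zero.1 this).resolve_left hm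
      rw [← h1]
      simp
    · rintro ⟨y, hy⟩
      apply Subtype.ext
      simp
  refine ⟨by rw [i1, i2, AddSubgroup.index_prod, H1_free m n hm, H1_finite, i3, i4], ?_⟩
  apply Nat.finite_of_card_ne_zero
  rw [i4]
  exact Nat.card_pos.ne'

/-! ### Multiplicativity -/

private lemma H1_mult {Z : Type*} [AddCommGroup Z] (φ ψ : Z →+ Z) :
    (φ.comp ψ).range.index * (Nat.card φ.ker * Nat.card ψ.ker) =
      φ.range.index * ψ.range.index * Nat.card (φ.comp ψ).ker := by
  have h1 : (φ.comp ψ).range.index = (ψ.range ⊔ φ.ker).index * φ.range.index := by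
    rw [← AddMonoidHom.map_range, AddSubgroup.index_map]
  have h2 : ψ.range.index = ψ.range.relIndex φ.ker * (ψ.range ⊔ φ.ker).index := by
    rw [← AddSubgroup.relIndex_mul_index (le_sup_left : ψ.range ≤ ψ.range ⊔ φ.ker),
      AddSubgroup.relIndex_sup_left]
  have h3 : Nat.card (ψ.range.addSubgroupOf φ.ker) * ψ.range.relIndex φ.ker =
      Nat.card φ.ker := AddSubgroup.card_mul_index (ψ.range.addSubgroupOf φ.ker)
  have h4 : Nat.card (φ.comp ψ).ker =
      Nat.card ψ.ker * Nat.card (ψ.range.addSubgroupOf φ.ker) := by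
    let f : (φ.comp ψ).ker →+ φ.ker :=
      { toFun := fun x => ⟨ψ x.1, x.2⟩
        map_zero' := Subtype.ext (map_zero ψ)
        map_add' := fun x y => Subtype.ext (map_add ψ x.1 y.1) }
    have e1 : f.range = ψ.range.addSubgroupOf φ.ker := by
      ext y
      rw [AddMonoidHom.mem_range, AddSubgroup.mem_addSubgroupOf, AddMonoidHom.mem_range]
      constructor
      · rintro ⟨x, rfl⟩
        exact ⟨x.1, rfl⟩
      · rintro ⟨x, hx⟩
        refine ⟨⟨x, ?_⟩, Subtype.ext hx⟩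
        change φ (ψ x) = 0
        rw [hx]
        exact y.2
    have e2 : Nat.card f.ker = Nat.card ψ.ker := by
      refine Nat.card_congr ⟨fun x => ⟨x.1.1, Subtype.ext_iff.1 x.2⟩,
        fun x => ⟨⟨x.1, ?_⟩, Subtype.ext x.2⟩, fun x => rfl, fun x => rfl⟩
      change φ (ψ x.1) = 0
      have hx : ψ x.1 = 0 := x.2
      rw [hx, map_zero]
    rw [← AddSubgroup.card_mul_index f.ker, AddSubgroup.index_ker, e1, e2]
  rw [h1, h4, h2, ← h3]
  ring

private lemma H1_pow {Z : Type*} [AddCommGroup Z] (δ : AddMonoid.End Z) (N : ℕ)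
    (hfin : ∀ j ≤ N, Finite (AddMonoidHom.ker (δ ^ j : AddMonoid.End Z))) :
    ∀ j ≤ N, (AddMonoidHom.range (δ ^ j : AddMonoid.End Z)).index *
        Nat.card (AddMonoidHom.ker δ) ^ j =
      (AddMonoidHom.range δ).index ^ j *
        Nat.card (AddMonoidHom.ker (δ ^ j : AddMonoid.End Z)) := by
  intro j
  induction j with
  | zero =>
    intro _
    rw [pow_zero, pow_zero, pow_zero, mul_one, one_mul]
    have e1 : AddMonoidHom.range (1 : AddMonoid.End Z) = ⊤ :=
      AddMonoidHom.range_eq_top.2 fun z => ⟨z, rfl⟩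
    have e2 : AddMonoidHom.ker (1 : AddMonoid.End Z) = ⊥ := by
      rw [eq_bot_iff]
      intro z hz
      exact hz
    rw [e1, e2, AddSubgroup.index_top, AddSubgroup.card_bot]
  | succ j ih =>
    intro hj
    have h1 := ih (by omega)
    have h2 := H1_mult δ (δ ^ j : AddMonoid.End Z)
    have e : (AddMonoidHom.comp δ (δ ^ j : AddMonoid.End Z)) = (δ ^ (j + 1) : AddMonoid.End Z) := by
      rw [pow_succ']
      rfl
    rw [e] at h2
    have := hfin j (by omega)
    have hpos : 0 < Nat.card (AddMonoidHom.ker (δ ^ j : AddMonoid.End Z)) := Nat.card_pos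
    apply Nat.eq_of_mul_eq_mul_right hpos
    calc (AddMonoidHom.range (δ ^ (j + 1) : AddMonoid.End Z)).index *
          Nat.card (AddMonoidHom.ker δ) ^ (j + 1) *
          Nat.card (AddMonoidHom.ker (δ ^ j : AddMonoid.End Z))
        = ((AddMonoidHom.range (δ ^ (j + 1) : AddMonoid.End Z)).index *
          (Nat.card (AddMonoidHom.ker δ) * Nat.card (AddMonoidHom.ker (δ ^ j : AddMonoid.End Z)))) *
          Nat.card (AddMonoidHom.ker δ) ^ j := by ring
      _ = (AddMonoidHom.range δ).index * ((AddMonoidHom.range (δ ^ j : AddMonoid.End Z)).index *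
          Nat.card (AddMonoidHom.ker δ) ^ j) *
          Nat.card (AddMonoidHom.ker (δ ^ (j + 1) : AddMonoid.End Z)) := by
          rw [h2]; ring
      _ = _ := by rw [h1]; ring

/-! ### The polynomial identity -/

open Polynomial in
private lemma H1_poly (n : ℕ) (hp : (n + 2).Prime) (hev : Even (n + 1)) :
    ∃ u w : ℤ[X],
      (∑ i ∈ Finset.range (n + 2), (X : ℤ[X]) ^ i).comp (X + 1) =
        X ^ (n + 1) - ((n + 2 : ℕ) : ℤ[X]) * u ∧
      ∃ Q : ℤ[X], (∑ i ∈ Finset.range (n + 2), (X : ℤ[X]) ^ i).comp (X + 1) * Q - 1 = u * w := by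
  have hc : ∀ i, i < n → ∃ c : ℕ, (n + 2).choose (i + 1 + 1) = (n + 2) * c := fun i hi =>
    hp.dvd_choose_self (by omega) (by omega)
  choose! c hc using hc
  obtain ⟨q, hq⟩ : ∃ q : ℤ[X], q = ∑ i ∈ Finset.range n, ((c i : ℕ) : ℤ[X]) * X ^ i := ⟨_, rfl⟩
  have h1 : (∑ i ∈ Finset.range (n + 2), (X : ℤ[X]) ^ i).comp (X + 1) =
      X ^ (n + 1) - ((n + 2 : ℕ) : ℤ[X]) * (-(1 + X * q)) := by
    rw [geom_sum_X_comp_X_add_one_eq_sum, Finset.sum_range_succ, Finset.sum_range_succ']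
    have e1 : ∑ i ∈ Finset.range n, (((n + 2).choose (i + 1 + 1) : ℕ) : ℤ[X]) * X ^ (i + 1) =
        ((n + 2 : ℕ) : ℤ[X]) * (X * q) := by
      rw [hq, Finset.mul_sum, Finset.mul_sum]
      refine Finset.sum_congr rfl fun i hi => ?_
      rw [hc i (Finset.mem_range.1 hi)]
      push_cast
      ring
    rw [e1, Nat.choose_self, zero_add, Nat.choose_one_right]
    push_cast
    ring
  have h2 : (-(1 + X * q)) ∣ (X * q) ^ (n + 1) - 1 := by
    have h3 := sub_dvd_pow_sub_pow (X * q) (-1) (n + 1)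
    rw [hev.neg_one_pow] at h3
    have h4 : X * q - -1 = -(-(1 + X * q)) := by ring
    rw [h4] at h3
    exact (neg_dvd).1 h3
  obtain ⟨w, hw⟩ := h2
  refine ⟨-(1 + X * q), w - ((n + 2 : ℕ) : ℤ[X]) * q ^ (n + 1), h1, q ^ (n + 1), ?_⟩
  rw [h1]
  have h5 : (X * q) ^ (n + 1) - 1 = -(1 + X * q) * w := hw
  linear_combination h5

open Polynomial in
private lemma H1_unit {Z : Type*} [AddCommGroup Z] (n : ℕ) (hp : (n + 2).Prime)
    (hev : Even (n + 1)) (G δ : AddMonoid.End Z) (hδ : δ = G - 1)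
    (hg : ∀ z : Z, ∑ i ∈ Finset.range (n + 2), (G ^ i) z = 0) :
    ∃ U V : AddMonoid.End Z, U * V = 1 ∧ V * U = 1 ∧
      ∀ z, (δ ^ (n + 1)) z = (n + 2) • U z := by
  obtain ⟨u, w, h1, Q, h2⟩ := H1_poly n hp hev
  have hF : aeval δ ((∑ i ∈ Finset.range (n + 2), (X : ℤ[X]) ^ i).comp (X + 1)) = 0 := by
    have e1 : δ + 1 = G := by
      rw [hδ]
      exact sub_add_cancel G 1
    rw [aeval_comp, map_add, aeval_X, map_one, e1, map_sum]
    refine AddMonoidHom.ext fun z => ?_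
    have e2 : ∀ i, aeval G ((X : ℤ[X]) ^ i) = G ^ i :=
      fun i => by rw [map_pow, aeval_X]
    rw [Finset.sum_congr rfl (fun i _ => e2 i)]
    have e3 : (∑ i ∈ Finset.range (n + 2), G ^ i) z =
        ∑ i ∈ Finset.range (n + 2), (G ^ i) z :=
      AddMonoidHom.finsetSum_apply (fun i => G ^ i) (Finset.range (n + 2)) z
    exact e3.trans (hg z)
  have h3 := congrArg (aeval δ) h1
  have h4 := congrArg (aeval δ) h2
  rw [hF, map_sub, map_pow, aeval_X, map_mul, map_natCast] at h3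
  rw [map_sub, map_mul, hF, zero_mul, map_one, map_mul, zero_sub] at h4
  refine ⟨aeval δ u, -aeval δ w, ?_, ?_, ?_⟩
  · rw [mul_neg, ← h4, neg_neg]
  · rw [neg_mul, ← map_mul, mul_comm w u, map_mul, ← h4, neg_neg]
  · intro z
    have h5 : δ ^ (n + 1) = ((n + 2 : ℕ) : AddMonoid.End Z) * aeval δ u :=
      (sub_eq_zero.1 h3.symm)
    rw [h5]
    change ((n + 2 : ℕ) : AddMonoid.End Z) (aeval δ u z) = _
    rw [AddMonoid.End.natCast_apply]

theorem index_delta (Z : Type) [AddCommGroup Z] [Module.Finite ℤ Z] (ℓ : ℕ) (hℓ : ℓ.Prime)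
    (h3 : 3 ≤ ℓ) (g : Z →+ Z) (hg : ∀ z : Z, ∑ i ∈ Finset.range ℓ, (g^[i]) z = 0) :
    ∃ k : ℕ, Module.finrank ℤ Z = (ℓ - 1) * k ∧
      Nat.card (Z ⧸ (g - AddMonoidHom.id Z).range) = ℓ ^ k * Nat.card (g - AddMonoidHom.id Z).ker ∧
      Finite (Z ⧸ (g - AddMonoidHom.id Z).range) ∧ Finite (g - AddMonoidHom.id Z).ker := by
  obtain ⟨n, rfl⟩ : ∃ n, ℓ = n + 2 := ⟨ℓ - 2, by omega⟩
  have hev : Even (n + 1) := by
    have h5 := hℓ.odd_of_ne_two (by omega)
    obtain ⟨m, hm⟩ := h5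
    exact ⟨m, by omega⟩
  have hfg : AddGroup.FG Z := Module.Finite.iff_addGroup_fg.1 inferInstance
  obtain ⟨δ, hδd⟩ : ∃ δ : AddMonoid.End Z, δ = g - AddMonoidHom.id Z := ⟨_, rfl⟩
  obtain ⟨U, V, hUV, hVU, hδ⟩ := H1_unit n hℓ hev (g : AddMonoid.End Z) δ hδd
    (fun z => hg z)
  obtain ⟨hidx, hkfin⟩ := H1_index (n + 2) (by omega) Z
  have hUV' : ∀ z, U (V z) = z := fun z => DFunLike.congr_fun hUV z
  have hVU' : ∀ z, V (U z) = z := fun z => DFunLike.congr_fun hVU z
  have hran : AddMonoidHom.range (δ ^ (n + 1) : AddMonoid.End Z) =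
      (nsmulAddMonoidHom (n + 2) : Z →+ Z).range := by
    ext y
    rw [AddMonoidHom.mem_range, AddMonoidHom.mem_range]
    constructor
    · rintro ⟨z, rfl⟩
      exact ⟨U z, (hδ z).symm⟩
    · rintro ⟨z, rfl⟩
      refine ⟨V z, ?_⟩
      have e1 := hδ (V z)
      rw [hUV'] at e1
      exact e1
  have hker : AddMonoidHom.ker (δ ^ (n + 1) : AddMonoid.End Z) =
      (nsmulAddMonoidHom (n + 2) : Z →+ Z).ker := by
    ext z
    rw [AddMonoidHom.mem_ker, AddMonoidHom.mem_ker]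
    have e1 := hδ z
    constructor
    · intro h
      have e2 : (n + 2) • U z = 0 := e1.symm.trans h
      rw [← map_nsmul] at e2
      change (n + 2) • z = 0
      rw [← hVU' ((n + 2) • z), e2, map_zero]
    · intro h
      have h' : (n + 2) • z = 0 := h
      refine e1.trans ?_
      rw [← map_nsmul, h', map_zero]
  have hle : ∀ j ≤ n + 1, AddMonoidHom.ker (δ ^ j : AddMonoid.End Z) ≤
      (nsmulAddMonoidHom (n + 2) : Z →+ Z).ker := by
    intro j hj z hz
    rw [← hker]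
    have hz' : (δ ^ j : AddMonoid.End Z) z = 0 := hz
    change (δ ^ (n + 1) : AddMonoid.End Z) z = 0
    have e1 : (δ ^ (n + 1) : AddMonoid.End Z) = δ ^ (n + 1 - j) * δ ^ j := by
      rw [← pow_add]; congr 1; omega
    rw [e1]
    change (δ ^ (n + 1 - j) : AddMonoid.End Z) ((δ ^ j : AddMonoid.End Z) z) = 0
    rw [hz', map_zero]
  have hfin : ∀ j ≤ n + 1, Finite (AddMonoidHom.ker (δ ^ j : AddMonoid.End Z)) := fun j hj =>
    Finite.of_injective (AddSubgroup.inclusion (hle j hj))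
      (AddSubgroup.inclusion_injective (hle j hj))
  have hfin1 : Finite (AddMonoidHom.ker δ) := by
    have h5 := hfin 1 (by omega)
    rwa [pow_one] at h5
  have key := H1_pow δ (n + 1) hfin (n + 1) le_rfl
  rw [hran, hker, hidx] at key
  have hk0 : 0 < Nat.card (nsmulAddMonoidHom (n + 2) : Z →+ Z).ker := Nat.card_pos
  have hk1 : 0 < Nat.card (AddMonoidHom.ker δ) := Nat.card_pos
  have key2 : (n + 2) ^ Module.finrank ℤ Z * Nat.card (AddMonoidHom.ker δ) ^ (n + 1) =
      (AddMonoidHom.range δ).index ^ (n + 1) := by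
    apply Nat.eq_of_mul_eq_mul_right hk0
    rw [← key]
    ring
  have hdvd : Nat.card (AddMonoidHom.ker δ) ∣ (AddMonoidHom.range δ).index := by
    rw [← Nat.pow_dvd_pow_iff (n := n + 1) (by omega), ← key2]
    exact Dvd.intro_left _ rfl
  obtain ⟨t, ht⟩ := hdvd
  have key3 : (n + 2) ^ Module.finrank ℤ Z = t ^ (n + 1) := by
    apply Nat.eq_of_mul_eq_mul_right (pow_pos hk1 (n + 1))
    rw [key2, ht, mul_pow, mul_comm]
  have htd : t ∣ (n + 2) ^ Module.finrank ℤ Z := by
    rw [key3]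
    exact dvd_pow_self t (by omega)
  obtain ⟨k, -, hk⟩ := (Nat.dvd_prime_pow hℓ).1 htd
  have hidx2 : (AddMonoidHom.range δ).index = (n + 2) ^ k * Nat.card (AddMonoidHom.ker δ) := by
    rw [ht, hk, mul_comm]
  refine ⟨k, ?_, ?_, ?_, ?_⟩
  · rw [hk, ← pow_mul] at key3
    have h5 := Nat.pow_right_injective (by omega : 2 ≤ n + 2) key3
    rw [h5, mul_comm]
    congr 1
  · rw [hδd] at hidx2
    exact hidx2
  · apply Nat.finite_of_card_ne_zero
    have h6 : (AddMonoidHom.range δ).index ≠ 0 := by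
      rw [hidx2]
      exact (Nat.mul_pos (pow_pos (by omega) k) hk1).ne'
    rw [hδd] at h6
    exact h6
  · rw [hδd] at hfin1
    exact hfin1

end H2T4
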