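import Pool.Agent.H2.T4.H1

/-!
Row H2a (about 170 lines): Herbrand quotient of a finitely generated module. Use only the STATEMENT of H1.

SETTING. M finitely generated abelian group, g : M →+ M with g^ℓ = 1. N = ∑_{i<ℓ} g^i, δ = g - 1. MG = ker δ, Z = ker N.
(1) N M ≤ MG, δ M ≤ Z, ℓ MG ≤ N M (N = ℓ on MG).
(2) δ induces M/(MG + Z) ≅ δM/δZ; N induces M/(MG + Z) ≅ NM/N(MG) = NM/ℓ MG. So [δM : δZ] = [NM : ℓ MG].
(3) |Z/δM| = |Z/δZ|/[δM : δZ], |MG/NM| = |MG/ℓMG|/[NM : ℓMG]. So |Z/δM| |MG/ℓ MG| = |MG/NM| |Z/δZ|.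
(4) H1 for Z (g maps Z to Z, N = 0 on Z): |Z/δZ| = ℓ^k |ker δ on Z|, finrank Z = (ℓ-1) k, ker δ on Z = Z ∩ MG = {x ∈ MG, ℓ x = 0}.
(5) |MG/ℓMG| = ℓ^r |MG[ℓ]|, r = finrank MG (as (2) of H1: MG ≅ ℤ^r × finite; or use Mathlib; index of ℓ).
(6) finrank M = finrank MG + finrank Z (rank-nullity for N: M → NM, ℓ MG ≤ NM ≤ MG so finrank NM = finrank MG).
Together: |Z/δM| ℓ^r = |MG/NM| ℓ^k.
STATEMENT: if finrank M = ℓ * (r + 1) - 1 where r = finrank MG (units: r = n/2 - 1, finrank M = ℓ n/2 - 1), then finrank Z = (ℓ - 1)(r + 1), k = r + 1 and |Z/δM| = ℓ |MG/NM|.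
All the groups are finite. The quotients are expressed with AddSubgroup.relIndex: |Z/δM| = (δM).relIndex Z etc.
-/

set_option autoImplicit false
open scoped Classical

namespace H2T4

theorem H2a_fg (M : Type) [AddCommGroup M] [Module.Finite ℤ M] (H : AddSubgroup M) : Module.Finite ℤ H :=
  Module.Finite.of_injective (H.subtype.toIntLinearMap) Subtype.val_injective

theorem H2a_free (F : Type) [AddCommGroup F] [Module.Free ℤ F] [Module.Finite ℤ F] (n : ℕ) (hn : 0 < n) :
    (nsmulAddMonoidHom (α := F) n).range.index = n ^ Module.finrank ℤ F := by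
  have hn0 : (n : ℤ) ≠ 0 := by exact_mod_cast hn.ne'
  have hinj : Function.Injective ((n : ℤ) • (LinearMap.id : F →ₗ[ℤ] F)) := by
    intro x y h
    exact smul_right_injective F hn0 h
  have h1 := Submodule.natAbs_det_equiv (LinearMap.range ((n : ℤ) • (LinearMap.id : F →ₗ[ℤ] F)))
    (LinearEquiv.ofInjective _ hinj)
  have h2 : (LinearMap.range ((n : ℤ) • (LinearMap.id : F →ₗ[ℤ] F))).subtype ∘ₗ
      AddMonoidHom.toIntLinearMap ((LinearEquiv.ofInjective _ hinj :
        F ≃ₗ[ℤ] LinearMap.range ((n : ℤ) • (LinearMap.id : F →ₗ[ℤ] F))) : F →+ _) = (n : ℤ) • LinearMap.id := by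
    ext x
    rfl
  rw [h2, LinearMap.det_smul, LinearMap.det_id, mul_one, Int.natAbs_pow, Int.natAbs_natCast] at h1
  rw [h1]
  have h3 : (nsmulAddMonoidHom (α := F) n).range =
      (LinearMap.range ((n : ℤ) • (LinearMap.id : F →ₗ[ℤ] F))).toAddSubgroup := by
    ext x
    constructor
    · rintro ⟨y, rfl⟩
      exact ⟨y, by simp⟩
    · rintro ⟨y, rfl⟩
      exact ⟨y, by simp⟩
  rw [h3]
  rfl

theorem H2a_rank (M : Type) [AddCommGroup M] [Module.Finite ℤ M] (f : M →+ M) :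
    Module.finrank ℤ f.range + Module.finrank ℤ f.ker = Module.finrank ℤ M := by
  have h1 := Submodule.finrank_quotient_add_finrank (R := ℤ) (LinearMap.ker f.toIntLinearMap)
  have h2 := f.toIntLinearMap.quotKerEquivRange.finrank_eq
  rw [h2] at h1
  have e1 : f.range ≃ₗ[ℤ] LinearMap.range f.toIntLinearMap :=
    { toFun := fun x => ⟨x.1, x.2⟩
      invFun := fun x => ⟨x.1, x.2⟩
      left_inv := fun x => rfl
      right_inv := fun x => rfl
      map_add' := fun x y => rfl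
      map_smul' := fun c x => rfl }
  have e2 : f.ker ≃ₗ[ℤ] LinearMap.ker f.toIntLinearMap :=
    { toFun := fun x => ⟨x.1, x.2⟩
      invFun := fun x => ⟨x.1, x.2⟩
      left_inv := fun x => rfl
      right_inv := fun x => rfl
      map_add' := fun x y => rfl
      map_smul' := fun c x => rfl }
  rw [e1.finrank_eq, e2.finrank_eq]
  exact h1

theorem H2a_card (A : Type) [AddCommGroup A] [Module.Finite ℤ A] (n : ℕ) (hn : 0 < n) :
    (nsmulAddMonoidHom (α := A) n).range.index =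
      n ^ Module.finrank ℤ A * Nat.card (nsmulAddMonoidHom (α := A) n).ker ∧
    Nat.card (nsmulAddMonoidHom (α := A) n).ker ≠ 0 := by
  have hn0 : (n : ℤ) ≠ 0 := by exact_mod_cast hn.ne'
  obtain ⟨T, hT⟩ : ∃ T : Submodule ℤ A, T = Submodule.torsion ℤ A := ⟨_, rfl⟩
  have hTf : Finite T := by
    rw [hT]
    have : Module.Finite ℤ (Submodule.torsion ℤ A) := inferInstance
    exact Module.finite_of_fg_torsion _ (Submodule.torsion_isTorsion)
  have hFf : Module.IsTorsionFree ℤ (A ⧸ T) := by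
    rw [hT]
    infer_instance
  have hFree : Module.Free ℤ (A ⧸ T) := inferInstance
  have hrk : Module.finrank ℤ (A ⧸ T) = Module.finrank ℤ A := finrank_quotient_eq_of_le_torsion (le_of_eq hT)
  have hmem : ∀ x : A, n • x ∈ T → x ∈ T := by
    intro x hx
    rw [hT] at hx ⊢
    obtain ⟨a, ha⟩ := hx
    refine ⟨⟨(a : ℤ) * n, ?_⟩, ?_⟩
    · exact mem_nonZeroDivisors_of_ne_zero (mul_ne_zero (nonZeroDivisors.ne_zero a.2) hn0)
    · have ha' : (a : ℤ) • (n • x) = 0 := ha
      change ((a : ℤ) * n) • x = 0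
      rw [mul_smul, natCast_zsmul]
      exact ha'
  obtain ⟨π, hπ⟩ : ∃ π : A →+ A ⧸ T, π = T.mkQ.toAddMonoidHom := ⟨_, rfl⟩
  have hker : π.ker = T.toAddSubgroup := by
    ext x
    rw [AddMonoidHom.mem_ker, hπ]
    exact Submodule.Quotient.mk_eq_zero T
  have hsurj : Function.Surjective π := by
    rw [hπ]
    exact Submodule.mkQ_surjective T
  have h1 := AddSubgroup.relIndex_mul_index
    (le_sup_left : (nsmulAddMonoidHom (α := A) n).range ≤ (nsmulAddMonoidHom (α := A) n).range ⊔ π.ker)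
  rw [AddSubgroup.relIndex_sup_left] at h1
  have h2 := AddSubgroup.index_map (nsmulAddMonoidHom (α := A) n).range π
  rw [π.range_eq_top_of_surjective hsurj, AddSubgroup.index_top, mul_one] at h2
  have h3 : (nsmulAddMonoidHom (α := A) n).range.map π = (nsmulAddMonoidHom (α := A ⧸ T) n).range := by
    ext x
    constructor
    · rintro ⟨_, ⟨y, rfl⟩, rfl⟩
      exact ⟨π y, by simp⟩
    · rintro ⟨y, rfl⟩
      obtain ⟨z, rfl⟩ := hsurj y
      exact ⟨n • z, ⟨z, rfl⟩, by simp⟩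
  rw [h3, H2a_free (A ⧸ T) n hn, hrk] at h2
  rw [← h2] at h1
  have h4 : (nsmulAddMonoidHom (α := A) n).range.relIndex π.ker = Nat.card (nsmulAddMonoidHom (α := A) n).ker := by
    rw [hker]
    have h5 : (nsmulAddMonoidHom (α := A) n).range.relIndex T.toAddSubgroup =
        (nsmulAddMonoidHom (α := T) n).range.index := by
      unfold AddSubgroup.relIndex
      congr 1
      ext x
      constructor
      · rintro ⟨y, hy⟩
        have hyT : y ∈ T := by
          apply hmem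
          have : n • y = (x : A) := hy
          rw [this]
          exact x.2
        exact ⟨⟨y, hyT⟩, Subtype.ext hy⟩
      · rintro ⟨y, rfl⟩
        exact ⟨y.1, rfl⟩
    rw [h5, AddSubgroup.index_range]
    apply Nat.card_congr
    refine ⟨fun x => ⟨x.1.1, ?_⟩, fun x => ⟨⟨x.1, ?_⟩, ?_⟩, fun x => rfl, fun x => rfl⟩
    · exact congrArg Subtype.val x.2
    · apply hmem
      have : n • x.1 = 0 := x.2
      rw [this]
      exact T.zero_mem
    · exact Subtype.ext x.2
  rw [h4] at h1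
  refine ⟨by rw [← h1, mul_comm], ?_⟩
  rw [← h4, hker]
  have : Finite T.toAddSubgroup := hTf
  unfold AddSubgroup.relIndex
  exact AddSubgroup.index_ne_zero_of_finite

theorem herbrand (M : Type) [AddCommGroup M] [Module.Finite ℤ M] (ℓ : ℕ) (hℓ : ℓ.Prime)
    (h3 : 3 ≤ ℓ) (g N : M →+ M) (hN : ∀ z : M, N z = ∑ i ∈ Finset.range ℓ, (g^[i]) z)
    (hg : ∀ z : M, (g^[ℓ]) z = z)
    (hr : Module.finrank ℤ M + 1 = ℓ * (Module.finrank ℤ (g - AddMonoidHom.id M).ker + 1)) :
    (g - AddMonoidHom.id M).range.relIndex N.ker =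
      ℓ * N.range.relIndex (g - AddMonoidHom.id M).ker ∧
    N.range.relIndex (g - AddMonoidHom.id M).ker ≠ 0 := by
  obtain ⟨δ, hδ⟩ : ∃ δ : M →+ M, δ = g - AddMonoidHom.id M := ⟨_, rfl⟩
  rw [← hδ] at hr ⊢
  have hδa : ∀ z, δ z = g z - z := fun z => by rw [hδ]; rfl
  have hgN : ∀ z, g (N z) = N z := by
    intro z
    have e1 : g (N z) = ∑ i ∈ Finset.range ℓ, (g^[i + 1]) z := by
      rw [hN, map_sum]
      refine Finset.sum_congr rfl fun i _ => ?_
      rw [Function.iterate_succ_apply']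
    have e2 := Finset.sum_range_succ' (fun i => (g^[i]) z) ℓ
    rw [Finset.sum_range_succ, hg, Function.iterate_zero, id_eq] at e2
    rw [e1, hN]
    exact (add_right_cancel e2).symm
  have hNg : ∀ z, N (g z) = N z := by
    intro z
    rw [← hgN z, hN, hN, map_sum]
    refine Finset.sum_congr rfl fun i _ => ?_
    rw [← Function.iterate_succ_apply, Function.iterate_succ_apply']
  have hIG : N.range ≤ δ.ker := by
    rintro _ ⟨z, rfl⟩
    rw [AddMonoidHom.mem_ker, hδa, hgN, sub_self]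
  have hDZ : δ.range ≤ N.ker := by
    rintro _ ⟨z, rfl⟩
    rw [AddMonoidHom.mem_ker, hδa, map_sub, hNg, sub_self]
  have hfix : ∀ z ∈ δ.ker, N z = ℓ • z := by
    intro z hz
    rw [AddMonoidHom.mem_ker, hδa, sub_eq_zero] at hz
    have e1 : ∀ i, (g^[i]) z = z := fun i => Function.iterate_fixed hz i
    rw [hN, Finset.sum_congr rfl (fun i _ => e1 i), Finset.sum_const, Finset.card_range]
  -- the common index
  have h4 := AddSubgroup.relIndex_map_map δ N.ker ⊤
  rw [top_sup_eq, AddSubgroup.relIndex_top_right, ← AddMonoidHom.range_eq_map] at h4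
  have h5 := AddSubgroup.relIndex_map_map N δ.ker ⊤
  rw [top_sup_eq, AddSubgroup.relIndex_top_right, ← AddMonoidHom.range_eq_map, sup_comm] at h5
  have h6 := AddSubgroup.relIndex_mul_relIndex (N.ker.map δ) δ.range N.ker (AddSubgroup.map_le_range δ N.ker) hDZ
  have h7 := AddSubgroup.relIndex_mul_relIndex (δ.ker.map N) N.range δ.ker (AddSubgroup.map_le_range N δ.ker) hIG
  -- the quotient of the fixed part
  have hfgG : Module.Finite ℤ δ.ker := H2a_fg M _
  have hfgZ : Module.Finite ℤ N.ker := H2a_fg M _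
  have hfgR : Module.Finite ℤ N.range := H2a_fg M _
  have h8 := H2a_card δ.ker ℓ hℓ.pos
  have h9 : (δ.ker.map N).relIndex δ.ker = (nsmulAddMonoidHom (α := δ.ker) ℓ).range.index := by
    unfold AddSubgroup.relIndex
    congr 1
    ext x
    constructor
    · rintro ⟨y, hy, hyx⟩
      refine ⟨⟨y, hy⟩, Subtype.ext ?_⟩
      rw [hfix y hy] at hyx
      exact hyx
    · rintro ⟨y, rfl⟩
      exact ⟨y.1, y.2, hfix y.1 y.2⟩
  -- the restriction of g to the kernel of N
  have hgZ : ∀ z : N.ker, g z.1 ∈ N.ker := by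
    intro z
    rw [AddMonoidHom.mem_ker, hNg]
    exact z.2
  obtain ⟨γ, hγ⟩ : ∃ γ : N.ker →+ N.ker, ∀ z, (γ z : M) = g z.1 :=
    ⟨(g.comp N.ker.subtype).codRestrict N.ker hgZ, fun z => rfl⟩
  have hγi : ∀ (i : ℕ) (z : N.ker), (((γ^[i]) z : N.ker) : M) = (g^[i]) z.1 := by
    intro i
    induction i with
    | zero => intro z; rfl
    | succ i ih =>
      intro z
      rw [Function.iterate_succ_apply, Function.iterate_succ_apply, ih, hγ]
  obtain ⟨k, hk1, hk2, _, hk4⟩ := index_delta N.ker ℓ hℓ h3 γ (by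
    intro z
    apply Subtype.ext
    have e1 : ((∑ i ∈ Finset.range ℓ, (γ^[i]) z : N.ker) : M) = ∑ i ∈ Finset.range ℓ, (((γ^[i]) z : N.ker) : M) :=
      AddSubgroup.val_finsetSum _ _ _
    rw [e1, Finset.sum_congr rfl (fun i _ => hγi i z), ← hN]
    exact z.2)
  have h10 : (N.ker.map δ).relIndex N.ker = Nat.card (N.ker ⧸ (γ - AddMonoidHom.id N.ker).range) := by
    unfold AddSubgroup.relIndex
    rw [← AddSubgroup.index]
    congr 1
    ext x
    constructor
    · rintro ⟨y, hy, hyx⟩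
      refine ⟨⟨y, hy⟩, Subtype.ext ?_⟩
      change ((γ ⟨y, hy⟩ : N.ker) : M) - y = x
      rw [hγ, ← hδa]
      exact hyx
    · rintro ⟨y, rfl⟩
      refine ⟨y.1, y.2, ?_⟩
      change δ y.1 = ((γ y : N.ker) : M) - y.1
      rw [hγ, ← hδa]
  have h11 : Nat.card (γ - AddMonoidHom.id N.ker).ker = Nat.card (nsmulAddMonoidHom (α := δ.ker) ℓ).ker := by
    apply Nat.card_congr
    have hkey : ∀ y : N.ker, (γ - AddMonoidHom.id N.ker) y = 0 ↔ y.1 ∈ δ.ker := by
      intro y
      rw [AddMonoidHom.mem_ker, hδa, ← hγ]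
      constructor
      · intro h
        exact congrArg Subtype.val h
      · intro h
        exact Subtype.ext h
    refine ⟨fun x => ⟨⟨x.1.1, (hkey x.1).1 x.2⟩, ?_⟩, fun x => ⟨⟨x.1.1, ?_⟩, ?_⟩, fun x => rfl, fun x => rfl⟩
    · apply Subtype.ext
      change ℓ • x.1.1 = 0
      rw [← hfix _ ((hkey x.1).1 x.2)]
      exact x.1.2
    · rw [AddMonoidHom.mem_ker, hfix _ x.1.2]
      exact congrArg Subtype.val x.2
    · exact (hkey _).2 x.1.2
  -- ranks
  have h12 := H2a_rank M N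
  have h13 : Module.finrank ℤ N.range = Module.finrank ℤ δ.ker := by
    have e1 := H2a_rank δ.ker (nsmulAddMonoidHom (α := δ.ker) ℓ)
    have e2 : Module.finrank ℤ (nsmulAddMonoidHom (α := δ.ker) ℓ).ker = 0 := by
      have : Finite (nsmulAddMonoidHom (α := δ.ker) ℓ).ker := Nat.finite_of_card_ne_zero h8.2
      apply Module.IsTorsion.finrank_eq_zero
      intro x
      have hpos : 0 < addOrderOf x := addOrderOf_pos x
      refine ⟨⟨(addOrderOf x : ℤ), mem_nonZeroDivisors_of_ne_zero (by exact_mod_cast hpos.ne')⟩, ?_⟩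
      change (addOrderOf x : ℤ) • x = 0
      rw [natCast_zsmul]
      exact addOrderOf_nsmul_eq_zero x
    rw [e2, add_zero] at e1
    apply le_antisymm
    · exact LinearMap.finrank_le_finrank_of_injective (R := ℤ) (M := N.range) (M' := δ.ker)
        (f := (AddSubgroup.inclusion hIG).toIntLinearMap) (AddSubgroup.inclusion_injective hIG)
    · rw [← e1]
      have hl : ∀ x : (nsmulAddMonoidHom (α := δ.ker) ℓ).range, ((x : δ.ker) : M) ∈ N.range := by
        rintro ⟨_, ⟨y, rfl⟩⟩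
        exact ⟨y.1, hfix y.1 y.2⟩
      obtain ⟨φ, hφ⟩ : ∃ φ : (nsmulAddMonoidHom (α := δ.ker) ℓ).range →+ N.range, ∀ x, (φ x : M) = ((x : δ.ker) : M) :=
        ⟨((δ.ker.subtype).comp (nsmulAddMonoidHom (α := δ.ker) ℓ).range.subtype).codRestrict N.range hl, fun x => rfl⟩
      refine LinearMap.finrank_le_finrank_of_injective (R := ℤ) (f := φ.toIntLinearMap) ?_
      intro x y hxy
      apply Subtype.ext
      apply Subtype.ext
      have e3 : (φ x : M) = (φ y : M) := congrArg Subtype.val hxy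
      rw [hφ, hφ] at e3
      exact e3
  rw [h13, hk1] at h12
  obtain ⟨r, hr'⟩ : ∃ r, r = Module.finrank ℤ δ.ker := ⟨_, rfl⟩
  rw [← hr'] at h12 hr h8
  have hkr : k = r + 1 := by
    obtain ⟨m, rfl⟩ : ∃ m, ℓ = m + 1 := ⟨ℓ - 1, by omega⟩
    rw [Nat.add_sub_cancel] at h12
    have hm : 0 < m := by omega
    have e1 : m * k = m * (r + 1) := by
      have e2 : r + m * k + 1 = (m + 1) * (r + 1) := by rw [h12]; exact hr
      have e3 : (m + 1) * (r + 1) = m * (r + 1) + (r + 1) := by ring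
      omega
    exact Nat.eq_of_mul_eq_mul_left hm e1
  rw [h10, hk2, h11, h4] at h6
  rw [h9, h8.1, h5] at h7
  obtain ⟨a, ha⟩ : ∃ a, a = (N.ker ⊔ δ.ker).index := ⟨_, rfl⟩
  obtain ⟨t, ht⟩ : ∃ t, t = Nat.card (nsmulAddMonoidHom (α := δ.ker) ℓ).ker := ⟨_, rfl⟩
  rw [← ha, ← ht] at h6 h7
  have ht0 : t ≠ 0 := by rw [ht]; exact h8.2
  have hp : ℓ ^ r * t ≠ 0 := mul_ne_zero (pow_ne_zero _ hℓ.ne_zero) ht0
  have hb0 : N.range.relIndex δ.ker ≠ 0 := by
    intro h0
    rw [h0, mul_zero] at h7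
    exact hp h7.symm
  have ha0 : a ≠ 0 := by
    intro h0
    rw [h0, zero_mul] at h7
    exact hp h7.symm
  refine ⟨?_, hb0⟩
  apply Nat.eq_of_mul_eq_mul_left (Nat.pos_of_ne_zero ha0)
  rw [h6, hkr]
  calc ℓ ^ (r + 1) * t = ℓ * (ℓ ^ r * t) := by ring
    _ = ℓ * (a * N.range.relIndex δ.ker) := by rw [h7]
    _ = a * (ℓ * N.range.relIndex δ.ker) := by ring

end H2T4
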