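import Pool.Agent.H2.T4.HDf
import Pool.Agent.H2.T4.H2a

/-!
Row H3 (about 190 lines): the Herbrand quotient of the units. Use only the STATEMENT of H2a.

PROOF. Apply `herbrand` to M := Additive (𝓞 M)ˣ (Module.Finite ℤ: Mathlib has `Module.Finite ℤ (Additive (𝓞 K)ˣ)` / Monoid.FG (𝓞 K)ˣ), g := su σ additively, N := the product of the conjugates, N z = ∑_{i<ℓ} g^i z.
 σ^ℓ = 1 (order of the group is ℓ). For a unit u of M: norm_{M/F} u = ∏_{τ} τ u = ∏_{i<ℓ} σ^i u (Algebra.norm_eq_prod_automorphisms; G = {σ^i : i < ℓ}), so N u is the image of nu u under (𝓞 F)ˣ → (𝓞 M)ˣ (injective).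
 ker (g - 1) = units fixed by σ = image of (𝓞 F)ˣ (an element of M fixed by G lies in F; a unit of 𝓞 M in F is a unit of 𝓞 F: IsGalois fixed field, integrality).
 So N.range.relIndex ker(g-1) = (nu F M).range.index (transport along the injection (𝓞 F)ˣ → (𝓞 M)ˣ with image ker (g - 1)), N.ker ↔ (nu F M).ker, range (g - 1) ↔ (du σ).range (relIndex transported between multiplicative and additive: Subgroup.toAddSubgroup, or equality of cardinalities).
 Ranks: finrank ℤ (Additive (𝓞 K)ˣ) = Units.rank K = #InfinitePlace K - 1 (NumberField.Units.finrank_modTorsion and the torsion subgroup is finite: rank of M = rank of M/torsion). F totally complex: 2 #places = finrank ℚ F (card_add_two_mul_card_eq_rank), M is totally complex too (a real place of M restricts to a real place of F), finrank ℚ M = ℓ finrank ℚ F. So with r + 1 = finrank ℚ F/2: finrank = ℓ (r + 1) - 1.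
-/

set_option autoImplicit false
open scoped Classical nonZeroDivisors

open IsDedekindDomain NumberField

namespace H2T4

section

variable {F M : Type} [Field F] [NumberField F] [Field M] [NumberField M] [Algebra F M]

private theorem H3_su (σ : M ≃ₐ[F] M) (u : (𝓞 M)ˣ) :
    (((su σ u : (𝓞 M)ˣ) : 𝓞 M) : M) = σ ((u : 𝓞 M) : M) := rfl

private theorem H3_iter (σ : M ≃ₐ[F] M) (u : (𝓞 M)ˣ) (i : ℕ) :
    ((((su σ)^[i] u : (𝓞 M)ˣ) : 𝓞 M) : M) = (σ ^ i) ((u : 𝓞 M) : M) := by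
  induction i with
  | zero => rfl
  | succ n ih => rw [Function.iterate_succ_apply', H3_su, ih, pow_succ', AlgEquiv.mul_apply]

private theorem H3_ext {K : Type} [Field K] {u v : (𝓞 K)ˣ} (h : ((u : 𝓞 K) : K) = ((v : 𝓞 K) : K)) : u = v :=
  Units.ext (RingOfIntegers.ext h)

variable (F M)

private noncomputable def H3_i : (𝓞 F)ˣ →* (𝓞 M)ˣ := Units.map (algebraMap (𝓞 F) (𝓞 M) : 𝓞 F →* 𝓞 M)

variable {F M}

private theorem H3_i_coe (v : (𝓞 F)ˣ) :
    (((H3_i F M v : (𝓞 M)ˣ) : 𝓞 M) : M) = algebraMap F M ((v : 𝓞 F) : F) := rfl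

private theorem H3_i_inj : Function.Injective (H3_i F M) := by
  intro u v h
  apply H3_ext
  apply (algebraMap F M).injective
  rw [← H3_i_coe, ← H3_i_coe, h]

private theorem H3_fix [IsGalois F M] {σ : M ≃ₐ[F] M} (hσ : ∀ τ : M ≃ₐ[F] M, τ ∈ Subgroup.zpowers σ)
    {x : M} (hx : σ x = x) (hi : IsIntegral ℤ x) : ∃ c : 𝓞 F, algebraMap F M (c : F) = x := by
  have h1 : ∀ τ : M ≃ₐ[F] M, τ x = x := by
    intro τ
    have h2 : Subgroup.zpowers σ ≤ MulAction.stabilizer (M ≃ₐ[F] M) x := by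
      rw [Subgroup.zpowers_le, MulAction.mem_stabilizer_iff]
      exact hx
    exact MulAction.mem_stabilizer_iff.1 (h2 (hσ τ))
  obtain ⟨c, hc⟩ := (IsGalois.mem_range_algebraMap_iff_fixed x).2 h1
  rw [← hc] at hi
  have h3 : IsIntegral ℤ c := (isIntegral_algebraMap_iff (algebraMap F M).injective).1 hi
  exact ⟨⟨c, h3⟩, hc⟩

private theorem H3_range [IsGalois F M] {σ : M ≃ₐ[F] M} (hσ : ∀ τ : M ≃ₐ[F] M, τ ∈ Subgroup.zpowers σ)
    (u : (𝓞 M)ˣ) : su σ u = u ↔ u ∈ (H3_i F M).range := by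
  constructor
  · intro h
    have h1 : σ ((u : 𝓞 M) : M) = ((u : 𝓞 M) : M) := by rw [← H3_su, h]
    have h2 : σ (((u⁻¹ : (𝓞 M)ˣ) : 𝓞 M) : M) = (((u⁻¹ : (𝓞 M)ˣ) : 𝓞 M) : M) := by
      rw [← H3_su, map_inv, h]
    obtain ⟨c, hc⟩ := H3_fix hσ h1 (RingOfIntegers.isIntegral_coe _)
    obtain ⟨d, hd⟩ := H3_fix hσ h2 (RingOfIntegers.isIntegral_coe _)
    have h3 : c * d = 1 := by
      apply RingOfIntegers.ext
      apply (algebraMap F M).injective
      change algebraMap F M ((c : F) * (d : F)) = algebraMap F M 1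
      rw [map_mul, map_one, hc, hd]
      exact congrArg (fun z : 𝓞 M => (z : M)) (Units.mul_inv u)
    refine ⟨⟨c, d, h3, by rw [mul_comm]; exact h3⟩, ?_⟩
    apply H3_ext
    rw [H3_i_coe]
    exact hc
  · rintro ⟨v, rfl⟩
    apply H3_ext
    rw [H3_su, H3_i_coe, AlgEquiv.commutes]

private theorem H3_prod [IsGalois F M] {ℓ : ℕ} {σ : M ≃ₐ[F] M} (hσ : ∀ τ : M ≃ₐ[F] M, τ ∈ Subgroup.zpowers σ)
    (ho : orderOf σ = ℓ) (u : (𝓞 M)ˣ) : H3_i F M (nu F M u) = ∏ i ∈ Finset.range ℓ, (su σ)^[i] u := by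
  apply H3_ext
  have h0 : ∀ a : ℕ → 𝓞 M, ((∏ i ∈ Finset.range ℓ, a i : 𝓞 M) : M) = ∏ i ∈ Finset.range ℓ, ((a i : 𝓞 M) : M) :=
    fun a => map_prod (algebraMap (𝓞 M) M) _ _
  rw [Units.coe_prod, h0]
  have h1 : (((H3_i F M (nu F M u) : (𝓞 M)ˣ) : 𝓞 M) : M) = algebraMap F M (Algebra.norm F ((u : 𝓞 M) : M)) := rfl
  rw [h1, Algebra.norm_eq_prod_automorphisms, ← IsCyclic.image_range_orderOf hσ, Finset.prod_image, ho]
  · apply Finset.prod_congr rfl
    intro i _
    exact (H3_iter σ u i).symm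
  · intro i hi j hj h
    exact pow_injOn_Iio_orderOf (Finset.mem_range.1 hi) (Finset.mem_range.1 hj) h

private theorem H3_card (K : Type) [Field K] [NumberField K] (h : IsTotallyComplex K) :
    Module.finrank ℚ K = 2 * (Units.rank K + 1) := by
  rw [IsTotallyComplex.finrank]
  have h1 := InfinitePlace.card_eq_nrRealPlaces_add_nrComplexPlaces K
  have h2 : 0 < Fintype.card (InfinitePlace K) := Fintype.card_pos
  rw [IsTotallyComplex.nrRealPlaces_eq_zero, zero_add] at h1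
  unfold Units.rank
  omega

end

theorem units_herbrand (F M : Type) [Field F] [NumberField F] [Field M] [NumberField M] [Algebra F M]
    [IsGalois F M] (ℓ : ℕ) (hℓ : ℓ.Prime) (h3 : 3 ≤ ℓ) (hdeg : Module.finrank F M = ℓ)
    (hF : ∀ w : InfinitePlace F, w.IsComplex) (σ : M ≃ₐ[F] M)
    (hσ : ∀ τ : M ≃ₐ[F] M, τ ∈ Subgroup.zpowers σ) :
    (du σ).range.relIndex (nu F M).ker = ℓ * (nu F M).range.index ∧ (nu F M).range.index ≠ 0 := by
  have ho : orderOf σ = ℓ := by
    rw [orderOf_eq_card_of_forall_mem_zpowers hσ, IsGalois.card_aut_eq_finrank, hdeg]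
  let g : Additive (𝓞 M)ˣ →+ Additive (𝓞 M)ˣ := MonoidHom.toAdditive (su σ)
  let N : Additive (𝓞 M)ˣ →+ Additive (𝓞 M)ˣ := MonoidHom.toAdditive ((H3_i F M).comp (nu F M))
  let j : Additive (𝓞 F)ˣ →+ Additive (𝓞 M)ˣ := MonoidHom.toAdditive (H3_i F M)
  have hjinj : Function.Injective j := fun a b h => H3_i_inj h
  have hiter : ∀ (i : ℕ) (z : Additive (𝓞 M)ˣ), g^[i] z = Additive.ofMul ((su σ)^[i] z.toMul) := by
    intro i z
    rfl
  have hN : ∀ z : Additive (𝓞 M)ˣ, N z = ∑ i ∈ Finset.range ℓ, g^[i] z := by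
    intro z
    have h1 : N z = Additive.ofMul (H3_i F M (nu F M z.toMul)) := rfl
    rw [h1, H3_prod hσ ho, ofMul_prod]
    rfl
  have hg : ∀ z : Additive (𝓞 M)ˣ, g^[ℓ] z = z := by
    intro z
    rw [hiter]
    have h1 : (su σ)^[ℓ] z.toMul = z.toMul := by
      apply H3_ext
      rw [H3_iter, ← ho, pow_orderOf_eq_one, AlgEquiv.one_apply]
    rw [h1, ofMul_toMul]
  have hker : (g - AddMonoidHom.id (Additive (𝓞 M)ˣ)).ker = j.range := by
    ext z
    rw [AddMonoidHom.mem_ker, AddMonoidHom.sub_apply, AddMonoidHom.id_apply, sub_eq_zero]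
    exact H3_range hσ z.toMul
  have hr1 : Module.finrank ℤ (g - AddMonoidHom.id (Additive (𝓞 M)ˣ)).ker = Units.rank F := by
    rw [hker, ← Units.finrank_eq]
    exact (LinearEquiv.finrank_eq (AddMonoidHom.ofInjective hjinj).toIntLinearEquiv).symm
  have hcF : IsTotallyComplex F := ⟨hF⟩
  have hcM : IsTotallyComplex M := isTotallyComplex_of_algebra F M
  have hr : Module.finrank ℤ (Additive (𝓞 M)ˣ) + 1 =
      ℓ * (Module.finrank ℤ (g - AddMonoidHom.id (Additive (𝓞 M)ˣ)).ker + 1) := by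
    rw [hr1, Units.finrank_eq]
    have h1 := H3_card F hcF
    have h2 := H3_card M hcM
    have h4 := Module.finrank_mul_finrank ℚ F M
    rw [h1, h2, hdeg] at h4
    nlinarith
  obtain ⟨e1, e2⟩ := herbrand (Additive (𝓞 M)ˣ) ℓ hℓ h3 g N hN hg hr
  have e3 : N.range.relIndex (g - AddMonoidHom.id (Additive (𝓞 M)ˣ)).ker = (nu F M).range.index := by
    rw [hker]
    have h1 : N.range.relIndex j.range = ((H3_i F M).comp (nu F M)).range.relIndex (H3_i F M).range := rfl
    rw [h1, MonoidHom.range_comp, MonoidHom.range_eq_map (H3_i F M), Subgroup.relIndex_map_map_of_injective _ _ H3_i_inj,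
      Subgroup.relIndex_top_right]
  have e4 : (g - AddMonoidHom.id (Additive (𝓞 M)ˣ)).range.relIndex N.ker =
      (du σ).range.relIndex (nu F M).ker := by
    have h1 : (g - AddMonoidHom.id (Additive (𝓞 M)ˣ)).range.relIndex N.ker =
      (du σ).range.relIndex ((H3_i F M).comp (nu F M)).ker := rfl
    have h2 : ((H3_i F M).comp (nu F M)).ker = (nu F M).ker := by
      ext u
      rw [MonoidHom.mem_ker, MonoidHom.mem_ker, MonoidHom.comp_apply]
      constructor
      · intro h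
        apply H3_i_inj (F := F) (M := M)
        rw [h, map_one]
      · intro h
        rw [h, map_one]
    rw [h1, h2]
  rw [e3, e4] at e1
  rw [e3] at e2
  exact ⟨e1, e2⟩

end H2T4
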