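import Pool.Agent.H68.TM.Both
import Pool.Agent.H55.T3.Y4

/-!
MP_78d38b_T4: from `H68TM.stable_tower_both` to the form of the hand-in (helper2; no row).
-/

set_option autoImplicit false
open scoped Classical

namespace H2T4

open NumberField IsDedekindDomain WeierstrassCurve Pool.Agent.H10 Pool.Agent.H11

/-- an automorphism of `k(ζ_f)` over a totally real field `k` which inverts the roots of unity is the
complex conjugation -/
theorem isCC_of_inv {k N : Type} [Field k] [NumberField k] [Field N] [NumberField N] [Algebra k N]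
    (hk : IsTotallyReal k) {f : ℕ} (hf : f ≠ 0) [IsCyclotomicExtension {f} k N] (J : N ≃ₐ[k] N)
    (hJ : ∀ z : N, z ^ f = 1 → J z = z⁻¹) : H68TL.IsCC (J : N ≃+* N) := by
  intro φ x
  have _i : NeZero f := ⟨hf⟩
  obtain ⟨ζ, hζ⟩ := IsCyclotomicExtension.exists_isPrimitiveRoot k N (Set.mem_singleton f) hf
  have htop : Algebra.adjoin k {ζ} = ⊤ := IsCyclotomicExtension.adjoin_primitive_root_eq_top hζ
  have hx : x ∈ Algebra.adjoin k {ζ} := by
    rw [htop]
    exact Algebra.mem_top
  refine Algebra.adjoin_induction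
    (p := fun y _ => φ (J y) = starRingEnd ℂ (φ y)) ?_ ?_ ?_ ?_ hx
  · rintro y rfl
    have h1 : y ^ f = 1 := hζ.pow_eq_one
    rw [hJ y h1, map_inv₀]
    have h2 : (φ y) ^ f = 1 := by rw [← map_pow, h1, map_one]
    have h3 : ‖φ y‖ = 1 := Complex.norm_eq_one_of_pow_eq_one h2 hf
    rw [Complex.inv_def, Complex.normSq_eq_norm_sq, h3]
    simp
  · intro y
    rw [J.commutes]
    have := InfinitePlace.isReal_mk_iff.1 (hk.isReal (InfinitePlace.mk (φ.comp (algebraMap k N))))
    exact (RingHom.congr_fun this y).symm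
  · intro y z _ _ hy hz
    rw [map_add, map_add, hy, hz, map_add, map_add]
  · intro y z _ _ hy hz
    rw [map_mul, map_mul, hy, hz, map_mul, map_mul]

end H2T4
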