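import Pool.Agent.H11.LocMain
import Pool.Agent.H11.Good
import Pool.Agent.H2.T4.DDf

/-!
Row LA (about 130 lines): if the inertia groups of all large finite Galois extensions act trivially on N, then N is unramified (value groups).

PROOF. unr_local: copy the first and the last part of `loc_main` in Pool/Agent/H11/LocMain.lean (with N for M): S' := range (ι (b i)) ∪ S for a K-basis b of N, F₀ = adjoin F S', L = normal closure, j : N →ₐ[K] L, w from exists_prime A F L, AV, V := AV.comap j; the equivalence for x ∈ K by w_le_iff;
 for α ∈ N, α ≠ 0: `key` is the hypothesis H applied to L, w, τ₀ (here j α = ⟨ι α, _⟩), then exists_val_eq w (j α) and hKF give k with value equal, as in the last lines of loc_main.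
 unr_place: unr_local with F = w.adicCompletion C, A = w.adicCompletionIntegers C; hKF and the translation of the first condition (∃ a, algebraMap A F a = algebraMap K F x ↔ w x ≤ 1) are in the proof of `loc_apply` in Pool/Agent/H11/Good.lean (valued_alg).
-/

set_option autoImplicit false
open scoped Classical

open WeierstrassCurve IsDedekindDomain NumberField Pool.Agent.H11

namespace H2T4

/-- the inertia groups of all large finite Galois extensions of `F` act trivially on `ι(N)` -/
def InTriv {K F A : Type} [Field K] [Field F] [Algebra K F] [CommRing A] [IsDomain A]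
    [IsDiscreteValuationRing A] [Ring.HasFiniteQuotients A] [Algebra A F] [IsFractionRing A F]
    (ι : AlgebraicClosure K →ₐ[K] AlgebraicClosure F) (N : IntermediateField K (AlgebraicClosure K))
    (S : Set (AlgebraicClosure F)) : Prop :=
  ∀ (L : IntermediateField F (AlgebraicClosure F)) [FiniteDimensional F L] [IsGalois F L],
    S ⊆ L → ∀ (hιN : ∀ m : N, ι m ∈ L) [IsDedekindDomain (integralClosure A L)]
    [IsFractionRing (integralClosure A L) L] (w : HeightOneSpectrum (integralClosure A L))
    (τ₀ : Gal(L/F)), τ₀ ∈ w.asIdeal.inertia Gal(L/F) →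
    ∀ m : N, τ₀ ⟨ι m, hιN m⟩ = ⟨ι m, hιN m⟩

theorem unr_local (K F A : Type) [Field K] [Field F] [Algebra K F] [CharZero F] [CommRing A] [IsDomain A]
    [IsDiscreteValuationRing A] [Ring.HasFiniteQuotients A] [Algebra A F] [IsFractionRing A F]
    (hKF : ∀ x : F, x ≠ 0 → ∃ k : K, k ≠ 0 ∧ ∃ u : A, IsUnit u ∧
      x = algebraMap K F k * algebraMap A F u)
    (ι : AlgebraicClosure K →ₐ[K] AlgebraicClosure F)
    (N : IntermediateField K (AlgebraicClosure K)) [FiniteDimensional K N]
    (S : Set (AlgebraicClosure F)) (hS : S.Finite) (H : InTriv (A := A) ι N S) :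
    ∃ V : ValuationSubring N, (∀ x : K, algebraMap K N x ∈ V ↔
        ∃ a : A, algebraMap A F a = algebraMap K F x) ∧
      ∀ α : N, α ≠ 0 → ∃ c : K, c ≠ 0 ∧ α / algebraMap K N c ∈ V ∧ (α / algebraMap K N c)⁻¹ ∈ V := by
  -- the finite Galois extension `L` of `F`
  let b := Module.finBasis K N
  let S' : Set (AlgebraicClosure F) := Set.range (fun i ↦ ι (b i)) ∪ S
  have hSfin : Finite S' := (Set.finite_range _).union hS
  let F₀ : IntermediateField F (AlgebraicClosure F) := IntermediateField.adjoin F S'
  have hF₀ : FiniteDimensional F F₀ :=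
    IntermediateField.finiteDimensional_adjoin fun x _ ↦ Algebra.IsIntegral.isIntegral x
  let L : IntermediateField F (AlgebraicClosure F) :=
    IntermediateField.normalClosure F F₀ (AlgebraicClosure F)
  have hLle : F₀ ≤ L := IntermediateField.le_normalClosure F₀
  have hLfin : FiniteDimensional F L := normalClosure.is_finiteDimensional F F₀ (AlgebraicClosure F)
  have hLn : Normal F L := normalClosure.normal F F₀ (AlgebraicClosure F)
  have hLgal : IsGalois F L := { }
  have hιN : ∀ m : N, ι m ∈ L := by
    intro m
    apply hLle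
    have : (m : AlgebraicClosure K) = ∑ i, (b.repr m i) • (b i : AlgebraicClosure K) := by
      have h := congrArg N.val (b.sum_repr m)
      rw [map_sum] at h
      rw [← IntermediateField.coe_val, ← h]
      rfl
    rw [this, map_sum]
    apply sum_mem
    intro i _
    rw [map_smul, Algebra.smul_def, IsScalarTower.algebraMap_apply K F (AlgebraicClosure F)]
    exact mul_mem (F₀.algebraMap_mem _)
      (IntermediateField.subset_adjoin F S' (Or.inl ⟨i, rfl⟩))
  let j : N →ₐ[K] L :=
    { toFun := fun m ↦ ⟨ι m, hιN m⟩
      map_one' := by ext; simp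
      map_mul' := fun x y ↦ by ext; simp
      map_zero' := by ext; simp
      map_add' := fun x y ↦ by ext; simp
      commutes' := fun x ↦ by
        ext
        exact ι.commutes x }
  -- the local ring
  have tAL : IsScalarTower A F L := IsScalarTower.of_algebraMap_eq fun _ ↦ rfl
  have hD : IsDedekindDomain (integralClosure A L) := ic_dedekind A F L
  have hFr : IsFractionRing (integralClosure A L) L := ic_frac A F L
  obtain ⟨w⟩ := exists_prime A F L
  let AV : ValuationSubring L := (w.valuation L).valuationSubring
  refine ⟨AV.comap (j : N →+* L), fun x ↦ ?_, fun α hα ↦ ?_⟩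
  · rw [← w_le_iff w, ValuationSubring.mem_comap]
    have : (j : N →+* L) (algebraMap K N x) = algebraMap F L (algebraMap K F x) := by
      rw [← IsScalarTower.algebraMap_apply K F L]
      exact j.commutes x
    rw [this]
    exact Iff.rfl
  have key : ∀ τ₀ ∈ w.asIdeal.inertia Gal(L/F), τ₀ (j α) = j α := fun τ₀ hτ₀ ↦
    H L (fun x hx ↦ hLle (IntermediateField.subset_adjoin F S' (Or.inr hx))) hιN w τ₀ hτ₀ α
  obtain ⟨c, hc0, hc⟩ := exists_val_eq w (j α) (by simpa using hα) key
  obtain ⟨k, hk0, u, hu, rfl⟩ := hKF c hc0
  have h10 : w.valuation L (j (α / algebraMap K N k)) = 1 := by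
    rw [map_mul, ← IsScalarTower.algebraMap_apply A F L, ← IsScalarTower.algebraMap_apply K F L,
      map_mul, w_eq_one_of_unit w u hu, mul_one] at hc
    have hne : w.valuation L (algebraMap K L k) ≠ 0 := by
      rw [Valuation.ne_zero_iff]
      exact (map_ne_zero _).mpr hk0
    rw [map_div₀, j.commutes, map_div₀, hc, div_self hne]
  refine ⟨k, hk0, ?_, ?_⟩
  · rw [ValuationSubring.mem_comap]
    exact h10.le
  · rw [ValuationSubring.mem_comap]
    have : w.valuation L (j (α / algebraMap K N k)⁻¹) = 1 := by
      rw [map_inv₀, map_inv₀, h10, inv_one]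
    exact this.le

theorem unr_place {C : Type} [Field C] [NumberField C] (w : HeightOneSpectrum (𝓞 C))
    (ι : AlgebraicClosure C →ₐ[C] AlgebraicClosure (w.adicCompletion C))
    (N : IntermediateField C (AlgebraicClosure C)) [FiniteDimensional C N]
    (S : Set (AlgebraicClosure (w.adicCompletion C))) (hS : S.Finite)
    (H : InTriv (A := w.adicCompletionIntegers C) ι N S) : UnrAt w N := by
  have hch : CharZero (w.adicCompletion C) :=
    charZero_of_injective_algebraMap (algebraMap C (w.adicCompletion C)).injective
  have mem : ∀ x : C, w.valuation C x ≤ 1 →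
      algebraMap C (w.adicCompletion C) x ∈ w.adicCompletionIntegers C := by
    intro x hx
    rw [HeightOneSpectrum.mem_adicCompletionIntegers, valued_alg]
    exact hx
  have hKF : ∀ x : w.adicCompletion C, x ≠ 0 → ∃ k : C, k ≠ 0 ∧
      ∃ u : w.adicCompletionIntegers C, IsUnit u ∧
        x = algebraMap C (w.adicCompletion C) k *
          algebraMap (w.adicCompletionIntegers C) (w.adicCompletion C) u := by
    intro x hx
    obtain ⟨k, hk⟩ := w.valuation_surjective C (Valued.v x)
    have hvx : Valued.v x ≠ 0 := (Valuation.ne_zero_iff _).mpr hx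
    have hk0 : k ≠ 0 := by
      rintro rfl
      rw [map_zero] at hk
      exact hvx hk.symm
    have hk0' : algebraMap C (w.adicCompletion C) k ≠ 0 := (map_ne_zero _).mpr hk0
    have hu : Valued.v (x / algebraMap C (w.adicCompletion C) k) = 1 := by
      rw [map_div₀, valued_alg, hk, div_self hvx]
    refine ⟨k, hk0, ⟨x / algebraMap C (w.adicCompletion C) k, hu.le⟩, ?_, ?_⟩
    · rw [HeightOneSpectrum.adicCompletionIntegers.isUnit_iff_valued_eq_one]
      exact hu
    · show x = algebraMap C (w.adicCompletion C) k * (x / algebraMap C (w.adicCompletion C) k)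
      field_simp
  obtain ⟨V, hV1, hV2⟩ := unr_local C (w.adicCompletion C) (w.adicCompletionIntegers C) hKF ι N S
    hS H
  refine ⟨V, fun x ↦ ?_, hV2⟩
  rw [hV1]
  constructor
  · rintro ⟨a, ha⟩
    rw [← valued_alg, ← ha]
    exact a.2
  · intro hx
    exact ⟨⟨_, mem x hx⟩, rfl⟩

end H2T4
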