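import Pool.Agent.H2.T4.PDf

/-!
Row P1 (about 160 lines, Mathlib): the coordinate ring `k[x, y]`, evaluation, conjugation `y ↦ - y - a₁ x - a₃`, norm.

PROOF. rx = algebraMap k[X] X, and algebraMap k c = algebraMap k[X] (C c) (IsScalarTower.algebraMap_apply k k[X] (RR W); RR W = AdjoinRoot W.polynomial, AdjoinRoot.algebraMap_eq).
 RR_hom_ext: AdjoinRoot.ringHom_ext / Polynomial.ringHom_ext: compare f.comp (AdjoinRoot.mk) on C (C c), C X, Y.
 evR_*, cjR_*: AdjoinRoot.lift_of, AdjoinRoot.lift_root, eval₂_C, eval₂_X.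
 mul_cjR: f = p • 1 + q • ry (Affine.CoordinateRing.exists_smul_basis_eq), cjR f = p + q (- ry - a₁ rx - a₃), and Affine.CoordinateRing.coe_norm_smul_basis (or norm_smul_basis and the equation ry^2 + (a₁ rx + a₃) ry = rx^3 + a₂ rx^2 + a₄ rx + a₆).
 evR_poly: both sides are ring homs on k[X] (or Polynomial.induction). evR_norm: evR of mul_cjR and evR_poly.
 evR_neg: (evR a b).comp cjR and evR a (negY a b) agree on constants, rx, ry (negY x y = - y - a₁ x - a₃): RR_hom_ext.
 cjR_cjR: RR_hom_ext. norm_ne_zero': Algebra.norm_ne_zero_iff_of_basis (Affine.CoordinateRing.basis W) (RR W is a domain).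
 cjR_ideal: Ideal.map_span, Ideal.map_pow; XYIdeal x (C y) = span {XClass x, YClass (C y)}, XClass x = rx - x, YClass (C y) = ry - y; cjR (ry - y) = - (ry - negY x y) - a₁ (rx - x): span equality (Ideal.span_pair_add_left_mul or two inclusions with Ideal.mem_span_pair).
  Here Ideal.map cjR (span {f}) = span {cjR f} because of Ideal.map_span; cjR is bijective (cjR_cjR).
-/

set_option autoImplicit false
open scoped Classical nonZeroDivisors Polynomial.Bivariate

open WeierstrassCurve Polynomial Pool.Agent.H10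

namespace H2T4

variable {k : Type} [Field k] (W : WeierstrassCurve k)

lemma P1_alg (c : k) : algebraMap k (RR W) c = AdjoinRoot.of W.toAffine.polynomial (C c) := rfl

lemma P1_algX (p : k[X]) : algebraMap k[X] (RR W) p = AdjoinRoot.of W.toAffine.polynomial p := rfl

lemma P1_rx : rx W = AdjoinRoot.of W.toAffine.polynomial X := rfl

lemma P1_ry : ry W = AdjoinRoot.root W.toAffine.polynomial := rfl

theorem RR_hom_ext {S : Type} [CommRing S] (f g : RR W →+* S)
    (hc : ∀ c : k, f (algebraMap k (RR W) c) = g (algebraMap k (RR W) c)) (hx : f (rx W) = g (rx W))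
    (hy : f (ry W) = g (ry W)) : f = g := by
  apply AdjoinRoot.ringHom_ext
  · apply Polynomial.ringHom_ext
    · intro c
      exact hc c
    · exact hx
  · exact hy

section

variable {M : Type} [Field M] (φ : k →+* M) (a b : M) (h : (W.map φ).toAffine.Equation a b)

theorem evR_const (c : k) : evR W φ a b h (algebraMap k (RR W) c) = φ c := by
  rw [P1_alg, evR, AdjoinRoot.lift_of]
  simp

theorem evR_rx : evR W φ a b h (rx W) = a := by
  rw [P1_rx, evR, AdjoinRoot.lift_of]
  simp

theorem evR_ry : evR W φ a b h (ry W) = b := by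
  rw [P1_ry, evR, AdjoinRoot.lift_root]

end

theorem cjR_const (c : k) : cjR W (algebraMap k (RR W) c) = algebraMap k (RR W) c := by
  rw [P1_alg, cjR, AdjoinRoot.lift_of]

theorem cjR_rx : cjR W (rx W) = rx W := by
  rw [P1_rx, cjR, AdjoinRoot.lift_of]

lemma P1_lin : AdjoinRoot.of W.toAffine.polynomial (C W.a₁ * X + C W.a₃) =
    algebraMap k (RR W) W.a₁ * rx W + algebraMap k (RR W) W.a₃ := by
  rw [map_add, map_mul]
  rfl

theorem cjR_ry : cjR W (ry W) = -(ry W) - algebraMap k (RR W) W.a₁ * rx W - algebraMap k (RR W) W.a₃ := by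
  have h1 : cjR W (ry W) = -(ry W) - AdjoinRoot.of W.toAffine.polynomial (C W.a₁ * X + C W.a₃) := by
    conv_lhs => rw [P1_ry, cjR, AdjoinRoot.lift_root]
  rw [h1, P1_lin]
  ring

theorem cjR_cjR (f : RR W) : cjR W (cjR W f) = f := by
  have h := RR_hom_ext W ((cjR W).comp (cjR W)) (RingHom.id (RR W))
    (by intro c; simp only [RingHom.comp_apply, cjR_const, RingHom.id_apply])
    (by simp only [RingHom.comp_apply, cjR_rx, RingHom.id_apply])
    (by
      simp only [RingHom.comp_apply, RingHom.id_apply]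
      rw [cjR_ry, map_sub, map_sub, map_neg, map_mul, cjR_ry, cjR_const, cjR_const, cjR_rx]
      ring)
  exact congrArg (fun F : RR W →+* RR W => F f) h

lemma P1_cj_poly (p : k[X]) : cjR W (algebraMap k[X] (RR W) p) = algebraMap k[X] (RR W) p := by
  rw [P1_algX, cjR, AdjoinRoot.lift_of]

/-- every regular function is `p(x) + q(x) y` -/
theorem exists_pq (f : RR W) : ∃ p q : k[X],
    f = algebraMap k[X] (RR W) p + algebraMap k[X] (RR W) q * ry W := by
  obtain ⟨p, q, h⟩ := Affine.CoordinateRing.exists_smul_basis_eq f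
  refine ⟨p, q, ?_⟩
  rw [← h, Algebra.smul_def, Algebra.smul_def, mul_one]
  rfl

lemma P1_curve : (ry W) ^ 2 + (algebraMap k (RR W) W.a₁ * rx W + algebraMap k (RR W) W.a₃) * ry W =
    algebraMap k[X] (RR W) (X ^ 3 + C W.a₂ * X ^ 2 + C W.a₄ * X + C W.a₆) := by
  have h := AdjoinRoot.eval₂_root W.toAffine.polynomial
  rw [eval₂_polynomial', P1_lin] at h
  rw [P1_algX, P1_ry]
  linear_combination h

theorem mul_cjR (f : RR W) : f * cjR W f = algebraMap k[X] (RR W) (Algebra.norm k[X] f) := by
  obtain ⟨p, q, h⟩ := Affine.CoordinateRing.exists_smul_basis_eq f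
  have hn := Affine.CoordinateRing.norm_smul_basis (W' := W.toAffine) p q
  rw [h] at hn
  rw [hn]
  have hf : f = algebraMap k[X] (RR W) p + algebraMap k[X] (RR W) q * ry W := by
    rw [← h, Algebra.smul_def, Algebra.smul_def, mul_one]
    rfl
  rw [hf, map_add, map_mul, P1_cj_poly, P1_cj_poly, cjR_ry]
  have hc := P1_curve W
  have h1 : algebraMap k[X] (RR W) (p ^ 2 - p * q * (C W.toAffine.a₁ * X + C W.toAffine.a₃) -
      q ^ 2 * (X ^ 3 + C W.toAffine.a₂ * X ^ 2 + C W.toAffine.a₄ * X + C W.toAffine.a₆)) =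
      algebraMap k[X] (RR W) p ^ 2 - algebraMap k[X] (RR W) p * algebraMap k[X] (RR W) q *
        (algebraMap k (RR W) W.a₁ * rx W + algebraMap k (RR W) W.a₃) -
      algebraMap k[X] (RR W) q ^ 2 *
        algebraMap k[X] (RR W) (X ^ 3 + C W.a₂ * X ^ 2 + C W.a₄ * X + C W.a₆) := by
    have hlin : algebraMap k[X] (RR W) (C W.toAffine.a₁ * X + C W.toAffine.a₃) =
        algebraMap k (RR W) W.a₁ * rx W + algebraMap k (RR W) W.a₃ := P1_lin W
    rw [map_sub, map_sub, map_mul, map_mul, map_mul, map_pow, map_pow, hlin]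
  rw [h1, ← hc]
  ring

theorem norm_ne_zero' (f : RR W) (hf : f ≠ 0) : Algebra.norm k[X] f ≠ 0 := by
  rw [Ne, Algebra.norm_eq_zero_iff_of_basis (Affine.CoordinateRing.basis W.toAffine)]
  exact hf

section

variable {M : Type} [Field M] (φ : k →+* M) (a b : M) (h : (W.map φ).toAffine.Equation a b)

theorem evR_poly (p : k[X]) : evR W φ a b h (algebraMap k[X] (RR W) p) = p.eval₂ φ a := by
  rw [P1_algX, evR, AdjoinRoot.lift_of]
  rfl

theorem evR_norm (f : RR W) :
    evR W φ a b h f * evR W φ a b h (cjR W f) = (Algebra.norm k[X] f).eval₂ φ a := by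
  rw [← map_mul, mul_cjR, evR_poly]

theorem evR_neg (h' : (W.map φ).toAffine.Equation a ((W.map φ).toAffine.negY a b)) (f : RR W) :
    evR W φ a ((W.map φ).toAffine.negY a b) h' f = evR W φ a b h (cjR W f) := by
  have h1 := RR_hom_ext W (evR W φ a ((W.map φ).toAffine.negY a b) h') ((evR W φ a b h).comp (cjR W))
    (by intro c; rw [RingHom.comp_apply, cjR_const, evR_const, evR_const])
    (by rw [RingHom.comp_apply, cjR_rx, evR_rx, evR_rx])
    (by
      rw [RingHom.comp_apply, cjR_ry, map_sub, map_sub, map_neg, map_mul, evR_ry, evR_ry, evR_const,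
        evR_const, evR_rx]
      simp only [Affine.negY, map_a₁, map_a₃])
  exact congrArg (fun F : RR W →+* M => F f) h1

end

lemma P1_XClass (x : k) : Affine.CoordinateRing.XClass W.toAffine x = rx W - algebraMap k (RR W) x := by
  change Affine.CoordinateRing.mk W.toAffine (C (X - C x)) = _
  rw [C_sub, map_sub]
  rfl

lemma P1_YClass (y : k) : Affine.CoordinateRing.YClass W.toAffine (C y) =
    ry W - algebraMap k (RR W) y := by
  change Affine.CoordinateRing.mk W.toAffine (Y - C (C y)) = _
  rw [map_sub]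
  rfl

theorem cjR_ideal (x y : k) (n : ℕ) (f : RR W)
    (hf : Ideal.span {f} = Affine.CoordinateRing.XYIdeal W.toAffine x (C y) ^ n) :
    Ideal.span {cjR W f} =
      Affine.CoordinateRing.XYIdeal W.toAffine x (C (W.toAffine.negY x y)) ^ n := by
  have h1 : Ideal.span {cjR W f} = Ideal.map (cjR W) (Ideal.span {f}) := by
    rw [Ideal.map_span, Set.image_singleton]
  have h2 : Ideal.map (cjR W) (Affine.CoordinateRing.XYIdeal W.toAffine x (C y)) =
      Affine.CoordinateRing.XYIdeal W.toAffine x (C (W.toAffine.negY x y)) := by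
    rw [Affine.CoordinateRing.XYIdeal, Affine.CoordinateRing.XYIdeal, Ideal.map_span,
      Set.image_pair, P1_XClass, P1_YClass, P1_YClass, map_sub, map_sub, cjR_rx, cjR_ry, cjR_const,
      cjR_const]
    have hn : algebraMap k (RR W) (W.toAffine.negY x y) = -algebraMap k (RR W) y -
        algebraMap k (RR W) W.a₁ * algebraMap k (RR W) x - algebraMap k (RR W) W.a₃ := by
      rw [Affine.negY, map_sub, map_sub, map_neg, map_mul]
    rw [hn]
    apply le_antisymm
    · rw [Ideal.span_le]
      rintro z (rfl | rfl)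
      · exact Ideal.subset_span (Or.inl rfl)
      · change _ ∈ Ideal.span _
        rw [Ideal.mem_span_pair]
        exact ⟨-algebraMap k (RR W) W.a₁, -1, by ring⟩
    · rw [Ideal.span_le]
      rintro z (rfl | rfl)
      · exact Ideal.subset_span (Or.inl rfl)
      · change _ ∈ Ideal.span _
        rw [Ideal.mem_span_pair]
        exact ⟨-algebraMap k (RR W) W.a₁, -1, by ring⟩
  rw [h1, hf, Ideal.map_pow, h2]

end H2T4
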