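import Pool.Agent.H2.T4.P1

/-!
Row P2 (about 180 lines): homomorphisms of the function field and points. Use only the STATEMENTS of P1.

PROOF. mem_range_pm: x = φ x₀; y is a root of y^2 + φ(a₁ x₀ + a₃) y - φ(..) (Affine.equation_iff), a monic quadratic polynomial with coefficients in φ(k), k algebraically closed: it splits over k
  (take y₀ with W(x₀, y₀) = 0, IsAlgClosed.exists_root or exists_point_of_x of H11; the two roots over M are φ y₀ and φ (negY x₀ y₀): Affine.Y_eq_of_X_eq in W.map φ), so the point is pm of (x₀, y₀) or of (x₀, negY x₀ y₀) (pm_some; Affine.map_negY).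
 gen_not_const: if gen = pm (cst W) P, then P = some x₀ y₀ and rx - x₀ = 0 in FF, hence in RR (IsFractionRing.injective): contradiction with Affine.CoordinateRing.XClass_ne_zero.
 atP_ne_zero: Q = some a b h with a ∉ φ.range (Q not in the range: mem_range_pm; Q ≠ 0 since 0 = pm 0). If evR f = 0 then (norm f).eval₂ φ a = 0 (evR_norm), norm f ≠ 0 (norm_ne_zero'); k algebraically closed: norm f = C c * prod (X - C r) (IsAlgClosed.splits), so a = φ r for a root r: contradiction.
 exists_moves: Q = some a b h, e := evR W φ a b h.1 : RR W →+* M is injective by atP_ne_zero; ψ := IsFractionRing.lift. h : coefficients: ψ (cst c) = φ c for all c (IsFractionRing.lift_algebraMap, IsScalarTower.algebraMap_apply k (RR W) (FF W), evR_const), so (W.map cst).map ψ = W.map φ (WeierstrassCurve.map_map, RingHom.ext). pm ψ h gen = some (ψ rx) (ψ ry) = some a b.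
 moves_unique: both agree on algebraMap (RR W) (FF W) f for all f (RR_hom_ext for the compositions; gen = some, Q the same point: Affine.Point.some.injEq), and FF W is the fraction field (IsFractionRing.ringHom_ext or IsLocalization.ringHom_ext).
 moves_atP: ψ ∘ algebraMap and evR W φ a b h agree (RR_hom_ext); Q = some a b h because pm ψ h gen is affine.
 pm_bcP: bcP = pm (cst W) rfl; pm_pm and pm_congr. moves_comp: constants clear; pm (ψ.comp τ) gen = pm ψ (pm τ gen) (pm_pm).
-/

set_option autoImplicit false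
open scoped Classical nonZeroDivisors Polynomial.Bivariate

open WeierstrassCurve Polynomial Pool.Agent.H10

namespace H2T4

variable {k : Type} [Field k] [IsAlgClosed k] (W : WeierstrassCurve k) [W.IsElliptic]

theorem mem_range_pm {M : Type} [Field M] (φ : k →+* M) (x y : M)
    (h : (W.map φ).toAffine.Nonsingular x y) (hx : ∃ x₀, φ x₀ = x) :
    ∃ P : W.toAffine.Point, pm φ rfl P = (.some x y h : (W.map φ).toAffine.Point) := by
  obtain ⟨x₀, rfl⟩ := hx
  obtain ⟨y₀, h₀⟩ := Pool.Agent.H11.exists_point_of_x W x₀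
  have h1 : (W.map φ).toAffine.Nonsingular (φ x₀) (φ y₀) :=
    (Affine.map_nonsingular W φ.injective x₀ y₀).mpr h₀
  rcases Affine.Y_eq_of_X_eq h.1 h1.1 rfl with hy | hy
  · refine ⟨.some x₀ y₀ h₀, ?_⟩
    rw [pm_some, Affine.Point.some.injEq]
    exact ⟨rfl, hy.symm⟩
  · refine ⟨.some x₀ (W.toAffine.negY x₀ y₀) ((Affine.nonsingular_neg x₀ y₀).mpr h₀), ?_⟩
    rw [pm_some, Affine.Point.some.injEq]
    refine ⟨rfl, ?_⟩
    rw [hy, ← Affine.map_negY]

theorem gen_not_const : gen W ∉ Set.range (bcP W) := by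
  rintro ⟨P, hP⟩
  rcases P with _ | ⟨x₀, y₀, h₀⟩
  · exact absurd hP.symm (Affine.Point.some_ne_zero _)
  · have h1 : cst W x₀ = algebraMap (RR W) (FF W) (rx W) := by
      change (Affine.Point.some _ _ _ : (W.map (cst W)).toAffine.Point) =
        Affine.Point.some _ _ _ at hP
      rw [Affine.Point.some.injEq] at hP
      exact hP.1
    have h2 : cst W x₀ = algebraMap (RR W) (FF W) (Affine.CoordinateRing.mk W.toAffine (C (C x₀))) :=
      IsScalarTower.algebraMap_apply k (RR W) (FF W) x₀
    rw [h2] at h1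
    have h3 := IsFractionRing.injective (RR W) (FF W) h1
    apply Affine.CoordinateRing.XClass_ne_zero (W' := W.toAffine) x₀
    rw [Affine.CoordinateRing.XClass, map_sub, map_sub, h3]
    exact sub_self _

theorem atP_ne_zero {M : Type} [Field M] (φ : k →+* M) (Q : (W.map φ).toAffine.Point)
    (hQ : ∀ P : W.toAffine.Point, pm φ rfl P ≠ Q) (f : RR W) (hf : f ≠ 0) : atP W φ f Q ≠ 0 := by
  rcases Q with _ | ⟨a, b, h⟩
  · exact absurd rfl (hQ 0)
  · have ha : ∀ x₀, φ x₀ ≠ a := fun x₀ hx => by
      obtain ⟨P, hP⟩ := mem_range_pm W φ a b h ⟨x₀, hx⟩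
      exact hQ P hP
    intro h0
    change evR W φ a b h.1 f = 0 at h0
    have h1 := evR_norm W φ a b h.1 f
    rw [h0, zero_mul] at h1
    have h3 : Algebra.norm k[X] f ≠ 0 := norm_ne_zero' W f hf
    have h4 : a ∈ ((Algebra.norm k[X] f).map φ).roots := by
      rw [mem_roots (Polynomial.map_ne_zero h3), IsRoot.def, eval_map]
      exact h1.symm
    rw [(IsAlgClosed.splits (Algebra.norm k[X] f)).roots_map, Multiset.mem_map] at h4
    obtain ⟨r, _, hr⟩ := h4
    exact ha r hr

theorem exists_moves {M : Type} [Field M] (φ : k →+* M) (Q : (W.map φ).toAffine.Point)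
    (hQ : ∀ P : W.toAffine.Point, pm φ rfl P ≠ Q) : ∃ ψ : FF W →+* M, Moves W φ ψ Q := by
  rcases Q with _ | ⟨a, b, h⟩
  · exact absurd rfl (hQ 0)
  · have hinj : Function.Injective (evR W φ a b h.1) := by
      rw [injective_iff_map_eq_zero]
      intro f hf
      by_contra hne
      exact atP_ne_zero W φ (.some a b h) hQ f hne hf
    have hψ : ∀ f : RR W, (IsFractionRing.lift (K := FF W) hinj) (algebraMap (RR W) (FF W) f) =
        evR W φ a b h.1 f := fun f => IsFractionRing.lift_algebraMap hinj f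
    have hc : ∀ c, (IsFractionRing.lift (K := FF W) hinj) (cst W c) = φ c := by
      intro c
      have h2 : cst W c = algebraMap (RR W) (FF W) (algebraMap k (RR W) c) :=
        IsScalarTower.algebraMap_apply k (RR W) (FF W) c
      rw [h2, hψ, evR_const]
    have hm : (W.map (cst W)).map (IsFractionRing.lift (K := FF W) hinj) = W.map φ := by
      rw [WeierstrassCurve.map_map]
      congr 1
      exact RingHom.ext hc
    refine ⟨IsFractionRing.lift (K := FF W) hinj, hm, hc, ?_⟩
    rw [gen, pm_some, Affine.Point.some.injEq]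
    exact ⟨by rw [hψ, evR_rx], by rw [hψ, evR_ry]⟩

theorem moves_unique {M : Type} [Field M] {φ : k →+* M} {Q : (W.map φ).toAffine.Point}
    {ψ ψ' : FF W →+* M} (h : Moves W φ ψ Q) (h' : Moves W φ ψ' Q) : ψ = ψ' := by
  obtain ⟨h1, hc, hp⟩ := h
  obtain ⟨h1', hc', hp'⟩ := h'
  rw [← hp', gen, pm_some, pm_some, Affine.Point.some.injEq] at hp
  have h2 : ψ.comp (algebraMap (RR W) (FF W)) = ψ'.comp (algebraMap (RR W) (FF W)) := by
    refine RR_hom_ext W _ _ (fun c => ?_) hp.1 hp.2
    have h3 := (hc c).trans (hc' c).symm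
    have h2 : cst W c = algebraMap (RR W) (FF W) (algebraMap k (RR W) c) :=
      IsScalarTower.algebraMap_apply k (RR W) (FF W) c
    rw [h2] at h3
    exact h3
  exact IsFractionRing.ringHom_ext (A := RR W) fun f => RingHom.congr_fun h2 f

theorem moves_atP {M : Type} [Field M] {φ : k →+* M} {Q : (W.map φ).toAffine.Point}
    {ψ : FF W →+* M} (h : Moves W φ ψ Q) (f : RR W) :
    ψ (algebraMap (RR W) (FF W) f) = atP W φ f Q := by
  obtain ⟨h1, hc, rfl⟩ := h
  have hns : (W.map φ).toAffine.Nonsingular (ψ (algebraMap (RR W) (FF W) (rx W)))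
      (ψ (algebraMap (RR W) (FF W) (ry W))) := by
    rw [← h1]
    exact (Affine.map_nonsingular _ ψ.injective _ _).mpr
      (Affine.equation_iff_nonsingular.mp (gen_equation W))
  have h2 : ψ.comp (algebraMap (RR W) (FF W)) = evR W φ _ _ hns.1 := by
    refine RR_hom_ext W _ _ (fun c => ?_) ?_ ?_
    · rw [evR_const, ← hc c]
      exact congrArg ψ (IsScalarTower.algebraMap_apply k (RR W) (FF W) c).symm
    · rw [evR_rx]
      rfl
    · rw [evR_ry]
      rfl
  exact RingHom.congr_fun h2 f

theorem pm_bcP {M : Type} [Field M] {φ : k →+* M} {ψ : FF W →+* M}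
    (h : (W.map (cst W)).map ψ = W.map φ) (hc : ∀ c, ψ (cst W c) = φ c) (P : W.toAffine.Point) :
    pm ψ h (bcP W P) = pm φ rfl P := by
  rw [bcP, pm_pm]
  exact pm_congr _ _ hc P

theorem moves_comp {M : Type} [Field M] {φ : k →+* M} {τ : FF W →+* FF W} {ψ : FF W →+* M}
    {Q : (W.map (cst W)).toAffine.Point} (hτ : Moves W (cst W) τ Q)
    (h : (W.map (cst W)).map ψ = W.map φ) (hc : ∀ c, ψ (cst W c) = φ c) :
    Moves W φ (ψ.comp τ) (pm ψ h Q) := by
  obtain ⟨hτ1, hτc, rfl⟩ := hτ
  refine ⟨by rw [← WeierstrassCurve.map_map, hτ1, h], fun c => ?_, ?_⟩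
  · rw [RingHom.comp_apply, hτc, hc]
  · exact (pm_pm τ hτ1 ψ h (gen W)).symm

end H2T4
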