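import Pool.Agent.H2.T4.P2

/-!
Row P3 (about 160 lines): translations and multiplications on the function field. Use only the STATEMENTS of P1, P2.

PROOF. exists_tr: gen + bcP T is not in the range of bcP = pm (cst W) rfl (else gen = bcP (P - T), map_sub; gen_not_const), exists_moves.
 tr_comp: moves_comp with Q = gen + bcP S, ψ = τ: pm τ (gen + bcP S) = pm τ gen + pm τ (bcP S) = (gen + bcP T) + bcP S (pm_bcP with φ = cst W; pm is additive) = gen + bcP (T + S).
 tr_zero: RingHom.id moves gen to gen = gen + bcP 0 (pm_id or pm_eq_self) and moves_unique. tr_bijective: take σ with Moves σ (gen + bcP (-T)): τ.comp σ and σ.comp τ are the identity (tr_comp, tr_zero).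
 nsmul_not_const: if n • gen = bcP S, then for every T take τ with Moves τ (gen + bcP T), apply pm τ: n • (gen + bcP T) = bcP S (pm_bcP), so bcP (n • T) = 0, n • T = 0 (pm_injective). For all T: contradiction with Pool.Agent.H11.no_exponent W n.
 exists_mul: exists_moves and nsmul_not_const.
 tr_mul: τ.comp μ moves gen to pm τ (n • gen) = n • (gen + bcP T) = n • gen + bcP (n • T) = n • gen (moves_comp), moves_unique.
-/

set_option autoImplicit false
open scoped Classical nonZeroDivisors Polynomial.Bivariate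

open WeierstrassCurve Polynomial Pool.Agent.H10

namespace H2T4

variable {k : Type} [Field k] [IsAlgClosed k] [CharZero k] (W : WeierstrassCurve k) [W.IsElliptic]

omit [IsAlgClosed k] [CharZero k] [W.IsElliptic] in
theorem P3_pm (P : W.toAffine.Point) : pm (cst W) rfl P = bcP W P := rfl

theorem exists_tr (T : W.toAffine.Point) : ∃ τ, Moves W (cst W) τ (gen W + bcP W T) := by
  refine exists_moves W (cst W) _ fun P hP => gen_not_const W ⟨P - T, ?_⟩
  have hP' : bcP W P = gen W + bcP W T := hP
  rw [map_sub, hP', add_sub_cancel_right]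

omit [CharZero k] in
theorem P3_bc {τ : FF W →+* FF W} (h : (W.map (cst W)).map τ = W.map (cst W))
    (hc : ∀ c, τ (cst W c) = cst W c) (P : W.toAffine.Point) : pm τ h (bcP W P) = bcP W P :=
  pm_bcP W h hc P

theorem tr_comp {T S : W.toAffine.Point} {τ σ : FF W →+* FF W}
    (hτ : Moves W (cst W) τ (gen W + bcP W T)) (hσ : Moves W (cst W) σ (gen W + bcP W S)) :
    Moves W (cst W) (τ.comp σ) (gen W + bcP W (T + S)) := by
  obtain ⟨h, hc, hg⟩ := hτ
  have hg' : pm τ h (gen W) = gen W + bcP W T := hg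
  have h1 : Moves W (cst W) (τ.comp σ) (pm τ h (gen W + bcP W S)) := moves_comp W hσ h hc
  have h2 : pm τ h (gen W + bcP W S) = gen W + bcP W (T + S) := by
    rw [map_add, hg', P3_bc W h hc, add_assoc, ← map_add]
  rw [h2] at h1
  exact h1

theorem tr_zero {τ : FF W →+* FF W} (hτ : Moves W (cst W) τ (gen W + bcP W 0)) :
    τ = RingHom.id _ := by
  rw [map_zero, add_zero] at hτ
  exact moves_unique W hτ ⟨WeierstrassCurve.map_id _, fun _ => rfl, pm_id _ _⟩

theorem tr_bijective {T : W.toAffine.Point} {τ : FF W →+* FF W}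
    (hτ : Moves W (cst W) τ (gen W + bcP W T)) : Function.Bijective τ := by
  obtain ⟨σ, hσ⟩ := exists_tr W (-T)
  have h1 := tr_comp W hτ hσ
  have h2 := tr_comp W hσ hτ
  rw [add_neg_cancel] at h1
  rw [neg_add_cancel] at h2
  have e1 := tr_zero W h1
  have e2 := tr_zero W h2
  refine Function.bijective_iff_has_inverse.2 ⟨σ, fun x => ?_, fun x => ?_⟩
  · exact RingHom.congr_fun e2 x
  · exact RingHom.congr_fun e1 x

omit [IsAlgClosed k] [CharZero k] in
theorem P3_nsmul {T : W.toAffine.Point} {τ : FF W →+* FF W}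
    (h : (W.map (cst W)).map τ = W.map (cst W)) (hg : pm τ h (gen W) = gen W + bcP W T) (n : ℕ) :
    pm τ h (n • gen W) = n • gen W + bcP W (n • T) := by
  rw [map_nsmul, hg, nsmul_add, map_nsmul]

theorem nsmul_not_const (n : ℕ) (hn : n ≠ 0) : n • gen W ∉ Set.range (bcP W) := by
  rintro ⟨S, hS⟩
  obtain ⟨T, hT⟩ := Pool.Agent.H11.no_exponent W n hn
  apply hT
  obtain ⟨τ, h, hc, hg⟩ := exists_tr W T
  have h1 := P3_nsmul W h hg n
  rw [← hS, P3_bc W h hc] at h1
  have h2 : bcP W (n • T) = 0 := by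
    have h3 : bcP W S + bcP W (n • T) = bcP W S + 0 := by rw [← h1, add_zero]
    exact add_left_cancel h3
  apply pm_injective (cst W) rfl
  rw [P3_pm, P3_pm, h2, map_zero]

theorem exists_mul (n : ℕ) (hn : n ≠ 0) : ∃ μ, Moves W (cst W) μ (n • gen W) := by
  exact exists_moves W (cst W) _ fun P hP => nsmul_not_const W n hn ⟨P, hP⟩

theorem tr_mul {n : ℕ} {T : W.toAffine.Point} {μ τ : FF W →+* FF W}
    (hμ : Moves W (cst W) μ (n • gen W)) (hτ : Moves W (cst W) τ (gen W + bcP W T))
    (hT : n • T = 0) : τ.comp μ = μ := by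
  obtain ⟨h, hc, hg⟩ := hτ
  have h1 : Moves W (cst W) (τ.comp μ) (pm τ h (n • gen W)) := moves_comp W hμ h hc
  have h2 : pm τ h (n • gen W) = n • gen W := by
    rw [P3_nsmul W h hg, hT, map_zero, add_zero]
  rw [h2] at h1
  exact moves_unique W h1 hμ

end H2T4
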