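import Pool.Agent.H11.AddSub

/-!
Row P4a (about 130 lines, Mathlib): degrees of vectors of polynomials.

PROOF. sym_deg: m = max (deg a) (deg b), r = max (deg c) (deg d). (a.coeff m, b.coeff m) ≠ 0: if a ≠ 0 and natDegree a = m then a.coeff m = leadingCoeff ≠ 0, otherwise natDegree b = m and b ≠ 0
  (if a = 0 then b ≠ 0 and m = natDegree b; if natDegree a < m then natDegree b = m > 0). The same for (c, d). All three polynomials have natDegree ≤ m + r (natDegree_mul_le, natDegree_add_le) and the coefficients at m + r are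
  a_m c_r, a_m d_r + b_m c_r, b_m d_r (Polynomial.coeff_mul_of_natDegree_le or coeff_mul_add_eq_of_natDegree_le), not all zero. So the max is m + r (le_natDegree_of_ne_zero).
 add_deg: N the max of the three degrees, (s_N, t_N, u_N) ≠ 0 in the same way. The three polynomials have natDegree ≤ 2 N and their coefficients at 2 N = N + N are the values of the quadratic forms at (s_N, t_N, u_N)
  (coeff_sub, coeff_C_mul, coeff_mul_of_natDegree_le ...), i.e. (W.addSubMap i).eval ![s_N, t_N, u_N] by Pool.Agent.H11.addSubMap_eval, not all zero by WeierstrassCurve.addSubMap_ne_zero.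
-/

set_option autoImplicit false
open scoped Classical

open Polynomial

namespace H2T4

private theorem P4a_max2 {F : Type} [Field F] (a b : F[X]) (hab : a ≠ 0 ∨ b ≠ 0) :
    a.coeff (max a.natDegree b.natDegree) ≠ 0 ∨ b.coeff (max a.natDegree b.natDegree) ≠ 0 := by
  by_contra hcon
  push Not at hcon
  obtain ⟨h1, h2⟩ := hcon
  rcases le_total a.natDegree b.natDegree with h | h
  · rw [max_eq_right h] at h1 h2
    have hb : b = 0 := by
      rw [← leadingCoeff_eq_zero]
      exact h2
    subst hb
    rw [natDegree_zero, Nat.le_zero] at h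
    rw [natDegree_zero, ← h] at h1
    have ha : a = 0 := by
      rw [← leadingCoeff_eq_zero]
      exact h1
    rcases hab with h3 | h3
    · exact h3 ha
    · exact h3 rfl
  · rw [max_eq_left h] at h1 h2
    have ha : a = 0 := by
      rw [← leadingCoeff_eq_zero]
      exact h1
    subst ha
    rw [natDegree_zero, Nat.le_zero] at h
    rw [natDegree_zero, ← h] at h2
    have hb : b = 0 := by
      rw [← leadingCoeff_eq_zero]
      exact h2
    rcases hab with h3 | h3
    · exact h3 rfl
    · exact h3 hb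

private theorem P4a_max3 {F : Type} [Field F] (s t u : F[X]) (h : s ≠ 0 ∨ t ≠ 0 ∨ u ≠ 0) :
    ¬ (s.coeff (max s.natDegree (max t.natDegree u.natDegree)) = 0 ∧
      t.coeff (max s.natDegree (max t.natDegree u.natDegree)) = 0 ∧
      u.coeff (max s.natDegree (max t.natDegree u.natDegree)) = 0) := by
  rintro ⟨h1, h2, h3⟩
  set N := max s.natDegree (max t.natDegree u.natDegree) with hN
  have key : ∀ p : F[X], p.coeff N = 0 → p.natDegree = N → p = 0 ∧ N = 0 := by
    intro p hp hd
    have h0 : p = 0 := by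
      rw [← leadingCoeff_eq_zero, leadingCoeff, hd]
      exact hp
    refine ⟨h0, ?_⟩
    rw [← hd, h0, natDegree_zero]
  have hN0 : N = 0 := by
    rcases max_choice s.natDegree (max t.natDegree u.natDegree) with h4 | h4
    · exact (key s h1 (h4.symm.trans hN.symm |>.trans rfl)).2
    · rcases max_choice t.natDegree u.natDegree with h5 | h5
      · exact (key t h2 (by rw [hN, h4, h5])).2
      · exact (key u h3 (by rw [hN, h4, h5])).2
  have hz : ∀ p : F[X], p.natDegree ≤ N → p.coeff N = 0 → p = 0 := by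
    intro p hp hc
    exact (key p hc (by omega)).1
  rcases h with h | h | h
  · exact h (hz s (le_max_left _ _) h1)
  · exact h (hz t ((le_max_left _ _).trans (le_max_right _ _)) h2)
  · exact h (hz u ((le_max_right _ _).trans (le_max_right _ _)) h3)

theorem sym_deg {F : Type} [Field F] (a b c d : F[X]) (hab : a ≠ 0 ∨ b ≠ 0) (hcd : c ≠ 0 ∨ d ≠ 0) :
    max (a * c).natDegree (max (a * d + b * c).natDegree (b * d).natDegree) =
      max a.natDegree b.natDegree + max c.natDegree d.natDegree := by
  have hm := P4a_max2 a b hab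
  have hr := P4a_max2 c d hcd
  set m := max a.natDegree b.natDegree with hmd
  set r := max c.natDegree d.natDegree with hrd
  have ha : a.natDegree ≤ m := le_max_left _ _
  have hb : b.natDegree ≤ m := le_max_right _ _
  have hc : c.natDegree ≤ r := le_max_left _ _
  have hd : d.natDegree ≤ r := le_max_right _ _
  have e1 : (a * c).coeff (m + r) = a.coeff m * c.coeff r := coeff_mul_add_eq_of_natDegree_le ha hc
  have e2 : (a * d + b * c).coeff (m + r) = a.coeff m * d.coeff r + b.coeff m * c.coeff r := by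
    rw [coeff_add, coeff_mul_add_eq_of_natDegree_le ha hd, coeff_mul_add_eq_of_natDegree_le hb hc]
  have e3 : (b * d).coeff (m + r) = b.coeff m * d.coeff r := coeff_mul_add_eq_of_natDegree_le hb hd
  have hle : ∀ p q : F[X], p.natDegree ≤ m → q.natDegree ≤ r → (p * q).natDegree ≤ m + r :=
    fun p q hp hq ↦ natDegree_mul_le.trans (add_le_add hp hq)
  apply le_antisymm
  · refine max_le (hle a c ha hc) (max_le ?_ (hle b d hb hd))
    exact (natDegree_add_le _ _).trans (max_le (hle a d ha hd) (hle b c hb hc))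
  · by_cases h1 : a.coeff m * c.coeff r = 0
    · by_cases h3 : b.coeff m * d.coeff r = 0
      · have h2 : a.coeff m * d.coeff r + b.coeff m * c.coeff r ≠ 0 := by
          rcases mul_eq_zero.1 h1 with h4 | h4
          · have h5 : b.coeff m ≠ 0 := hm.resolve_left (fun h ↦ h h4)
            have h6 : d.coeff r = 0 := (mul_eq_zero.1 h3).resolve_left h5
            have h7 : c.coeff r ≠ 0 := hr.resolve_right (fun h ↦ h h6)
            rw [h4, h6]
            simpa using ⟨h5, h7⟩
          · have h5 : d.coeff r ≠ 0 := hr.resolve_left (fun h ↦ h h4)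
            have h6 : b.coeff m = 0 := (mul_eq_zero.1 h3).resolve_right h5
            have h7 : a.coeff m ≠ 0 := hm.resolve_right (fun h ↦ h h6)
            rw [h4, h6]
            simpa using ⟨h7, h5⟩
        refine le_trans ?_ ((le_max_left _ _).trans (le_max_right _ _))
        exact le_natDegree_of_ne_zero (by rw [e2]; exact h2)
      · refine le_trans ?_ ((le_max_right _ _).trans (le_max_right _ _))
        exact le_natDegree_of_ne_zero (by rw [e3]; exact h3)
    · refine le_trans ?_ (le_max_left _ _)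
      exact le_natDegree_of_ne_zero (by rw [e1]; exact h1)

theorem add_deg {F : Type} [Field F] (W : WeierstrassCurve F) [W.IsElliptic] (s t u : F[X])
    (h : s ≠ 0 ∨ t ≠ 0 ∨ u ≠ 0) :
    max (s ^ 2 - C W.b₄ * (s * u) - C W.b₆ * (t * u) - C W.b₈ * u ^ 2).natDegree
      (max (C 2 * (t * s) + C W.b₂ * (s * u) + C W.b₄ * (t * u) + C W.b₆ * u ^ 2).natDegree
        (t ^ 2 - C 4 * (s * u)).natDegree) =
      2 * max s.natDegree (max t.natDegree u.natDegree) := by
  have hN := P4a_max3 s t u h
  set N := max s.natDegree (max t.natDegree u.natDegree) with hNd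
  have hs : s.natDegree ≤ N := le_max_left _ _
  have ht : t.natDegree ≤ N := (le_max_left _ _).trans (le_max_right _ _)
  have hu : u.natDegree ≤ N := (le_max_right _ _).trans (le_max_right _ _)
  have hmul : ∀ p q : F[X], p.natDegree ≤ N → q.natDegree ≤ N → (p * q).natDegree ≤ 2 * N := by
    intro p q hp hq
    have := natDegree_mul_le (p := p) (q := q)
    omega
  have hcm : ∀ p q : F[X], p.natDegree ≤ N → q.natDegree ≤ N →
      (p * q).coeff (2 * N) = p.coeff N * q.coeff N := by
    intro p q hp hq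
    rw [two_mul]
    exact coeff_mul_add_eq_of_natDegree_le hp hq
  have hC : ∀ (x : F) (p : F[X]), p.natDegree ≤ 2 * N → (C x * p).natDegree ≤ 2 * N :=
    fun x p hp ↦ (natDegree_C_mul_le x p).trans hp
  have hadd : ∀ p q : F[X], p.natDegree ≤ 2 * N → q.natDegree ≤ 2 * N →
      (p + q).natDegree ≤ 2 * N := fun p q hp hq ↦ (natDegree_add_le _ _).trans (max_le hp hq)
  have hsub : ∀ p q : F[X], p.natDegree ≤ 2 * N → q.natDegree ≤ 2 * N →
      (p - q).natDegree ≤ 2 * N := fun p q hp hq ↦ (natDegree_sub_le _ _).trans (max_le hp hq)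
  set v : Fin 3 → F := ![s.coeff N, t.coeff N, u.coeff N] with hv
  have hv0 : v ≠ 0 := by
    intro h0
    apply hN
    exact ⟨by simpa [hv] using congrFun h0 0, by simpa [hv] using congrFun h0 1,
      by simpa [hv] using congrFun h0 2⟩
  have hne := WeierstrassCurve.addSubMap_ne_zero W hv0
  rw [Pool.Agent.H11.addSubMap_eval] at hne
  have e1 : (s ^ 2 - C W.b₄ * (s * u) - C W.b₆ * (t * u) - C W.b₈ * u ^ 2).coeff (2 * N) =
      v 0 ^ 2 - W.b₄ * v 0 * v 2 - W.b₆ * v 1 * v 2 - W.b₈ * v 2 ^ 2 := by
    simp only [sq, coeff_sub, coeff_C_mul, hcm _ _ hs hs, hcm _ _ hs hu, hcm _ _ ht hu,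
      hcm _ _ hu hu, hv, Matrix.cons_val_zero, Matrix.cons_val_one, Matrix.cons_val]
    ring
  have e2 : (C 2 * (t * s) + C W.b₂ * (s * u) + C W.b₄ * (t * u) + C W.b₆ * u ^ 2).coeff (2 * N) =
      2 * v 1 * v 0 + W.b₂ * v 0 * v 2 + W.b₄ * v 1 * v 2 + W.b₆ * v 2 ^ 2 := by
    simp only [sq, coeff_add, coeff_C_mul, hcm _ _ ht hs, hcm _ _ hs hu, hcm _ _ ht hu,
      hcm _ _ hu hu, hv, Matrix.cons_val_zero, Matrix.cons_val_one, Matrix.cons_val]
    ring
  have e3 : (t ^ 2 - C 4 * (s * u)).coeff (2 * N) = v 1 ^ 2 - 4 * v 0 * v 2 := by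
    simp only [sq, coeff_sub, coeff_C_mul, hcm _ _ ht ht, hcm _ _ hs hu,
      hv, Matrix.cons_val_zero, Matrix.cons_val_one, Matrix.cons_val]
    ring
  apply le_antisymm
  · refine max_le ?_ (max_le ?_ ?_)
    · rw [sq, sq]
      exact hsub _ _ (hsub _ _ (hsub _ _ (hmul _ _ hs hs) (hC _ _ (hmul _ _ hs hu)))
        (hC _ _ (hmul _ _ ht hu))) (hC _ _ (hmul _ _ hu hu))
    · rw [sq]
      exact hadd _ _ (hadd _ _ (hadd _ _ (hC _ _ (hmul _ _ ht hs)) (hC _ _ (hmul _ _ hs hu)))
        (hC _ _ (hmul _ _ ht hu))) (hC _ _ (hmul _ _ hu hu))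
    · rw [sq]
      exact hsub _ _ (hmul _ _ ht ht) (hC _ _ (hmul _ _ hs hu))
  · by_contra hlt
    apply hne
    rw [not_le, max_lt_iff, max_lt_iff] at hlt
    obtain ⟨h1, h2, h3⟩ := hlt
    rw [coeff_eq_zero_of_natDegree_lt h1] at e1
    rw [coeff_eq_zero_of_natDegree_lt h2] at e2
    rw [coeff_eq_zero_of_natDegree_lt h3] at e3
    rw [← e1, ← e2, ← e3]
    ext i
    fin_cases i <;> rfl

end H2T4
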