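import Pool.Agent.H2.T4.P4a
import Pool.Agent.H11.Divis2

/-!
Row P4b (about 220 lines): coprime polynomials A, B with x(n P) = A(x) / B(x) and max (deg A) (deg B) = n^2. Use only the STATEMENTS of P4a.

PROOF. Induction, two steps at a time. n = 0: (A, B) = (1, 0). n = 1: (X, 1). Step from (a, b) for n and (A, B) for n + 1 to (c, d) for n + 2:
 s = A * X, t = A * 1 + B * X, u = B * 1; A0, A1, A2 = the three polynomials of add_deg.
 (1) For P = (x, y): (A, B)(x) = c1 * xRep((n+1)P), xRep P = (x, 1), so (s, t, u)(x) = c1 * ((n+1)P).sym2x P; Pool.Agent.H11.addSubMap_sym2x for (n+1)P and P (with addSubMap_eval; the forms are homogeneous of degree two) gives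
   (A0, A1, A2)(x) = c2 * ((n+2)P).sym2x (n P), c2 ≠ 0. With (p0, p1) = xRep((n+2)P) and (a, b)(x) = c3 * xRep(n P): (A0, A1, A2)(x) = c4 * (p0 a, p0 b + p1 a, p1 b)(x), c4 ≠ 0.
 (2) A0 b^2 - A1 a b + A2 a^2 = 0: it vanishes at all x (Pool.Agent.H11.exists_point_of_x; Polynomial.funext, k infinite).
 (3) a ≠ 0: otherwise b has no root, so it is constant, n^2 = 0, n = 0, but then (a, b)(x) = c3 * (1, 0).
 (4) there are c, d with A0 = a c, A1 = a d + b c, A2 = b d: if b = 0, then a has no root, a = C a0, A2 = 0 by (2), c = C a0⁻¹ * A0, d = C a0⁻¹ * A1.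
   If b ≠ 0: IsCoprime a b (Polynomial.isCoprime_iff_aeval_ne_zero_of_isAlgClosed), b | A2 a^2 so A2 = b d, a | A0 b^2 so A0 = a c, and a b (c b - A1 + d a) = 0.
 (5) c, d have no common root: at x, (s, t, u)(x) ≠ 0 (if B(x) = 0 then A(x) ≠ 0, t(x) = A(x)), so (A0, A1, A2)(x) ≠ 0 (WeierstrassCurve.addSubMap_ne_zero, addSubMap_eval).
 (6) degree: sym_deg a b c d and add_deg and sym_deg A B X 1: n^2 + deg(c, d) = 2 ((n+1)^2 + 1), so deg(c, d) = (n+2)^2.
 (7) (c, d)(x) = c4 * (p0, p1): a (c - c4 p0) = 0, b (d - c4 p1) = 0, a (d - c4 p1) + b (c - c4 p0) = 0 at x and (a, b)(x) ≠ 0.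
-/

set_option autoImplicit false
open scoped Classical

open Polynomial WeierstrassCurve

namespace H2T4

/-- `A`, `B` have no common root, degree `n ^ 2`, and `(A : B)` is the `x`-coordinate of `n P` -/
def AB {k : Type} [Field k] (W : WeierstrassCurve k) (n : ℕ) (A B : k[X]) : Prop :=
  (∀ x, A.eval x ≠ 0 ∨ B.eval x ≠ 0) ∧ max A.natDegree B.natDegree = n ^ 2 ∧
    ∀ (x y : k) (h : W.toAffine.Nonsingular x y), ∃ c : k, c ≠ 0 ∧
      A.eval x = c * (n • (Affine.Point.some x y h : W.toAffine.Point)).xRep 0 ∧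
      B.eval x = c * (n • (Affine.Point.some x y h : W.toAffine.Point)).xRep 1

theorem P4b_zero {k : Type} [Field k] (W : WeierstrassCurve k) : AB W 0 1 0 := by
  refine ⟨fun x => Or.inl (by rw [eval_one]; exact one_ne_zero), by simp, fun x y h => ⟨1, one_ne_zero, ?_, ?_⟩⟩
  · rw [zero_smul, Affine.Point.xRep_zero]
    simp
  · rw [zero_smul, Affine.Point.xRep_zero]
    simp

theorem P4b_one {k : Type} [Field k] (W : WeierstrassCurve k) : AB W 1 X 1 := by
  refine ⟨fun x => Or.inr (by rw [eval_one]; exact one_ne_zero), by simp, fun x y h => ⟨1, one_ne_zero, ?_, ?_⟩⟩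
  · rw [one_smul, Affine.Point.xRep_some]
    simp
  · rw [one_smul, Affine.Point.xRep_some]
    simp

/-- the values of the forms of degree two -/
theorem P4b_val {k : Type} [Field k] (W : WeierstrassCurve k) [W.IsElliptic] {n : ℕ} {a b A B : k[X]}
    (h1 : AB W n a b) (h2 : AB W (n + 1) A B) (x y : k) (h : W.toAffine.Nonsingular x y) :
    ∃ c : k, c ≠ 0 ∧
      ((A * X) ^ 2 - C W.b₄ * ((A * X) * (B * 1)) - C W.b₆ * ((A * 1 + B * X) * (B * 1)) -
        C W.b₈ * (B * 1) ^ 2).eval x =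
        c * ((n + 2) • (Affine.Point.some x y h : W.toAffine.Point)).xRep 0 * a.eval x ∧
      (C 2 * ((A * 1 + B * X) * (A * X)) + C W.b₂ * ((A * X) * (B * 1)) +
        C W.b₄ * ((A * 1 + B * X) * (B * 1)) + C W.b₆ * (B * 1) ^ 2).eval x =
        c * (((n + 2) • (Affine.Point.some x y h : W.toAffine.Point)).xRep 0 * b.eval x +
          ((n + 2) • (Affine.Point.some x y h : W.toAffine.Point)).xRep 1 * a.eval x) ∧
      ((A * 1 + B * X) ^ 2 - C 4 * ((A * X) * (B * 1))).eval x =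
        c * ((n + 2) • (Affine.Point.some x y h : W.toAffine.Point)).xRep 1 * b.eval x := by
  obtain ⟨c3, hc3, ha, hb⟩ := h1.2.2 x y h
  obtain ⟨c1, hc1, hA, hB⟩ := h2.2.2 x y h
  obtain ⟨c2, hc2, hadd⟩ := Pool.Agent.H11.addSubMap_sym2x W
    ((n + 1) • (Affine.Point.some x y h : W.toAffine.Point)) (Affine.Point.some x y h)
  have e1 : (n + 1) • (Affine.Point.some x y h : W.toAffine.Point) + Affine.Point.some x y h =
      (n + 2) • (Affine.Point.some x y h : W.toAffine.Point) := (succ_nsmul _ _).symm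
  have e2 : (n + 1) • (Affine.Point.some x y h : W.toAffine.Point) - Affine.Point.some x y h =
      n • (Affine.Point.some x y h : W.toAffine.Point) := by
    rw [succ_nsmul, add_sub_cancel_right]
  rw [e1, e2, Pool.Agent.H11.addSubMap_eval] at hadd
  obtain ⟨p, hp⟩ : ∃ p, p = ((n + 1) • (Affine.Point.some x y h : W.toAffine.Point)).xRep := ⟨_, rfl⟩
  obtain ⟨q, hq⟩ : ∃ q, q = ((n + 2) • (Affine.Point.some x y h : W.toAffine.Point)).xRep := ⟨_, rfl⟩
  obtain ⟨r, hr⟩ : ∃ r, r = (n • (Affine.Point.some x y h : W.toAffine.Point)).xRep := ⟨_, rfl⟩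
  have f0 := congrFun hadd 0
  have f1 := congrFun hadd 1
  have f2 := congrFun hadd 2
  simp only [Affine.Point.sym2x, Affine.Point.xRep_some, ← hp, ← hq, ← hr, Matrix.cons_val_zero,
    Matrix.cons_val_one, Matrix.cons_val, Pi.smul_apply, smul_eq_mul, mul_one] at f0 f1 f2
  rw [← hr] at ha hb
  rw [← hp] at hA hB
  rw [← hq]
  refine ⟨c1 ^ 2 * c2 / c3, div_ne_zero (mul_ne_zero (pow_ne_zero _ hc1) hc2) hc3, ?_, ?_, ?_⟩
  · simp only [eval_sub, eval_mul, eval_pow, eval_X, eval_C, eval_add, mul_one]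
    rw [ha, hA, hB]
    field_simp
    linear_combination f0
  · simp only [eval_mul, eval_pow, eval_X, eval_C, eval_add, mul_one]
    rw [ha, hb, hA, hB]
    field_simp
    linear_combination f1
  · simp only [eval_sub, eval_mul, eval_pow, eval_X, eval_C, eval_add, mul_one]
    rw [hb, hA, hB]
    field_simp
    linear_combination f2

/-- the factorization -/
theorem P4b_fac {k : Type} [Field k] {a b A0 A1 A2 : k[X]} (hab : IsCoprime a b) (ha : a ≠ 0)
    (h : A0 * b ^ 2 - A1 * (a * b) + A2 * a ^ 2 = 0) :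
    ∃ c d : k[X], A0 = a * c ∧ A1 = a * d + b * c ∧ A2 = b * d := by
  by_cases hb : b = 0
  · subst hb
    have hu : IsUnit a := isCoprime_zero_right.1 hab
    obtain ⟨c, hc⟩ := hu.dvd (a := A0)
    obtain ⟨d, hd⟩ := hu.dvd (a := A1)
    refine ⟨c, d, hc, by rw [zero_mul, add_zero, hd], ?_⟩
    rw [mul_zero, mul_zero, zero_pow two_ne_zero, mul_zero, sub_zero, zero_add] at h
    rw [zero_mul]
    exact (mul_eq_zero.1 h).resolve_right (pow_ne_zero _ ha)
  · have h1 : b ∣ A2 := by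
      have : b ∣ A2 * a ^ 2 := ⟨A1 * a - A0 * b, by linear_combination h⟩
      exact (hab.symm.pow_right).dvd_of_dvd_mul_right this
    have h2 : a ∣ A0 := by
      have : a ∣ A0 * b ^ 2 := ⟨A1 * b - A2 * a, by linear_combination h⟩
      exact (hab.pow_right).dvd_of_dvd_mul_right this
    obtain ⟨d, hd⟩ := h1
    obtain ⟨c, hc⟩ := h2
    refine ⟨c, d, hc, ?_, hd⟩
    rw [hc, hd] at h
    have h3 : (a * b) * (b * c - A1 + a * d) = 0 := by linear_combination h
    have h4 := (mul_eq_zero.1 h3).resolve_left (mul_ne_zero ha hb)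
    linear_combination -h4

theorem P4b_step {k : Type} [Field k] [IsAlgClosed k] (W : WeierstrassCurve k) [W.IsElliptic] {n : ℕ}
    {a b A B : k[X]} (h1 : AB W n a b) (h2 : AB W (n + 1) A B) : ∃ c d : k[X], AB W (n + 2) c d := by
  have hinf : Infinite k := IsAlgClosed.instInfinite
  have hval := P4b_val W h1 h2
  obtain ⟨A0, hA0⟩ : ∃ A0 : k[X], A0 = (A * X) ^ 2 - C W.b₄ * ((A * X) * (B * 1)) -
    C W.b₆ * ((A * 1 + B * X) * (B * 1)) - C W.b₈ * (B * 1) ^ 2 := ⟨_, rfl⟩
  obtain ⟨A1, hA1⟩ : ∃ A1 : k[X], A1 = C 2 * ((A * 1 + B * X) * (A * X)) +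
    C W.b₂ * ((A * X) * (B * 1)) + C W.b₄ * ((A * 1 + B * X) * (B * 1)) + C W.b₆ * (B * 1) ^ 2 :=
    ⟨_, rfl⟩
  obtain ⟨A2, hA2⟩ : ∃ A2 : k[X], A2 = (A * 1 + B * X) ^ 2 - C 4 * ((A * X) * (B * 1)) := ⟨_, rfl⟩
  rw [← hA0, ← hA1, ← hA2] at hval
  have hrel : A0 * b ^ 2 - A1 * (a * b) + A2 * a ^ 2 = 0 := by
    apply Polynomial.funext
    intro x
    obtain ⟨y, hxy⟩ := Pool.Agent.H11.exists_point_of_x W x
    obtain ⟨c, -, e0, e1, e2⟩ := hval x y hxy
    rw [eval_add, eval_sub, eval_mul, eval_mul, eval_mul, eval_mul, eval_pow, eval_pow, e0, e1, e2,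
      eval_zero]
    ring
  have ha : a ≠ 0 := by
    rintro rfl
    have hb : b.degree = 0 := by
      by_contra hdeg
      obtain ⟨x, hx⟩ := IsAlgClosed.exists_root b hdeg
      rcases h1.1 x with h3 | h3
      · exact h3 eval_zero
      · exact h3 hx
    have hbn : b.natDegree = 0 := natDegree_eq_of_degree_eq_some hb
    have h3 := h1.2.1
    rw [natDegree_zero, hbn, max_self] at h3
    have hn : n = 0 := by
      by_contra hn
      exact (pow_ne_zero 2 hn) h3.symm
    subst hn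
    obtain ⟨y, hxy⟩ := Pool.Agent.H11.exists_point_of_x W 0
    obtain ⟨c, hc, h4, -⟩ := h1.2.2 0 y hxy
    rw [zero_smul, Affine.Point.xRep_zero, eval_zero] at h4
    simp only [Matrix.cons_val_zero, mul_one] at h4
    exact hc h4.symm
  have hcop : IsCoprime a b := by
    rw [Polynomial.isCoprime_iff_aeval_ne_zero_of_isAlgClosed k k]
    intro x
    rw [coe_aeval_eq_eval]
    exact h1.1 x
  obtain ⟨c, d, hc, hcd, hd⟩ := P4b_fac hcop ha hrel
  have hfin : ∀ (x y : k) (h : W.toAffine.Nonsingular x y), ∃ e : k, e ≠ 0 ∧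
      c.eval x = e * ((n + 2) • (Affine.Point.some x y h : W.toAffine.Point)).xRep 0 ∧
      d.eval x = e * ((n + 2) • (Affine.Point.some x y h : W.toAffine.Point)).xRep 1 := by
    intro x y h
    obtain ⟨e, he, e0, e1, e2⟩ := hval x y h
    refine ⟨e, he, ?_⟩
    rw [hc, eval_mul] at e0
    rw [hcd, eval_add, eval_mul, eval_mul] at e1
    rw [hd, eval_mul] at e2
    obtain ⟨q, hq⟩ : ∃ q, q = ((n + 2) • (Affine.Point.some x y h : W.toAffine.Point)).xRep := ⟨_, rfl⟩
    rw [← hq] at e0 e1 e2 ⊢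
    have g0 : a.eval x * (c.eval x - e * q 0) = 0 := by linear_combination e0
    have g2 : b.eval x * (d.eval x - e * q 1) = 0 := by linear_combination e2
    have g1 : a.eval x * (d.eval x - e * q 1) + b.eval x * (c.eval x - e * q 0) = 0 := by
      linear_combination e1
    rcases h1.1 x with h3 | h3
    · have k0 := (mul_eq_zero.1 g0).resolve_left h3
      rw [k0, mul_zero, add_zero] at g1
      have k1 := (mul_eq_zero.1 g1).resolve_left h3
      exact ⟨sub_eq_zero.1 k0, sub_eq_zero.1 k1⟩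
    · have k1 := (mul_eq_zero.1 g2).resolve_left h3
      rw [k1, mul_zero, zero_add] at g1
      have k0 := (mul_eq_zero.1 g1).resolve_left h3
      exact ⟨sub_eq_zero.1 k0, sub_eq_zero.1 k1⟩
  have hne : ∀ x, c.eval x ≠ 0 ∨ d.eval x ≠ 0 := by
    intro x
    obtain ⟨y, hxy⟩ := Pool.Agent.H11.exists_point_of_x W x
    obtain ⟨e, he, e0, e1⟩ := hfin x y hxy
    by_contra hcon
    push Not at hcon
    rw [hcon.1] at e0
    rw [hcon.2] at e1
    apply Affine.Point.xRep_ne_zero ((n + 2) • (Affine.Point.some x y hxy : W.toAffine.Point))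
    funext i
    fin_cases i
    · exact (mul_eq_zero.1 e0.symm).resolve_left he
    · exact (mul_eq_zero.1 e1.symm).resolve_left he
  refine ⟨c, d, hne, ?_, hfin⟩
  have nz : ∀ {u v : k[X]}, (∀ x, u.eval x ≠ 0 ∨ v.eval x ≠ 0) → u ≠ 0 ∨ v ≠ 0 := by
    intro u v huv
    rcases huv 0 with h3 | h3
    · left
      rintro rfl
      exact h3 eval_zero
    · right
      rintro rfl
      exact h3 eval_zero
  have d1 := sym_deg a b c d (nz h1.1) (nz hne)
  have d2 := sym_deg A B X 1 (nz h2.1) (Or.inr one_ne_zero)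
  have hstu : A * X ≠ 0 ∨ A * 1 + B * X ≠ 0 ∨ B * 1 ≠ 0 := by
    by_cases hB : B = 0
    · right
      left
      rw [hB, zero_mul, add_zero, mul_one]
      exact (nz h2.1).resolve_right (fun h => h hB)
    · right
      right
      rw [mul_one]
      exact hB
  have d3 := add_deg W (A * X) (A * 1 + B * X) (B * 1) hstu
  rw [← hA0, ← hA1, ← hA2, hc, hcd, hd, d1, d2, h1.2.1, h2.2.1, natDegree_X, natDegree_one] at d3
  have e1 : max 1 0 = 1 := rfl
  rw [e1] at d3
  nlinarith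

theorem exists_AB {k : Type} [Field k] [IsAlgClosed k] (W : WeierstrassCurve k) [W.IsElliptic] (n : ℕ) :
    ∃ A B : k[X], AB W n A B := by
  have key : ∀ m : ℕ, (∃ A B, AB W m A B) ∧ (∃ A B, AB W (m + 1) A B) := by
    intro m
    induction m with
    | zero => exact ⟨⟨_, _, P4b_zero W⟩, ⟨_, _, P4b_one W⟩⟩
    | succ m ih =>
      obtain ⟨⟨a, b, h1⟩, ⟨A, B, h2⟩⟩ := ih
      exact ⟨⟨A, B, h2⟩, P4b_step W h1 h2⟩
  exact (key n).1

end H2T4
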