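import Pool.Agent.H2.T4.P4b

/-!
Row P4c (about 120 lines): E[n] has at most n^2 elements. Use only the STATEMENT of P4b.

PROOF. (A, B) from exists_AB. P0 with (2 n) • P0 ≠ 0 (Pool.Agent.H11.no_exponent), so n • P0 ≠ 0, n • P0 = (c0, _). D = A - C c0 * B: natDegree ≤ n^2 and D ≠ 0 (if A = C c0 * B then B has no root, B and A are constant, n^2 = 0).
 For T with n • T = 0: n • (P0 + T) = n • P0 ≠ 0, so P0 + T = (x_T, _) is affine and (A, B)(x_T) = c * xRep(n (P0 + T)) = c * (c0, 1), so D(x_T) = 0.
 T ↦ x_T is injective: x_T = x_T' gives P0 + T = P0 + T' or P0 + T = - (P0 + T') (Affine.Point.X_eq_iff), and the latter gives 2 • P0 = - (T + T'), (2 n) • P0 = 0.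
 So the number of T is at most card of D.roots.toFinset ≤ natDegree D ≤ n^2 (Set.ncard_le_ncard_of_injOn; finiteness of the target).
-/

set_option autoImplicit false
open scoped Classical

open Polynomial WeierstrassCurve

namespace H2T4

theorem card_torsion_le {k : Type} [Field k] [IsAlgClosed k] [CharZero k] (W : WeierstrassCurve k)
    [W.IsElliptic] (n : ℕ) (hn : n ≠ 0) : {T : W.toAffine.Point | n • T = 0}.ncard ≤ n ^ 2 := by
  obtain ⟨A, B, hcop, hdeg, hAB⟩ := exists_AB W n
  obtain ⟨P0, hP0⟩ := Pool.Agent.H11.no_exponent W (2 * n) (mul_ne_zero two_ne_zero hn)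
  have hnP : n • P0 ≠ 0 := by
    intro h
    rw [mul_smul, h, smul_zero] at hP0
    exact hP0 rfl
  obtain ⟨c0, hc1, hc2⟩ : ∃ c0 : k, (n • P0).xRep 0 = c0 ∧ (n • P0).xRep 1 = 1 := by
    rcases hR : n • P0 with _ | ⟨x, y, h⟩
    · exact absurd hR hnP
    · exact ⟨x, rfl, rfl⟩
  obtain ⟨D, hD⟩ : ∃ D : k[X], D = A - C c0 * B := ⟨_, rfl⟩
  have hD0 : D ≠ 0 := by
    intro h0
    rw [hD, sub_eq_zero] at h0
    have hB : B.natDegree = 0 := by
      by_contra hB
      obtain ⟨x, hx⟩ := IsAlgClosed.exists_root B (fun h => hB (natDegree_eq_zero_iff_degree_le_zero.2 h.le))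
      have hx0 : B.eval x = 0 := hx
      rcases hcop x with h1 | h1
      · rw [h0, eval_mul, hx0, mul_zero] at h1
        exact h1 rfl
      · exact h1 hx0
    have hA : A.natDegree = 0 := by
      rw [h0]
      have h1 := natDegree_C_mul_le c0 B
      omega
    rw [hA, hB, max_self] at hdeg
    exact hn (pow_eq_zero_iff two_ne_zero |>.1 hdeg.symm)
  have hroot : ∀ T : W.toAffine.Point, n • T = 0 → D.eval ((P0 + T).xRep 0) = 0 ∧ (P0 + T).xRep 1 = 1 := by
    intro T hT
    have h1 : n • (P0 + T) = n • P0 := by rw [smul_add, hT, add_zero]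
    rcases hR : P0 + T with _ | ⟨x, y, h⟩
    · exfalso
      rw [hR] at h1
      apply hnP
      rw [← h1]
      exact smul_zero n
    · refine ⟨?_, rfl⟩
      obtain ⟨c, hc, hA, hB⟩ := hAB x y h
      rw [← hR, h1] at hA hB
      rw [hc1] at hA
      rw [hc2, mul_one] at hB
      change D.eval x = 0
      rw [hD, eval_sub, eval_mul, eval_C, hA, hB]
      ring
  have hmaps : ∀ T ∈ {T : W.toAffine.Point | n • T = 0}, (P0 + T).xRep 0 ∈ (D.roots.toFinset : Set k) := by
    intro T hT
    rw [Finset.mem_coe, Multiset.mem_toFinset, mem_roots hD0]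
    exact (hroot T hT).1
  have hinj : Set.InjOn (fun T : W.toAffine.Point => (P0 + T).xRep 0) {T : W.toAffine.Point | n • T = 0} := by
    intro T hT T' hT' h
    have hx : (P0 + T).xRep = (P0 + T').xRep := by
      funext i
      fin_cases i
      · exact h
      · exact (hroot T hT).2.trans (hroot T' hT').2.symm
    rcases Affine.Point.eq_or_eq_neg_of_xRep_eq_xRep hx with h1 | h1
    · exact add_left_cancel h1
    · exfalso
      apply hP0
      have h2 : 2 • P0 = - (T + T') := by
        have h3 : P0 + T + (P0 + T') = 0 := by rw [h1, neg_add_cancel]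
        rw [eq_neg_iff_add_eq_zero, ← h3, two_nsmul]
        abel
      rw [mul_comm, mul_smul, h2, smul_neg, smul_add]
      rw [show n • T = 0 from hT, show n • T' = 0 from hT', add_zero, neg_zero]
  calc {T : W.toAffine.Point | n • T = 0}.ncard ≤ (D.roots.toFinset : Set k).ncard :=
        Set.ncard_le_ncard_of_injOn _ hmaps hinj (Finset.finite_toSet _)
    _ = D.roots.toFinset.card := Set.ncard_coe_finset _
    _ ≤ D.roots.card := Multiset.toFinset_card_le _
    _ ≤ D.natDegree := card_roots' D
    _ ≤ max A.natDegree (C c0 * B).natDegree := by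
        rw [hD]
        exact natDegree_sub_le _ _
    _ ≤ max A.natDegree B.natDegree := max_le_max le_rfl (natDegree_C_mul_le c0 B)
    _ = n ^ 2 := hdeg

end H2T4
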