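import Pool.Agent.H2.T4.P3

/-!
Row P5 (about 180 lines): the functions fixed by the translations by E[n] are the functions of n G. Use only the STATEMENTS of P1, P2, P3.

PROOF. K0 := μ.fieldRange (a subfield of FF W; Algebra K0 (FF W) from the subfield), Abar := AlgebraicClosure (FF W), ι := algebraMap (FF W) Abar, φ := ι.comp (cst W).
 (1) FF W is algebraic over K0. K0 contains the constants (μ (cst c) = cst c). n • gen = (t, _) with t, _ ∈ K0 (it is pm μ gen; it is affine by nsmul_not_const), and t is not a constant (mem_range_pm, nsmul_not_const). View FF W as a k-algebra (algebraMap = cst W).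
   x = algebraMap rx is transcendental over k (it is not a constant: XClass_ne_zero; k algebraically closed, IsAlgClosed.algebraMap_bijective_of_isIntegral or: an algebraic element over k is in the range), y is algebraic over k(x) (Weierstrass equation), so FF W is algebraic
   over k(x) and {x} is a transcendence basis, trdeg = 1; t is transcendental over k, so {t} is algebraically independent, hence a transcendence basis (AlgebraicIndependent.isTranscendenceBasis_of_trdeg_le or the exchange property), so FF W is algebraic over k(t) ⊆ K0.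
   (Elementary alternative: t = r / s with r ∈ RR, s ∈ k[X] (multiply by the conjugate), t satisfies s^2 t^2 - s (tr r) t + nm r = 0 with tr r, nm r ∈ k[X]: a polynomial relation F(t, x) = 0 with F ∈ k[T][X] non zero; since t is transcendental over k, F(t, X) ≠ 0, so x is algebraic over k(t).)
 (2) Abar is an algebraic closure of K0 (Algebra K0 Abar through FF W, IsScalarTower), char 0: IsGalois K0 Abar. If ι u is not in the range of algebraMap K0 Abar there is σ : Abar ≃ₐ[K0] Abar with σ (ι u) ≠ ι u (InfiniteGalois.mem_range_algebraMap_iff_fixed or IsGalois fixed field).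
 (3) ρ := σ ∘ ι : FF W →+* Abar; ρ ∘ μ = ι ∘ μ (σ fixes K0), ρ (cst c) = φ c. Q := pm ρ gen. n • Q = pm ρ (n • gen) = pm ρ (pm μ gen) = pm ι (pm μ gen) = n • pm ι gen (pm_pm, pm_congr). T' := Q - pm ι gen, n • T' = 0.
   T' is in the range of pm φ: otherwise exists_moves gives ψ with pm ψ gen = T', so pm ψ (n • gen) = 0, n • gen = 0 (pm_injective), contradiction with nsmul_not_const (0 = bcP 0). T' = pm φ T, n • T = 0 (pm_injective).
   τ from exists_tr T: ι ∘ τ moves gen to pm ι (gen + bcP T) = pm ι gen + pm φ T = Q (moves_comp, pm_bcP), so ρ = ι ∘ τ (moves_unique), and ρ u = ι (τ u) = ι u: contradiction.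
 (4) so ι u = ι (z), z ∈ K0, u = z = μ v.
-/

set_option autoImplicit false
open scoped Classical nonZeroDivisors Polynomial.Bivariate

open WeierstrassCurve Polynomial Pool.Agent.H10

namespace H2T4

variable {k : Type} [Field k] [IsAlgClosed k] [CharZero k] (W : WeierstrassCurve k) [W.IsElliptic]

omit [CharZero k] [W.IsElliptic] [IsAlgClosed k] in
private lemma P5_hom : (algebraMap (RR W) (FF W)).comp (algebraMap k[X] (RR W)) =
    eval₂RingHom (cst W) (algebraMap (RR W) (FF W) (rx W)) := by
  apply Polynomial.ringHom_ext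
  · intro c
    rw [coe_eval₂RingHom, eval₂_C, RingHom.comp_apply]
    have h1 : algebraMap k[X] (RR W) (C c) = algebraMap k (RR W) c :=
      (IsScalarTower.algebraMap_apply k k[X] (RR W) c).symm
    rw [h1]
    exact (IsScalarTower.algebraMap_apply k (RR W) (FF W) c).symm
  · rw [coe_eval₂RingHom, eval₂_X, RingHom.comp_apply]
    rfl

omit [CharZero k] [W.IsElliptic] [IsAlgClosed k] in
private lemma P5_poly (p : k[X]) : algebraMap (RR W) (FF W) (algebraMap k[X] (RR W) p) =
    p.eval₂ (cst W) (algebraMap (RR W) (FF W) (rx W)) :=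
  congrArg (fun f : k[X] →+* FF W => f p) (P5_hom W)

omit [CharZero k] [W.IsElliptic] in
private lemma P5_alg (t : FF W) (a b c : k) (ha : a ≠ 0)
    (h : cst W a * t ^ 2 + cst W b * t + cst W c = 0) : ∃ r, cst W r = t := by
  have hint : IsAlgebraic k t := by
    refine ⟨C a * X ^ 2 + C b * X + C c, ?_, ?_⟩
    · intro h0
      have h1 := congrArg (fun p : k[X] => p.coeff 2) h0
      simp at h1
      exact ha h1
    · simp only [map_add, map_mul, map_pow, aeval_C, aeval_X]
      exact h
  have hd := IsAlgClosed.degree_eq_one_of_irreducible k (minpoly.irreducible hint.isIntegral)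
  exact minpoly.mem_range_of_degree_eq_one k t hd

omit [IsAlgClosed k] [CharZero k] [W.IsElliptic] in
/-- every function is a regular function over a polynomial -/
private lemma P5_frac (t : FF W) : ∃ (F : RR W) (N : k[X]), N ≠ 0 ∧
    t * algebraMap (RR W) (FF W) (algebraMap k[X] (RR W) N) = algebraMap (RR W) (FF W) F := by
  obtain ⟨f, g, hg, rfl⟩ := IsFractionRing.div_surjective (A := RR W) t
  have hg0 : g ≠ 0 := nonZeroDivisors.ne_zero hg
  refine ⟨f * cjR W g, Algebra.norm k[X] g, norm_ne_zero' W g hg0, ?_⟩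
  rw [← mul_cjR, map_mul, map_mul]
  have h1 : algebraMap (RR W) (FF W) g ≠ 0 :=
    (map_ne_zero_iff _ (IsFractionRing.injective (RR W) (FF W))).2 hg0
  field_simp

omit [IsAlgClosed k] [CharZero k] [W.IsElliptic] in
/-- a relation of degree two over the polynomials -/
private lemma P5_quad (F : RR W) : ∃ A B : k[X], F ^ 2 + algebraMap k[X] (RR W) A * F +
    algebraMap k[X] (RR W) B = 0 := by
  obtain ⟨p, q, hpq⟩ := exists_pq W F
  refine ⟨-(2 * p - q * (C W.a₁ * X + C W.a₃)), Algebra.norm k[X] F, ?_⟩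
  rw [← mul_cjR]
  have hp : ∀ p : k[X], cjR W (algebraMap k[X] (RR W) p) = algebraMap k[X] (RR W) p := by
    intro p
    have h : (cjR W).comp (algebraMap k[X] (RR W)) = algebraMap k[X] (RR W) := by
      apply Polynomial.ringHom_ext
      · intro c
        rw [RingHom.comp_apply]
        have h1 : algebraMap k[X] (RR W) (C c) = algebraMap k (RR W) c :=
          (IsScalarTower.algebraMap_apply k k[X] (RR W) c).symm
        rw [h1, cjR_const]
      · exact cjR_rx W
    exact congrArg (fun f : k[X] →+* RR W => f p) h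
  have hc : cjR W F = algebraMap k[X] (RR W) p + algebraMap k[X] (RR W) q *
      (-(ry W) - algebraMap k[X] (RR W) (C W.a₁ * X + C W.a₃)) := by
    rw [hpq, map_add, map_mul, hp, hp, cjR_ry]
    have h1 : algebraMap k[X] (RR W) (C W.a₁ * X + C W.a₃) =
        algebraMap k (RR W) W.a₁ * rx W + algebraMap k (RR W) W.a₃ := by
      rw [map_add, map_mul]
      have e1 : algebraMap k[X] (RR W) (C W.a₁) = algebraMap k (RR W) W.a₁ :=
        (IsScalarTower.algebraMap_apply k k[X] (RR W) _).symm
      have e2 : algebraMap k[X] (RR W) (C W.a₃) = algebraMap k (RR W) W.a₃ :=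
        (IsScalarTower.algebraMap_apply k k[X] (RR W) _).symm
      rw [e1, e2]
      rfl
    rw [h1]
    ring
  rw [hc]
  simp only [map_neg, map_sub, map_mul, map_ofNat]
  rw [hpq]
  ring

omit [CharZero k] [W.IsElliptic] in
/-- the coordinate `x` is algebraic over every field that contains the constants and a function
that is not constant -/
private lemma P5_algx (K0 : Subfield (FF W)) (hc : ∀ c, cst W c ∈ K0) {t : FF W} (ht : t ∈ K0)
    (htc : ∀ r, cst W r ≠ t) : IsAlgebraic K0 (algebraMap (RR W) (FF W) (rx W)) := by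
  obtain ⟨F, N, hN, hF⟩ := P5_frac W t
  obtain ⟨A, B, hAB⟩ := P5_quad W F
  let j : k →+* K0 := (cst W).codRestrict K0 hc
  have hj : ∀ c, ((j c : K0) : FF W) = cst W c := fun c => rfl
  let t' : K0 := ⟨t, ht⟩
  refine ⟨(N ^ 2).map j * C (t' ^ 2) + (A * N).map j * C t' + B.map j, ?_, ?_⟩
  · intro h0
    obtain ⟨i, hi⟩ : ∃ i, (N ^ 2).coeff i ≠ 0 := by
      by_contra hcon
      push Not at hcon
      exact pow_ne_zero 2 hN (Polynomial.ext (fun i => by rw [hcon i, coeff_zero]))
    have h1 := congrArg (fun p : K0[X] => p.coeff i) h0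
    simp only [coeff_add, coeff_mul_C, coeff_map, coeff_zero] at h1
    have h2 := congrArg (fun z : K0 => (z : FF W)) h1
    push_cast at h2
    rw [hj, hj, hj] at h2
    obtain ⟨r, hr⟩ := P5_alg W t _ _ _ hi h2
    exact htc r hr
  · have hx : (algebraMap K0 (FF W)).comp j = cst W := RingHom.ext fun c => rfl
    rw [aeval_def, eval₂_add, eval₂_add, eval₂_mul, eval₂_mul, eval₂_C, eval₂_C, eval₂_map,
      eval₂_map, eval₂_map, hx, ← P5_poly, ← P5_poly, ← P5_poly]
    have h2 := congrArg (algebraMap (RR W) (FF W)) hAB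
    rw [map_add, map_add, map_mul, map_pow, ← hF, map_zero] at h2
    have e1 : algebraMap K0 (FF W) (t' ^ 2) = t ^ 2 := rfl
    have e2 : algebraMap K0 (FF W) t' = t := rfl
    rw [e1, e2]
    simp only [map_mul, map_pow]
    linear_combination h2

omit [CharZero k] [W.IsElliptic] in
private lemma P5_isAlg (K0 : Subfield (FF W)) (hc : ∀ c, cst W c ∈ K0) {t : FF W} (ht : t ∈ K0)
    (htc : ∀ r, cst W r ≠ t) : Algebra.IsAlgebraic K0 (FF W) := by
  set E := algebraicClosure K0 (FF W) with hE
  have hcE : ∀ c, cst W c ∈ E := by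
    intro c
    exact E.algebraMap_mem ⟨cst W c, hc c⟩
  have hx : algebraMap (RR W) (FF W) (rx W) ∈ E :=
    (mem_algebraicClosure_iff).2 (P5_algx W K0 hc ht htc)
  have hpoly : ∀ p : k[X], algebraMap (RR W) (FF W) (algebraMap k[X] (RR W) p) ∈ E := by
    intro p
    rw [P5_poly, eval₂_eq_sum_range]
    exact sum_mem fun i _ => mul_mem (hcE _) (pow_mem hx _)
  have hy : algebraMap (RR W) (FF W) (ry W) ∈ E := by
    obtain ⟨A, B, hAB⟩ := P5_quad W (ry W)
    have h2 := congrArg (algebraMap (RR W) (FF W)) hAB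
    rw [map_add, map_add, map_mul, map_pow, map_zero] at h2
    rw [hE, mem_algebraicClosure_iff]
    have hal : IsAlgebraic E (algebraMap (RR W) (FF W) (ry W)) := by
      refine ⟨X ^ 2 + C (⟨_, hpoly A⟩ : E) * X + C (⟨_, hpoly B⟩ : E), ?_, ?_⟩
      · intro h0
        have h1 := congrArg (fun p : E[X] => p.coeff 2) h0
        simp at h1
      · simp only [map_add, map_mul, map_pow, aeval_C, aeval_X]
        exact h2
    exact hal.restrictScalars K0
  have hR : ∀ f : RR W, algebraMap (RR W) (FF W) f ∈ E := by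
    intro f
    obtain ⟨p, q, rfl⟩ := exists_pq W f
    rw [map_add, map_mul]
    exact add_mem (hpoly p) (mul_mem (hpoly q) hy)
  constructor
  intro z
  obtain ⟨f, g, _, rfl⟩ := IsFractionRing.div_surjective (A := RR W) z
  exact (mem_algebraicClosure_iff).1 (div_mem (hR f) (hR g))

theorem fixed_of_tr (n : ℕ) (hn : n ≠ 0) {μ : FF W →+* FF W} (hμ : Moves W (cst W) μ (n • gen W))
    (u : FF W) (hu : ∀ (T : W.toAffine.Point) (τ : FF W →+* FF W), n • T = 0 →
      Moves W (cst W) τ (gen W + bcP W T) → τ u = u) : ∃ v, μ v = u := by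
  obtain ⟨hm1, hm2, hm3⟩ := hμ
  have hnc := nsmul_not_const W n hn
  have hcK : ∀ c, cst W c ∈ μ.fieldRange := fun c => ⟨cst W c, hm2 c⟩
  have hchar : CharZero (FF W) := charZero_of_injective_ringHom (cst W).injective
  have halg : Algebra.IsAlgebraic μ.fieldRange (FF W) := by
    refine P5_isAlg W μ.fieldRange hcK (t := μ (algebraMap (RR W) (FF W) (rx W))) ⟨_, rfl⟩ ?_
    intro r hr
    apply hnc
    have hg : pm μ hm1 (gen W) = n • gen W := hm3
    unfold gen at hg
    rw [pm_some] at hg
    obtain ⟨P, hP⟩ := mem_range_pm W (cst W) _ _ _ ⟨r, hr⟩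
    refine ⟨P, ?_⟩
    exact hP.trans hg
  have hΩ : Algebra.IsAlgebraic μ.fieldRange (AlgebraicClosure (FF W)) :=
    Algebra.IsAlgebraic.trans μ.fieldRange (FF W) (AlgebraicClosure (FF W))
  have hcl : IsAlgClosure μ.fieldRange (AlgebraicClosure (FF W)) := ⟨inferInstance, hΩ⟩
  have hgal : IsGalois μ.fieldRange (AlgebraicClosure (FF W)) := inferInstance
  set ι : FF W →+* AlgebraicClosure (FF W) := algebraMap (FF W) (AlgebraicClosure (FF W)) with hι
  have hιK : ∀ z : μ.fieldRange, algebraMap μ.fieldRange (AlgebraicClosure (FF W)) z = ι z := by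
    intro z
    exact IsScalarTower.algebraMap_apply μ.fieldRange (FF W) (AlgebraicClosure (FF W)) z
  have key : ι u ∈ Set.range (algebraMap μ.fieldRange (AlgebraicClosure (FF W))) := by
    rw [InfiniteGalois.mem_range_algebraMap_iff_fixed]
    intro σ
    have hσK : ∀ z ∈ μ.fieldRange, σ (ι z) = ι z := by
      intro z hz
      have := σ.commutes ⟨z, hz⟩
      rwa [hιK] at this
    obtain ⟨ρ, hρ⟩ : ∃ ρ : FF W →+* AlgebraicClosure (FF W), ∀ z, ρ z = σ (ι z) :=
      ⟨(σ : AlgebraicClosure (FF W) →+* AlgebraicClosure (FF W)).comp ι, fun z => rfl⟩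
    obtain ⟨φ, hφ⟩ : ∃ φ : k →+* AlgebraicClosure (FF W), φ = ι.comp (cst W) := ⟨_, rfl⟩
    have hρc : ∀ c, ρ (cst W c) = φ c := by
      intro c
      rw [hρ, hσK _ (hcK c), hφ]
      rfl
    have hιc : ∀ c, ι (cst W c) = φ c := by
      intro c
      rw [hφ]
      rfl
    have h1 : (W.map (cst W)).map ρ = W.map φ := by
      rw [WeierstrassCurve.map_map]
      congr 1
      exact RingHom.ext hρc
    have h2 : (W.map (cst W)).map ι = W.map φ := by
      rw [WeierstrassCurve.map_map, hφ]
    have hnQ : n • (pm ρ h1 (gen W) - pm ι h2 (gen W)) = 0 := by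
      rw [smul_sub, ← map_nsmul, ← map_nsmul, ← hm3, sub_eq_zero]
      have e1 := pm_pm μ hm1 ρ h1 (gen W)
      have e2 := pm_pm μ hm1 ι h2 (gen W)
      refine e1.trans (Eq.trans ?_ e2.symm)
      apply pm_congr
      intro z
      rw [RingHom.comp_apply, RingHom.comp_apply, hρ]
      exact hσK _ ⟨z, rfl⟩
    obtain ⟨T, hT⟩ : ∃ T : W.toAffine.Point, pm φ rfl T = pm ρ h1 (gen W) - pm ι h2 (gen W) := by
      by_contra hcon
      push Not at hcon
      obtain ⟨ψ, h3, h4, h5⟩ := exists_moves W φ _ hcon
      apply hnc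
      refine ⟨0, ?_⟩
      rw [map_zero]
      have h6 : pm ψ h3 (n • gen W) = pm ψ h3 0 := by
        rw [map_nsmul, h5, hnQ, map_zero]
      exact (pm_injective ψ h3 h6).symm
    have hnT : n • T = 0 := by
      apply pm_injective φ rfl
      rw [map_nsmul, hT, hnQ, map_zero]
    obtain ⟨τ, hτ⟩ := exists_tr W T
    have hm := moves_comp W hτ h2 hιc
    rw [map_add, pm_bcP W h2 hιc T, hT, add_sub_cancel] at hm
    have hm' : Moves W φ ρ (pm ρ h1 (gen W)) := ⟨h1, hρc, rfl⟩
    have he := moves_unique W hm' hm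
    rw [← hρ, he, RingHom.comp_apply, hu T τ hnT hτ]
  obtain ⟨z, hz⟩ := key
  rw [hιK] at hz
  have hz' : (z : FF W) = u := ι.injective hz
  obtain ⟨v, hv⟩ := z.2
  exact ⟨v, hv.trans hz'⟩

end H2T4
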