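import Mathlib

/-!
Row P6 (about 110 lines, Mathlib): a polynomial in two variables which vanishes exactly on a line is a power of the equation.

PROOF. Let u = C (C b - X * C a) - Y ∈ k[X][Y]. Put Ψ = Φ.comp (C (C b - X * C a) - Y) (substitution Y := (b - a X) - Y). For l, v ∈ k: Ψ.evalEval l v = Φ.evalEval l (b - l a - v) (evalEval, eval_comp), so it vanishes iff v = 0.
 Ψ = ∑_j a_j(X) Y^j. For fixed l, the polynomial Ψ_l = ∑ a_j(l) Y^j ∈ k[Y] (Ψ.map (evalRingHom l)) has value Ψ.evalEval l v at v, so its only root is 0 and it is not the zero polynomial (value at 1 is not zero): Ψ_l = C c * Y^m (IsAlgClosed.splits, all roots 0: Ψ_l = C c * prod over roots (Y - r)),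
 so exactly one coefficient a_j(l) is non zero. If a_i ≠ 0 and a_j ≠ 0 for i ≠ j, then a_i(l) a_j(l) = 0 for all l, so a_i a_j = 0 (Polynomial.funext, k infinite): contradiction. So Ψ = C (a_m) * Y^m for one m (Ψ ≠ 0), and a_m has no root (a_m(l) ≠ 0 for all l), so a_m = C c, c ≠ 0 (IsAlgClosed.exists_root).
 Then Φ = Ψ.comp (C (C b - X * C a) - Y) (the substitution is an involution: comp_assoc) = C (C c) * u^m.
-/

/-!
Row P6 (about 110 lines, Mathlib): a polynomial in two variables which vanishes exactly on a line is a power of the equation.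

PROOF. Let u = C (C b - X * C a) - Y ∈ k[X][Y]. Put Ψ = Φ.comp (C (C b - X * C a) - Y) (substitution Y := (b - a X) - Y). For l, v ∈ k: Ψ.evalEval l v = Φ.evalEval l (b - l a - v) (evalEval, eval_comp), so it vanishes iff v = 0.
 Ψ = ∑_j a_j(X) Y^j. For fixed l, the polynomial Ψ_l = ∑ a_j(l) Y^j ∈ k[Y] (Ψ.map (evalRingHom l)) has value Ψ.evalEval l v at v, so its only root is 0 and it is not the zero polynomial (value at 1 is not zero): Ψ_l = C c * Y^m (IsAlgClosed.splits, all roots 0: Ψ_l = C c * prod over roots (Y - r)),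
 so exactly one coefficient a_j(l) is non zero. If a_i ≠ 0 and a_j ≠ 0 for i ≠ j, then a_i(l) a_j(l) = 0 for all l, so a_i a_j = 0 (Polynomial.funext, k infinite): contradiction. So Ψ = C (a_m) * Y^m for one m (Ψ ≠ 0), and a_m has no root (a_m(l) ≠ 0 for all l), so a_m = C c, c ≠ 0 (IsAlgClosed.exists_root).
 Then Φ = Ψ.comp (C (C b - X * C a) - Y) (the substitution is an involution: comp_assoc) = C (C c) * u^m.
-/

set_option autoImplicit false
open scoped Classical Polynomial.Bivariate

open Polynomial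

namespace H2T4

private theorem P6_ev {k : Type} [Field k] (Φ : k[X][Y]) (q : k[X]) (l : k) :
    (Φ.eval q).eval l = (Φ.map (evalRingHom l)).eval (q.eval l) := by
  rw [Polynomial.eval_map]
  have h := Polynomial.eval₂_at_apply (p := Φ) (evalRingHom l) q
  simp only [coe_evalRingHom] at h
  exact h.symm

private theorem P6_const {k : Type} [Field k] [IsAlgClosed k] (q : k[X])
    (h : ∀ v : k, q.eval v ≠ 0) : ∃ c : k, c ≠ 0 ∧ q = C c := by
  by_cases hd : q.degree = 0
  · have h1 := eq_C_of_degree_eq_zero hd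
    refine ⟨q.coeff 0, ?_, h1⟩
    intro h2
    rw [h2, map_zero] at h1
    exact h 0 (by rw [h1, eval_zero])
  · obtain ⟨x, hx⟩ := IsAlgClosed.exists_root q hd
    exact absurd hx (h x)

private theorem P6_one {k : Type} [Field k] [IsAlgClosed k] (p : k[X])
    (h : ∀ v : k, p.eval v = 0 ↔ v = 0) : ∃ (c : k) (m : ℕ), c ≠ 0 ∧ p = C c * X ^ m := by
  have hp : p ≠ 0 := by
    rintro rfl
    exact one_ne_zero ((h 1).1 eval_zero)
  obtain ⟨q, hq, hd⟩ := Polynomial.exists_eq_pow_rootMultiplicity_mul_and_not_dvd p hp 0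
  obtain ⟨c, hc, hqc⟩ := P6_const q (by
    intro v hv
    have h1 : p.eval v = 0 := by rw [hq, eval_mul, hv, mul_zero]
    have h2 := (h v).1 h1
    subst h2
    exact hd (dvd_iff_isRoot.2 hv))
  refine ⟨c, rootMultiplicity 0 p, hc, ?_⟩
  rw [hqc, map_zero, sub_zero] at hq
  rw [mul_comm]
  exact hq

theorem line_power {k : Type} [Field k] [IsAlgClosed k] (Φ : k[X][Y]) (a b : k)
    (h : ∀ l v : k, Φ.evalEval l v = 0 ↔ v = b - l * a) :
    ∃ (c : k) (m : ℕ), c ≠ 0 ∧ Φ = C (C c) * (C (C b - X * C a) - Y) ^ m := by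
  have hu : ((C (C b - X * C a) - Y : k[X][Y])).comp (C (C b - X * C a) - Y) = Y := by
    rw [sub_comp, C_comp, X_comp]
    ring
  have hval : ∀ l v : k, ((Φ.comp (C (C b - X * C a) - Y)).map (evalRingHom l)).eval v = 0 ↔
      v = 0 := by
    intro l v
    have h1 := P6_ev (Φ.comp (C (C b - X * C a) - Y)) (C v) l
    rw [eval_C] at h1
    rw [← h1, eval_comp, eval_sub, eval_C, eval_X, P6_ev]
    have h2 := P6_ev Φ (C (b - l * a - v)) l
    rw [eval_C] at h2
    have h3 : eval l (C b - X * C a - C v) = b - l * a - v := by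
      simp only [eval_sub, eval_mul, eval_C, eval_X]
    rw [h3, ← h2]
    have h4 := h l (b - l * a - v)
    rw [evalEval] at h4
    rw [h4]
    constructor
    · intro h5
      linear_combination -h5
    · intro h5
      rw [h5, sub_zero]
  have hco : ∀ l : k, ∃ m : ℕ, eval l ((Φ.comp (C (C b - X * C a) - Y)).coeff m) ≠ 0 ∧
      ∀ j, j ≠ m → eval l ((Φ.comp (C (C b - X * C a) - Y)).coeff j) = 0 := by
    intro l
    obtain ⟨c, m, hc, hcm⟩ := P6_one _ (hval l)
    refine ⟨m, ?_, ?_⟩
    · have h1 := congrArg (fun p => coeff p m) hcm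
      simp only [coeff_map, coe_evalRingHom, coeff_C_mul_X_pow, if_true] at h1
      rw [h1]
      exact hc
    · intro j hj
      have h1 := congrArg (fun p => coeff p j) hcm
      simp only [coeff_map, coe_evalRingHom, coeff_C_mul_X_pow, if_neg hj] at h1
      exact h1
  set Ψ : k[X][Y] := Φ.comp (C (C b - X * C a) - Y) with hΨ
  obtain ⟨m, hm, -⟩ := hco 0
  have hm0 : Ψ.coeff m ≠ 0 := by
    intro h1
    rw [h1, eval_zero] at hm
    exact hm rfl
  have hj : ∀ j, j ≠ m → Ψ.coeff j = 0 := by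
    intro j hjm
    have h1 : Ψ.coeff j * Ψ.coeff m = 0 := by
      apply Polynomial.funext
      intro l
      rw [eval_mul, eval_zero]
      obtain ⟨m', -, h2⟩ := hco l
      by_cases h3 : j = m'
      · rw [h2 m (fun h4 => hjm (h3.trans h4.symm)), mul_zero]
      · rw [h2 j h3, zero_mul]
    rcases mul_eq_zero.1 h1 with h2 | h2
    · exact h2
    · exact absurd h2 hm0
  obtain ⟨c, hc, hcm⟩ := P6_const (Ψ.coeff m) (by
    intro l
    obtain ⟨m', h1, -⟩ := hco l
    by_cases h3 : m' = m
    · rw [h3] at h1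
      exact h1
    · rw [hj m' h3, eval_zero] at h1
      exact absurd rfl h1)
  refine ⟨c, m, hc, ?_⟩
  have hΨe : Ψ = C (C c) * X ^ m := by
    ext1 j
    rw [coeff_C_mul_X_pow]
    by_cases h1 : j = m
    · rw [if_pos h1, h1, hcm]
    · rw [if_neg h1, hj j h1]
  have hback : Φ = Ψ.comp (C (C b - X * C a) - Y) := by
    rw [hΨ, comp_assoc, hu, comp_X]
  rw [hback, hΨe, mul_comp, C_comp, pow_comp, X_comp]

end H2T4
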