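import Pool.Agent.H2.T4.PDf

/-!
Row P7 (about 150 lines, Mathlib): the product of the values of p(x) + q(x) y over the intersection of the curve with the line y = l x + v is a polynomial in l, v.

PROOF. exists_norm_poly: A := k[X][Y], i := (C.comp C : k →+* A), lam := C X, nu := Y ∈ A. cub := X^3 + C (i a₂) X^2 + C (i a₄) X + C (i a₆) - (C lam * X + C nu)^2 - (C (i a₁) * X + C (i a₃)) (C lam * X + C nu) ∈ A[X],
  F := p.map i + q.map i * (C lam * X + C nu) ∈ A[X], Φ := resultant cub F 3 F.natDegree. θ := eval₂RingHom (eval₂RingHom φ l) v : A →+* M; θ ∘ i = φ, θ lam = l, θ nu = v and θ Φ = ev2 φ Φ l v (rfl). Polynomial.resultant_map_map: θ Φ = resultant (cub.map θ) (F.map θ) 3 F.natDegree,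
  cub.map θ = lineCubic W φ l v = (X - C x₁)(X - C x₂)(X - C x₃), F.map θ = p.map φ + q.map φ * (C l * X + C v) has natDegree ≤ F.natDegree. resultant_mul_left twice (the factors have natDegree 1, 1, 1) and resultant_X_sub_C_left: = product of (F.map θ).eval x_i; eval_map.
 line_of_points: Affine.addPolynomial_slope for W.map φ: (W.map φ).addPolynomial x₁ y₁ slope = - (...); addPolynomial = polynomial.eval (linePolynomial x₁ y₁ slope) = - lineCubic W φ slope (y₁ - slope * x₁) (Affine.addPolynomial_eq, Cubic.toPoly; linePolynomial = C l (X - C x₁) + C y₁).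
 line_root: eval and Affine.equation_iff.
 third_point: - (some x₁ y₁ + some x₂ y₂) = some (addX) (negY addX addY) and negY addX (addY) = negAddY = l * (addX - x₁) + y₁ (Affine.Point.add_some, neg_some, addY, negAddY, negY_negY).
-/

set_option autoImplicit false
open scoped Classical nonZeroDivisors Polynomial.Bivariate

open WeierstrassCurve Polynomial Pool.Agent.H10

namespace H2T4

variable {k : Type} [Field k] (W : WeierstrassCurve k)

private lemma P7_res3 {M : Type} [Field M] (x₁ x₂ x₃ : M) (g : M[X]) (n : ℕ) (hn : g.natDegree ≤ n) :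
    resultant ((X - C x₁) * (X - C x₂) * (X - C x₃)) g 3 n = g.eval x₁ * g.eval x₂ * g.eval x₃ := by
  have h12 : ((X - C x₁) * (X - C x₂) : M[X]).natDegree = 2 := by
    rw [natDegree_mul (X_sub_C_ne_zero _) (X_sub_C_ne_zero _), natDegree_X_sub_C, natDegree_X_sub_C]
  have e1 := resultant_mul_left ((X - C x₁) * (X - C x₂)) (X - C x₃) g n hn
  have e2 := resultant_mul_left (X - C x₁) (X - C x₂) g n hn
  rw [h12, natDegree_X_sub_C] at e1
  rw [natDegree_X_sub_C, natDegree_X_sub_C] at e2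
  rw [show (3 : ℕ) = 2 + 1 from rfl, e1, show (2 : ℕ) = 1 + 1 from rfl, e2,
    resultant_X_sub_C_left g n x₁ hn, resultant_X_sub_C_left g n x₂ hn,
    resultant_X_sub_C_left g n x₃ hn]

theorem exists_norm_poly (p q : k[X]) : ∃ Φ : k[X][Y], ∀ (M : Type) [Field M] (φ : k →+* M)
    (l v x₁ x₂ x₃ : M), lineCubic W φ l v = (X - C x₁) * (X - C x₂) * (X - C x₃) →
    ev2 φ Φ l v = (p.eval₂ φ x₁ + q.eval₂ φ x₁ * (l * x₁ + v)) *
      (p.eval₂ φ x₂ + q.eval₂ φ x₂ * (l * x₂ + v)) * (p.eval₂ φ x₃ + q.eval₂ φ x₃ * (l * x₃ + v)) := by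
  obtain ⟨i, hi⟩ : ∃ i : k →+* k[X][Y], i = (C : k[X] →+* k[X][Y]).comp (C : k →+* k[X]) := ⟨_, rfl⟩
  obtain ⟨lam, hlam⟩ : ∃ lam : k[X][Y], lam = C X := ⟨_, rfl⟩
  obtain ⟨nu, hnu⟩ : ∃ nu : k[X][Y], nu = X := ⟨_, rfl⟩
  obtain ⟨cub, hcub⟩ : ∃ cub : (k[X][Y])[X], cub = X ^ 3 + C (i W.a₂) * X ^ 2 + C (i W.a₄) * X +
    C (i W.a₆) - (C lam * X + C nu) ^ 2 - (C (i W.a₁) * X + C (i W.a₃)) * (C lam * X + C nu) := ⟨_, rfl⟩
  obtain ⟨F, hF⟩ : ∃ F : (k[X][Y])[X], F = p.map i + q.map i * (C lam * X + C nu) := ⟨_, rfl⟩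
  refine ⟨resultant cub F 3 F.natDegree, fun M _ φ l v x₁ x₂ x₃ hc => ?_⟩
  obtain ⟨θ, hθ⟩ : ∃ θ : k[X][Y] →+* M, θ = eval₂RingHom (eval₂RingHom φ l) v := ⟨_, rfl⟩
  have hθi : θ.comp i = φ := by
    ext c
    simp [hθ, hi]
  have hθi' : ∀ c, θ (i c) = φ c := fun c => by rw [← hθi]; rfl
  have hθl : θ lam = l := by simp [hθ, hlam]
  have hθn : θ nu = v := by simp [hθ, hnu]
  have h0 : ev2 φ (resultant cub F 3 F.natDegree) l v = θ (resultant cub F 3 F.natDegree) := by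
    rw [hθ]; rfl
  have hmc : cub.map θ = lineCubic W φ l v := by
    rw [hcub, lineCubic]
    simp only [Polynomial.map_add, Polynomial.map_sub, Polynomial.map_mul, Polynomial.map_pow, map_X, map_C,
      hθi', hθl, hθn]
  have hmF : F.map θ = p.map φ + q.map φ * (C l * X + C v) := by
    rw [hF]
    simp only [Polynomial.map_add, Polynomial.map_mul, map_X, map_C, hθl, hθn, Polynomial.map_map, hθi]
  rw [h0, ← resultant_map_map, hmc, hc, P7_res3 x₁ x₂ x₃ _ _ natDegree_map_le, hmF]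
  simp only [eval_add, eval_mul, eval_C, eval_X, eval_map]

theorem line_of_points {M : Type} [Field M] (φ : k →+* M) (x₁ y₁ x₂ y₂ : M)
    (h₁ : (W.map φ).toAffine.Equation x₁ y₁) (h₂ : (W.map φ).toAffine.Equation x₂ y₂)
    (hxy : ¬(x₁ = x₂ ∧ y₁ = (W.map φ).toAffine.negY x₂ y₂)) :
    lineCubic W φ ((W.map φ).toAffine.slope x₁ x₂ y₁ y₂)
        (y₁ - (W.map φ).toAffine.slope x₁ x₂ y₁ y₂ * x₁) =
      (X - C x₁) * (X - C x₂) *
        (X - C ((W.map φ).toAffine.addX x₁ x₂ ((W.map φ).toAffine.slope x₁ x₂ y₁ y₂))) := by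
  have h := Affine.addPolynomial_slope h₁ h₂ hxy
  rw [← neg_eq_iff_eq_neg] at h
  rw [← h]
  generalize (W.map φ).toAffine.slope x₁ x₂ y₁ y₂ = l
  rw [lineCubic, Affine.addPolynomial, Affine.linePolynomial, Affine.polynomial]
  simp only [eval_add, eval_sub, eval_mul, eval_pow, eval_X, eval_C, map_a₁, map_a₂, map_a₃, map_a₄, map_a₆,
    map_sub, map_mul]
  ring

theorem line_root {M : Type} [Field M] (φ : k →+* M) (l v x : M) :
    (lineCubic W φ l v).eval x = 0 ↔ (W.map φ).toAffine.Equation x (l * x + v) := by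
  rw [Affine.equation_iff, lineCubic]
  simp only [eval_add, eval_sub, eval_mul, eval_pow, eval_X, eval_C, map_a₁, map_a₂, map_a₃, map_a₄, map_a₆]
  constructor
  · intro h
    linear_combination -h
  · intro h
    linear_combination -h

/-- the third point of intersection -/
theorem third_point {M : Type} [Field M] (φ : k →+* M) (x₁ y₁ x₂ y₂ : M)
    (h₁ : (W.map φ).toAffine.Nonsingular x₁ y₁) (h₂ : (W.map φ).toAffine.Nonsingular x₂ y₂)
    (hxy : ¬(x₁ = x₂ ∧ y₁ = (W.map φ).toAffine.negY x₂ y₂)) (l x₃ : M)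
    (hl : l = (W.map φ).toAffine.slope x₁ x₂ y₁ y₂) (hx₃ : x₃ = (W.map φ).toAffine.addX x₁ x₂ l) :
    ∃ h : (W.map φ).toAffine.Nonsingular x₃ (l * x₃ + (y₁ - l * x₁)),
      -((.some x₁ y₁ h₁ : (W.map φ).toAffine.Point) + .some x₂ y₂ h₂) = .some _ _ h := by
  subst hl
  subst hx₃
  have hn := Affine.nonsingular_negAdd h₁ h₂ hxy
  obtain ⟨l, hl⟩ : ∃ l, l = (W.map φ).toAffine.slope x₁ x₂ y₁ y₂ := ⟨_, rfl⟩
  have he : (W.map φ).toAffine.negAddY x₁ x₂ y₁ ((W.map φ).toAffine.slope x₁ x₂ y₁ y₂) =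
      (W.map φ).toAffine.slope x₁ x₂ y₁ y₂ * (W.map φ).toAffine.addX x₁ x₂ ((W.map φ).toAffine.slope x₁ x₂ y₁ y₂) +
        (y₁ - (W.map φ).toAffine.slope x₁ x₂ y₁ y₂ * x₁) := by
    rw [Affine.negAddY]
    ring
  have hn' := hn
  rw [he] at hn'
  refine ⟨hn', ?_⟩
  rw [Affine.Point.add_some hxy, Affine.Point.neg_some]
  congr 1
  rw [Affine.addY, Affine.negY_negY, he]

end H2T4
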