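import Pool.Agent.H2.T4.P2
import Pool.Agent.H2.T4.P6
import Pool.Agent.H2.T4.P7
import Pool.Agent.H2.T4.P8

/-!
Row P9 (about 230 lines): f(Q₁) f(Q₂) f(- Q₁ - Q₂) is a constant times an n-th power. Use only the STATEMENTS of P1, P2, P6, P7, P8.

PROOF. key_vert: Q = some x y h: atP f Q * atP f (-Q) = evR f * evR (cjR f) (evR_neg, neg_some) = (norm f).eval₂ φ x (evR_norm) = φ c (x - φ a)^n (norm_f).
 key_line. f = p(x) + q(x) ry (exists_pq), Φ from exists_norm_poly, similarly fb := cjR f with Φb.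
 (1) for l, v ∈ k: Φ.evalEval l v = 0 ↔ v = b - l a. With φ = RingHom.id k, ev2 (id) Φ l v = Φ.evalEval l v (eval₂_id, evalEval). lineCubic W id l v is monic of degree 3 over k algebraically closed: = (X - C x₁)(X - C x₂)(X - C x₃) (IsAlgClosed.splits; a monic split cubic; e.g. take a root, divide, twice).
  The factors in exists_norm_poly are evR W id x_i (l x_i + v) f (line_root; evR_poly, evR_ry). (→) some factor vanishes at (x_i, y_i), y_i = l x_i + v: evR_norm and norm_f: c (x_i - a)^n = 0 so x_i = a, and y_i = b or y_i = negY a b (Affine.Y_eq_of_X_eq), the latter is excluded by atP_f_neg; so b = l a + v.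
  (←) v = b - l a: (lineCubic).eval a = 0 (line_root, the point (a, b) is on the curve), so a = x_i for some i and the factor is f at (a, b), zero by atP_f. line_power: Φ = C (C c) * (C (C b - X * C a) - Y)^m, c ≠ 0.
 (2) the same for fb and the point (a, bb), bb = negY a b (cjR_ideal; negY_negY): Φb = C (C cb) * (C (C bb - X * C a) - Y)^mb.
 (3) m = n: for l = 0 and all v ∈ k: c cb (b - v)^m (bb - v)^mb = Φ(0, v) Φb(0, v) = ∏_i evR f * evR (cjR f) at (x_i, v) = ∏_i c0 (x_i - a)^n = c0^3 (∏ (x_i - a))^n, and ∏ (x_i - a) = - (lineCubic W id 0 v).eval a = (v - b)(v - bb) because b + bb = - a₁ a - a₃ and b^2 + (a₁ a + a₃) b = a^3 + a₂ a^2 + a₄ a + a₆.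
  So the polynomials C (c cb) (C b - X)^m (C bb - X)^mb and C (c0^3) ((X - C b)(X - C bb))^n of k[X] are equal (Polynomial.funext); compare root multiplicities at b (b ≠ bb): m = n.
 (4) For M, φ, Q₁ = some x₁ y₁ h₁, Q₂ = some x₂ y₂ h₂, Q₁ + Q₂ ≠ 0 so not (x₁ = x₂ and y₁ = negY x₂ y₂) (Affine.Point.add_of_Y_eq): l = slope, v = y₁ - l x₁, x₃ = addX: line_of_points, exists_norm_poly: ev2 φ Φ l v = product of the three factors, which are atP f Q₁, atP f Q₂ (y₂ = l x₂ + v: line_root or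
  Affine.addPolynomial; for x₁ = x₂ then y₁ = y₂) and atP f (-(Q₁ + Q₂)) (third_point), and ev2 φ Φ l v = φ c * (φ b - l * φ a - v)^n.
-/

set_option autoImplicit false
open scoped Classical nonZeroDivisors Polynomial.Bivariate

open WeierstrassCurve Polynomial Pool.Agent.H10

namespace H2T4

variable {k : Type} [Field k] [IsAlgClosed k] (W : WeierstrassCurve k) [W.IsElliptic] {a b : k}
  (h : W.toAffine.Nonsingular a b)

include h in
theorem key_vert (n : ℕ) (f : RR W)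
    (hf : Ideal.span {f} = Affine.CoordinateRing.XYIdeal W.toAffine a (C b) ^ n) :
    ∃ c : k, c ≠ 0 ∧ ∀ (M : Type) [Field M] (φ : k →+* M) (x y : M)
      (h' : (W.map φ).toAffine.Nonsingular x y),
      atP W φ f (.some x y h') * atP W φ f (-(.some x y h')) = φ c * (x - φ a) ^ n := by
  obtain ⟨c, hc, hnorm⟩ := norm_f W h n f hf
  refine ⟨c, hc, fun M _ φ x y h' => ?_⟩
  rw [Affine.Point.neg_some]
  show evR W φ x y h'.1 f * evR W φ x ((W.map φ).toAffine.negY x y) _ f = _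
  rw [evR_neg W φ x y h'.1, evR_norm, hnorm, eval₂_mul, eval₂_C, eval₂_pow, eval₂_sub, eval₂_X,
    eval₂_C]

/-- A monic cubic splits. -/
theorem P9_split (l v : k) : ∃ x₁ x₂ x₃ : k, lineCubic W (RingHom.id k) l v =
    (X - C x₁) * (X - C x₂) * (X - C x₃) := by
  obtain ⟨P, hPa, hP⟩ : ∃ P : Cubic k, P.a = 1 ∧ P.toPoly = lineCubic W (RingHom.id k) l v := by
    refine ⟨⟨1, W.a₂ - l ^ 2 - W.a₁ * l, W.a₄ - 2 * l * v - W.a₁ * v - W.a₃ * l,
      W.a₆ - v ^ 2 - W.a₃ * v⟩, rfl, ?_⟩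
    simp only [Cubic.toPoly, lineCubic, RingHom.id_apply, map_sub, map_mul, map_pow, map_one,
      map_ofNat]
    ring
  have ha : P.a ≠ 0 := by rw [hPa]; exact one_ne_zero
  obtain ⟨x, y, z, h3⟩ := (Cubic.splits_iff_roots_eq_three (φ := RingHom.id k) ha).mp
    (IsAlgClosed.splits _)
  refine ⟨x, y, z, ?_⟩
  have h4 := Cubic.eq_prod_three_roots (φ := RingHom.id k) ha h3
  have h5 : (Cubic.map (RingHom.id k) P) = P := by
    cases P; rfl
  rw [h5, hP, RingHom.id_apply, hPa, map_one, one_mul] at h4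
  exact h4

theorem P9_evR_congr {M : Type} [Field M] (φ : k →+* M) (x y y' : M)
    (h1 : (W.map φ).toAffine.Equation x y) (h2 : (W.map φ).toAffine.Equation x y') (e : y = y')
    (f : RR W) : evR W φ x y h1 f = evR W φ x y' h2 f := by
  subst e
  rfl

theorem P9_one (g : RR W) (n : ℕ) (hn : n ≠ 0) {α β : k} (hαβ : W.toAffine.Nonsingular α β)
    (hne : β ≠ W.toAffine.negY α β)
    (hg : Ideal.span {g} = Affine.CoordinateRing.XYIdeal W.toAffine α (C β) ^ n) :
    ∃ (c : k) (m : ℕ), c ≠ 0 ∧ ∀ (M : Type) [Field M] (φ : k →+* M) (l v x₁ x₂ x₃ : M)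
      (h₁ : (W.map φ).toAffine.Equation x₁ (l * x₁ + v))
      (h₂ : (W.map φ).toAffine.Equation x₂ (l * x₂ + v))
      (h₃ : (W.map φ).toAffine.Equation x₃ (l * x₃ + v)),
      lineCubic W φ l v = (X - C x₁) * (X - C x₂) * (X - C x₃) →
      evR W φ x₁ _ h₁ g * evR W φ x₂ _ h₂ g * evR W φ x₃ _ h₃ g =
        φ c * (φ β - l * φ α - v) ^ m := by
  obtain ⟨p, q, hpq⟩ := exists_pq W g
  obtain ⟨Φ, hΦ⟩ := exists_norm_poly W p q
  have hval : ∀ (M : Type) [Field M] (φ : k →+* M) (x y : M)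
      (h' : (W.map φ).toAffine.Equation x y),
      evR W φ x y h' g = p.eval₂ φ x + q.eval₂ φ x * y := by
    intro M _ φ x y h'
    rw [hpq, map_add, map_mul, evR_poly, evR_poly, evR_ry]
  have hbase : ∀ l v : k, Φ.evalEval l v = 0 ↔ v = β - l * α := by
    intro l v
    obtain ⟨x₁, x₂, x₃, hx⟩ := P9_split W l v
    have hroot : ∀ x : k, (lineCubic W (RingHom.id k) l v).eval x = 0 ↔
        (W.map (RingHom.id k)).toAffine.Equation x (l * x + v) := fun x => line_root W _ l v x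
    have he1 := (hroot x₁).1 (by rw [hx]; simp)
    have he2 := (hroot x₂).1 (by rw [hx]; simp)
    have he3 := (hroot x₃).1 (by rw [hx]; simp)
    have hev : Φ.evalEval l v = ev2 (RingHom.id k) Φ l v := by
      rw [← eval₂_evalRingHom]
      rfl
    rw [hev, hΦ k (RingHom.id k) l v x₁ x₂ x₃ hx, ← hval k _ _ _ he1, ← hval k _ _ _ he2,
      ← hval k _ _ _ he3]
    have hαβ' : (W.map (RingHom.id k)).toAffine.Equation α β := by
      have := hαβ.1
      rw [Affine.equation_iff] at this ⊢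
      simpa using this
    have key : ∀ (x : k) (he : (W.map (RingHom.id k)).toAffine.Equation x (l * x + v)),
        evR W (RingHom.id k) x _ he g = 0 ↔ x = α ∧ l * x + v = β := by
      intro x he
      constructor
      · intro h0
        obtain ⟨c0, hc0, hnorm⟩ := norm_f W hαβ n g hg
        have h1 := evR_norm W (RingHom.id k) x _ he g
        rw [h0, zero_mul, hnorm] at h1
        simp only [eval₂_mul, eval₂_C, eval₂_pow, eval₂_sub, eval₂_X, RingHom.id_apply] at h1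
        have h2 : x = α := by
          rcases mul_eq_zero.1 h1.symm with h3 | h3
          · exact absurd h3 hc0
          · exact sub_eq_zero.1 (pow_eq_zero_iff hn |>.1 h3)
        refine ⟨h2, ?_⟩
        rcases Affine.Y_eq_of_X_eq he hαβ' h2 with h3 | h3
        · exact h3
        · exfalso
          have h4 : (W.map (RingHom.id k)).toAffine.negY α β = W.toAffine.negY α β := by
            simp [Affine.negY]
          rw [h4] at h3
          subst h2
          have h5 : (W.map (RingHom.id k)).toAffine.Equation x (W.toAffine.negY x β) := by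
            rw [← h3]; exact he
          apply atP_f_neg W n hne g hg h5
          rw [← h0]
          exact (P9_evR_congr W _ _ _ _ he h5 h3 g).symm
      · rintro ⟨rfl, h2⟩
        rw [P9_evR_congr W _ _ _ _ he hαβ' h2 g]
        exact atP_f W n hn g hg hαβ'
    rw [mul_eq_zero, mul_eq_zero, key, key, key]
    constructor
    · rintro ((⟨h1, h2⟩ | ⟨h1, h2⟩) | ⟨h1, h2⟩) <;>
      · rw [h1] at h2
        linear_combination h2
    · intro hv
      have h1 : (lineCubic W (RingHom.id k) l v).eval α = 0 := by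
        rw [hroot]
        have h2 : l * α + v = β := by rw [hv]; ring
        rw [h2]
        exact hαβ'
      rw [hx] at h1
      simp only [eval_mul, eval_sub, eval_X, eval_C, mul_eq_zero, sub_eq_zero] at h1
      rcases h1 with (h1 | h1) | h1
      · left; left; exact ⟨h1.symm, by rw [hv, ← h1]; ring⟩
      · left; right; exact ⟨h1.symm, by rw [hv, ← h1]; ring⟩
      · right; exact ⟨h1.symm, by rw [hv, ← h1]; ring⟩
  obtain ⟨c, m, hc, hΦ2⟩ := line_power Φ α β hbase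
  refine ⟨c, m, hc, fun M _ φ l v x₁ x₂ x₃ h₁ h₂ h₃ hx => ?_⟩
  rw [hval, hval, hval, ← hΦ M φ l v x₁ x₂ x₃ hx, hΦ2, ev2, eval₂_mul, eval₂_C, eval₂_pow,
    eval₂_sub, eval₂_C, eval₂_X]
  simp
  left
  rw [mul_comm (φ α) l]

theorem P9_mult {c c' c0 b bb : k} (hc : c ≠ 0) (hc' : c' ≠ 0) (hc0 : c0 ≠ 0) (hb : b ≠ bb)
    (m m' n : ℕ) (H : ∀ v : k, c * (b - v) ^ m * (c' * (bb - v) ^ m') =
      c0 * ((v - b) * (v - bb)) ^ n) : m = n := by
  have hinf : Infinite k := IsAlgClosed.instInfinite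
  have e : (C (c * (-1) ^ m) * (X - C b) ^ m) * (C c' * (C bb - X) ^ m') =
      (C c0 * (X - C b) ^ n) * (X - C bb) ^ n := by
    apply Polynomial.funext
    intro v
    have h1 := H v
    simp only [eval_mul, eval_pow, eval_sub, eval_X, eval_C]
    have h2 : c * (-1) ^ m * (v - b) ^ m = c * (b - v) ^ m := by
      rw [mul_assoc, ← mul_pow]
      congr 2
      ring
    rw [h2, h1, mul_pow]
    ring
  have hX : (X - C b : k[X]) ≠ 0 := X_sub_C_ne_zero b
  have h1 : rootMultiplicity b ((C (c * (-1) ^ m) * (X - C b) ^ m) * (C c' * (C bb - X) ^ m')) = m := by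
    have hA : (C (c * (-1) ^ m) : k[X]) ≠ 0 := by
      rw [Ne, C_eq_zero]
      exact mul_ne_zero hc (pow_ne_zero _ (by norm_num))
    have hB : ¬ IsRoot (C c' * (C bb - X) ^ m') b := by
      simp only [IsRoot, eval_mul, eval_C, eval_pow, eval_sub, eval_X]
      exact mul_ne_zero hc' (pow_ne_zero _ (sub_ne_zero.2 hb.symm))
    have hB0 : (C c' * (C bb - X) ^ m' : k[X]) ≠ 0 := by
      intro h0
      apply hB
      rw [h0]
      simp [IsRoot]
    have hA0 : (C (c * (-1) ^ m) * (X - C b) ^ m : k[X]) ≠ 0 := mul_ne_zero hA (pow_ne_zero _ hX)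
    rw [rootMultiplicity_mul (mul_ne_zero hA0 hB0), rootMultiplicity_mul hA0, rootMultiplicity_C,
      rootMultiplicity_X_sub_C_pow, rootMultiplicity_eq_zero hB]
    omega
  have h2 : rootMultiplicity b ((C c0 * (X - C b) ^ n) * (X - C bb) ^ n) = n := by
    have hA : (C c0 : k[X]) ≠ 0 := by
      rw [Ne, C_eq_zero]
      exact hc0
    have hB : ¬ IsRoot ((X - C bb : k[X]) ^ n) b := by
      simp only [IsRoot, eval_pow, eval_sub, eval_X, eval_C]
      exact pow_ne_zero _ (sub_ne_zero.2 hb)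
    have hB0 : ((X - C bb : k[X]) ^ n) ≠ 0 := pow_ne_zero _ (X_sub_C_ne_zero bb)
    have hA0 : (C c0 * (X - C b) ^ n : k[X]) ≠ 0 := mul_ne_zero hA (pow_ne_zero _ hX)
    rw [rootMultiplicity_mul (mul_ne_zero hA0 hB0), rootMultiplicity_mul hA0, rootMultiplicity_C,
      rootMultiplicity_X_sub_C_pow, rootMultiplicity_eq_zero hB]
    omega
  rw [← h1, e, h2]

include h in
theorem key_line (n : ℕ) (hn : n ≠ 0) (hb : b ≠ W.toAffine.negY a b) (f : RR W)
    (hf : Ideal.span {f} = Affine.CoordinateRing.XYIdeal W.toAffine a (C b) ^ n) :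
    ∃ c : k, c ≠ 0 ∧ ∀ (M : Type) [Field M] (φ : k →+* M) (Q₁ Q₂ : (W.map φ).toAffine.Point),
      Q₁ ≠ 0 → Q₂ ≠ 0 → Q₁ + Q₂ ≠ 0 →
      ∃ t : M, atP W φ f Q₁ * atP W φ f Q₂ * atP W φ f (-(Q₁ + Q₂)) = φ c * t ^ n := by
  obtain ⟨c, m, hc, H⟩ := P9_one W f n hn h hb hf
  have hneg : W.toAffine.negY a (W.toAffine.negY a b) = b := by
    simp only [Affine.negY]; ring
  have h' : W.toAffine.Nonsingular a (W.toAffine.negY a b) := (Affine.nonsingular_neg _ _).2 h
  obtain ⟨c', m', hc', H'⟩ := P9_one W (cjR W f) n hn h' (by rw [hneg]; exact hb.symm)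
    (cjR_ideal W a b n f hf)
  obtain ⟨c0, hc0, hnorm⟩ := norm_f W h n f hf
  have hm : m = n := by
    refine P9_mult (c0 := c0 ^ 3) hc hc' (pow_ne_zero _ hc0) hb m m' n fun v => ?_
    obtain ⟨x₁, x₂, x₃, hx⟩ := P9_split W 0 v
    have hroot : ∀ x : k, (lineCubic W (RingHom.id k) 0 v).eval x = 0 ↔
        (W.map (RingHom.id k)).toAffine.Equation x (0 * x + v) := fun x => line_root W _ 0 v x
    have he1 := (hroot x₁).1 (by rw [hx]; simp)
    have he2 := (hroot x₂).1 (by rw [hx]; simp)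
    have he3 := (hroot x₃).1 (by rw [hx]; simp)
    have e1 := H k (RingHom.id k) 0 v x₁ x₂ x₃ he1 he2 he3 hx
    have e2 := H' k (RingHom.id k) 0 v x₁ x₂ x₃ he1 he2 he3 hx
    have n1 := evR_norm W (RingHom.id k) x₁ _ he1 f
    have n2 := evR_norm W (RingHom.id k) x₂ _ he2 f
    have n3 := evR_norm W (RingHom.id k) x₃ _ he3 f
    rw [hnorm] at n1 n2 n3
    generalize evR W (RingHom.id k) x₁ _ he1 f = A1 at e1 n1
    generalize evR W (RingHom.id k) x₂ _ he2 f = A2 at e1 n2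
    generalize evR W (RingHom.id k) x₃ _ he3 f = A3 at e1 n3
    generalize evR W (RingHom.id k) x₁ _ he1 (cjR W f) = B1 at e2 n1
    generalize evR W (RingHom.id k) x₂ _ he2 (cjR W f) = B2 at e2 n2
    generalize evR W (RingHom.id k) x₃ _ he3 (cjR W f) = B3 at e2 n3
    simp only [eval₂_mul, eval₂_C, eval₂_pow, eval₂_sub, eval₂_X, RingHom.id_apply] at n1 n2 n3
    simp only [RingHom.id_apply, zero_mul, sub_zero] at e1 e2
    have ex : (x₁ - a) * (x₂ - a) * (x₃ - a) = (v - b) * (v - W.toAffine.negY a b) := by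
      have e3 : (lineCubic W (RingHom.id k) 0 v).eval a =
          ((X - C x₁) * (X - C x₂) * (X - C x₃) : k[X]).eval a := by rw [hx]
      simp only [lineCubic, RingHom.id_apply, eval_mul, eval_sub, eval_add, eval_pow, eval_X,
        eval_C] at e3
      have e4 := (Affine.equation_iff _ _).1 h.1
      simp only [Affine.negY]
      linear_combination e3 + e4
    rw [← ex, ← e1, ← e2, mul_pow, mul_pow]
    linear_combination (A2 * B2) * (A3 * B3) * n1 + (c0 * (x₁ - a) ^ n) * (A3 * B3) * n2 +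
      (c0 * (x₁ - a) ^ n) * (c0 * (x₂ - a) ^ n) * n3
  refine ⟨c, hc, fun M _ φ Q₁ Q₂ hQ₁ hQ₂ hQ => ?_⟩
  rcases Q₁ with _ | ⟨x₁, y₁, h₁⟩
  · exact absurd rfl hQ₁
  rcases Q₂ with _ | ⟨x₂, y₂, h₂⟩
  · exact absurd rfl hQ₂
  have hxy : ¬(x₁ = x₂ ∧ y₁ = (W.map φ).toAffine.negY x₂ y₂) := by
    rintro ⟨e1, e2⟩
    exact hQ (Affine.Point.add_of_Y_eq e1 e2)
  obtain ⟨l, hl⟩ : ∃ l, l = (W.map φ).toAffine.slope x₁ x₂ y₁ y₂ := ⟨_, rfl⟩
  obtain ⟨x₃, hx₃⟩ : ∃ x₃, x₃ = (W.map φ).toAffine.addX x₁ x₂ l := ⟨_, rfl⟩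
  have hcub := line_of_points W φ x₁ y₁ x₂ y₂ h₁.1 h₂.1 hxy
  rw [← hl, ← hx₃] at hcub
  obtain ⟨h₃, hsum⟩ := third_point W φ x₁ y₁ x₂ y₂ h₁ h₂ hxy l x₃ hl hx₃
  have hy₁ : l * x₁ + (y₁ - l * x₁) = y₁ := by ring
  have hy₂ : l * x₂ + (y₁ - l * x₁) = y₂ := by
    by_cases hx : x₁ = x₂
    · have : y₁ = y₂ := by
        rcases Affine.Y_eq_of_X_eq h₁.1 h₂.1 hx with h5 | h5
        · exact h5
        · exact absurd ⟨hx, h5⟩ hxy
      rw [← hx, ← this]
      ring
    · have hs := Affine.slope_of_X_ne (W := (W.map φ).toAffine) (y₁ := y₁) (y₂ := y₂) hx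
      have hd : x₁ - x₂ ≠ 0 := sub_ne_zero.2 hx
      rw [hl, hs]
      field_simp
      ring
  have k₁ : (W.map φ).toAffine.Equation x₁ (l * x₁ + (y₁ - l * x₁)) := by rw [hy₁]; exact h₁.1
  have k₂ : (W.map φ).toAffine.Equation x₂ (l * x₂ + (y₁ - l * x₁)) := by rw [hy₂]; exact h₂.1
  have hmain := H M φ l (y₁ - l * x₁) x₁ x₂ x₃ k₁ k₂ h₃.1 hcub
  refine ⟨φ b - l * φ a - (y₁ - l * x₁), ?_⟩
  rw [hsum, ← hm, ← hmain]
  show evR W φ x₁ y₁ h₁.1 f * evR W φ x₂ y₂ h₂.1 f * evR W φ x₃ _ h₃.1 f = _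
  rw [P9_evR_congr W φ _ _ _ k₁ h₁.1 hy₁ f, P9_evR_congr W φ _ _ _ k₂ h₂.1 hy₂ f]

end H2T4
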