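import Pool.Agent.H10.Pm
import Pool.Agent.H11.Divis2

/-!
Block P of MP_78d38b_T4 (helper2; definitions, no row): function field of an elliptic curve over an algebraically closed field
of characteristic zero, translations and multiplications, the Weil pairing as a relation.
-/

set_option autoImplicit false
open scoped Classical nonZeroDivisors Polynomial.Bivariate

open WeierstrassCurve Polynomial Pool.Agent.H10

namespace H2T4

variable {k : Type} [Field k] (W : WeierstrassCurve k)

/-- coordinate ring -/
abbrev RR := W.toAffine.CoordinateRing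

/-- function field -/
abbrev FF := W.toAffine.FunctionField

/-- constants of the function field -/
noncomputable def cst : k →+* FF W := algebraMap k (FF W)

/-- the coordinate `x` in the coordinate ring -/
noncomputable def rx : RR W := Affine.CoordinateRing.mk W.toAffine (C X)

/-- the coordinate `y` in the coordinate ring -/
noncomputable def ry : RR W := Affine.CoordinateRing.mk W.toAffine Y

lemma eval₂_polynomial {M : Type} [Field M] (φ : k →+* M) (a b : M)
    (h : (W.map φ).toAffine.Equation a b) : W.toAffine.polynomial.eval₂ (eval₂RingHom φ a) b = 0 := by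
  rw [Affine.equation_iff] at h
  simp only [map_a₁, map_a₂, map_a₃, map_a₄, map_a₆] at h
  simp only [Affine.polynomial, eval₂_add, eval₂_sub, eval₂_mul, eval₂_pow, eval₂_X, eval₂_C,
    coe_eval₂RingHom]
  linear_combination h

/-- evaluation at a point -/
noncomputable def evR {M : Type} [Field M] (φ : k →+* M) (a b : M)
    (h : (W.map φ).toAffine.Equation a b) : RR W →+* M :=
  AdjoinRoot.lift (eval₂RingHom φ a) b (eval₂_polynomial W φ a b h)

/-- value of a regular function at a point (`0` at the point at infinity) -/
noncomputable def atP {M : Type} [Field M] (φ : k →+* M) (f : RR W) :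
    (W.map φ).toAffine.Point → M
  | 0 => 0
  | .some a b h => evR W φ a b h.1 f

lemma gen_equation : (W.map (cst W)).toAffine.Equation (algebraMap (RR W) (FF W) (rx W))
    (algebraMap (RR W) (FF W) (ry W)) := by
  rw [Affine.equation_iff]
  simp only [map_a₁, map_a₂, map_a₃, map_a₄, map_a₆]
  have h : Affine.CoordinateRing.mk W.toAffine W.toAffine.polynomial = 0 := AdjoinRoot.mk_self
  have hc : ∀ c : k, cst W c = algebraMap (RR W) (FF W) (Affine.CoordinateRing.mk W.toAffine (C (C c))) := by
    intro c
    exact IsScalarTower.algebraMap_apply k (RR W) (FF W) c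
  have h2 := congrArg (algebraMap (RR W) (FF W)) h
  rw [map_zero] at h2
  simp only [Affine.polynomial, map_add, map_sub, map_mul, map_pow] at h2
  rw [hc, hc, hc, hc, hc]
  simp only [rx, ry]
  linear_combination h2

/-- the generic point -/
noncomputable def gen [W.IsElliptic] : (W.map (cst W)).toAffine.Point :=
  .some _ _ (Affine.equation_iff_nonsingular.mp (gen_equation W))

/-- a point as a constant point -/
noncomputable def bcP : W.toAffine.Point →+ (W.map (cst W)).toAffine.Point := pm (cst W) rfl

lemma eval₂_polynomial' {S : Type} [CommRing S] (i : k[X] →+* S) (b : S) :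
    W.toAffine.polynomial.eval₂ i b = b ^ 2 + i (C W.a₁ * X + C W.a₃) * b -
      i (X ^ 3 + C W.a₂ * X ^ 2 + C W.a₄ * X + C W.a₆) := by
  simp only [Affine.polynomial, eval₂_add, eval₂_sub, eval₂_mul, eval₂_pow, eval₂_X, eval₂_C]

/-- `y ↦ - y - a₁ x - a₃` on the coordinate ring -/
noncomputable def cjR : RR W →+* RR W :=
  AdjoinRoot.lift (AdjoinRoot.of W.toAffine.polynomial)
    (-(ry W) - AdjoinRoot.of W.toAffine.polynomial (C W.a₁ * X + C W.a₃)) (by
      have h := AdjoinRoot.eval₂_root W.toAffine.polynomial
      rw [eval₂_polynomial'] at h ⊢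
      change _ = _ at h
      have hr : ry W = AdjoinRoot.root W.toAffine.polynomial := rfl
      rw [hr]
      linear_combination h)

/-- `ψ` is a homomorphism of the function field to `M` over `φ` which moves the generic point to `Q` -/
def Moves [W.IsElliptic] {M : Type} [Field M] (φ : k →+* M) (ψ : FF W →+* M)
    (Q : (W.map φ).toAffine.Point) : Prop :=
  ∃ h : (W.map (cst W)).map ψ = W.map φ, (∀ c, ψ (cst W c) = φ c) ∧ pm ψ h (gen W) = Q

/-- `ζ` is the Weil pairing of `P` and `T` (level `n`): `f` has divisor `n P - n O`, `g ^ n = f ∘ [n]`, `g(G + T) = ζ g(G)` -/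
def IsWeil [W.IsElliptic] (n : ℕ) (P T : W.toAffine.Point) (ζ : k) : Prop :=
  ∃ (x y : k) (h : W.toAffine.Nonsingular x y) (f : RR W) (g : FF W) (μ τ : FF W →+* FF W),
    P = .some x y h ∧ Ideal.span {f} = Affine.CoordinateRing.XYIdeal W.toAffine x (C y) ^ n ∧
    Moves W (cst W) μ (n • gen W) ∧ Moves W (cst W) τ (gen W + bcP W T) ∧ g ≠ 0 ∧
    g ^ n = μ (algebraMap (RR W) (FF W) f) ∧ τ g = cst W ζ * g

/-- the cubic whose roots are the `x`-coordinates of the intersection with the line `y = l x + v` -/
noncomputable def lineCubic {M : Type} [Field M] (φ : k →+* M) (l v : M) : M[X] :=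
  X ^ 3 + C (φ W.a₂) * X ^ 2 + C (φ W.a₄) * X + C (φ W.a₆) - (C l * X + C v) ^ 2 -
    (C (φ W.a₁) * X + C (φ W.a₃)) * (C l * X + C v)

/-- the value of a polynomial in `l`, `v` -/
noncomputable def ev2 {M : Type} [Field M] (φ : k →+* M) (Φ : k[X][Y]) (l v : M) : M :=
  Φ.eval₂ (eval₂RingHom φ l) v

end H2T4
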